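import Pool.Agent.MP_855f4c_ag.TC.Ta

set_option linter.all false

section

/-! h14a, row JRET: the projectors onto a line form a retract of an affine space. -/

set_option autoImplicit false

open MvPolynomial

namespace Pool.Agent.MP_855f4c_ag.T.Jr

open YJ CategoryTheory AlgebraicGeometry

section
variable {R R' D D' A I : Type} [CommRing R] [CommRing R'] [CommRing D] [CommRing D']
  [Fintype A] [Fintype I]

/-- `e` is a projector onto the line spanned by the columns of `Q`. -/
def PQ (Q : A → I → D) (e : A × A → D) : Prop :=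
  RK e ∧ ∀ a b c i, e (a, b) * Q c i = e (c, b) * Q a i

/-- `Q` has rank one, and `Q S` has trace one. -/
def Ln (Q : A → I → D) (S : I → A → D) : Prop :=
  (∀ a c i j, Q a i * Q c j = Q c i * Q a j) ∧ ∑ a, ∑ i, Q a i * S i a = 1

/-- The product `Q S`. -/
def pr (Q : A → I → D) (S : I → A → D) : A × A → D := fun p => ∑ i, Q p.1 i * S i p.2

/-- The matrix `π + π n (1 - π)`, `π = Q S`. -/
def rt (Q : A → I → D) (S : I → A → D) (n : A × A → D) : A × A → D := fun p =>
  pr Q S p + ∑ c, pr Q S (p.1, c) * (n (c, p.2) - ∑ d, n (c, d) * pr Q S (d, p.2))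

theorem Ln.map {Q : A → I → D} {S : I → A → D} (h : Ln Q S) (ψ : D →+* D') :
    Ln (fun a i => ψ (Q a i)) fun i a => ψ (S i a) :=
  ⟨fun a c i j => by rw [← map_mul, ← map_mul, h.1], by
    simpa only [map_sum, map_mul, map_one] using congrArg ψ h.2⟩

omit [Fintype A] in
theorem map_pr (ψ : D →+* D') (Q : A → I → D) (S : I → A → D) (p : A × A) :
    ψ (pr Q S p) = pr (fun a i => ψ (Q a i)) (fun i a => ψ (S i a)) p := by
  simp only [pr, map_sum, map_mul]

theorem map_rt (ψ : D →+* D') (Q : A → I → D) (S : I → A → D) (n : A × A → D) (p : A × A) :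
    ψ (rt Q S n p) = rt (fun a i => ψ (Q a i)) (fun i a => ψ (S i a)) (fun q => ψ (n q)) p := by
  simp only [rt, map_add, map_sum, map_mul, map_sub, map_pr]

theorem Ln.pq {Q : A → I → D} {S : I → A → D} (h : Ln Q S) : PQ Q (pr Q S) := by
  refine ⟨⟨h.2, fun k l m n => ?_⟩, fun a b c i => ?_⟩
  · simp only [pr, Finset.sum_mul_sum]
    rw [Finset.sum_comm]
    refine Finset.sum_congr rfl fun i _ => Finset.sum_congr rfl fun j _ => ?_
    linear_combination (S j l * S i n) * h.1 k m j i
  · simp only [pr, Finset.sum_mul]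
    refine Finset.sum_congr rfl fun j _ => ?_
    linear_combination (S j b) * h.1 a c j i

theorem PQ.left {Q : A → I → D} {S : I → A → D} (h : Ln Q S) {e : A × A → D} (he : PQ Q e)
    (a b : A) : ∑ c, pr Q S (a, c) * e (c, b) = e (a, b) := by
  rw [← mul_one (e (a, b)), ← h.2, Finset.mul_sum]
  refine Finset.sum_congr rfl fun c _ => ?_
  simp only [pr, Finset.sum_mul, Finset.mul_sum]
  refine Finset.sum_congr rfl fun i _ => ?_
  linear_combination (-S i c) * he.2 a b c i

theorem PQ.right {Q : A → I → D} (S : I → A → D) {e : A × A → D} (he : PQ Q e)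
    (a b : A) : ∑ c, e (a, c) * pr Q S (c, b) = pr Q S (a, b) := by
  rw [← one_mul (pr Q S (a, b)), ← he.1.1, Finset.sum_mul]
  refine Finset.sum_congr rfl fun c _ => ?_
  simp only [pr, Finset.mul_sum]
  refine Finset.sum_congr rfl fun i _ => ?_
  linear_combination (S i b) * he.2 a c c i

theorem PQ.rt {Q : A → I → D} {S : I → A → D} (h : Ln Q S) {e : A × A → D} (he : PQ Q e) :
    rt Q S e = e := by
  funext p
  simp only [Jr.rt, he.right, mul_sub, Finset.sum_sub_distrib, he.left h, h.pq.left h]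
  ring

theorem Ln.rt {Q : A → I → D} {S : I → A → D} (h : Ln Q S) (n : A × A → D) :
    PQ Q (rt Q S n) := by
  have e : Jr.rt Q S n = pr Q fun i b =>
      S i b + ∑ c, S i c * (n (c, b) - ∑ d, n (c, d) * pr Q S (d, b)) := by
    funext p
    simp only [Jr.rt, pr, mul_add, Finset.sum_add_distrib, Finset.mul_sum _ _ (Q _ _),
      Finset.sum_mul _ _ (n _ - _), mul_assoc]
    rw [Finset.sum_comm]
  have t : ∑ a, Jr.rt Q S n (a, a) = 1 := by
    have h1 : ∑ a, ∑ c, pr Q S (a, c) * ∑ d, n (c, d) * pr Q S (d, a) =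
        ∑ a, ∑ c, pr Q S (a, c) * n (c, a) := by
      simp only [Finset.mul_sum]
      rw [Finset.sum_comm, Finset.sum_comm (f := fun a c => pr Q S (a, c) * n (c, a))]
      refine Finset.sum_congr rfl fun c _ => ?_
      rw [Finset.sum_comm]
      refine Finset.sum_congr rfl fun d _ => ?_
      rw [← h.pq.left h d c, Finset.sum_mul]
      exact Finset.sum_congr rfl fun a _ => by ring
    simp only [Jr.rt, mul_sub, Finset.sum_add_distrib, Finset.sum_sub_distrib, h1, h.pq.1.1]
    ring
  rw [e] at t ⊢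
  exact Ln.pq ⟨h.1, t⟩

/-- The equations of the projectors. -/
noncomputable def JI (Q : A → I → R) : Ideal (MvPolynomial (A × A) R) :=
  I0 R A ⊔ Ideal.span (Set.range fun q : A × A × A × I =>
    X (q.1, q.2.1) * C (Q q.2.2.1 q.2.2.2) - X (q.2.2.1, q.2.1) * C (Q q.1 q.2.2.2))

/-- The ring of the projectors. -/
abbrev JQ (Q : A → I → R) : Type := MvPolynomial (A × A) R ⧸ JI Q

/-- The universal projector. -/
noncomputable def je (Q : A → I → R) : A × A → JQ Q := fun p => Ideal.Quotient.mk _ (X p)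

omit [Fintype I] in
theorem JI_le (Q : A → I → R) (φ : MvPolynomial (A × A) R →+* D) :
    JI Q ≤ RingHom.ker φ ↔ PQ (fun a i => φ (C (Q a i))) fun p => φ (X p) := by
  simp only [JI, sup_le_iff, I0_le, Ideal.span_le, Set.range_subset_iff, SetLike.mem_coe,
    RingHom.mem_ker, map_sub, map_mul, sub_eq_zero, PQ, Prod.forall]

omit [Fintype I] in
theorem pq_je (Q : A → I → R) : PQ (fun a i => algebraMap R (JQ Q) (Q a i)) (je Q) :=
  (JI_le Q _).1 Ideal.mk_ker.ge

/-- The homomorphism given by a projector. -/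
noncomputable def lift (Q : A → I → R) (ψ : R →+* D) (e : A × A → D)
    (h : PQ (fun a i => ψ (Q a i)) e) : JQ Q →+* D :=
  Ideal.Quotient.lift _ (eval₂Hom ψ e) ((JI_le Q _).2 (by simpa using h))

omit [Fintype I] in
@[simp] theorem lift_je (Q : A → I → R) (ψ : R →+* D) (e : A × A → D)
    (h : PQ (fun a i => ψ (Q a i)) e) (p : A × A) : lift Q ψ e h (je Q p) = e p :=
  eval₂Hom_X' _ _ _

omit [Fintype I] in
@[simp] theorem lift_alg (Q : A → I → R) (ψ : R →+* D) (e : A × A → D)
    (h : PQ (fun a i => ψ (Q a i)) e) (r : R) : lift Q ψ e h (algebraMap R _ r) = ψ r :=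
  eval₂Hom_C _ _ _

omit [Fintype I] in
theorem jq_ext {Q : A → I → R} {φ φ' : JQ Q →+* D}
    (h : ∀ r, φ (algebraMap R _ r) = φ' (algebraMap R _ r)) (h' : ∀ p, φ (je Q p) = φ' (je Q p)) :
    φ = φ' :=
  Ideal.Quotient.ringHom_ext (ringHom_ext h h')

/-- The section `e ↦ π + π n (1 - π)`. -/
noncomputable def sec {Q : A → I → R} {S : I → A → R} (h : Ln Q S) :
    JQ Q →ₐ[R] MvPolynomial (A × A) R :=
  { lift Q C _ ((h.map C).rt X) with commutes' := lift_alg _ _ _ _ }

theorem sec_je {Q : A → I → R} {S : I → A → R} (h : Ln Q S) (p : A × A) :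
    sec h (je Q p) = rt (fun a i => C (Q a i)) (fun i a => C (S i a)) X p :=
  lift_je Q C _ ((h.map C).rt X) p

theorem mk_sec {Q : A → I → R} {S : I → A → R} (h : Ln Q S) :
    (Ideal.Quotient.mkₐ R (JI Q)).comp (sec h) = AlgHom.id R _ := by
  refine AlgHom.coe_ringHom_injective (jq_ext (fun r => ?_) fun p => ?_)
  · exact ((Ideal.Quotient.mkₐ R (JI Q)).comp (sec h)).commutes r
  · change Ideal.Quotient.mk _ (sec h (je Q p)) = je Q p
    rw [sec_je, map_rt]
    exact congrFun ((pq_je Q).rt (h.map (algebraMap R (JQ Q)))) p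

theorem mk_sec_apply {Q : A → I → R} {S : I → A → R} (h : Ln Q S) (x : JQ Q) :
    Ideal.Quotient.mk (JI Q) (sec h x) = x := DFunLike.congr_fun (mk_sec h) x

/-- Change of the base ring. -/
noncomputable def bc (Q : A → I → R) (ψ : R →+* R') : JQ Q →+* JQ fun a i => ψ (Q a i) :=
  lift Q ((algebraMap R' (JQ fun a i => ψ (Q a i))).comp ψ) (je fun a i => ψ (Q a i))
    (pq_je fun a i => ψ (Q a i))

omit [Fintype I] in
theorem bc_je (Q : A → I → R) (ψ : R →+* R') (p : A × A) :
    bc Q ψ (je Q p) = je (fun a i => ψ (Q a i)) p := lift_je Q _ _ _ p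

omit [Fintype I] in
theorem bc_alg (Q : A → I → R) (ψ : R →+* R') (r : R) :
    bc Q ψ (algebraMap R _ r) = algebraMap R' (JQ fun a i => ψ (Q a i)) (ψ r) := lift_alg Q _ _ _ r

theorem sec_bc {Q : A → I → R} {S : I → A → R} (h : Ln Q S) (ψ : R →+* R') (x : JQ Q) :
    sec (h.map ψ) (bc Q ψ x) = map ψ (sec h x) := by
  refine DFunLike.congr_fun (jq_ext (φ := (sec (h.map ψ)).toRingHom.comp (bc Q ψ))
    (φ' := (map (σ := A × A) ψ).comp (sec h).toRingHom) (fun r => ?_) fun p => ?_) x
  · change sec (h.map ψ) (bc Q ψ _) = map ψ (sec h _)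
    rw [bc_alg, AlgHom.commutes, AlgHom.commutes]
    exact (map_C ψ r).symm
  · change sec (h.map ψ) (bc Q ψ _) = map ψ (sec h _)
    rw [bc_je, sec_je, sec_je, map_rt]
    simp only [map_C, map_X]

theorem bc_inj {Q : A → I → R} {S : I → A → R} (h : Ln Q S) (ψ : R →+* R')
    (hψ : Function.Injective ψ) : Function.Injective (bc Q ψ) := fun x y e => by
  rw [← mk_sec_apply h x, ← mk_sec_apply h y]
  exact congrArg _ (map_injective ψ hψ (by rw [← sec_bc, ← sec_bc, e]))

/-- If the rows of `S` vanish outside `T`, the rows `T` of a projector generate the unit ideal. -/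
theorem PQ.span {Q : A → I → D} {S : I → A → D} (h : Ln Q S) {e : A × A → D} (he : PQ Q e)
    {T : Type} (τ : T → A) (hS : ∀ i c, c ∉ Set.range τ → S i c = 0) :
    Ideal.span (Set.range fun q : T × A => e (τ q.1, q.2)) = ⊤ := by
  rw [Ideal.eq_top_iff_one, ← he.1.1]
  refine Ideal.sum_mem _ fun a _ => ?_
  rw [← he.left h]
  refine Ideal.sum_mem _ fun c _ => ?_
  by_cases hc : c ∈ Set.range τ
  · obtain ⟨t, rfl⟩ := hc
    exact Ideal.mul_mem_left _ _ (Ideal.subset_span ⟨(t, a), rfl⟩)
  · simp [pr, hS _ c hc]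

end

/-- A criterion for open immersions. -/
theorem openImm {B W T : Type} [CommRing B] [CommRing W] (φ : B →+* W) (hφ : Function.Injective φ)
    (t : T → B) (ht : Ideal.span (Set.range fun i => φ (t i)) = ⊤)
    (hs : ∀ i w, ∃ (n : ℕ) (b : B), w * φ (t i) ^ n = φ b) :
    IsOpenImmersion (Spec.map (CommRingCat.ofHom φ)) ∧
      ∀ x : PrimeSpectrum B, x ∈ Set.range (PrimeSpectrum.comap φ) ↔ ∃ i, t i ∉ x.asIdeal := by
  have ex : ∀ P : PrimeSpectrum W, ∃ i, φ (t i) ∉ P.asIdeal := fun P => by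
    by_contra hn
    push Not at hn
    exact P.2.ne_top (top_le_iff.1 (ht ▸ Ideal.span_le.2 (Set.range_subset_iff.2 hn)))
  have loc : ∀ i, letI := ((algebraMap W (Localization.Away (φ (t i)))).comp φ).toAlgebra
      IsLocalization.Away (t i) (Localization.Away (φ (t i))) := fun i => by
    let := ((algebraMap W (Localization.Away (φ (t i)))).comp φ).toAlgebra
    refine IsLocalization.Away.mk _ (IsLocalization.Away.algebraMap_isUnit (φ (t i)))
      (fun s => ?_) fun a b e => ?_
    · obtain ⟨n, w, e⟩ := IsLocalization.Away.surj (φ (t i)) s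
      obtain ⟨m, b, e'⟩ := hs i w
      refine ⟨n + m, b, ?_⟩
      change s * algebraMap W _ (φ (t i)) ^ (n + m) = algebraMap W _ (φ b)
      rw [pow_add, ← mul_assoc, e, ← e', map_mul, map_pow]
    · obtain ⟨n, e'⟩ := IsLocalization.Away.exists_of_eq (φ (t i)) e
      exact ⟨n, hφ (by rw [map_mul, map_mul, map_pow]; exact e')⟩
  refine ⟨?_, fun x => ⟨?_, ?_⟩⟩
  · refine IsOpenImmersion.of_openCover_source _
      (Scheme.affineOpenCoverOfSpanRangeEqTop (R := .of W) _ ht).openCover (fun P P' e => ?_)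
      fun i => ?_
    · have e' : P.asIdeal.comap φ = P'.asIdeal.comap φ := congrArg PrimeSpectrum.asIdeal e
      obtain ⟨i, hi⟩ := ex P
      have hi' : φ (t i) ∉ P'.asIdeal := fun h => hi (by
        have : t i ∈ P'.asIdeal.comap φ := h
        rwa [← e'] at this)
      refine PrimeSpectrum.ext (Ideal.ext fun w => ?_)
      obtain ⟨n, b, hb⟩ := hs i w
      have k : ∀ p : PrimeSpectrum W, φ (t i) ∉ p.asIdeal →
          (w ∈ p.asIdeal ↔ b ∈ p.asIdeal.comap φ) := fun p hp => by
        rw [Ideal.mem_comap, ← hb]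
        exact ⟨Ideal.mul_mem_right _ _, fun h =>
          (p.2.mem_or_mem h).resolve_right fun h => hp (p.2.mem_of_pow_mem _ h)⟩
      rw [k P hi, k P' hi', e']
    · let := ((algebraMap W (Localization.Away (φ (t i)))).comp φ).toAlgebra
      have := loc i
      have o := IsOpenImmersion.of_isLocalization (R := B)
        (S := Localization.Away (φ (t i))) (t i)
      exact (Spec.map_comp (CommRingCat.ofHom φ) (CommRingCat.ofHom
        (algebraMap W (Localization.Away (φ (t i)))))) ▸ o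
  · rintro ⟨P, rfl⟩
    exact ex P
  · rintro ⟨i, hi⟩
    let := ((algebraMap W (Localization.Away (φ (t i)))).comp φ).toAlgebra
    have := loc i
    obtain ⟨P, hP⟩ : x ∈ Set.range (PrimeSpectrum.comap
        (algebraMap B (Localization.Away (φ (t i))))) := by
      rw [PrimeSpectrum.localization_away_comap_range _ (t i)]
      exact hi
    exact ⟨PrimeSpectrum.comap (algebraMap W _) P, hP⟩

section
variable {K D D' ν ι A I : Type} [CommRing K] [CommRing D] [CommRing D'] [Fintype ν]

theorem ex_cos {e : ν × ν → D} (he : RK e) (r : ℕ) : ∃ c : ν → D, ∑ m, c m * e (m, m) ^ r = 1 := by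
  have h := Ideal.span_pow_eq_top _ he.span r
  rw [← Set.range_comp, Ideal.eq_top_iff_one] at h
  exact Ideal.mem_span_range_iff_exists_fun.1 h

/-- A form at the columns of an idempotent of rank one. -/
theorem form_col (χ : K →+* D) {e : ν × ν → D} (he : RK e) {r : ℕ} {y : MvPolynomial ν K}
    (hy : y.IsHomogeneous r) (i m : ν) :
    eval₂ χ (fun k => e (k, i)) y * e (m, m) ^ r = eval₂ χ (fun k => e (k, m)) y * e (m, i) ^ r := by
  have a := hom_scale χ (fun k => e (k, i)) (e (m, m)) hy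
  have b := hom_scale χ (fun k => e (k, m)) (e (m, i)) hy
  rw [funext fun k => he.2 k i m m] at a
  exact a.symm.trans b

theorem form_minor (χ : K →+* D) {e : ν × ν → D} (he : RK e) {r : ℕ} {y z : MvPolynomial ν K}
    (hy : y.IsHomogeneous r) (hz : z.IsHomogeneous r) (i j : ν) :
    eval₂ χ (fun k => e (k, i)) y * eval₂ χ (fun k => e (k, j)) z =
      eval₂ χ (fun k => e (k, i)) z * eval₂ χ (fun k => e (k, j)) y := by
  obtain ⟨c, hc⟩ := ex_cos he (r + r)
  rw [← one_mul (_ * _), ← one_mul (eval₂ χ _ z * _), ← hc, Finset.sum_mul, Finset.sum_mul]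
  refine Finset.sum_congr rfl fun m _ => ?_
  have a := form_col χ he hy i m
  have b := form_col χ he hy j m
  have a' := form_col χ he hz i m
  have b' := form_col χ he hz j m
  have k := congrArg₂ (· * ·) a b'
  have k' := congrArg₂ (· * ·) a' b
  rw [pow_add]
  linear_combination c m * k - c m * k'

/-- The matrix of the values of the forms `G_j / w`, `x_m ^ r` at the columns of `e`. -/
def QY (e : ν × ν → D) (g : ι → ν → D) (r : ℕ) : ι ⊕ ν → ν → D :=
  Sum.elim g fun m i => e (m, i) ^ r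

/-- If `u g_ji = G_j(col_i e)` after an injective map `β`, `u` a unit of `K`, then `QY` has rank
one, with a cosection which vanishes on the rows `G`. -/
theorem ln_QY [Fintype ι] (β : D →+* D') (hβ : Function.Injective β) (χ : K →+* D') (u : Kˣ)
    {e : ν × ν → D} (he : RK e) {r : ℕ} (G : ι → MvPolynomial ν K) (hG : ∀ j, (G j).IsHomogeneous r)
    (g : ι → ν → D) (hg : ∀ j i, χ u * β (g j i) = eval₂ χ (fun k => β (e (k, i))) (G j)) :
    ∃ S : ν → ι ⊕ ν → D, Ln (QY e g r) S ∧ ∀ i j, S i (.inl j) = 0 := by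
  classical
  obtain ⟨c, hc⟩ := ex_cos he r
  let y : ι ⊕ ν → MvPolynomial ν K := Sum.elim (fun j => C (↑u⁻¹ : K) * G j) fun m => X m ^ r
  have hy : ∀ a, (y a).IsHomogeneous r := by
    rintro (j | m)
    · exact (hG j).C_mul _
    · have := (isHomogeneous_X K m).pow r
      rwa [one_mul] at this
  have ey : ∀ a i, β (QY e g r a i) = eval₂ χ (fun k => β (e (k, i))) (y a) := by
    rintro (j | m) i
    · simp only [y, QY, Sum.elim_inl, eval₂_mul, eval₂_C, ← hg, ← mul_assoc, ← map_mul,
        Units.inv_mul, map_one, one_mul]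
    · simp only [y, QY, Sum.elim_inr, eval₂_pow, eval₂_X, map_pow]
  refine ⟨fun i => Sum.elim 0 fun m => if m = i then c i else 0, ⟨fun a b i j => hβ ?_, ?_⟩,
    fun _ _ => rfl⟩
  · simp only [map_mul, ey]
    exact form_minor χ (he.map β) (hy a) (hy b) i j
  · simpa [QY, mul_comm] using hc

/-- `Spec B_W → Spec B'` is an open immersion onto the union of the `D(e'_{H_m, b})`. -/
theorem bw (O : Type) [CommRing O] [Algebra O D] [Fintype ι] {e : ν × ν → D} {g : ι → ν → D} {r : ℕ}
    {S : ν → ι ⊕ ν → D} (h : Ln (QY e g r) S) (hS : ∀ i j, S i (.inl j) = 0)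
    (hD : Algebra.adjoin O (Set.range e ∪ Set.range fun q : ι × ν => g q.1 q.2) = ⊤)
    {B : Type} [CommRing B] [Algebra O B] (φ : B →ₐ[O] JQ (QY e g r)) (hφ : Function.Injective φ)
    (ε : ν × ν → B) (ε' : (ι ⊕ ν) × (ι ⊕ ν) → B) (hε : ∀ p, φ (ε p) = algebraMap D _ (e p))
    (hε' : ∀ p, φ (ε' p) = je _ p) :
    IsOpenImmersion (Spec.map (CommRingCat.ofHom (φ : B →+* JQ (QY e g r)))) ∧
      ∀ x : PrimeSpectrum B, x ∈ Set.range (PrimeSpectrum.comap (φ : B →+* JQ (QY e g r))) ↔
        ∃ m b, ε' (.inr m, b) ∉ x.asIdeal := by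
  have := openImm (φ : B →+* JQ (QY e g r)) hφ (fun q : ν × (ι ⊕ ν) => ε' (.inr q.1, q.2)) (by
      simp only [RingHom.coe_coe, hε']
      refine (pq_je _).span (h.map _) Sum.inr ?_
      rintro i (j | m) hc
      · rw [hS, map_zero]
      · exact (hc ⟨m, rfl⟩).elim) ?_
  · exact ⟨this.1, fun x => (this.2 x).trans Prod.exists⟩
  rintro ⟨m, b⟩
  simp only [RingHom.coe_coe]
  set t := φ (ε' (.inr m, b))
  have add : ∀ x y, (∃ (n : ℕ) (c : B), x * t ^ n = φ c) → (∃ (n : ℕ) (c : B), y * t ^ n = φ c) →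
      ∃ (n : ℕ) (c : B), (x + y) * t ^ n = φ c := by
    rintro x y ⟨n, c, hc⟩ ⟨n', c', hc'⟩
    refine ⟨n + n', c * ε' (.inr m, b) ^ n' + c' * ε' (.inr m, b) ^ n, ?_⟩
    simp only [map_add, map_mul, map_pow, ← hc, ← hc']
    ring
  have mul : ∀ x y, (∃ (n : ℕ) (c : B), x * t ^ n = φ c) → (∃ (n : ℕ) (c : B), y * t ^ n = φ c) →
      ∃ (n : ℕ) (c : B), (x * y) * t ^ n = φ c := by
    rintro x y ⟨n, c, hc⟩ ⟨n', c', hc'⟩
    refine ⟨n + n', c * c', ?_⟩
    simp only [map_mul, ← hc, ← hc']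
    ring
  have alg : ∀ d : D, ∃ (n : ℕ) (c : B), algebraMap D _ d * t ^ n = φ c := fun d => by
    refine Algebra.adjoin_induction (p := fun d _ => ∃ (n : ℕ) (c : B),
      algebraMap D (JQ (QY e g r)) d * t ^ n = φ c) ?_ (fun o => ⟨0, algebraMap O B o, ?_⟩)
      (fun x y _ _ hx hy => map_add (algebraMap D (JQ (QY e g r))) x y ▸ add _ _ hx hy)
      (fun x y _ _ hx hy => map_mul (algebraMap D (JQ (QY e g r))) x y ▸ mul _ _ hx hy)
      (hD.ge (Algebra.mem_top (x := d)))
    · rintro _ (⟨p, rfl⟩ | ⟨⟨j, i⟩, rfl⟩)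
      · exact ⟨0, ε p, by rw [pow_zero, mul_one, hε]⟩
      · refine ⟨1, ε' (.inl j, b) * ε (m, i) ^ r, ?_⟩
        rw [pow_one, map_mul, map_pow, hε, ← map_pow, mul_comm]
        simp only [t, hε']
        exact (pq_je (QY e g r)).2 (.inr m) b (.inl j) i
    · rw [pow_zero, mul_one, AlgHom.commutes, ← IsScalarTower.algebraMap_apply]
  intro w
  obtain ⟨P, rfl⟩ := Ideal.Quotient.mk_surjective w
  induction P using MvPolynomial.induction_on with
  | C d => exact alg d
  | add p q hp hq => rw [map_add]; exact add _ _ hp hq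
  | mul_X p q hp =>
    rw [map_mul]
    exact mul _ _ hp ⟨0, ε' q, by rw [pow_zero, mul_one, hε']; rfl⟩

end

end Pool.Agent.MP_855f4c_ag.T.Jr

end

section

/-! h14a, AFF (helper82): the affine chart `x_o ≠ 0` of a closed subscheme of projective space. -/

set_option autoImplicit false
set_option backward.isDefEq.respectTransparency false

open CategoryTheory Limits AlgebraicGeometry HomogeneousLocalization MvPolynomial

namespace Pool.Agent.MP_855f4c_ag.T.Aff

open YJ

attribute [local instance] MvPolynomial.gradedAlgebra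

variable {K ν : Type}

/-- The chart ring as a quotient of the polynomial ring in the other coordinates. -/
noncomputable def ch (K : Type) [CommRing K] (o : ν) :
    MvPolynomial {k // k ≠ o} K →+* Away (homogeneousSubmodule ν K) (X o) :=
  eval₂Hom (kB K o) fun k => fr K o k

theorem ch_surj [CommRing K] (o : ν) : Function.Surjective (ch K o) := fun z => by
  classical
  obtain ⟨n, a, ha, rfl⟩ := Away.mk_surjective _ (xm K o) z
  refine ⟨eval₂Hom C (fun k => if h : k = o then 1 else X ⟨k, h⟩) a, ?_⟩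
  rw [mk_eq, ← RingHom.comp_apply, comp_eval₂Hom]
  congr 2
  · exact eval₂Hom_comp_C _ _
  · ext1 k
    split_ifs with h
    · rw [h, fr_self, map_one]
    · exact eval₂Hom_X' _ _ _

theorem ev_ch [CommRing K] {D : Type} [CommRing D] (χ : K →+* D) {o : ν} (v : ν → D)
    (h : IsUnit (v o)) (t : {k // k ≠ o} → D) (hv : ∀ k : {k // k ≠ o}, v k = v o * t k) :
    (ev _ (eval₂Hom χ v) (X o) (unit_X χ h)).comp (ch K o) = eval₂Hom χ t := by
  rw [ch, comp_eval₂Hom, ev_comp_kB χ v h]
  congr 1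
  ext1 k
  exact h.mul_right_cancel ((ev_fr χ v h k).trans ((hv k).trans (mul_comm _ _)))

theorem core [CommRing K] {Y : Scheme.{0}} (ι : Y ⟶ Proj (homogeneousSubmodule ν K))
    [IsClosedImmersion ι] (o : ν) :
    ∃ (a : Ideal (MvPolynomial {k // k ≠ o} K))
      (j : Spec (.of (MvPolynomial {k // k ≠ o} K ⧸ a)) ⟶ Y), IsOpenImmersion j ∧
      (∀ y, y ∈ Set.range j ↔ ι y ∈ Proj.basicOpen (homogeneousSubmodule ν K) (X o)) ∧
      ∀ (D : Type) [CommRing D] (ψ : MvPolynomial {k // k ≠ o} K ⧸ a →+* D) (v : ν → D)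
        (h : IsUnit (v o)), (∀ k : {k // k ≠ o}, v k = v o * ψ (Ideal.Quotient.mk _ (X k))) →
        Spec.map (CommRingCat.ofHom ψ) ≫ j ≫ ι = pt (ψ.comp (algebraMap K _)) v o h := by
  let t := Proj.awayι (homogeneousSubmodule ν K) _ (xm K o) one_pos
  let q := Spec.map (CommRingCat.ofHom (ch K o))
  have hq : IsClosedImmersion q := IsClosedImmersion.spec_of_surjective _ (ch_surj o)
  obtain ⟨a, e, he⟩ := IsClosedImmersion.Spec_iff.1
    (inferInstance : IsClosedImmersion (pullback.snd ι t ≫ q))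
  obtain ⟨m, hm⟩ := Spec.map_surjective (R := .of (Away (homogeneousSubmodule ν K) (X o)))
    (S := .of (MvPolynomial {k // k ≠ o} K ⧸ a)) (e.inv ≫ pullback.snd ι t)
  have hma : m.hom.comp (ch K o) = Ideal.Quotient.mk a := by
    have : Spec.map (CommRingCat.ofHom (ch K o) ≫ m) =
        Spec.map (CommRingCat.ofHom (Ideal.Quotient.mk a)) := by
      rw [Spec.map_comp, hm, Category.assoc, he, e.inv_hom_id_assoc]
    exact congrArg CommRingCat.Hom.hom (Spec.map_injective this)
  have hX : ∀ g, m.hom (ch K o g) = Ideal.Quotient.mk a g := DFunLike.congr_fun hma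
  have hK : m.hom.comp (kB K o) = algebraMap K _ := RingHom.ext fun c =>
    (congrArg m.hom (eval₂Hom_C _ _ c).symm).trans (hX (C c))
  have rι : (e.inv ≫ pullback.fst ι t) ≫ ι = Spec.map m ≫ t := by
    rw [hm, Category.assoc, Category.assoc, pullback.condition]
  refine ⟨a, e.inv ≫ pullback.fst ι t, inferInstance, fun y => ?_, fun D _ ψ v h hv => ?_⟩
  · rw [← Proj.opensRange_awayι _ _ (xm K o) one_pos, Scheme.Hom.comp_base, TopCat.coe_comp,
      Function.Surjective.range_comp e.inv.surjective, Scheme.Pullback.range_fst]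
    rfl
  · rw [rι, ← Category.assoc, ← Spec.map_comp, pt, sp, ← hK, ← RingHom.comp_assoc,
      ← eq_ev (ψ.comp m.hom) v h fun k => ?_]
    · rfl
    · by_cases hk : k = o
      · rw [hk, fr_self, map_one, one_mul]
      · rw [hv ⟨k, hk⟩, ← hX, mul_comm, ch, eval₂Hom_X']; rfl

/-- The point of the quotient defined by a zero of the equations. -/
noncomputable def lf [CommRing K] {n m D : Type} [CommRing D] (F : m → MvPolynomial n K)
    (χ : K →+* D) (t : n → D) (h : ∀ i, eval₂ χ t (F i) = 0) :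
    MvPolynomial n K ⧸ Ideal.span (Set.range F) →+* D :=
  Ideal.Quotient.lift _ (eval₂Hom χ t) fun _ hg =>
    (Ideal.span_le (I := RingHom.ker (eval₂Hom χ t))).2 (Set.range_subset_iff.2 h) hg

theorem lf_mk [CommRing K] {n m D : Type} [CommRing D] (F : m → MvPolynomial n K)
    (χ : K →+* D) (t : n → D) (h : ∀ i, eval₂ χ t (F i) = 0) (g : MvPolynomial n K) :
    lf F χ t h (Ideal.Quotient.mk _ g) = eval₂ χ t g := rfl

theorem lf_alg [CommRing K] {n m D : Type} [CommRing D] (F : m → MvPolynomial n K)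
    (χ : K →+* D) (t : n → D) (h : ∀ i, eval₂ χ t (F i) = 0) :
    (lf F χ t h).comp (algebraMap K _) = χ :=
  RingHom.ext fun c => (lf_mk F χ t h (C c)).trans (eval₂_C _ _ _)

/-- The affine chart with its equations. -/
theorem aff [Field K] [Finite ν] {Y : Scheme.{0}} (f : Y ⟶ Spec (.of K)) (d : ℕ)
    [SmoothOfRelativeDimension d f] (ι : Y ⟶ Proj (homogeneousSubmodule ν K)) [IsClosedImmersion ι]
    (hι : ι ≫ Proj.toSpecZero _ ≫
      Spec.map (CommRingCat.ofHom (algebraMap K (homogeneousSubmodule ν K 0))) = f) (o : ν) :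
    ∃ (n : ℕ) (F : Fin n → MvPolynomial {k // k ≠ o} K)
      (j : Spec (.of (MvPolynomial {k // k ≠ o} K ⧸ Ideal.span (Set.range F))) ⟶ Y),
      IsOpenImmersion j ∧
      (∀ y, y ∈ Set.range j ↔ ι y ∈ Proj.basicOpen (homogeneousSubmodule ν K) (X o)) ∧
      j ≫ f = Spec.map (CommRingCat.ofHom (algebraMap K _)) ∧
      SmoothOfRelativeDimension d (Spec.map (CommRingCat.ofHom
        (algebraMap K (MvPolynomial {k // k ≠ o} K ⧸ Ideal.span (Set.range F))))) ∧
      Algebra.Smooth K (MvPolynomial {k // k ≠ o} K ⧸ Ideal.span (Set.range F)) ∧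
      (∀ (D : Type) [CommRing D] (ψ : MvPolynomial {k // k ≠ o} K ⧸ Ideal.span (Set.range F) →+* D)
        (v : ν → D) (h : IsUnit (v o)),
        (∀ k : {k // k ≠ o}, v k = v o * ψ (Ideal.Quotient.mk _ (X k))) →
        Spec.map (CommRingCat.ofHom ψ) ≫ j ≫ ι = pt (ψ.comp (algebraMap K _)) v o h) ∧
      ∀ (Ω : Type) [Field Ω] (χ : K →+* Ω) (v : ν → Ω) (t : {k // k ≠ o} → Ω), v o ≠ 0 →
        (∀ k : {k // k ≠ o}, v k = v o * t k) → ((∀ i, eval₂ χ t (F i) = 0) ↔
        ∀ (G : MvPolynomial ν K) (n : ℕ), 0 < n → G.IsHomogeneous n →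
          (∀ y, ι y ∉ Proj.basicOpen (homogeneousSubmodule ν K) G) → eval₂ χ v G = 0) := by
  obtain ⟨a, j, h1, h2, h3⟩ := core ι o
  obtain ⟨n, F, rfl⟩ : ∃ (n : ℕ) (F : Fin n → MvPolynomial {k // k ≠ o} K),
      Ideal.span (Set.range F) = a :=
    Submodule.fg_iff_exists_fin_generating_family.1 (IsNoetherian.noetherian a)
  classical
  let A := MvPolynomial {k // k ≠ o} K ⧸ Ideal.span (Set.range F)
  let w : ν → A := fun k => if h : k = o then 1 else Ideal.Quotient.mk _ (X ⟨k, h⟩)
  have w1 : w o = 1 := dif_pos rfl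
  have wu : IsUnit (w o) := w1 ▸ isUnit_one
  have wk : ∀ k : {k // k ≠ o}, w k = Ideal.Quotient.mk _ (X k) := fun k => dif_neg k.2
  have e0 : j ≫ ι = pt (algebraMap K A) w o wu := by
    have := h3 A (RingHom.id A) w wu fun k => by rw [w1, one_mul, wk]; rfl
    rwa [CommRingCat.ofHom_id, Spec.map_id, Category.id_comp] at this
  have jf : j ≫ f = Spec.map (CommRingCat.ofHom (algebraMap K A)) := by
    rw [← hι, ← Category.assoc, e0, pt_over]
  have sm : SmoothOfRelativeDimension d (Spec.map (CommRingCat.ofHom (algebraMap K A))) := by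
    rw [← jf, ← zero_add d]; infer_instance
  have sm' : Smooth (Spec.map (CommRingCat.ofHom (algebraMap K A))) :=
    SmoothOfRelativeDimension.smooth d _
  refine ⟨n, F, j, h1, h2, jf, sm, RingHom.smooth_algebraMap.1
    ((HasRingHomProperty.Spec_iff (P := @Smooth)).1 sm'), h3,
    fun Ω _ χ v t h0 hv => ⟨fun hF G m hm hG hy => ?_, fun H i => ?_⟩⟩
  · let x : Spec (.of Ω) := (⟨⊥, Ideal.isPrime_bot⟩ : PrimeSpectrum Ω)
    have e := h3 Ω (lf F χ t hF) v h0.isUnit fun k => by rw [lf_mk, eval₂_X, hv]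
    rw [lf_alg] at e
    have := hy (j (Spec.map (CommRingCat.ofHom (lf F χ t hF)) x))
    rw [← Scheme.Hom.comp_apply, ← Scheme.Hom.comp_apply, e, pt_mem χ v o _ hG hm, not_not] at this
    exact this
  · let x : Spec (.of Ω) := (⟨⊥, Ideal.isPrime_bot⟩ : PrimeSpectrum Ω)
    obtain ⟨y, hy⟩ := pt_mem_closed χ v o h0.isUnit _ ι.isClosedEmbedding.isClosed_range
      (fun G n hn hG h => H G n hn hG fun y => h _ ⟨y, rfl⟩) x
    obtain ⟨z, rfl⟩ := (h2 y).2 (hy ▸ (pt_mem χ v o _ (xm K o) one_pos x).2 (by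
      rw [eval₂_X]; exact h0))
    rw [← Scheme.Hom.comp_apply, e0, pt, pt, sp, sp, Scheme.Hom.comp_apply,
      Scheme.Hom.comp_apply] at hy
    have e1 := (Proj.awayι (homogeneousSubmodule ν K) _ (xm K o) one_pos).isOpenEmbedding.injective hy
    have e2 : ch K o (F i) ∈ (Spec.map (CommRingCat.ofHom (ev _ (eval₂Hom (algebraMap K A) w) (X o)
        (unit_X _ wu))) z).asIdeal := by
      change ((ev _ (eval₂Hom (algebraMap K A) w) (X o) (unit_X _ wu)).comp (ch K o)) (F i) ∈ z.asIdeal
      rw [ev_ch _ w wu (fun k => Ideal.Quotient.mk _ (X k)) fun k => by rw [w1, one_mul, wk]]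
      have : eval₂Hom (algebraMap K A) (fun k => Ideal.Quotient.mk _ (X k)) = Ideal.Quotient.mk _ :=
        MvPolynomial.ringHom_ext (fun c => eval₂Hom_C _ _ c) fun k => eval₂Hom_X' _ _ k
      rw [this, Ideal.Quotient.eq_zero_iff_mem.2 (Ideal.subset_span (Set.mem_range_self i))]
      exact zero_mem _
    rw [e1] at e2
    exact (DFunLike.congr_fun (ev_ch χ v h0.isUnit t hv) (F i)).symm.trans e2

end Pool.Agent.MP_855f4c_ag.T.Aff

end

section

/-! h14a, section 4: pointwise linear algebra of the W construction. -/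

set_option autoImplicit false
open Matrix

namespace T.Ptl

set_option linter.unusedSectionVars false

variable {m I J : Type} [Fintype m] [Fintype I] [LinearOrder I] [Fintype J] [DecidableEq J]
  [LinearOrder J]

/-- Unitriangular pairing of covectors and vectors. -/
def Tri {k I m : Type} [CommRing k] [Fintype m] [LT I] (lam v : I → m → k) : Prop :=
  (∀ i, lam i ⬝ᵥ v i = 1) ∧ ∀ i j, i < j → lam i ⬝ᵥ v j = 0

section ring
variable {k : Type} [CommRing k]

theorem Tri.det {mu g : J → m → k} (h : Tri mu g) :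
    (Matrix.of fun i j => mu i ⬝ᵥ g j).det = 1 := by
  rw [Matrix.det_of_isLowerTriangular (Matrix.of fun i j => mu i ⬝ᵥ g j)
    (fun i j hij => h.2 i j hij)]
  simp [h.1]

theorem Tri.ind {mu g : J → m → k} (h : Tri mu g) : LinearIndependent k g := by
  refine Fintype.linearIndependent_iff.2 fun c hc i => ?_
  induction i using WellFoundedLT.induction with
  | ind i ih =>
    have e := congrArg (fun x => mu i ⬝ᵥ x) hc
    simp only [dotProduct_sum, dotProduct_smul, dotProduct_zero, smul_eq_mul] at e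
    rw [Finset.sum_eq_single i (fun j _ hj => ?_) (by simp)] at e
    · simpa [h.1] using e
    · rcases lt_or_gt_of_ne hj with h' | h'
      · simp [ih j h']
      · simp [h.2 i j h']

end ring

section field
variable {k : Type} [Field k] [DecidableEq m]

variable {lam f : I → m → k} {mu g : J → m → k} {t : k} {E : Matrix m m k}

end field

end T.Ptl

end
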