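import Pool.Agent.MP_855f4c_ag.TC.Tc
import Pool.Agent.MP_855f4c_ag.AC.Aa

set_option linter.all false

section

/-! h14a, section 4: the projector of a smooth affine scheme, its rank, and the pointwise step. -/

set_option autoImplicit false

open MvPolynomial Matrix

namespace Pool.Agent.MP_855f4c_ag.T.Ekd

open G.Elk

section
variable {K n m : Type} [CommRing K] [Fintype n] [Fintype m]

/-- The Jacobian matrix at the point `u`. -/
noncomputable def Jac (f : m → MvPolynomial n K) {D : Type} [CommRing D] (χ : K →+* D) (u : n → D) :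
    Matrix m n D := Matrix.of fun i j => eval₂ χ u (pderiv j (f i))

/-- The value of a matrix of polynomials at the point `u`. -/
noncomputable def val {a b : Type} (E : a → b → MvPolynomial n K) {D : Type} [CommRing D]
    (χ : K →+* D) (u : n → D) : Matrix a b D := Matrix.of fun i k => eval₂ χ u (E i k)

omit [Fintype n] [Fintype m] in
theorem kill {f : m → MvPolynomial n K} {D : Type} [CommRing D] {χ : K →+* D} {u : n → D}
    (h : ∀ i, eval₂ χ u (f i) = 0) {g : MvPolynomial n K} (hg : g ∈ Ideal.span (Set.range f)) :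
    eval₂ χ u g = 0 :=
  (Ideal.span_le (I := RingHom.ker (eval₂Hom χ u))).2 (by rintro _ ⟨i, rfl⟩; exact h i) hg

theorem ekd {A : Type} [CommRing A] [Algebra K A] [Algebra.FormallySmooth K A]
    (x : n → A) (hx : Function.Surjective (aeval x : MvPolynomial n K →ₐ[K] A))
    (f : m → MvPolynomial n K)
    (hf : Ideal.span (Set.range f) = RingHom.ker (aeval x : MvPolynomial n K →ₐ[K] A)) :
    ∃ (E : m → m → MvPolynomial n K) (L : n → m → MvPolynomial n K),
      (∀ i, ∑ k, E i k * f k = f i) ∧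
      ∀ (D : Type) [CommRing D] (χ : K →+* D) (u : n → D), (∀ i, eval₂ χ u (f i) = 0) →
        val E χ u * val E χ u = val E χ u ∧ val E χ u * Jac f χ u = Jac f χ u ∧
          val E χ u = Jac f χ u * val L χ u := by
  obtain ⟨M, hM⟩ := data x hx f hf
  have hB : ∀ i, ∃ b : m → MvPolynomial n K, (∀ k, b k ∈ Ideal.span (Set.range f)) ∧
      ∑ k, b k * f k = f i - ∑ k, EE f M i k * f k := fun i => by
    have h := hM i
    rw [pow_two, ← smul_eq_mul] at h
    obtain ⟨a, ha, e⟩ := (Submodule.mem_ideal_smul_span_iff_exists_sum _ f _).1 h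
    refine ⟨a, ha, ?_⟩
    rw [← e, Finsupp.sum_fintype _ _ (by simp)]
    simp
  choose B hB1 hB2 using hB
  have hE : ∀ i, ∑ k, (EE f M i k + B i k) * f k = f i := fun i => by
    simp only [add_mul, Finset.sum_add_distrib, hB2]; ring
  refine ⟨fun i k => EE f M i k + B i k, M, hE, fun D _ χ u hu => ?_⟩
  have h3 : val (fun i k => EE f M i k + B i k) χ u = Jac f χ u * val M χ u := by
    ext i k
    simp only [val, Jac, of_apply, eval₂_add, kill hu (hB1 i k), add_zero, EE, mul_apply]
    rw [← coe_eval₂Hom, map_sum]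
    simp only [map_mul]
  have h2 : val (fun i k => EE f M i k + B i k) χ u * Jac f χ u = Jac f χ u := by
    ext i j
    simp only [val, Jac, of_apply, mul_apply]
    conv_rhs => rw [← hE i]
    rw [map_sum, ← coe_eval₂Hom, map_sum]
    refine Finset.sum_congr rfl fun k _ => ?_
    rw [Derivation.leibniz, smul_eq_mul, smul_eq_mul, map_add _ (_ * _), map_mul, map_mul,
      coe_eval₂Hom, hu, zero_mul, add_zero]
  refine ⟨?_, h2, h3⟩
  conv_lhs => rhs; rw [h3]
  rw [← Matrix.mul_assoc, h2, h3]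

end

section
variable {K A Ω n m : Type} [CommRing K] [CommRing A] [Algebra K A] [CommRing Ω] [Algebra K Ω]
  [Algebra A Ω] [IsScalarTower K A Ω] [Fintype n] [Fintype m]

theorem chain (x : n → A) (δ : Derivation K A Ω) (P : MvPolynomial n K) :
    δ (aeval x P) = ∑ j, eval₂ (algebraMap K Ω) (algebraMap A Ω ∘ x) (pderiv j P) * δ (x j) := by
  classical
  have ev : ∀ P : MvPolynomial n K,
      eval₂ (algebraMap K Ω) (algebraMap A Ω ∘ x) P = algebraMap A Ω (aeval x P) := fun P => by
    rw [map_aeval, ← IsScalarTower.algebraMap_eq]; rfl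
  simp only [ev]
  induction P using MvPolynomial.induction_on with
  | C a => simp
  | add p q hp hq => simp only [map_add, hp, hq, add_mul, Finset.sum_add_distrib]
  | mul_X p k hp =>
    simp only [map_mul, aeval_X, Derivation.leibniz, hp, smul_eq_mul, map_add, add_mul,
      Finset.sum_add_distrib, Algebra.smul_def, pderiv_X, Finset.mul_sum]
    congr 1
    · rw [Finset.sum_eq_single k (fun j _ h => by simp [Pi.single_apply, h, h.symm]) (by simp)]
      simp
    · exact Finset.sum_congr rfl fun j _ => by ring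

theorem exder (x : n → A) (hx : Function.Surjective (aeval x : MvPolynomial n K →ₐ[K] A))
    (f : m → MvPolynomial n K)
    (hf : Ideal.span (Set.range f) = RingHom.ker (aeval x : MvPolynomial n K →ₐ[K] A))
    (v : n → Ω) (hv : Jac f (algebraMap K Ω) (algebraMap A Ω ∘ x) *ᵥ v = 0) :
    ∃ δ : Derivation K A Ω, ∀ j, δ (x j) = v j := by
  classical
  let _ : Algebra (MvPolynomial n K) Ω := ((algebraMap A Ω).comp (aeval x).toRingHom).toAlgebra
  have al : ∀ P : MvPolynomial n K, algebraMap _ Ω P = algebraMap A Ω (aeval x P) := fun _ => rfl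
  have : IsScalarTower K (MvPolynomial n K) Ω := .of_algebraMap_eq fun a => by
    rw [al, AlgHom.commutes, ← IsScalarTower.algebraMap_apply]
  let d := mkDerivation K v
  have d0 : ∀ P, aeval x P = 0 → d P = 0 := fun P hP => by
    have hP' : P ∈ Ideal.span (Set.range f) := hf ▸ hP
    obtain ⟨c, rfl⟩ := Ideal.mem_span_range_iff_exists_fun.1 hP'
    rw [map_sum]
    refine Finset.sum_eq_zero fun i _ => ?_
    have f0 : aeval x (f i) = 0 := hf.le (Ideal.subset_span ⟨i, rfl⟩)
    have d1 : d (f i) = 0 := by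
      have := chain X d (f i)
      rw [aeval_X_left_apply] at this
      rw [this, ← show _ = (0 : Ω) from congrFun hv i]
      refine Finset.sum_congr rfl fun j _ => ?_
      rw [mkDerivation_X]
      congr 2
      funext k
      simp [al]
    rw [Derivation.leibniz, d1, smul_zero, Algebra.smul_def, al, f0, map_zero, zero_mul, add_zero]
  let ℓ : A →ₗ[K] Ω := (LinearMap.ker (aeval x : MvPolynomial n K →ₐ[K] A).toLinearMap).liftQ
    d.toLinearMap (fun P hP => d0 P hP) ∘ₗ
      ((aeval x : MvPolynomial n K →ₐ[K] A).toLinearMap.quotKerEquivOfSurjective hx).symm.toLinearMap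
  have hℓ : ∀ P, ℓ (aeval x P) = d P := fun P => by
    have : ((aeval x : MvPolynomial n K →ₐ[K] A).toLinearMap.quotKerEquivOfSurjective hx).symm
        (aeval x P) = Submodule.Quotient.mk P := by
      rw [LinearEquiv.symm_apply_eq]; rfl
    simp only [ℓ, LinearMap.comp_apply, LinearEquiv.coe_coe, this, Submodule.liftQ_apply]
    rfl
  refine ⟨Derivation.mk' ℓ fun a b => ?_, fun j => ?_⟩
  · obtain ⟨P, rfl⟩ := hx a
    obtain ⟨Q, rfl⟩ := hx b
    rw [← map_mul, hℓ, hℓ, hℓ, Derivation.leibniz]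
    simp only [Algebra.smul_def, al]
  · have := hℓ (X j)
    rw [aeval_X, mkDerivation_X] at this
    exact this

end

theorem rnk {K A Ω n m : Type} [CommRing K] [CommRing A] [Algebra K A] [Field Ω] [Algebra K Ω]
    [Fintype n] [Fintype m] {d : ℕ}
    (hs : RingHom.Locally (RingHom.IsStandardSmoothOfRelativeDimension d) (algebraMap K A))
    (x : n → A) (hx : Function.Surjective (aeval x : MvPolynomial n K →ₐ[K] A))
    (f : m → MvPolynomial n K)
    (hf : Ideal.span (Set.range f) = RingHom.ker (aeval x : MvPolynomial n K →ₐ[K] A))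
    (u : A →ₐ[K] Ω) :
    Module.finrank Ω (LinearMap.ker (Jac f (algebraMap K Ω) (u ∘ x)).mulVecLin) = d := by
  obtain ⟨s, h1, h2⟩ := hs
  obtain ⟨t, ht, h3⟩ : ∃ t ∈ s, u t ≠ 0 := by
    by_contra c
    push Not at c
    have : (1 : A) ∈ RingHom.ker u := (Ideal.span_le (I := RingHom.ker u)).2 c (h1 ▸ trivial)
    simp at this
  let B := Localization.Away t
  let _ : Algebra A Ω := u.toRingHom.toAlgebra
  have : IsScalarTower K A Ω := .of_algebraMap_eq fun a => (u.commutes a).symm
  let _ : Algebra B Ω := (IsLocalization.Away.lift t (g := algebraMap A Ω) (Ne.isUnit h3)).toAlgebra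
  have : IsScalarTower A B Ω := .of_algebraMap_eq fun a =>
    (IsLocalization.Away.lift_eq t (g := algebraMap A Ω) (Ne.isUnit h3) a).symm
  have : IsScalarTower K B Ω := .of_algebraMap_eq fun a => by
    rw [IsScalarTower.algebraMap_apply K A B, ← IsScalarTower.algebraMap_apply,
      ← IsScalarTower.algebraMap_apply]
  have : Nontrivial B := (algebraMap B Ω).domain_nontrivial
  have : Algebra.IsStandardSmoothOfRelativeDimension d K B := by
    have := h2 t ht
    rwa [← IsScalarTower.algebraMap_eq, RingHom.isStandardSmoothOfRelativeDimension_algebraMap] at this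
  have := Algebra.IsStandardSmoothOfRelativeDimension.isStandardSmooth d (R := K) (S := B)
  have hr := Algebra.IsStandardSmoothOfRelativeDimension.rank_kaehlerDifferential (R := K) (S := B) d
  let Ψ : (Ω[B⁄K] →ₗ[B] Ω) →ₗ[Ω] (n → Ω) :=
    { toFun := fun g j => g (KaehlerDifferential.D K B (algebraMap A B (x j)))
      map_add' := fun _ _ => rfl
      map_smul' := fun _ _ => rfl }
  have ch : ∀ (g : Ω[B⁄K] →ₗ[B] Ω) (P : MvPolynomial n K),
      g (KaehlerDifferential.D K B (algebraMap A B (aeval x P))) =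
        ∑ j, eval₂ (algebraMap K Ω) (u ∘ x) (pderiv j P) * Ψ g j := fun g P =>
    chain x ((g.compDer (KaehlerDifferential.D K B)).compAlgebraMap A) P
  have inj : Function.Injective Ψ := (injective_iff_map_eq_zero Ψ).2 fun g hg => by
    refine LinearMap.ext_on
      (KaehlerDifferential.span_range_map_derivation_of_isLocalization K A B (.powers t)) ?_
    rintro _ ⟨a, rfl⟩
    obtain ⟨P, rfl⟩ := hx a
    rw [Function.comp_apply, KaehlerDifferential.map_D, ch, hg]
    simp
  have rg : LinearMap.range Ψ = LinearMap.ker (Jac f (algebraMap K Ω) (u ∘ x)).mulVecLin := by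
    refine le_antisymm ?_ fun v hv => ?_
    · rintro _ ⟨g, rfl⟩
      funext i
      have f0 : aeval x (f i) = 0 := hf.le (Ideal.subset_span ⟨i, rfl⟩)
      have := ch g (f i)
      rw [f0, map_zero, map_zero, map_zero] at this
      exact this.symm
    · obtain ⟨δ, hδ⟩ := exder x hx f hf v hv
      have := Algebra.FormallyEtale.of_isLocalization (Rₘ := B) (Submonoid.powers t)
      refine ⟨(KaehlerDifferential.isBaseChange_of_formallyEtale K A B).lift
        δ.liftKaehlerDifferential, funext fun j => ?_⟩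
      change IsBaseChange.lift _ _ _ = _
      rw [← KaehlerDifferential.map_D K K A B, IsBaseChange.lift_eq,
        Derivation.liftKaehlerDifferential_comp_D, hδ]
  rw [← rg, LinearMap.finrank_range_of_inj inj, Module.finrank_linearMap_self,
    Module.finrank_eq_of_rank_eq hr]

open AlgebraicGeometry in
theorem rnkS {K A Ω n m : Type} [CommRing K] [CommRing A] [Algebra K A] [Field Ω] [Algebra K Ω]
    [Fintype n] [Fintype m] {d : ℕ}
    [hs : SmoothOfRelativeDimension d (Spec.map (CommRingCat.ofHom (algebraMap K A)))]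
    (x : n → A) (hx : Function.Surjective (aeval x : MvPolynomial n K →ₐ[K] A))
    (f : m → MvPolynomial n K)
    (hf : Ideal.span (Set.range f) = RingHom.ker (aeval x : MvPolynomial n K →ₐ[K] A))
    (u : A →ₐ[K] Ω) :
    Module.finrank Ω (LinearMap.ker (Jac f (algebraMap K Ω) (u ∘ x)).mulVecLin) = d :=
  rnk (HasRingHomProperty.Spec_iff.1 hs) x hx f hf u

section
variable {Ω n m : Type} [Field Ω] [Fintype n] [Fintype m] [DecidableEq m]

omit [DecidableEq m] in
/-- The rank of the projector. -/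
theorem rank_add {e : Matrix m m Ω} {J : Matrix m n Ω} {L : Matrix n m Ω} {d : ℕ} (h2 : e * J = J)
    (h3 : e = J * L) (hd : Module.finrank Ω (LinearMap.ker J.mulVecLin) = d) :
    e.rank + d = Fintype.card n := by
  have h : e.rank = J.rank :=
    le_antisymm (h3 ▸ rank_mul_le_left J L) ((congrArg rank h2).ge.trans (rank_mul_le_left e J))
  rw [h, ← hd, rank, LinearMap.finrank_range_add_finrank_ker, Module.finrank_fintype_fun_eq_card]

omit [DecidableEq m] in
/-- `d` linear forms that are injective on the tangent space. -/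
theorem ex_forms {J : Matrix m n Ω} {d : ℕ}
    (hd : Module.finrank Ω (LinearMap.ker J.mulVecLin) = d) :
    ∃ a : Matrix (Fin d) n Ω, ∀ v, J *ᵥ v = 0 → a *ᵥ v = 0 → v = 0 := by
  classical
  let b := Module.finBasisOfFinrankEq Ω _ hd
  obtain ⟨g, hg⟩ := LinearMap.exists_extend b.equivFun.toLinearMap
  refine ⟨LinearMap.toMatrix' g, fun v h1 h2 => ?_⟩
  rw [LinearMap.toMatrix'_mulVec] at h2
  have := DFunLike.congr_fun hg ⟨v, h1⟩
  simp only [LinearMap.comp_apply, Submodule.subtype_apply, h2, LinearEquiv.coe_coe] at this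
  exact congrArg Subtype.val (b.equivFun.map_eq_zero_iff.1 this.symm)

/-- Rank factorisation of an idempotent matrix. -/
theorem factor {e : Matrix m m Ω} (h : e * e = e) {c : ℕ} (hc : e.rank = c) :
    ∃ (P : Matrix m (Fin c) Ω) (Q : Matrix (Fin c) m Ω), e = P * Q ∧ Q * P = 1 := by
  let b := Module.finBasisOfFinrankEq Ω (LinearMap.range e.mulVecLin) hc
  let p : (Fin c → Ω) →ₗ[Ω] (m → Ω) := (Submodule.subtype _).comp b.equivFun.symm.toLinearMap
  let q : (m → Ω) →ₗ[Ω] (Fin c → Ω) := b.equivFun.toLinearMap.comp e.mulVecLin.rangeRestrict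
  refine ⟨LinearMap.toMatrix' p, LinearMap.toMatrix' q, ?_, ?_⟩
  · rw [← LinearMap.toMatrix'_comp, ← LinearMap.toMatrix'_toLin' e]
    congr 1
    exact LinearMap.ext fun v => by simp [p, q]
  · rw [← LinearMap.toMatrix'_comp, ← LinearMap.toMatrix'_id]
    congr 1
    refine LinearMap.ext fun v => ?_
    obtain ⟨w, rfl⟩ := b.equivFun.surjective v
    obtain ⟨_, w, rfl⟩ := w
    simp only [p, q, LinearMap.comp_apply, LinearEquiv.coe_coe, LinearEquiv.symm_apply_apply,
      LinearMap.id_apply]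
    congr 1
    exact Subtype.ext (by simp [mulVec_mulVec, h])

theorem rank_compl {e : Matrix m m Ω} (h : e * e = e) : e.rank + (1 - e).rank = Fintype.card m := by
  have : LinearMap.range (1 - e).mulVecLin = LinearMap.ker e.mulVecLin := by
    refine le_antisymm ?_ fun v hv => ⟨v, ?_⟩
    · rintro _ ⟨v, rfl⟩
      simp [mulVec_sub, mulVec_mulVec, h]
    · simpa [sub_mulVec] using hv
  rw [rank, rank, this, LinearMap.finrank_range_add_finrank_ker, Module.finrank_fintype_fun_eq_card]

variable {a b : Type} [Fintype a] [Fintype b] [DecidableEq b]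

omit [DecidableEq m] [DecidableEq b] in
/-- The span of the columns of `g` is the annihilator of the rows of `f`. -/
theorem ann {f : Matrix a m Ω} {g : Matrix m b Ω} (hf : LinearIndependent Ω f.row)
    (hg : LinearIndependent Ω g.col) (hc : Fintype.card a + Fintype.card b = Fintype.card m)
    (h : f * g = 0) {v : m → Ω} (hv : f *ᵥ v = 0) : ∃ y, g *ᵥ y = v := by
  have h1 : LinearMap.range g.mulVecLin ≤ LinearMap.ker f.mulVecLin := by
    rintro _ ⟨y, rfl⟩
    simp [mulVec_mulVec, h]
  have h2 := f.mulVecLin.finrank_range_add_finrank_ker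
  have h3 : g.rank = Fintype.card b := by rw [rank_eq_finrank_span_cols, finrank_span_eq_card hg]
  have h4 : f.rank = Fintype.card a := hf.rank_matrix
  rw [Module.finrank_fintype_fun_eq_card] at h2
  rw [rank] at h3 h4
  exact (Submodule.eq_of_le_of_finrank_le h1 (by omega)).ge hv

/-- The pointwise step; `E` and `F` are homogenised, `t` is the power of the first coordinate. -/
theorem zer {f : Matrix a m Ω} {g : Matrix m b Ω} {μ : Matrix b m Ω} {E : Matrix m m Ω} {F : m → Ω}
    {t : Ω} (hf : LinearIndependent Ω f.row) (hg : LinearIndependent Ω g.col)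
    (hc : Fintype.card a + Fintype.card b = Fintype.card m) (h1 : f *ᵥ F = 0) (h2 : f * g = 0)
    (hE : E *ᵥ F = t • F) (hd : (μ * (t • (1 : Matrix m m Ω) - E) * g).det ≠ 0) : F = 0 := by
  obtain ⟨y, rfl⟩ := ann hf hg hc h2 h1
  have : y = 0 := eq_zero_of_mulVec_eq_zero hd (by
    rw [← mulVec_mulVec, ← mulVec_mulVec, sub_mulVec, hE, smul_mulVec, one_mulVec, sub_self,
      mulVec_zero])
  rw [this, mulVec_zero]

/-- At such a point the projector kills the columns of `g`. -/
theorem zer' {f : Matrix a m Ω} {g : Matrix m b Ω} {μ : Matrix b m Ω} {E : Matrix m m Ω}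
    {t : Ω} (hf : LinearIndependent Ω f.row) (hg : LinearIndependent Ω g.col)
    (hc : Fintype.card a + Fintype.card b = Fintype.card m) (h2 : f * g = 0) (h3 : f * E * g = 0)
    (hE : E * E = t • E) (hd : (μ * (t • (1 : Matrix m m Ω) - E) * g).det ≠ 0) : E * g = 0 := by
  ext i j
  have := zer (F := (E * g).col j) hf hg hc (by
      funext k
      simpa [mulVec, dotProduct, mul_apply] using
        congrFun (congrFun ((Matrix.mul_assoc _ _ _).symm.trans h3) k) j) h2
    (by
      have : E * (E * g) = t • (E * g) := by rw [← Matrix.mul_assoc, hE, Matrix.smul_mul]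
      funext k
      simpa [mulVec, dotProduct, mul_apply] using congrFun (congrFun this k) j) hd
  exact congrFun this i

end

end Pool.Agent.MP_855f4c_ag.T.Ekd

end

section

/-! h14a, section 4: homogenisation of the equations and of the projector. -/

set_option autoImplicit false

open MvPolynomial Matrix

namespace Pool.Agent.MP_855f4c_ag.T.Ekd

variable {K n ν m : Type} [CommRing K]

/-- Homogenisation in degree `D`; the affine coordinates are `v (ι j) / v o`. -/
noncomputable def hom (ι : n → ν) (o : ν) (D : ℕ) (P : MvPolynomial n K) : MvPolynomial ν K :=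
  ∑ d ∈ Finset.range (D + 1), X o ^ (D - d) * rename ι (homogeneousComponent d P)

theorem hom_hom (ι : n → ν) (o : ν) (D : ℕ) (P : MvPolynomial n K) :
    (hom ι o D P).IsHomogeneous D :=
  IsHomogeneous.sum _ _ _ fun d hd => by
    have := ((isHomogeneous_X K o).pow (D - d)).mul
      ((homogeneousComponent_isHomogeneous d P).rename_isHomogeneous (f := ι))
    rwa [one_mul, Nat.sub_add_cancel (Nat.le_of_lt_succ (Finset.mem_range.1 hd))] at this

theorem scale {R : Type} [CommRing R] (χ : K →+* R) (t : n → R) (c : R) {d : ℕ}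
    {P : MvPolynomial n K} (h : P.IsHomogeneous d) :
    eval₂ χ (fun j => c * t j) P = c ^ d * eval₂ χ t P := by
  rw [eval₂_eq, eval₂_eq, Finset.mul_sum]
  refine Finset.sum_congr rfl fun s hs => ?_
  rw [h.degree_eq_sum_deg_support hs, ← Finset.prod_pow_eq_pow_sum]
  simp only [mul_pow, Finset.prod_mul_distrib]
  ring

theorem hom_eval (ι : n → ν) (o : ν) {D : ℕ} {P : MvPolynomial n K} (h : P.totalDegree ≤ D)
    {R : Type} [CommRing R] (χ : K →+* R) {v : ν → R} {t : n → R} (hv : ∀ j, v (ι j) = v o * t j) :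
    eval₂ χ v (hom ι o D P) = v o ^ D * eval₂ χ t P := by
  have e : ∑ d ∈ Finset.range (D + 1), homogeneousComponent d P = P := by
    conv_rhs => rw [← sum_homogeneousComponent P]
    refine (Finset.sum_subset (Finset.range_subset_range.2 (by omega)) fun d _ hd => ?_).symm
    exact homogeneousComponent_eq_zero _ _ (by simpa using hd)
  conv_rhs => rw [← e]
  rw [hom, eval₂_sum, eval₂_sum, Finset.mul_sum]
  refine Finset.sum_congr rfl fun d hd => ?_
  rw [eval₂_mul, eval₂_pow, eval₂_X, eval₂_rename, show v ∘ ι = fun j => v o * t j from funext hv,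
    scale χ t _ (homogeneousComponent_isHomogeneous d P), ← mul_assoc, ← pow_add,
    Nat.sub_add_cancel (Nat.le_of_lt_succ (Finset.mem_range.1 hd))]

theorem hom_rel [Fintype m] (ι : n → ν) (o : ν) {D a : ℕ} {e f : m → MvPolynomial n K}
    {g : MvPolynomial n K} (hf : ∀ k, (f k).totalDegree ≤ D) (he : ∀ k, (e k).totalDegree ≤ a)
    (hg : g.totalDegree ≤ D) (h : ∑ k, e k * f k = g) :
    ∑ k, hom ι o a (e k) * hom ι o D (f k) = X o ^ a * hom ι o D g := by
  let L := Localization.Away (X o : MvPolynomial ν K)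
  let α := algebraMap (MvPolynomial ν K) L
  have inj : Function.Injective α := IsLocalization.injective L (M := .powers (X o))
    (Submonoid.powers_le.2 (isRegular_iff_mem_nonZeroDivisors.1 isRegular_X))
  have ev : ∀ P, α P = eval₂ (α.comp C) (α ∘ X) P := fun P => by
    rw [← eval₂_comp_left, eval₂_eta]
  have hv : ∀ j, (α ∘ X) (ι j) =
      (α ∘ X) o * (IsLocalization.Away.invSelf (X o : MvPolynomial ν K) * α (X (ι j))) := fun j => by
    rw [← mul_assoc, Function.comp_apply, Function.comp_apply, IsLocalization.Away.mul_invSelf,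
      one_mul]
  apply inj
  rw [map_sum, map_mul, ev (hom ..), hom_eval ι o hg _ hv, ← h, eval₂_sum, Finset.mul_sum,
    Finset.mul_sum]
  refine Finset.sum_congr rfl fun k _ => ?_
  rw [map_mul, ev (hom ..), ev (hom ..), hom_eval ι o (he k) _ hv, hom_eval ι o (hf k) _ hv,
    eval₂_mul, map_pow, Function.comp_apply]
  ring

/-- The data at the head of section 4. -/
theorem ekh [Fintype n] [Fintype m] {A : Type} [CommRing A] [Algebra K A]
    [Algebra.FormallySmooth K A]
    (x : n → A) (hx : Function.Surjective (aeval x : MvPolynomial n K →ₐ[K] A))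
    (f : m → MvPolynomial n K)
    (hf : Ideal.span (Set.range f) = RingHom.ker (aeval x : MvPolynomial n K →ₐ[K] A))
    (ι : n → ν) (o : ν) :
    ∃ (D a : ℕ) (F : m → MvPolynomial ν K) (Eh : m → m → MvPolynomial ν K)
      (E : m → m → MvPolynomial n K) (L : n → m → MvPolynomial n K), 0 < D ∧ 0 < a ∧
      (∀ i, (F i).IsHomogeneous D) ∧ (∀ i k, (Eh i k).IsHomogeneous a) ∧
      (∀ i, ∑ k, Eh i k * F k = X o ^ a * F i) ∧ (∀ i, ∑ k, E i k * f k = f i) ∧
      (∀ (R : Type) [CommRing R] (χ : K →+* R) (v : ν → R) (t : n → R),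
        (∀ j, v (ι j) = v o * t j) → (∀ i, eval₂ χ v (F i) = v o ^ D * eval₂ χ t (f i)) ∧
          val Eh χ v = v o ^ a • val E χ t) ∧
      ∀ (R : Type) [CommRing R] (χ : K →+* R) (u : n → R), (∀ i, eval₂ χ u (f i) = 0) →
        val E χ u * val E χ u = val E χ u ∧ val E χ u * Jac f χ u = Jac f χ u ∧
          val E χ u = Jac f χ u * val L χ u := by
  obtain ⟨E, L, h1, h2⟩ := ekd x hx f hf
  obtain ⟨D, hD⟩ := (Set.finite_range fun i => (f i).totalDegree).bddAbove
  obtain ⟨a, ha⟩ := (Set.finite_range fun i : m × m => (E i.1 i.2).totalDegree).bddAbove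
  have hD' : ∀ i, (f i).totalDegree ≤ D + 1 := fun i => (hD ⟨i, rfl⟩).trans D.le_succ
  have ha' : ∀ i k, (E i k).totalDegree ≤ a + 1 := fun i k => (ha ⟨(i, k), rfl⟩).trans a.le_succ
  exact ⟨D + 1, a + 1, fun i => hom ι o _ (f i), fun i k => hom ι o _ (E i k), E, L, D.succ_pos,
    a.succ_pos, fun _ => hom_hom .., fun _ _ => hom_hom ..,
    fun i => hom_rel ι o hD' (ha' i) (hD' i) (h1 i), h1,
    fun R _ χ v t hv => ⟨fun i => hom_eval ι o (hD' i) χ hv,
      Matrix.ext fun i k => hom_eval ι o (ha' i k) χ hv⟩, h2⟩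

end Pool.Agent.MP_855f4c_ag.T.Ekd

end

section

/-! The algebra of the tube lemma: a retraction and a homotopy from Elkik's theorem. -/

set_option autoImplicit false

open MvPolynomial

namespace Pool.Agent.MP_855f4c_ag.T

/-- A point `e` of `g = 0` with `γ(e) = ϖ^k c` moves to a point `z` of `g = γ = 0`, and the move
is the end of a homotopy inside the tube `γ ∈ ϖ^k`. -/
def TUBA_s : Prop := ∀ (O K : Type) [CommRing O] [CommRing K] [Algebra O K] (ϖ : O)
  [IsLocalization.Away ϖ K] (ν ρ μ : Type) [Finite ν] [Finite ρ] [Finite μ]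
  (g : ρ → MvPolynomial ν K) (γ : μ → MvPolynomial ν K),
    Algebra.FormallySmooth K (MvPolynomial ν K ⧸ Ideal.span (Set.range g)) →
    Algebra.FormallySmooth K (MvPolynomial ν K ⧸ Ideal.span (Set.range (Sum.elim g γ))) →
    ∃ k₀ : ℕ, ∀ k ≥ k₀, ∀ (R R' : Type) [CommRing R] [CommRing R'] [Algebra O R] [Algebra R R']
      [IsLocalization.Away (algebraMap O R ϖ) R'] (χ : K →+* R') (e : ν → R) (c : μ → R),
      (∀ o, χ (algebraMap O K o) = algebraMap R R' (algebraMap O R o)) →
      Newt R (Ideal.span {algebraMap O R ϖ}) →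
      (∀ i, eval₂ χ (fun j => algebraMap R R' (e j)) (g i) = 0) →
      (∀ i, eval₂ χ (fun j => algebraMap R R' (e j)) (γ i) =
        algebraMap R R' (algebraMap O R ϖ ^ k * c i)) →
      ∃ z : ν → R, (∀ j, z j - e j ∈ Ideal.span {algebraMap O R ϖ} * Ideal.span (Set.range c)) ∧
        (∀ i, eval₂ χ (fun j => algebraMap R R' (z j)) (g i) = 0) ∧
        (∀ i, eval₂ χ (fun j => algebraMap R R' (z j)) (γ i) = 0) ∧
        ∀ (S S' : Type) [CommRing S] [CommRing S'] [Algebra O S] [Algebra S S']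
          [IsLocalization.Away (algebraMap O S ϖ) S'] (f : R →ₐ[O] S) (f' : R' →+* S') (s : S),
          (∀ r, f' (algebraMap R R' r) = algebraMap S S' (f r)) →
          Newt S (Ideal.span {algebraMap O S ϖ}) →
          ∃ (w : ν → S) (δ : μ → S),
            (∀ i, eval₂ (f'.comp χ) (fun j => algebraMap S S' (w j)) (g i) = 0) ∧
            (∀ i, eval₂ (f'.comp χ) (fun j => algebraMap S S' (w j)) (γ i) =
              algebraMap S S' (algebraMap O S ϖ ^ k * δ i)) ∧
            (∀ j, w j - (f (e j) + s * (f (z j) - f (e j))) ∈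
              Ideal.span {algebraMap O S ϖ * (s * (s - 1))}) ∧
            ∀ i, δ i - (1 - s) * f (c i) ∈ Ideal.span {algebraMap O S ϖ * (s * (s - 1))}

namespace Tuba

/-- Taylor expansion along a segment. -/
theorem tay {ν A B : Type} [CommRing A] [CommRing B] (φ : A →+* B) (t s : B) (x y : ν → B)
    (h : ∀ j, t ∣ y j - x j) (P : MvPolynomial ν A) :
    t * t * (s * (s - 1)) ∣ eval₂ φ (fun j => x j + s * (y j - x j)) P - (1 - s) * eval₂ φ x P -
      s * eval₂ φ y P := by
  induction P using MvPolynomial.induction_on with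
  | C a => simp only [eval₂_C]; exact ⟨0, by ring⟩
  | add p q hp hq =>
    obtain ⟨a, ha⟩ := hp
    obtain ⟨b, hb⟩ := hq
    exact ⟨a + b, by simp only [eval₂_add]; linear_combination ha + hb⟩
  | mul_X p j hp =>
    obtain ⟨a, ha⟩ := hp
    obtain ⟨b, hb⟩ := h j
    obtain ⟨c, hc⟩ := Ideal.mem_span_singleton.1 (Cha.ev_sub φ (Ideal.span {t}) y x
      (fun j => Ideal.mem_span_singleton.2 (h j)) p)
    refine ⟨a * (x j + s * (y j - x j)) + b * c, ?_⟩
    simp only [eval₂_mul, eval₂_X]
    linear_combination (x j + s * (y j - x j)) * ha + s * (s - 1) * (y j - x j) * hc +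
      s * (s - 1) * (t * c) * hb

theorem den1 {O K ν : Type} [CommRing O] [CommRing K] [Algebra O K] (ϖ : O)
    [IsLocalization.Away ϖ K] (P : MvPolynomial ν K) : ∃ n : ℕ, ∀ m ≥ n, ∃ Q : MvPolynomial ν O,
      map (algebraMap O K) Q = C (algebraMap O K ϖ) ^ m * P := by
  induction P using MvPolynomial.induction_on with
  | C a =>
    obtain ⟨n, o, h⟩ := IsLocalization.Away.surj ϖ a
    refine ⟨n, fun m hm => ⟨C (ϖ ^ (m - n) * o), ?_⟩⟩
    obtain ⟨r, rfl⟩ := Nat.exists_eq_add_of_le hm
    rw [map_C, map_mul, ← h, Nat.add_sub_cancel_left]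
    simp only [map_mul, map_pow]
    ring
  | add p q hp hq =>
    obtain ⟨a, ha⟩ := hp
    obtain ⟨b, hb⟩ := hq
    refine ⟨max a b, fun m hm => ?_⟩
    obtain ⟨P, hP⟩ := ha m (le_of_max_le_left hm)
    obtain ⟨Q, hQ⟩ := hb m (le_of_max_le_right hm)
    exact ⟨P + Q, by rw [map_add, hP, hQ, mul_add]⟩
  | mul_X p j hp =>
    obtain ⟨a, ha⟩ := hp
    refine ⟨a, fun m hm => ?_⟩
    obtain ⟨P, hP⟩ := ha m hm
    exact ⟨P * X j, by rw [map_mul, hP, map_X, mul_assoc]⟩

theorem den {O K ν ι : Type} [CommRing O] [CommRing K] [Algebra O K] (ϖ : O) [Finite ι]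
    [IsLocalization.Away ϖ K] (P : ι → MvPolynomial ν K) :
    ∃ (n : ℕ) (Q : ι → MvPolynomial ν O),
      ∀ i, map (algebraMap O K) (Q i) = C (algebraMap O K ϖ) ^ n * P i := by
  choose n hn using fun i => den1 ϖ (P i)
  obtain ⟨N, hN⟩ := (Set.finite_range n).bddAbove
  choose Q hQ using fun i => hn i N (hN ⟨i, rfl⟩)
  exact ⟨N, Q, hQ⟩

theorem ev_den {O K ν S S' : Type} [CommRing O] [CommRing K] [Algebra O K] [CommRing S]
    [CommRing S'] [Algebra O S] [Algebra S S'] (χ : K →+* S')
    (hχ : ∀ o, χ (algebraMap O K o) = algebraMap S S' (algebraMap O S o)) {ϖ : O} {n : ℕ}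
    {P : MvPolynomial ν K} {Q : MvPolynomial ν O}
    (h : map (algebraMap O K) Q = C (algebraMap O K ϖ) ^ n * P) (x : ν → S) :
    algebraMap S S' (eval₂ (algebraMap O S) x Q) =
      algebraMap S S' (algebraMap O S ϖ) ^ n * eval₂ χ (fun j => algebraMap S S' (x j)) P := by
  have e := congrArg (eval₂ χ fun j => algebraMap S S' (x j)) h
  rw [eval₂_map, eval₂_mul, eval₂_pow, eval₂_C, hχ] at e
  rw [← e, eval₂_comp_left]
  congr 1
  exact RingHom.ext fun o => (hχ o).symm

theorem mono {A : Type} [CommRing A] {I J : Ideal A} (h : Newt A I) (hJ : J ≤ I) : Newt A J :=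
  fun ν _ Θ hΘ => h ν Θ fun i m => hJ (hΘ i m)

/-- The segment from `x` to `y`, after clearing denominators. -/
theorem seg {O K ν S S' : Type} [CommRing O] [CommRing K] [Algebra O K] [CommRing S]
    [CommRing S'] [Algebra O S] [Algebra S S'] (χ : K →+* S')
    (hχ : ∀ o, χ (algebraMap O K o) = algebraMap S S' (algebraMap O S o)) {ϖ : O} {n : ℕ}
    (un : IsUnit (algebraMap S S' (algebraMap O S ϖ))) {P : MvPolynomial ν K}
    {Q : MvPolynomial ν O} (h : map (algebraMap O K) Q = C (algebraMap O K ϖ) ^ n * P)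
    (x y w : ν → S) (s : S) (m u v : ℕ) (hu : n + v ≤ u) (hm : n + v ≤ m + m)
    (hxy : ∀ j, algebraMap O S ϖ ^ m ∣ y j - x j)
    (hw : ∀ j, w j - (x j + s * (y j - x j)) ∈ Ideal.span {algebraMap O S ϖ ^ u * (s * (s - 1))}) :
    ∃ a : S, eval₂ χ (fun j => algebraMap S S' (w j)) P =
      (1 - algebraMap S S' s) * eval₂ χ (fun j => algebraMap S S' (x j)) P +
        algebraMap S S' s * eval₂ χ (fun j => algebraMap S S' (y j)) P +
        algebraMap S S' (algebraMap O S ϖ ^ v * (s * (s - 1)) * a) := by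
  obtain ⟨a, ha⟩ := tay (algebraMap O S) _ s x y hxy Q
  obtain ⟨a', ha'⟩ := Ideal.mem_span_singleton.1 (Cha.ev_sub (algebraMap O S) _ _ _ hw Q)
  obtain ⟨r, rfl⟩ := Nat.exists_eq_add_of_le hu
  obtain ⟨t, ht⟩ := Nat.exists_eq_add_of_le hm
  rw [← pow_add, ht] at ha
  have e0 := ev_den χ hχ h w
  have e1 := ev_den χ hχ h x
  have e2 := ev_den χ hχ h y
  generalize algebraMap O S ϖ = q at *
  refine ⟨q ^ r * a' + q ^ t * a, (un.pow n).mul_left_cancel ?_⟩
  have e : eval₂ (algebraMap O S) w Q = (1 - s) * eval₂ (algebraMap O S) x Q +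
      s * eval₂ (algebraMap O S) y Q + q ^ n * (q ^ v * (s * (s - 1)) * (q ^ r * a' + q ^ t * a)) := by
    linear_combination ha + ha'
  rw [← e0, e, map_add, map_add, map_mul, map_mul, map_mul, e1, e2, map_sub, map_one, map_pow]
  ring

end Tuba

open Tuba

theorem tuba : TUBA_s := by
  intro O K _ _ _ ϖ _ ν ρ μ _ _ _ g γ hX hD
  obtain ⟨hx, HX⟩ := elkA O K ϖ ν ρ g hX 0 0
  obtain ⟨hd, HD⟩ := elkA O K ϖ ν (ρ ⊕ μ) (Sum.elim g γ) hD 0 0
  obtain ⟨n, Q, hQ⟩ := den ϖ (Sum.elim g γ)
  refine ⟨2 * hd + 2 * n + hx + 1, fun k hk R R' _ _ _ _ _ χ e c hχ hN hg hγ => ?_⟩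
  obtain ⟨m, rfl⟩ : ∃ m, k = hd + m := ⟨k - hd, by omega⟩
  have hm : m ≠ 0 := by omega
  obtain ⟨z', z1, z2⟩ := HD R R' χ (Ideal.span {algebraMap O R ϖ ^ m} * Ideal.span (Set.range c))
    (fun j => algebraMap R R' (e j)) hχ
    (mono hN (Ideal.mul_le_left.trans (Ideal.span_singleton_le_span_singleton.2
      (dvd_pow_self _ hm))))
    (fun j => ⟨e j, by rw [pow_zero, one_mul]⟩) (fun i => by
      rcases i with i | i
      · exact ⟨0, Ideal.zero_mem _, by rw [Sum.elim_inl, hg i, map_zero, mul_zero]⟩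
      · refine ⟨algebraMap O R ϖ ^ m * c i, Ideal.mul_mem_mul (Ideal.mem_span_singleton_self _)
          (Ideal.subset_span ⟨i, rfl⟩), ?_⟩
        rw [Sum.elim_inr, hγ i, hχ, ← map_pow (algebraMap R R'), ← map_mul, pow_add, mul_assoc])
  choose b hb hzb using z1
  have hz : z' = fun j => algebraMap R R' (e j + b j) := funext fun j => by
    have := hzb j
    rw [pow_zero, one_mul] at this
    rw [map_add, ← this, add_sub_cancel]
  subst hz
  refine ⟨fun j => e j + b j, fun j => ?_, fun i => z2 (.inl i), fun i => z2 (.inr i), ?_⟩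
  · rw [add_sub_cancel_left]
    exact Ideal.mul_mono_left (Ideal.span_singleton_le_span_singleton.2
      (dvd_pow_self _ hm)) (hb j)
  intro S S' _ _ _ _ _ f f' s hf hNS
  have hχ' : ∀ o, (f'.comp χ) (algebraMap O K o) = algebraMap S S' (algebraMap O S o) := fun o => by
    rw [RingHom.comp_apply, hχ, hf, f.commutes]
  have push : ∀ (x : ν → R) (P : MvPolynomial ν K),
      eval₂ (f'.comp χ) (fun j => algebraMap S S' (f (x j))) P =
        f' (eval₂ χ (fun j => algebraMap R R' (x j)) P) := fun x P => by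
    rw [eval₂_comp_left]
    congr 1
    exact funext fun j => (hf _).symm
  have un : IsUnit (algebraMap S S' (algebraMap O S ϖ)) :=
    IsLocalization.Away.algebraMap_isUnit _
  have hxy : ∀ j, algebraMap O S ϖ ^ m ∣ f (e j + b j) - f (e j) := fun j => by
    obtain ⟨a, ha⟩ := Ideal.mem_span_singleton.1 (Ideal.mul_le_left (hb j))
    exact ⟨f a, by rw [map_add, add_sub_cancel_left, ha, map_mul, map_pow, f.commutes]⟩
  obtain ⟨u, hu⟩ : ∃ u, u = n + (hd + m + 1) := ⟨_, rfl⟩
  obtain ⟨w', w1, w2⟩ := HX S S' (f'.comp χ)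
    (Ideal.span {algebraMap O S ϖ ^ u * (s * (s - 1))})
    (fun j => algebraMap S S' (f (e j) + s * (f (e j + b j) - f (e j)))) hχ'
    (mono hNS (Ideal.span_singleton_le_span_singleton.2
      ((dvd_pow_self _ (by omega)).mul_right _)))
    (fun j => ⟨_, by rw [pow_zero, one_mul]⟩) (fun i => by
      obtain ⟨a, ha⟩ := seg _ hχ' un (hQ (.inl i)) (fun j => f (e j)) (fun j => f (e j + b j))
        (fun j => f (e j) + s * (f (e j + b j) - f (e j))) s m (n + (hx + u)) (hx + u) le_rfl
        (by omega) hxy fun j => by rw [sub_self]; exact Ideal.zero_mem _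
      refine ⟨algebraMap O S ϖ ^ u * (s * (s - 1)) * a, Ideal.mul_mem_right _ _
        (Ideal.mem_span_singleton_self _), ?_⟩
      have h2 := z2 (.inl i)
      rw [Sum.elim_inl] at ha h2
      rw [ha, push, push, hg i, h2, map_zero, mul_zero, mul_zero, add_zero, zero_add, hχ',
        ← map_pow (algebraMap S S'), ← map_mul, pow_add]
      simp only [mul_assoc])
  choose β hβ hwβ using w1
  have hw : w' = fun j => algebraMap S S' (f (e j) + s * (f (e j + b j) - f (e j)) + β j) :=
    funext fun j => by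
      have := hwβ j
      rw [pow_zero, one_mul] at this
      rw [map_add, ← this, add_sub_cancel]
  subst hw
  have key : ∀ i, ∃ a : S, eval₂ (f'.comp χ)
      (fun j => algebraMap S S' (f (e j) + s * (f (e j + b j) - f (e j)) + β j)) (γ i) =
      algebraMap S S' (algebraMap O S ϖ ^ (hd + m) *
        ((1 - s) * f (c i) + algebraMap O S ϖ * (s * (s - 1)) * a)) := fun i => by
    obtain ⟨a, ha⟩ := seg _ hχ' un (hQ (.inr i)) (fun j => f (e j)) (fun j => f (e j + b j))
      (fun j => f (e j) + s * (f (e j + b j) - f (e j)) + β j) s m u (hd + m + 1) hu.ge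
      (by omega) hxy fun j => by rw [add_sub_cancel_left]; exact hβ j
    refine ⟨a, ?_⟩
    have h2 := z2 (.inr i)
    rw [Sum.elim_inr] at ha h2
    rw [ha, push, push, hγ i, h2, map_zero, mul_zero, add_zero, hf, map_mul f, map_pow f,
      f.commutes, ← map_one (algebraMap S S'), ← map_sub, ← map_mul, ← map_add]
    congr 1
    ring
  choose a ha using key
  refine ⟨fun j => f (e j) + s * (f (e j + b j) - f (e j)) + β j,
    fun i => (1 - s) * f (c i) + algebraMap O S ϖ * (s * (s - 1)) * a i, w2, ha,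
    fun j => ?_, fun i => ?_⟩
  · rw [add_sub_cancel_left]
    exact Ideal.span_singleton_le_span_singleton.2
      (mul_dvd_mul_right (dvd_pow_self _ (by omega)) _) (hβ j)
  · rw [add_sub_cancel_left]
    exact Ideal.mul_mem_right _ _ (Ideal.mem_span_singleton_self _)

end Pool.Agent.MP_855f4c_ag.T

end

section

/-! h14a section 4: integral covectors, and the matrix relating two systems of equations. -/

set_option autoImplicit false

open MvPolynomial Matrix

namespace Pool.Agent.MP_855f4c_ag.T.Mtx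

open G.La

section icov

/-- The coefficients of a product of unimodular linear forms have a covector over `ℤ`. -/
theorem icov {κ J : Type} [Fintype κ] [DecidableEq κ] [Fintype J] (π : J → κ) {n : ℕ}
    (hn : Fintype.card J ≤ n) :
    ∃ lam : Fin (n + 1) → MvPolynomial (XY κ) ℤ, (∀ a, Hg (-∑ j, Pi.single (π j) 1) (lam a)) ∧
      ∀ (D : Type) [CommRing D] (a : XY κ → D), Rel a → ∑ i, aeval a (lam i) *
        vec (fun j => a (.inl (π j, 0))) (fun j => a (.inl (π j, 1))) i = 1 := by
  let v : Fin (n + 1) → MvPolynomial (XY κ) ℤ := fun i =>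
    vec (fun j => X (.inl (π j, 0))) (fun j => X (.inl (π j, 1))) i
  have hv (i) : Hg (∑ j, Pi.single (π j) 1) (v i) :=
    vec_hom wt (fun j => isWeightedHomogeneous_X ℤ wt (.inl (π j, 0)))
      (fun j => isWeightedHomogeneous_X ℤ wt (.inl (π j, 1))) _
  have ev (D : Type) [CommRing D] (φ : MvPolynomial (XY κ) ℤ →+* D) (i) : φ (v i) =
      vec (fun j => φ (X (.inl (π j, 0)))) (fun j => φ (X (.inl (π j, 1)))) i := vec_map φ _ _ _
  have h1 : (1 : MvPolynomial (XY κ) ℤ) ∈
      Ideal.span (Set.range (Np.rl ℤ)) ⊔ Ideal.span (Set.range v) := by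
    rw [← Ideal.eq_top_iff_one]
    by_contra h
    obtain ⟨m, hm, hle⟩ := Ideal.exists_le_maximal _ h
    have z {x} (hx : x ∈ m) : Ideal.Quotient.mk m x = 0 := Ideal.Quotient.eq_zero_iff_mem.2 hx
    obtain ⟨i, hi, h⟩ := vec_ne (x := fun j => Ideal.Quotient.mk m (X (.inl (π j, 0))))
      (y := fun j => Ideal.Quotient.mk m (X (.inl (π j, 1)))) fun j => by
        by_contra! h
        have := z (hle (Ideal.mem_sup_left (Ideal.subset_span ⟨π j, rfl⟩)))
        simp [Np.rl, h.1, h.2] at this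
    exact h ((ev _ _ ⟨i, by omega⟩).symm.trans
      (z (hle (Ideal.mem_sup_right (Ideal.subset_span ⟨_, rfl⟩)))))
  obtain ⟨lam, h2, h3⟩ := comp_sum wt (ρ := fun _ => 0) (Np.rl_hg ℤ) hv
    (isWeightedHomogeneous_one ℤ wt) h1
  refine ⟨lam, fun a => by simpa using h2 a, fun D _ a ha => ?_⟩
  have := (Ideal.span_le (I := RingHom.ker (eval₂Hom (algebraMap ℤ D) a))).2
    (by rintro _ ⟨k, rfl⟩; exact (Np.rl_ev _ a).2 ha k) h3
  rw [RingHom.mem_ker, map_sub, map_sum, map_one, sub_eq_zero] at this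
  simpa only [map_mul, ev, eval₂Hom_X', aeval_eq_eval₂Hom] using this

open Lr in
/-- The same for the coefficient map `Lr.V`. -/
theorem icovV {β : Type} [Fintype β] [DecidableEq β] (k n : β → ℕ) :
    ∃ lam : VV k n → MvPolynomial (XY (KK k n)) ℤ, (∀ t, Hg (-wφ (Pi.single t.1 1)) (lam t)) ∧
      ∀ (D : Type) [CommRing D] (a : XY (KK k n) → D), Rel a → ∀ l : LL k,
        ∑ i, aeval a (lam ⟨l, i⟩) * V (a ∘ Sum.inl) ⟨l, i⟩ = 1 := by
  choose lam h1 h2 using fun l : LL k =>
    icov (fun j : Fin (n l.1) => (⟨l, j⟩ : KK k n)) (Fintype.card_fin _).le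
  refine ⟨fun t => lam t.1 t.2, fun t => ?_, fun D _ a ha l => h2 l D a ha⟩
  have : wφ (Pi.single t.1 1) = ∑ j : Fin (n t.1.1), (Pi.single ⟨t.1, j⟩ 1 : KK k n → ℤ) := by
    funext ⟨l, i⟩
    obtain ⟨l', a⟩ := t
    by_cases h : l = l'
    · subst h
      simp [wφ, Pi.single_apply]
    · simp [wφ, h]
  exact this ▸ h1 t.1 t.2

end icov

section tay
variable {ν K D : Type} [CommRing K] [CommRing D] [Algebra K D]

theorem scal {P : MvPolynomial ν K} {a : ℕ} (h : P.IsHomogeneous a) (c : D) (x : ν → D) :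
    aeval (fun i => c * x i) P = c ^ a * aeval x P := by
  induction h using IsWeightedHomogeneous.induction_on with
  | zero => simp
  | add _ _ _ _ h h' => rw [map_add, map_add, h, h', mul_add]
  | monomial d r hr =>
    rw [aeval_monomial, aeval_monomial, ← hr, Finsupp.weight_apply]
    simp only [Finsupp.prod, Finsupp.sum, mul_pow, Finset.prod_mul_distrib, Pi.one_apply,
      smul_eq_mul, mul_one, Finset.prod_pow_eq_pow_sum]
    ring

theorem sub_mem' (x y : ν → D) (J : Ideal D) (h : ∀ i, x i - y i ∈ J) (P : MvPolynomial ν K) :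
    aeval x P - aeval y P ∈ J := by
  induction P using MvPolynomial.induction_on with
  | C a => simp
  | add p q hp hq => rw [map_add, map_add, add_sub_add_comm]; exact add_mem hp hq
  | mul_X p i hp =>
    rw [map_mul, map_mul, aeval_X, aeval_X, show ∀ a b c d : D, a * b - c * d =
      (a - c) * b + c * (b - d) from fun _ _ _ _ => by ring]
    exact add_mem (J.mul_mem_right _ hp) (J.mul_mem_left _ (h i))

theorem homz {P : MvPolynomial ν K} {a : ℕ} (h : P.IsHomogeneous a) :
    P.IsWeightedHomogeneous (fun _ => (1 : ℤ)) a := by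
  simpa using subst (fun _ : ν => (1 : ℤ)) (Nat.castAddMonoidHom ℤ) (g := X)
    (fun t => by simpa using isWeightedHomogeneous_X K (fun _ : ν => (1 : ℤ)) t) h

variable {I : Type}

/-- `ν` consists of `o` and a copy of `I`. -/
def Cv (ι : I → ν) (o : ν) : Prop :=
  Function.Injective ι ∧ (∀ i, ι i ≠ o) ∧ ∀ x, x = o ∨ ∃ i, x = ι i

theorem cv_ne (o : ν) : Cv (Subtype.val : {k // k ≠ o} → ν) o :=
  ⟨Subtype.val_injective, fun i => i.2, fun x => (em (x = o)).imp_right fun h => ⟨⟨x, h⟩, rfl⟩⟩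

/-- The differences that vanish at the point `u`. -/
def tau (ι : I → ν) (o : ν) (u : ν → K) (v : ν → D) (i : I) : D :=
  v (ι i) - algebraMap K D (u (ι i)) * v o

theorem Cv.line {ι : I → ν} {o : ν} (c : Cv ι o) {u : ν → K} (hu : u o = 1) {v : ν → D} :
    tau ι o u v = 0 ↔ v = fun x => v o * algebraMap K D (u x) := by
  refine ⟨fun h => funext fun x => ?_, fun h => funext fun i => ?_⟩
  · rcases c.2.2 x with rfl | ⟨i, rfl⟩
    · simp [hu]
    · exact (sub_eq_zero.1 (congrFun h i)).trans (mul_comm _ _)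
  · exact sub_eq_zero.2 ((congrFun h _).trans (mul_comm _ _))

/-- First order expansion of a form along the line through `u`. -/
theorem tay [Fintype I] {ι : I → ν} {o : ν} (c : Cv ι o) {u : ν → K} (hu : u o = 1)
    {P : MvPolynomial ν K} {a : ℕ} (h : P.IsHomogeneous a) :
    ∃ Q : I → MvPolynomial ν K,
      (∀ m, (Q m).IsWeightedHomogeneous (fun _ => (1 : ℤ)) (a - 1)) ∧
      (∀ (D : Type) [CommRing D] [Algebra K D] (v : ν → D), aeval v P =
        algebraMap K D (aeval u P) * v o ^ a + ∑ m, aeval v (Q m) * tau ι o u v m) ∧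
      ∀ (t : K) m, aeval (fun i => t * u i) (Q m) = t ^ (a - 1) * aeval u (pderiv (ι m) P) := by
  classical
  have hX (i) := isWeightedHomogeneous_X K (fun _ : ν => (1 : ℤ)) i
  have hτ (m) : (tau ι o u X m : MvPolynomial ν K).IsWeightedHomogeneous
      (fun _ => (1 : ℤ)) 1 := (hX _).sub ((hX _).C_mul _)
  have e1 : aeval (fun i => X o * C (u i)) P = (X o ^ a * C (aeval u P) : MvPolynomial ν K) := by
    rw [scal h]
    exact congrArg _ (aeval_algebraMap_apply _ u P)
  have h1 : P - C (aeval u P) * X o ^ a ∈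
      Ideal.span (Set.range fun i : Empty => i.elim) ⊔ Ideal.span (Set.range (tau ι o u X)) := by
    refine Ideal.mem_sup_right ?_
    have := sub_mem' X (fun i => X o * C (u i)) (Ideal.span (Set.range (tau ι o u X)))
      (fun i => by
        rcases c.2.2 i with rfl | ⟨i, rfl⟩
        · simp [hu]
        · exact Ideal.subset_span ⟨i, congrArg (X (ι i) - ·) (mul_comm _ _)⟩) P
    rwa [e1, aeval_X_left_apply, mul_comm] at this
  obtain ⟨Q, h2, h3⟩ := comp_sum (fun _ => (1 : ℤ)) (ρ := fun i : Empty => i.elim)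
    (fun i => i.elim) hτ ((homz h).sub (by simpa using ((hX o).pow a).C_mul _)) h1
  have h4 : P = C (aeval u P) * X o ^ a + ∑ m, Q m * tau ι o u X m := by
    rw [Set.range_eq_empty, Ideal.span_empty, Ideal.mem_bot] at h3
    linear_combination -h3
  refine ⟨Q, h2, fun D _ _ v => ?_, fun t m => ?_⟩
  · conv_lhs => rw [h4]
    simp [tau]
  · have h5 := congrArg (fun P => aeval (fun i => t * u i) (pderiv (ι m) P)) h4
    simp only [scal h.pderiv] at h5
    rw [h5]
    simp [tau, hu, pderiv_X, Pi.single_apply, mul_comm t, apply_ite (eval _), (c.2.1 m).symm,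
      c.1.eq_iff]

/-- The same for a form over a subring. -/
theorem tay' {Ω : Type} [CommRing Ω] [Algebra K Ω] [Fintype I] {ι : I → ν} {o : ν} (c : Cv ι o)
    {u : ν → Ω} (hu : u o = 1) {P : MvPolynomial ν K} {a : ℕ} (h : P.IsHomogeneous a) :
    ∃ Q : I → MvPolynomial ν Ω,
      (∀ m, (Q m).IsWeightedHomogeneous (fun _ => (1 : ℤ)) (a - 1)) ∧
      (∀ (D : Type) [CommRing D] [Algebra K D] [Algebra Ω D] [IsScalarTower K Ω D] (v : ν → D),
        aeval v P = algebraMap Ω D (aeval u P) * v o ^ a + ∑ m, aeval v (Q m) * tau ι o u v m) ∧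
      ∀ (t : Ω) m, aeval (fun i => t * u i) (Q m) = t ^ (a - 1) * aeval u (pderiv (ι m) P) := by
  obtain ⟨Q, h1, h2, h3⟩ := tay c hu (h.map (algebraMap K Ω))
  exact ⟨Q, h1, fun D _ _ _ _ v => by simpa only [aeval_map_algebraMap] using h2 D v,
    fun t m => by simpa only [pderiv_map, aeval_map_algebraMap] using h3 t m⟩

end tay

section main
variable {K Ω ν I D C J X A S R : Type} [CommRing K] [Field Ω] [Algebra K Ω] [CommRing R]
  [Algebra Ω R] [Fintype I] [Fintype X]

/-- The index set of the equations. -/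
abbrev Ix (I A C J S : Type) : Type := I ⊕ A ⊕ (C × J) ⊕ (C × J) ⊕ S

/-- The linear system `t'`. -/
noncomputable def tB (ι : I → ν) (o : ν) (u : ν → Ω) (y : A → MvPolynomial ν K) (Γ : Matrix X J Ω)
    (Φ : Matrix C X Ω) (v : ν → R) (z₀ : R) (z : A → R) (f : Matrix C X R)
    (g : Matrix X J R) (s : S → R) : Ix I A C J S → R :=
  Sum.elim (tau ι o u v) <| Sum.elim (fun a => z a - z₀ * algebraMap Ω R (aeval u (y a))) <|
    Sum.elim (fun p => (f * Γ.map (algebraMap Ω R)) p.1 p.2) <|
      Sum.elim (fun p => (Φ.map (algebraMap Ω R) * g) p.1 p.2) s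

/-- The system `t`. -/
noncomputable def tA [Algebra K R] (ι : I → ν) (o : ν) (u : ν → Ω) (e : I ≃ D ⊕ C)
    (L : Matrix D I Ω)
    (F : X → MvPolynomial ν K) (E : Matrix X X (MvPolynomial ν K))
    (y : A → MvPolynomial ν K) (r : ℕ) (ω : R) (v : ν → R) (z₀ : R) (z : A → R)
    (f : Matrix C X R) (g : Matrix X J R) (s : S → R) : Ix I A C J S → R :=
  Sum.elim (fun i => Sum.elim (ω • L.map (algebraMap Ω R) *ᵥ tau ι o u v)
      (f *ᵥ fun x => aeval v (F x)) (e i)) <|
    Sum.elim (fun a => z a * v o ^ r - z₀ * aeval v (y a)) <|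
      Sum.elim (fun p => (f * g) p.1 p.2) <|
        Sum.elim (fun p => (f * E.map (aeval v) * g) p.1 p.2) s

/-- The weights of `t'`. -/
def nB {W : Type} (α α' : W) (β : C → W) (γ : J → W) (ns : S → W) : Ix I A C J S → W :=
  Sum.elim (fun _ => α) <| Sum.elim (fun _ => α') <| Sum.elim (fun p => β p.1) <|
    Sum.elim (fun p => γ p.2) ns

/-- The weights of `t`. -/
def nA {W : Type} [AddCommGroup W] (e : I ≃ D ⊕ C) (a b r : ℕ) (nl α α' : W) (β : C → W)
    (γ : J → W) (ns : S → W) : Ix I A C J S → W :=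
  Sum.elim (fun i => Sum.elim (fun _ => nl) (fun c => β c + a • α) (e i)) <|
    Sum.elim (fun _ => α' + r • α) <| Sum.elim (fun p => β p.1 + γ p.2) <|
      Sum.elim (fun p => β p.1 + b • α + γ p.2) ns

variable [DecidableEq C] [DecidableEq J] [DecidableEq A] [DecidableEq S]

/-- The matrix. -/
def MM (N : Matrix I I R) (Y : Matrix A I R) (ρ σ : R) (G : Matrix J J R) (B : Matrix C C R)
    (H : I → Matrix C J R) : Matrix (Ix I A C J S) (Ix I A C J S) R
  | .inl i, .inl m => N i m
  | .inr (.inl a), .inl m => Y a m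
  | .inr (.inl a), .inr (.inl a') => if a = a' then ρ else 0
  | .inr (.inr (.inl p)), .inr (.inr (.inl q)) => if p.1 = q.1 then G q.2 p.2 else 0
  | .inr (.inr (.inl p)), .inr (.inr (.inr (.inl q))) => if p.2 = q.2 then B p.1 q.1 else 0
  | .inr (.inr (.inr (.inl p))), .inl m => H m p.1 p.2
  | .inr (.inr (.inr (.inl p))), .inr (.inr (.inr (.inl q))) =>
    if p.2 = q.2 then σ * B p.1 q.1 else 0
  | .inr (.inr (.inr (.inr s))), .inr (.inr (.inr (.inr s'))) => if s = s' then 1 else 0
  | _, _ => 0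

variable [Fintype C] [Fintype J] [Fintype A] [Fintype S]

theorem MM_mul (N : Matrix I I R) (Y : Matrix A I R) (ρ σ : R) (G : Matrix J J R)
    (B : Matrix C C R) (H : I → Matrix C J R) (τ : I → R) (τ' : A → R) (P Q : Matrix C J R)
    (s : S → R) :
    MM N Y ρ σ G B H *ᵥ (Sum.elim τ <| Sum.elim τ' <| Sum.elim (fun p => P p.1 p.2) <|
      Sum.elim (fun p => Q p.1 p.2) s) =
    (Sum.elim (N *ᵥ τ) <| Sum.elim (Y *ᵥ τ + ρ • τ') <|
      Sum.elim (fun p => (P * G + B * Q) p.1 p.2) <|
        Sum.elim (fun p => (∑ m, τ m • H m + σ • (B * Q)) p.1 p.2) s) := by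
  funext p
  rcases p with i | a | p | p | s <;>
    simp [MM, mulVec, dotProduct, Fintype.sum_sum_type, Fintype.sum_prod_type, mul_apply,
      Matrix.sum_apply, Finset.mul_sum, mul_comm, mul_left_comm]

omit [Fintype I] [Fintype C] [Fintype J] [Fintype A] [Fintype S] in
theorem MM_map {R' : Type} [CommRing R'] (φ : R →+* R') (N : Matrix I I R) (Y : Matrix A I R)
    (ρ σ : R) (G : Matrix J J R) (B : Matrix C C R) (H : I → Matrix C J R) :
    (MM (S := S) N Y ρ σ G B H).map φ = MM (N.map φ) (Y.map φ) (φ ρ) (φ σ) (G.map φ) (B.map φ)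
      fun m => (H m).map φ := by
  ext p q
  rcases p with i | a | p | p | s <;> rcases q with i | a | p | p | s <;>
    simp [MM, apply_ite φ]

theorem MM_det {k : Type} [Field k] [DecidableEq I] {N : Matrix I I k} (Y : Matrix A I k) {ρ σ : k}
    {G : Matrix J J k} {B : Matrix C C k} (H : I → Matrix C J k) (hN : ∀ τ, N *ᵥ τ = 0 → τ = 0)
    (hρ : ρ ≠ 0) (hσ : σ ≠ 0) (hG : IsUnit G) (hB : IsUnit B) :
    (MM (S := S) N Y ρ σ G B H).det ≠ 0 := by
  rw [Ne, ← exists_mulVec_eq_zero_iff]
  rintro ⟨w, hw, h⟩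
  let P : Matrix C J k := fun c j => w (.inr (.inr (.inl (c, j))))
  let Q : Matrix C J k := fun c j => w (.inr (.inr (.inr (.inl (c, j)))))
  have e : w = (Sum.elim (fun i => w (.inl i)) <| Sum.elim (fun i => w (.inr (.inl i))) <|
      Sum.elim (fun p => P p.1 p.2) <| Sum.elim (fun p => Q p.1 p.2)
        fun i => w (.inr (.inr (.inr (.inr i))))) := by
    funext p
    rcases p with i | a | p | p | s <;> rfl
  rw [e, MM_mul] at h
  have h1 := hN _ (funext fun i => congrFun h (.inl i))
  simp only [show ∀ m, w (.inl m) = 0 from congrFun h1, zero_smul] at h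
  have h2 : Q = 0 := by
    have : σ • (B * Q) = 0 := by
      ext c j
      simpa using congrFun h (.inr (.inr (.inr (.inl (c, j)))))
    have := (smul_eq_zero.1 this).resolve_left hσ
    obtain ⟨B', hB'⟩ := hB.exists_left_inv
    rw [← Matrix.one_mul Q, ← hB', Matrix.mul_assoc, this, Matrix.mul_zero]
  have h3 : P = 0 := by
    have : P * G = 0 := by
      ext c j
      simpa [h2] using congrFun h (.inr (.inr (.inl (c, j))))
    obtain ⟨G', hG'⟩ := hG.exists_right_inv
    rw [← Matrix.mul_one P, ← hG', ← Matrix.mul_assoc, this, Matrix.zero_mul]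
  refine hw (funext fun p => ?_)
  rcases p with i | a | p | p | s
  · exact congrFun h1 i
  · simpa [hρ, mulVec] using congrFun h (.inr (.inl a))
  · exact congrFun (congrFun h3 p.1) p.2
  · exact congrFun (congrFun h2 p.1) p.2
  · exact congrFun h (.inr (.inr (.inr (.inr s))))

omit [DecidableEq J] [DecidableEq A] [DecidableEq S] [Fintype I] [Fintype J] [Fintype A]
  [Fintype S] [Fintype X] in
theorem unit_row {k : Type} [Field k] {B : Matrix C C k} {Φ f : Matrix C X k} (h : f = B * Φ)
    (hf : LinearIndependent k f.row) : IsUnit B :=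
  vecMul_injective_iff_isUnit.1 fun a b e => vecMul_injective_iff.2 hf (by
    simp only [h, ← vecMul_vecMul]
    exact congrArg (· ᵥ* Φ) e)

omit [DecidableEq C] [DecidableEq A] [DecidableEq S] [Fintype I] [Fintype C] [Fintype A]
  [Fintype S] [Fintype X] in
theorem unit_col {k : Type} [Field k] {G : Matrix J J k} {Γ g : Matrix X J k} (h : g = Γ * G)
    (hg : LinearIndependent k g.col) : IsUnit G :=
  mulVec_injective_iff_isUnit.1 fun a b e => mulVec_injective_iff.2 hg (by
    simp only [h, ← mulVec_mulVec, e])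

/-- The Jacobian matrix at the point. -/
noncomputable def jac (ι : I → ν) (u : ν → Ω) (F : X → MvPolynomial ν K) : Matrix X I Ω :=
  of fun x m => aeval u (pderiv (ι m) (F x))

/-- `t = M t'` with `M` homogeneous and invertible at the zeros of `t'`. -/
theorem mtx {σ W : Type} [AddCommGroup W] (wt : σ → W) [DecidableEq I] [DecidableEq X]
    {ι : I → ν} {o : ν} (cv : Cv ι o) {u : ν → Ω} (hu : u o = 1) (e : I ≃ D ⊕ C) (L : Matrix D I Ω)
    {F : X → MvPolynomial ν K} {E : Matrix X X (MvPolynomial ν K)}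
    {y : A → MvPolynomial ν K} {a b r : ℕ} (hF : ∀ x, (F x).IsHomogeneous a)
    (hE : ∀ x x', (E x x').IsHomogeneous b) (hy : ∀ i, (y i).IsHomogeneous r)
    {Δ : Matrix X C Ω} {Φ : Matrix C X Ω} {Γ : Matrix X J Ω} {Γ' : Matrix J X Ω}
    (h0 : ∀ x, aeval u (F x) = 0) (h1 : E.map (aeval u) = Δ * Φ)
    (h2 : 1 - E.map (aeval u) = Γ * Γ') (h3 : E.map (aeval u) * jac ι u F = jac ι u F)
    (h4 : ∀ τ, jac ι u F *ᵥ τ = 0 → L *ᵥ τ = 0 → τ = 0)
    {ω : MvPolynomial σ Ω} {v : ν → MvPolynomial σ Ω} {z₀ : MvPolynomial σ Ω}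
    (z : A → MvPolynomial σ Ω)
    {f : Matrix C X (MvPolynomial σ Ω)} {g : Matrix X J (MvPolynomial σ Ω)}
    (s : S → MvPolynomial σ Ω) {nl α α' : W} {β : C → W} {γ : J → W} (ns : S → W)
    (hω : ω.IsWeightedHomogeneous wt (nl - α))
    (hv : ∀ i, (v i).IsWeightedHomogeneous wt α) (hz : z₀.IsWeightedHomogeneous wt α')
    (hf : ∀ c x, (f c x).IsWeightedHomogeneous wt (β c))
    (hg : ∀ x j, (g x j).IsWeightedHomogeneous wt (γ j)) :
    ∃ M : Matrix (Ix I A C J S) (Ix I A C J S) (MvPolynomial σ Ω),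
      (∀ p q, (M p q).IsWeightedHomogeneous wt
        (nA e a b r nl α α' β γ ns p - nB α α' β γ ns q)) ∧
      tA ι o u e L F E y r ω v z₀ z f g s = M *ᵥ tB ι o u y Γ Φ v z₀ z f g s ∧
      ∀ x : σ → Ω, (∀ q, aeval x (tB ι o u y Γ Φ v z₀ z f g s q) = 0) → aeval x (v o) ≠ 0 →
        aeval x ω ≠ 0 →
        LinearIndependent Ω (f.map (aeval x)).row → LinearIndependent Ω (g.map (aeval x)).col →
        aeval x M.det ≠ 0 := by
  choose QF F1 F2 F3 using fun x => tay' cv hu (hF x)
  choose QE E1 E2 _ using fun x x' => tay' cv hu (hE x x')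
  choose Qy y1 y2 _ using fun i => tay' cv hu (hy i)
  have one : Γ * Γ' + Δ * Φ = 1 := by rw [← h1, ← h2, sub_add_cancel]
  let c := algebraMap Ω (MvPolynomial σ Ω)
  refine ⟨MM (of fun i m => Sum.elim (ω * L.map c · m)
      (fun k => (f * of fun x m => aeval v (QF x m)) k m) (e i))
    (of fun i m => -z₀ * aeval v (Qy i m)) (v o ^ r) (v o ^ b) (Γ'.map c * g) (f * Δ.map c)
    fun m => f * (of fun x x' => aeval v (QE x x' m)) * g, fun p q => ?_, ?_,
    fun x ht hx hω' lf lg => ?_⟩
  · have hw {P : MvPolynomial σ Ω} {n n' : W} (h : P.IsWeightedHomogeneous wt n) (e : n = n') :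
        P.IsWeightedHomogeneous wt n' := e ▸ h
    have hs {P : MvPolynomial ν Ω} {n : ℕ}
        (h : P.IsWeightedHomogeneous (fun _ => (1 : ℤ)) (n - 1)) :
        (aeval v P).IsWeightedHomogeneous wt (n • α - α) :=
      hw (subst wt (zmultiplesHom W α) (fun t => by simpa using hv t) h) (by simp [sub_smul])
    have hc (x : Ω) : (c x).IsWeightedHomogeneous wt 0 := isWeightedHomogeneous_C wt x
    have h0 (n) := isWeightedHomogeneous_zero Ω wt n
    have hB (k k') : ((f * Δ.map c) k k').IsWeightedHomogeneous wt (β k) :=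
      .sum _ _ _ fun x _ => hw ((hf k x).mul (hc _)) (add_zero _)
    rcases p with i | i | p | p | p <;> rcases q with m | m | q | q | q <;>
      try exact h0 _
    · simp only [MM, nA, nB, Sum.elim_inl, of_apply]
      rcases e i with k | k
      · exact hw (hω.mul (hc _)) (by simp)
      · exact .sum _ _ _ fun x _ => hw ((hf k x).mul (hs (F1 x m))) (by simp; abel)
    · exact hw (hz.neg.mul (hs (y1 i m))) (by simp [nA, nB]; abel)
    · simp only [MM]
      split_ifs
      · exact hw ((hv o).pow r) (by simp [nA, nB])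
      · exact h0 _
    · simp only [MM]
      split_ifs with h
      · exact .sum _ _ _ fun x _ => hw ((hc _).mul (hg x _)) (by simp [nA, nB, h])
      · exact h0 _
    · simp only [MM]
      split_ifs with h
      · exact hw (hB _ _) (by simp [nA, nB, h])
      · exact h0 _
    · exact .sum _ _ _ fun x _ => hw (IsWeightedHomogeneous.mul (.sum _ _ _ fun x' _ =>
        (hf p.1 x').mul (hs (E1 x' x m))) (hg x _)) (by simp [nA, nB]; abel)
    · simp only [MM]
      split_ifs with h
      · exact hw (((hv o).pow b).mul (hB _ _)) (by simp [nA, nB, h]; abel)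
      · exact h0 _
    · simp only [MM]
      split_ifs with h
      · exact hw (isWeightedHomogeneous_one Ω wt) (by simp [nA, nB, h])
      · exact h0 _
  · rw [tB, MM_mul]
    have e1 : (fun x => aeval v (F x)) = (of fun x m => aeval v (QF x m)) *ᵥ tau ι o u v :=
      funext fun x => by rw [F2, h0, map_zero, zero_mul, zero_add]; rfl
    have e2 : E.map (aeval v) = ∑ m, tau ι o u v m • (of fun x x' => aeval v (QE x x' m)) +
        v o ^ b • (Δ.map c * Φ.map c) := by
      rw [← Matrix.map_mul, ← h1]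
      ext1 x x'
      simp only [map_apply, E2 x x' _ v, Matrix.add_apply, Matrix.sum_apply, Matrix.smul_apply, of_apply,
        smul_eq_mul, mul_comm, add_comm, c]
    funext p
    rcases p with i | i | p | p | p
    · simp only [tA, Sum.elim_inl, e1, mulVec_mulVec, mulVec, dotProduct, of_apply]
      rcases e i with k | k
      · simp only [Sum.elim_inl, Pi.smul_apply, smul_eq_mul, mulVec, dotProduct, Finset.mul_sum,
          mul_assoc, c]
      · rfl
    · simp only [tA, Sum.elim_inl, Sum.elim_inr, y2 i _ v, mulVec, dotProduct, of_apply,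
        Pi.add_apply, Pi.smul_apply, smul_eq_mul, mul_add, Finset.mul_sum, neg_mul,
        Finset.sum_neg_distrib, mul_assoc]
      ring
    · simp only [tA, Sum.elim_inl, Sum.elim_inr]
      rw [Matrix.mul_assoc, Matrix.mul_assoc, ← Matrix.mul_add, ← Matrix.mul_assoc,
        ← Matrix.mul_assoc, ← Matrix.add_mul, ← Matrix.map_mul, ← Matrix.map_mul,
        ← Matrix.map_add _ (map_add c), one, Matrix.map_one _ (map_zero c) (map_one c),
        Matrix.one_mul]
    · simp only [tA, Sum.elim_inl, Sum.elim_inr]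
      simp only [e2, Matrix.mul_add, Matrix.add_mul, Matrix.mul_sum, Matrix.sum_mul,
        Matrix.mul_smul, Matrix.smul_mul, Matrix.mul_assoc, c]
    · rfl
  · let φ : MvPolynomial σ Ω →+* Ω := (aeval x : MvPolynomial σ Ω →ₐ[Ω] Ω)
    have hc {m n : Type} (T : Matrix m n Ω) : (T.map c).map φ = T := by
      ext i j
      simp [φ, c]
    have hP : f.map φ * Γ = 0 := by
      rw [← hc Γ, ← Matrix.map_mul]
      ext k j
      exact ht (.inr (.inr (.inl (k, j))))
    have hQ : Φ * g.map φ = 0 := by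
      rw [← hc Φ, ← Matrix.map_mul]
      ext k j
      exact ht (.inr (.inr (.inr (.inl (k, j)))))
    have hB : IsUnit (f.map φ * Δ) := unit_row (Φ := Φ) (by
      rw [Matrix.mul_assoc, eq_sub_of_add_eq' one, Matrix.mul_sub, ← Matrix.mul_assoc, hP,
        Matrix.zero_mul, sub_zero, Matrix.mul_one]; rfl) lf
    have hG : IsUnit (Γ' * g.map φ) := unit_col (Γ := Γ) (by
      rw [← Matrix.mul_assoc, eq_sub_of_add_eq one, Matrix.sub_mul, Matrix.mul_assoc, hQ,
        Matrix.mul_zero, sub_zero, Matrix.one_mul]; rfl) lg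
    have hv' : (fun i => φ (v i)) = fun i => φ (v o) * u i := (cv.line hu).1 (funext fun i => by
      simpa [tB, tau, φ] using ht (.inl i))
    change φ _ ≠ 0
    rw [RingHom.map_det, RingHom.mapMatrix_apply, MM_map]
    refine MM_det _ _ (fun τ hτ => ?_) (map_pow φ _ r ▸ pow_ne_zero r hx)
      (map_pow φ _ b ▸ pow_ne_zero b hx) (by rwa [Matrix.map_mul, hc]) (by rwa [Matrix.map_mul, hc])
    have e1 : (of fun x m => aeval v (QF x m)).map φ = φ (v o) ^ (a - 1) • jac ι u F := by
      ext x' m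
      rw [map_apply, of_apply, Matrix.smul_apply, jac, of_apply, smul_eq_mul, ← F3, ← hv']
      exact DFunLike.congr_fun (comp_aeval v (aeval x)) _
    have e2 : f.map φ *ᵥ (jac ι u F *ᵥ τ) = 0 := by
      funext k
      have := congrFun hτ (e.symm (.inr k))
      simp only [mulVec, dotProduct, map_apply, of_apply, Equiv.apply_symm_apply, Sum.elim_inr] at this
      have e3 (m) : φ ((f * of fun x m => aeval v (QF x m)) k m) =
          φ (v o) ^ (a - 1) * (f.map φ * jac ι u F) k m := by
        rw [← map_apply (f := φ), Matrix.map_mul, e1, Matrix.mul_smul, Matrix.smul_apply, smul_eq_mul]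
      simp only [e3, mul_assoc, ← Finset.mul_sum] at this
      rw [mulVec_mulVec]
      exact (mul_eq_zero.1 this).resolve_left (pow_ne_zero _ hx)
    refine h4 τ ?_ (funext fun k => ?_)
    · have e4 : Φ *ᵥ (jac ι u F *ᵥ τ) = 0 := mulVec_injective_iff_isUnit.2 hB (by
        rw [mulVec_mulVec, Matrix.mul_assoc, ← h1, ← mulVec_mulVec, mulVec_mulVec τ, h3, e2,
          mulVec_zero])
      rw [← h3, h1, Matrix.mul_assoc, ← mulVec_mulVec, ← mulVec_mulVec, e4, mulVec_zero]
    · refine (mul_eq_zero.1 (Eq.trans ?_ (congrFun hτ (e.symm (.inl k))))).resolve_left hω'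
      simp [mulVec, dotProduct, φ, c, Finset.mul_sum, mul_assoc]

omit [DecidableEq C] [DecidableEq A] [DecidableEq S] [Fintype A] [Fintype S] in
/-- (h2): a zero of `t` on the line through `u` where the projector kills `g` is a zero of
`t'`. -/
theorem h2 {k : Type} [Field k] [Algebra Ω k] [Algebra K k] [IsScalarTower K Ω k] [DecidableEq X]
    {ι : I → ν} {o : ν} (cv : Cv ι o) {u : ν → Ω} (hu : u o = 1) (e : I ≃ D ⊕ C)
    (L : Matrix D I Ω) (F : X → MvPolynomial ν K)
    {E : Matrix X X (MvPolynomial ν K)} {y : A → MvPolynomial ν K} {b r : ℕ}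
    (hE : ∀ x x', (E x x').IsHomogeneous b) (hy : ∀ i, (y i).IsHomogeneous r)
    {Δ : Matrix X C Ω} {Φ : Matrix C X Ω} {Γ : Matrix X J Ω} {Γ' : Matrix J X Ω} [DecidableEq C]
    (h1 : E.map (aeval u) = Δ * Φ) (h1' : Φ * Δ = 1)
    (h2 : 1 - E.map (aeval u) = Γ * Γ') {ω : k} {v : ν → k} {z₀ : k} {z : A → k}
    {f : Matrix C X k} {g : Matrix X J k} {s : S → k} (hv : v o ≠ 0) (hτ : tau ι o u v = 0)
    (ht : ∀ q, tA ι o u e L F E y r ω v z₀ z f g s (.inr q) = 0) (lg : LinearIndependent k g.col)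
    (hg : E.map (aeval v) * g = 0) : tB ι o u y Γ Φ v z₀ z f g s = 0 := by
  let c := algebraMap Ω k
  have ev {P : MvPolynomial ν K} {n : ℕ} (h : P.IsHomogeneous n) :
      aeval v P = v o ^ n * c (aeval u P) := by
    obtain ⟨Q, -, h, -⟩ := tay' cv hu h
    rw [h k v, hτ]
    simp [mul_comm, c]
  have e1 : E.map (aeval v) = v o ^ b • (Δ.map c * Φ.map c) := by
    rw [← Matrix.map_mul, ← h1]
    exact Matrix.ext fun x x' => ev (hE x x')
  have hQ : Φ.map c * g = 0 := by
    rw [e1, Matrix.smul_mul, smul_eq_zero_iff_right (pow_ne_zero b hv), Matrix.mul_assoc] at hg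
    rw [← Matrix.one_mul (_ * g), ← Matrix.map_one c (map_zero c) (map_one c), ← h1',
      Matrix.map_mul, Matrix.mul_assoc, hg, Matrix.mul_zero]
  have e2 : g = Γ.map c * (Γ'.map c * g) := by
    rw [← Matrix.mul_assoc, ← Matrix.map_mul, ← h2, h1, Matrix.map_sub _ (map_sub c),
      Matrix.map_mul, Matrix.sub_mul, Matrix.mul_assoc, hQ, Matrix.map_one _ (map_zero c) (map_one c),
      Matrix.mul_zero, sub_zero, Matrix.one_mul]
  have hP : f * Γ.map c = 0 := by
    obtain ⟨G, hG⟩ := (unit_col e2 lg).exists_right_inv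
    have : f * g = 0 := Matrix.ext fun i j => ht (.inr (.inl (i, j)))
    rw [← Matrix.mul_one (f * _), ← hG, ← Matrix.mul_assoc, Matrix.mul_assoc f, ← e2, this,
      Matrix.zero_mul]
  funext p
  rcases p with i | i | p | p | p
  · exact congrFun hτ i
  · refine (mul_eq_zero.1 (Eq.trans ?_ (ht (.inl i)))).resolve_left (pow_ne_zero r hv)
    simp only [tA, tB, Sum.elim_inl, Sum.elim_inr, ev (hy i), c]
    ring
  · exact congrFun (congrFun hP p.1) p.2
  · exact congrFun (congrFun hQ p.1) p.2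
  · exact ht (.inr (.inr (.inr p)))

omit [DecidableEq C] [DecidableEq J] [DecidableEq A] [DecidableEq S] [Fintype A] [Fintype S]
  [Fintype C] [Fintype J] [Fintype I] in
theorem tB_map {R' : Type} [CommRing R'] [Algebra Ω R'] (φ : R →ₐ[Ω] R') (ι : I → ν) (o : ν)
    (u : ν → Ω)
    (y : A → MvPolynomial ν K) (Γ : Matrix X J Ω) (Φ : Matrix C X Ω) (v : ν → R)
    (z₀ : R) (z : A → R) (f : Matrix C X R) (g : Matrix X J R) (s : S → R) (q : Ix I A C J S) :
    φ (tB ι o u y Γ Φ v z₀ z f g s q) =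
      tB ι o u y Γ Φ (φ ∘ v) (φ z₀) (φ ∘ z) (f.map φ) (g.map φ) (φ ∘ s) q := by
  rcases q with i | i | p | p | p <;> simp [tB, tau, mul_apply, -map_aeval]

omit [DecidableEq C] [DecidableEq J] [DecidableEq A] [DecidableEq S] [Fintype A] [Fintype S]
  [Fintype C] [Fintype J] in
theorem tA_map {R' : Type} [CommRing R'] [Algebra Ω R'] [Algebra K R] [Algebra K R']
    [IsScalarTower K Ω R] [IsScalarTower K Ω R'] (φ : R →ₐ[Ω] R') (ι : I → ν) (o : ν) (u : ν → Ω)
    (e : I ≃ D ⊕ C) (L : Matrix D I Ω) (F : X → MvPolynomial ν K)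
    (E : Matrix X X (MvPolynomial ν K)) (y : A → MvPolynomial ν K) (r : ℕ) (ω : R)
    (v : ν → R) (z₀ : R) (z : A → R) (f : Matrix C X R) (g : Matrix X J R) (s : S → R)
    (q : Ix I A C J S) : φ (tA ι o u e L F E y r ω v z₀ z f g s q) =
      tA ι o u e L F E y r (φ ω) (φ ∘ v) (φ z₀) (φ ∘ z) (f.map φ) (g.map φ) (φ ∘ s) q := by
  have h (P : MvPolynomial ν K) : φ (aeval v P) = aeval (φ ∘ v) P :=
    DFunLike.congr_fun (comp_aeval v (φ.restrictScalars K)) P
  rcases q with i | i | p | p | p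
  · simp only [tA, Sum.elim_inl]
    rcases e i with k | k <;> simp [tau, mulVec, dotProduct, h]
  all_goals simp [tA, mul_apply, h]

omit [DecidableEq C] [DecidableEq J] [DecidableEq A] [DecidableEq S] [Fintype A] [Fintype S]
  [Fintype C] [Fintype J] [Fintype I] in
theorem tB_hom {σ W : Type} [AddCommGroup W] (wt : σ → W) (ι : I → ν) (o : ν) (u : ν → Ω)
    (y : A → MvPolynomial ν K) (Γ : Matrix X J Ω) (Φ : Matrix C X Ω)
    {v : ν → MvPolynomial σ Ω} {z₀ : MvPolynomial σ Ω} {z : A → MvPolynomial σ Ω}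
    {f : Matrix C X (MvPolynomial σ Ω)} {g : Matrix X J (MvPolynomial σ Ω)}
    {s : S → MvPolynomial σ Ω} {α α' : W} {β : C → W} {γ : J → W} {ns : S → W}
    (hv : ∀ i, (v i).IsWeightedHomogeneous wt α) (hz : z₀.IsWeightedHomogeneous wt α')
    (hz' : ∀ i, (z i).IsWeightedHomogeneous wt α')
    (hf : ∀ c x, (f c x).IsWeightedHomogeneous wt (β c))
    (hg : ∀ x j, (g x j).IsWeightedHomogeneous wt (γ j))
    (hs : ∀ t, (s t).IsWeightedHomogeneous wt (ns t)) (q : Ix I A C J S) :
    (tB ι o u y Γ Φ v z₀ z f g s q).IsWeightedHomogeneous wt (nB α α' β γ ns q) := by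
  rcases q with i | i | p | p | p
  · exact (hv _).sub ((hv _).C_mul _)
  · exact (hz' i).sub (mul_comm z₀ _ ▸ hz.C_mul _)
  · exact .sum _ _ _ fun x _ => mul_comm (f p.1 x) _ ▸ (hf p.1 x).C_mul _
  · exact .sum _ _ _ fun x _ => (hg x p.2).C_mul _
  · exact hs p

/-- Weights: the image, and the determinant, of a homogeneous matrix. -/
theorem hom_mul {σ W K ι : Type} [CommRing K] [AddCommGroup W] [Fintype ι] [DecidableEq ι]
    (wt : σ → W) {M : Matrix ι ι (MvPolynomial σ K)} {n n' : ι → W}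
    (h : ∀ p q, (M p q).IsWeightedHomogeneous wt (n p - n' q)) :
    (∀ t : ι → MvPolynomial σ K, (∀ q, (t q).IsWeightedHomogeneous wt (n' q)) →
      ∀ p, ((M *ᵥ t) p).IsWeightedHomogeneous wt (n p)) ∧
    M.det.IsWeightedHomogeneous wt (∑ p, n p - ∑ p, n' p) := by
  refine ⟨fun t ht p => .sum _ _ _ fun q _ => by simpa using (h p q).mul (ht q), ?_⟩
  rw [det_apply']
  refine .sum _ _ _ fun τ _ => ?_
  have := (IsWeightedHomogeneous.prod Finset.univ _ _ fun i _ => h (τ i) i).C_mul
    ((Equiv.Perm.sign τ : ℤ) : K)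
  rwa [Finset.sum_sub_distrib, Equiv.sum_comp τ n, map_intCast] at this

end main

/-- A form of weight zero that is one on the zeros of `t'` and divisible by the determinant. -/
theorem delta {K Ω κ ι : Type} [Field K] [Field Ω] [IsAlgClosed Ω] [Algebra K Ω] [Fintype κ]
    [DecidableEq κ] [Fintype ι] [DecidableEq ι] {M : Matrix ι ι (MvPolynomial (XY κ) K)}
    {n n' : ι → κ → ℤ} {t' : ι → MvPolynomial (XY κ) K} (hM : ∀ p q, Hg (n p - n' q) (M p q))
    (ht : ∀ q, Hg (n' q) (t' q))
    (h : ∀ a : XY κ → Ω, Rel a → (∀ q, aeval a (t' q) = 0) → aeval a M.det ≠ 0) :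
    ∃ (lam : MvPolynomial (XY κ) K) (b : ι → MvPolynomial (XY κ) K), Hg 0 (lam * M.det) ∧
      ∀ (D : Type) [CommRing D] (χ : K →+* D) (a : XY κ → D), Rel a →
        eval₂ χ a (lam * M.det) = 1 + ∑ q, eval₂ χ a (b q) * eval₂ χ a (t' q) := by
  obtain ⟨lam, b, h1, h2⟩ := (null K Ω κ Unit ι t' n' ht).1 (fun _ => M.det) _
    (fun _ => (hom_mul wt hM).2) fun a ha ha' => ⟨(), h a ha ha'⟩
  exact ⟨lam (), b, by simpa using (h1 ()).mul (hom_mul wt hM).2, fun D _ χ a ha => by
    simpa [eval₂_mul] using h2 D χ a ha⟩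

end Pool.Agent.MP_855f4c_ag.T.Mtx

end

section

/-! h14a, section 4: a function that isolates the point `u` among the zeros of the linear forms. -/

set_option autoImplicit false

open MvPolynomial Matrix

namespace Pool.Agent.MP_855f4c_ag.T.Theta

open Mtx YJ

variable {K Ω ν I D X R : Type} [CommRing K] [Field Ω] [Algebra K Ω] [Fintype ν] [CommRing R]
  [Algebra Ω R] {ι : I → ν} {o : ν}

omit [Fintype ν] in
/-- The function `θ`. -/
theorem theta [Fintype I] [Fintype D] [Fintype X] (cv : Cv ι o) {u : ν → Ω} (hu : u o = 1)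
    (L : Matrix D I Ω) {F : X → MvPolynomial ν K} {a : ℕ} (hF : ∀ x, (F x).IsHomogeneous a)
    (h0 : ∀ x, aeval u (F x) = 0) (h4 : ∀ τ, jac ι u F *ᵥ τ = 0 → L *ᵥ τ = 0 → τ = 0) :
    ∃ θ : MvPolynomial ν Ω, aeval u θ = 1 ∧
      ∀ (k : Type) [Field k] [Algebra K k] [Algebra Ω k] [IsScalarTower K Ω k] (z : ν → k),
        aeval z θ ≠ 0 → z o ≠ 0 ∧ ((∀ x, aeval z (F x) = 0) →
          L.map (algebraMap Ω k) *ᵥ tau ι o u z = 0 → tau ι o u z = 0) := by
  classical
  choose Q _ F2 F3 using fun x => tay' cv hu (hF x)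
  have hi : LinearMap.ker (fromRows L (jac ι u F)).toLin' = ⊥ := by
    rw [LinearMap.ker_eq_bot']
    intro τ h
    rw [toLin'_apply, fromRows_mulVec] at h
    exact h4 τ (funext fun x => congrFun h (.inr x)) (funext fun x => congrFun h (.inl x))
  obtain ⟨g, hg⟩ := LinearMap.exists_leftInverse_of_injective _ hi
  let B : Matrix I (D ⊕ X) Ω := LinearMap.toMatrix' g
  have hB : B * fromRows L (jac ι u F) = 1 := by
    apply toLin'.injective
    rw [toLin'_mul, toLin'_toMatrix', hg, toLin'_one]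
  let N : Matrix (D ⊕ X) I (MvPolynomial ν Ω) := fromRows (L.map C) (of Q)
  let P : Matrix I I (MvPolynomial ν Ω) := of fun i j => ∑ x, C (B i x) * N x j
  have ev : ∀ (k : Type) [CommRing k] [Algebra Ω k] (z : ν → k),
      aeval z P.det = (B.map (algebraMap Ω k) *
        fromRows (L.map (algebraMap Ω k)) (of fun x m => aeval z (Q x m))).det := by
    intro k _ _ z
    rw [AlgHom.map_det]
    congr 1
    ext i j
    simp [P, N, Matrix.mul_apply]
  refine ⟨MvPolynomial.X o * P.det, ?_, fun k _ _ _ _ z hz => ?_⟩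
  · have e : (of fun x m => aeval u (Q x m)) = jac ι u F := by
      ext x m
      simpa [jac] using F3 x 1 m
    rw [map_mul, ev, e]
    simpa [hu] using congrArg det hB
  · rw [map_mul, ev, aeval_X] at hz
    refine ⟨left_ne_zero_of_mul hz, fun h1 h2 => ?_⟩
    refine eq_zero_of_mulVec_eq_zero (right_ne_zero_of_mul hz) ?_
    have h3 : (of fun x m => aeval z (Q x m)) *ᵥ tau ι o u z = 0 := funext fun x => by
      have := F2 x k z
      rw [h1, h0, map_zero, zero_mul, zero_add] at this
      exact this.symm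
    rw [← mulVec_mulVec, fromRows_mulVec, h2, h3]
    simp

end Pool.Agent.MP_855f4c_ag.T.Theta

end

section

/-! h14a, section 4 (helper82): homogeneous equations and projector of a smooth projective scheme. -/

set_option autoImplicit false
set_option backward.isDefEq.respectTransparency false

open CategoryTheory AlgebraicGeometry MvPolynomial Matrix

namespace Pool.Agent.MP_855f4c_ag.T.Wd

open Ekd Aff

attribute [local instance] MvPolynomial.gradedAlgebra

variable {K ν : Type}

theorem jac_hom [CommRing K] [Fintype ν] {o : ν} {F : MvPolynomial ν K}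
    {f : MvPolynomial {k // k ≠ o} K} {D : ℕ} (hF : F.IsHomogeneous D)
    (h : ∀ v : ν → MvPolynomial {k // k ≠ o} K, (∀ j : {k // k ≠ o}, v j = v o * X j) →
      eval₂ C v F = v o ^ D * eval₂ C X f) {R : Type} [CommRing R] (χ : K →+* R) {v : ν → R}
    {t : {k // k ≠ o} → R} (hv : ∀ j : {k // k ≠ o}, v j = v o * t j) (k : {k // k ≠ o}) :
    eval₂ χ v (pderiv k.1 F) = v o ^ (D - 1) * eval₂ χ t (pderiv k f) := by
  classical
  let w : ν → MvPolynomial {k // k ≠ o} K := fun j => if h : j = o then 1 else X ⟨j, h⟩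
  have w1 : w o = 1 := dif_pos rfl
  have wk : ∀ j : {k // k ≠ o}, w j = X j := fun j => dif_neg j.2
  have e : aeval w F = f := by
    have := h w fun j => by rw [w1, one_mul, wk]
    rwa [w1, one_pow, one_mul, eval₂_eta] at this
  have c := Ekd.chain w (pderiv k) F
  rw [e, Finset.sum_eq_single k.1 (fun j _ hj => ?_) (by simp), wk, pderiv_X_self, mul_one] at c
  · have e2 : v = fun j => v o * eval₂ χ t (w j) := funext fun j => by
      by_cases hj : j = o
      · rw [hj, w1, eval₂_one, mul_one]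
      · rw [wk ⟨j, hj⟩, eval₂_X, ← hv]
    conv_lhs => rw [e2]
    rw [scale χ _ _ hF.pderiv, c, ← coe_eval₂Hom χ t, eval₂_comp_left]
    congr 2
    exact (eval₂Hom_comp_C χ t).symm
  · by_cases ho : j = o
    · rw [ho, w1, Derivation.map_one_eq_zero, mul_zero]
    · rw [wk ⟨j, ho⟩, pderiv_X_of_ne fun h => hj (congrArg Subtype.val h), mul_zero]

end Pool.Agent.MP_855f4c_ag.T.Wd

end

section

/-! h14a, section 4 (helper82): the data of `WDAT` in the conventions of `MTX`. -/

set_option autoImplicit false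
set_option backward.isDefEq.respectTransparency false

open CategoryTheory AlgebraicGeometry MvPolynomial Matrix

namespace Pool.Agent.MP_855f4c_ag.T.Wd

open Ekd Mtx

attribute [local instance] MvPolynomial.gradedAlgebra

/-- Bases adapted to the projector at a point. -/
theorem bases {Ω I : Type} [Field Ω] [Fintype I] {w d : ℕ} {E : Matrix (Fin w) (Fin w) Ω}
    {J : Matrix (Fin w) I Ω} (h1 : E * E = E)
    (h2 : Module.finrank Ω (LinearMap.ker J.mulVecLin) = d) (h3 : E.rank + d = Fintype.card I) :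
    ∃ (c c' : ℕ) (_ : I ≃ Fin d ⊕ Fin c) (L : Matrix (Fin d) I Ω) (Δ : Matrix (Fin w) (Fin c) Ω)
      (Φ : Matrix (Fin c) (Fin w) Ω) (Γ : Matrix (Fin w) (Fin c') Ω) (Γ' : Matrix (Fin c') (Fin w) Ω),
      c + c' = w ∧ E = Δ * Φ ∧ Φ * Δ = 1 ∧ 1 - E = Γ * Γ' ∧ Γ' * Γ = 1 ∧
      ∀ τ, J *ᵥ τ = 0 → L *ᵥ τ = 0 → τ = 0 := by
  obtain ⟨L, hL⟩ := ex_forms h2
  obtain ⟨Δ, Φ, a1, a2⟩ := factor h1 rfl
  obtain ⟨Γ, Γ', b1, b2⟩ := factor (e := 1 - E) (by simp [sub_mul, mul_sub, h1]) rfl
  exact ⟨_, _, Fintype.equivOfCardEq (by simp [← h3, add_comm]), L, Δ, Φ, Γ, Γ',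
    (rank_compl h1).trans (Fintype.card_fin w), a1, a2, b1, b2, hL⟩

variable {K ν I : Type}

/-- (h1): at a zero of the equations with nonzero determinant, `F = 0` and `E g = 0`. -/
theorem h1 {k C J X : Type} [Field k] [Fintype C] [Fintype J] [Fintype X] [DecidableEq J]
    [DecidableEq X] {f : Matrix C X k} {g : Matrix X J k} {μ : Matrix J X k} {E : Matrix X X k}
    {F : X → k} {t : k} (hf : LinearIndependent k f.row) (hμ : (μ * g).det = 1)
    (hc : Fintype.card C + Fintype.card J = Fintype.card X) (e1 : f *ᵥ F = 0) (e2 : f * g = 0)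
    (e3 : f * E * g = 0) (hE : E *ᵥ F = t • F) (hE' : F = 0 → E * E = t • E)
    (hd : (μ * (t • (1 : Matrix X X k) - E) * g).det ≠ 0) :
    F = 0 ∧ E * g = 0 ∧ (μ * (t • (1 : Matrix X X k) - E) * g).det = t ^ Fintype.card J := by
  have hg : LinearIndependent k g.col := mulVec_injective_iff.1 fun a b e =>
    mulVec_injective_iff_isUnit.2 ((isUnit_iff_isUnit_det _).2 (hμ ▸ isUnit_one)) (by
      simp only [← mulVec_mulVec, e])
  have a := zer hf hg hc e1 e2 hE hd
  have b := zer' hf hg hc e2 e3 (hE' a) hd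
  refine ⟨a, b, ?_⟩
  rw [Matrix.mul_assoc, Matrix.sub_mul, b, sub_zero, Matrix.smul_mul, Matrix.one_mul,
    Matrix.mul_smul, det_smul, hμ, mul_one]

end Pool.Agent.MP_855f4c_ag.T.Wd

end

section

/-! h14a row NUM: the intersection number of section 4. -/

set_option autoImplicit false

open MvPolynomial

namespace Pool.Agent.MP_855f4c_ag.T.Num

open G.La Lr Equiv

theorem vdm {R : Type} [CommRing R] {k : ℕ} (x : Fin k → R) :
    ∏ i, ∏ j ∈ Finset.Ioi i, (x j - x i) =
      ∑ s : Perm (Fin k), ((Perm.sign s : ℤ) : R) * ∏ i, x i ^ (s i : ℕ) := by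
  rw [← Matrix.det_vandermonde, ← Matrix.det_transpose, Matrix.det_apply']
  simp only [Matrix.transpose_apply, Matrix.vandermonde_apply]

variable {β : Type} [Fintype β] [DecidableEq β] {k n : β → ℕ}

omit [DecidableEq β] in
theorem prod_X (d : LL k → ℕ) : (∏ l, X l ^ d l : MvPolynomial (LL k) ℤ) =
    monomial (Finsupp.equivFunOnFinite.symm d) 1 := by
  rw [monomial_eq, Finsupp.prod_fintype _ _ (by simp)]
  simp

theorem vdms : (∏ b, ∏ i : Fin (k b), ∏ j ∈ Finset.Ioi i, (X ⟨b, j⟩ - X ⟨b, i⟩) :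
    MvPolynomial (LL k) ℤ) = ∑ s : ∀ b, Perm (Fin (k b)),
      monomial (Finsupp.equivFunOnFinite.symm fun l : LL k => (s l.1 l.2 : ℕ))
        (∏ b, (Perm.sign (s b) : ℤ)) := by
  rw [Finset.prod_congr rfl fun b _ => vdm fun i : Fin (k b) => (X ⟨b, i⟩ : MvPolynomial (LL k) ℤ),
    Finset.prod_univ_sum, Fintype.piFinset_univ]
  refine Finset.sum_congr rfl fun s _ => ?_
  rw [Finset.prod_mul_distrib, ← mul_one (∏ b, (Perm.sign (s b) : ℤ)), ← C_mul_monomial,
    ← prod_X, Fintype.prod_sigma, map_prod]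
  simp only [eq_intCast]

/-- The coefficient on the level of vectors. -/
theorem dys (h : ∀ b, k b ≤ n b + 1) :
    coeff (Finsupp.equivFunOnFinite.symm fun l : LL k => n l.1)
      ((∏ b, ∏ i : Fin (k b), ∏ j ∈ Finset.Ioi i, (X ⟨b, j⟩ - X ⟨b, i⟩)) ^ 2 *
        ∏ l : LL k, X l ^ (n l.1 + 1 - k l.1) : MvPolynomial (LL k) ℤ) =
      (∏ b, (k b).factorial : ℕ) * ∏ b, (Perm.sign (Fin.revPerm : Perm (Fin (k b))) : ℤ) := by
  classical
  rw [vdms, prod_X, sq, Finset.sum_mul_sum, Finset.sum_mul, coeff_sum]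
  have key (s : ∀ b, Perm (Fin (k b))) : coeff (Finsupp.equivFunOnFinite.symm fun l : LL k => n l.1)
      ((∑ t : ∀ b, Perm (Fin (k b)),
        monomial (Finsupp.equivFunOnFinite.symm fun l : LL k => (s l.1 l.2 : ℕ))
          (∏ b, (Perm.sign (s b) : ℤ)) *
        monomial (Finsupp.equivFunOnFinite.symm fun l : LL k => (t l.1 l.2 : ℕ))
          (∏ b, (Perm.sign (t b) : ℤ))) *
        monomial (Finsupp.equivFunOnFinite.symm fun l : LL k => n l.1 + 1 - k l.1) 1) =
      ∏ b, (Perm.sign (Fin.revPerm : Perm (Fin (k b))) : ℤ) := by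
    rw [Finset.sum_mul, coeff_sum, Finset.sum_eq_single fun b => Fin.revPerm * s b]
    · rw [monomial_mul, monomial_mul, coeff_monomial, if_pos, mul_one, ← Finset.prod_mul_distrib]
      · refine Finset.prod_congr rfl fun b _ => ?_
        rw [Perm.sign_mul, Units.val_mul, mul_left_comm, ← Units.val_mul, Int.units_mul_self,
          Units.val_one, mul_one]
      · ext l
        have := h l.1
        have := (s l.1 l.2).2
        simp only [Finsupp.add_apply, Finsupp.equivFunOnFinite_symm_apply_apply, Perm.mul_apply,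
          Fin.revPerm_apply, Fin.val_rev]
        omega
    · intro t _ ht
      rw [monomial_mul, monomial_mul, coeff_monomial, if_neg]
      refine fun e => ht (funext fun b => Equiv.ext fun i => Fin.ext ?_)
      have e' := DFunLike.congr_fun e ⟨b, i⟩
      have := h b
      have := (s b i).2
      simp only [Finsupp.add_apply, Finsupp.equivFunOnFinite_symm_apply_apply] at e'
      simp only [Perm.mul_apply, Fin.revPerm_apply, Fin.val_rev]
      omega
    · simp
  rw [Finset.sum_congr rfl fun s _ => key s, Finset.sum_const, Finset.card_univ, Fintype.card_pi,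
    nsmul_eq_mul]
  simp only [Fintype.card_perm, Fintype.card_fin]

theorem dys_ne (h : ∀ b, k b ≤ n b + 1) :
    coeff (Finsupp.equivFunOnFinite.symm fun l : LL k => n l.1)
      ((∏ b, ∏ i : Fin (k b), ∏ j ∈ Finset.Ioi i, (X ⟨b, j⟩ - X ⟨b, i⟩)) ^ 2 *
        ∏ l : LL k, X l ^ (n l.1 + 1 - k l.1) : MvPolynomial (LL k) ℤ) ≠ 0 := by
  rw [dys h]
  exact mul_ne_zero (Nat.cast_ne_zero.2 (Finset.prod_ne_zero_iff.2 fun _ _ =>
    Nat.factorial_ne_zero _)) (Finset.prod_ne_zero_iff.2 fun _ _ => Units.ne_zero _)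

/-- The weight of the exact equation with index `t`, on the level of vectors. -/
def ws (t : TT k) : LL k → ℤ := Pi.single ⟨t.1, t.2.2⟩ 1 - Pi.single ⟨t.1, t.2.1⟩ 1

section
variable {κ τ : Type} [Fintype κ] [DecidableEq κ] [Fintype τ]

omit [DecidableEq κ] in
theorem lin_smul (N : ℤ) (m : κ → ℤ) : lin (N • m) = C N * lin m := by
  simp only [lin, Finset.mul_sum, Pi.smul_apply, smul_eq_mul, map_mul, mul_assoc]

theorem lin_single (i : κ) : lin (Pi.single i 1) = X i := by
  simp [lin, Pi.single_apply]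

omit [DecidableEq κ] in
/-- The number on the level of lines: `π j` is the vector of the line `j`, `ρ t` the vector in
which the equation `t` is linear; `a`, `a'`, `c` are scaling factors. -/
theorem num (h : ∀ b, k b ≤ n b + 1) (π : κ → LL k)
    (hπ : ∀ l, (Finset.univ.filter fun j => π j = l).card = n l.1) (ρ : τ → LL k)
    (hρ : ∀ l, (Finset.univ.filter fun t => ρ t = l).card = n l.1 + 1 - k l.1)
    (a a' : TT k → ℤ) (c : τ → ℤ) (ha : ∀ t, a t ≠ 0) (ha' : ∀ t, a' t ≠ 0) (hc : ∀ t, c t ≠ 0) :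
    top ((∏ t, lin (a t • (ws t ∘ π))) * (∏ t, lin (a' t • (ws t ∘ π))) *
      ∏ t, lin (c t • ((Pi.single (ρ t) 1 : LL k → ℤ) ∘ π))) ≠ 0 := by
  classical
  have h1 := coef π (Finsupp.equivFunOnFinite.symm fun l : LL k => n l.1) hπ
    ((∏ b, ∏ i : Fin (k b), ∏ j ∈ Finset.Ioi i, (X ⟨b, j⟩ - X ⟨b, i⟩)) ^ 2 *
        ∏ l : LL k, X l ^ (n l.1 + 1 - k l.1) : MvPolynomial (LL k) ℤ)
  have h2 : (∏ b, ∏ i : Fin (k b), ∏ j ∈ Finset.Ioi i, (X ⟨b, j⟩ - X ⟨b, i⟩) :
      MvPolynomial (LL k) ℤ) = ∏ t : TT k, lin (ws t) := by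
    simp only [Fintype.prod_sigma, ws, lin_sub]
    refine Finset.prod_congr rfl fun b _ => Finset.prod_congr rfl fun i _ => ?_
    exact (Finset.prod_coe_sort _ _).symm
  have h3 : (∏ l : LL k, X l ^ (n l.1 + 1 - k l.1) : MvPolynomial (LL k) ℤ) =
      ∏ t, lin (Pi.single (ρ t) 1) := by
    simp only [lin_single]
    rw [← Finset.prod_fiberwise' Finset.univ ρ]
    exact Finset.prod_congr rfl fun l _ => by rw [Finset.prod_const, hρ]
  have h4 := mul_ne_zero (Nat.cast_ne_zero (R := ℤ) |>.2 (Finset.prod_ne_zero_iff.2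
    fun l (_ : l ∈ Finset.univ) => Nat.factorial_ne_zero
      ((Finsupp.equivFunOnFinite.symm fun l : LL k => n l.1) l))) (dys_ne h)
  rw [← h1, h2, h3] at h4
  simp only [map_mul, map_pow, map_prod, sg_lin] at h4
  simp only [lin_smul, Finset.prod_mul_distrib, ← map_prod]
  have : ∀ x y z u v : MvPolynomial κ ℤ, x * u * (y * u) * (z * v) = x * y * z * (u ^ 2 * v) := by
    intros
    ring
  rw [this, ← map_mul, ← map_mul, top, coeff_C_mul, Np.ones]
  exact mul_ne_zero (mul_ne_zero (mul_ne_zero (Finset.prod_ne_zero_iff.2 fun t _ => ha t)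
    (Finset.prod_ne_zero_iff.2 fun t _ => ha' t)) (Finset.prod_ne_zero_iff.2 fun t _ => hc t)) h4

end

/-- The standard layout `KK k n` of the lines and one scaling factor `N`. -/
theorem numK {τ : Type} [Fintype τ] (h : ∀ b, k b ≤ n b + 1) (ρ : τ → LL k)
    (hρ : ∀ l, (Finset.univ.filter fun t => ρ t = l).card = n l.1 + 1 - k l.1)
    (N : ℤ) (hN : N ≠ 0) :
    top ((∏ t, lin (N • fun j : KK k n => ws t j.1)) ^ 2 *
      ∏ t, lin (N • wφ (n := n) (Pi.single (ρ t) 1))) ≠ 0 := by
  have := num h (fun j : KK k n => j.1) card_fib ρ hρ (fun _ => N) (fun _ => N) (fun _ => N)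
    (fun _ => hN) (fun _ => hN) fun _ => hN
  rw [← sq] at this
  have e (t : τ) : wφ (n := n) (Pi.single (ρ t) 1) =
      (Pi.single (ρ t) 1 : LL k → ℤ) ∘ fun j : KK k n => j.1 := by
    funext j
    simp [wφ, Pi.single_apply]
  simp only [e]
  exact this

end Pool.Agent.MP_855f4c_ag.T.Num

end
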