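import Pool.Agent.MP_855f4c_ag.TC.Td
import Pool.Agent.MP_855f4c_ag.AC.Ab

set_option linter.all false

section

/-! h14a row LINR: from torsion coefficients to the non-invariant part of a reflection. -/

set_option autoImplicit false

namespace Pool.Agent.MP_855f4c_ag.T

open E Module Function

namespace Linr

variable {F V V' : Type*} [Field F] [CharZero F] [AddCommGroup V] [Module F V] [AddCommGroup V']
  [Module F V']

lemma fix {σ : End F V} {n : ℕ} (hn : 0 < n) (h : σ ^ n = 1) {w : V}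
    (hw : w ∈ LinearMap.range (σ - 1)) (e : (σ - 1) w = 0) : w = 0 := by
  obtain ⟨y, rfl⟩ := hw
  have e1 : σ ((σ - 1) y) = (σ - 1) y := sub_eq_zero.1 e
  have e2 : ∀ k : ℕ, (σ ^ k) ((σ - 1) y) = (σ - 1) y := fun k => by
    induction k with
    | zero => rfl
    | succ k ih => rw [pow_succ, End.mul_apply, e1, ih]
  have e3 : (∑ k ∈ Finset.range n, σ ^ k) ((σ - 1) y) = 0 := by
    rw [← End.mul_apply, geom_sum_mul, h, sub_self, LinearMap.zero_apply]
  rw [LinearMap.sum_apply, Finset.sum_congr rfl fun k _ => e2 k, Finset.sum_const,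
    Finset.card_range, ← Nat.cast_smul_eq_nsmul F] at e3
  exact (smul_eq_zero.1 e3).resolve_left (Nat.cast_ne_zero.2 hn.ne')

omit [CharZero F] in
lemma surj {σ : End F V} {n : ℕ} (hn : 0 < n) (h : σ ^ n = 1) : Surjective σ := fun y =>
  ⟨(σ ^ (n - 1)) y, by
    rw [← End.mul_apply, ← pow_succ', Nat.sub_add_cancel hn, h, End.one_apply]⟩

lemma perf {σ : End F V} {σ' : End F V'} {n : ℕ} (hn : 0 < n) (h : σ ^ n = 1) (h' : σ' ^ n = 1)
    (B : V →ₗ[F] V' →ₗ[F] F) (hB : ∀ x, (∀ y, B x y = 0) → x = 0)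
    (hσ : ∀ x y, B (σ x) (σ' y) = B x y) {x : V} (hx : x ∈ LinearMap.range (σ - 1))
    (e : ∀ y ∈ LinearMap.range (σ' - 1), B x y = 0) : x = 0 := by
  refine fix hn h hx (hB _ fun y => ?_)
  obtain ⟨y, rfl⟩ := surj hn h' y
  have := e _ ⟨y, rfl⟩
  rw [LinearMap.sub_apply, End.one_apply, map_sub, sub_eq_zero] at this
  rw [LinearMap.sub_apply, End.one_apply, map_sub, LinearMap.sub_apply, hσ, this, sub_self]

omit [CharZero F] in
lemma stab {σ φ : End F V} (h : ∀ v, σ (φ v) = φ (σ v)) :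
    ∀ x ∈ LinearMap.range (σ - 1), φ x ∈ LinearMap.range (σ - 1) := by
  rintro _ ⟨y, rfl⟩
  exact ⟨φ y, by simp [h]⟩

end Linr

/-- `MwV` on a stable subspace. -/
def MwVS {l : ℕ} [Fact l.Prime] {H : Type 1} [AddCommGroup H] [Module ℚ_[l] H] (q : ℕ) (i : ℤ)
    (φ u : Module.End ℚ_[l] H) (S : Submodule ℚ_[l] H) : Prop :=
  ∃ (h1 : ∀ x ∈ S, φ x ∈ S) (h2 : ∀ x ∈ S, u x ∈ S), MwV q i (φ.restrict h1) (u.restrict h2)

open LIN Linr in
theorem linr (l : ℕ) [Fact l.Prime] (Q d T n : ℕ) (E M N : ℕ → Type 1)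
    [∀ i, AddCommGroup (E i)] [∀ i, AddCommGroup (M i)] [∀ i, AddCommGroup (N i)]
    (φE uE σE : ∀ i, E i →+ E i) (φM uM σM : ∀ i, M i →+ M i) (φN uN : ∀ i, N i →+ N i)
    (τ : ∀ i, E i →+ QZ l →+ M i) (ε : ∀ i, E i →+ QZ l →+ N i)
    (ϖ : ∀ i j, j + i = 2 * d → E i →+ M j →+ QZ l) (hQ : 1 < Q) (hn0 : 0 < n)
    (cM : ∀ i, Cof l (M i)) (top : ∀ i, 2 * d < i → ∀ x : M i, x = 0)
    (τφ : ∀ i x a, τ i (φE i x) a = φM i (τ i x a)) (τu : ∀ i x a, τ i (uE i x) a = uM i (τ i x a))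
    (τσ : ∀ i x a, τ i (σE i x) a = σM i (τ i x a))
    (εφ : ∀ i x a, φN i (ε i x a) = Q ^ T • ε i (φE i x) a)
    (εu : ∀ i x a, uN i (ε i x a) = ε i (uE i x) a)
    (bij : ∀ i j h, Function.Bijective (ϖ i j h))
    (ϖφ : ∀ i j h x y, ϖ i j h (φE i x) (φM j y) = Q ^ d • ϖ i j h x y)
    (ϖσ : ∀ i j h x y, ϖ i j h (σE i x) (σM j y) = ϖ i j h x y)
    (σn : ∀ i, Vm l (σM i) ^ n = 1) (σφ : ∀ i y, σM i (φM i y) = φM i (σM i y))
    (σu : ∀ i y, σM i (uM i y) = uM i (σM i y))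
    (kτ : ∀ i, ∃ n : ℕ, ∀ x, τ i x = 0 → l ^ n • x = 0)
    (kε : ∀ i x, ε i x = 0 → τ i (σE i (σE i x - x) - (σE i x - x)) = 0)
    (mw : ∀ i, MwV Q ((i + 2 * T : ℕ) : ℤ) (Vm l (φN i)) (Vm l (uN i))) (i : ℕ) :
    MwVS Q i (Vm l (φM i)) (Vm l (uM i)) (LinearMap.range (Vm l (σM i) - 1)) := by
  have s1 : ∀ a, ∀ x ∈ LinearMap.range (Vm l (σM a) - 1),
      Vm l (φM a) x ∈ LinearMap.range (Vm l (σM a) - 1) :=
    fun a => stab fun v => V.ext fun z => σφ a _
  have s2 : ∀ a, ∀ x ∈ LinearMap.range (Vm l (σM a) - 1),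
      Vm l (uM a) x ∈ LinearMap.range (Vm l (σM a) - 1) :=
    fun a => stab fun v => V.ext fun z => σu a _
  refine ⟨s1 i, s2 i, ?_⟩
  by_cases hi : 2 * d < i
  · exact triv (fun v => Subtype.ext (V.ext fun x => top i hi _)) _ _ _ _
  obtain ⟨j, hj⟩ : ∃ j, j + i = 2 * d := ⟨2 * d - i, by omega⟩
  choose k hk using kτ
  have key : ∀ a b (h : b + a = 2 * d), ∃ (S : Dual ℚ_[l] (V l (M b)) ≃ₗ[ℚ_[l]] V l (M a))
      (J : V l (M a) →ₗ[ℚ_[l]] V l (N a)),
      (∀ v, J v = 0 → (Vm l (σM a) - 1) ((Vm l (σM a) - 1) v) = 0) ∧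
      (∀ v, Vm l (φN a) (J v) = (Q : ℚ_[l]) ^ T • J (Vm l (φM a) v)) ∧
      (∀ v, Vm l (uN a) (J v) = J (Vm l (uM a) v)) ∧
      (∀ x y, S.symm (Vm l (φM a) x) (Vm l (φM b) y) = (Q : ℚ_[l]) ^ d * S.symm x y) ∧
      ∀ x y, S.symm (Vm l (σM a) x) (Vm l (σM b) y) = S.symm x y := by
    intro a b h
    have := (cM a).finiteDimensional
    have := (cM b).finiteDimensional
    obtain ⟨t, t1, t2⟩ := half (cM b) (ϖ a b h) (bij a b h) (τ a) (hk a)
    obtain ⟨t', t1', -⟩ := half (cM a) (ϖ b a (by omega)) (bij b a _) (τ b) (hk b)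
    obtain ⟨e, e2⟩ : ∃ e : Dual ℚ_[l] (V l (M b)) →ₗ[ℚ_[l]] V l (N a),
        ∀ x, e (kap l (M b) (ϖ a b h x)) = tv l (N a) (ε a x) := by
      let ω := AddEquiv.ofBijective (ϖ a b h) (bij a b h)
      obtain ⟨e, he⟩ := lift (cM b) ((tv l (N a)).comp ((ε a).comp ω.symm.toAddMonoidHom))
        (tv_lin _)
      exact ⟨e, fun x => (he _).trans (congrArg (fun y => tv l (N a) (ε a y))
        (ω.symm_apply_apply x))⟩
    have d1 := LinearMap.finrank_le_finrank_of_injective t1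
    have d2 := LinearMap.finrank_le_finrank_of_injective t1'
    rw [Subspace.dual_finrank_eq] at d2
    have d3 : finrank ℚ_[l] (Dual ℚ_[l] (V l (M b))) = finrank ℚ_[l] (V l (M a)) :=
      le_antisymm d1 (d2.trans Subspace.dual_finrank_eq.ge)
    let S := LinearEquiv.ofBijective t
      ⟨t1, (LinearMap.injective_iff_surjective_of_finrank_eq_finrank d3).1 t1⟩
    have s1 : ∀ x, S.symm (tv l _ (τ a x)) = kap l _ (ϖ a b h x) := fun x =>
      S.symm_apply_eq.2 (t2 x).symm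
    have ext : ∀ {Y : Type 1} [AddCommGroup Y] [Module ℚ_[l] Y] (p q : V l (M a) →ₗ[ℚ_[l]] Y),
        (∀ x, p (tv l _ (τ a x)) = q (tv l _ (τ a x))) → ∀ v, p v = q v := by
      intro Y _ _ p q H v
      obtain ⟨lam, rfl⟩ := S.surjective v
      refine LinearMap.congr_fun (kap_ext (cM b) (a := p ∘ₗ t) (b := q ∘ₗ t) fun f => ?_) lam
      obtain ⟨x, rfl⟩ := (bij a b h).2 f
      rw [LinearMap.comp_apply, LinearMap.comp_apply, t2, H]
    have v1 : ∀ x, Vm l (φM a) (tv l _ (τ a x)) = tv l _ (τ a (φE a x)) := fun x =>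
      V.ext fun z => (τφ a x _).symm
    have v2 : ∀ x, Vm l (uM a) (tv l _ (τ a x)) = tv l _ (τ a (uE a x)) := fun x =>
      V.ext fun z => (τu a x _).symm
    have v3 : ∀ x, Vm l (σM a) (tv l _ (τ a x)) = tv l _ (τ a (σE a x)) := fun x =>
      V.ext fun z => (τσ a x _).symm
    have v4 : ∀ x, (Vm l (σM a) - 1) (tv l _ (τ a x)) = tv l _ (τ a (σE a x - x)) := fun x => by
      rw [LinearMap.sub_apply, v3, map_sub, map_sub, End.one_apply]
    refine ⟨S, e ∘ₗ S.symm.toLinearMap, fun v hv => ?_,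
      ext (Vm l (φN a) ∘ₗ e ∘ₗ S.symm.toLinearMap)
        ((Q : ℚ_[l]) ^ T • ((e ∘ₗ S.symm.toLinearMap) ∘ₗ Vm l (φM a))) fun x => ?_,
      ext (Vm l (uN a) ∘ₗ e ∘ₗ S.symm.toLinearMap)
        ((e ∘ₗ S.symm.toLinearMap) ∘ₗ Vm l (uM a)) fun x => ?_, fun x y => ?_, fun x y => ?_⟩
    · obtain ⟨m, f, hf⟩ := (cM b).kap_surj (S.symm v)
      obtain ⟨x, rfl⟩ := (bij a b h).2 f
      have h1 : ε a x = 0 := tv_zero (by
        rw [← e2, hf, map_smul, show e (S.symm v) = 0 from hv, smul_zero])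
      have h2 : tv l _ (τ a x) = (l : ℚ_[l]) ^ m • v :=
        S.symm.injective (by rw [s1, hf, map_smul])
      have h3 := v4 (σE a x - x)
      rw [kε a x h1, map_zero, ← v4, h2, map_smul, map_smul] at h3
      exact (smul_eq_zero.1 h3).resolve_left (pow_ne_zero m l_ne)
    · change Vm l (φN a) (e (S.symm _)) = (Q : ℚ_[l]) ^ T • e (S.symm (Vm l (φM a) _))
      rw [v1, s1, s1, e2, e2, ← Nat.cast_pow, Nat.cast_smul_eq_nsmul, ← map_nsmul]
      exact V.ext fun z => εφ a x _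
    · change Vm l (uN a) (e (S.symm _)) = e (S.symm (Vm l (uM a) _))
      rw [v2, s1, s1, e2, e2]
      exact V.ext fun z => εu a x _
    · refine LinearMap.congr_fun (ext ((Vm l (φM b)).dualMap ∘ₗ S.symm.toLinearMap ∘ₗ Vm l (φM a))
        ((Q : ℚ_[l]) ^ d • S.symm.toLinearMap) (fun x => ?_) x) y
      change (Vm l (φM b)).dualMap (S.symm (Vm l (φM a) _)) = (Q : ℚ_[l]) ^ d • S.symm _
      rw [v1, s1, s1, ← Nat.cast_pow, Nat.cast_smul_eq_nsmul, ← map_nsmul]
      exact congrArg (kap l (M b))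
        (AddMonoidHom.ext (ϖφ a b h x) : (ϖ a b h (φE a x)).comp (φM b) = Q ^ d • ϖ a b h x)
    · refine LinearMap.congr_fun (ext ((Vm l (σM b)).dualMap ∘ₗ S.symm.toLinearMap ∘ₗ Vm l (σM a))
        S.symm.toLinearMap (fun x => ?_) x) y
      change (Vm l (σM b)).dualMap (S.symm (Vm l (σM a) _)) = S.symm _
      rw [v3, s1, s1]
      exact congrArg (kap l (M b))
        (AddMonoidHom.ext (ϖσ a b h x) : (ϖ a b h (σE a x)).comp (σM b) = ϖ a b h x)
  have := (cM i).finiteDimensional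
  have := (cM j).finiteDimensional
  obtain ⟨S, J, j1, j2, j3, j4, j5⟩ := key i j hj
  obtain ⟨-, J', k1, k2, k3, -⟩ := key j i (by omega)
  have inj : ∀ (a : ℕ) {Y : Type 1} [AddCommGroup Y] [Module ℚ_[l] Y] (J : V l (M a) →ₗ[ℚ_[l]] Y),
      (∀ v, J v = 0 → (Vm l (σM a) - 1) ((Vm l (σM a) - 1) v) = 0) →
      Injective (J ∘ₗ (LinearMap.range (Vm l (σM a) - 1)).subtype) := fun a Y _ _ J h =>
    (injective_iff_map_eq_zero _).2 fun v hv => Subtype.ext
      (fix hn0 (σn a) v.2 (fix hn0 (σn a) ⟨_, rfl⟩ (h _ hv)))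
  have b1 : ∀ x, (∀ y, S.symm x y = 0) → x = 0 := fun x hx =>
    S.symm.map_eq_zero_iff.1 (LinearMap.ext hx)
  have b2 : ∀ y, (∀ x, S.symm x y = 0) → y = 0 := fun y hy =>
    (Module.forall_dual_apply_eq_zero_iff ℚ_[l] y).1 fun f => by
      obtain ⟨x, rfl⟩ := S.symm.surjective f
      exact hy x
  exact linv (d := d) (i' := j) hQ (by omega) _ _ ((Vm l (φM j)).restrict (s1 j))
    ((Vm l (uM j)).restrict (s2 j)) _ _ _ _ _ _ (inj i J j1) (inj j J' k1) (fun v => j2 v)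
    (fun v => j3 v) (fun v => k2 v) (fun v => k3 v)
    (S.symm.toLinearMap.compl₁₂ (Submodule.subtype _) (Submodule.subtype _))
    (fun x hx => Subtype.ext (perf hn0 (σn i) (σn j) S.symm.toLinearMap b1 j5 x.2
      fun y hy => hx ⟨y, hy⟩))
    (fun y hy => Subtype.ext (perf hn0 (σn j) (σn i) S.symm.toLinearMap.flip b2
      (fun a b => j5 b a) y.2 fun x hx => hy ⟨x, hx⟩))
    (fun x y => j4 x y) (by exact_mod_cast mw i) (by exact_mod_cast mw j)

end Pool.Agent.MP_855f4c_ag.T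

end

section

/-! h14a row SUM: images, products and sums of mw pure objects. -/

set_option autoImplicit false

open Polynomial Function

namespace Pool.Agent.MP_855f4c_ag.T.Sum

open E Mwv

variable {A W B : Type 1} [AddCommGroup A] [Module ℚ A] [AddCommGroup W] [Module ℚ W]
  [AddCommGroup B] [Module ℚ B]

/-- A finite filtration with pure graded pieces. -/
structure Wf (q : ℕ) (i : ℤ) (φ : Module.End ℚ A) (M : ℤ → Submodule ℚ A) : Prop where
  mono : Monotone M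
  bot : ∃ a, M a = ⊥
  top : ∃ a, M a = ⊤
  pu : ∀ a, (∀ v ∈ M a, φ v ∈ M a) ∧ ∃ P : ℚ[X], P ≠ 0 ∧
    (∀ z : ℂ, aeval z P = 0 → ‖z‖ ^ 2 = (q : ℝ) ^ (a + i)) ∧ ∀ v ∈ M a, aeval φ P v ∈ M (a - 1)

/-- The monodromy conditions. -/
structure Mf (N : Module.End ℚ A) (M : ℤ → Submodule ℚ A) : Prop where
  sh : ∀ a, ∀ v ∈ M a, N v ∈ M (a - 2)
  iso : ∀ r : ℕ, (∀ v ∈ M r, (N ^ r) v ∈ M (-r - 1) → v ∈ M (r - 1)) ∧
    ∀ w ∈ M (-r), ∃ v ∈ M r, w - (N ^ r) v ∈ M (-r - 1)

lemma mw_iff {q : ℕ} {i : ℤ} {φ u : Module.End ℚ A} :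
    Mw q i φ u ↔ ∃ m > 0, ∃ M, Wf q i φ M ∧ Mf (u ^ m - 1) M :=
  ⟨fun ⟨m, hm, M, a1, a2, a3, a4, a5, a6⟩ => ⟨m, hm, M, ⟨a1, a2, a3, a6⟩, ⟨a4, a5⟩⟩,
    fun ⟨m, hm, M, a, b⟩ => ⟨m, hm, M, a.mono, a.bot, a.top, b.sh, b.iso, a.pu⟩⟩

lemma ipow {f : A →ₗ[ℚ] B} {φ : Module.End ℚ A} {ψ : Module.End ℚ B} (h : ∀ v, f (φ v) = ψ (f v))
    (n : ℕ) : ∀ v, f ((φ ^ n) v) = (ψ ^ n) (f v) := by
  induction n with
  | zero => exact fun _ => rfl
  | succ n ih => exact fun v => by rw [pow_succ, pow_succ, Module.End.mul_apply, ih, h]; rfl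

lemma iaev {f : A →ₗ[ℚ] B} {φ : Module.End ℚ A} {ψ : Module.End ℚ B} (h : ∀ v, f (φ v) = ψ (f v))
    (P : ℚ[X]) (v : A) : f (aeval φ P v) = aeval ψ P (f v) := by
  induction P using Polynomial.induction_on' with
  | add P Q hP hQ => simp only [map_add, LinearMap.add_apply, hP, hQ]
  | monomial n a =>
    rw [aeval_monomial, aeval_monomial, Module.End.mul_apply, Module.End.mul_apply,
      Module.algebraMap_end_apply, Module.algebraMap_end_apply, map_smul, ipow h]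

lemma isub {f : A →ₗ[ℚ] B} {u : Module.End ℚ A} {w : Module.End ℚ B} (h : ∀ v, f (u v) = w (f v))
    (m : ℕ) (v : A) : f ((u ^ m - 1) v) = (w ^ m - 1) (f v) := by
  rw [LinearMap.sub_apply, map_sub, ipow h]; rfl

section
variable {q : ℕ} {i : ℤ} {φ : Module.End ℚ A} {M : ℤ → Submodule ℚ A}

lemma Wf.low (hq : 1 < q) (h : Wf q i φ M) (a : ℤ) : ∀ v ∈ M a, ∃ R : ℚ[X],
    (∀ z : ℂ, aeval z R = 0 → ‖z‖ ^ 2 ≤ (q : ℝ) ^ (a + i)) ∧ aeval φ R v = 0 := by
  obtain ⟨a0, h0⟩ := h.bot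
  have hq' : (1 : ℝ) < q := Nat.one_lt_cast.2 hq
  suffices s : ∀ (n : ℕ) (a : ℤ), a ≤ a0 + n → ∀ v ∈ M a, ∃ R : ℚ[X],
      (∀ z : ℂ, aeval z R = 0 → ‖z‖ ^ 2 ≤ (q : ℝ) ^ (a + i)) ∧ aeval φ R v = 0 from
    s (a - a0).toNat a (by omega)
  intro n
  induction n with
  | zero =>
    intro a ha v hv
    have : v ∈ M a0 := h.mono (by simpa using ha) hv
    rw [h0, Submodule.mem_bot] at this
    exact ⟨1, fun z hz => by simp at hz, by simp [this]⟩
  | succ n ih =>
    intro a ha v hv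
    obtain ⟨P, -, p1, p2⟩ := (h.pu a).2
    obtain ⟨R, r1, r2⟩ := ih (a - 1) (by push_cast at ha; omega) _ (p2 v hv)
    refine ⟨R * P, fun z hz => ?_, by rw [map_mul]; exact r2⟩
    rw [map_mul] at hz
    exact (mul_eq_zero.1 hz).elim
      (fun h => (r1 z h).trans (zpow_le_zpow_right₀ hq'.le (by omega))) fun h => (p1 z h).le

/-- Strictness. -/
lemma Wf.strict (hq : 1 < q) (h : Wf q i φ M) {f : A →ₗ[ℚ] B} {ψ : Module.End ℚ B}
    (hf : ∀ v, f (φ v) = ψ (f v)) (a : ℤ) {R : ℚ[X]}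
    (r1 : ∀ z : ℂ, aeval z R = 0 → ‖z‖ ^ 2 ≤ (q : ℝ) ^ (a + i)) (v : A)
    (r2 : aeval ψ R (f v) = 0) : ∃ v' ∈ M a, f v' = f v := by
  obtain ⟨a1, h1⟩ := h.top
  have hq' : (1 : ℝ) < q := Nat.one_lt_cast.2 hq
  suffices s : ∀ (n : ℕ), ∀ x ∈ M (a + n), f x = f v → ∃ v' ∈ M a, f v' = f v from
    s (a1 - a).toNat v (h.mono (show a1 ≤ _ by omega) (h1 ▸ Submodule.mem_top)) rfl
  intro n
  induction n with
  | zero => exact fun x hx e => ⟨x, by simpa using hx, e⟩
  | succ n ih =>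
    intro x hx e
    obtain ⟨P, -, p1, p2⟩ := (h.pu (a + (n + 1 : ℕ))).2
    obtain ⟨s, t, c⟩ : IsCoprime P R :=
      (isCoprime_iff_aeval_ne_zero_of_isAlgClosed ℚ ℂ P R).2 fun z => by
        by_contra hz
        rw [not_or, not_not, not_not] at hz
        have := (p1 z hz.1).ge.trans (r1 z hz.2)
        rw [zpow_le_zpow_iff_right₀ hq'] at this
        omega
    have e2 := congrArg (fun T : ℚ[X] => aeval ψ T (f v)) c
    simp only [map_add, map_mul, map_one, LinearMap.add_apply, Module.End.mul_apply, r2,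
      map_zero, add_zero, Module.End.one_apply] at e2
    have e3 : a + ((n + 1 : ℕ) : ℤ) - 1 = a + n := by omega
    exact ih _ (stab (h.pu _).1 s _ (e3 ▸ p2 _ hx)) (by rw [iaev hf, iaev hf, e, e2])

lemma Wf.map (hq : 1 < q) (h : Wf q i φ M) {ψ : Module.End ℚ B} {M' : ℤ → Submodule ℚ B}
    (h' : Wf q i ψ M') {f : A →ₗ[ℚ] B} (hf : ∀ v, f (φ v) = ψ (f v)) (a : ℤ) :
    (∀ v ∈ M a, f v ∈ M' a) ∧ ∀ v, f v ∈ M' a → ∃ v' ∈ M a, f v' = f v := by
  refine ⟨fun v hv => ?_, fun v hv => ?_⟩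
  · obtain ⟨R, r1, r2⟩ := h.low hq a v hv
    obtain ⟨w, hw, e⟩ := h'.strict hq (f := LinearMap.id) (ψ := ψ) (fun _ => rfl) a r1 (f v)
      (by rw [LinearMap.id_apply, ← iaev hf, r2, map_zero])
    exact (show w = f v from e) ▸ hw
  · obtain ⟨R, r1, r2⟩ := h'.low hq a _ hv
    exact h.strict hq hf a r1 v r2

lemma Mf.chg {N N' : Module.End ℚ A} (hm : Monotone M) (h : Mf N M) {c : ℚ} (hc : c ≠ 0)
    (hN : ∀ a, ∀ v ∈ M a, N' v - c • N v ∈ M (a - 3)) : Mf N' M := by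
  have s1 : ∀ a, ∀ v ∈ M a, N' v ∈ M (a - 2) := fun a v hv => by
    simpa using (M (a - 2)).add_mem (hm (by omega) (hN a v hv)) ((M _).smul_mem c (h.sh a v hv))
  have s2 : ∀ (r : ℕ) (a : ℤ), ∀ v ∈ M a, (N ^ r) v ∈ M (a - 2 * r) ∧
      (N' ^ r) v - c ^ r • (N ^ r) v ∈ M (a - 2 * r - 1) := fun r a v hv => by
    induction r with
    | zero => simpa using hv
    | succ r ih =>
      have e1 : a - 2 * ((r + 1 : ℕ) : ℤ) = a - 2 * r - 2 := by omega
      have e2 : (N' ^ (r + 1)) v - c ^ (r + 1) • (N ^ (r + 1)) v =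
          N' ((N' ^ r) v - c ^ r • (N ^ r) v) + c ^ r • (N' ((N ^ r) v) - c • N ((N ^ r) v)) := by
        rw [pow_succ' N', pow_succ' N, pow_succ c, Module.End.mul_apply, Module.End.mul_apply,
          map_sub, map_smul, smul_sub, mul_smul]
        abel
      rw [e2, e1, pow_succ', Module.End.mul_apply]
      exact ⟨h.sh _ _ ih.1, (M _).add_mem (hm (by omega) (s1 _ _ ih.2))
        ((M _).smul_mem _ (hm (by omega) (hN _ _ ih.1)))⟩
  refine ⟨s1, fun r => ⟨fun v hv h1 => (h.iso r).1 v hv ?_, fun w hw => ?_⟩⟩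
  · have := (M (-r - 1)).sub_mem h1 (hm (by omega) (s2 r r v hv).2)
    rw [sub_sub_cancel] at this
    exact (Submodule.smul_mem_iff _ (pow_ne_zero r hc)).1 this
  · obtain ⟨v, hv, h1⟩ := (h.iso r).2 w hw
    have h2 := (M r).smul_mem (c ^ r)⁻¹ hv
    refine ⟨_, h2, ?_⟩
    have := (M (-r - 1)).sub_mem h1 (hm (by omega) (s2 r r _ h2).2)
    rwa [map_smul (N ^ r), smul_inv_smul₀ (pow_ne_zero r hc), sub_sub_sub_cancel_right] at this

lemma Mf.pow {u : Module.End ℚ A} (hm : Monotone M) (h : Mf (u - 1) M) {k : ℕ} (hk : 0 < k) :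
    Mf (u ^ k - 1) M := by
  refine h.chg hm (c := k) (by positivity) fun a v hv => ?_
  clear hk
  induction k with
  | zero => simp
  | succ k ih =>
    have h1 := h.sh a v hv
    have h2 : (u ^ k - 1) v ∈ M (a - 2) := by
      simpa using (M (a - 2)).add_mem (hm (by omega) ih) ((M _).smul_mem (k : ℚ) h1)
    have e : (u ^ (k + 1) - 1) v - ((k + 1 : ℕ) : ℚ) • (u - 1) v =
        (u - 1) ((u ^ k - 1) v) + ((u ^ k - 1) v - (k : ℚ) • (u - 1) v) := by
      simp only [pow_succ', Module.End.mul_apply, LinearMap.sub_apply, Module.End.one_apply,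
        map_sub, Nat.cast_succ, add_smul, one_smul]
      abel
    rw [e]
    exact (M _).add_mem (hm (by omega) (h.sh _ _ h2)) ih

lemma Mf.mul {u : Module.End ℚ A} (hm : Monotone M) {m n : ℕ} (h : Mf (u ^ m - 1) M) (hn : 0 < n)
    (hd : m ∣ n) : Mf (u ^ n - 1) M := by
  obtain ⟨k, rfl⟩ := hd
  rw [pow_mul]
  exact h.pow hm (Nat.pos_of_mul_pos_left hn)

end

/-- The image of a map of pure objects is pure. -/
theorem mid {q : ℕ} (hq : 1 < q) {i : ℤ} {φA uA : Module.End ℚ A} {φ u : Module.End ℚ W}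
    {φB uB : Module.End ℚ B} (α : A →ₗ[ℚ] W) (β : W →ₗ[ℚ] B) (hα : Surjective α)
    (hβ : Injective β) (a1 : ∀ v, α (φA v) = φ (α v)) (a2 : ∀ v, α (uA v) = u (α v))
    (b1 : ∀ v, β (φ v) = φB (β v)) (b2 : ∀ v, β (u v) = uB (β v)) (hA : Mw q i φA uA)
    (hB : Mw q i φB uB) : Mw q i φ u := by
  obtain ⟨m, hm, M, w1, m1⟩ := mw_iff.1 hA
  obtain ⟨n, hn, M', w2, m2⟩ := mw_iff.1 hB
  have hk := Nat.mul_pos hm hn
  replace m1 := m1.mul w1.mono hk (dvd_mul_right m n)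
  replace m2 := m2.mul w2.mono hk (dvd_mul_left n m)
  have st := w1.map hq w2 (f := β ∘ₗ α) fun v => by simp [a1, b1]
  refine mw_iff.2 ⟨m * n, hk, fun a => (M a).map α, ⟨fun _ _ h => Submodule.map_mono (w1.mono h),
    w1.bot.imp fun a h => by rw [h, Submodule.map_bot],
    w1.top.imp fun a h => by rw [h, Submodule.map_top, LinearMap.range_eq_top.2 hα], fun a => ?_⟩,
    ?_, fun r => ⟨?_, ?_⟩⟩
  · obtain ⟨s, P, p0, p1, p2⟩ := w1.pu a
    refine ⟨?_, P, p0, p1, ?_⟩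
    · rintro _ ⟨v, hv, rfl⟩
      exact ⟨_, s v hv, a1 v⟩
    · rintro _ ⟨v, hv, rfl⟩
      exact ⟨_, p2 v hv, iaev a1 P v⟩
  · rintro a _ ⟨v, hv, rfl⟩
    exact ⟨_, m1.sh a v hv, isub a2 _ v⟩
  · rintro _ ⟨v, hv, rfl⟩ ⟨x, hx, e⟩
    have h1 := (st _).1 x hx
    rw [LinearMap.comp_apply, e, ipow (isub b2 _)] at h1
    obtain ⟨v', h2, h3⟩ := (st _).2 v ((m2.iso r).1 _ ((st _).1 v hv) h1)
    exact ⟨v', h2, hβ h3⟩
  · rintro _ ⟨w, hw, rfl⟩
    obtain ⟨v, hv, h⟩ := (m1.iso r).2 w hw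
    exact ⟨_, ⟨v, hv, rfl⟩, _, h, by rw [map_sub, ipow (isub a2 _)]⟩

/-- Finite products. -/
theorem pi {q : ℕ} {i : ℤ} {ι : Type} [Finite ι] {V : ι → Type 1} [∀ s, AddCommGroup (V s)]
    [∀ s, Module ℚ (V s)] {φ u : ∀ s, Module.End ℚ (V s)} {Φ U : Module.End ℚ (∀ s, V s)}
    (h1 : ∀ v s, Φ v s = φ s (v s)) (h2 : ∀ v s, U v s = u s (v s))
    (h : ∀ s, Mw q i (φ s) (u s)) : Mw q i Φ U := by
  classical
  have := Fintype.ofFinite ι
  choose m hm M w1 m1 using fun s => mw_iff.1 (h s)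
  have hk : 0 < ∏ s, m s := Finset.prod_pos fun s _ => hm s
  replace m1 := fun s => (m1 s).mul (w1 s).mono hk (Finset.dvd_prod_of_mem m (Finset.mem_univ s))
  have e1 := fun s => isub (f := LinearMap.proj s) (u := U) (w := u s) (fun v => h2 v s) (∏ s, m s)
  have e2 := fun s r => ipow (e1 s) r
  simp only [LinearMap.proj_apply] at e1 e2
  refine mw_iff.2 ⟨_, hk, fun a => Submodule.pi Set.univ fun s => M s a,
    ⟨fun _ _ h v hv s hs => (w1 s).mono h (hv s hs), ?_, ?_, fun a => ⟨fun v hv s hs => ?_, ?_⟩⟩,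
    fun a v hv s hs => ?_, fun r => ⟨fun v hv h s hs => ?_, fun w hw => ?_⟩⟩
  · choose b hb using fun s => (w1 s).bot
    obtain ⟨c, hc⟩ := Finite.exists_ge b
    refine ⟨c, eq_bot_iff.2 fun v hv => funext fun s => ?_⟩
    simpa [hb] using (w1 s).mono (hc s) (hv s trivial)
  · choose b hb using fun s => (w1 s).top
    obtain ⟨c, hc⟩ := Finite.exists_le b
    exact ⟨c, eq_top_iff.2 fun v _ s _ => (w1 s).mono (hc s) (hb s ▸ Submodule.mem_top)⟩
  · exact h1 v s ▸ ((w1 s).pu a).1 _ (hv s hs)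
  · choose P p0 p1 p2 using fun s => ((w1 s).pu a).2
    refine ⟨∏ s, P s, Finset.prod_ne_zero_iff.2 fun s _ => p0 s, fun z hz => ?_, fun v hv s hs => ?_⟩
    · rw [map_prod, Finset.prod_eq_zero_iff] at hz
      obtain ⟨s, -, hs⟩ := hz
      exact p1 s z hs
    · have := iaev (f := LinearMap.proj s) (φ := Φ) (ψ := φ s) (fun v => h1 v s) (∏ s, P s) v
      simp only [LinearMap.proj_apply] at this
      rw [this, ← Finset.prod_erase_mul _ _ (Finset.mem_univ s), map_mul, Module.End.mul_apply]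
      exact stab ((w1 s).pu _).1 _ _ (p2 s _ (hv s hs))
  · exact e1 s v ▸ (m1 s).sh a _ (hv s hs)
  · exact ((m1 s).iso r).1 _ (hv s hs) (e2 s r v ▸ h s hs)
  · choose v h1 h2 using fun s => ((m1 s).iso r).2 _ (hw s trivial)
    exact ⟨v, fun s _ => h1 s, fun s _ => by rw [Pi.sub_apply, e2]; exact h2 s⟩

/-- `Mw` for a stable subspace. -/
def MwOn (q : ℕ) (i : ℤ) (φ u : Module.End ℚ A) (S : Submodule ℚ A) : Prop :=
  ∃ (h1 : ∀ v ∈ S, φ v ∈ S) (h2 : ∀ v ∈ S, u v ∈ S), Mw q i (φ.restrict h1) (u.restrict h2)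

lemma MwOn.top {q : ℕ} {i : ℤ} {φ u : Module.End ℚ A} (h : MwOn q i φ u ⊤) (hq : 1 < q) :
    Mw q i φ u := by
  obtain ⟨h1, h2, h⟩ := h
  exact mid hq (⊤ : Submodule ℚ A).subtype (Submodule.topEquiv (R := ℚ) (M := A)).symm.toLinearMap
    (fun v => ⟨⟨v, trivial⟩, rfl⟩) Submodule.topEquiv.symm.injective (fun _ => rfl) (fun _ => rfl)
    (fun _ => rfl) (fun _ => rfl) h h

/-- A subspace that is spanned by pure subspaces and embeds into their product is pure. -/
theorem fam {q : ℕ} (hq : 1 < q) {i : ℤ} {φ u : Module.End ℚ A} {ι : Type} [Finite ι]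
    (S : ι → Submodule ℚ A) (p : ι → Module.End ℚ A) (T : Submodule ℚ A) (hT : T = ⨆ s, S s)
    (p0 : ∀ s, ∀ v ∈ T, p s v ∈ S s) (p1 : ∀ s v, p s (φ v) = φ (p s v))
    (p2 : ∀ s v, p s (u v) = u (p s v)) (p3 : ∀ v ∈ T, (∀ s, p s v = 0) → v = 0)
    (h : ∀ s, MwOn q i φ u (S s)) : MwOn q i φ u T := by
  classical
  have := Fintype.ofFinite ι
  choose h1 h2 h using h
  have hle (s) : S s ≤ T := hT ▸ le_iSup S s
  have st : ∀ f : Module.End ℚ A, (∀ s, ∀ v ∈ S s, f v ∈ S s) → ∀ v ∈ T, f v ∈ T := fun f hf =>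
    show T ≤ T.comap f from hT.le.trans (iSup_le fun s v hv => hle s (hf s v hv))
  have hP := pi (Φ := LinearMap.pi fun s => φ.restrict (h1 s) ∘ₗ LinearMap.proj s)
    (U := LinearMap.pi fun s => u.restrict (h2 s) ∘ₗ LinearMap.proj s) (fun _ _ => rfl)
    (fun _ _ => rfl) h
  let α : (∀ s, S s) →ₗ[ℚ] T := ∑ s, Submodule.inclusion (hle s) ∘ₗ LinearMap.proj s
  have hα (x) : (α x : A) = ∑ s, (x s : A) := by simp [α]
  refine ⟨st φ h1, st u h2, mid hq α (LinearMap.pi fun s => (p s).restrict (p0 s)) (fun v => ?_)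
    ((injective_iff_map_eq_zero _).2 fun v hv => Subtype.ext (p3 v v.2 fun s =>
      congrArg Subtype.val (congrFun hv s)))
    (fun x => Subtype.ext (by simp [hα])) (fun x => Subtype.ext (by simp [hα]))
    (fun x => ?_) (fun x => ?_) hP hP⟩
  rotate_left
  · exact _root_.funext fun s => Subtype.ext (p1 s x)
  · exact _root_.funext fun s => Subtype.ext (p2 s x)
  have : T ≤ (LinearMap.range α).map T.subtype := hT.le.trans (iSup_le fun s v hv =>
    ⟨α (Pi.single s ⟨v, hv⟩), ⟨_, rfl⟩, (hα _).trans ((Finset.sum_eq_single s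
      (fun t _ ht => by rw [Pi.single_eq_of_ne ht]; rfl) (by simp)).trans
        (by rw [Pi.single_eq_same]))⟩)
  obtain ⟨_, ⟨x, rfl⟩, hx⟩ := this v.2
  exact ⟨x, Subtype.ext hx⟩

section
variable {G : Type} [Group G] [Finite G] (ρ : G →* Module.End ℚ A)

/-- The invariants. -/
def inv : Submodule ℚ A := ⨅ g, LinearMap.ker (ρ g - 1)

omit [Finite G] in
lemma mem_inv {v : A} : v ∈ inv ρ ↔ ∀ g, ρ g v = v := by
  simp [inv, sub_eq_zero]

lemma avg : ∃ e : Module.End ℚ A, (∀ v, e v ∈ inv ρ) ∧ (∀ v ∈ inv ρ, e v = v) ∧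
    (∀ v ∈ ⨆ g, LinearMap.range (ρ g - 1), e v = 0) ∧
    (∀ v, v - e v ∈ ⨆ g, LinearMap.range (ρ g - 1)) ∧
    ∀ f : Module.End ℚ A, (∀ g v, ρ g (f v) = f (ρ g v)) → ∀ v, e (f v) = f (e v) := by
  have := Fintype.ofFinite G
  have hc : (Fintype.card G : ℚ) ≠ 0 := by positivity
  refine ⟨(Fintype.card G : ℚ)⁻¹ • ∑ g, ρ g, fun v => (mem_inv ρ).2 fun h => ?_, fun v hv => ?_,
    fun v hv => ?_, fun v => ?_, fun f hf v => by simp [hf]⟩
  · simp only [LinearMap.smul_apply, LinearMap.sum_apply, map_smul, map_sum]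
    refine congrArg _ (Fintype.sum_equiv (Equiv.mulLeft h) _ _ fun g => ?_)
    simp
  · simp [(mem_inv ρ).1 hv, ← Nat.cast_smul_eq_nsmul ℚ, smul_smul, hc]
  · refine (show _ ≤ LinearMap.ker _ from iSup_le ?_) hv
    rintro h _ ⟨x, rfl⟩
    have : ∑ g, ρ g (ρ h x) = ∑ g, ρ g x := Fintype.sum_equiv (Equiv.mulRight h) _ _ fun g => by simp
    simp [this]
  · have : v - ((Fintype.card G : ℚ)⁻¹ • ∑ g, ρ g) v = -((Fintype.card G : ℚ)⁻¹ • ∑ g, (ρ g - 1) v) := by
      simp [smul_sub, ← Nat.cast_smul_eq_nsmul ℚ, smul_smul, hc]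
    rw [this]
    exact neg_mem (Submodule.smul_mem _ _ (sum_mem fun g _ =>
      Submodule.mem_iSup_of_mem g ⟨v, rfl⟩))

/-- Sum over the generators. -/
theorem sum {q : ℕ} (hq : 1 < q) {i : ℤ} {φ u : Module.End ℚ A} (S : Set G)
    (hS : Subgroup.closure S = ⊤) (h1 : ∀ g v, ρ g (φ v) = φ (ρ g v))
    (h2 : ∀ g v, ρ g (u v) = u (ρ g v))
    (h : ∀ s ∈ S, MwOn q i φ u (LinearMap.range (ρ s - 1))) :
    MwOn q i φ u (⨆ g, LinearMap.range (ρ g - 1)) := by
  obtain ⟨e, -, e2, e3, -⟩ := avg ρ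
  have ind : ∀ P : G → Prop, (∀ s ∈ S, P s) → P 1 → (∀ g h, P g → P h → P (g * h)) →
      (∀ g, P g → P g⁻¹) → ∀ g, P g := fun P a b c d g =>
    Subgroup.closure_induction a b (fun g h _ _ => c g h) (fun g _ => d g)
      (hS ▸ Subgroup.mem_top g : g ∈ Subgroup.closure S)
  refine fam hq (fun s : S => LinearMap.range (ρ s - 1)) (fun s => ρ s - 1) _
    (le_antisymm (iSup_le (ind _ (fun s hs => le_iSup_of_le ⟨s, hs⟩ le_rfl) (by simp) ?_ ?_))
      (iSup_le fun s => le_iSup_of_le s.1 le_rfl)) (fun s v _ => ⟨v, rfl⟩)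
    (fun s v => by simp [h1]) (fun s v => by simp [h2]) (fun v hv h0 => ?_) fun s => h s s.2
  · rintro g h a b _ ⟨v, rfl⟩
    have : (ρ (g * h) - 1) v = (ρ g - 1) (ρ h v) + (ρ h - 1) v := by simp
    exact this ▸ add_mem (a ⟨_, rfl⟩) (b ⟨_, rfl⟩)
  · rintro g a _ ⟨v, rfl⟩
    refine a ⟨-ρ g⁻¹ v, ?_⟩
    simp [← Module.End.mul_apply, ← map_mul, neg_add_eq_sub]
  · refine (e2 v ((mem_inv ρ).2 (ind _ (fun s hs => ?_) (by simp) (fun g h a b => by simp [a, b])
      fun g a => ?_))).symm.trans (e3 v hv)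
    · simpa [sub_eq_zero] using h0 ⟨s, hs⟩
    · conv_lhs => rw [← a]
      simp [← Module.End.mul_apply, ← map_mul]

/-- The invariants and their complement. -/
theorem ext {q : ℕ} (hq : 1 < q) {i : ℤ} {φ u : Module.End ℚ A}
    (h1 : ∀ g v, ρ g (φ v) = φ (ρ g v)) (h2 : ∀ g v, ρ g (u v) = u (ρ g v))
    (hW : MwOn q i φ u (⨆ g, LinearMap.range (ρ g - 1))) (hI : MwOn q i φ u (inv ρ)) :
    Mw q i φ u := by
  obtain ⟨e, e1, -, -, e4, e5⟩ := avg ρ
  refine (fam hq (fun b : Bool => cond b (inv ρ) (⨆ g, LinearMap.range (ρ g - 1)))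
    (fun b => cond b e (1 - e)) ⊤ (top_le_iff.1 fun v _ => ?_).symm ?_ ?_ ?_ (fun v _ h => ?_) ?_).top hq
  · rw [← add_sub_cancel (e v) v]
    exact add_mem (Submodule.mem_iSup_of_mem true (e1 v)) (Submodule.mem_iSup_of_mem false (e4 v))
  · exact Bool.rec (fun v _ => e4 v) fun v _ => e1 v
  · exact Bool.rec (fun v => by simp [e5 φ h1]) (e5 φ h1)
  · exact Bool.rec (fun v => by simp [e5 u h2]) (e5 u h2)
  · simpa [show e v = 0 from h true] using h false
  · exact Bool.rec hW hI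

/-- The invariants of a pure object are pure. -/
theorem inv_of {q : ℕ} (hq : 1 < q) {i : ℤ} {φ u : Module.End ℚ A}
    (h1 : ∀ g v, ρ g (φ v) = φ (ρ g v)) (h2 : ∀ g v, ρ g (u v) = u (ρ g v)) (h : Mw q i φ u) :
    MwOn q i φ u (inv ρ) := by
  obtain ⟨e, e1, e2, -, -, e5⟩ := avg ρ
  have st : ∀ f : Module.End ℚ A, (∀ g v, ρ g (f v) = f (ρ g v)) → ∀ v ∈ inv ρ, f v ∈ inv ρ :=
    fun f hf v hv => (mem_inv ρ).2 fun g => by rw [hf, (mem_inv ρ).1 hv]
  exact ⟨st φ h1, st u h2, mid hq (e.codRestrict _ e1) (inv ρ).subtype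
    (fun v => ⟨v, Subtype.ext (e2 v v.2)⟩) Subtype.val_injective
    (fun v => Subtype.ext (e5 φ h1 v)) (fun v => Subtype.ext (e5 u h2 v)) (fun _ => rfl)
    (fun _ => rfl) h h⟩

end

section
variable {G : Type} [Group G] [Finite G] (ρ : G → Module.End ℚ A) (r1 : ρ 1 = 1)
  (r2 : ∀ g h, ρ (g * h) = ρ h * ρ g)

/-- A right action as a left action. -/
def ofAnti : G →* Module.End ℚ A where
  toFun g := ρ g⁻¹
  map_one' := by rw [inv_one, r1]
  map_mul' g h := by rw [mul_inv_rev, r2]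

include r1 r2

/-- Sum over the generators, right actions. -/
theorem sumA {q : ℕ} (hq : 1 < q) {i : ℤ} {φ u : Module.End ℚ A} (S : Set G)
    (hS : Subgroup.closure S = ⊤) (h1 : ∀ g v, ρ g (φ v) = φ (ρ g v))
    (h2 : ∀ g v, ρ g (u v) = u (ρ g v))
    (h : ∀ s ∈ S, MwOn q i φ u (LinearMap.range (ρ s - 1))) :
    MwOn q i φ u (⨆ g, LinearMap.range (ρ g - 1)) :=
  (Equiv.inv G).iSup_comp (g := fun g => LinearMap.range (ρ g - 1)) ▸
    sum (ofAnti ρ r1 r2) hq S⁻¹ (by rw [Subgroup.closure_inv, hS]) (fun _ => h1 _) (fun _ => h2 _)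
      fun _ hs => h _ hs

/-- The invariants and their complement, right actions. -/
theorem extA {q : ℕ} (hq : 1 < q) {i : ℤ} {φ u : Module.End ℚ A}
    (h1 : ∀ g v, ρ g (φ v) = φ (ρ g v)) (h2 : ∀ g v, ρ g (u v) = u (ρ g v))
    (hW : MwOn q i φ u (⨆ g, LinearMap.range (ρ g - 1))) :
    Mw q i φ u ↔ MwOn q i φ u (⨅ g, LinearMap.ker (ρ g - 1)) := by
  rw [← (Equiv.inv G).iSup_comp (g := fun g => LinearMap.range (ρ g - 1))] at hW
  rw [← (Equiv.inv G).iInf_comp (g := fun g => LinearMap.ker (ρ g - 1))]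
  exact ⟨inv_of (ofAnti ρ r1 r2) hq (fun _ => h1 _) fun _ => h2 _,
    ext (ofAnti ρ r1 r2) hq (fun _ => h1 _) (fun _ => h2 _) hW⟩

end

end Pool.Agent.MP_855f4c_ag.T.Sum

end

section

/-! Row APXP: the approximation lemma along the segment from the power of the root to the
equation. -/

set_option autoImplicit false

open MvPolynomial

namespace Pool.Agent.MP_855f4c_ag.T

def APXP_s : Prop := ∀ (p : ℕ) [Fact p.Prime] (κ : Type) [Fintype κ] [DecidableEq κ] (c : ℕ)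
  (e : Fin c → κ → ℕ) (cf : MI e → PadicAlgCl p), (∀ i, ‖cf i‖ ≤ 1) → ∀ n : ℕ, ∃ r : ℕ,
    ∀ Δ : MvPolynomial (MI fun a k => p ^ r * e a k) ℤ, map (Int.castRingHom (ZMod p)) Δ ≠ 0 →
    ∀ ρ : ℝ, ρ < 1 → ∃ (N : ℕ) (E : Finset (PadicAlgCl p)), r < N ∧ (∀ z ∈ E, ‖z‖ ≤ 1) ∧
      ∀ O : Subring (PadicAlgCl p), (∀ z ∈ E, z ∈ O) →
        ∃ (c₀ : MI e → O) (c' : (MI fun a k => p ^ r * e a k) → O),
          (∀ i, (c₀ i : PadicAlgCl p) = cf i) ∧
          ρ < ‖aeval (fun i => (c' i : PadicAlgCl p)) Δ‖ ∧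
          ∀ (W : Type) [CommRing W] [IsDomain W] [ValuationRing W] (ψ : O →+* W) (x : XV κ → W)
            (a : Fin c) (τ : W), gen (ψ ∘ c') a x ^ p ^ (N - r) +
              τ * (gen (ψ ∘ c₀) a (fun v => x v ^ p ^ N) - gen (ψ ∘ c') a x ^ p ^ (N - r)) = 0 →
            (p : W) ^ n ∣ gen (ψ ∘ c₀) a fun v => x v ^ p ^ N

namespace Apxp

open G.Apx Apx0 WittVector

theorem ap_sub (p : ℕ) [Fact p.Prime] {σ C Γ : Type} [Field C] [IsAlgClosed C]
    [LinearOrderedCommGroupWithZero Γ] (v : Valuation C Γ) (h0 : (p : C) ≠ 0) (h1 : v (p : C) < 1)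
    (f : MvPolynomial σ ℤ) (N k : ℕ) (hk : N < k) (z : Option σ → C) (hz : ∀ i, v (z (some i)) ≤ 1)
    (ht : z none ^ p ^ k = p) :
    v (ev (fun i => z (some i) ^ p ^ k) f - ev z (ap p f N) ^ p ^ (k - N)) ≤
      v (p : C) * max (v (ev z (ap p f N)) ^ p ^ (k - N)) (v (p : C) ^ N) := by
  have hx : Le p v k 1 (ev (fun i => teichmuller p (z (some i))) f) := by
    rw [le_one_iff]
    intro j _
    have h := map_ev (WittVector.map (p := p) v.integer.subtype)
      (fun i => teichmuller p (⟨z (some i), hz i⟩ : v.integer)) f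
    simp only [map_teichmuller, Subring.subtype_apply] at h
    rw [← h, WittVector.map_coeff]
    exact (WittVector.coeff _ j : v.integer).2
  have h := le_xs h0 h1 _ _ k ht hx N hk.le
  have g := ghost_xs p _ (ev (fun i => teichmuller p (z (some i))) f) k ht N hk.le
  obtain ⟨j, hj⟩ : ∃ j, k - N = j + 1 := ⟨k - N - 1, by omega⟩
  rw [hj] at h g ⊢
  rw [map_ev, ghost_succ, ← ev_ap] at g
  simp only [ghostComponent_teichmuller] at g
  rw [← g, add_sub_cancel_left, map_mul, ev_ap]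
  exact mul_le_mul_right h.shift.ghost _

theorem ap_eq (p : ℕ) [Fact p.Prime] {σ W : Type} [CommRing W] [IsDomain W] [ValuationRing W]
    (f : MvPolynomial σ ℤ) {n N k : ℕ} (hn : n ≤ N) (hk : N < k) (z : Option σ → W)
    (ht : z none ^ p ^ k = p) : ∃ u w : W, ev (fun i => z (some i) ^ p ^ k) f =
      ev z (ap p f N) ^ p ^ (k - N) * (1 + p * u) + p ^ n * w := by
  by_cases h0 : (p : W) = 0
  · have g := ghost_xs p _ (ev (fun i => teichmuller p (z (some i))) f) k ht N hk.le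
    rw [map_ev, ghost_eq, Finset.sum_range_succ', ← ev_ap] at g
    simp only [ghostComponent_teichmuller] at g
    exact ⟨0, 0, by rw [← g]; simp [h0]⟩
  by_cases h1 : IsUnit (p : W)
  · obtain ⟨w, hw⟩ := (h1.pow n).dvd
      (a := ev (fun i => z (some i) ^ p ^ k) f - ev z (ap p f N) ^ p ^ (k - N))
    exact ⟨0, w, by linear_combination hw⟩
  let ψ := algebraMap (FractionRing W) (AlgebraicClosure (FractionRing W))
  let φ := ψ.comp (algebraMap W _)
  have hφ : Function.Injective φ := ψ.injective.comp (IsFractionRing.injective W (FractionRing W))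
  obtain ⟨A, hA, hl⟩ := IsLocalRing.exists_factor_valuationRing φ
  have hv := dvd_iff hφ hl
  have p1 : A.valuation (φ p) < 1 := not_le.1 fun h2 =>
    h1 (isUnit_of_dvd_one ((hv 1 p).1 (by simpa using h2)))
  have g := ap_sub p A.valuation (by simpa using (map_ne_zero_iff φ hφ).2 h0) (by simpa using p1)
    f N k hk (fun o => φ (z o)) (fun i => A.valuation_le_one ⟨_, hA _⟩)
    (by rw [← map_pow, ht, map_natCast])
  rw [← max_mul_mul_left, le_max_iff] at g
  rcases g with g | g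
  · obtain ⟨u, hu⟩ := (hv (ev (fun i => z (some i) ^ p ^ k) f - ev z (ap p f N) ^ p ^ (k - N))
      (p * ev z (ap p f N) ^ p ^ (k - N))).1
      (by simpa only [map_sub, map_mul, map_ev, map_pow, map_natCast] using g)
    exact ⟨u, 0, by linear_combination hu⟩
  · obtain ⟨u, hu⟩ := (hv (ev (fun i => z (some i) ^ p ^ k) f - ev z (ap p f N) ^ p ^ (k - N))
      (p * p ^ N)).1 (by simpa only [map_sub, map_mul, map_ev, map_pow, map_natCast] using g)
    obtain ⟨d, rfl⟩ := Nat.exists_eq_add_of_le hn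
    exact ⟨0, p * p ^ d * u, by linear_combination hu⟩

theorem apx0 (p : ℕ) [Fact p.Prime] {κ : Type} [Fintype κ] [DecidableEq κ] (e : κ → ℕ) {n r : ℕ}
    (hr : n ≤ r) :
    ∃ y : (∀ k, Fin (p ^ r * e k + 1)) → MvPolynomial (Option (∀ k, Fin (e k + 1))) ℤ,
      ∀ M > r, ∀ (W : Type) [CommRing W] [IsDomain W] [ValuationRing W]
        (t : Option (∀ k, Fin (e k + 1)) → W) (x : XV κ → W), t none ^ p ^ M = p →
        ∃ u w : W, (∑ j, t (some j) ^ p ^ M * mon j fun v => x v ^ p ^ M) =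
          (∑ j, aeval t (y j) * mon (e := fun k => p ^ r * e k) j x) ^ p ^ (M - r) * (1 + p * u) +
            p ^ n * w := by
  obtain ⟨y, hy⟩ := expand (E := fun k => p ^ r * e k) (ap_hom p (gen_hom e) r)
  refine ⟨y, fun M hM W _ _ _ t x ht => ?_⟩
  rw [← hy]
  obtain ⟨u, w, h⟩ := ap_eq p (∑ j, X (.inl j) * mon j fun v => X (.inr v)) hr hM (pt t x) ht
  exact ⟨u, w, Eq.trans (by simp [pt, mon, eval₂_mul, eval₂_prod]) h⟩

theorem seg {p : ℕ} (hp : p.Prime) {W : Type} [CommRing W] [IsDomain W] [ValuationRing W]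
    {n m : ℕ} {A B δ g u w τ : W} (hB : B = A ^ p ^ m * (1 + p * u) + p ^ n * w)
    (hδ : δ ^ p ^ m = p ^ n * g)
    (h : (A + δ) ^ p ^ m + τ * (B - (A + δ) ^ p ^ m) = 0) : (p : W) ^ n ∣ B := by
  suffices (p : W) ^ n ∣ A ^ p ^ m from
    hB ▸ dvd_add (this.mul_right _) (dvd_mul_right _ _)
  rcases ValuationRing.dvd_total A δ with ⟨c, rfl⟩ | ⟨c, rfl⟩
  · by_cases h1 : IsUnit (p : W)
    · exact (h1.pow n).dvd
    obtain ⟨s, hs⟩ := exists_add_pow_prime_pow_eq hp (1 : W) c m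
    have e : (A + A * c) ^ p ^ m = A ^ p ^ m + p ^ n * g + p * (c * s) * A ^ p ^ m := by
      rw [← mul_one_add, mul_pow, hs, ← hδ, mul_pow, one_pow]; ring
    have hu : IsUnit (1 + p * (c * s + τ * (u - c * s)) : W) := by
      have := IsLocalRing.isUnit_one_sub_self_of_mem_nonunits _
        (mul_mem_nonunits_left (b := -(c * s + τ * (u - c * s))) h1)
      rwa [mul_neg, sub_neg_eq_add] at this
    rw [e, hB] at h
    exact hu.dvd_mul_right.1 ⟨-(g + τ * (w - g)), by linear_combination h⟩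
  · rw [mul_pow, hδ, mul_assoc]
    exact dvd_mul_right _ _

end Apxp

open Apxf in
theorem apxp : APXP_s := by
  classical
  intro p hp κ _ _ c e cf hcf n
  have h0 : (p : PadicAlgCl p) ≠ 0 := Nat.cast_ne_zero.2 hp.out.ne_zero
  have h1 : ‖(p : PadicAlgCl p)‖ < 1 := by
    rw [← map_natCast (algebraMap ℚ_[p] (PadicAlgCl p)), norm_algebraMap']
    exact Padic.norm_p_lt_one
  refine ⟨n, fun Δ hΔ ρ hρ => ?_⟩
  choose y hy using fun a => Apxp.apx0 p (e a) (le_refl n)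
  obtain ⟨D, hD⟩ := ex_big hp.out h1 Δ (by
    rintro ⟨Q, rfl⟩
    apply hΔ
    rw [map_mul, map_natCast, ← map_natCast (C : ZMod p →+* _), ZMod.natCast_self, map_zero,
      zero_mul])
  have hp0 : 0 < ‖(p : PadicAlgCl p)‖ := norm_pos_iff.2 h0
  obtain ⟨k1, hk1⟩ := exists_pow_lt_of_lt_one (pow_pos hp0 (n * p ^ n * D)) (max_lt hρ one_pos)
  obtain ⟨k, hkn, hkk⟩ : ∃ k, n < k ∧ k1 ≤ k := ⟨n + 1 + k1, by omega, by omega⟩
  have hq : 0 < p ^ k := pow_pos hp.out.pos _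
  have root : ∀ b : PadicAlgCl p, ‖b‖ ≤ 1 →
      ∃ t : Bl (PadicAlgCl p), (t : PadicAlgCl p) ^ p ^ k = b := fun b hb => by
    obtain ⟨t, ht⟩ := IsAlgClosed.exists_pow_nat_eq b hq
    refine ⟨⟨t, ?_⟩, ht⟩
    change ‖t‖ ≤ 1
    rwa [← ht, norm_pow, pow_le_one_iff_of_nonneg (norm_nonneg _) hq.ne'] at hb
  obtain ⟨t0, ht0⟩ := root p h1.le
  choose t ht using fun i => root _ (hcf i)
  have ht00 : (t0 : PadicAlgCl p) ≠ 0 := fun h => h0 (by rw [← ht0, h, zero_pow hq.ne'])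
  obtain ⟨τ0, hτ0⟩ : ∃ τ0 : (MI fun a k => p ^ n * e a k) → Bl (PadicAlgCl p), ∀ i,
      τ0 i = aeval (fun o : Option _ => o.elim t0 fun j => t ⟨i.1, j⟩) (y i.1 i.2) :=
    ⟨_, fun _ => rfl⟩
  have hs1 : ‖(t0 : PadicAlgCl p) ^ (n * p ^ n)‖ ≤ 1 := (Bl _).pow_mem t0.2 _
  obtain ⟨g, hg, hb⟩ := hD (fun i => τ0 i) (fun i => (τ0 i).2) _ (pow_ne_zero _ ht00) hs1
  refine ⟨k, insert (t0 : PadicAlgCl p)
    (Finset.univ.image (fun i => (t i : PadicAlgCl p)) ∪ Finset.univ.image g), hkn,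
    fun z hz => ?_, fun O hO => ?_⟩
  · simp only [Finset.mem_insert, Finset.mem_union, Finset.mem_image] at hz
    rcases hz with rfl | ⟨i, -, rfl⟩ | ⟨i, -, rfl⟩
    exacts [t0.2, (t i).2, hg i]
  let u0 : O := ⟨t0, hO _ (Finset.mem_insert_self _ _)⟩
  let u : MI e → O := fun i => ⟨t i, hO _ (Finset.mem_insert_of_mem (Finset.mem_union_left _
    (Finset.mem_image_of_mem _ (Finset.mem_univ i))))⟩
  let g' : (MI fun a k => p ^ n * e a k) → O := fun i => ⟨g i, hO _ (Finset.mem_insert_of_mem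
    (Finset.mem_union_right _ (Finset.mem_image_of_mem _ (Finset.mem_univ i))))⟩
  have e0 : u0 ^ p ^ k = p := Subtype.ext (by simpa using ht0)
  refine ⟨fun i => u i ^ p ^ k, fun i => aeval (fun o => o.elim u0 fun j => u ⟨i.1, j⟩) (y i.1 i.2)
    + u0 ^ (n * p ^ n) * g' i, fun i => by simpa using ht i, ?_, fun W _ _ _ ψ x a τ hx => ?_⟩
  · refine ((le_max_left ρ 0).trans_lt ?_).trans_le (hb.trans_eq ?_)
    · refine lt_of_pow_lt_pow_left₀ (p ^ k) (by positivity) ?_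
      rw [norm_pow, ← pow_mul _ _ D, ← pow_mul, mul_comm _ (p ^ k), pow_mul _ (p ^ k), ← norm_pow,
        ht0]
      exact (pow_le_pow_of_le_one (le_max_right _ _) (max_lt hρ one_pos).le
        (hkk.trans (Nat.lt_pow_self hp.out.one_lt).le)).trans_lt hk1
    · refine congrArg (fun z => ‖ev z Δ‖) (funext fun i => ?_)
      rw [Subring.coe_add, Subring.coe_mul, Subring.coe_pow, hτ0]
      congr 1
      refine (map_ae (Bl _).subtype _ _).trans (Eq.trans ?_ (map_ae O.subtype _ _).symm)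
      congr 2
      funext o
      cases o <;> rfl
  have e1 : ψ u0 ^ p ^ k = p := by rw [← map_pow, e0, map_natCast]
  obtain ⟨a₁, a₂, h2⟩ := hy a k hkn W (fun o => ψ (o.elim u0 fun j => u ⟨a, j⟩)) x e1
  simp only [gen, Function.comp, map_add, map_mul, map_pow, add_mul, Finset.sum_add_distrib,
    map_ae, mul_assoc, ← Finset.mul_sum, Option.elim] at hx h2 ⊢
  exact Apxp.seg hp.out h2 (by
    rw [mul_pow, ← pow_mul, mul_assoc, ← pow_add, Nat.add_sub_cancel' hkn.le, mul_comm n, pow_mul,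
      e1]) hx

end Pool.Agent.MP_855f4c_ag.T

end

section

/-! Row CPL: the finite modification, its henselisation along a closed set, and the lifting of
an approximate point to that henselisation. -/

set_option autoImplicit false

open MvPolynomial

namespace Pool.Agent.MP_855f4c_ag.T.Cpl

open E3

theorem newt_mono {A : Type} [CommRing A] {I J : Ideal A} (h : Newt A I) (hJ : J ≤ I) :
    Newt A J := fun ν _ Θ hΘ => h ν Θ fun i m => hJ (hΘ i m)

theorem hp_of_newt {A : Type} [CommRing A] {I : Ideal A} (h : Newt A I) : HP A I :=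
  HBR.hpG (HBR2.newt h).hp

theorem newt_integral {A D : Type} [CommRing A] [CommRing D] [Algebra A D]
    [Algebra.IsIntegral A D] {I : Ideal A} (h : Newt A I) : Newt D (I.map (algebraMap A D)) :=
  HBR.ofG (HBR2.newt h).integral

theorem nzd {A D : Type} [CommRing A] [CommRing D] [Algebra A D] (H : IndEt A D) {a : A}
    (ha : a ∈ nonZeroDivisors A) : algebraMap A D a ∈ nonZeroDivisors D := by
  have := H.flat
  have h := Module.Flat.isSMulRegular_of_nonZeroDivisors (M := D) ha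
  refine mem_nonZeroDivisors_iff_right.2 fun x hx => h ?_
  change a • x = a • (0 : D)
  rw [smul_zero, Algebra.smul_def, mul_comm, hx]

/-- The two hypotheses of `cplus` for a quotient of the localisation. -/
theorem quot {B C₀ C : Type} [CommRing B] [CommRing C₀] [CommRing C] [Algebra B C₀] [Algebra B C]
    (ϖ : B) [IsLocalization.Away ϖ C₀] (π : C₀ →+* C) (hπ : Function.Surjective π)
    (h : ∀ b, π (algebraMap B C₀ b) = algebraMap B C b) : IsUnit (algebraMap B C ϖ) ∧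
      ∀ x : C, ∃ (n : ℕ) (b : B), x * algebraMap B C ϖ ^ n = algebraMap B C b := by
  refine ⟨h ϖ ▸ (IsLocalization.Away.algebraMap_isUnit ϖ).map π, fun x => ?_⟩
  obtain ⟨x, rfl⟩ := hπ x
  obtain ⟨n, b, e⟩ := IsLocalization.Away.surj ϖ x
  exact ⟨n, b, by rw [← h, ← h, ← map_pow, ← map_mul, e]⟩

/-- Henselisation along a closed set, with all its properties. -/
theorem hensAll (P : Type) [CommRing P] (Z : Ideal P) :
    ∃ (P₁ : Type) (_ : CommRing P₁) (_ : Algebra P P₁), IndEt P P₁ ∧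
      Hens P₁ (Z.map (algebraMap P P₁)) ∧ QIso P P₁ Z ∧ Exs P P₁ Z ∧
      Newt P₁ (Z.map (algebraMap P P₁)) ∧
      (∀ a ∈ Z, Newt P₁ (Ideal.span {algebraMap P P₁ a}) ∧ HP P₁ (Ideal.span {algebraMap P P₁ a})) ∧
      (∀ a, a - 1 ∈ Z → IsUnit (algebraMap P P₁ a)) ∧
      ∀ a ∈ nonZeroDivisors P, algebraMap P P₁ a ∈ nonZeroDivisors P₁ := by
  obtain ⟨P₁, _, _, h1, h2, h3⟩ := hens P Z
  have h4 := HBR.newt h2
  refine ⟨P₁, _, _, h1, h2, h3, exs.2 _ _ _ h1 h3, h4, fun a ha => ?_, fun a ha => ?_,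
    fun a => nzd h1⟩
  · have h5 := newt_mono h4 ((Ideal.span_singleton_le_iff_mem _).2 (Ideal.mem_map_of_mem _ ha))
    exact ⟨h5, hp_of_newt h5⟩
  · have h5 := newt.2.2 _ _ h4 _ (Ideal.mem_map_of_mem _ ha)
    rwa [map_sub, map_one, add_sub_cancel] at h5

/-- `r` is tautological where `nn` or `ϖ` vanishes. -/
theorem taut {P₁ D : Type} [CommRing P₁] [CommRing D] (ψ : P₁ →+* D) {N : Ideal P₁} {x w a : P₁}
    (h : ∃ y ∈ N, x = w + a * y) (hψ : ψ a = 0 ∨ N ≤ RingHom.ker ψ) : ψ x = ψ w := by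
  obtain ⟨y, hy, rfl⟩ := h
  rw [map_add, map_mul]
  rcases hψ with h | h
  · rw [h, zero_mul, add_zero]
  · rw [show ψ y = 0 from h hy, mul_zero, add_zero]

/-- The preimage of `V(e_j, j ∈ H)` in the special fibre lies in `Z = V(ϖ, ε - 1, w_j)`. -/
theorem rz {P P₁ D ν : Type} [CommRing P] [CommRing P₁] [CommRing D] (ι : P →+* P₁)
    (ψ : P₁ →+* D) (H : Set ν) (w : ν → P) (x : ν → P₁) (a ε t : P) (M : ℕ) (N : Ideal P₁)
    (hx : ∀ j, ∃ y ∈ N, x j = ι (w j) + ι a * y) (hu : IsUnit (ι ε))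
    (ht : t - 1 ∈ Ideal.span (w '' H)) (hε : ε * (ε - t ^ M) ∈ Ideal.span {a})
    (ha : ψ (ι a) = 0) (h0 : ∀ j ∈ H, ψ (x j) = 0) :
    (Ideal.span ({a, ε - 1} ∪ w '' H)).map ι ≤ RingHom.ker ψ := by
  have h1 : Ideal.span (w '' H) ≤ RingHom.ker (ψ.comp ι) := Ideal.span_le.2 (by
    rintro _ ⟨j, hj, rfl⟩
    exact (taut ψ (hx j) (.inl ha)).symm.trans (h0 j hj))
  have h2 : Ideal.span {a} ≤ RingHom.ker (ψ.comp ι) := (Ideal.span_singleton_le_iff_mem _).2 ha
  have h3 := h1 ht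
  have h4 := h2 hε
  rw [RingHom.mem_ker, map_sub, map_one, sub_eq_zero] at h3
  rw [RingHom.mem_ker, map_mul, map_sub, map_pow, h3, one_pow] at h4
  have h5 := (hu.map ψ).mul_right_eq_zero.1 h4
  refine Ideal.map_le_iff_le_comap.2 (Ideal.span_le.2 ?_)
  rintro _ ((rfl | rfl) | h)
  · exact ha
  · change (ψ.comp ι) (ε - 1) = 0
    rw [map_sub, map_one, h5]
  · exact h1 (Ideal.subset_span h)

section
variable {P C' : Type} [CommRing P] [CommRing C'] [Algebra P C']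

/-- An element vanishing at all geometric points of `V(J)` lies in the contracted radical. -/
theorem mem_nn (J : Ideal C') (y : P) (h : ∀ (L : Type) [Field L] [IsAlgClosed L] (ψ : C' →+* L),
    J ≤ RingHom.ker ψ → ψ (algebraMap P C' y) = 0) : y ∈ J.radical.comap (algebraMap P C') := by
  rw [Ideal.mem_comap, Ideal.radical_eq_sInf, Submodule.mem_sInf]
  rintro q ⟨hq, hq'⟩
  let L := AlgebraicClosure (FractionRing (C' ⧸ q))
  let j := (algebraMap (FractionRing (C' ⧸ q)) L).comp (algebraMap (C' ⧸ q) _)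
  have hi : Function.Injective j := (algebraMap (FractionRing (C' ⧸ q)) L).injective.comp
    (IsFractionRing.injective (C' ⧸ q) _)
  have h1 := h L (j.comp (Ideal.Quotient.mk q)) fun x hx => by
    rw [RingHom.mem_ker, RingHom.comp_apply, Ideal.Quotient.eq_zero_iff_mem.2 (hq hx), map_zero]
  exact Ideal.Quotient.eq_zero_iff_mem.1 (hi (h1.trans (map_zero _).symm))

/-- The quotient by a contracted ideal: it embeds, with the quotient as its localisation. -/
theorem sat (a : P) [IsLocalization.Away a C'] (J : Ideal C') :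
    letI : Algebra (P ⧸ J.comap (algebraMap P C')) (C' ⧸ J) :=
      (Ideal.quotientMap J (algebraMap P C') le_rfl).toAlgebra
    Function.Injective (algebraMap (P ⧸ J.comap (algebraMap P C')) (C' ⧸ J)) ∧
      IsLocalization.Away (Ideal.Quotient.mk (J.comap (algebraMap P C')) a) (C' ⧸ J) ∧
      Ideal.Quotient.mk (J.comap (algebraMap P C')) a ∈
        nonZeroDivisors (P ⧸ J.comap (algebraMap P C')) := by
  let _ : Algebra (P ⧸ J.comap (algebraMap P C')) (C' ⧸ J) :=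
    (Ideal.quotientMap J (algebraMap P C') le_rfl).toAlgebra
  have hi : Function.Injective (algebraMap (P ⧸ J.comap (algebraMap P C')) (C' ⧸ J)) :=
    Ideal.quotientMap_injective
  have he : ∀ b, algebraMap (P ⧸ J.comap (algebraMap P C')) (C' ⧸ J) (Ideal.Quotient.mk _ b) =
      Ideal.Quotient.mk J (algebraMap P C' b) := fun b => rfl
  have hu : IsUnit (algebraMap (P ⧸ J.comap (algebraMap P C')) (C' ⧸ J) (Ideal.Quotient.mk _ a)) :=
    (IsLocalization.Away.algebraMap_isUnit a).map (Ideal.Quotient.mk J)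
  refine ⟨hi, .mk _ hu (fun x => ?_) fun a b h => ⟨0, by rw [hi h]⟩,
    mem_nonZeroDivisors_iff_right.2 fun x hx => hi ?_⟩
  · obtain ⟨x, rfl⟩ := Ideal.Quotient.mk_surjective x
    obtain ⟨n, b, e⟩ := IsLocalization.Away.surj a x
    exact ⟨n, Ideal.Quotient.mk _ b, by rw [he, he, ← map_pow, ← map_mul, e]⟩
  · have := congrArg (algebraMap _ (C' ⧸ J)) hx
    rw [map_mul, map_zero] at this
    rw [hu.mul_left_eq_zero.1 this, map_zero]

end

end Pool.Agent.MP_855f4c_ag.T.Cpl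

end

section

/-! h14a row TUBC: the formal part of the tube argument. -/

set_option autoImplicit false

open Function TensorProduct

namespace Pool.Agent.MP_855f4c_ag.T.Tubc

open E E3

/-- A functor on `O`-algebras that inverts henselisations along `w` and polynomial rings. -/
structure Inv (O : Type) [CommRing O] (w : O) where
  F : ∀ (B : Type) [CommRing B] [Algebra O B], Type 1
  pl : ∀ {B C : Type} [CommRing B] [CommRing C] [Algebra O B] [Algebra O C],
    (B →ₐ[O] C) → F B → F C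
  comp : ∀ {B C D : Type} [CommRing B] [CommRing C] [CommRing D] [Algebra O B] [Algebra O C]
    [Algebra O D] (f : B →ₐ[O] C) (g : C →ₐ[O] D) (x : F B), pl (g.comp f) x = pl g (pl f x)
  exc : ∀ (B C : Type) [CommRing B] [CommRing C] [Algebra O B] [Algebra O C] [Algebra B C]
    [IsScalarTower O B C], IndEt B C → QIso B C (Ideal.span {algebraMap O B w}) →
      Bijective (pl (IsScalarTower.toAlgHom O B C))
  a1 : ∀ (B : Type) [CommRing B] [Algebra O B],
    Bijective (pl (IsScalarTower.toAlgHom O B (Polynomial B)))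

/-- The retraction and the homotopy. -/
def Tub {O : Type} [CommRing O] (w : O) {B ι : Type} [CommRing B] [Algebra O B] (c : ι → B) :
    Prop :=
  ∀ (R : Type) [CommRing R] [Algebra O R] (φ : B →ₐ[O] R),
    Newt R (Ideal.span {algebraMap O R w}) → algebraMap O R w ∈ nonZeroDivisors R →
    ∃ r : B →ₐ[O] R, (∀ i, r (c i) = 0) ∧
      (∀ b, r b - φ b ∈ Ideal.span (Set.range fun i => φ (c i))) ∧
      ∀ (S : Type) [CommRing S] [Algebra O S] (ψ : R →ₐ[O] S) (s : S),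
        Newt S (Ideal.span {algebraMap O S w}) → algebraMap O S w ∈ nonZeroDivisors S →
        ∃ H : B →ₐ[O] S, (∀ b, H b - ψ (φ b) ∈ Ideal.span {s}) ∧
          ∀ b, H b - ψ (r b) ∈ Ideal.span {s - 1}

variable {O : Type} [CommRing O] {w : O} (I : Inv O w)

/-- The henselisation along `w`. -/
theorem ex_hens (B : Type) [CommRing B] [Algebra O B] (hw : algebraMap O B w ∈ nonZeroDivisors B) :
    ∃ (R : Type) (_ : CommRing R) (_ : Algebra O R) (_ : Algebra B R) (_ : IsScalarTower O B R),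
      IndEt B R ∧ QIso B R (Ideal.span {algebraMap O B w}) ∧
      Newt R (Ideal.span {algebraMap O R w}) ∧ algebraMap O R w ∈ nonZeroDivisors R := by
  obtain ⟨R, _, _, h1, h2, h3⟩ := hens B (Ideal.span {algebraMap O B w})
  let : Algebra O R := ((algebraMap B R).comp (algebraMap O B)).toAlgebra
  refine ⟨R, inferInstance, this, inferInstance, .of_algebraMap_eq fun _ => rfl, h1, h3, ?_, ?_⟩
  · have := newt.1 R _ h2
    rwa [Ideal.map_span, Set.image_singleton] at this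
  · have := h1.flat
    have h4 := Module.Flat.isSMulRegular_of_nonZeroDivisors (M := R) hw
    refine mem_nonZeroDivisors_iff_left.2 fun x hx => h4 ?_
    change _ • x = _ • (0 : R)
    rw [smul_zero, Algebra.smul_def]
    exact hx

/-- Base change of a henselisation. -/
theorem bc {B C B' : Type} [CommRing B] [CommRing C] [CommRing B'] [Algebra O B] [Algebra O C]
    [Algebra O B'] [Algebra B C] [IsScalarTower O B C] (h1 : IndEt B C)
    (h2 : QIso B C (Ideal.span {algebraMap O B w})) (f : B →ₐ[O] B') :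
    ∃ (C' : Type) (_ : CommRing C') (_ : Algebra O C') (g : C →ₐ[O] C') (h : B' →ₐ[O] C'),
      (∀ b, g (algebraMap B C b) = h (f b)) ∧ Bijective (I.pl h) := by
  let : Algebra B B' := f.toRingHom.toAlgebra
  have : IsScalarTower O B B' := .of_algebraMap_eq fun o => (f.commutes o).symm
  let : Algebra C (B' ⊗[B] C) := Algebra.TensorProduct.rightAlgebra
  have : Algebra.IsPushout B C B' (B' ⊗[B] C) := Algebra.IsPushout.symm inferInstance
  obtain ⟨a, b⟩ := exs.1 B C B' (B' ⊗[B] C) _ (Ideal.span {algebraMap O B' w}) (by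
    rw [Ideal.map_span, Set.image_singleton, ← IsScalarTower.algebraMap_apply]) h1 h2
  refine ⟨B' ⊗[B] C, inferInstance, inferInstance,
    (Algebra.TensorProduct.includeRight (R := B) (A := B') (B := C)).restrictScalars O,
    IsScalarTower.toAlgHom O B' _, fun b => ?_, I.exc _ _ a b⟩
  exact ((Algebra.TensorProduct.includeRight (R := B) (A := B') (B := C)).commutes b).trans
    (IsScalarTower.algebraMap_apply B B' _ b)

theorem bij_comp {B C D : Type} [CommRing B] [CommRing C] [CommRing D] [Algebra O B] [Algebra O C]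
    [Algebra O D] (f : B →ₐ[O] C) (g : C →ₐ[O] D) {h : B →ₐ[O] D} (e : ∀ b, g (f b) = h b) :
    I.pl h = I.pl g ∘ I.pl f := funext fun x => by
  rw [comp_apply, ← I.comp]
  exact congrArg (I.pl · x) (AlgHom.ext fun b => (e b).symm)

/-- Homotopic maps act in the same way. -/
theorem htp {B R : Type} [CommRing B] [CommRing R] [Algebra O B] [Algebra O R]
    (hw : algebraMap O R w ∈ nonZeroDivisors R) (φ r : B →ₐ[O] R)
    (h : ∀ (S : Type) [CommRing S] [Algebra O S] (ψ : R →ₐ[O] S) (s : S),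
      Newt S (Ideal.span {algebraMap O S w}) → algebraMap O S w ∈ nonZeroDivisors S →
      ∃ H : B →ₐ[O] S, (∀ b, H b - ψ (φ b) ∈ Ideal.span {s}) ∧
        ∀ b, H b - ψ (r b) ∈ Ideal.span {s - 1}) : I.pl φ = I.pl r := by
  obtain ⟨S, _, _, _, _, h1, h2, h3, h4⟩ := ex_hens (O := O) (w := w) (Polynomial R) (by
    rw [IsScalarTower.algebraMap_apply O R, Polynomial.algebraMap_apply]
    exact Polynomial.mem_nonzeroDivisors_of_coeff_mem 0 (by simpa using hw))
  let ψ : R →ₐ[O] S := (IsScalarTower.toAlgHom O (Polynomial R) S).comp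
    (IsScalarTower.toAlgHom O R (Polynomial R))
  obtain ⟨H, H0, H1⟩ := h S ψ (algebraMap (Polynomial R) S Polynomial.X) h3 h4
  have hψ : Bijective (I.pl ψ) := by
    rw [bij_comp I (IsScalarTower.toAlgHom O R (Polynomial R))
      (IsScalarTower.toAlgHom O (Polynomial R) S) (h := ψ) fun _ => rfl]
    exact (I.exc _ _ h1 h2).comp (I.a1 R)
  have key (t : R) (ρ : B →ₐ[O] R) (hρ : ∀ b, H b - ψ (ρ b) ∈
      Ideal.span {algebraMap (Polynomial R) S (Polynomial.X - Polynomial.C t)}) :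
      I.pl H = I.pl ψ ∘ I.pl ρ := by
    obtain ⟨C', _, _, g, k, e, hk⟩ := bc I h1 h2 ((Polynomial.aeval t).restrictScalars O)
    have e1 (x : R) : g (ψ x) = k x := (e _).trans (by simp)
    have hg : Injective (I.pl g) := by
      rw [bij_comp I ψ g e1] at hk
      exact ((Bijective.of_comp_iff _ hψ).1 hk).1
    have e2 (b : B) : g (H b) = g (ψ (ρ b)) := by
      obtain ⟨a, ha⟩ := Ideal.mem_span_singleton'.1 (hρ b)
      rw [← sub_eq_zero, ← map_sub, ← ha, map_mul, e]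
      simp
    funext x
    refine hg ?_
    rw [comp_apply, ← I.comp, ← I.comp, ← I.comp]
    exact congrArg (I.pl · x) (AlgHom.ext e2)
  have k0 := key 0 φ (by simpa using H0)
  have k1 := key 1 r (by simpa using H1)
  exact funext fun x => hψ.1 (congrFun (k0.symm.trans k1) x)

/-- **TUBC**. -/
theorem tubc {B ι : Type} [CommRing B] [Algebra O B] (hw : algebraMap O B w ∈ nonZeroDivisors B)
    (c : ι → B) (h : Tub w c) :
    Bijective (I.pl (Ideal.Quotient.mkₐ O (Ideal.span (Set.range c)))) := by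
  obtain ⟨R, _, _, _, _, h1, h2, h3, h4⟩ := ex_hens (O := O) (w := w) B hw
  obtain ⟨r, r0, r1, r2⟩ := h R (IsScalarTower.toAlgHom O B R) h3 h4
  have hr : Bijective (I.pl r) := htp I h4 _ r r2 ▸ I.exc _ _ h1 h2
  let rD : (B ⧸ Ideal.span (Set.range c)) →ₐ[O] R := Ideal.Quotient.liftₐ _ r fun a ha =>
    (Ideal.span_le (I := RingHom.ker r)).2 (Set.range_subset_iff.2 r0) ha
  obtain ⟨C', _, _, g, k, e, hk⟩ := bc I h1 h2 (Ideal.Quotient.mkₐ O (Ideal.span (Set.range c)))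
  have e1 (x) : g (rD x) = k x := by
    obtain ⟨b, rfl⟩ := Ideal.Quotient.mk_surjective x
    refine Eq.trans ?_ (e b)
    rw [← sub_eq_zero, ← map_sub]
    refine (Ideal.span_le (I := RingHom.ker g)).2 ?_ (r1 b)
    rintro _ ⟨i, rfl⟩
    refine (e (c i)).trans ?_
    rw [Ideal.Quotient.mkₐ_eq_mk, Ideal.Quotient.eq_zero_iff_mem.2
      (Ideal.subset_span (Set.mem_range_self i)), map_zero]
  rw [bij_comp I rD g e1] at hk
  rw [bij_comp I (Ideal.Quotient.mkₐ O (Ideal.span (Set.range c))) rD (h := r) fun _ => rfl] at hr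
  exact (Bijective.of_comp_iff' ⟨hk.1.of_comp, hr.2.of_comp⟩ _).1 hr

section alg
open MvPolynomial
variable {K ν ρ ι B : Type} [CommRing K] [Algebra O K]
  [IsLocalization.Away w K] {g : ρ → MvPolynomial ν K} {γ : ι → MvPolynomial ν K} {k : ℕ}
  [CommRing B] [Algebra O B]
  {β : B →ₐ[O] MvPolynomial ν K ⧸ Ideal.span (Set.range g)} (hβ : Injective β)
  {e : ν → B} {c : ι → B} (he : ∀ j, β (e j) = Ideal.Quotient.mk _ (X j))
  (hc : ∀ i, β (algebraMap O B w ^ k * c i) = Ideal.Quotient.mk _ (γ i))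
  {R R' : Type} [CommRing R] [CommRing R'] [Algebra O R] [Algebra R R']
  [IsLocalization.Away (algebraMap O R w) R'] {χ : K →+* R'}
  (hχ : ∀ o, χ (algebraMap O K o) = algebraMap R R' (algebraMap O R o))

variable (w) in
include w hβ he hχ in
/-- Relations in the generic fibre hold at every point of `B`. -/
theorem ev_eq (φ : B →ₐ[O] R) {P : MvPolynomial ν K} {b : B} (h : β b = Ideal.Quotient.mk _ P) :
    eval₂ χ (fun j => algebraMap R R' (φ (e j))) P = algebraMap R R' (φ b) := by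
  have hO (o : O) : β (algebraMap O B o) = Ideal.Quotient.mk _ (C (algebraMap O K o)) :=
    β.commutes o
  have key (P : MvPolynomial ν K) : ∃ (N : ℕ) (b : B),
      β b = β (algebraMap O B w) ^ N * Ideal.Quotient.mk _ P ∧ algebraMap R R' (φ b) =
        algebraMap R R' (algebraMap O R w) ^ N * eval₂ χ (fun j => algebraMap R R' (φ (e j))) P := by
    induction P using MvPolynomial.induction_on with
    | C a =>
      obtain ⟨N, o, h⟩ := IsLocalization.Away.surj w a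
      refine ⟨N, algebraMap O B o, ?_, ?_⟩
      · rw [hO, hO, ← h, map_mul, map_mul, map_pow, map_pow, mul_comm]
      · rw [φ.commutes, ← hχ, ← hχ, ← h, map_mul, map_pow, eval₂_C, mul_comm]
    | add p q hp hq =>
      obtain ⟨N, b, h1, h2⟩ := hp
      obtain ⟨N', b', h1', h2'⟩ := hq
      refine ⟨N + N', algebraMap O B w ^ N' * b + algebraMap O B w ^ N * b', ?_, ?_⟩
      · simp only [map_add, map_mul, map_pow, h1, h1']
        ring
      · simp only [map_add, map_mul, map_pow, h2, h2', φ.commutes, eval₂_add]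
        ring
    | mul_X p j hp =>
      obtain ⟨N, b, h1, h2⟩ := hp
      refine ⟨N, b * e j, ?_, ?_⟩
      · rw [map_mul, h1, he, map_mul, mul_assoc]
      · rw [map_mul, map_mul, h2, eval₂_mul, eval₂_X, mul_assoc]
  obtain ⟨N, b', h1, h2⟩ := key P
  rw [← h, ← map_pow, ← map_mul] at h1
  rw [hβ h1, map_mul, map_mul, map_pow, map_pow, φ.commutes] at h2
  exact (((IsLocalization.Away.algebraMap_isUnit (algebraMap O R w)).pow N).mul_left_cancel h2).symm

omit [IsLocalization.Away w K] in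
include he hc hχ in
/-- Points of `B` from points of the generic fibre. -/
theorem desc (hB : Algebra.adjoin O (Set.range e ∪ Set.range c) = ⊤)
    (hw : algebraMap O R w ∈ nonZeroDivisors R) (z : ν → R) (d : ι → R)
    (hz : ∀ i, eval₂ χ (fun j => algebraMap R R' (z j)) (g i) = 0)
    (hd : ∀ i, eval₂ χ (fun j => algebraMap R R' (z j)) (γ i) =
      algebraMap R R' (algebraMap O R w ^ k * d i)) :
    ∃ r : B →ₐ[O] R, (∀ j, r (e j) = z j) ∧ ∀ i, r (c i) = d i := by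
  let : Algebra O R' := ((algebraMap R R').comp (algebraMap O R)).toAlgebra
  have : IsScalarTower O R R' := .of_algebraMap_eq fun _ => rfl
  have inj : Injective (IsScalarTower.toAlgHom O R R') :=
    IsLocalization.injective R' (M := Submonoid.powers (algebraMap O R w))
      ((Submonoid.powers_le).2 hw)
  let Z₀ : MvPolynomial ν K →ₐ[O] R' :=
    { eval₂Hom χ fun j => algebraMap R R' (z j) with
      commutes' := fun o => (eval₂_C _ _ _).trans (hχ o) }
  let Z₁ : (MvPolynomial ν K ⧸ Ideal.span (Set.range g)) →ₐ[O] R' :=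
    Ideal.Quotient.liftₐ _ Z₀ fun a ha =>
      (Ideal.span_le (I := RingHom.ker Z₀)).2 (Set.range_subset_iff.2 hz) ha
  let Z : B →ₐ[O] R' := Z₁.comp β
  have z1 (j) : Z (e j) = algebraMap R R' (z j) :=
    (congrArg Z₁ (he j)).trans (eval₂_X χ (fun j => algebraMap R R' (z j)) j)
  have z2 (i) : Z (c i) = algebraMap R R' (d i) := by
    have : Z (algebraMap O B w ^ k * c i) = _ :=
      (congrArg Z₁ (hc i)).trans (hd i)
    rw [map_mul, map_mul, map_pow, map_pow, Z.commutes] at this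
    exact ((IsLocalization.Away.algebraMap_isUnit (algebraMap O R w)).pow k).mul_left_cancel this
  have mem (b : B) : Z b ∈ (IsScalarTower.toAlgHom O R R').range := by
    have : (⊤ : Subalgebra O B) ≤ (IsScalarTower.toAlgHom O R R').range.comap Z := by
      rw [← hB]
      refine Algebra.adjoin_le ?_
      rintro _ (⟨j, rfl⟩ | ⟨i, rfl⟩)
      exacts [⟨_, (z1 j).symm⟩, ⟨_, (z2 i).symm⟩]
    exact this trivial
  let r : B →ₐ[O] R := (AlgEquiv.ofInjective _ inj).symm.toAlgHom.comp (Z.codRestrict _ mem)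
  have hr (b) : algebraMap R R' (r b) = Z b :=
    congrArg Subtype.val ((AlgEquiv.ofInjective _ inj).apply_symm_apply ⟨Z b, mem b⟩)
  exact ⟨r, fun j => inj ((hr _).trans (z1 j)), fun i => inj ((hr _).trans (z2 i))⟩

omit [Algebra R R'] [IsLocalization.Away (algebraMap O R w) R'] in
theorem cong (hB : Algebra.adjoin O (Set.range e ∪ Set.range c) = ⊤) (f f' : B →ₐ[O] R)
    (J : Ideal R) (h1 : ∀ j, f (e j) - f' (e j) ∈ J) (h2 : ∀ i, f (c i) - f' (c i) ∈ J) (b : B) :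
    f b - f' b ∈ J := by
  have : (Ideal.Quotient.mkₐ O J).comp f = (Ideal.Quotient.mkₐ O J).comp f' :=
    AlgHom.ext_of_adjoin_eq_top hB (by
      rintro _ (⟨j, rfl⟩ | ⟨i, rfl⟩)
      exacts [Ideal.Quotient.eq.2 (h1 j), Ideal.Quotient.eq.2 (h2 i)])
  exact Ideal.Quotient.eq.1 (DFunLike.congr_fun this b)

end alg

theorem ex_loc {R R' S : Type} [CommRing R] [CommRing R'] [CommRing S] [Algebra R R'] {x : R}
    [IsLocalization.Away x R'] (f : R →+* S) {y : S} (h : f x = y) :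
    ∃ (S' : Type) (_ : CommRing S') (_ : Algebra S S') (_ : IsLocalization.Away y S')
      (f' : R' →+* S'), ∀ r, f' (algebraMap R R' r) = algebraMap S S' (f r) := by
  subst h
  exact ⟨Localization.Away (f x), inferInstance, inferInstance, inferInstance,
    IsLocalization.Away.lift x (g := (algebraMap S _).comp f)
      (IsLocalization.Away.algebraMap_isUnit (f x)), IsLocalization.Away.lift_eq x _⟩

open MvPolynomial in
/-- From points to ring maps. -/
theorem tub {K ν ρ ι : Type} [CommRing K] [Algebra O K] [IsLocalization.Away w K] [Finite ν]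
    [Finite ρ] [Finite ι] (g : ρ → MvPolynomial ν K) (γ : ι → MvPolynomial ν K)
    (hg : Algebra.FormallySmooth K (MvPolynomial ν K ⧸ Ideal.span (Set.range g)))
    (hγ : Algebra.FormallySmooth K (MvPolynomial ν K ⧸ Ideal.span (Set.range (Sum.elim g γ)))) :
    ∃ k₀ : ℕ, ∀ k ≥ k₀, ∀ (B : Type) [CommRing B] [Algebra O B]
      (β : B →ₐ[O] MvPolynomial ν K ⧸ Ideal.span (Set.range g)) (e : ν → B) (c : ι → B),
      Injective β → (∀ j, β (e j) = Ideal.Quotient.mk _ (X j)) →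
      (∀ i, β (algebraMap O B w ^ k * c i) = Ideal.Quotient.mk _ (γ i)) →
      Algebra.adjoin O (Set.range e ∪ Set.range c) = ⊤ →
      algebraMap O B w ∈ nonZeroDivisors B ∧ Tub w c := by
  refine (tuba O K w ν ρ ι g γ hg hγ).imp fun k₀ h k hk B _ _ β e c hβ he hc hB =>
    ⟨mem_nonZeroDivisors_iff_left.2 fun x hx => hβ ?_, fun R _ _ φ hN hw => ?_⟩
  · obtain this := congrArg β hx
    rw [map_mul, β.commutes, IsScalarTower.algebraMap_apply O K, map_zero] at this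
    rw [map_zero]
    exact (((IsLocalization.Away.algebraMap_isUnit w).map (algebraMap K _)).mul_right_eq_zero).1 this
  obtain ⟨R', _, _, _, χ, hχ⟩ := ex_loc (R' := K) (algebraMap O R) (x := w) rfl
  obtain ⟨z, b0, b1, b2, H⟩ := h k hk R R' χ (fun j => φ (e j)) (fun i => φ (c i)) hχ hN
    (fun i => (ev_eq w hβ he hχ φ (b := 0) ((map_zero β).trans (Ideal.Quotient.eq_zero_iff_mem.2
      (Ideal.subset_span (Set.mem_range_self i))).symm)).trans (by rw [map_zero, map_zero]))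
    fun i => (ev_eq w hβ he hχ φ (hc i)).trans (by rw [map_mul, map_pow, φ.commutes])
  obtain ⟨r, r1, r2⟩ := desc he hc hχ hB hw z (fun _ => 0) b1 fun i =>
    (b2 i).trans (by rw [mul_zero, map_zero])
  refine ⟨r, r2, cong hB r φ _ (fun j => ?_) fun i => ?_, fun S _ _ ψ s hS hw' => ?_⟩
  · rw [r1]
    exact (Ideal.mul_le_inf (b0 j)).2
  · rw [r2, zero_sub]
    exact neg_mem (Ideal.subset_span (Set.mem_range_self i))
  obtain ⟨S', _, _, _, ψ', hψ⟩ := ex_loc (R' := R') ψ.toRingHom (ψ.commutes w)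
  obtain ⟨u, u', u1, u2, u3, u4⟩ := H S S' ψ ψ' s hψ hS
  obtain ⟨L, L1, L2⟩ := desc he hc (χ := ψ'.comp χ) (fun o =>
    (congrArg ψ' (hχ o)).trans ((hψ _).trans (congrArg _ (ψ.commutes o)))) hB hw' u u' u1 u2
  simp only [Ideal.mem_span_singleton'] at u3 u4
  choose a ha using u3
  choose a' ha' using u4
  refine ⟨L, cong hB L (ψ.comp φ) _ (fun j => ?_) fun i => ?_,
    cong hB L (ψ.comp r) _ (fun j => ?_) fun i => ?_⟩ <;>
    rw [Ideal.mem_span_singleton', AlgHom.comp_apply]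
  · exact ⟨ψ (z j) - ψ (φ (e j)) + a j * algebraMap O S w * (s - 1), by
      rw [L1]; linear_combination ha j⟩
  · exact ⟨a' i * algebraMap O S w * (s - 1) - ψ (φ (c i)), by rw [L2]; linear_combination ha' i⟩
  · exact ⟨ψ (z j) - ψ (φ (e j)) + a j * algebraMap O S w * s, by
      rw [L1, r1]; linear_combination ha j⟩
  · exact ⟨a' i * algebraMap O S w * s - ψ (φ (c i)), by
      rw [L2, r2, map_zero]; linear_combination ha' i⟩

end Pool.Agent.MP_855f4c_ag.T.Tubc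

end
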