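import Pool.Agent.MP_855f4c_ag.TC.Te
import Pool.Agent.MP_855f4c_ag.AC.Ab
import Pool.Agent.MP_855f4c_ag.AC.Aa
import Pool.Agent.MP_855f4c_ag.AC.Ac
import Pool.Agent.MP_855f4c_ag.EC.Dg

set_option linter.all false

section

/-! h14a: definitions and statements without cohomology. -/

set_option autoImplicit false

open MvPolynomial AlgebraicGeometry

namespace Pool.Agent.MP_855f4c_ag.A

open E E3 T

/-- Indices of the second system of coordinates. -/
abbrev NV (ν J : Type) : Type := J ⊕ ν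

/-- Entries of the two idempotent matrices. -/
abbrev EW (ν J : Type) : Type := (ν × ν) ⊕ (NV ν J × NV ν J)

/-- The valuation ring. -/
noncomputable abbrev VV (p : ℕ) [Fact p.Prime] : ValuationSubring (PadicAlgCl p) :=
  (Valued.v : Valuation (PadicAlgCl p) NNReal).valuationSubring

section
variable {ν J ρ K Ω D : Type} [Fintype ν] [Fintype J] [CommRing K] [CommRing Ω] [CommRing D]

/-- A column of the first matrix. -/
def cw {D : Type} (w : EW ν J → D) (i : ν) : ν → D := fun k => w (.inl (k, i))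

/-- The second system of coordinates. -/
noncomputable def yv (G : J → MvPolynomial ν K) (r : ℕ) (c : K) : NV ν J → MvPolynomial ν K :=
  Sum.elim (fun j => C c * G j) fun i => X i ^ r

/-- The equations of the double model. -/
def JQ (χ : K →+* D) (g : ρ → MvPolynomial (ν × ν) K) (y : NV ν J → MvPolynomial ν K)
    (w : EW ν J → D) : Prop :=
  (∀ j, eval₂ χ (w ∘ .inl) (g j) = 0) ∧ YJ.RK (w ∘ .inr) ∧ ∀ a b c i,
    w (.inr (a, b)) * eval₂ χ (cw w i) (y c) = w (.inr (c, b)) * eval₂ χ (cw w i) (y a)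

/-- Indices of these equations. -/
abbrev RW (ρ ν J : Type) : Type :=
  ρ ⊕ Option (NV ν J × NV ν J × NV ν J × NV ν J) ⊕ NV ν J × NV ν J × NV ν J × ν

/-- The equations as polynomials. -/
noncomputable def jq (g : ρ → MvPolynomial (ν × ν) K) (y : NV ν J → MvPolynomial ν K) :
    RW ρ ν J → MvPolynomial (EW ν J) K
  | .inl j => rename .inl (g j)
  | .inr (.inl none) => ∑ a, X (.inr (a, a)) - 1
  | .inr (.inl (some (k, l, m, n))) =>
      X (.inr (k, l)) * X (.inr (m, n)) - X (.inr (k, n)) * X (.inr (m, l))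
  | .inr (.inr (a, b, c, i)) => X (.inr (a, b)) * rename (fun k => .inl (k, i)) (y c) -
      X (.inr (c, b)) * rename (fun k => .inl (k, i)) (y a)

theorem jq_iff (χ : K →+* D) (g : ρ → MvPolynomial (ν × ν) K) (y : NV ν J → MvPolynomial ν K)
    (w : EW ν J → D) : (∀ t, eval₂ χ w (jq g y t) = 0) ↔ JQ χ g y w := by
  have e : ∀ i, (w ∘ fun k => Sum.inl (k, i)) = cw w i := fun _ => rfl
  constructor
  · intro h
    refine ⟨fun j => by simpa [jq, eval₂_rename] using h (.inl j),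
      ⟨by simpa [jq, sub_eq_zero, eval₂_sum] using h (.inr (.inl none)), fun k l m n => by
        simpa [jq, sub_eq_zero] using h (.inr (.inl (some (k, l, m, n))))⟩, fun a b c i => by
      simpa [jq, sub_eq_zero, eval₂_rename, e] using h (.inr (.inr (a, b, c, i)))⟩
  · rintro ⟨h1, ⟨h2, h3⟩, h4⟩ (j | (_ | ⟨k, l, m, n⟩) | ⟨a, b, c, i⟩)
    · simpa [jq, eval₂_rename] using h1 j
    · simpa [jq, sub_eq_zero, eval₂_sum] using h2
    · simpa [jq, sub_eq_zero] using h3 k l m n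
    · simpa [jq, sub_eq_zero, eval₂_rename, e] using h4 a b c i

/-- The double model over `Ω`. -/
abbrev JW (τ : K →+* Ω) (g : ρ → MvPolynomial (ν × ν) K) (y : NV ν J → MvPolynomial ν K) : Type :=
  MvPolynomial (EW ν J) Ω ⧸ Ideal.span (Set.range fun t => map τ (jq g y t))

variable (τ : K →+* Ω) (g : ρ → MvPolynomial (ν × ν) K) (y : NV ν J → MvPolynomial ν K)

/-- The universal point. -/
noncomputable def wJ : EW ν J → JW τ g y := fun v => Ideal.Quotient.mk _ (X v)

/-- The integral model: the subring generated by `β V` and the universal point. -/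
noncomputable def BW {V : Type} [CommRing V] (β : V →+* Ω) : Subring (JW τ g y) :=
  ((Ideal.Quotient.mk _).comp (map β)).range

/-- The universal point of the integral model. -/
noncomputable def wB {V : Type} [CommRing V] (β : V →+* Ω) : EW ν J → BW τ g y β :=
  fun v => ((Ideal.Quotient.mk _).comp (map β)).rangeRestrict (X v)

/-- The structure map of the integral model. -/
noncomputable def bB {V : Type} [CommRing V] (β : V →+* Ω) : V →+* BW τ g y β :=
  ((Ideal.Quotient.mk _).comp (map β)).rangeRestrict.comp C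

/-- The ideal of the rows of the second matrix that belong to the powers of the coordinates. -/
def IH (w : EW ν J → D) : Ideal D :=
  Ideal.span (Set.range fun v : ν × NV ν J => w (.inr (.inr v.1, v.2)))

/-- One minus the partial trace. -/
def TT (w : EW ν J → D) : D := 1 - ∑ i, w (.inr (.inr i, .inr i))

/-- The ideal of the locus where the columns of `e` are multiples of `u`. -/
def IY (e : ν × ν → D) (u : ν → D) : Ideal D :=
  Ideal.span (Set.range fun v : ν × ν × ν => e (v.1, v.2.1) * u v.2.2 - e (v.2.2, v.2.1) * u v.1)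

/-- `z` is the value of the form `P` of weight zero. -/
def Val {κ A : Type} [CommRing A] (e : EV κ → D) (χ : A →+* D) (P : MvPolynomial (XY κ) A)
    (z : D) : Prop :=
  ∀ (D' : Type) [CommRing D'] (ψ : D →+* D') (a : XY κ → D'), emat a = ψ ∘ e →
    ψ z = eval₂ (ψ.comp χ) a P

/-- `t` are the linear forms `ℓ` divided by the coordinate `o`. -/
def Lt {d : ℕ} (ω : Ω →+* D) (e : ν × ν → D) (o : ν) (ℓ : Fin d → ν → Ω) (t : Fin d → D) : Prop :=
  Ideal.span (Set.range fun j => e (o, j)) = ⊤ ∧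
    ∀ a j, t a * e (o, j) = ∑ i, ω (ℓ a i) * e (i, j)

end

/-- The algebraic description of the pair. -/
structure XA {K ν ρ J φ : Type} [Field K] [Fintype ν] (o : ν) (d r : ℕ)
    (g : ρ → MvPolynomial (ν × ν) K) (G : J → MvPolynomial ν K)
    (F : φ → MvPolynomial {k // k ≠ o} K) : Prop where
  r0 : 0 < r
  hom : ∀ j, (G j).IsHomogeneous r
  fs : Algebra.FormallySmooth K (MvPolynomial (ν × ν) K ⧸ Ideal.span (Set.range g))
  rk : ∀ (D : Type) [CommRing D] (χ : K →+* D) (z : ν × ν → D), (∀ j, eval₂ χ z (g j) = 0) → YJ.RK z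
  sm : SmoothOfRelativeDimension d
    (spc (algebraMap K (MvPolynomial {k // k ≠ o} K ⧸ Ideal.span (Set.range F))))
  chart : ∀ (L : Type) [Field L] (χ : K →+* L) (v μ : ν → L) (t : {k // k ≠ o} → L), Cov v μ →
    (∀ k : {k // k ≠ o}, v k = v o * t k) →
    ((∀ j, eval₂ χ (fun p : ν × ν => v p.1 * μ p.2) (g j) = 0) ↔ ∀ i, eval₂ χ t (F i) = 0)
  van : ∀ (L : Type) [Field L] (χ : K →+* L) (v μ : ν → L), Cov v μ →
    (∀ j, eval₂ χ (fun p : ν × ν => v p.1 * μ p.2) (g j) = 0) →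
    ((∀ j, eval₂ χ v (G j) = 0) ↔ v o = 0)

section
variable {ν J ρ K Ω : Type} [Fintype ν] [Fintype J] [Field K] [Field Ω]

/-- The matrices `q λ^T` and `q' λ'^T`. -/
noncomputable def wp {R : Type} [CommRing R] (q lam : ν → R) (q' lam' : NV ν J → R) : EW ν J → R :=
  Sum.elim (fun v => q v.1 * lam v.2) fun v => q' v.1 * lam' v.2

/-- The index set of the regular sequences. -/
abbrev BI (d : ℕ) (β : Type) (c : ℕ) : Type := Fin d ⊕ β ⊕ Fin c

/-- The data on a product of projective lines. -/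
structure WD (τ : K →+* Ω) (g : ρ → MvPolynomial (ν × ν) K) (y : NV ν J → MvPolynomial ν K)
    {d : ℕ} (u : ν → Ω) (ℓ : Fin d → ν → Ω) (o : ν) (κ β : Type) [Fintype κ] [DecidableEq κ]
    [Fintype β] [DecidableEq β] (c : ℕ) where
  f : Fin c → MvPolynomial (XY κ) K
  nf : Fin c → κ → ℤ
  s : β → MvPolynomial (XY κ) K
  ns : β → κ → ℤ
  q : ν → MvPolynomial (XY κ) ℤ
  lam : ν → MvPolynomial (XY κ) ℤ
  m : κ → ℤ
  q' : NV ν J → MvPolynomial (XY κ) ℤ
  lam' : NV ν J → MvPolynomial (XY κ) ℤ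
  m' : κ → ℤ
  eps : MvPolynomial (XY κ) K
  M : ℕ
  t' : BI d β c → MvPolynomial (XY κ) Ω
  n' : BI d β c → κ → ℤ
  Mx : Matrix (BI d β c) (BI d β c) (MvPolynomial (XY κ) Ω)
  hf : ∀ a, Hg (nf a) (f a)
  hs : ∀ t, Hg (ns t) (s t)
  hq : ∀ i, Hg m (q i) ∧ Hg (-m) (lam i)
  hq' : ∀ i, Hg m' (q' i) ∧ Hg (-m') (lam' i)
  he : Hg 0 eps
  ht : ∀ b, Hg (n' b) (t' b)
  hM : ∀ a b, Hg (Sum.elim (fun _ => m) (Sum.elim ns nf) a - n' b) (Mx a b)
  cov : ∀ (D : Type) [CommRing D] (a : XY κ → D), Rel a →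
    Cov (fun i => aeval a (q i)) (fun i => aeval a (lam i)) ∧
      Cov (fun i => aeval a (q' i)) fun i => aeval a (lam' i)
  mat : ∀ (D : Type) [CommRing D] (ω : Ω →+* D) (a : XY κ → D), Rel a → ∀ b,
    Sum.elim (fun k => ∑ i, ω (ℓ k i) * aeval a (q i))
      (Sum.elim (fun t => eval₂ (ω.comp τ) a (s t)) fun k => eval₂ (ω.comp τ) a (f k)) b =
      ∑ b', eval₂ ω a (Mx b b') * eval₂ ω a (t' b')
  h1 : ∀ (L : Type) [Field L] (χ : K →+* L) (a : XY κ → L), Rel a → (∀ k, eval₂ χ a (f k) = 0) →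
    (∀ t, eval₂ χ a (s t) = 0) → eval₂ χ a eps ≠ 0 →
    JQ χ g y (fun v => aeval a (wp q lam q' lam' v)) ∧
      eval₂ χ a eps = TT (fun v => aeval a (wp q lam q' lam' v)) ^ M
  h2 : ∀ (L : Type) [Field L] (ω : Ω →+* L) (a : XY κ → L), Rel a →
    (∀ k, eval₂ (ω.comp τ) a (f k) = 0) → (∀ t, eval₂ (ω.comp τ) a (s t) = 0) →
    eval₂ (ω.comp τ) a eps ≠ 0 → (∀ i k, aeval a (q i) * ω (u k) = aeval a (q k) * ω (u i)) →
    ∀ b, eval₂ ω a (t' b) = 0
  h3 : ∀ (L : Type) [Field L] (ω : Ω →+* L) (a : XY κ → L), Rel a → (∀ b, eval₂ ω a (t' b) = 0) →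
    (∀ i k, aeval a (q i) * ω (u k) = aeval a (q k) * ω (u i)) ∧ eval₂ ω a Mx.det ≠ 0 ∧
      JQ (ω.comp τ) g y (fun v => aeval a (wp q lam q' lam' v)) ∧
      eval₂ (ω.comp τ) a eps = TT (fun v => aeval a (wp q lam q' lam' v)) ^ M
  num : top ((∏ b, lin (n' b)) * ∏ t, lin (ns t)) ≠ 0

/-- The point of the double model. -/
noncomputable def WD.w {τ : K →+* Ω} {g : ρ → MvPolynomial (ν × ν) K}
    {y : NV ν J → MvPolynomial ν K} {d : ℕ} {u : ν → Ω} {ℓ : Fin d → ν → Ω} {o : ν} {κ β : Type}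
    [Fintype κ] [DecidableEq κ] [Fintype β] [DecidableEq β] {c : ℕ} (W : WD τ g y u ℓ o κ β c) :
    EW ν J → MvPolynomial (XY κ) ℤ := wp W.q W.lam W.q' W.lam'

/-- The point `u` is an isolated zero of the linear forms `ℓ`. -/
def Iso {φ : Type} (τ : K →+* Ω) {o : ν} (F : φ → MvPolynomial {k // k ≠ o} K) {d : ℕ} (u : ν → Ω)
    (ℓ : Fin d → ν → Ω) : Prop :=
  ∃ θ : MvPolynomial {k // k ≠ o} Ω, eval (fun k : {k // k ≠ o} => u k) θ ≠ 0 ∧
    ∀ (L : Type) [Field L] (ω : Ω →+* L) (t : {k // k ≠ o} → L) (v : ν → L), v o = 1 →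
      (∀ k : {k // k ≠ o}, v k = t k) → (∀ i, eval₂ (ω.comp τ) t (F i) = 0) → eval₂ ω t θ ≠ 0 →
      (∀ a, ∑ i, ω (ℓ a i) * v i = 0) → v = ω ∘ u

end

/-! ### Section 2 -/

/-- The double model is formally smooth. -/
def JFS_s : Prop := ∀ (K ν ρ J : Type) [Field K] [Fintype ν] [Fintype J] [Finite ρ]
  (g : ρ → MvPolynomial (ν × ν) K) (G : J → MvPolynomial ν K) (r : ℕ) (c : K),
    (∀ j, (G j).IsHomogeneous r) →
    Algebra.FormallySmooth K (MvPolynomial (ν × ν) K ⧸ Ideal.span (Set.range g)) →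
    (∀ (D : Type) [CommRing D] (χ : K →+* D) (z : ν × ν → D), (∀ j, eval₂ χ z (g j) = 0) →
      YJ.RK z) →
    Algebra.FormallySmooth K
      (MvPolynomial (EW ν J) K ⧸ Ideal.span (Set.range (jq g (yv G r c))))

/-- The integral model: generic fibre, maps out of it. -/
def MOD_s : Prop := ∀ (K Ω V ν ρ J : Type) [CommRing K] [CommRing Ω] [CommRing V] [Algebra V Ω]
  [Fintype ν] [Fintype J] (ϖ : V) [IsLocalization.Away ϖ Ω] (τ : K →+* Ω)
  (g : ρ → MvPolynomial (ν × ν) K) (y : NV ν J → MvPolynomial ν K),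
    IsLocalization.Away (bB τ g y (algebraMap V Ω) ϖ) (JW τ g y) ∧
    JQ ((algebraMap Ω (JW τ g y)).comp τ) g y (wJ τ g y) ∧
    (∀ v, (wB τ g y (algebraMap V Ω) v : JW τ g y) = wJ τ g y v) ∧
    (∀ a, (bB τ g y (algebraMap V Ω) a : JW τ g y) = algebraMap Ω _ (algebraMap V Ω a)) ∧
    ∀ (B D : Type) [CommRing B] [CommRing D] (ι : B →+* D) (β : V →+* B) (ω : Ω →+* D)
      (z : EW ν J → B), Function.Injective ι → ι.comp β = ω.comp (algebraMap V Ω) →
      JQ (ω.comp τ) g y (ι ∘ z) →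
      ∃ (r : BW τ g y (algebraMap V Ω) →+* B) (r' : JW τ g y →+* D),
        r.comp (bB τ g y (algebraMap V Ω)) = β ∧ (∀ v, r (wB τ g y (algebraMap V Ω) v) = z v) ∧
        r'.comp (algebraMap Ω _) = ω ∧ (∀ v, r' (wJ τ g y v) = ι (z v)) ∧
        r'.comp (BW τ g y (algebraMap V Ω)).subtype = ι.comp r

/-- On the fibre over `u` the rows of the second matrix are proportional. -/
def YC_s : Prop := ∀ (K Ω L ν ρ J : Type) [Field K] [Field Ω] [Field L] [Fintype ν] [Fintype J]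
  (τ : K →+* Ω) (ω : Ω →+* L) (g : ρ → MvPolynomial (ν × ν) K) (y : NV ν J → MvPolynomial ν K)
  (r : ℕ) (u : ν → Ω) (w : EW ν J → L) (a b : NV ν J) (c : Ω), (∀ a, (y a).IsHomogeneous r) →
    u ≠ 0 → YJ.RK (w ∘ .inl) → JQ (ω.comp τ) g y w → IY (w ∘ .inl) (ω ∘ u) = ⊥ →
    eval₂ τ u (y a) ≠ 0 → eval₂ τ u (y b) = c * eval₂ τ u (y a) →
    ∀ k, w (.inr (b, k)) = ω c * w (.inr (a, k))

/-- A neighbourhood of the fibre over `u` on which the linear forms cut it out. -/
def LOCJ_s : Prop := ∀ (K Ω ν ρ J φ : Type) [Field K] [Field Ω] [Fintype ν] [Fintype J] (o : ν)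
  (d r : ℕ) (τ : K →+* Ω) (g : ρ → MvPolynomial (ν × ν) K) (G : J → MvPolynomial ν K)
  (F : φ → MvPolynomial {k // k ≠ o} K) (y : NV ν J → MvPolynomial ν K) (u : ν → Ω)
  (ℓ : Fin d → ν → Ω), XA o d r g G F → u o = 1 → Iso τ F u ℓ →
    ∃ θ : JW τ g y, IY (wJ τ g y ∘ .inl) (algebraMap Ω _ ∘ u) ⊔ Ideal.span {θ} = ⊤ ∧
      ∃ t : Fin d → Localization.Away θ,
        Lt ((algebraMap _ _).comp (algebraMap Ω (JW τ g y)))
          (algebraMap _ (Localization.Away θ) ∘ wJ τ g y ∘ .inl) o ℓ t ∧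
        (IY (wJ τ g y ∘ .inl) (algebraMap Ω _ ∘ u)).map (algebraMap _ (Localization.Away θ)) ≤
          (Ideal.span (Set.range t)).radical

/-! ### Section 4 -/

def WP_s : Prop := ∀ (p : ℕ) [Fact p.Prime] (K ν ρ J φ : Type) [Field K]
  [Algebra K (PadicAlgCl p)] [Fintype ν] [Fintype J] [Finite ρ] [Finite φ] (o : ν) (d r : ℕ)
  (g : ρ → MvPolynomial (ν × ν) K) (G : J → MvPolynomial ν K)
  (F : φ → MvPolynomial {k // k ≠ o} K) (c₀ : K) (u : ν → PadicAlgCl p), XA o d r g G F → c₀ ≠ 0 →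
    u o = 1 → (∀ i, aeval (fun k : {k // k ≠ o} => u k) (F i) = 0) →
    ∃ (ℓ : Fin d → ν → PadicAlgCl p) (κ β : Type) (_ : Fintype κ) (_ : DecidableEq κ)
      (_ : Fintype β) (_ : DecidableEq β) (c : ℕ) (e : Fin c → κ → ℕ) (cf : MI e → K)
      (W : WD (algebraMap K (PadicAlgCl p)) g (yv G r c₀) u ℓ o κ β c),
      Iso (algebraMap K (PadicAlgCl p)) F u ℓ ∧ (∀ i, ‖algebraMap K (PadicAlgCl p) (cf i)‖ ≤ 1) ∧
      ∀ a, (W.nf a = fun k => (e a k : ℤ)) ∧ W.f a = gen (fun i => C (cf i)) a fun v => X (.inl v)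

/-! ### Section 5 -/

def OPR2_s : Prop := ∀ (p l : ℕ) [Fact p.Prime] [Fact l.Prime], l ≠ p →
  ∀ (K : Type) [Field K] [Algebra K (PadicAlgCl p)] (φ u : PadicAlgCl p ≃ₐ[K] PadicAlgCl p) (Q : ℕ)
    (E : Finset (PadicAlgCl p)), 1 < Q → LP.Frob ℤ_[p] Q φ → LP.Frob ℤ_[p] 1 u →
    (∃ (n : ℕ) (r : PadicAlgCl p) (o : ℤ_[p]), r ^ l ^ n = algebraMap _ _ o ∧ u r ≠ r) →
    (∀ z ∈ E, ‖z‖ ≤ 1) → ∃ (m : ℕ) (O : Subring (PadicAlgCl p))
      (σ υ : PadicAlgCl p ≃ₐ[O] PadicAlgCl p), 0 < m ∧ (∀ z ∈ O, ‖z‖ ≤ 1) ∧ (∀ z ∈ E, z ∈ O) ∧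
      (∀ o : ℤ_[p], algebraMap _ (PadicAlgCl p) o ∈ O) ∧
      (∀ x : K, ‖algebraMap K (PadicAlgCl p) x‖ ≤ 1 → algebraMap K _ x ∈ O) ∧
      (∀ z, σ z = (φ ^ m) z) ∧ (∀ z, υ z = (u ^ m) z) ∧ LP.Frob ℤ_[p] (Q ^ m) σ ∧
      LP.Frob ℤ_[p] 1 υ ∧
      (∃ (n : ℕ) (r : PadicAlgCl p) (o : ℤ_[p]), r ^ l ^ n = algebraMap _ _ o ∧ υ r ≠ r) ∧
      Tw l (σ : PadicAlgCl p →+* PadicAlgCl p) (Q ^ m) ∧
      Tw l (υ : PadicAlgCl p →+* PadicAlgCl p) 1 ∧ ValuationRing O ∧
      (∀ z, ‖σ z‖ = ‖z‖) ∧ ∀ z, ‖υ z‖ = ‖z‖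

/-- The rings of the tube: `C` is the quotient of `C₀` by `I`, `P` is an integral model of `C`,
`H` its henselisation along the good locus and `R` the generic fibre of `H`. -/
structure CP {ν J ρ K κ : Type} [Fintype ν] [Fintype J] [CommRing K] (p : ℕ)
    (g : ρ → MvPolynomial (ν × ν) K) (y : NV ν J → MvPolynomial ν K)
    (w : EW ν J → MvPolynomial (XY κ) ℤ) (ε : MvPolynomial (XY κ) K)
    {C₀ : Type} [CommRing C₀] (χ : K →+* C₀) (e : EV κ → C₀) (τ : C₀) (I : Ideal C₀)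
    (C P H R : Type) [CommRing C] [CommRing P] [CommRing H] [CommRing R] [Algebra C₀ C]
    [Algebra P C] [Algebra P H] [Algebra H R] [Algebra C R] (wP : EW ν J → P) (eps : P)
    (nn : Ideal P) (z : EW ν J → H) : Prop where
  sur : Function.Surjective (algebraMap C₀ C)
  ker : RingHom.ker (algebraMap C₀ C) = I
  loc : IsLocalization.Away (p : P) C
  loc₁ : IsLocalization.Away (p : H) R
  sq : (algebraMap C R).comp (algebraMap P C) = (algebraMap H R).comp (algebraMap P H)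
  inj : Function.Injective (algebraMap H R)
  hp : T.HP P (Ideal.span {(p : P)})
  hp₁ : T.HP H (Ideal.span {(p : H)})
  ind : IndEt P H
  qiso : QIso P H (Ideal.span {(p : P), eps - 1} ⊔ IH wP)
  unit : IsUnit (algebraMap P H eps)
  wval : ∀ v, Val (algebraMap C₀ C ∘ e) (Int.castRingHom C) (w v) (algebraMap P C (wP v))
  eval : Val (algebraMap C₀ C ∘ e) ((algebraMap C₀ C).comp χ) ε (algebraMap P C eps)
  jq : JQ ((algebraMap C R).comp ((algebraMap C₀ C).comp χ)) g y (algebraMap H R ∘ z)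
  hnn : nn = (Ideal.span {algebraMap C₀ C τ - 1}).radical.comap (algebraMap P C)
  zw : ∀ v, z v - algebraMap P H (wP v) ∈ nn.map (algebraMap P H)
  rz : (Ideal.span {(p : P), eps - 1} ⊔ IH wP).map (algebraMap P H) ≤
    (Ideal.span {(p : H)} ⊔ IH z).radical

/-- The interpolation between the approximation and the original equation. -/
noncomputable def ft {κ D : Type} [Fintype κ] [DecidableEq κ] [CommRing D] {c : ℕ}
    {e e' : Fin c → κ → ℕ} (c₀ : MI e → D) (c' : MI e' → D) (A B : ℕ) (τ : D) (a : Fin c) :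
    MvPolynomial (XY κ) D :=
  gen (fun i => C (c' i)) a (fun v => X (.inl v)) ^ A +
    C τ * (gen (fun i => C (c₀ i)) a (fun v => X (.inl v) ^ B) -
      gen (fun i => C (c' i)) a (fun v => X (.inl v)) ^ A)

/-- The base ring of the tube. -/
abbrev JT (κ O : Type) [Fintype κ] [DecidableEq κ] [CommRing O] : Type :=
  MvPolynomial Unit (JB (noEq κ O))

def CS_s : Prop := ∀ (p : ℕ) [Fact p.Prime] (K ν ρ J κ β : Type) [Field K]
  [Algebra K (PadicAlgCl p)] [Fintype ν] [Fintype J] [Finite ρ] [Fintype κ] [DecidableEq κ]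
  [Fintype β] [DecidableEq β] (o : ν) (d c : ℕ) (g : ρ → MvPolynomial (ν × ν) K)
  (y : NV ν J → MvPolynomial ν K) (u : ν → PadicAlgCl p) (ℓ : Fin d → ν → PadicAlgCl p)
  (e : Fin c → κ → ℕ) (cf : MI e → K) (W : WD (algebraMap K (PadicAlgCl p)) g y u ℓ o κ β c),
    Algebra.FormallySmooth K (MvPolynomial (EW ν J) K ⧸ Ideal.span (Set.range (jq g y))) →
    (∀ i, ‖algebraMap K (PadicAlgCl p) (cf i)‖ ≤ 1) →
    (∀ a, (W.nf a = fun k => (e a k : ℤ)) ∧
      W.f a = gen (fun i => C (cf i)) a fun v => X (.inl v)) →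
    ∃ r : ℕ, ∀ Δ : MvPolynomial (MI fun a k => p ^ r * e a k) ℤ,
      map (Int.castRingHom (ZMod p)) Δ ≠ 0 → ∀ ε : ℝ, ε < 1 →
      ∃ (N : ℕ) (E : Finset (PadicAlgCl p))
        (W' : WD (algebraMap K (PadicAlgCl p)) g y u ℓ o κ β c), r < N ∧ (∀ z ∈ E, ‖z‖ ≤ 1) ∧
        (∀ a, (W'.nf a = fun k => ((p ^ N * e a k : ℕ) : ℤ)) ∧
          W'.f a = gen (fun i => C (cf i)) a fun v => X (.inl v) ^ p ^ N) ∧
        ∀ O : Subring (PadicAlgCl p), (∀ z ∈ E, z ∈ O) →
          (∀ x : K, ‖algebraMap K (PadicAlgCl p) x‖ ≤ 1 → algebraMap K _ x ∈ O) →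
          ∃ (c₀ : MI e → O) (c' : (MI fun a k => p ^ r * e a k) → O),
            (∀ i, (c₀ i : PadicAlgCl p) = algebraMap K _ (cf i)) ∧
            ε < ‖aeval (fun i => (c' i : PadicAlgCl p)) Δ‖ ∧
            ∀ (B C₀ : Type) [CommRing B] [CommRing C₀] [Algebra (JT κ O) B] [Algebra O B]
              [IsScalarTower O (JT κ O) B] [Algebra B C₀] [Algebra O C₀] [IsScalarTower O B C₀]
              [IsLocalization.Away (p : B) C₀] (χ : K →+* C₀), IndEt (JT κ O) B →
              Hens B (Ideal.span {(p : B)}) →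
              (∀ (x : K) (a : O), algebraMap K _ x = (a : PadicAlgCl p) →
                χ x = algebraMap O C₀ a) →
              ∀ (e₀ : EV κ → C₀) (τ : C₀) (If : Fin c → Ideal C₀) (Is : β → Ideal C₀),
                e₀ = algebraMap B C₀ ∘ algebraMap (JT κ O) B ∘ C ∘ je (noEq κ O) →
                τ = algebraMap B C₀ (algebraMap (JT κ O) B (X ())) →
                (∀ a, (If a).FG ∧ Zer e₀ (ft (algebraMap O C₀ ∘ c₀) (algebraMap O C₀ ∘ c')
                  (p ^ (N - r)) (p ^ N) τ a) (If a)) →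
                (∀ t, (Is t).FG ∧ Zer e₀ (map χ (W'.s t)) (Is t)) →
                ∃ (C P H R : Type) (_ : CommRing C) (_ : CommRing P) (_ : CommRing H)
                  (_ : CommRing R) (_ : Algebra C₀ C) (_ : Algebra P C) (_ : Algebra P H)
                  (_ : Algebra H R) (_ : Algebra C R) (_ : Algebra O C) (_ : Algebra O P)
                  (_ : IsScalarTower O C₀ C) (_ : IsScalarTower O P C) (wP : EW ν J → P) (eps : P)
                  (nn : Ideal P) (z : EW ν J → H),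
                  CP p g y W'.w W'.eps χ e₀ τ (∑ a, If a + ∑ t, Is t) C P H R wP eps nn z

end Pool.Agent.MP_855f4c_ag.A

end

section

/-! h14a, row LOCJ (helper82). -/

set_option autoImplicit false

open MvPolynomial

namespace Pool.Agent.MP_855f4c_ag.A

open E E3 T

theorem locj : LOCJ_s := by
  intro K Ω ν ρ J φ _ _ _ _ o d r τ g G F y u ℓ xa u1 ⟨θ₀, h0, h⟩
  let R := JW τ g y
  let α := algebraMap Ω R
  let e : ν × ν → R := wJ τ g y ∘ .inl
  have ge : ∀ j, eval₂ (α.comp τ) e (g j) = 0 := fun j => by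
    have : eval₂Hom (α.comp τ) e = ((Ideal.Quotient.mk _).comp (map τ)).comp
        (rename Sum.inl : MvPolynomial (ν × ν) K →ₐ[K] MvPolynomial (EW ν J) K) :=
      MvPolynomial.ringHom_ext (fun c => by simp [α]; rfl) fun k => by simp [e, wJ]
    exact (DFunLike.congr_fun this _).trans
      (Ideal.Quotient.eq_zero_iff_mem.2 (Ideal.subset_span ⟨.inl j, rfl⟩))
  have rk := xa.rk R _ e ge
  let z : ν → R := fun k => ∑ l, e (k, l) * α (u l)
  have ze : ∀ i j, z i * e (o, j) = z o * e (i, j) := fun i j => by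
    refine (Finset.sum_mul _ _ _).trans (Eq.trans (Finset.sum_congr rfl fun l _ => ?_)
      (Finset.sum_mul _ _ _).symm)
    rw [mul_right_comm, rk.2, mul_comm (e (i, j)), mul_right_comm]
  let θ := z o * eval₂ α z (Ekd.hom Subtype.val o θ₀.totalDegree θ₀)
  have val : ∀ (D : Type) [CommRing D] (ψ : R →+* D) (t : {k // k ≠ o} → D),
      (∀ k : {k // k ≠ o}, ψ (z k) = ψ (z o) * t k) →
      ψ θ = ψ (z o) ^ (θ₀.totalDegree + 1) * eval₂ (ψ.comp α) t θ₀ := fun D _ ψ t ht => by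
    rw [map_mul, eval₂_comp_left, Ekd.hom_eval _ o le_rfl _ (v := ψ ∘ z) ht, pow_succ', mul_assoc]
    rfl
  refine ⟨θ, ?_, ?_⟩
  · let π := Ideal.Quotient.mk (IY e (α ∘ u))
    have a1 : ∀ i j, π (e (i, j)) = π (e (o, j)) * π (α (u i)) := fun i j => by
      have := (Ideal.Quotient.mk_eq_mk_iff_sub_mem (I := IY e (α ∘ u)) _ _).2
        (Ideal.subset_span ⟨(i, j, o), rfl⟩)
      simpa only [Function.comp_apply, u1, map_one, mul_one, map_mul] using this
    have a2 : π (z o) = 1 := by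
      rw [← map_one π, ← rk.1, map_sum, map_sum]
      exact Finset.sum_congr rfl fun l _ => by rw [map_mul, ← a1]
    have a3 : ∀ k, π (z k) = π (z o) * π (α (u k)) := fun k => by
      rw [map_sum, map_sum, Finset.sum_mul]
      exact Finset.sum_congr rfl fun l _ => by rw [map_mul, map_mul, a1 k, mul_right_comm]
    have a4 : π θ = π (α (eval (fun k : {k // k ≠ o} => u k) θ₀)) := by
      rw [val _ π (fun k => π (α (u k))) fun k => a3 k, a2, one_pow, one_mul]
      exact ((eval₂_comp_left (π.comp α) (RingHom.id Ω) _ θ₀).trans rfl).symm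
    refine Ideal.eq_top_of_isUnit_mem _ ?_ (h0.isUnit.map α)
    rw [← sub_add_cancel (α _) θ]
    exact add_mem (Ideal.mem_sup_left (Ideal.Quotient.eq.1 a4.symm))
      (Ideal.mem_sup_right (Ideal.mem_span_singleton_self θ))
  · let L := Localization.Away θ
    let β := algebraMap R L
    have uθ : IsUnit (β θ) := IsLocalization.Away.algebraMap_isUnit θ
    obtain ⟨w, hw⟩ := (isUnit_of_mul_isUnit_left (map_mul β _ _ ▸ uθ)).exists_right_inv
    have ee : ∀ i j, β (e (i, j)) = β (z i) * w * β (e (o, j)) := fun i j => by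
      rw [mul_right_comm, ← map_mul, ze, map_mul, mul_right_comm, hw, one_mul]
    refine ⟨fun a => ∑ i, β (α (ℓ a i)) * (β (z i) * w), ⟨?_, fun a j => ?_⟩, ?_⟩
    · rw [Ideal.eq_top_iff_one, ← hw, map_sum]
      exact Ideal.mul_mem_right _ _ (Ideal.sum_mem _ fun l _ => by
        rw [map_mul]; exact Ideal.mul_mem_right _ _ (Ideal.subset_span ⟨l, rfl⟩))
    · rw [Finset.sum_mul]
      exact Finset.sum_congr rfl fun i _ => (mul_assoc _ _ _).trans (congrArg _ (ee i j).symm)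
    · rw [Ideal.map_le_iff_le_comap, IY, Ideal.span_le]
      rintro _ ⟨⟨i, j, k⟩, rfl⟩
      rw [SetLike.mem_coe, Ideal.mem_comap, Ideal.radical_eq_sInf, Submodule.mem_sInf]
      rintro (P : Ideal L) ⟨hP, hp⟩
      let ψ := algebraMap L P.ResidueField
      let v : ν → P.ResidueField := fun i => ψ (β (z i) * w)
      have v1 : v o = 1 := by simp only [v, hw, map_one]
      have ev : ∀ i j, ψ (β (e (i, j))) = v i * ψ (β (e (o, j))) := fun i j => by
        rw [ee i j, map_mul]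
      have zv : ∀ i, ψ (β (z i)) = ψ (β (z o)) * v i := fun i => by
        rw [← map_mul, mul_left_comm, hw, mul_one]
      have key : v = ((ψ.comp β).comp α) ∘ u := h _ _ (fun k => v k) v v1 (fun _ => rfl)
        ((xa.chart _ _ v (fun j => ψ (β (e (o, j)))) _ (by
          refine Eq.trans ?_ (rk.map (ψ.comp β)).1
          exact Finset.sum_congr rfl fun l _ => (mul_comm _ _).trans (ev l l).symm)
          fun k => by rw [v1, one_mul]).1 fun j => by
            have := eval₂_comp_left (ψ.comp β) (α.comp τ) e (g j)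
            rw [ge, map_zero] at this
            rw [this]
            congr 1
            exact funext fun p => (ev p.1 p.2).symm)
        (fun c => by
          have := val _ (ψ.comp β) (fun k => v k) fun k => zv k
          rw [c, mul_zero] at this
          exact (uθ.map ψ).ne_zero this)
        fun a => by
          have := Ideal.algebraMap_residueField_eq_zero.2 (hP (Ideal.subset_span ⟨a, rfl⟩))
          rw [map_sum] at this
          exact (Finset.sum_congr rfl fun i _ => (map_mul ψ _ _).symm).trans this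
      rw [← Ideal.algebraMap_residueField_eq_zero]
      change ψ (β (e (i, j) * α (u k) - e (k, j) * α (u i))) = 0
      rw [map_sub, map_sub, map_mul, map_mul, map_mul, map_mul, ev i, ev k, key]
      simp only [Function.comp_apply, RingHom.comp_apply]
      ring

end Pool.Agent.MP_855f4c_ag.A

end

section

/-! h14a, section 4: blocks of vectors and covectors on a product of lines. -/

set_option autoImplicit false

open MvPolynomial Matrix

namespace Pool.Agent.MP_855f4c_ag.A.Wp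

open E E3 T

/-- The weights of the coordinates. -/
def wv {κ : Type} [DecidableEq κ] : XV κ → κ → ℤ := fun v => Pi.single v.1 1

/-- A weight with values in `ℕ`. -/
def cz {κ : Type} (e : κ → ℕ) : κ → ℤ := fun k => e k

/-- The blocks. -/
structure BK (ν A κ S : Type) [Fintype ν] [Fintype A] [Fintype κ] [DecidableEq κ] [Fintype S]
    (w c c' : ℕ) where
  q : ν → MvPolynomial (XV κ) ℤ
  z : A → MvPolynomial (XV κ) ℤ
  f : Matrix (Fin c) (Fin w) (MvPolynomial (XV κ) ℤ)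
  g : Matrix (Fin w) (Fin c') (MvPolynomial (XV κ) ℤ)
  lam : ν → MvPolynomial (XY κ) ℤ
  lam' : A → MvPolynomial (XY κ) ℤ
  mu : Matrix (Fin c') (Fin w) (MvPolynomial (XY κ) ℤ)
  s : S → MvPolynomial (XY κ) ℤ
  α : κ → ℕ
  α' : κ → ℕ
  β : Fin c → κ → ℕ
  γ : Fin c' → κ → ℕ
  ns : S → κ → ℤ
  hq : ∀ i, (q i).IsWeightedHomogeneous wv (cz α)
  hz : ∀ i, (z i).IsWeightedHomogeneous wv (cz α')
  hf : ∀ i x, (f i x).IsWeightedHomogeneous wv (cz (β i))
  hg : ∀ x j, (g x j).IsWeightedHomogeneous wv (cz (γ j))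
  hl : ∀ i, Hg (-cz α) (lam i)
  hl' : ∀ i, Hg (-cz α') (lam' i)
  hm : ∀ j x, Hg (-cz (γ j)) (mu j x)
  hs : ∀ t, Hg (ns t) (s t)
  cov : ∀ (D : Type) [CommRing D] (a : XY κ → D), Rel a →
    Cov (fun i => aeval (a ∘ Sum.inl) (q i)) (fun i => aeval a (lam i)) ∧
      Cov (fun i => aeval (a ∘ Sum.inl) (z i)) fun i => aeval a (lam' i)
  tri : ∀ (L : Type) [Field L] (a : XY κ → L), Rel a → (∀ t, aeval a (s t) = 0) →
    LinearIndependent L (f.map (aeval (a ∘ Sum.inl))).row ∧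
      (mu.map (aeval a) * g.map (aeval (a ∘ Sum.inl))).det = 1
  num : ∀ (I A₀ : Type) [Fintype I] [Fintype A₀], Fintype.card I + 1 = Fintype.card ν →
    Fintype.card A₀ + 1 = Fintype.card A →
    top ((∏ b : Mtx.Ix I A₀ (Fin c) (Fin c') S,
      lin (Mtx.nB (cz α) (cz α') (fun i => cz (β i)) (fun j => cz (γ j)) ns b)) *
        ∏ t, lin (ns t)) ≠ 0

def BLK_s : Prop := ∀ (ν A : Type) [Fintype ν] [Fintype A] [Nonempty ν] [Nonempty A] (w c c' : ℕ),
  c + c' = w → ∃ (κ S : Type) (_ : Fintype κ) (_ : DecidableEq κ) (_ : Fintype S)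
    (_ : DecidableEq S), Nonempty (BK ν A κ S w c c')

end Pool.Agent.MP_855f4c_ag.A.Wp

end

section

/-! h14a, section 4 (helper82): the layout of the blocks on a product of projective lines. -/

set_option autoImplicit false

open MvPolynomial Matrix

namespace Pool.Agent.MP_855f4c_ag.A.Wp

open Pool.Agent.MP_855f4c_ag.T Pool.Agent.MP_855f4c_ag.T.Lr Pool.Agent.MP_855f4c_ag.T.Mtx

theorem lay {β : Type} [Fintype β] [DecidableEq β] (k n : β → ℕ) (Y : β → Type)
    [∀ b, Fintype (Y b)] (h : ∀ l : LL k, Fintype.card (Y l.1) = n l.1 + 1) :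
    ∃ (q : ∀ l : LL k, Y l.1 → MvPolynomial (XV (KK k n)) ℤ)
      (lam : ∀ l : LL k, Y l.1 → MvPolynomial (XY (KK k n)) ℤ),
      (∀ l y, (q l y).IsWeightedHomogeneous wv (wφ (Pi.single l 1))) ∧
      (∀ l y, Hg (-wφ (Pi.single l 1)) (lam l y)) ∧
      ∀ (D : Type) [CommRing D] (a : XY (KK k n) → D), Rel a → ∀ l,
        Cov (fun y => aeval (a ∘ Sum.inl) (q l y)) fun y => aeval a (lam l y) := by
  obtain ⟨lam, h1, h2⟩ := icovV k n
  let e := fun l => Fintype.equivFinOfCardEq (h l)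
  refine ⟨fun l y => V X ⟨l, e l y⟩, fun l y => lam ⟨l, e l y⟩,
    fun l y => V_hom wv id (fun _ => rfl) ⟨l, e l y⟩, fun l y => h1 ⟨l, e l y⟩,
    fun D _ a ha l => ?_⟩
  refine Eq.trans ?_ (h2 D a ha l)
  rw [← (e l).sum_comp]
  exact Finset.sum_congr rfl fun y _ => congrArg _
    ((V_map (aeval (a ∘ Sum.inl) : _ →ₐ[ℤ] D).toRingHom _ _).trans
      (congrArg (V · _) (funext fun _ => by simp)))

theorem blk : BLK_s := by
  intro ν A _ _ _ _ w c c' hc
  let k : Bool × Bool → ℕ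
    | (false, _) => 1
    | (true, false) => c
    | (true, true) => c'
  let n : Bool × Bool → ℕ
    | (false, false) => Fintype.card ν - 1
    | (false, true) => Fintype.card A - 1
    | (true, _) => w - 1
  let Y : Bool × Bool → Type
    | (false, false) => ν
    | (false, true) => A
    | (true, _) => Fin w
  let fY : ∀ b, Fintype (Y b)
    | (false, false) => ‹Fintype ν›
    | (false, true) => ‹Fintype A›
    | (true, _) => Fin.fintype w
  obtain ⟨q, lam, h0, h1, h2⟩ := lay k n Y fun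
    | ⟨(false, false), _⟩ => (Nat.sub_add_cancel Fintype.card_pos).symm
    | ⟨(false, true), _⟩ => (Nat.sub_add_cancel Fintype.card_pos).symm
    | ⟨(true, false), i⟩ => (Fintype.card_fin w).trans (by
      have : (i : ℕ) < c := i.2
      change w = w - 1 + 1
      omega)
    | ⟨(true, true), i⟩ => (Fintype.card_fin w).trans (by
      have : (i : ℕ) < c' := i.2
      change w = w - 1 + 1
      omega)
  let u : LL k → KK k n → ℕ := fun l j => (Pi.single l 1 : LL k → ℕ) j.1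
  let l0 : LL k := ⟨(false, false), (0 : Fin 1)⟩
  let l1 : LL k := ⟨(false, true), (0 : Fin 1)⟩
  let lf : Fin c → LL k := fun i => ⟨(true, false), i⟩
  let lg : Fin c' → LL k := fun i => ⟨(true, true), i⟩
  refine ⟨KK k n, Lr.TT k, inferInstance, inferInstance, inferInstance, inferInstance,
    ⟨⟨q l0, q l1, of fun i => q (lf i), of fun x j => q (lg j) x, lam l0, lam l1,
    of fun j => lam (lg j), fun t => ∑ y, lam ⟨t.1, t.2.1⟩ y * aeval (X ∘ Sum.inl) (q ⟨t.1, t.2.2⟩ y),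
    u l0, u l1, fun i => u (lf i), fun j => u (lg j), fun t j => Num.ws t j.1, h0 l0, h0 l1,
    fun i => h0 (lf i), fun x j => h0 (lg j) x, h1 l0, h1 l1, fun j => h1 (lg j),
    fun t => IsWeightedHomogeneous.sum _ _ _ fun y _ => ?_,
    fun D _ a ha => ⟨h2 D a ha l0, h2 D a ha l1⟩, fun D _ a ha hs => ?_,
    fun I A' _ _ hI hA => ?_⟩⟩⟩
  · convert (h1 ⟨t.1, t.2.1⟩ y).mul (G.La.subst wt (AddMonoidHom.id _) (g := X ∘ Sum.inl)
      (fun v => isWeightedHomogeneous_X ℤ wt (.inl v)) (h0 ⟨t.1, t.2.2⟩ y)) using 1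
    funext j
    simp [wφ, Num.ws, Pi.single_apply, neg_add_eq_sub]
  · have ev (P : MvPolynomial (XV (KK k n)) ℤ) :
        aeval a (aeval (X ∘ Sum.inl : _ → MvPolynomial (XY (KK k n)) ℤ) P) =
          aeval (a ∘ Sum.inl) P := by
      rw [← AlgHom.comp_apply, comp_aeval]
      exact congrArg (aeval · P) (funext fun v => aeval_X _ _)
    have tri (b) : _root_.T.Ptl.Tri (fun (i : Fin (k b)) (y : Y b) => aeval a (lam ⟨b, i⟩ y))
        fun i y => aeval (a ∘ Sum.inl) (q ⟨b, i⟩ y) := ⟨fun i => h2 D a ha ⟨b, i⟩, fun i j h => by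
      simpa only [map_sum, map_mul, dotProduct, ev] using hs ⟨b, i, j, Finset.mem_Ioi.2 h⟩⟩
    exact ⟨(tri (true, false)).ind, (tri (true, true)).det⟩
  · let ρ : I ⊕ A' ⊕ (Fin c × Fin c') ⊕ (Fin c × Fin c') → LL k := Sum.elim (fun _ => l0) <|
      Sum.elim (fun _ => l1) <| Sum.elim (fun p => lf p.1) fun p => lg p.2
    have := Num.numK (n := n) (fun
      | (false, _) => Nat.le_add_left _ _
      | (true, false) => by change c ≤ w - 1 + 1; omega
      | (true, true) => by change c' ≤ w - 1 + 1; omega) ρ (fun l => ?_) 1 one_ne_zero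
    · simp only [one_smul, Fintype.prod_sum_type] at this ⊢
      rw [sq, mul_comm, ← mul_assoc] at this
      simp only [mul_assoc] at this ⊢
      exact this
    · rw [Finset.card_filter]
      simp only [Fintype.sum_sum_type, Fintype.sum_prod_type, ρ, Sum.elim_inl, Sum.elim_inr]
      obtain ⟨⟨_ | _, _ | _⟩, i⟩ := l
      · obtain rfl : i = (0 : Fin 1) := Subsingleton.elim (α := Fin 1) _ _
        simp [l0, l1, lf, lg, k, n, ← hI]
      · obtain rfl : i = (0 : Fin 1) := Subsingleton.elim (α := Fin 1) _ _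
        simp [l0, l1, lf, lg, k, n, ← hA]
      · have : (i : ℕ) < c := i.2
        simp [l0, l1, lf, lg, k, n]
        omega
      · have : (i : ℕ) < c' := i.2
        simp [l0, l1, lf, lg, k, n]
        omega

end Pool.Agent.MP_855f4c_ag.A.Wp

end

section

/-! h14a, section 4 (helper82): integral coefficients. -/

set_option autoImplicit false

open MvPolynomial

namespace Pool.Agent.MP_855f4c_ag.A.Wp

open T

theorem gf (p : ℕ) [Fact p.Prime] {K κ : Type} [Field K] [Algebra K (PadicAlgCl p)] [Fintype κ]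
    [DecidableEq κ] {c : ℕ} (e : Fin c → κ → ℕ) (P : Fin c → MvPolynomial (XV κ) K)
    (h : ∀ a, (P a).IsWeightedHomogeneous wv (cz (e a))) :
    ∃ (π : K) (cf : MI e → K), π ≠ 0 ∧ (∀ i, ‖algebraMap K (PadicAlgCl p) (cf i)‖ ≤ 1) ∧
      ∀ a, C π * aeval (X ∘ Sum.inl) (P a) =
        (gen (fun i => C (cf i)) a (fun v => X (.inl v)) : MvPolynomial (XY κ) K) := by
  choose cf hcf using fun a => Lr.genf (e := e a) (h a)
  have e1 (a) : aeval (X ∘ Sum.inl) (P a) =
      (gen (fun i : MI e => C (cf i.1 i.2)) a (fun v => X (.inl v)) : MvPolynomial (XY κ) K) :=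
    hcf a (MvPolynomial (XY κ) K) C fun v => X (.inl v)
  have hp : ‖(p : PadicAlgCl p)‖ < 1 := by
    rw [← map_natCast (algebraMap ℚ_[p] (PadicAlgCl p)), norm_algebraMap']
    exact Padic.norm_p_lt_one
  obtain ⟨B, hB⟩ := (Set.finite_range fun i : MI e =>
    ‖algebraMap K (PadicAlgCl p) (cf i.1 i.2)‖).bddAbove
  obtain ⟨N, hN⟩ := exists_pow_lt_of_lt_one (inv_pos.2 (lt_max_of_lt_right one_pos : 0 < max B 1)) hp
  have : CharZero K := (algebraMap K (PadicAlgCl p)).charZero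
  refine ⟨(p : K) ^ N, fun i => (p : K) ^ N * cf i.1 i.2,
    pow_ne_zero _ (Nat.cast_ne_zero.2 (Fact.out : p.Prime).ne_zero), fun i => ?_, fun a => ?_⟩
  · rw [map_mul, map_pow, map_natCast, norm_mul, norm_pow]
    exact (mul_le_mul hN.le ((hB ⟨i, rfl⟩).trans (le_max_left B 1)) (norm_nonneg _)
      (inv_nonneg.2 (le_max_of_le_right zero_le_one))).trans
      (inv_mul_cancel₀ (lt_max_of_lt_right one_pos : 0 < max B 1).ne').le
  · rw [e1 a]
    simp only [gen, Finset.mul_sum, map_mul, mul_assoc]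

end Pool.Agent.MP_855f4c_ag.A.Wp

end

section

/-! Cohomology of a quotient by a finite group. -/

set_option autoImplicit false
set_option backward.isDefEq.respectTransparency false

open CategoryTheory Limits Abelian Opposite AlgebraicGeometry Function

namespace Pool.Agent.MP_855f4c_ag.T.Quo

open E E3 E4

section nat
variable {C D B : Type 2} [Category.{1} C] [Abelian C] [Category.{1} D] [Abelian D] [HasExt.{1} C]
  [HasExt.{1} D] [Category.{1} B] [Abelian B] [HasExt.{1} B] [EnoughInjectives C] (L : C ⥤ D)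
  (Q : D ⥤ B) [L.Additive] [Q.Additive] [PreservesFiniteLimits L] [PreservesFiniteColimits L]
  [PreservesFiniteLimits Q] [PreservesFiniteColimits Q]

lemma ext_end (η : ∀ A : C, Q.obj (L.obj A) ⟶ Q.obj (L.obj A))
    (hη : ∀ {A B : C} (f : A ⟶ B), η A ≫ Q.map (L.map f) = Q.map (L.map f) ≫ η B) {A : C} (n : ℕ)
    (F : C) (x : Ext A F n) :
    (Ext.mk₀ (η A)).comp ((x.mapExactFunctor L).mapExactFunctor Q) (zero_add n) =
      ((x.mapExactFunctor L).mapExactFunctor Q).comp (Ext.mk₀ (η F)) (add_zero n) := by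
  induction n generalizing F with
  | zero =>
    obtain ⟨x, rfl⟩ := (Ext.mk₀_bijective _ _).2 x
    rw [Ext.mapExactFunctor_mk₀, Ext.mapExactFunctor_mk₀, Ext.mk₀_comp_mk₀, Ext.mk₀_comp_mk₀, hη]
  | succ n ih =>
    let P : InjectivePresentation F := Classical.arbitrary _
    let S := ShortComplex.mk _ _ (cokernel.condition P.f)
    have hS : S.ShortExact := { exact := ShortComplex.exact_cokernel P.f }
    have := P.injective
    obtain ⟨y, rfl⟩ := Ext.covariant_sequence_exact₁ _ hS x (Ext.eq_zero_of_injective _) rfl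
    have h := ((hS.map_of_exact L).map_of_exact Q).extClass_naturality
      ((hS.map_of_exact L).map_of_exact Q) ⟨η _, η _, η _, hη _, hη _⟩
    rw [Ext.mapExactFunctor_comp, Ext.mapExactFunctor_comp, Ext.mapExactFunctor_extClass,
      Ext.mapExactFunctor_extClass, ← Ext.comp_assoc _ _ _ (zero_add n) rfl (by omega), ih,
      Ext.comp_assoc _ _ _ (add_zero n) (zero_add 1) (by omega),
      Ext.comp_assoc _ _ _ rfl (add_zero 1) (by omega)]
    exact congrArg (((y.mapExactFunctor L).mapExactFunctor Q).comp · rfl) h.symm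

end nat

variable {X Y : Scheme.{0}} (π : X ⟶ Y)

/-- `T ×_Y X` over `Y`. -/
noncomputable abbrev fb (T : Over Y) : Over Y := (Over.map π).obj ((Over.pullback π).obj T)

/-- `π_* π^* F`. -/
noncomputable abbrev pp (F : Sh (Scheme.etaleTopology.over Y)) : Sh (Scheme.etaleTopology.over Y) :=
  (pf π).obj ((pb π).obj F)

/-- The unit. -/
noncomputable def un (F : Sh (Scheme.etaleTopology.over Y)) : F ⟶ pp π F := (pbpf π).unit.app F

lemma un_nat {F G : Sh (Scheme.etaleTopology.over Y)} (u : F ⟶ G) :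
    u ≫ un π G = un π F ≫ (pf π).map ((pb π).map u) := (pbpf π).unit.naturality u

variable {π}

lemma fb_ext {S T : Over Y} {a b : S ⟶ fb π T}
    (h1 : a.left ≫ pullback.fst T.hom π = b.left ≫ pullback.fst T.hom π)
    (h2 : a.left ≫ pullback.snd T.hom π = b.left ≫ pullback.snd T.hom π) : a = b :=
  Over.OverMorphism.ext (pullback.hom_ext h1 h2)

/-- The map to `T ×_Y X` with given components. -/
noncomputable def mk {S T : Over Y} (a : S ⟶ T) (y : S ⟶ Over.mk π) : S ⟶ fb π T :=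
  Over.homMk (pullback.lift a.left y.left ((Over.w a).trans (Over.w y).symm))
    ((pullback.lift_snd_assoc _ _ _ _).trans (Over.w y))

/-- First projection. -/
noncomputable def p1 (T : Over Y) : fb π T ⟶ T := (Over.mapPullbackAdj π).counit.app T

/-- Second projection. -/
noncomputable def p2 (T : Over Y) : fb π T ⟶ Over.mk π := Over.homMk (pullback.snd T.hom π) rfl

lemma p1_left (T : Over Y) : (p1 (π := π) T).left = pullback.fst T.hom π := by simp [p1]

lemma mk_p1 {S T : Over Y} (a : S ⟶ T) (y : S ⟶ Over.mk π) : mk a y ≫ p1 T = a :=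
  Over.OverMorphism.ext ((congrArg (_ ≫ ·) (p1_left T)).trans (pullback.lift_fst _ _ _))

lemma mk_p2 {S T : Over Y} (a : S ⟶ T) (y : S ⟶ Over.mk π) : mk a y ≫ p2 T = y :=
  Over.OverMorphism.ext (pullback.lift_snd _ _ _)

lemma fb_ext' {S T : Over Y} {a b : S ⟶ fb π T} (h1 : a ≫ p1 T = b ≫ p1 T)
    (h2 : a ≫ p2 T = b ≫ p2 T) : a = b :=
  fb_ext (p1_left (π := π) T ▸ congr(($h1).left)) congr(($h2).left)

lemma map_p1 {S T : Over Y} (a : S ⟶ T) :
    (Over.map π).map ((Over.pullback π).map a) ≫ p1 T = p1 S ≫ a :=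
  (Over.mapPullbackAdj π).counit.naturality a

lemma map_p2 {S T : Over Y} (a : S ⟶ T) :
    (Over.map π).map ((Over.pullback π).map a) ≫ p2 T = p2 S :=
  Over.OverMorphism.ext (pullback.lift_snd _ _ _)

/-- `1 × g`. -/
noncomputable def tau (g : Over.mk π ⟶ Over.mk π) (T : Over Y) : fb π T ⟶ fb π T :=
  mk (p1 T) (p2 T ≫ g)

lemma tau_nat (g : Over.mk π ⟶ Over.mk π) {S T : Over Y} (a : S ⟶ T) :
    tau g S ≫ (Over.map π).map ((Over.pullback π).map a) =
      (Over.map π).map ((Over.pullback π).map a) ≫ tau g T :=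
  fb_ext' (by simp only [tau, Category.assoc, map_p1, mk_p1, reassoc_of% mk_p1])
    (by simp only [tau, Category.assoc, map_p2, mk_p2, reassoc_of% map_p2])

lemma mk_tau {S T : Over Y} (a : S ⟶ T) (y : S ⟶ Over.mk π) (g : Over.mk π ⟶ Over.mk π) :
    mk a y ≫ tau g T = mk a (y ≫ g) :=
  fb_ext' (by simp only [tau, Category.assoc, mk_p1])
    (by simp only [tau, Category.assoc, mk_p2, reassoc_of% mk_p2])

/-- The action on `π_* π^* F`. -/
noncomputable def act (g : Over.mk π ⟶ Over.mk π) (F : Sh (Scheme.etaleTopology.over Y)) :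
    pp π F ⟶ pp π F :=
  ⟨{ app T := F.obj.map (tau g T.unop).op
     naturality _ _ a := (F.obj.map_comp _ _).symm.trans
      ((congrArg (fun b => F.obj.map (Quiver.Hom.op b)) (tau_nat g a.unop)).trans
        (F.obj.map_comp _ _)) }⟩

lemma act_nat (g : Over.mk π ⟶ Over.mk π) {F G : Sh (Scheme.etaleTopology.over Y)} (u : F ⟶ G) :
    act g F ≫ (pf π).map ((pb π).map u) = (pf π).map ((pb π).map u) ≫ act g G := by
  ext ⟨T⟩ s
  exact map_nat u.hom (tau g T) s

lemma unit_act (g : Over.mk π ⟶ Over.mk π) (F : Sh (Scheme.etaleTopology.over Y)) :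
    un π F ≫ act g F = un π F := by
  ext ⟨T⟩ s
  exact (res_res F.obj (tau g T) (p1 T) s).trans
    (congrArg (fun b => F.obj.map (Quiver.Hom.op b) s) (mk_p1 _ _))

lemma ev_inj [IsIntegralHom π] {l : ℕ} {F : Sh (Scheme.etaleTopology.over Y)} (hF : Cc l F) {k : Type}
    [Field k] [IsAlgClosed k] (hl : (l : k) ≠ 0) (x : Spec (.of k) ⟶ Y)
    (s : F.obj.obj (op (fb π (Over.mk x))))
    (h : ∀ y : Over.mk x ⟶ Over.mk π, F.obj.map (mk (𝟙 _) y).op s = 0) : s = 0 := by
  refine stalk_inj π (pb_cc π hF) hl x (funext fun y => Eq.trans ?_ (map_zero _).symm)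
  let b : (Over.map π).obj (Over.mk y.left) ⟶ Over.mk x :=
    Over.homMk (𝟙 _) ((Category.id_comp _).trans (Over.w y).symm)
  have e : (Over.map π).map (toPb π (T := Over.mk x) (T' := Over.mk y.left) (𝟙 _)
      ((Category.id_comp _).trans (Over.w y).symm)) = b ≫ mk (𝟙 _) y :=
    Over.OverMorphism.ext (Category.id_comp _).symm
  refine (congrArg (fun a => F.obj.map (Quiver.Hom.op a) s) e).trans ?_
  rw [← res_res, h, map_zero]

section grp
variable {G : Type} [Fintype G] (ρ : G → (Over.mk π ⟶ Over.mk π))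

lemma sum_app (F : Sh (Scheme.etaleTopology.over Y)) (T : Over Y) (s : F.obj.obj (op (fb π T))) :
    (∑ g, act (ρ g) F).hom.app (op T) s = ∑ g, F.obj.map (tau (ρ g) T).op s := by
  obtain ⟨s, rfl⟩ := (frEquiv T (pp π F)).surjective s
  rw [← frEquiv_post, Preadditive.comp_sum, map_sum]
  rfl

variable [IsIntegralHom π] {l : ℕ} (hl : Linv l Y)
  (hp : ∀ h, ∃ e : G ≃ G, ∀ g, ρ h ≫ ρ g = ρ (e g))
  (ho : ∀ (k : Type) [Field k] [IsAlgClosed k] (x : Spec (.of k) ⟶ Y),
    ∃ y₀ : Over.mk x ⟶ Over.mk π, ∀ y, ∃ h, y = y₀ ≫ ρ h)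
include hl hp ho

/-- The transfer on sheaves. -/
lemma tr_sheaf {F : Sh (Scheme.etaleTopology.over Y)} (hF : Cc l F) :
    Mono (un π F) ∧
      ∃ N : pp π F ⟶ F, N ≫ un π F = ∑ g, act (ρ g) F := by
  have hm : Mono (un π F) := unit_mono π hF hl fun k _ _ x => (ho k x).elim fun y _ => ⟨y.left, Over.w y⟩
  refine ⟨hm, (ShortComplex.exact_cokernel (un π F)).lift' _ ?_⟩
  ext ⟨T⟩ s
  refine E4.pt_sec (Cc.coker _ hF (pf_cc π (pb_cc π hF))) (hl.of_hom T.hom) _ fun k _ _ x v => ?_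
  refine (map_nat (_ ≫ cokernel.π _ : pp π F ⟶ _).hom v s).symm.trans ?_
  generalize (pp π F).obj.map v.op s = t
  obtain ⟨y₀, hy⟩ := ho k x
  refine ((exact_sec (ShortComplex.exact_cokernel (un π F)) (Over.mk x)).2 _).2
    ⟨∑ g, F.obj.map (mk (𝟙 _) (y₀ ≫ ρ g)).op t, sub_eq_zero.1 (ev_inj hF (hl k x) x _ fun y => ?_)⟩
  obtain ⟨h, rfl⟩ := hy y
  obtain ⟨e, he⟩ := hp h
  rw [map_sub, sub_eq_zero]
  refine ((res_res F.obj _ (p1 _) _).trans ?_).trans (congrArg _ (sum_app ρ F _ t)).symm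
  rw [mk_p1, res_id, map_sum, ← e.sum_comp]
  exact Finset.sum_congr rfl fun g _ => by rw [res_res, mk_tau, Category.assoc, he]

omit hl hp ho in
lemma psi (T : Over Y) (q : ℕ) : ∃ Ψ : ∀ F, H (fb π T) F q →+ H T (pp π F) q,
    (∀ F, Bijective (Ψ F)) ∧
    (∀ F x, Ψ F (res (p1 T) F q x) = post _ (un π F) q x) ∧
    (∀ F g x, Ψ F (res (tau g T) F q x) = post _ (act g F) q (Ψ F x)) ∧
    ∀ F F' (u : F ⟶ F') x, Ψ F' (post _ u q x) = post _ ((pf π).map ((pb π).map u)) q (Ψ F x) := by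
  refine ⟨fun F => (intH π T _ q).comp (slH π _ F q),
    fun F => (intH_bij π T _ q).comp (slH_bij π _ F q), fun F => intH_slH π T F q,
    fun F g x => ?_, fun F F' u x => (congrArg (intH π T _ q) (M2.slH_post π _ u q x)).trans
      (intH_map π T _ _)⟩
  let a := frPf π T ≫ (pf π).map (frPs (Over.map π) (Scheme.etaleTopology.over X)
    (Scheme.etaleTopology.over Y) ((Over.pullback π).obj T))
  have h1 (b : (fr _).obj (fb π T) ⟶ (fr _).obj (fb π T)) :
      frEquiv T _ (a ≫ (pf π).map ((pb π).map b)) = frEquiv (fb π T) _ b := by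
    rw [Category.assoc, ← Functor.map_comp]
    exact (frEquiv_frPs _ _ _ _ _).trans (frEquiv_frPs _ _ _ _ _)
  have e : a ≫ (pf π).map ((pb π).map ((fr _).map (tau g T))) = a ≫ act g _ := by
    refine (frEquiv T _).injective ?_
    rw [h1, frEquiv_post, ← Category.comp_id a, ← (pf π).map_id, ← (pb π).map_id, h1,
      ← Category.comp_id ((fr _).map _), frEquiv_pre]
    rfl
  have h2 (z : H (fb π T) F q) : intH π T _ q (slH π _ F q z) =
      pre a _ q ((z.mapExactFunctor (pb π)).mapExactFunctor (pf π)) := cmp_pre _ _ _ _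
  refine (h2 _).trans (Eq.trans ?_ (congrArg _ (h2 x).symm))
  rw [← pre_post, post_apply, ← ext_end (pb π) (pf π) (act g) (act_nat g), ← pre_apply, pre_pre,
    ← e, ← pre_pre a, pre_apply ((fr _).map _), Ext.mapExactFunctor_comp, Ext.mapExactFunctor_comp,
    Ext.mapExactFunctor_mk₀, Ext.mapExactFunctor_mk₀]
  rfl

/-- The transfer on cohomology. -/
lemma tr_coh (q : ℕ) (p : Over.mk π ⟶ Over.mk (𝟙 Y)) :
    ∃ N : ∀ F, Cc l F → (H (Over.mk π) F q →+ H (Over.mk (𝟙 Y)) F q),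
      (∀ F hF x, N F hF (res p F q x) = Fintype.card G • x) ∧
      (∀ F hF y, res p F q (N F hF y) = ∑ g, res (ρ g) F q y) ∧
      ∀ F hF F' hF' (u : F ⟶ F') y, N F' hF' (post _ u q y) = post _ u q (N F hF y) := by
  obtain ⟨Ψ, a1, a2, a3, a4⟩ := psi (π := π) (Over.mk (𝟙 Y)) q
  choose m N hN using fun F (hF : Cc l F) => tr_sheaf ρ hl hp ho hF
  have c2 : p2 _ ≫ p = p1 _ := Over.mkIdTerminal.hom_ext _ _
  refine ⟨fun F hF => (post _ (N F hF) q).comp ((Ψ F).comp (res (p2 _) F q)), fun F hF x => ?_,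
    fun F hF y => ?_, fun F hF F' hF' u y => ?_⟩
  · have := m F hF
    have e : un π F ≫ N F hF = ∑ _ : G, 𝟙 F := by
      rw [← cancel_mono (un π F), Category.assoc, hN, Preadditive.comp_sum, Preadditive.sum_comp]
      simp only [unit_act, Category.id_comp]
    change post _ _ q (Ψ F (res _ F q (res p F q x))) = _
    rw [E4.res_res', c2, a2, post_post, e, post_apply, Ext.mk₀_sum, Ext.comp_sum]
    simp only [Ext.comp_mk₀_id, Finset.sum_const, Finset.card_univ]
  · have h (z) : res (mk p (𝟙 _)) F q (res (p2 (Over.mk (𝟙 Y))) F q z) = z := by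
      rw [E4.res_res', mk_p2]
      exact (congrArg (pre · F q z) ((fr _).map_id _)).trans (pre_id z)
    rw [← h (res p F q _), ← h (∑ g, _)]
    refine congrArg _ ((a1 F).1 ?_)
    change Ψ F (res _ F q (res p F q (post _ _ q (Ψ F (res _ F q y))))) = _
    rw [E4.res_res', c2, a2, post_post, hN, map_sum, map_sum, post_apply, Ext.mk₀_sum, Ext.comp_sum]
    refine Finset.sum_congr rfl fun g _ => ?_
    rw [← post_apply, ← a3, E4.res_res', E4.res_res', tau, mk_p2]
  · have := m F' hF'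
    have e : (pf π).map ((pb π).map u) ≫ N F' hF' = N F hF ≫ u := by
      rw [← cancel_mono (un π F'), Category.assoc, Category.assoc, hN, un_nat, ← Category.assoc, hN,
        Preadditive.comp_sum, Preadditive.sum_comp]
      exact Finset.sum_congr rfl fun g _ => (act_nat _ u).symm
    change post _ _ q (Ψ F' (res _ F' q (post _ u q y))) = post _ u q (post _ _ q (Ψ F _))
    rw [pre_post, a4, post_post, post_post, e]

/-- The quotient, working definitions. -/
lemma tr_hl (i : ℕ) (p : Over.mk π ⟶ Over.mk (𝟙 Y)) :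
    ∃ N : Hl l i (Over.mk π) →ₗ[ℚ] Hl l i (Over.mk (𝟙 Y)),
      (∀ x, N (Hl.res l i p x) = Fintype.card G • x) ∧
      ∀ y, Hl.res l i p (N y) = ∑ g, Hl.res l i (ρ g) y := by
  obtain ⟨N, a1, a2, a3⟩ := tr_coh ρ hl hp ho i p
  refine ⟨(tmap (fun n => N _ (M3.zl_tc l n).1)
    fun n x => (a3 _ _ _ _ (Zr Y l n) x).symm).toIntLinearMap.baseChange ℚ, fun x => ?_, fun y => ?_⟩
  · induction x using TensorProduct.induction_on with
    | zero => simp only [map_zero, smul_zero]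
    | add x y hx hy => simp only [map_add, hx, hy, smul_add]
    | tmul c x =>
      rw [← natCast_zsmul, ← TensorProduct.tmul_smul, natCast_zsmul]
      exact congrArg (c ⊗ₜ[ℤ] ·) (Subtype.ext (funext fun n => a1 _ _ _))
  · induction y using TensorProduct.induction_on with
    | zero => simp only [map_zero, Finset.sum_const_zero]
    | add x y hx hy => simp only [map_add, hx, hy, Finset.sum_add_distrib]
    | tmul c x =>
      refine Eq.trans (congrArg (c ⊗ₜ[ℤ] ·) (Subtype.ext (funext fun n => ?_)))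
        (TensorProduct.tmul_sum _ _ _)
      rw [AddSubmonoidClass.coe_finsetSum, Finset.sum_apply]
      exact a2 _ _ _

end grp

lemma hl_all (B : Scheme.{0}) (l i : ℕ) :
    ∃ e : ∀ T : Over B, (Et.Hl l i).obj (op T.left) →ₗ[ℚ] E.Hl l i T, (∀ T, Bijective (e T)) ∧
      ∀ (T' T : Over B) (g : T' ⟶ T) v,
        e T' (((Et.Hl l i).map g.left.op).hom v) = E.Hl.res l i g (e T v) := by
  choose e h1 h2 using fun T : Over B => Et.lim_bij (Et.tower l ⋙ (Et.coh i).obj (op T.left)) _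
    (fun n => Et.absZ T l n i) (fun n => Et.absZ_bij T l n i) fun n => Et.absZ_map T l n i
  refine ⟨fun T => (e T).toIntLinearMap.baseChange ℚ, fun T =>
    ((LinearEquiv.ofBijective (e T).toIntLinearMap (h1 T)).baseChange ℤ ℚ _ _).bijective,
    fun T' T g v => ?_⟩
  induction v using TensorProduct.induction_on with
  | zero => simp only [map_zero]
  | add x y hx hy => simp only [map_add, hx, hy]
  | tmul c x =>
    refine congrArg (c ⊗ₜ[ℤ] ·) (Subtype.ext (funext fun n => (h2 _ _ n).trans (Eq.trans ?_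
      ((Et.absZ_res g l n i _).trans (congrArg _ (h2 T x n).symm)))))
    exact congrArg _ congr($(limMap_π (Functor.whiskerLeft (Et.tower l) ((Et.coh i).map g.left.op))
      (op n)) x)

/-- If the geometric fibres of an integral morphism are the orbits of a finite group, pull-back is
injective with image the invariants. -/
theorem quo (π : X ⟶ Y) [IsIntegralHom π] {G : Type} [Finite G] [Nonempty G] (ρ : G → (X ⟶ X))
    (hρ : ∀ g, ρ g ≫ π = π) (hp : ∀ h, ∃ e : G ≃ G, ∀ g, ρ h ≫ ρ g = ρ (e g))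
    (ho : ∀ (k : Type) [Field k] [IsAlgClosed k] (x : Spec (.of k) ⟶ Y),
      ∃ y₀, y₀ ≫ π = x ∧ ∀ y, y ≫ π = x → ∃ h, y = y₀ ≫ ρ h) {l : ℕ} (hl : Linv l Y) (i : ℕ) :
    Injective ((Et.Hl l i).map π.op).hom ∧
      ∀ w, (∃ v, ((Et.Hl l i).map π.op).hom v = w) ↔ ∀ g, ((Et.Hl l i).map (ρ g).op).hom w = w := by
  have := Fintype.ofFinite G
  let r (g : G) : Over.mk π ⟶ Over.mk π := Over.homMk (ρ g) (hρ g)
  let p : Over.mk π ⟶ Over.mk (𝟙 Y) := Over.homMk π (Category.comp_id _)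
  obtain ⟨N, a1, a2⟩ := tr_hl r hl
    (fun h => (hp h).imp fun e he g => Over.OverMorphism.ext (he g)) (fun k _ _ x => by
      obtain ⟨y₀, h0, h1⟩ := ho k x
      exact ⟨Over.homMk y₀ h0, fun y => (h1 _ (Over.w y)).imp fun h => Over.OverMorphism.ext⟩) i p
  obtain ⟨e, e1, e2⟩ := hl_all Y l i
  have hc : (Fintype.card G : ℚ) ≠ 0 := Nat.cast_ne_zero.2 Fintype.card_ne_zero
  refine ⟨fun v w h => (e1 (Over.mk (𝟙 Y))).1 (smul_right_injective _ hc ?_), fun w => ⟨?_, fun h => ?_⟩⟩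
  · simp only [Nat.cast_smul_eq_nsmul, ← a1, ← e2]
    exact congrArg (fun z => N (e (Over.mk π) z)) h
  · rintro ⟨v, rfl⟩ g
    rw [← LinearMap.comp_apply, ← ModuleCat.hom_comp, ← Functor.map_comp, ← op_comp, hρ]
  · obtain ⟨v, hv⟩ := (e1 (Over.mk (𝟙 Y))).2 ((Fintype.card G : ℚ)⁻¹ • N (e (Over.mk π) w))
    refine ⟨v, (e1 (Over.mk π)).1 ((e2 _ _ p v).trans ?_)⟩
    rw [hv, map_smul, a2, Finset.sum_congr rfl fun g _ => (e2 _ _ (r g) w).symm.trans
      (congrArg _ (h g)), Finset.sum_const, Finset.card_univ, ← Nat.cast_smul_eq_nsmul ℚ,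
      inv_smul_smul₀ hc]

/-- The same after a base change. -/
theorem quo_bc (π : X ⟶ Y) [IsIntegralHom π] [AlgebraicGeometry.Surjective π] {G : Type} [Group G] [Finite G]
    (ρ : G → (X ⟶ X)) (hm : ∀ g h, ρ (g * h) = ρ h ≫ ρ g)
    (ho : ∀ (k : Type) [Field k] [IsAlgClosed k] (y y' : Spec (.of k) ⟶ X),
      y ≫ π = y' ≫ π → ∃ g, y' = y ≫ ρ g) {X' Y' : Scheme.{0}} {π' : X' ⟶ Y'} {a : X' ⟶ X}
    {b : Y' ⟶ Y} (hP : IsPullback π' a b π) (ρ' : G → (X' ⟶ X')) (h1 : ∀ g, ρ' g ≫ π' = π')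
    (h2 : ∀ g, ρ' g ≫ a = a ≫ ρ g) {l : ℕ} (hl : Linv l Y') (i : ℕ) :
    Injective ((Et.Hl l i).map π'.op).hom ∧ ∀ w, (∃ v, ((Et.Hl l i).map π'.op).hom v = w) ↔
      ∀ g, ((Et.Hl l i).map (ρ' g).op).hom w = w := by
  have : IsIntegralHom π' := MorphismProperty.of_isPullback (P := @IsIntegralHom) hP.flip ‹_›
  have : AlgebraicGeometry.Surjective π' :=
    MorphismProperty.of_isPullback (P := @AlgebraicGeometry.Surjective) hP.flip ‹_›
  refine quo π' ρ' h1 (fun h => ⟨Equiv.mulRight h, fun g => hP.hom_ext ?_ ?_⟩)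
    (fun k _ _ x => ?_) hl i
  · rw [Category.assoc, h1, h1, h1]
  · rw [Category.assoc, h2, h2, ← Category.assoc, h2, Category.assoc, ← hm]
    rfl
  · obtain ⟨y₀, h0⟩ := gsurj_of_surjective π' k x
    refine ⟨y₀, h0, fun y hy => (ho k (y₀ ≫ a) (y ≫ a) ?_).imp fun g hg => hP.hom_ext ?_ ?_⟩
    · rw [Category.assoc, Category.assoc, ← hP.w, ← Category.assoc, ← Category.assoc, h0, hy]
    · rw [Category.assoc, h1, h0, hy]
    · rw [Category.assoc, h2, hg, Category.assoc]

/-- Purity of a subspace that is the image of an injective map. -/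
lemma mwOn_iff {A B : Type 1} [AddCommGroup A] [Module ℚ A] [AddCommGroup B] [Module ℚ B]
    (f : A →ₗ[ℚ] B) (hf : Injective f) {φ u : Module.End ℚ A} {ψ w : Module.End ℚ B}
    (h1 : ∀ v, f (φ v) = ψ (f v)) (h2 : ∀ v, f (u v) = w (f v)) {S : Submodule ℚ B}
    (hS : ∀ y, (∃ v, f v = y) ↔ y ∈ S) {q : ℕ} {i : ℤ} : Sum.MwOn q i ψ w S ↔ Mw q i φ u := by
  let e := LinearEquiv.ofBijective (f.codRestrict S fun v => (hS _).1 ⟨v, rfl⟩)
    ⟨fun _ _ h => hf congr(($h).1), fun y => ((hS _).2 y.2).imp fun _ => Subtype.ext⟩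
  have st {φ : Module.End ℚ A} {ψ : Module.End ℚ B} (h : ∀ v, f (φ v) = ψ (f v)) :
      ∀ y ∈ S, ψ y ∈ S := fun y hy => by
    obtain ⟨v, rfl⟩ := (hS y).2 hy
    exact (hS _).1 ⟨_, h v⟩
  refine ⟨fun ⟨_, _, h⟩ => M2.mw_equiv e.toLinearMap e.bijective (fun v => by exact Subtype.ext (h1 v))
    (fun v => by exact Subtype.ext (h2 v)) h, fun h => ⟨st h1, st h2,
      M2.mw_equiv e.symm.toLinearMap e.symm.bijective (fun y => ?_) (fun y => ?_) h⟩⟩ <;>
    obtain ⟨v, rfl⟩ := e.surjective y <;> refine e.symm_apply_eq.2 (Subtype.ext ?_)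
  · exact (h1 v).symm.trans (congrArg (fun z => f (φ z)) (e.symm_apply_apply v).symm)
  · exact (h2 v).symm.trans (congrArg (fun z => f (u z)) (e.symm_apply_apply v).symm)

end Pool.Agent.MP_855f4c_ag.T.Quo

end
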