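import Pool.Agent.MP_855f4c_ag.AC.Ad
import Pool.Agent.MP_855f4c_ag.AC.Ab
import Pool.Agent.MP_855f4c_ag.EC.E4c
import Pool.Agent.MP_855f4c_ag.AC.Aa
import Pool.Agent.MP_855f4c_ag.EC.Db
import Pool.Agent.MP_855f4c_ag.TC.Tf
import Pool.Agent.MP_855f4c_ag.TC.Tg

set_option linter.all false

section

/-! h14a: the integral model (row MOD). -/

set_option autoImplicit false

open MvPolynomial AlgebraicGeometry

namespace Pool.Agent.MP_855f4c_ag.A

open E E3 T

namespace Mod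

theorem clear {V Ω σ : Type} [CommRing V] [CommRing Ω] [Algebra V Ω] (ϖ : V)
    [IsLocalization.Away ϖ Ω] (p : MvPolynomial σ Ω) :
    ∃ (n : ℕ) (q : MvPolynomial σ V), p * C (algebraMap V Ω ϖ) ^ n = map (algebraMap V Ω) q := by
  induction p using MvPolynomial.induction_on with
  | C a =>
    obtain ⟨n, b, h⟩ := IsLocalization.Away.surj ϖ a
    exact ⟨n, C b, by rw [map_C, ← h, C_mul, C_pow]⟩
  | add p q hp hq =>
    obtain ⟨n, a, ha⟩ := hp
    obtain ⟨m, b, hb⟩ := hq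
    refine ⟨n + m, a * C ϖ ^ m + b * C ϖ ^ n, ?_⟩
    simp only [map_add, map_mul, map_pow, map_C, ← ha, ← hb]
    ring
  | mul_X p i hp =>
    obtain ⟨n, a, ha⟩ := hp
    refine ⟨n, a * X i, ?_⟩
    simp only [map_mul, map_X, ← ha]
    ring

theorem away {V Ω σ : Type} [CommRing V] [CommRing Ω] [Algebra V Ω] (ϖ : V)
    [IsLocalization.Away ϖ Ω] (I : Ideal (MvPolynomial σ Ω)) :
    IsLocalization.Away
      ((((Ideal.Quotient.mk I).comp (map (algebraMap V Ω))).rangeRestrict.comp C) ϖ)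
      (MvPolynomial σ Ω ⧸ I) := by
  have e : algebraMap _ (MvPolynomial σ Ω ⧸ I)
      ((((Ideal.Quotient.mk I).comp (map (algebraMap V Ω))).rangeRestrict.comp C) ϖ) =
      Ideal.Quotient.mk I (C (algebraMap V Ω ϖ)) := by
    show Ideal.Quotient.mk I (map (algebraMap V Ω) (C ϖ)) = _
    rw [map_C]
  refine IsLocalization.Away.mk _ ?_ (fun s => ?_) fun a b h => ⟨0, ?_⟩
  · rw [e]
    exact ((IsLocalization.Away.algebraMap_isUnit ϖ).map C).map _
  · obtain ⟨p, rfl⟩ := Ideal.Quotient.mk_surjective s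
    obtain ⟨n, q, h⟩ := clear ϖ p
    refine ⟨n, ((Ideal.Quotient.mk I).comp (map (algebraMap V Ω))).rangeRestrict q, ?_⟩
    rw [e, ← map_pow, ← map_mul, h]
    rfl
  · rw [Subtype.ext h]

theorem lift {V Ω σ B D : Type} [CommRing V] [CommRing Ω] [CommRing B] [CommRing D]
    (α : V →+* Ω) (I : Ideal (MvPolynomial σ Ω)) (ι : B →+* D) (β : V →+* B) (ω : Ω →+* D)
    (z : σ → B) (hι : Function.Injective ι) (h : ι.comp β = ω.comp α)
    (hI : ∀ p ∈ I, eval₂Hom ω (ι ∘ z) p = 0) :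
    ∃ (r : ((Ideal.Quotient.mk I).comp (map α)).range →+* B) (r' : (MvPolynomial σ Ω ⧸ I) →+* D),
      r.comp ((Ideal.Quotient.mk I).comp (map α)).rangeRestrict = eval₂Hom β z ∧
      r'.comp (Ideal.Quotient.mk I) = eval₂Hom ω (ι ∘ z) ∧
      r'.comp ((Ideal.Quotient.mk I).comp (map α)).range.subtype = ι.comp r := by
  have k : ∀ q : MvPolynomial σ V, Ideal.Quotient.lift I (eval₂Hom ω (ι ∘ z)) hI
      (Ideal.Quotient.mk I (map α q)) = ι (eval₂Hom β z q) := fun q => by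
    rw [Ideal.Quotient.lift_mk, coe_eval₂Hom, coe_eval₂Hom, eval₂_map, ← h, eval₂_comp_left]
  have hs := ((Ideal.Quotient.mk I).comp (map α)).rangeRestrict_surjective
  have hk : RingHom.ker ((Ideal.Quotient.mk I).comp (map α)).rangeRestrict ≤
      RingHom.ker (eval₂Hom β z) := fun q hq => by
    have h0 : Ideal.Quotient.mk I (map α q) = 0 := congrArg Subtype.val (RingHom.mem_ker.1 hq)
    refine RingHom.mem_ker.2 (hι ?_)
    rw [← k, h0, map_zero, map_zero]
  have hr := RingHom.liftOfSurjective_comp _ hs ⟨eval₂Hom β z, hk⟩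
  refine ⟨_, Ideal.Quotient.lift I (eval₂Hom ω (ι ∘ z)) hI, hr, rfl, RingHom.ext fun x => ?_⟩
  obtain ⟨q, rfl⟩ := hs x
  exact (k q).trans (congrArg ι (DFunLike.congr_fun hr q).symm)

end Mod

theorem mod : MOD_s := by
  intro K Ω V ν ρ J _ _ _ _ _ _ ϖ _ τ g y
  refine ⟨Mod.away ϖ _, (jq_iff _ g y _).1 fun t => ?_, fun v => ?_, fun a => ?_, ?_⟩
  · have e : (eval₂Hom (algebraMap Ω (JW τ g y)) (wJ τ g y)) = Ideal.Quotient.mk _ :=
      MvPolynomial.ringHom_ext (fun a => by simp; rfl) fun v => by simp [wJ]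
    rw [← eval₂_map, ← coe_eval₂Hom, e]
    exact Ideal.Quotient.eq_zero_iff_mem.2 (Ideal.subset_span ⟨t, rfl⟩)
  · show Ideal.Quotient.mk _ (map (algebraMap V Ω) (X v)) = _
    rw [map_X]
    rfl
  · show Ideal.Quotient.mk _ (map (algebraMap V Ω) (C a)) = _
    rw [map_C]
    rfl
  · intro B D _ _ ι β ω z hι h hJ
    obtain ⟨r, r', h1, h2, h3⟩ := Mod.lift (algebraMap V Ω)
      (Ideal.span (Set.range fun t => map τ (jq g y t))) ι β ω z hι h fun p hp =>
        RingHom.mem_ker.1 (Ideal.span_le.2 (by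
          rintro _ ⟨t, rfl⟩
          refine RingHom.mem_ker.2 ?_
          rw [coe_eval₂Hom, eval₂_map]
          exact (jq_iff _ g y _).2 hJ t) hp)
    refine ⟨r, r', RingHom.ext fun a => ?_, fun v => ?_, RingHom.ext fun a => ?_, fun v => ?_, h3⟩
    · exact (DFunLike.congr_fun h1 (C a)).trans (eval₂Hom_C _ _ _)
    · exact (DFunLike.congr_fun h1 (X v)).trans (eval₂Hom_X' _ _ _)
    · exact (DFunLike.congr_fun h2 (C a)).trans (eval₂Hom_C _ _ _)
    · exact (DFunLike.congr_fun h2 (X v)).trans (eval₂Hom_X' _ _ _)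

end Pool.Agent.MP_855f4c_ag.A

end

section

/-! h14a, section 4: the vector level data of an algebraic description of the pair. -/

set_option autoImplicit false
set_option backward.isDefEq.respectTransparency false

open MvPolynomial AlgebraicGeometry Matrix

namespace Pool.Agent.MP_855f4c_ag.A.Wpa

open E E3 T T.Ekd T.Mtx T.Aff

variable {K ν ρ J φ : Type} [Field K] [Fintype ν] [Fintype J] {o : ν} {d r : ℕ}
  {g : ρ → MvPolynomial (ν × ν) K} {G : J → MvPolynomial ν K}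
  {F : φ → MvPolynomial {k // k ≠ o} K}

omit [Fintype ν] [Fintype J] in
theorem yv_hom (hG : ∀ j, (G j).IsHomogeneous r) (c : K) (a : NV ν J) :
    (yv G r c a).IsHomogeneous r := by
  rcases a with j | i
  · exact (hG j).C_mul c
  · simpa [yv] using (isHomogeneous_X K i).pow r

/-- Points of the double model. -/
theorem jqp {D : Type} [CommRing D] (χ : K →+* D) (hG : ∀ j, (G j).IsHomogeneous r) (c : K)
    {v μ : ν → D} {z la : NV ν J → D} (hz : Cov z la)
    (hg : ∀ j, eval₂ χ (fun p : ν × ν => v p.1 * μ p.2) (g j) = 0) (h0 : IsUnit (v o))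
    (h : ∀ a, a ≠ .inr o → z a * v o ^ r = z (.inr o) * eval₂ χ v (yv G r c a)) :
    JQ χ g (yv G r c) (wp v μ z la) := by
  have h' (a) : z a * v o ^ r = z (.inr o) * eval₂ χ v (yv G r c a) := by
    by_cases e : a = .inr o
    · subst e
      simp [yv]
    · exact h a e
  refine ⟨hg, YJ.RK.of z la hz, fun a b c' i => ?_⟩
  have e : cw (wp v μ z la) i = fun k => μ i * v k := funext fun k => mul_comm _ _
  rw [e, scale χ v _ (yv_hom hG c a), scale χ v _ (yv_hom hG c c')]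
  refine (h0.pow r).mul_right_cancel ?_
  change z a * la b * _ * _ = z c' * la b * _ * _
  linear_combination la b * μ i ^ r * (eval₂ χ v (yv G r c c') * h' a -
    eval₂ χ v (yv G r c a) * h' c')

/-- The partial trace vanishes over the hyperplane section. -/
theorem tt_zero (H : XA o d r g G F) (c : K) {L : Type} [Field L] (χ : K →+* L) {w : EW ν J → L}
    (hw : JQ χ g (yv G r c) w) (h0 : ∀ i, w (.inl (o, i)) = 0) : TT w = 0 := by
  have rk := H.rk L χ _ hw.1
  obtain ⟨m, hm⟩ : ∃ m, w (.inl (m, m)) ≠ 0 := by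
    by_contra h
    push Not at h
    exact zero_ne_one ((Finset.sum_eq_zero fun i _ => h i).symm.trans rk.1)
  have e : (fun p : ν × ν => cw w m p.1 * (w (.inl (m, p.2)) / w (.inl (m, m)))) = w ∘ .inl :=
    funext fun p => by
      rw [← mul_div_assoc, div_eq_iff hm]
      exact rk.2 p.1 m m p.2
  have cv : Cov (cw w m) fun k => w (.inl (m, k)) / w (.inl (m, m)) :=
    (Finset.sum_congr rfl fun i _ => (mul_comm _ _).trans (congrFun e (i, i))).trans rk.1
  have hG := (H.van L χ _ _ cv (fun j => by rw [e]; exact hw.1 j)).2 (h0 m)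
  have hz (j : J) : w (.inr (.inl j, .inl j)) = 0 := by
    have := hw.2.2 (.inl j) (.inl j) (.inr m) m
    simp only [yv, Sum.elim_inl, Sum.elim_inr, eval₂_mul, hG, mul_zero, eval₂_pow, eval₂_X] at this
    exact (mul_eq_zero.1 this).resolve_right (pow_ne_zero _ hm)
  have := hw.2.1.1
  simp only [Fintype.sum_sum_type, Function.comp_apply, hz, Finset.sum_const_zero, zero_add] at this
  exact sub_eq_zero.2 this.symm

/-- A power of the partial trace is a combination of the entries of the row `o`. -/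
theorem tm (H : XA o d r g G F) (c : K) :
    ∃ (M : ℕ) (A : ν → MvPolynomial (EW ν J) K), 0 < M ∧
      ∀ (D : Type) [CommRing D] (χ : K →+* D) (w : EW ν J → D), JQ χ g (yv G r c) w →
        TT w ^ M = ∑ i, eval₂ χ w (A i) * w (.inl (o, i)) := by
  have h : TT (X : EW ν J → MvPolynomial (EW ν J) K) ∈
      (Ideal.span (Set.range (jq g (yv G r c))) ⊔
        Ideal.span (Set.range fun i => X (.inl (o, i)))).radical := by
    rw [Ideal.radical_eq_sInf, Ideal.mem_sInf]
    rintro P ⟨hP, hp⟩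
    let ψ := algebraMap (MvPolynomial (EW ν J) K) P.ResidueField
    have ev (Q) : eval₂ (ψ.comp C) (ψ ∘ X) Q = ψ Q := by rw [← eval₂_comp_left, eval₂_eta]
    have k (Q) : ψ Q = 0 ↔ Q ∈ P := Ideal.algebraMap_residueField_eq_zero
    have := tt_zero H c (ψ.comp C) ((jq_iff _ _ _ (ψ ∘ X)).1 fun t => (ev _).trans ((k _).2
      (hP (Ideal.mem_sup_left (Ideal.subset_span ⟨t, rfl⟩))))) fun i =>
        (k _).2 (hP (Ideal.mem_sup_right (Ideal.subset_span ⟨i, rfl⟩)))
    exact (k _).1 (by simpa [TT] using this)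
  obtain ⟨M, hM⟩ := h
  obtain ⟨a, ha, b, hb, e⟩ := Submodule.mem_sup.1 (Ideal.pow_mem_of_pow_mem _ hM M.le_succ)
  obtain ⟨A, rfl⟩ := Ideal.mem_span_range_iff_exists_fun.1 hb
  refine ⟨M + 1, A, M.succ_pos, fun D _ χ w hw => ?_⟩
  have h1 : eval₂Hom χ w a = 0 :=
    (Ideal.span_le (I := RingHom.ker (eval₂Hom χ w))).2
      (Set.range_subset_iff.2 ((jq_iff χ _ _ w).2 hw)) ha
  have := congrArg (eval₂Hom χ w) e
  rw [map_add, h1, zero_add, map_sum, map_pow] at this
  simpa [TT] using this.symm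

/-- The linear forms with matrix `L` that vanish at `u`. -/
noncomputable def ell {Ω : Type} [Field Ω] [DecidableEq ν] (o : ν) (u : ν → Ω)
    (L : Matrix (Fin d) {k // k ≠ o} Ω) (a : Fin d) (i : ν) : Ω :=
  if h : i = o then -∑ k, L a k * u k else L a ⟨i, h⟩

theorem ell_eq {Ω : Type} [Field Ω] [DecidableEq ν] (u : ν → Ω)
    (L : Matrix (Fin d) {k // k ≠ o} Ω) {R : Type} [CommRing R] [Algebra Ω R] (v : ν → R)
    (a : Fin d) : ∑ i, algebraMap Ω R (ell o u L a i) * v i =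
      (L.map (algebraMap Ω R) *ᵥ Mtx.tau Subtype.val o u v) a := by
  rw [Fintype.sum_eq_add_sum_subtype_ne _ o]
  have e (k : {k // k ≠ o}) : ell o u L a k = L a k := dif_neg k.2
  have e0 : ell o u L a o = -∑ k, L a k * u k := dif_pos rfl
  simp only [e, e0, mulVec, dotProduct, Mtx.tau, map_apply, mul_sub, Finset.sum_sub_distrib, map_neg,
    map_sum, map_mul, neg_mul, Finset.sum_mul, mul_assoc]
  rw [neg_add_eq_sub]

omit [Fintype J] in
/-- The data of section 4. -/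
theorem xaw [Finite φ] [DecidableEq ν] (H : XA o d r g G F) :
    ∃ (w a b : ℕ) (Fh : Fin w → MvPolynomial ν K) (E : Matrix (Fin w) (Fin w) (MvPolynomial ν K)),
      0 < a ∧ 0 < b ∧ (∀ i, (Fh i).IsHomogeneous a) ∧ (∀ i k, (E i k).IsHomogeneous b) ∧
      E *ᵥ Fh = (X o ^ b : MvPolynomial ν K) • Fh ∧
      (∀ (k : Type) [Field k] [Algebra K k] (v : ν → k), v o ≠ 0 →
        (∀ μ, Cov v μ → ((∀ i, aeval v (Fh i) = 0) ↔
          ∀ j, eval₂ (algebraMap K k) (fun p : ν × ν => v p.1 * μ p.2) (g j) = 0)) ∧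
        ((∀ i, aeval v (Fh i) = 0) →
          E.map (aeval v) * E.map (aeval v) = v o ^ b • E.map (aeval v))) ∧
      ∀ (Ω : Type) [Field Ω] [Algebra K Ω] (u : ν → Ω), u o = 1 →
        (∀ i, aeval (fun k : {k // k ≠ o} => u k) (F i) = 0) →
        ∃ (c c' : ℕ) (_ : {k // k ≠ o} ≃ Fin d ⊕ Fin c) (L : Matrix (Fin d) {k // k ≠ o} Ω)
          (Δ : Matrix (Fin w) (Fin c) Ω) (Φ : Matrix (Fin c) (Fin w) Ω)
          (Γ : Matrix (Fin w) (Fin c') Ω) (Γ' : Matrix (Fin c') (Fin w) Ω), c + c' = w ∧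
          (∀ i, aeval u (Fh i) = 0) ∧
          E.map (aeval u) = Δ * Φ ∧ Φ * Δ = 1 ∧ 1 - E.map (aeval u) = Γ * Γ' ∧ Γ' * Γ = 1 ∧
          E.map (aeval u) * jac (I := {k // k ≠ o}) Subtype.val u Fh = jac Subtype.val u Fh ∧
          (∀ τ : {k // k ≠ o} → Ω, jac Subtype.val u Fh *ᵥ τ = 0 → L *ᵥ τ = 0 → τ = 0) ∧
          Iso (algebraMap K Ω) F u (ell o u L) := by
  obtain ⟨w, ⟨s⟩⟩ := Finite.exists_equiv_fin φ
  let f := F ∘ s.symm
  have all {k : Type} [CommRing k] (χ : K →+* k) (t : {k // k ≠ o} → k) :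
      (∀ i, eval₂ χ t (f i) = 0) ↔ ∀ i, eval₂ χ t (F i) = 0 :=
    s.symm.surjective.forall (p := fun i => eval₂ χ t (F i) = 0).symm
  let A := MvPolynomial {k // k ≠ o} K ⧸ Ideal.span (Set.range F)
  let x : {k // k ≠ o} → A := fun k => Ideal.Quotient.mk _ (X k)
  have ax : (aeval x : MvPolynomial {k // k ≠ o} K →ₐ[K] A) = Ideal.Quotient.mkₐ K _ :=
    MvPolynomial.algHom_ext fun k => aeval_X _ _
  have hx : Function.Surjective (aeval x : MvPolynomial {k // k ≠ o} K →ₐ[K] A) :=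
    ax ▸ Ideal.Quotient.mkₐ_surjective K _
  have hf : Ideal.span (Set.range f) =
      RingHom.ker (aeval x : MvPolynomial {k // k ≠ o} K →ₐ[K] A) := by
    rw [ax, s.symm.surjective.range_comp]; exact Ideal.mk_ker.symm
  have sm : SmoothOfRelativeDimension d (Spec.map (CommRingCat.ofHom (algebraMap K A))) := H.sm
  have sm' : Smooth (Spec.map (CommRingCat.ofHom (algebraMap K A))) :=
    SmoothOfRelativeDimension.smooth d _
  have : Algebra.Smooth K A :=
    RingHom.smooth_algebraMap.1 ((HasRingHomProperty.Spec_iff (P := @Smooth)).1 sm')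
  obtain ⟨a, b, Fh, Eh, E, L, ha, hb, h1, h2, h3, -, h4, h5⟩ := ekh x hx f hf Subtype.val o
  have key (k : Type) [Field k] [Algebra K k] (v : ν → k) (t : {k // k ≠ o} → k) (h0 : v o ≠ 0)
      (hv : ∀ k : {k // k ≠ o}, v k = v o * t k) :
      (∀ i, aeval v (Fh i) = 0) ↔ ∀ i, eval₂ (algebraMap K k) t (f i) = 0 :=
    forall_congr' fun i => by
      rw [aeval_def, (h4 k _ v t hv).1, mul_eq_zero, or_iff_right (pow_ne_zero _ h0)]
  refine ⟨w, a, b, Fh, of Eh, ha, hb, h1, h2, funext h3, fun k _ _ v h0 => ?_,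
    fun Ω _ _ u hu hF => ?_⟩
  · let t : {k // k ≠ o} → k := fun j => (v o)⁻¹ * v j
    have hv : ∀ k : {k // k ≠ o}, v k = v o * t k := fun k => (mul_inv_cancel_left₀ h0 _).symm
    refine ⟨fun μ hμ => ?_, fun z => ?_⟩
    · rw [key k v t h0 hv, all, H.chart k _ v μ t hμ hv]
    · change val Eh (algebraMap K k) v * val Eh (algebraMap K k) v = _ • val Eh (algebraMap K k) v
      rw [(h4 k _ v t hv).2, Matrix.smul_mul, Matrix.mul_smul,
        (h5 k _ t ((key k v t h0 hv).1 z)).1]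
  · let t : {k // k ≠ o} → Ω := fun k => u k
    have hv : ∀ k : {k // k ≠ o}, u k = u o * t k := fun k => by rw [hu, one_mul]
    have z := (all (algebraMap K Ω) t).2 hF
    obtain ⟨p1, p2, p3⟩ := h5 Ω _ t z
    have eE : (of Eh).map (aeval u) = val E (algebraMap K Ω) t := by
      have := (h4 Ω (algebraMap K Ω) u t hv).2
      rwa [hu, one_pow, one_smul] at this
    have eJ : jac Subtype.val u Fh = Jac f (algebraMap K Ω) t := by
      ext i k
      have := Wd.jac_hom (h1 i) (fun v hv => (h4 _ C v X hv).1 i) (algebraMap K Ω) hv k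
      rwa [hu, one_pow, one_mul] at this
    have hd : Module.finrank Ω (LinearMap.ker (Jac f (algebraMap K Ω) t).mulVecLin) = d := by
      have := rnkS (d := d) x hx f hf
        (⟨lf F _ t hF, DFunLike.congr_fun (lf_alg F _ t hF)⟩ : A →ₐ[K] Ω)
      rwa [show (⟨lf F _ t hF, DFunLike.congr_fun (lf_alg F _ t hF)⟩ : A →ₐ[K] Ω) ∘ x = t from
        funext fun k => (lf_mk F _ t hF (X k)).trans (eval₂_X _ _ _)] at this
    obtain ⟨c, c', e, L', Δ, Φ, Γ, Γ', a1, a2, a3, a4, a5, a6⟩ :=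
      Wd.bases p1 hd (rank_add p2 p3 hd)
    have h0 := (key Ω u t (hu ▸ one_ne_zero) hv).2 z
    rw [← eJ] at a6
    refine ⟨c, c', e, L', Δ, Φ, Γ, Γ', a1, h0, eE ▸ a2, a3, eE ▸ a4, a5, by rw [eE, eJ, p2], a6, ?_⟩
    obtain ⟨θ, t1, t2⟩ := Theta.theta (cv_ne o) hu L' h1 h0 a6
    let q : ν → MvPolynomial {k // k ≠ o} Ω := fun j => if h : j = o then 1 else X ⟨j, h⟩
    have ev (k : Type) [CommRing k] [Algebra Ω k] (t : {k // k ≠ o} → k) (v : ν → k)
        (h1 : v o = 1) (h2 : ∀ j : {k // k ≠ o}, v j = t j) :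
        aeval t (aeval q θ) = aeval v θ := by
      refine (DFunLike.congr_fun (comp_aeval q (aeval t)) θ).trans ?_
      congr 2
      funext j
      by_cases h : j = o
      · simp [q, h, h1]
      · simp [q, h, ← h2]
    refine ⟨aeval q θ, ?_, fun k _ ω t v v1 v2 v3 v4 v5 => ?_⟩
    · have := (ev Ω t u hu fun _ => rfl).trans t1
      rw [aeval_eq_eval] at this
      exact this ▸ one_ne_zero
    · let _ := ω.toAlgebra
      let _ := (ω.comp (algebraMap K Ω)).toAlgebra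
      have : IsScalarTower K Ω k := IsScalarTower.of_algebraMap_eq' rfl
      have v6 : ∀ j : {k // k ≠ o}, v j = v o * t j := fun j => by rw [v1, one_mul, v2]
      have v7 : aeval v θ ≠ 0 := by rw [← ev k t v v1 v2]; exact v4
      have v8 : v o ≠ 0 := by rw [v1]; exact one_ne_zero
      have v9 := (key k v t v8 v6).2 ((all (ω.comp (algebraMap K Ω)) t).2 v3)
      have := (t2 k v v7).2 v9 (funext fun a => by rw [← ell_eq u L' v a]; exact v5 a)
      refine (((cv_ne o).line hu).1 this).trans (funext fun j => ?_)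
      rw [v1, one_mul]
      rfl

end Pool.Agent.MP_855f4c_ag.A.Wpa

end

section

/-! h14a, section 4: assembly of the data on a product of lines. -/

set_option autoImplicit false

open MvPolynomial Matrix

namespace Pool.Agent.MP_855f4c_ag.A.Wp

open E E3 T T.Mtx G.La

theorem evz {σ D D' : Type} [CommRing D] [CommRing D'] (φ : D →+* D') (a : σ → D)
    (P : MvPolynomial σ ℤ) : φ (aeval a P) = aeval (φ ∘ a) P := by
  rw [map_aeval, Subsingleton.elim (φ.comp _) (algebraMap ℤ D')]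
  rfl

theorem homI {σ τ W : Type} (R : Type) [CommRing R] [AddCommGroup W] {u : τ → W} {w : σ → W}
    (j : τ → σ) (hj : ∀ t, w (j t) = u t) {P : MvPolynomial τ ℤ} {n : W}
    (h : P.IsWeightedHomogeneous u n) :
    (aeval ((X : σ → MvPolynomial σ R) ∘ j) P).IsWeightedHomogeneous w n := by
  rw [← aeval_map_algebraMap R]
  exact subst w (AddMonoidHom.id W) (fun t => hj t ▸ isWeightedHomogeneous_X R w (j t))
    fun _ hd => h fun h0 => hd (by rw [coeff_map, h0, map_zero])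

section tk
variable {K Ω ν I D C J X A S T R : Type} [CommRing K] [CommRing R] [Algebra K R] [Fintype X]

/-- The equations that get approximated. -/
noncomputable def tK (o : ν) (F : X → MvPolynomial ν K) (E : Matrix X X (MvPolynomial ν K))
    (y : A → MvPolynomial ν K) (r : ℕ) (v : ν → R) (z₀ : R) (z : A → R) (f : Matrix C X R)
    (g : Matrix X J R) : C ⊕ A ⊕ (C × J) ⊕ (C × J) → R :=
  Sum.elim (f *ᵥ fun x => aeval v (F x)) <| Sum.elim (fun a => z a * v o ^ r - z₀ * aeval v (y a)) <|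
    Sum.elim (fun p => (f * g) p.1 p.2) fun p => (f * E.map (aeval v) * g) p.1 p.2

/-- Their weights. -/
def nK {W : Type} [AddCommMonoid W] (a b r : ℕ) (α α' : W) (β : C → W) (γ : J → W) :
    C ⊕ A ⊕ (C × J) ⊕ (C × J) → W :=
  Sum.elim (fun c => β c + a • α) <| Sum.elim (fun _ => α' + r • α) <|
    Sum.elim (fun p => β p.1 + γ p.2) fun p => β p.1 + b • α + γ p.2

theorem tK_map {R' : Type} [CommRing R'] [Algebra K R'] (φ : R →ₐ[K] R') (o : ν)
    (F : X → MvPolynomial ν K) (E : Matrix X X (MvPolynomial ν K)) (y : A → MvPolynomial ν K)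
    (r : ℕ) (v : ν → R) (z₀ : R) (z : A → R) (f : Matrix C X R) (g : Matrix X J R)
    (q : C ⊕ A ⊕ (C × J) ⊕ (C × J)) : φ (tK o F E y r v z₀ z f g q) =
      tK o F E y r (φ ∘ v) (φ z₀) (φ ∘ z) (f.map φ) (g.map φ) q := by
  have h (P : MvPolynomial ν K) : φ (aeval v P) = aeval (φ ∘ v) P := comp_aeval_apply _ _ _
  rcases q with i | i | p | p <;> simp [tK, mulVec, dotProduct, mul_apply, h]

theorem tK_hom {σ W : Type} [AddCommGroup W] (wt : σ → W) (o : ν) {F : X → MvPolynomial ν K}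
    {E : Matrix X X (MvPolynomial ν K)} {y : A → MvPolynomial ν K} {a b r : ℕ}
    (hF : ∀ x, (F x).IsHomogeneous a) (hE : ∀ x x', (E x x').IsHomogeneous b)
    (hy : ∀ i, (y i).IsHomogeneous r) {v : ν → MvPolynomial σ K} {z₀ : MvPolynomial σ K}
    {z : A → MvPolynomial σ K} {f : Matrix C X (MvPolynomial σ K)}
    {g : Matrix X J (MvPolynomial σ K)} {α α' : W} {β : C → W} {γ : J → W}
    (hv : ∀ i, (v i).IsWeightedHomogeneous wt α) (hz : z₀.IsWeightedHomogeneous wt α')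
    (hz' : ∀ i, (z i).IsWeightedHomogeneous wt α')
    (hf : ∀ c x, (f c x).IsWeightedHomogeneous wt (β c))
    (hg : ∀ x j, (g x j).IsWeightedHomogeneous wt (γ j)) (q : C ⊕ A ⊕ (C × J) ⊕ (C × J)) :
    (tK o F E y r v z₀ z f g q).IsWeightedHomogeneous wt (nK a b r α α' β γ q) := by
  have h {P : MvPolynomial ν K} {n : ℕ} (h : P.IsHomogeneous n) :
      (aeval v P).IsWeightedHomogeneous wt (n • α) := by
    simpa using subst wt (multiplesHom W α) (g := v) (fun t => by simpa using hv t) h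
  rcases q with i | i | p | p
  · exact .sum _ _ _ fun x _ => (hf i x).mul (h (hF x))
  · exact ((hz' i).mul ((hv o).pow r)).sub (hz.mul (h (hy i)))
  · exact .sum _ _ _ fun x _ => (hf p.1 x).mul (hg x p.2)
  · exact .sum _ _ _ fun x _ => (IsWeightedHomogeneous.sum _ _ _ fun x' _ =>
      (hf p.1 x').mul (h (hE x' x))).mul (hg x p.2)

/-- The shuffle of the indices. -/
def sh {P : Type} (e : I ≃ D ⊕ C) (η : T ≃ C ⊕ A ⊕ P ⊕ P) : D ⊕ S ⊕ T ≃ I ⊕ A ⊕ P ⊕ P ⊕ S where
  toFun := Sum.elim (fun k => .inl (e.symm (.inl k))) <|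
    Sum.elim (fun s => .inr (.inr (.inr (.inr s)))) fun t =>
      Sum.elim (fun k => .inl (e.symm (.inr k))) (fun x => .inr (x.map id (Sum.map id .inl))) (η t)
  invFun := Sum.elim (fun i => (e i).map id fun k => .inr (η.symm (.inl k))) <|
    Sum.elim (fun a => .inr (.inr (η.symm (.inr (.inl a))))) <|
      Sum.elim (fun p => .inr (.inr (η.symm (.inr (.inr (.inl p)))))) <|
        Sum.elim (fun p => .inr (.inr (η.symm (.inr (.inr (.inr p)))))) fun s => .inr (.inl s)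
  left_inv := by
    rintro (k | s | t)
    · simp
    · rfl
    · obtain ⟨t, rfl⟩ := η.symm.surjective t
      rcases t with k | a | p | p <;> simp
  right_inv := by
    rintro (i | a | p | p | s)
    · obtain ⟨i, rfl⟩ := e.symm.surjective i
      rcases i with k | k <;> simp
    all_goals simp

theorem nA_sh {W : Type} [AddCommGroup W] (e : I ≃ D ⊕ C) (η : T ≃ C ⊕ A ⊕ (C × J) ⊕ (C × J))
    (a b r : ℕ) (nl α α' : W) (β : C → W) (γ : J → W) (ns : S → W) (q : D ⊕ S ⊕ T) :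
    nA e a b r nl α α' β γ ns (sh e η q) =
      Sum.elim (fun _ => nl) (Sum.elim ns fun t => nK a b r α α' β γ (η t)) q := by
  rcases q with k | s | t
  · simp [sh, nA]
  · rfl
  · obtain ⟨t, rfl⟩ := η.symm.surjective t
    rcases t with k | a | p | p <;> simp [sh, nA, nK]

theorem tA_sh [Field Ω] [Algebra Ω R] [Fintype I] (ι : I → ν) (o : ν) (u : ν → Ω) (e : I ≃ D ⊕ C)
    (η : T ≃ C ⊕ A ⊕ (C × J) ⊕ (C × J)) (L : Matrix D I Ω) (F : X → MvPolynomial ν K)
    (E : Matrix X X (MvPolynomial ν K)) (y : A → MvPolynomial ν K) (r : ℕ) (v : ν → R) (z₀ : R)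
    (z : A → R) (f : Matrix C X R) (g : Matrix X J R) (s : S → R) (q : D ⊕ S ⊕ T) :
    tA ι o u e L F E y r 1 v z₀ z f g s (sh e η q) =
      Sum.elim (L.map (algebraMap Ω R) *ᵥ tau ι o u v)
        (Sum.elim s fun t => tK o F E y r v z₀ z f g (η t)) q := by
  rcases q with k | s | t
  · simp [sh, tA]
  · rfl
  · obtain ⟨t, rfl⟩ := η.symm.surjective t
    rcases t with k | a | p | p <;> simp [sh, tA, tK]

end tk

end Pool.Agent.MP_855f4c_ag.A.Wp

end

section

/-! h14a, section 4: the function `ε` and the pointwise statements. -/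

set_option autoImplicit false

open MvPolynomial Matrix

namespace Pool.Agent.MP_855f4c_ag.A.Wpt

open E E3 T T.Mtx G.La

variable {K ν J X C C' R : Type} [CommRing K] [Fintype ν] [Fintype X] [DecidableEq X] [Fintype C']
  [DecidableEq C'] [CommRing R] [Algebra K R]

/-- The function `ε`. -/
noncomputable def ep (o : ν) (b : ℕ) (E : Matrix X X (MvPolynomial ν K))
    (A : ν → MvPolynomial (EW ν J) K) (v lam : ν → R) (z la : NV ν J → R) (g : Matrix X C' R)
    (mu : Matrix C' X R) : R :=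
  v o * (mu * (v o ^ b • (1 : Matrix X X R) - E.map (aeval v)) * g).det *
    (∑ i, aeval (wp v lam z la) (A i) * lam i) ^ (b * Fintype.card C' + 1)

variable (o : ν) (b : ℕ) (E : Matrix X X (MvPolynomial ν K)) (A : ν → MvPolynomial (EW ν J) K)

omit [Fintype ν] [Algebra K R] in
theorem wp_map {R' : Type} [CommRing R'] (φ : R →+* R') (v lam : ν → R) (z la : NV ν J → R) :
    φ ∘ wp v lam z la = wp (φ ∘ v) (φ ∘ lam) (φ ∘ z) (φ ∘ la) := by
  funext t
  rcases t with t | t <;> exact map_mul φ _ _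

theorem ep_map {R' : Type} [CommRing R'] [Algebra K R'] (φ : R →ₐ[K] R') (v lam : ν → R)
    (z la : NV ν J → R) (g : Matrix X C' R) (mu : Matrix C' X R) :
    φ (ep o b E A v lam z la g mu) =
      ep o b E A (φ ∘ v) (φ ∘ lam) (φ ∘ z) (φ ∘ la) (g.map φ) (mu.map φ) := by
  have h {σ : Type} (x : σ → R) (P : MvPolynomial σ K) : φ (aeval x P) = aeval (φ ∘ x) P :=
    DFunLike.congr_fun (comp_aeval x φ) P
  have e : φ ∘ wp v lam z la = wp (φ ∘ v) (φ ∘ lam) (φ ∘ z) (φ ∘ la) := wp_map φ.toRingHom ..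
  have d : (mu * (v o ^ b • (1 : Matrix X X R) - E.map (aeval v)) * g).map φ =
      mu.map φ * (φ (v o) ^ b • 1 - E.map (aeval (φ ∘ v))) * g.map φ := by
    ext i j
    simp [mul_apply, h, Matrix.one_apply, apply_ite φ, -map_aeval]
  rw [ep, ep, map_mul, map_mul, map_pow, map_sum, AlgHom.map_det, AlgHom.mapMatrix_apply, d]
  simp only [map_mul, h, e, Function.comp_apply]

/-- `ε` has weight zero. -/
theorem ep_hom {σ W : Type} [AddCommGroup W] (wt : σ → W)
    (hE : ∀ x x', (E x x').IsHomogeneous b) {v lam : ν → MvPolynomial σ K}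
    {z la : NV ν J → MvPolynomial σ K} {g : Matrix X C' (MvPolynomial σ K)}
    {mu : Matrix C' X (MvPolynomial σ K)} {α α' : W} {γ : C' → W}
    (hv : ∀ i, (v i).IsWeightedHomogeneous wt α) (hl : ∀ i, (lam i).IsWeightedHomogeneous wt (-α))
    (hz : ∀ i, (z i).IsWeightedHomogeneous wt α') (hl' : ∀ i, (la i).IsWeightedHomogeneous wt (-α'))
    (hg : ∀ x j, (g x j).IsWeightedHomogeneous wt (γ j))
    (hm : ∀ j x, (mu j x).IsWeightedHomogeneous wt (-γ j)) :
    (ep o b E A v lam z la g mu).IsWeightedHomogeneous wt 0 := by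
  have hw {P : MvPolynomial σ K} {n n' : W} (h : P.IsWeightedHomogeneous wt n) (e : n = n') :
      P.IsWeightedHomogeneous wt n' := e ▸ h
  have h1 (x x') : IsWeightedHomogeneous wt ((v o ^ b • (1 : Matrix X X (MvPolynomial σ K)) -
      E.map (aeval v) : Matrix X X (MvPolynomial σ K)) x x') (b • α) := by
    refine IsWeightedHomogeneous.sub ?_ (hw (subst wt (zmultiplesHom W α)
      (fun t => by simpa using hv t) (homz (hE x x'))) (by simp))
    rw [Matrix.smul_apply, Matrix.one_apply]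
    split_ifs
    · simpa using (hv o).pow b
    · simpa using isWeightedHomogeneous_zero K wt _
  have h2 := (hom_mul wt (M := mu * (v o ^ b • (1 : Matrix X X (MvPolynomial σ K)) -
      E.map (aeval v)) * g)
    (n := fun j => b • α - γ j) (n' := fun j => -γ j) fun p q => .sum _ _ _ fun x _ =>
      hw ((IsWeightedHomogeneous.sum _ _ (-γ p + b • α) fun x' _ => (hm p x').mul (h1 x' x)).mul
        (hg x q)) (by abel)).2
  have h3 (i) : (aeval (wp v lam z la) (A i)).IsWeightedHomogeneous wt 0 :=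
    hw (subst wt (u := fun _ => (0 : W)) (AddMonoidHom.id W) (n := 0) (fun t => by
      rcases t with t | t
      exacts [hw ((hv _).mul (hl _)) (add_neg_cancel _), hw ((hz _).mul (hl' _)) (add_neg_cancel _)])
      fun d _ => by simp [Finsupp.weight_apply]) rfl
  refine hw (((hv o).mul h2).mul ((IsWeightedHomogeneous.sum _ _ (-α) fun i _ =>
    hw ((h3 i).mul (hl i)) (zero_add _)).pow _)) ?_
  rw [← Finset.sum_sub_distrib]
  simp only [sub_neg_eq_add, sub_add_cancel, Finset.sum_const, Finset.card_univ, smul_smul,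
    add_smul, one_smul, smul_neg, mul_comm b]
  abel

variable {o b E A}

/-- The value of `ε` where the projector kills `g`. -/
theorem val {v lam : ν → R} {z la : NV ν J → R} {g : Matrix X C' R} {mu : Matrix C' X R}
    (hμ : (mu * g).det = 1) (hg : E.map (aeval v) * g = 0) {T : R} {M : ℕ}
    (hT : T ^ M = ∑ i, aeval (wp v lam z la) (A i) * wp v lam z la (.inl (o, i))) :
    ep o b E A v lam z la g mu = T ^ (M * (b * Fintype.card C' + 1)) := by
  rw [ep, Matrix.mul_assoc, Matrix.sub_mul, hg, sub_zero, Matrix.smul_mul, Matrix.one_mul,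
    Matrix.mul_smul, det_smul, hμ, mul_one, ← pow_mul, ← pow_succ', ← mul_pow, pow_mul T, hT,
    Finset.mul_sum]
  exact congrArg (· ^ _) (Finset.sum_congr rfl fun i _ => mul_left_comm _ _ _)

variable {L : Type} [Field L] [Algebra K L]

/-- (h1). -/
theorem h1 [Fintype C] {F : X → MvPolynomial ν K}
    (hEF : E *ᵥ F = (MvPolynomial.X o ^ b : MvPolynomial ν K) • F)
    (hc : Fintype.card C + Fintype.card C' = Fintype.card X) {v lam : ν → L} {z la : NV ν J → L}
    {f : Matrix C X L} {g : Matrix X C' L} {mu : Matrix C' X L}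
    (hE : v o ≠ 0 → (∀ x, aeval v (F x) = 0) →
      E.map (aeval v) * E.map (aeval v) = v o ^ b • E.map (aeval v))
    (hf : LinearIndependent L f.row) (hμ : (mu * g).det = 1)
    (e1 : (f *ᵥ fun x => aeval v (F x)) = 0) (e2 : f * g = 0) (e3 : f * E.map (aeval v) * g = 0)
    (he : ep o b E A v lam z la g mu ≠ 0) :
    v o ≠ 0 ∧ (∀ x, aeval v (F x) = 0) ∧ E.map (aeval v) * g = 0 := by
  obtain ⟨h0, hd⟩ := mul_ne_zero_iff.1 (left_ne_zero_of_mul he)
  obtain ⟨a, b, -⟩ := Wd.h1 hf hμ hc e1 e2 e3 (funext fun x => by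
    simpa [mulVec, dotProduct, -map_aeval] using congrArg (aeval v) (congrFun hEF x))
    (fun h => hE h0 (congrFun h)) hd
  exact ⟨h0, congrFun a, b⟩

omit [Fintype X] [DecidableEq X] in
theorem col_ind [Fintype X] {g : Matrix X C' L} {mu : Matrix C' X L} (hμ : (mu * g).det = 1) :
    LinearIndependent L g.col := mulVec_injective_iff.1 fun a b e =>
  mulVec_injective_iff_isUnit.2 ((isUnit_iff_isUnit_det _).2 (hμ ▸ isUnit_one)) (by
    simp only [← mulVec_mulVec, e])

variable {Ω I : Type} [Field Ω] [Algebra K Ω] [Algebra Ω L]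

omit [Fintype ν] in
/-- A vector on the line through `u`. -/
theorem tau_of (ι : I → ν) {u : ν → Ω} (hu : u o = 1) {v : ν → L}
    (h : ∀ i k, v i * algebraMap Ω L (u k) = v k * algebraMap Ω L (u i)) : tau ι o u v = 0 :=
  funext fun i => by
    have := h (ι i) o
    rw [hu, map_one, mul_one] at this
    exact sub_eq_zero.2 (this.trans (mul_comm _ _))

omit [DecidableEq X] [Fintype C'] [DecidableEq C'] in
/-- (h3). -/
theorem h3 [IsScalarTower K Ω L] [Fintype C] [Fintype I] {A₀ S : Type} {ι : I → ν} (cv : Cv ι o)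
    {u : ν → Ω} (hu : u o = 1) {F : X → MvPolynomial ν K} {y : A₀ → MvPolynomial ν K} {a r : ℕ}
    (hF : ∀ x, (F x).IsHomogeneous a) (hE : ∀ x x', (E x x').IsHomogeneous b)
    (hy : ∀ i, (y i).IsHomogeneous r) {Δ : Matrix X C Ω} {Φ : Matrix C X Ω} {Γ : Matrix X C' Ω}
    (h0 : ∀ x, aeval u (F x) = 0) (h1 : E.map (aeval u) = Δ * Φ) {v lam : ν → L} {z₀ : L}
    {z : A₀ → L} {f : Matrix C X L} {g : Matrix X C' L} {s : S → L} (hv : Cov v lam)
    (ht : ∀ q, tB ι o u y Γ Φ v z₀ z f g s q = 0) :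
    v o ≠ 0 ∧ (∀ i k, v i * algebraMap Ω L (u k) = v k * algebraMap Ω L (u i)) ∧
      (∀ x, aeval v (F x) = 0) ∧ E.map (aeval v) * g = 0 ∧
      (∀ i, z i * v o ^ r = z₀ * aeval v (y i)) ∧ ∀ t, s t = 0 := by
  have hτ : tau ι o u v = 0 := funext fun i => ht (.inl i)
  have hl := congrFun ((cv.line hu).1 hτ)
  have ev {P : MvPolynomial ν K} {n : ℕ} (h : P.IsHomogeneous n) :
      aeval v P = v o ^ n * algebraMap Ω L (aeval u P) := by
    obtain ⟨Q, -, h, -⟩ := tay' cv hu h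
    rw [h L v, hτ]
    simp [mul_comm, -map_aeval]
  refine ⟨fun h => ?_, fun i k => by rw [hl i, hl k]; ring, fun x => by
    rw [ev (hF x), h0, map_zero, mul_zero], ?_, fun i => ?_, fun t => ht (.inr (.inr (.inr (.inr t))))⟩
  · refine zero_ne_one (Eq.trans ?_ (hv : _ = (1 : L)))
    exact (Finset.sum_eq_zero fun i _ => by rw [hl i, h, zero_mul, mul_zero]).symm
  · have e1 : E.map (aeval v) = v o ^ b • (Δ.map (algebraMap Ω L) * Φ.map (algebraMap Ω L)) := by
      rw [← Matrix.map_mul, ← h1]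
      exact Matrix.ext fun x x' => ev (hE x x')
    have e2 : Φ.map (algebraMap Ω L) * g = 0 :=
      Matrix.ext fun i j => ht (.inr (.inr (.inr (.inl (i, j)))))
    rw [e1, Matrix.smul_mul, Matrix.mul_assoc, e2, Matrix.mul_zero, smul_zero]
  · rw [ev (hy i), sub_eq_zero.1 (ht (.inr (.inl i)))]
    ring

section rows
variable [Fintype J] [Fintype C] {ρ : Type} {g₀ : ρ → MvPolynomial (ν × ν) K}
  {y : NV ν J → MvPolynomial ν K} {F : X → MvPolynomial ν K} {r M : ℕ} {v lam : ν → L}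
  {z la : NV ν J → L} {f : Matrix C X L} {g : Matrix X C' L} {mu : Matrix C' X L}
  (hEF : E *ᵥ F = (MvPolynomial.X o ^ b : MvPolynomial ν K) • F)
  (hc : Fintype.card C + Fintype.card C' = Fintype.card X)
  (hP : v o ≠ 0 → (∀ x, aeval v (F x) = 0) →
    E.map (aeval v) * E.map (aeval v) = v o ^ b • E.map (aeval v))
  (hJ : v o ≠ 0 → (∀ x, aeval v (F x) = 0) →
    (∀ a, a ≠ .inr o → z a * v o ^ r = z (.inr o) * aeval v (y a)) →
    JQ (algebraMap K L) g₀ y (wp v lam z la))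
  (hT : ∀ w : EW ν J → L, JQ (algebraMap K L) g₀ y w →
    TT w ^ M = ∑ i, eval₂ (algebraMap K L) w (A i) * w (.inl (o, i)))

end rows

end Pool.Agent.MP_855f4c_ag.A.Wpt

end

section

/-! h14a, section 4: assembly of the data on a product of lines, part 2. -/

set_option autoImplicit false

open MvPolynomial Matrix

namespace Pool.Agent.MP_855f4c_ag.A.Wp

open E E3 T T.Mtx G.La Wpt Wpa

section bk
variable {ν A κ S D D' : Type} [Fintype ν] [Fintype A] [Fintype κ] [DecidableEq κ] [Fintype S]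
  {w c c' : ℕ} (B : BK ν A κ S w c c') [CommRing D] [CommRing D']

/-- The values of the blocks at a point. -/
noncomputable def BK.vq (x : XV κ → D) : ν → D := fun i => aeval x (B.q i)
/-- The values of the blocks at a point. -/
noncomputable def BK.vz (x : XV κ → D) : A → D := fun i => aeval x (B.z i)
/-- The values of the blocks at a point. -/
noncomputable def BK.vf (x : XV κ → D) : Matrix (Fin c) (Fin w) D := B.f.map (aeval x)
/-- The values of the blocks at a point. -/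
noncomputable def BK.vg (x : XV κ → D) : Matrix (Fin w) (Fin c') D := B.g.map (aeval x)
/-- The values of the blocks at a point. -/
noncomputable def BK.vl (a : XY κ → D) : ν → D := fun i => aeval a (B.lam i)
/-- The values of the blocks at a point. -/
noncomputable def BK.vl' (a : XY κ → D) : A → D := fun i => aeval a (B.lam' i)
/-- The values of the blocks at a point. -/
noncomputable def BK.vm (a : XY κ → D) : Matrix (Fin c') (Fin w) D := B.mu.map (aeval a)
/-- The values of the blocks at a point. -/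
noncomputable def BK.vs (a : XY κ → D) : S → D := fun i => aeval a (B.s i)

variable {Φ : Type} [FunLike Φ D D'] [RingHomClass Φ D D'] (φ : Φ)

theorem evz' {σ : Type} (a : σ → D) (P : MvPolynomial σ ℤ) : φ (aeval a P) = aeval (φ ∘ a) P :=
  evz (φ : D →+* D') a P

theorem BK.map₁ (x : XV κ → D) : φ ∘ B.vq x = B.vq (φ ∘ x) ∧ φ ∘ B.vz x = B.vz (φ ∘ x) ∧
    (B.vf x).map φ = B.vf (φ ∘ x) ∧ (B.vg x).map φ = B.vg (φ ∘ x) :=
  ⟨funext fun _ => evz' φ _ _, funext fun _ => evz' φ _ _, Matrix.ext fun _ _ => evz' φ _ _,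
    Matrix.ext fun _ _ => evz' φ _ _⟩

theorem BK.map₂ (a : XY κ → D) : φ ∘ B.vl a = B.vl (φ ∘ a) ∧ φ ∘ B.vl' a = B.vl' (φ ∘ a) ∧
    (B.vm a).map φ = B.vm (φ ∘ a) ∧ φ ∘ B.vs a = B.vs (φ ∘ a) :=
  ⟨funext fun _ => evz' φ _ _, funext fun _ => evz' φ _ _, Matrix.ext fun _ _ => evz' φ _ _,
    funext fun _ => evz' φ _ _⟩

theorem BK.hom₁ (R : Type) [CommRing R] {σ : Type} {wt : σ → κ → ℤ} (j : XV κ → σ)
    (hj : ∀ t, wt (j t) = wv t) :
    (∀ i, (B.vq ((X : σ → MvPolynomial σ R) ∘ j) i).IsWeightedHomogeneous wt (cz B.α)) ∧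
    (∀ i, (B.vz ((X : σ → MvPolynomial σ R) ∘ j) i).IsWeightedHomogeneous wt (cz B.α')) ∧
    (∀ i x, (B.vf ((X : σ → MvPolynomial σ R) ∘ j) i x).IsWeightedHomogeneous wt (cz (B.β i))) ∧
    ∀ x i, (B.vg ((X : σ → MvPolynomial σ R) ∘ j) x i).IsWeightedHomogeneous wt (cz (B.γ i)) :=
  ⟨fun i => homI R j hj (B.hq i), fun i => homI R j hj (B.hz i), fun i x => homI R j hj (B.hf i x),
    fun x i => homI R j hj (B.hg x i)⟩

theorem BK.hom₂ (R : Type) [CommRing R] :
    (∀ i, Hg (-cz B.α) (B.vl (X : _ → MvPolynomial (XY κ) R) i)) ∧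
    (∀ i, Hg (-cz B.α') (B.vl' (X : _ → MvPolynomial (XY κ) R) i)) ∧
    (∀ i x, Hg (-cz (B.γ i)) (B.vm (X : _ → MvPolynomial (XY κ) R) i x)) ∧
    ∀ t, Hg (B.ns t) (B.vs (X : _ → MvPolynomial (XY κ) R) t) :=
  ⟨fun i => homI R id (fun _ => rfl) (B.hl i), fun i => homI R id (fun _ => rfl) (B.hl' i),
    fun i x => homI R id (fun _ => rfl) (B.hm i x), fun t => homI R id (fun _ => rfl) (B.hs t)⟩

theorem BK.cov' (a : XY κ → D) (h : Rel a) :
    Cov (B.vq (a ∘ .inl)) (B.vl a) ∧ Cov (B.vz (a ∘ .inl)) (B.vl' a) := B.cov D a h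

theorem BK.tri' {L : Type} [Field L] (a : XY κ → L) (h : Rel a) (hs : ∀ t, B.vs a t = 0) :
    LinearIndependent L (B.vf (a ∘ .inl)).row ∧ (B.vm a * B.vg (a ∘ .inl)).det = 1 :=
  B.tri L a h hs

end bk

/-- Equality of indices is decidable. -/
local instance ixd {I A C J S : Type} [DecidableEq I] [DecidableEq A] [DecidableEq C]
    [DecidableEq J] [DecidableEq S] : DecidableEq (Ix I A C J S) := inferInstance

theorem cz_nK {κ C A J : Type} (a b r : ℕ) (α α' : κ → ℕ) (β : C → κ → ℕ) (γ : J → κ → ℕ)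
    (q : C ⊕ A ⊕ (C × J) ⊕ (C × J)) : cz (nK a b r α α' β γ q) =
      nK a b r (cz α) (cz α') (fun i => cz (β i)) (fun j => cz (γ j)) q := by
  funext k
  rcases q with i | i | p | p <;> simp [nK, cz]

section core
variable {K ν J κ S D D' : Type} [CommRing K] [Fintype ν] [Fintype J] [Fintype κ]
  [DecidableEq κ] [Fintype S] {w c c' : ℕ} (B : BK ν (NV ν J) κ S w c c') (o : ν)
  (F : Fin w → MvPolynomial ν K) (E : Matrix (Fin w) (Fin w) (MvPolynomial ν K))
  (y : NV ν J → MvPolynomial ν K) (r b : ℕ) (A : ν → MvPolynomial (EW ν J) K)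
  [CommRing D] [Algebra K D] [CommRing D'] [Algebra K D']

/-- The indices other than the distinguished one. -/
abbrev AO (J : Type) {ν : Type} (o : ν) : Type := {t : NV ν J // t ≠ .inr o}

/-- The approximated equations at a point. -/
noncomputable def BK.tk (x : XV κ → D) :
    Fin c ⊕ AO J o ⊕ (Fin c × Fin c') ⊕ (Fin c × Fin c') → D :=
  tK o F E (fun t : AO J o => y t) r (B.vq x) (B.vz x (.inr o)) (fun t => B.vz x t) (B.vf x) (B.vg x)

/-- The function `ε` at a point. -/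
noncomputable def BK.eps (a : XY κ → D) : D :=
  ep o b E A (B.vq (a ∘ .inl)) (B.vl a) (B.vz (a ∘ .inl)) (B.vl' a) (B.vg (a ∘ .inl)) (B.vm a)

theorem BK.tk_map (φ : D →ₐ[K] D') (x : XV κ → D)
    (q : Fin c ⊕ AO J o ⊕ (Fin c × Fin c') ⊕ (Fin c × Fin c')) :
    φ (B.tk o F E y r x q) = B.tk o F E y r (φ ∘ x) q := by
  obtain ⟨h1, h2, h3, h4⟩ := B.map₁ φ x
  rw [BK.tk, BK.tk, tK_map, ← h1, ← h2, ← h3, ← h4]
  rfl

theorem BK.eps_map (φ : D →ₐ[K] D') (a : XY κ → D) :
    φ (B.eps o E b A a) = B.eps o E b A (φ ∘ a) := by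
  obtain ⟨h1, h2, -, h4⟩ := B.map₁ φ (a ∘ .inl)
  obtain ⟨h5, h6, h7, -⟩ := B.map₂ φ a
  rw [BK.eps, BK.eps, ep_map, h1, h2, h4, h5, h6, h7]
  rfl

variable {Ω : Type} [Field Ω] (u : ν → Ω) (Γ : Matrix (Fin w) (Fin c') Ω)
  (Φ : Matrix (Fin c) (Fin w) Ω) [Algebra K Ω] [Algebra Ω D] [Algebra Ω D']

/-- The linear system at a point. -/
noncomputable def BK.tb (a : XY κ → D) : Ix {k // k ≠ o} (AO J o) (Fin c) (Fin c') S → D :=
  tB Subtype.val o u (fun t : AO J o => y t) Γ Φ (B.vq (a ∘ .inl)) (B.vz (a ∘ .inl) (.inr o))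
    (fun t => B.vz (a ∘ .inl) t) (B.vf (a ∘ .inl)) (B.vg (a ∘ .inl)) (B.vs a)

omit [Algebra K D] [Algebra K D'] in
theorem BK.tb_map (φ : D →ₐ[Ω] D') (a : XY κ → D)
    (q : Ix {k // k ≠ o} (AO J o) (Fin c) (Fin c') S) :
    φ (B.tb o y u Γ Φ a q) = B.tb o y u Γ Φ (φ ∘ a) q := by
  obtain ⟨h1, h2, h3, h4⟩ := B.map₁ φ (a ∘ .inl)
  rw [BK.tb, BK.tb, tB_map, Function.comp_assoc, ← h1, ← h2, ← h3, ← h4, ← (B.map₂ φ a).2.2.2]
  rfl

end core

theorem evX (R : Type) {σ D : Type} [CommRing R] [CommRing D] [Algebra R D] (a : σ → D) :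
    (aeval a : MvPolynomial σ R →ₐ[R] D) ∘ X = a := funext (aeval_X a)

theorem cardne {ν : Type} [Fintype ν] [DecidableEq ν] (o : ν) :
    Fintype.card {k // k ≠ o} + 1 = Fintype.card ν := by
  rw [← Fintype.card_option, Fintype.card_congr (Equiv.optionSubtypeNe o)]

/-- The data from the blocks. -/
theorem core {K Ω ν ρ J φ κ S : Type} [Field K] [Field Ω] [IsAlgClosed Ω] [Algebra K Ω] [Fintype ν]
    [DecidableEq ν] [Fintype J] [DecidableEq J] [Fintype κ] [DecidableEq κ] [Fintype S]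
    [DecidableEq S] {o : ν} {d r : ℕ} {g : ρ → MvPolynomial (ν × ν) K} {G : J → MvPolynomial ν K}
    {F₀ : φ → MvPolynomial {k // k ≠ o} K} (H : XA o d r g G F₀) (c₀ : K) {w c c' a b : ℕ}
    (B : BK ν (NV ν J) κ S w c c') (hc : c + c' = w) {F : Fin w → MvPolynomial ν K}
    {E : Matrix (Fin w) (Fin w) (MvPolynomial ν K)} (hF : ∀ i, (F i).IsHomogeneous a)
    (hE : ∀ i k, (E i k).IsHomogeneous b) (hEF : E *ᵥ F = (X o ^ b : MvPolynomial ν K) • F)
    (hL : ∀ (k : Type) [Field k] [Algebra K k] (v : ν → k), v o ≠ 0 →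
      (∀ μ, Cov v μ → ((∀ i, aeval v (F i) = 0) ↔
        ∀ j, eval₂ (algebraMap K k) (fun p : ν × ν => v p.1 * μ p.2) (g j) = 0)) ∧
      ((∀ i, aeval v (F i) = 0) → E.map (aeval v) * E.map (aeval v) = v o ^ b • E.map (aeval v)))
    {u : ν → Ω} (hu : u o = 1) (e : {k // k ≠ o} ≃ Fin d ⊕ Fin c)
    (L : Matrix (Fin d) {k // k ≠ o} Ω) {Δ : Matrix (Fin w) (Fin c) Ω}
    {Φ : Matrix (Fin c) (Fin w) Ω} {Γ : Matrix (Fin w) (Fin c') Ω} {Γ' : Matrix (Fin c') (Fin w) Ω}
    (h0 : ∀ i, aeval u (F i) = 0) (h1 : E.map (aeval u) = Δ * Φ) (h1' : Φ * Δ = 1)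
    (h2 : 1 - E.map (aeval u) = Γ * Γ')
    (h3 : E.map (aeval u) * jac (I := {k // k ≠ o}) Subtype.val u F = jac Subtype.val u F)
    (h4 : ∀ τ : {k // k ≠ o} → Ω, jac Subtype.val u F *ᵥ τ = 0 → L *ᵥ τ = 0 → τ = 0) {n : ℕ}
    (η : Fin n ≃ Fin c ⊕ AO J o ⊕ (Fin c × Fin c') ⊕ (Fin c × Fin c')) {π : K} (hπ : π ≠ 0) :
    ∃ W : WD (algebraMap K Ω) g (yv G r c₀) u (ell o u L) o κ S n, ∀ t,
      W.nf t = cz (nK a b r B.α B.α' B.β B.γ (η t)) ∧
        W.f t = C π * B.tk o F E (yv G r c₀) r (X ∘ .inl) (η t) := by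
  obtain ⟨M₀, A, -, hA⟩ := tm H c₀
  have hy := yv_hom H.hom c₀
  obtain ⟨q1, q2, q3, q4⟩ := B.hom₁ Ω (wt := wt) Sum.inl fun _ => rfl
  obtain ⟨k1, k2, k3, k4⟩ := B.hom₁ K (wt := wt) Sum.inl fun _ => rfl
  obtain ⟨z1, z2, -, -⟩ := B.hom₁ ℤ (wt := wt) Sum.inl fun _ => rfl
  obtain ⟨l1, l2, l3, l4⟩ := B.hom₂ K
  obtain ⟨M, m1, m2, m3⟩ := mtx wt (cv_ne o) hu e L hF hE (fun t : AO J o => hy t) h0 h1 h2 h3 h4
    (ω := 1) (fun t : AO J o => B.vz (X ∘ .inl) t) (B.vs X) (nl := cz B.α) B.ns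
    (by simpa using isWeightedHomogeneous_one Ω wt) q1 (q2 (.inr o)) q3 q4
  have m4 := tB_hom (I := {k // k ≠ o}) wt Subtype.val o u (fun t : AO J o => yv G r c₀ t) Γ Φ q1 (q2 (.inr o))
    (fun t : AO J o => q2 t) q3 q4 (B.hom₂ Ω).2.2.2
  have tb (D : Type) [CommRing D] [Algebra Ω D] (x : XY κ → D) (q) :
      aeval x (B.tb o (yv G r c₀) u Γ Φ (X : _ → MvPolynomial (XY κ) Ω) q) =
        B.tb o (yv G r c₀) u Γ Φ x q := by rw [BK.tb_map, evX]
  have pk (D : Type) [CommRing D] [Algebra K D] (x : XY κ → D) :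
      (∀ q, aeval x (C π * B.tk o F E (yv G r c₀) r (X ∘ .inl) q : MvPolynomial (XY κ) K) =
        algebraMap K D π * B.tk o F E (yv G r c₀) r (x ∘ .inl) q) ∧
      (∀ t, aeval x (B.vs X t : MvPolynomial (XY κ) K) = B.vs x t) ∧
      aeval x (B.eps o E b A X : MvPolynomial (XY κ) K) = B.eps o E b A x :=
    ⟨fun q => by rw [map_mul, aeval_C, BK.tk_map, ← Function.comp_assoc, evX],
      fun t => (congrFun (B.map₂ _ _).2.2.2 t).trans (by rw [evX]), by rw [BK.eps_map, evX]⟩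
  have pz (D : Type) [CommRing D] (x : XY κ → D) :
      (∀ i, aeval x (B.vq (X ∘ .inl) i : MvPolynomial (XY κ) ℤ) = B.vq (x ∘ .inl) i) ∧
      (∀ i, aeval x (B.vz (X ∘ .inl) i : MvPolynomial (XY κ) ℤ) = B.vz (x ∘ .inl) i) :=
    ⟨fun i => (congrFun (B.map₁ _ _).1 i).trans (by rw [← Function.comp_assoc, evX]),
      fun i => (congrFun (B.map₁ _ _).2.1 i).trans (by rw [← Function.comp_assoc, evX])⟩
  have pw (D : Type) [CommRing D] (x : XY κ → D) :
      (fun v => aeval x (wp (B.vq (X ∘ .inl)) B.lam (B.vz (X ∘ .inl)) B.lam' v)) =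
        wp (B.vq (x ∘ .inl)) (B.vl x) (B.vz (x ∘ .inl)) (B.vl' x) := by
    funext v
    rcases v with v | v <;> simp only [wp, Sum.elim_inl, Sum.elim_inr, map_mul, pz] <;> rfl
  have fin (k : Type) [Field k] [Algebra K k] (x : XY κ → k) (hx : Rel x) (hs : ∀ t, B.vs x t = 0)
      (v0 : B.vq (x ∘ .inl) o ≠ 0) (vF : ∀ i, aeval (B.vq (x ∘ .inl)) (F i) = 0)
      (vE : E.map (aeval (B.vq (x ∘ .inl))) * B.vg (x ∘ .inl) = 0)
      (vz : ∀ t : AO J o, B.vz (x ∘ .inl) t * B.vq (x ∘ .inl) o ^ r =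
        B.vz (x ∘ .inl) (.inr o) * aeval (B.vq (x ∘ .inl)) (yv G r c₀ t)) :
      JQ (algebraMap K k) g (yv G r c₀)
        (fun v => aeval x (wp (B.vq (X ∘ .inl)) B.lam (B.vz (X ∘ .inl)) B.lam' v)) ∧
      aeval x (B.eps o E b A X : MvPolynomial (XY κ) K) =
        TT (fun v => aeval x (wp (B.vq (X ∘ .inl)) B.lam (B.vz (X ∘ .inl)) B.lam' v)) ^
          (M₀ * (b * Fintype.card (Fin c') + 1)) := by
    have j := jqp (algebraMap K k) H.hom c₀ (B.cov' x hx).2
      (((hL k _ v0).1 _ (B.cov' x hx).1).1 vF) v0.isUnit fun t ht => vz ⟨t, ht⟩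
    rw [pw, (pk k x).2.2]
    exact ⟨j, val (B.tri' x hx hs).2 vE (hA k _ _ j)⟩
  have p1 (k : Type) [Field k] [Algebra K k] (x : XY κ → k) (hx : Rel x)
      (hf : ∀ t, aeval x (C π * B.tk o F E (yv G r c₀) r (X ∘ .inl) (η t) :
        MvPolynomial (XY κ) K) = 0) (hs : ∀ t, aeval x (B.vs X t : MvPolynomial (XY κ) K) = 0)
      (he : aeval x (B.eps o E b A X : MvPolynomial (XY κ) K) ≠ 0) :
      (∀ q, B.tk o F E (yv G r c₀) r (x ∘ .inl) q = 0) ∧ (∀ t, B.vs x t = 0) ∧
      B.vq (x ∘ .inl) o ≠ 0 ∧ (∀ i, aeval (B.vq (x ∘ .inl)) (F i) = 0) ∧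
      E.map (aeval (B.vq (x ∘ .inl))) * B.vg (x ∘ .inl) = 0 := by
    have ht (q) : B.tk o F E (yv G r c₀) r (x ∘ .inl) q = 0 := by
      have := hf (η.symm q)
      rwa [(pk k x).1, η.apply_symm_apply, mul_eq_zero,
        or_iff_right ((map_ne_zero _).2 hπ)] at this
    have hs' (t) : B.vs x t = 0 := ((pk k x).2.1 t).symm.trans (hs t)
    rw [(pk k x).2.2] at he
    exact ⟨ht, hs', Wpt.h1 hEF (by simp [hc]) (fun h => (hL k _ h).2) (B.tri' x hx hs').1
      (B.tri' x hx hs').2 (funext fun i => ht (.inl i))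
      (Matrix.ext fun i j => ht (.inr (.inr (.inl (i, j)))))
      (Matrix.ext fun i j => ht (.inr (.inr (.inr (i, j))))) he⟩
  have p3 (k : Type) [Field k] [Algebra K k] [Algebra Ω k] [IsScalarTower K Ω k] (x : XY κ → k)
      (hx : Rel x) (ht : ∀ q, B.tb o (yv G r c₀) u Γ Φ x q = 0) :=
    Wpt.h3 (cv_ne o) hu hF hE (fun t : AO J o => hy t) h0 h1 (B.cov' x hx).1 ht
  obtain ⟨lam, bb, -, dl⟩ := delta (Ω := Ω) m1 m4 fun x hx ht => by
    have ht' (q) := (tb Ω x q).symm.trans (ht q)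
    obtain ⟨a1, -, -, -, -, a2⟩ := p3 Ω x hx ht'
    obtain ⟨b1, -, b3, b4⟩ := B.map₁ (aeval x : MvPolynomial (XY κ) Ω →ₐ[Ω] Ω) (X ∘ .inl)
    rw [← Function.comp_assoc, evX] at b1 b3 b4
    refine m3 x ht ((congrFun b1 o).trans_ne a1) (by simp) ?_ ?_
    · rw [b3]; exact (B.tri' x hx a2).1
    · rw [b4]; exact col_ind (B.tri' x hx a2).2
  let ε := sh (S := S) e η
  let sc : BI d S n → K := Sum.elim 1 (Sum.elim 1 fun _ => π)
  refine ⟨{
    f := fun t => C π * B.tk o F E (yv G r c₀) r (X ∘ .inl) (η t)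
    nf := fun t => cz (nK a b r B.α B.α' B.β B.γ (η t))
    s := B.vs X
    ns := B.ns
    q := B.vq (X ∘ .inl)
    lam := B.lam
    m := cz B.α
    q' := B.vz (X ∘ .inl)
    lam' := B.lam'
    m' := cz B.α'
    eps := B.eps o E b A X
    M := M₀ * (b * Fintype.card (Fin c') + 1)
    t' := fun q => B.tb o (yv G r c₀) u Γ Φ X (ε q)
    n' := fun q => nB (cz B.α) (cz B.α') (fun i => cz (B.β i)) (fun j => cz (B.γ j)) B.ns (ε q)
    Mx := diagonal (fun q => C (algebraMap K Ω (sc q))) * M.submatrix ε ε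
    hf := fun t => cz_nK a b r B.α B.α' B.β B.γ (η t) ▸ (tK_hom wt o hF hE (fun t : AO J o => hy t)
      k1 (k2 (.inr o)) (fun t : AO J o => k2 t) k3 k4 (η t)).C_mul π
    hs := l4
    hq := fun i => ⟨z1 i, B.hl i⟩
    hq' := fun i => ⟨z2 i, B.hl' i⟩
    he := ep_hom o b E A wt hE k1 l1 k2 l2 k4 l3
    ht := fun q => m4 (ε q)
    hM := fun p q => ?_
    cov := fun D _ x hx => ?_
    mat := fun D _ ω x _ p => ?_
    h1 := fun k _ χ x hx hf hs he => ?_
    h2 := fun k _ ω x hx hf hs he hp q => ?_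
    h3 := fun k _ ω x hx ht => ?_
    num := ?_ }, fun _ => ⟨rfl, rfl⟩⟩
  · have := (m1 (ε p) (ε q)).C_mul (algebraMap K Ω (sc p))
    rw [nA_sh] at this
    simpa only [diagonal_mul, submatrix_apply, cz_nK] using this
  · simp only [pz]
    exact B.cov D x hx
  · let _ := ω.toAlgebra
    let _ := (ω.comp (algebraMap K Ω)).toAlgebra
    have : IsScalarTower K Ω D := .of_algebraMap_eq' rfl
    let ψ : MvPolynomial (XY κ) Ω →ₐ[Ω] D := aeval x
    obtain ⟨b1, b2, b3, b4⟩ := B.map₁ ψ (X ∘ .inl)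
    have b5 := (B.map₂ ψ X).2.2.2
    rw [← Function.comp_assoc] at b1 b2 b3 b4
    rw [evX] at b1 b2 b3 b4 b5
    have e1 := congrArg ψ (congrFun m2 (ε p))
    rw [tA_map, map_one, b1, b3, b4, b5, tA_sh] at e1
    have e2 : ∑ q, ψ ((diagonal (fun q => C (algebraMap K Ω (sc q))) * M.submatrix ε ε :
        Matrix (BI d S n) (BI d S n) _) p q) * ψ (B.tb o (yv G r c₀) u Γ Φ X (ε q)) =
        algebraMap K D (sc p) * ψ ((M *ᵥ B.tb o (yv G r c₀) u Γ Φ X) (ε p)) := by
      rw [mulVec, dotProduct, ← ε.sum_comp, map_sum, Finset.mul_sum]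
      refine Finset.sum_congr rfl fun q _ => ?_
      rw [diagonal_mul, submatrix_apply, map_mul, map_mul, mul_assoc, aeval_C]
      rfl
    refine Eq.trans ?_ ((congrArg _ e1).trans e2.symm)
    rcases p with p | p | p
    · simp only [Sum.elim_inl, pz, sc, Pi.one_apply, map_one, one_mul]
      exact ell_eq u L _ p
    · exact ((pk D x).2.1 p).trans (by simp [sc])
    · refine ((pk D x).1 _).trans ?_
      rw [BK.tk, ← b2]
      rfl
  · let _ := χ.toAlgebra
    obtain ⟨a1, a2, a3, a4, a5⟩ := p1 k x hx hf hs he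
    exact fin k x hx a2 a3 a4 a5 fun t => sub_eq_zero.1 (a1 (.inr (.inl t)))
  · let _ := ω.toAlgebra
    let _ := (ω.comp (algebraMap K Ω)).toAlgebra
    have : IsScalarTower K Ω k := .of_algebraMap_eq' rfl
    obtain ⟨a1, a2, a3, a4, a5⟩ := p1 k x hx hf hs he
    simp only [pz] at hp
    refine (tb k x _).trans (congrFun (Mtx.h2 (cv_ne o) hu e L F hE (fun t : AO J o => hy t) h1 h1'
      h2 (ω := 1) a3 (tau_of _ hu hp) ?_ (col_ind (B.tri' x hx a2).2) a5) _)
    rintro (t | p | p | t)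
    exacts [a1 (.inr (.inl t)), a1 (.inr (.inr (.inl p))), a1 (.inr (.inr (.inr p))), a2 t]
  · let _ := ω.toAlgebra
    let _ := (ω.comp (algebraMap K Ω)).toAlgebra
    have : IsScalarTower K Ω k := .of_algebraMap_eq' rfl
    have ht' (q) : aeval x (B.tb o (yv G r c₀) u Γ Φ (X : _ → MvPolynomial (XY κ) Ω) q) = 0 :=
      ε.apply_symm_apply q ▸ ht (ε.symm q)
    obtain ⟨a1, a2, a3, a4, a5, a6⟩ := p3 k x hx fun q => (tb k x q).symm.trans (ht' q)
    refine ⟨by simp only [pz]; exact a2, ?_, fin k x hx a6 a1 a3 a4 a5⟩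
    have := (dl k ω x hx).trans (congrArg (1 + ·)
      (Finset.sum_eq_zero fun q _ => mul_eq_zero_of_right _ (ht' q)))
    rw [add_zero, eval₂_mul] at this
    rw [det_mul, det_diagonal, det_submatrix_equiv_self, eval₂_mul, eval₂_prod]
    refine mul_ne_zero (Finset.prod_ne_zero_iff.2 fun q _ => ?_)
      (right_ne_zero_of_mul_eq_one this)
    rcases q with q | q | q <;> simp [sc, hπ]
  · rw [ε.prod_comp fun q => lin (nB (cz B.α) (cz B.α') (fun i => cz (B.β i))
      (fun j => cz (B.γ j)) B.ns q)]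
    exact B.num _ _ (cardne o) (cardne _)

end Pool.Agent.MP_855f4c_ag.A.Wp

namespace Pool.Agent.MP_855f4c_ag.A

open E E3 T T.Mtx G.La Wpa Wp

/-- Row WP. -/
theorem wpx : WP_s := by
  intro p _ K ν ρ J φ _ _ _ _ _ _ o d r g G F₀ c₀ u H _ hu hu'
  classical
  obtain ⟨w, a, b, F, E, -, -, hF, hE, hEF, hL, h⟩ := xaw H
  obtain ⟨c, c', e, L, Δ, Φ, Γ, Γ', hc, h0, h1, h1', h2, -, h3, h4, iso⟩ := h _ u hu hu'
  have : Nonempty ν := ⟨o⟩
  obtain ⟨κ, S, _, _, _, _, ⟨B⟩⟩ := blk ν (NV ν J) w c c' hc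
  let η := (Fintype.equivFin (Fin c ⊕ AO J o ⊕ (Fin c × Fin c') ⊕ (Fin c × Fin c'))).symm
  obtain ⟨k1, k2, k3, k4⟩ := B.hom₁ K (wt := wv) id fun _ => rfl
  obtain ⟨π, cf, hπ, hcf, e1⟩ := gf p (fun t => nK a b r B.α B.α' B.β B.γ (η t))
    (fun t => B.tk o F E (yv G r c₀) r X (η t)) fun t => cz_nK a b r B.α B.α' B.β B.γ (η t) ▸
      tK_hom wv o hF hE (fun t : AO J o => yv_hom H.hom c₀ t) k1 (k2 (.inr o))
        (fun t : AO J o => k2 t) k3 k4 (η t)
  obtain ⟨W, hW⟩ := core H c₀ B hc hF hE hEF hL hu e L h0 h1 h1' h2 h3 h4 η hπ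
  refine ⟨_, κ, S, _, _, _, _, _, _, cf, W, iso, hcf, fun t => ⟨(hW t).1, ?_⟩⟩
  rw [(hW t).2, ← e1, BK.tk_map, evX]

end Pool.Agent.MP_855f4c_ag.A

end

section

/-! h14a: the double model is formally smooth (row JFS). -/

set_option autoImplicit false

open MvPolynomial

namespace Pool.Agent.MP_855f4c_ag.A

open T

namespace Jfs

variable {K D ν ρ J : Type} [CommRing K] [CommRing D] [Fintype ν] [Fintype J]

omit [Fintype ν] [Fintype J] in
theorem yv_hom {G : J → MvPolynomial ν K} {r : ℕ} (c : K) (hG : ∀ j, (G j).IsHomogeneous r) :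
    ∀ a, (yv G r c a).IsHomogeneous r := by
  rintro (j | m)
  · exact (hG j).C_mul _
  · have := (isHomogeneous_X K m).pow r
    rwa [one_mul] at this

/-- The values of the second coordinates at the columns form a matrix of rank one. -/
theorem ln (χ : K →+* D) {e : ν × ν → D} (he : YJ.RK e) {G : J → MvPolynomial ν K} {r : ℕ} (c : K)
    (hG : ∀ j, (G j).IsHomogeneous r) : ∃ S : ν → NV ν J → D,
      Jr.Ln (fun a i => eval₂ χ (fun k => e (k, i)) (yv G r c a)) S ∧ ∀ i j, S i (.inl j) = 0 := by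
  classical
  obtain ⟨s, hs⟩ := Jr.ex_cos he r
  refine ⟨fun i => Sum.elim 0 fun m => if m = i then s i else 0,
    ⟨fun a b i j => Jr.form_minor χ he (yv_hom c hG a) (yv_hom c hG b) i j, ?_⟩, fun _ _ => rfl⟩
  simpa [yv, mul_comm] using hs

/-- The double model is a retract of an affine space over the first model. -/
theorem ret (g : ρ → MvPolynomial (ν × ν) K) {G : J → MvPolynomial ν K} {r : ℕ} (c : K)
    (hG : ∀ j, (G j).IsHomogeneous r)
    (hg : YJ.RK fun p : ν × ν => Ideal.Quotient.mk (Ideal.span (Set.range g)) (X p)) :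
    ∃ (π : MvPolynomial (NV ν J × NV ν J) (MvPolynomial (ν × ν) K ⧸ Ideal.span (Set.range g)) →ₐ[K]
        MvPolynomial (EW ν J) K ⧸ Ideal.span (Set.range (jq g (yv G r c))))
      (s : (MvPolynomial (EW ν J) K ⧸ Ideal.span (Set.range (jq g (yv G r c)))) →ₐ[K]
        MvPolynomial (NV ν J × NV ν J) (MvPolynomial (ν × ν) K ⧸ Ideal.span (Set.range g))),
      π.comp s = AlgHom.id K _ ∧
      (∀ p, π (C (Ideal.Quotient.mk _ (X p))) = Ideal.Quotient.mk _ (X (.inl p))) ∧
      (∀ p, π (X p) = Ideal.Quotient.mk _ (X (.inr p))) ∧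
      ∀ p, s (Ideal.Quotient.mk _ (X (.inl p))) = C (Ideal.Quotient.mk _ (X p)) := by
  let R := MvPolynomial (ν × ν) K ⧸ Ideal.span (Set.range g)
  let W := MvPolynomial (EW ν J) K ⧸ Ideal.span (Set.range (jq g (yv G r c)))
  let P := MvPolynomial (NV ν J × NV ν J) R
  let w : EW ν J → W := fun v => Ideal.Quotient.mk _ (X v)
  have ev : ∀ {σ : Type} (I : Ideal (MvPolynomial σ K)) (q : MvPolynomial σ K),
      eval₂ (algebraMap K (MvPolynomial σ K ⧸ I)) (fun v => Ideal.Quotient.mk I (X v)) q =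
        Ideal.Quotient.mk I q := fun I q =>
    DFunLike.congr_fun (algHom_ext (f := aeval fun v => Ideal.Quotient.mk I (X v))
      (g := Ideal.Quotient.mkₐ K I) fun v => aeval_X _ _) q
  have hw : JQ (algebraMap K W) g (yv G r c) w := (jq_iff _ _ _ _).1 fun t =>
    (ev _ _).trans (Ideal.Quotient.eq_zero_iff_mem.2 (Ideal.subset_span ⟨t, rfl⟩))
  let α : R →ₐ[K] W := Ideal.Quotient.liftₐ _ (aeval (w ∘ .inl)) fun a ha =>
    (Ideal.span_le (I := RingHom.ker (aeval (w ∘ .inl) : _ →ₐ[K] W))).2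
      (Set.range_subset_iff.2 hw.1) ha
  have hα : ∀ p, α (Ideal.Quotient.mk _ (X p)) = w (.inl p) := fun p => aeval_X _ _
  let π : P →ₐ[K] W := aevalTower α (w ∘ .inr)
  have πC : ∀ a, π (C a) = α a := aevalTower_C _ _
  have πX : ∀ p, π (X p) = w (.inr p) := aevalTower_X _ _
  let e : ν × ν → P := fun p => C (Ideal.Quotient.mk _ (X p))
  have he : YJ.RK e := YJ.RK.map (C := R) (D := P) hg C
  obtain ⟨S, hS, -⟩ := ln (algebraMap K P) he c hG
  let z : EW ν J → P := Sum.elim e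
    (Jr.rt (fun a i => eval₂ (algebraMap K P) (fun k => e (k, i)) (yv G r c a)) S X)
  have hz : JQ (algebraMap K P) g (yv G r c) z := by
    refine ⟨fun j => ?_, (hS.rt X).1, (hS.rt X).2⟩
    have := eval₂_comp_left (C : R →+* P) (algebraMap K R)
      (fun v => Ideal.Quotient.mk _ (X v)) (g j)
    rw [ev, Ideal.Quotient.eq_zero_iff_mem.2 (Ideal.subset_span (Set.mem_range_self j)),
      map_zero] at this
    exact this.symm
  let s : W →ₐ[K] P := Ideal.Quotient.liftₐ _ (aeval z) fun a ha =>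
    (Ideal.span_le (I := RingHom.ker (aeval z : _ →ₐ[K] P))).2
      (Set.range_subset_iff.2 ((jq_iff _ _ _ _).2 hz)) ha
  have hs : ∀ v, s (w v) = z v := fun v => aeval_X _ _
  refine ⟨π, s, Ideal.Quotient.algHom_ext K (algHom_ext fun v => ?_),
    fun p => (πC _).trans (hα p), πX, fun p => hs (.inl p)⟩
  change π (s (w v)) = w v
  rw [hs]
  rcases v with p | p
  · exact (πC _).trans (hα p)
  · have hq : ∀ a i, (π : P →+* W) (eval₂ (algebraMap K P) (fun k => e (k, i)) (yv G r c a)) =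
        eval₂ (algebraMap K W) (cw w i) (yv G r c a) := fun a i => by
      rw [eval₂_comp_left, π.comp_algebraMap]
      exact congrArg (eval₂ _ · _) (funext fun k => (πC _).trans (hα _))
    have h := hS.map (π : P →+* W)
    refine (Jr.map_rt (π : P →+* W) _ S X p).trans ?_
    simp only [hq] at h ⊢
    rw [show (fun q => (π : P →+* W) (X q)) = w ∘ .inr from funext πX]
    exact congrFun (Jr.PQ.rt h ⟨hw.2.1, hw.2.2⟩) p

theorem split {P A : Type} [CommRing P] [CommRing A] [Algebra K P] [Algebra K A]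
    [Algebra.FormallySmooth K P] (π : P →ₐ[K] A) (s : A →ₐ[K] P) (h : π.comp s = AlgHom.id K A) :
    Algebra.FormallySmooth K A :=
  .of_split π ((Ideal.Quotient.mkₐ K _).comp s) (AlgHom.ext fun x => DFunLike.congr_fun h x)

theorem fs (g : ρ → MvPolynomial (ν × ν) K) {G : J → MvPolynomial ν K} {r : ℕ} (c : K)
    (hG : ∀ j, (G j).IsHomogeneous r)
    [Algebra.FormallySmooth K (MvPolynomial (ν × ν) K ⧸ Ideal.span (Set.range g))]
    (hg : ∀ (D : Type) [CommRing D] (χ : K →+* D) (z : ν × ν → D), (∀ j, eval₂ χ z (g j) = 0) →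
      YJ.RK z) : Algebra.FormallySmooth K
      (MvPolynomial (EW ν J) K ⧸ Ideal.span (Set.range (jq g (yv G r c)))) := by
  obtain ⟨π, s, h, -⟩ := ret g c hG (hg _ (algebraMap K _) _ fun j =>
    (DFunLike.congr_fun (algHom_ext (f := aeval fun v => Ideal.Quotient.mk _ (X v))
      (g := Ideal.Quotient.mkₐ K (Ideal.span (Set.range g))) fun v => aeval_X _ _) (g j)).trans
      (Ideal.Quotient.eq_zero_iff_mem.2 (Ideal.subset_span ⟨j, rfl⟩)))
  have := Algebra.FormallySmooth.comp K (MvPolynomial (ν × ν) K ⧸ Ideal.span (Set.range g))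
    (MvPolynomial (NV ν J × NV ν J) (MvPolynomial (ν × ν) K ⧸ Ideal.span (Set.range g)))
  exact split (P := MvPolynomial (NV ν J × NV ν J)
    (MvPolynomial (ν × ν) K ⧸ Ideal.span (Set.range g))) π s h

end Jfs

theorem jfs : JFS_s := fun _ _ _ _ _ _ _ _ g _ _ c hG _ hg => Jfs.fs g c hG hg

end Pool.Agent.MP_855f4c_ag.A

end

section

/-! h14a row JXD (helper90): affine models of a pair of closed subschemes of projective space. -/

set_option autoImplicit false
set_option backward.isDefEq.respectTransparency false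

open CategoryTheory Limits AlgebraicGeometry MvPolynomial

namespace Pool.Agent.MP_855f4c_ag.T.Jxd

open E YJ ZP

attribute [local instance] MvPolynomial.gradedAlgebra

/-- Projective space. -/
noncomputable abbrev PP (K ν : Type) [CommRing K] : Scheme.{0} := Proj (homogeneousSubmodule ν K)

/-- The structure map of projective space. -/
noncomputable abbrev pS (K ν : Type) [CommRing K] : PP K ν ⟶ Spec (.of K) :=
  Proj.toSpecZero _ ≫ spc (algebraMap K (homogeneousSubmodule ν K 0))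

variable {K ν : Type} [CommRing K] [Fintype ν] {C D : Type} [CommRing C] [CommRing D]

/-- `t` is the image of the matrix `e`. -/
def Ln (χ : K →+* C) (e : ν × ν → C) (t : Spec (.of C) ⟶ PP K ν) : Prop :=
  ∀ (D : Type) [CommRing D] (ψ : C →+* D) (v : ν → D) (i : ν) (h : IsUnit (v i)),
    (∀ k, ∑ l, ψ (e (k, l)) * v l = v k) → spc ψ ≫ t = pt (ψ.comp χ) v i h

theorem ex_ln (χ : K →+* C) {e : ν × ν → C} (he : RK e) : ∃ t, Ln χ e t := ex_line χ he

theorem Ln.map {χ : K →+* C} {e : ν × ν → C} {t : Spec (.of C) ⟶ PP K ν} (h : Ln χ e t)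
    (φ : C →+* D) : Ln (φ.comp χ) (fun p => φ (e p)) (spc φ ≫ t) := fun D' _ ψ v i hi hv => by
  rw [← Category.assoc, spc_spc]
  exact h D' (ψ.comp φ) v i hi hv

theorem Ln.col {χ : K →+* C} {e : ν × ν → C} {t : Spec (.of C) ⟶ PP K ν} (h : Ln χ e t) (he : RK e)
    (ψ : C →+* D) (j : ν) (hj : IsUnit (ψ (e (j, j)))) :
    spc ψ ≫ t = pt (ψ.comp χ) (fun k => ψ (e (k, j))) j hj :=
  h D ψ _ j hj ((he.map ψ).col j)

theorem Ln.uniq {χ : K →+* C} {e : ν × ν → C} {t t' : Spec (.of C) ⟶ PP K ν} (he : RK e)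
    (h : Ln χ e t) (h' : Ln χ e t') : t = t' :=
  spec_ext _ he.span _ _ fun j =>
    (h.col he _ j (IsLocalization.Away.algebraMap_isUnit _)).trans
      (h'.col he _ j (IsLocalization.Away.algebraMap_isUnit _)).symm

theorem Ln.over {χ : K →+* C} {e : ν × ν → C} {t : Spec (.of C) ⟶ PP K ν} (he : RK e)
    (h : Ln χ e t) : t ≫ pS K ν = spc χ := line_over χ he t h

theorem ln_pt (χ : K →+* C) (v μ : ν → C) (i : ν) (h : IsUnit (v i)) :
    Ln χ (fun p => v p.1 * μ p.2) (pt χ v i h) := fun D _ ψ w j hj hw => by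
  rw [pt_comp]
  refine pt_eq _ _ _ fun k => ?_
  have e : ∀ k, w k = ψ (v k) * ∑ l, ψ (μ l) * w l := fun k => by
    rw [← hw k, Finset.mul_sum]
    exact Finset.sum_congr rfl fun l _ => by rw [map_mul, mul_assoc]
  rw [e k, e j]
  ring

theorem loc_ext {ι : Type} (s : ι → C) (hs : Ideal.span (Set.range s) = ⊤) {a b : C}
    (h : ∀ i, algebraMap C (Localization.Away (s i)) a = algebraMap C _ b) : a = b := by
  refine sub_eq_zero.1 (Module.eq_zero_of_isLocalized_span (Set.range s) hs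
    (fun r => Localization.Away r.1) (fun r => Algebra.linearMap C _) _ ?_)
  rintro ⟨_, i, rfl⟩
  simpa [sub_eq_zero] using h i

theorem Ln.fix {χ χ' : K →+* C} {e : ν × ν → C} {v : ν → C} {j : ν} {hj : IsUnit (v j)} (he : RK e)
    (h : Ln χ e (pt χ' v j hj)) (k l : ν) : e (k, l) * v j = v k * e (j, l) := by
  refine loc_ext _ he.span fun m => ?_
  set ψ := algebraMap C (Localization.Away (e (m, m)))
  have hm : IsUnit (ψ (e (m, m))) := IsLocalization.Away.algebraMap_isUnit _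
  have e1 := h.col he ψ m hm
  rw [pt_comp] at e1
  have e2 := pt_inj _ _ _ _ e1 k
  refine hm.mul_right_cancel ?_
  have a := congrArg ψ (he.2 k l m m)
  have b := congrArg ψ (he.2 j l m m)
  simp only [map_mul] at a b ⊢
  linear_combination ψ (v j) * a - ψ (v k) * b - ψ (e (m, l)) * e2

theorem ev_col (χ : K →+* C) {e : ν × ν → C} (he : RK e) {G : MvPolynomial ν K} {d : ℕ}
    (hG : G.IsHomogeneous d) (i j : ν) :
    eval₂ χ (fun k => e (k, i)) G * e (j, j) ^ d = eval₂ χ (fun k => e (k, j)) G * e (j, i) ^ d := by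
  have a := hom_scale χ (fun k => e (k, i)) (e (j, j)) (a := G) hG
  have b := hom_scale χ (fun k => e (k, j)) (e (j, i)) (a := G) hG
  rw [coe_eval₂Hom, coe_eval₂Hom] at a b
  rw [← a, ← b]
  congr 1
  exact funext fun k => he.2 k i j j

/-! ### Equations for the lines that lie in a subscheme -/

variable {R B : Type} [CommRing R] [CommRing B] {Y Y' Z : Scheme.{0}}

/-- `Y` is a subscheme of projective space over `R`, and `S` are equations for the matrices of
rank one whose image is a point of `Y`. -/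
structure Lin (τ : K →+* R) (f : Y ⟶ Spec (.of R)) (ι : Y ⟶ PP K ν)
    (S : Set (MvPolynomial (ν × ν) K)) : Prop where
  ov : ι ≫ pS K ν = f ≫ spc τ
  inj : ∀ (C : Type) [CommRing C] (y y' : Spec (.of C) ⟶ Y), y ≫ f = y' ≫ f → y ≫ ι = y' ≫ ι → y = y'
  mem : ∀ (C : Type) [CommRing C] (ω : R →+* C) (e : ν × ν → C),
    (∀ g ∈ S, eval₂ (ω.comp τ) e g = 0) ↔
      RK e ∧ ∃ y : Spec (.of C) ⟶ Y, y ≫ f = spc ω ∧ Ln (ω.comp τ) e (y ≫ ι)

variable {τ : K →+* R} {f : Y ⟶ Spec (.of R)} {ι : Y ⟶ PP K ν} {S : Set (MvPolynomial (ν × ν) K)}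

theorem Lin.bc (h : Lin τ f ι S) {R' : Type} [CommRing R'] {ψ : R →+* R'} {a : Y' ⟶ Y}
    {f' : Y' ⟶ Spec (.of R')} (H : IsPullback a f' f (spc ψ)) : Lin (ψ.comp τ) f' (a ≫ ι) S := by
  refine ⟨?_, fun C _ y y' h1 h2 => H.hom_ext (h.inj C _ _ ?_ ?_) h1, fun C _ ω e => ?_⟩
  · rw [Category.assoc, h.ov, ← Category.assoc, H.w, Category.assoc, spc_spc]
  · rw [Category.assoc, Category.assoc, H.w, reassoc_of% h1]
  · simpa using h2
  refine (h.mem C (ω.comp ψ) e).trans (and_congr_right fun _ => ⟨?_, ?_⟩)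
  · rintro ⟨y, h1, h2⟩
    refine ⟨H.lift y (spc ω) (h1.trans (spc_spc _ _).symm), H.lift_snd _ _ _, ?_⟩
    rw [← Category.assoc, H.lift_fst]
    exact h2
  · rintro ⟨y, h1, h2⟩
    exact ⟨y ≫ a, by rw [Category.assoc, H.w, reassoc_of% h1, spc_spc], by
      rw [Category.assoc]; exact h2⟩

theorem Lin.congr (h : Lin τ f ι S) {S' : Set (MvPolynomial (ν × ν) K)}
    (H : ∀ (C : Type) [CommRing C] (ω : R →+* C) (e : ν × ν → C),
      (∀ g ∈ S', eval₂ (ω.comp τ) e g = 0) ↔ ∀ g ∈ S, eval₂ (ω.comp τ) e g = 0) : Lin τ f ι S' :=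
  ⟨h.ov, h.inj, fun C _ ω e => (H C ω e).trans (h.mem C ω e)⟩

theorem ex_lin [IsNoetherianRing K] (f : Y ⟶ Spec (.of K)) (ι : Y ⟶ PP K ν) [IsClosedImmersion ι]
    (hι : ι ≫ pS K ν = f) :
    ∃ (n : ℕ) (g : Fin n → MvPolynomial (ν × ν) K), Lin (.id K) f ι (Set.range g) := by
  have he0 : RK fun p : ν × ν => Ideal.Quotient.mk (I0 K ν) (X p) := (I0_le _).1 Ideal.mk_ker.ge
  obtain ⟨t, ht⟩ := ex_ln (algebraMap K _) he0
  let q := spc (Ideal.Quotient.mk (I0 K ν))
  have hq : IsClosedImmersion q := IsClosedImmersion.spec_of_surjective _ Ideal.Quotient.mk_surjective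
  obtain ⟨a, ε, hε⟩ := IsClosedImmersion.Spec_iff.1
    (inferInstance : IsClosedImmersion (pullback.snd ι t ≫ q))
  obtain ⟨n, g, hg⟩ : ∃ (n : ℕ) (g : Fin n → MvPolynomial (ν × ν) K), Ideal.span (Set.range g) = a :=
    Submodule.fg_iff_exists_fin_generating_family.1 (IsNoetherian.noetherian a)
  obtain ⟨m, hm⟩ := exists_spc (C := MvPolynomial (ν × ν) K ⧸ I0 K ν)
    (D := MvPolynomial (ν × ν) K ⧸ a) (ε.inv ≫ pullback.snd ι t)
  have hma : m.comp (Ideal.Quotient.mk _) = Ideal.Quotient.mk a :=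
    spc_inj (by rw [← spc_spc, ← hm, Category.assoc]; exact (congrArg _ hε).trans (ε.inv_hom_id_assoc _))
  refine ⟨n, g, hι.trans (by rw [spc, CommRingCat.ofHom_id, Spec.map_id, Category.comp_id]), fun C _ y y' _ h => (cancel_mono ι).1 h, fun C _ ω e => ?_⟩
  rw [RingHom.comp_id]
  constructor
  · intro h
    let ψ : MvPolynomial (ν × ν) K ⧸ a →+* C := Ideal.Quotient.lift _ (eval₂Hom ω e) (by
      rw [← hg]; exact Ideal.span_le (I := RingHom.ker _).2 h)
    have e1 : ∀ P, (ψ.comp m) (Ideal.Quotient.mk _ P) = eval₂ ω e P := fun P =>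
      congrArg ψ (DFunLike.congr_fun hma P)
    have e2 : (fun p => (ψ.comp m) (Ideal.Quotient.mk _ (X p))) = e :=
      funext fun p => (e1 _).trans (eval₂_X _ _ _)
    have e3 : (ψ.comp m).comp (algebraMap K _) = ω :=
      RingHom.ext fun c => (e1 (MvPolynomial.C c)).trans (eval₂_C _ _ _)
    have hr : RK e := e2 ▸ he0.map _
    have hl := ht.map (ψ.comp m)
    rw [e2, e3, ← spc_spc, ← hm, Category.assoc, Category.assoc, ← pullback.condition] at hl
    refine ⟨hr, spc ψ ≫ ε.inv ≫ pullback.fst ι t, ?_, by simpa only [Category.assoc] using hl⟩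
    rw [← hι, ← hl.over hr]
    simp only [Category.assoc]
  · rintro ⟨hr, y, -, hl⟩ P hP
    let ψ : MvPolynomial (ν × ν) K ⧸ I0 K ν →+* C :=
      Ideal.Quotient.lift _ (eval₂Hom ω e) ((I0_le _).2 (by simpa using hr))
    have e2 : (fun p => ψ (Ideal.Quotient.mk _ (X p))) = e := funext fun p => eval₂_X _ _ _
    have e3 : ψ.comp (algebraMap K _) = ω := RingHom.ext fun c => eval₂_C _ _ _
    have hl' := ht.map ψ
    rw [e2, e3] at hl'
    obtain ⟨φ, hφ⟩ := exists_spc (C := MvPolynomial (ν × ν) K ⧸ a) (D := C)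
      (pullback.lift y (spc ψ) (hl.uniq hr hl') ≫ ε.hom)
    have e4 : φ.comp m = ψ := spc_inj (by
      rw [← spc_spc, ← hm, ← hφ, Category.assoc, ε.hom_inv_id_assoc, pullback.lift_snd])
    have e5 : eval₂ ω e P = φ (Ideal.Quotient.mk a P) := by
      rw [← hma, RingHom.comp_apply, ← RingHom.comp_apply φ, e4]; rfl
    rw [e5, Ideal.Quotient.eq_zero_iff_mem.2 (hg ▸ Ideal.subset_span hP), map_zero]

/-- Points given by homogeneous coordinates. -/
theorem Lin.pt (h : Lin τ f ι S) (ω : R →+* C) (v μ : ν → C) (hμ : ∑ l, μ l * v l = 1) (i : ν)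
    (hi : IsUnit (v i)) : (∀ g ∈ S, eval₂ (ω.comp τ) (fun p => v p.1 * μ p.2) g = 0) ↔
      ∃ y : Spec (.of C) ⟶ Y, y ≫ f = spc ω ∧ y ≫ ι = pt (ω.comp τ) v i hi := by
  rw [h.mem]
  exact ⟨fun ⟨a, y, b, c⟩ => ⟨y, b, c.uniq a (ln_pt _ v μ i hi)⟩,
    fun ⟨y, b, c⟩ => ⟨RK.of v μ hμ, y, b, c ▸ ln_pt _ v μ i hi⟩⟩

/-- The universal property of the affine model. -/
structure UM (S : Set (MvPolynomial (ν × ν) K)) (τ : K →+* R) (bl : R →+* B) (n : ν × ν → B) :
    Prop where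
  zero : ∀ g ∈ S, eval₂ (bl.comp τ) n g = 0
  lift : ∀ (C : Type) [CommRing C] (ω : R →+* C) (e : ν × ν → C),
    (∀ g ∈ S, eval₂ (ω.comp τ) e g = 0) → ∃ φ : B →+* C, φ.comp bl = ω ∧ ∀ p, φ (n p) = e p
  ext : ∀ (C : Type) [CommRing C] (φ φ' : B →+* C), φ.comp bl = φ'.comp bl →
    (∀ p, φ (n p) = φ' (n p)) → φ = φ'

theorem ev_mk {σ : Type} (I : Ideal (MvPolynomial σ R)) (P : MvPolynomial σ R) :
    eval₂ (algebraMap R (MvPolynomial σ R ⧸ I)) (fun p => Ideal.Quotient.mk I (X p)) P =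
      Ideal.Quotient.mk I P := by
  have := eval₂_comp_left (Ideal.Quotient.mk I) (MvPolynomial.C : R →+* MvPolynomial σ R) X P
  rw [eval₂_eta] at this
  exact this.symm

omit [Fintype ν] in
theorem um (S : Set (MvPolynomial (ν × ν) K)) (τ : K →+* R) :
    UM S τ (algebraMap R (MvPolynomial (ν × ν) R ⧸ Ideal.span (MvPolynomial.map τ '' S)))
      fun p => Ideal.Quotient.mk _ (X p) := by
  refine ⟨fun g hg => ?_, fun C _ ω e h => ?_, fun C _ φ φ' h1 h2 => ?_⟩
  · rw [← eval₂_map, Jxd.ev_mk]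
    exact Ideal.Quotient.eq_zero_iff_mem.2 (Ideal.subset_span ⟨g, hg, rfl⟩)
  · refine ⟨Ideal.Quotient.lift _ (eval₂Hom ω e) (Ideal.span_le (I := RingHom.ker _).2 ?_),
      RingHom.ext fun c => eval₂_C _ _ _, fun p => eval₂_X _ _ _⟩
    rintro _ ⟨g, hg, rfl⟩
    exact (eval₂_map _ _ _ _).trans (h g hg)
  · exact Ideal.Quotient.ringHom_ext (MvPolynomial.ringHom_ext (DFunLike.congr_fun h1) h2)

omit [Fintype ν] in
theorem um_id (S : Set (MvPolynomial (ν × ν) K)) :
    UM S (.id K) (algebraMap K (MvPolynomial (ν × ν) K ⧸ Ideal.span S))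
      fun p => Ideal.Quotient.mk _ (X p) := by
  have := um S (RingHom.id K)
  rwa [show (MvPolynomial.map (RingHom.id K) '' S) = S by simp [MvPolynomial.map_id]] at this

variable {bl : R →+* B} {n : ν × ν → B}

theorem Lin.ex_q (h : Lin τ f ι S) (hB : UM S τ bl n) :
    RK n ∧ ∃ q : Spec (.of B) ⟶ Y, q ≫ f = spc bl ∧ Ln (bl.comp τ) n (q ≫ ι) :=
  (h.mem B bl n).1 hB.zero

/-- A point of `Y` that is the image of `e` comes from the model. -/
theorem Lin.fac (h : Lin τ f ι S) (hB : UM S τ bl n) {q : Spec (.of B) ⟶ Y} (h1 : q ≫ f = spc bl)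
    (h2 : Ln (bl.comp τ) n (q ≫ ι)) (ω : R →+* C) {e : ν × ν → C} (he : RK e)
    {y : Spec (.of C) ⟶ Y} (h3 : y ≫ f = spc ω) (h4 : Ln (ω.comp τ) e (y ≫ ι)) :
    ∃ φ : B →+* C, φ.comp bl = ω ∧ (∀ p, φ (n p) = e p) ∧ spc φ ≫ q = y := by
  obtain ⟨φ, a, b⟩ := hB.lift C ω e ((h.mem C ω e).2 ⟨he, y, h3, h4⟩)
  refine ⟨φ, a, b, h.inj C _ _ (by rw [Category.assoc, h1, spc_spc, a, h3]) ?_⟩
  have := h2.map φ
  rw [funext b, ← RingHom.comp_assoc, a] at this
  exact (Category.assoc _ _ _).trans (this.uniq he h4)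

/-! ### The model is an affine space bundle -/

theorem Lin.chart (h : Lin τ f ι S) (x : Y) : ∃ (A : Type) (_ : CommRing A) (u : Spec (.of A) ⟶ Y)
    (ω : R →+* A) (v : ν → A) (j : ν) (hj : v j = 1), IsOpenImmersion u ∧ x ∈ Set.range u ∧
      u ≫ f = spc ω ∧ u ≫ ι = YJ.pt (ω.comp τ) v j (hj ▸ isUnit_one) := by
  obtain ⟨j, hj⟩ := cov_X (ι x)
  obtain ⟨A, u, _, hx, hu⟩ := Scheme.exists_affine_mem_range_and_range_subset
    (x := x) (U := ι ⁻¹ᵁ Proj.basicOpen (homogeneousSubmodule ν K) (X j)) hj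
  have hr : Set.range (u ≫ ι) ⊆
      Set.range (Proj.awayι (homogeneousSubmodule ν K) _ (xm K j) one_pos) := by
    rintro _ ⟨z, rfl⟩
    change _ ∈ (Proj.awayι (homogeneousSubmodule ν K) _ (xm K j) one_pos).opensRange
    rw [Proj.opensRange_awayι, Scheme.Hom.comp_apply]
    exact hu ⟨z, rfl⟩
  obtain ⟨g, hg⟩ := exists_spc (D := A) (IsOpenImmersion.lift _ _ hr)
  obtain ⟨ω, hω⟩ := exists_spc (D := A) (u ≫ f)
  have e := IsOpenImmersion.lift_fac _ _ hr
  have h1 : g (fr K j j) = 1 := by rw [fr_self, map_one]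
  rw [hg, away_pt g (h1 ▸ isUnit_one)] at e
  have e3 : g.comp (kB K j) = ω.comp τ := spc_inj (by
    rw [← spc_spc τ, ← hω, Category.assoc, ← h.ov, ← Category.assoc, ← e]
    exact (pt_over _ _ _ _).symm)
  exact ⟨A, _, u, ω, fun k => g (fr K j k), j, h1, ‹_›, hx, hω, by rw [← e3]; exact e.symm⟩

omit [Fintype ν] in
theorem ex_mu {P : Type} (j : ν) (a : P) (x : {l // l ≠ j} → P) :
    ∃ μ : ν → P, μ j = a ∧ ∀ l : {l // l ≠ j}, μ l = x l := by
  classical
  exact ⟨fun l => if hl : l = j then a else x ⟨l, hl⟩, dif_pos rfl, fun l => dif_neg l.2⟩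

theorem Lin.affB (h : Lin τ f ι S) (hB : UM S τ bl n) {q : Spec (.of B) ⟶ Y} (h1 : q ≫ f = spc bl)
    (h2 : Ln (bl.comp τ) n (q ≫ ι)) : GG.AffB q := fun x => by
  classical
  obtain ⟨A, _, u, ω, v, j, hj, hu, hx, u1, u2⟩ := h.chart x
  have hn := (h.ex_q hB).1
  let P := MvPolynomial {l // l ≠ j} A
  let c := algebraMap A P
  obtain ⟨μ, μ1, μ2⟩ := ex_mu (P := P) j (1 - ∑ l : {l // l ≠ j}, X l * c (v l)) X
  have hμ : ∑ l, μ l * c (v l) = 1 := by
    rw [Fintype.sum_eq_add_sum_subtype_ne _ j, μ1, hj, map_one, mul_one]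
    simp only [μ2, sub_add_cancel]
  have cj : IsUnit (c (v j)) := by rw [hj, map_one]; exact isUnit_one
  obtain ⟨w, w1, w2, w3⟩ := h.fac hB h1 h2 (c.comp ω) (RK.of (fun k => c (v k)) μ hμ)
    (y := spc c ≫ u) (by rw [Category.assoc, u1, spc_spc]) (by
      rw [Category.assoc, u2, pt_comp]; exact ln_pt (c.comp (ω.comp τ)) (fun k => c (v k)) μ j cj)
  refine ⟨A, _, u, {l // l ≠ j}, inferInstance, spc w, hu, hx,
    isPullback_of_pts w3 fun C _ a b hab => ?_⟩
  obtain ⟨ψ, rfl⟩ := exists_spc a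
  obtain ⟨φ, rfl⟩ := exists_spc b
  have l1 := h2.map ψ
  rw [reassoc_of% hab, u2, pt_comp] at l1
  have fix : ∀ k l, ψ (n (k, l)) = φ (v k) * ψ (n (j, l)) := fun k l => by
    have := l1.fix (hn.map ψ) k l
    rwa [hj, map_one, mul_one] at this
  have o1 : ψ.comp bl = φ.comp ω := spc_inj (by
    rw [← spc_spc, ← spc_spc, ← h1, ← u1, reassoc_of% hab])
  let θ : P →+* C := eval₂Hom φ fun l => ψ (n (j, l))
  have θ1 : θ.comp c = φ := RingHom.ext fun r => eval₂Hom_C _ _ r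
  have θ2 : ∀ r, θ (c r) = φ r := DFunLike.congr_fun θ1
  have θ3 : ∀ l : {l // l ≠ j}, θ (X l) = ψ (n (j, l)) := fun l => eval₂Hom_X' _ _ l
  have θ4 : ∀ l, θ (μ l) = ψ (n (j, l)) := fun l => by
    by_cases hl : l = j
    · subst hl
      have : ∑ k, ψ (n (k, k)) = 1 := (hn.map ψ).1
      rw [Fintype.sum_eq_add_sum_subtype_ne _ l] at this
      rw [μ1, map_sub, map_one, map_sum, ← this, add_sub_assoc, ← Finset.sum_sub_distrib,
        Finset.sum_eq_zero fun k _ => by rw [map_mul, θ2, θ3, fix k k, mul_comm, sub_self], add_zero]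
    · exact (congrArg θ (μ2 ⟨l, hl⟩)).trans (θ3 ⟨l, hl⟩)
  refine ⟨spc θ, ⟨(spc_spc _ _).trans (congrArg spc (hB.ext _ _ _ ?_ fun ⟨k, l⟩ => ?_)),
    (spc_spc _ _).trans (congrArg spc θ1)⟩, fun p ⟨r1, r2⟩ => ?_⟩
  · rw [RingHom.comp_assoc, w1, ← RingHom.comp_assoc, θ1, o1]
  · rw [RingHom.comp_apply, w2, map_mul, θ2, θ4, ← fix]
  · obtain ⟨θ', rfl⟩ := exists_spc p
    have s1 := spc_inj ((spc_spc _ _).symm.trans r1)
    have s2 := spc_inj ((spc_spc _ _).symm.trans r2)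
    refine congrArg spc (MvPolynomial.ringHom_ext (DFunLike.congr_fun (s2.trans θ1.symm)) fun l => ?_)
    rw [θ3, ← s1, RingHom.comp_apply, w2, hj, map_one, one_mul, μ2]

theorem smooth_of_affB {W : Scheme.{0}} {ρ : W ⟶ Y} (h : GG.AffB ρ) : Smooth ρ := by
  choose A _ j σ _ w h1 h2 h3 using h
  refine IsZariskiLocalAtTarget.of_openCover (P := @Smooth)
    (.mkOfCovers Y _ j (fun p => ⟨p, h2 p⟩) h1) fun x => ?_
  have : Smooth (spc (algebraMap (A x) (MvPolynomial (σ x) (A x)))) :=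
    (HasRingHomProperty.Spec_iff (P := @Smooth)).2 (RingHom.smooth_algebraMap.2
      (⟨inferInstance, inferInstance⟩ : Algebra.Smooth (A x) (MvPolynomial (σ x) (A x))))
  change Smooth (pullback.snd ρ (j x))
  rw [← (h3 x).isoPullback_inv_snd]
  infer_instance

theorem Lin.smooth [Smooth f] [Algebra R B] (h : Lin τ f ι S) (hB : UM S τ (algebraMap R B) n) :
    Algebra.Smooth R B := by
  obtain ⟨-, q, h1, h2⟩ := h.ex_q hB
  have := smooth_of_affB (h.affB hB h1 h2)
  have : Smooth (q ≫ f) := inferInstance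
  rw [h1] at this
  exact RingHom.smooth_algebraMap.1 ((HasRingHomProperty.Spec_iff (P := @Smooth)).1 this)

/-! ### Forms -/

/-- All coefficients are forms of degree `r`. -/
def Bh (r : ℕ) (H : MvPolynomial ν (MvPolynomial ν K)) : Prop := ∀ α, (coeff α H).IsHomogeneous r

omit [Fintype ν] in
theorem Bh.mul {r s : ℕ} {H H' : MvPolynomial ν (MvPolynomial ν K)} (h : Bh r H) (h' : Bh s H') :
    Bh (r + s) (H * H') := fun α => by
  classical
  rw [coeff_mul]
  exact IsHomogeneous.sum _ _ _ fun x _ => (h _).mul (h' _)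

omit [Fintype ν] in
theorem bh_C {r : ℕ} {a : MvPolynomial ν K} (h : a.IsHomogeneous r) : Bh r (MvPolynomial.C a) :=
  fun α => by
    classical
    rw [coeff_C]
    split_ifs
    exacts [h, isHomogeneous_zero _ _ _]

omit [Fintype ν] in
theorem bh_X (k l : ν) : Bh 1 (MvPolynomial.C (X k : MvPolynomial ν K) * X l) := fun α => by
  classical
  rw [coeff_C_mul, coeff_X]
  split_ifs
  · rw [mul_one]; exact isHomogeneous_X _ _
  · rw [mul_zero]; exact isHomogeneous_zero _ _ _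

theorem ex_bh (P : MvPolynomial (ν × ν) K) : ∃ r₀ : ℕ, ∀ r ≥ r₀,
    ∃ H : MvPolynomial ν (MvPolynomial ν K), Bh r H ∧ ∀ (C : Type) [CommRing C] (χ : K →+* C)
      (x μ : ν → C) (e : ν × ν → C) (s : C), ∑ l, x l * μ l = s →
      (∀ k l, x k * μ l = s * e (k, l)) → eval₂ (eval₂Hom χ x) μ H = s ^ r * eval₂ χ e P := by
  induction P using MvPolynomial.induction_on with
  | C c =>
    refine ⟨0, fun r hr => ?_⟩
    clear hr
    induction r with
    | zero => exact ⟨MvPolynomial.C (MvPolynomial.C c), bh_C (isHomogeneous_C _ _),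
        fun C _ χ x μ e s _ _ => by simp⟩
    | succ r ih =>
      obtain ⟨H, h1, h2⟩ := ih
      refine ⟨H * ∑ l, MvPolynomial.C (X l) * X l, h1.mul fun α => ?_, fun C _ χ x μ e s a b => ?_⟩
      · rw [coeff_sum]
        exact IsHomogeneous.sum _ _ _ fun l _ => bh_X l l α
      · rw [eval₂_mul, h2 C χ x μ e s a b, eval₂_sum]
        simp only [eval₂_mul, eval₂_C, eval₂_X, eval₂Hom_X', a]
        ring
  | add P Q hP hQ =>
    obtain ⟨a, ha⟩ := hP
    obtain ⟨b, hb⟩ := hQ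
    refine ⟨a + b, fun r hr => ?_⟩
    obtain ⟨H, h1, h2⟩ := ha r (by omega)
    obtain ⟨H', h1', h2'⟩ := hb r (by omega)
    refine ⟨H + H', fun α => by rw [coeff_add]; exact (h1 α).add (h1' α),
      fun C _ χ x μ e s a b => ?_⟩
    rw [eval₂_add, eval₂_add, h2 C χ x μ e s a b, h2' C χ x μ e s a b, mul_add]
  | mul_X P p hP =>
    obtain ⟨a, ha⟩ := hP
    refine ⟨a + 1, fun r hr => ?_⟩
    obtain ⟨r, rfl⟩ : ∃ r', r = r' + 1 := ⟨r - 1, by omega⟩
    obtain ⟨H, h1, h2⟩ := ha r (by omega)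
    refine ⟨H * (MvPolynomial.C (X p.1) * X p.2), h1.mul (bh_X _ _), fun C _ χ x μ e s a b => ?_⟩
    simp only [eval₂_mul, eval₂_C, eval₂_X, eval₂Hom_X', h2 C χ x μ e s a b, b]
    ring

/-- A linear form with a unit coefficient is not a zero divisor. -/
theorem lin_reg (v : ν → C) (j : ν) (hj : IsUnit (v j)) {P : MvPolynomial ν C} (N : ℕ)
    (h : (∑ l, MvPolynomial.C (v l) * X l) ^ N * P = 0) : P = 0 := by
  classical
  obtain ⟨u, hu⟩ := hj.exists_left_inv
  set s : MvPolynomial ν C := ∑ l, MvPolynomial.C (v l) * X l with hs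
  have hu' : (MvPolynomial.C u : MvPolynomial ν C) * MvPolynomial.C (v j) = 1 := by
    rw [← C_mul, hu, C_1]
  let φ : MvPolynomial ν C →ₐ[C] MvPolynomial ν C :=
    aeval (Function.update X j (X j + MvPolynomial.C u * (X j - s)))
  let ψ : MvPolynomial ν C →ₐ[C] MvPolynomial ν C := aeval (Function.update X j s)
  have sum : ∀ (θ : MvPolynomial ν C →ₐ[C] MvPolynomial ν C) (y : MvPolynomial ν C),
      θ = aeval (Function.update X j y) → θ s = s + MvPolynomial.C (v j) * (y - X j) := by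
    rintro _ y rfl
    rw [hs, map_sum, ← Finset.add_sum_erase _ _ (Finset.mem_univ j),
      ← Finset.add_sum_erase _ _ (Finset.mem_univ j), Finset.sum_congr rfl fun l hl =>
        (by rw [map_mul, aeval_C, aeval_X, Function.update_of_ne (Finset.ne_of_mem_erase hl)]; rfl :
          _ = MvPolynomial.C (v l) * X l), map_mul, aeval_C, aeval_X, Function.update_self,
      algebraMap_eq]
    ring
  have h1 : φ s = X j := by
    rw [sum φ _ rfl]
    linear_combination (X j - s) * hu'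
  have h2 : ψ.comp φ = AlgHom.id C _ := MvPolynomial.algHom_ext fun l => by
    by_cases hl : l = j
    · subst hl
      have : ψ (X l) = s := by simp [ψ]
      rw [AlgHom.comp_apply, show φ (X l) = X l + MvPolynomial.C u * (X l - s) by simp [φ], map_add,
        map_mul, map_sub, sum ψ _ rfl, this, show ψ (MvPolynomial.C u) = MvPolynomial.C u by simp [ψ],
        AlgHom.id_apply]
      linear_combination (X l - s) * hu'
    · simp [φ, ψ, Function.update_of_ne hl]
  have h3 := congrArg φ h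
  rw [map_mul, map_pow, h1, map_zero] at h3
  have h4 : φ P = 0 := ((isRegular_X.pow N).left.mul_left_eq_zero_iff).1 h3
  rw [← AlgHom.id_apply (R := C) P, ← h2, AlgHom.comp_apply, h4, map_zero]

/-- The coefficients of the bihomogenisation of an equation vanish at the points. -/
theorem Lin.coef (h : Lin τ f ι S) {P : MvPolynomial (ν × ν) K} (hP : P ∈ S) {r : ℕ}
    {H : MvPolynomial ν (MvPolynomial ν K)} (law : ∀ (C : Type) [CommRing C] (χ : K →+* C)
      (x μ : ν → C) (e : ν × ν → C) (s : C), ∑ l, x l * μ l = s →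
      (∀ k l, x k * μ l = s * e (k, l)) → eval₂ (eval₂Hom χ x) μ H = s ^ r * eval₂ χ e P)
    (ω : R →+* C) (v : ν → C) (j : ν) (hj : IsUnit (v j)) (y : Spec (.of C) ⟶ Y)
    (h1 : y ≫ f = spc ω) (h2 : y ≫ ι = YJ.pt (ω.comp τ) v j hj) (α : ν →₀ ℕ) :
    eval₂ (ω.comp τ) v (coeff α H) = 0 := by
  let s : MvPolynomial ν C := ∑ l, MvPolynomial.C (v l) * X l
  let a := algebraMap (MvPolynomial ν C) (Localization.Away s)
  let c := a.comp MvPolynomial.C
  obtain ⟨u, hu⟩ := (IsLocalization.Away.algebraMap_isUnit (S := Localization.Away s) s).exists_left_inv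
  have hs : ∑ l, c (v l) * a (X l) = a s := by simp only [s, c, map_sum, map_mul, RingHom.comp_apply]
  have z := (h.pt (c.comp ω) (fun k => c (v k)) (fun l => u * a (X l)) (by
    simp only [mul_assoc, ← Finset.mul_sum, mul_comm (a _), hs]; exact hu) j (hj.map c)).2
    ⟨spc c ≫ y, by rw [Category.assoc, h1, spc_spc], by rw [Category.assoc, h2, pt_comp]; rfl⟩ P hP
  have w := law _ ((c.comp ω).comp τ) _ _ (fun p => c (v p.1) * (u * a (X p.2))) _ hs fun k l => by
    linear_combination (-c (v k) * a (X l)) * hu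
  rw [z, mul_zero] at w
  have e : a (MvPolynomial.map (eval₂Hom (ω.comp τ) v) H) = 0 := by
    rw [← w, ← eval₂_eta (MvPolynomial.map _ H), eval₂_comp_left, eval₂_map]
    congr 1
    exact comp_eval₂Hom _ _ _
  obtain ⟨⟨_, N, rfl⟩, hN⟩ := (IsLocalization.map_eq_zero_iff (Submonoid.powers s) _ _).1 e
  have := congrArg (coeff α) (lin_reg v j hj N hN)
  rwa [coeff_map] at this

/-- Forms of one degree that cut out the subscheme. -/
theorem Lin.forms {m : Type} [Fintype m] {g : m → MvPolynomial (ν × ν) K}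
    (h : Lin τ f ι (Set.range g)) : ∃ (r n : ℕ) (G : Fin n → MvPolynomial ν K), 0 < r ∧
      (∀ a, (G a).IsHomogeneous r) ∧ ∀ (C : Type) [CommRing C] (ω : R →+* C) (e : ν × ν → C),
        RK e → ((∀ a i, eval₂ (ω.comp τ) (fun k => e (k, i)) (G a) = 0) ↔
          ∀ a, eval₂ (ω.comp τ) e (g a) = 0) := by
  choose r₀ hr using fun a => ex_bh (g a)
  choose H h1 law using fun a => hr a (∑ b, r₀ b + 1)
    ((Finset.single_le_sum (fun _ _ => Nat.zero_le _) (Finset.mem_univ a)).trans (Nat.le_succ _))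
  let ε := Fintype.equivFin (Σ a, (H a).support)
  refine ⟨_, _, fun i => coeff (ε.symm i).2.1 (H (ε.symm i).1), Nat.succ_pos _, fun _ => h1 _ _,
    fun C _ ω e he => ⟨fun z a => ?_, fun z a i => ?_⟩⟩
  · refine loc_ext _ he.span fun i => ?_
    have w := law a C (ω.comp τ) (fun k => e (k, i)) (fun l => e (i, l)) e (e (i, i))
      (by simp only [he.2 _ i i, ← Finset.sum_mul, he.1, one_mul])
      fun k l => (he.2 k i i l).trans (mul_comm _ _)
    rw [eval₂_eq, Finset.sum_eq_zero fun α hα => by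
      have := z (ε ⟨a, α, hα⟩) i
      beta_reduce at this
      rw [ε.symm_apply_apply] at this
      rw [coe_eval₂Hom, this, zero_mul]] at w
    refine ((IsLocalization.Away.algebraMap_isUnit (e (i, i))).pow (∑ b, r₀ b + 1)).mul_left_cancel ?_
    rw [← map_pow, ← map_mul, ← w, map_zero, mul_zero]
  · obtain ⟨-, y, y1, y2⟩ := (h.mem C ω e).1 (Set.forall_mem_range.2 z)
    refine loc_ext _ he.span fun j => ?_
    set ψ := algebraMap C (Localization.Away (e (j, j)))
    have hj : IsUnit (ψ (e (j, j))) := IsLocalization.Away.algebraMap_isUnit _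
    refine (hj.pow (∑ b, r₀ b + 1)).mul_right_cancel ?_
    have := h.coef ⟨_, rfl⟩ (law (ε.symm a).1) (ψ.comp ω) (fun k => ψ (e (k, j))) j hj (spc ψ ≫ y)
      (by rw [Category.assoc, y1, spc_spc]) (by rw [Category.assoc]; exact y2.col he ψ j hj)
      (ε.symm a).2.1
    rw [← map_pow, ← map_mul, ev_col _ he (h1 _ _), map_mul, eval₂_comp_left, map_zero, zero_mul]
    exact mul_eq_zero_of_left this _

/-- The points that lie in a subscheme. -/
theorem Lin.mem_range {S' : Set (MvPolynomial (ν × ν) K)} {j : Z ⟶ Y} (h : Lin τ f ι S)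
    (h' : Lin τ (j ≫ f) (j ≫ ι) S') (ω : R →+* C) {e : ν × ν → C} (he : RK e)
    {y : Spec (.of C) ⟶ Y} (h1 : y ≫ f = spc ω) (h2 : Ln (ω.comp τ) e (y ≫ ι)) (x : Spec (.of C)) :
    y x ∈ Set.range j ↔ ∀ g ∈ S', eval₂ (ω.comp τ) e g ∈ x.asIdeal := by
  constructor
  · rintro ⟨z, hz⟩ g hg
    obtain ⟨w, w1, -⟩ := Scheme.Pullback.exists_preimage_pullback x z hz.symm
    obtain ⟨A, u, _, ⟨a, rfl⟩, -⟩ := Scheme.exists_affine_mem_range_and_range_subset
      (x := w) (U := ⊤) trivial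
    obtain ⟨φ, hφ⟩ := exists_spc (D := A) (u ≫ pullback.fst y j)
    have c : (u ≫ pullback.snd y j) ≫ j = spc φ ≫ y := by
      rw [← hφ, Category.assoc, Category.assoc, pullback.condition]
    have := (h'.mem A (φ.comp ω) _).2 ⟨he.map φ, u ≫ pullback.snd y j,
      by rw [← Category.assoc, c, Category.assoc, h1, spc_spc],
      by rw [← Category.assoc, c, Category.assoc]; exact h2.map φ⟩ g hg
    rw [← w1, ← Scheme.Hom.comp_apply, hφ]
    change φ _ ∈ a.asIdeal
    rw [eval₂_comp_left]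
    exact this ▸ zero_mem _
  · intro H
    let π := Ideal.Quotient.mk x.asIdeal
    have := x.isPrime
    obtain ⟨-, z, z1, z2⟩ := (h'.mem _ (π.comp ω) fun p => π (e p)).1 fun g hg =>
      (eval₂_comp_left π (ω.comp τ) e g).symm.trans (Ideal.Quotient.eq_zero_iff_mem.2 (H g hg))
    have c : z ≫ j = spc π ≫ y := h.inj _ _ _ (by
      rw [Category.assoc, Category.assoc, z1, h1, spc_spc]) (by
      rw [Category.assoc, Category.assoc]; exact z2.uniq (he.map π) (h2.map π))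
    let o : Spec (.of (C ⧸ x.asIdeal)) := (⟨⊥, Ideal.isPrime_bot⟩ : PrimeSpectrum _)
    refine ⟨z o, ?_⟩
    rw [← Scheme.Hom.comp_apply, c, Scheme.Hom.comp_apply]
    exact congrArg y (PrimeSpectrum.ext Ideal.mk_ker)

end Pool.Agent.MP_855f4c_ag.T.Jxd

end

section

/-! h14a, row YC: on the fibre over `u` the rows of the second matrix are proportional. -/

set_option autoImplicit false

open MvPolynomial

namespace Pool.Agent.MP_855f4c_ag.A

open E E3 T

namespace Yc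

/-- A form of degree `r` at a multiple of a point. -/
theorem scale {K L ν : Type} [CommRing K] [CommRing L] (χ : K →+* L) {P : MvPolynomial ν K}
    {r : ℕ} (h : P.IsHomogeneous r) (t : L) (x : ν → L) :
    eval₂ χ (fun k => t * x k) P = t ^ r * eval₂ χ x P := by
  rw [eval₂_eq, eval₂_eq, Finset.mul_sum]
  refine Finset.sum_congr rfl fun d hd => ?_
  have e : ∑ i ∈ d.support, d i = r := by
    have := h (mem_support_iff.1 hd)
    simpa [Finsupp.weight_apply, Finsupp.sum] using this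
  simp only [mul_pow]
  rw [Finset.prod_mul_distrib, Finset.prod_pow_eq_pow_sum, e]
  ring

end Yc

theorem yc : YC_s := by
  intro K Ω L ν ρ J _ _ _ _ _ τ ω g y r u w a b c hy hu hrk hq hI ha hb k
  obtain ⟨o, ho⟩ : ∃ o, u o ≠ 0 := by
    by_contra h
    exact hu (funext fun o => by_contra fun h' => h ⟨o, h'⟩)
  have ho' : ω (u o) ≠ 0 := (map_ne_zero ω).2 ho
  have hp : ∀ i j m, w (.inl (i, j)) * ω (u m) = w (.inl (m, j)) * ω (u i) := fun i j m => by
    have : w (.inl (i, j)) * ω (u m) - w (.inl (m, j)) * ω (u i) ∈ IY (w ∘ .inl) (ω ∘ u) :=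
      Ideal.subset_span ⟨(i, j, m), rfl⟩
    rw [hI, Ideal.mem_bot] at this
    exact sub_eq_zero.1 this
  obtain ⟨i, hi⟩ : ∃ i, w (.inl (i, i)) ≠ 0 := by
    by_contra h
    have h1 : ∑ i, w (.inl (i, i)) = 1 := hrk.1
    rw [Finset.sum_eq_zero fun i _ => by_contra fun h' => h ⟨i, h'⟩] at h1
    exact zero_ne_one h1
  have hc : cw w i = fun m => w (.inl (o, i)) / ω (u o) * (ω ∘ u) m := funext fun m => by
    rw [div_mul_eq_mul_div, eq_div_iff ho']
    exact hp m i o
  have ht : w (.inl (o, i)) / ω (u o) ≠ 0 := fun h => hi (by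
    have := congrFun hc i
    rwa [h, zero_mul] at this)
  have hv : ∀ n, eval₂ (ω.comp τ) (cw w i) (y n) =
      (w (.inl (o, i)) / ω (u o)) ^ r * ω (eval₂ τ u (y n)) := fun n => by
    rw [hc, Yc.scale _ (hy n), eval₂_comp_left]
  have h := hq.2.2 b k a i
  rw [hv, hv, hb, map_mul] at h
  have hne : (w (.inl (o, i)) / ω (u o)) ^ r * ω (eval₂ τ u (y a)) ≠ 0 :=
    mul_ne_zero (pow_ne_zero _ ht) ((map_ne_zero ω).2 ha)
  exact mul_right_cancel₀ hne (by rw [h]; ring)

end Pool.Agent.MP_855f4c_ag.A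

end
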