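import Pool.Agent.MP_855f4c_ag.TC.Th
import Pool.Agent.MP_855f4c_ag.AC.Ac
import Pool.Agent.MP_855f4c_ag.AC.Ad
import Pool.Agent.MP_855f4c_ag.TC.Tc

set_option linter.all false

section

/-! h14a: groups with supports, definitions and statements of sections 1 and 3. -/

set_option autoImplicit false
set_option backward.isDefEq.respectTransparency false

open CategoryTheory Limits Abelian Opposite AlgebraicGeometry Function

namespace Pool.Agent.MP_855f4c_ag.A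

open E E3 E4 T

section
variable (l : ℕ) [Fact l.Prime] {S S' T T' : Scheme.{0}}

/-- The part of `ℚ_l / ℤ_l` supported on `O`. -/
noncomputable def FU (O : T.Opens) : Sh (Scheme.etaleTopology.over T) := (ez O).obj (Linf l T)

/-- The inclusion. -/
noncomputable def ιU (O : T.Opens) : FU l O ⟶ Linf l T := (ezι O).app (Linf l T)

/-- `b` is the comparison map of the subsheaves. -/
def Rf (g : T' ⟶ T) (O' : T'.Opens) (O : T.Opens) (b : (pbe g).obj (FU l O) ⟶ FU l O') : Prop :=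
  b ≫ ιU l O' = (pbe g).map (ιU l O) ≫ (lpb l g).hom

open Classical in
/-- The comparison map of the quotients. -/
noncomputable def rp (g : T' ⟶ T) (O' : T'.Opens) (O : T.Opens) :
    AU l O' ⟶ (pbe g).obj (AU l O) := if h : ∃ a, Rp l g O' O a then h.choose else 0

open Classical in
/-- The comparison map of the subsheaves. -/
noncomputable def rf (g : T' ⟶ T) (O' : T'.Opens) (O : T.Opens) :
    (pbe g).obj (FU l O) ⟶ FU l O' := if h : ∃ b, Rf l g O' O b then h.choose else 0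

/-- Classes supported off `U`, with coefficients supported on `O`. -/
abbrev KK (T : Scheme.{0}) (U O : T.Opens) (n : ℕ) : Type 1 := Ext.{1} (AU l U) (FU l O) n

/-- Classes supported off `U`. -/
abbrev SS (T : Scheme.{0}) (U : T.Opens) (n : ℕ) : Type 1 := Ext.{1} (AU l U) (Linf l T) n

/-- Pull-back on `KK`, for `U' ≤ g ⁻¹ U` and `g ⁻¹ O ≤ O'`. -/
noncomputable def kpb (g : T' ⟶ T) (U' O' : T'.Opens) (U O : T.Opens) (n : ℕ) :
    KK l T U O n →+ KK l T' U' O' n :=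
  (post _ (rf l g O' O) n).comp (cmp (pbe g) (rp l g U' U) (FU l O) n)

/-- Pull-back on `SS`, for `U' ≤ g ⁻¹ U`. -/
noncomputable def spb (g : T' ⟶ T) (U' : T'.Opens) (U : T.Opens) (n : ℕ) :
    SS l T U n →+ SS l T' U' n := gpb l g (rp l g U' U) n

/-- Forget `O`. -/
noncomputable def ks (U O : T.Opens) (n : ℕ) : KK l T U O n →+ SS l T U n := post _ (ιU l O) n

/-- Forget `U`. -/
noncomputable def se (U : T.Opens) (n : ℕ) : SS l T U n →+ EE l T n := pre (πU l U) _ n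

/-- Forget both. -/
noncomputable def ke (U O : T.Opens) (n : ℕ) : KK l T U O n →+ EE l T n :=
  (se l U n).comp (ks l U O n)

open Classical in
/-- The unit class (for `U = ⊥`). -/
noncomputable def sone (U : T.Opens) : SS l T U 0 :=
  if h : ∃ x : SS l T U 0, se l U 0 x = one l T then h.choose else 0

variable {l}

/-- The side condition of the connecting map. -/
def Bd (j : T' ⟶ T) [IsOpenImmersion j] (U' O' : T'.Opens) (U O : T.Opens) : Prop :=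
  O' ≤ j ⁻¹ᵁ O ∧ ∃ W : T.Opens, j ⁻¹ᵁ W ≤ U' ∧ U ≤ W ⊔ j.opensRange

end

/-- Connecting maps and the action of classes on an open subscheme. -/
structure BA (l : ℕ) [Fact l.Prime] where
  bd : ∀ {T' T : Scheme.{0}} (j : T' ⟶ T) [IsOpenImmersion j] (U' O' : T'.Opens) (U O : T.Opens)
    (n : ℕ), KK l T' U' O' n →+ KK l T U O (n + 1)
  bd_nat : ∀ {T' T S' S : Scheme.{0}} (j : T' ⟶ T) [IsOpenImmersion j] (k : S' ⟶ S)
    [IsOpenImmersion k] (g : S ⟶ T) (g' : S' ⟶ T') (U' O' : T'.Opens) (U O : T.Opens)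
    (V' P' : S'.Opens) (V P : S.Opens) (n : ℕ) (x : KK l T' U' O' n), g' ≫ j = k ≫ g →
    g ⁻¹ᵁ j.opensRange ≤ k.opensRange → Bd j U' O' U O → Bd k V' P' V P → V ≤ g ⁻¹ᵁ U →
    g ⁻¹ᵁ O ≤ P → V' ≤ g' ⁻¹ᵁ U' → g' ⁻¹ᵁ O' ≤ P' →
    kpb l g V P U O (n + 1) (bd j U' O' U O n x) = bd k V' P' V P n (kpb l g' V' P' U' O' n x)
  les : ∀ {T' T : Scheme.{0}} (j : T' ⟶ T) [IsOpenImmersion j] (U' O' : T'.Opens)
    (W U O : T.Opens), U' = j ⁻¹ᵁ W → O' = j ⁻¹ᵁ O → U = W ⊔ j.opensRange →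
    Injective (kpb l (𝟙 T) W O U O 0) ∧ ∀ n,
      Exact (kpb l (𝟙 T) W O U O n) (kpb l j U' O' W O n) ∧
      Exact (kpb l j U' O' W O n) (bd j U' O' U O n) ∧
      Exact (bd j U' O' U O n) (kpb l (𝟙 T) W O U O (n + 1))
  act : ∀ {T' T : Scheme.{0}} (j : T' ⟶ T) [IsOpenImmersion j] (U O : T.Opens) (n m k : ℕ),
    n + m = k → KK l T U O n →+ EE l T' m →+ KK l T U O k
  act_nat : ∀ {T' T S' S : Scheme.{0}} (j : T' ⟶ T) [IsOpenImmersion j] (k : S' ⟶ S)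
    [IsOpenImmersion k] (g : S ⟶ T) (g' : S' ⟶ T') (U O : T.Opens) (V P : S.Opens) (n m r : ℕ)
    (h : n + m = r) (x : KK l T U O n) (y : EE l T' m), g' ≫ j = k ≫ g → O ≤ j.opensRange →
    P ≤ k.opensRange → V ≤ g ⁻¹ᵁ U → g ⁻¹ᵁ O ≤ P →
    kpb l g V P U O r (act j U O n m r h x y) =
      act k V P n m r h (kpb l g V P U O n x) (epb l g' m y)
  act_bd : ∀ {T' T : Scheme.{0}} (j : T' ⟶ T) [IsOpenImmersion j] (U' O' : T'.Opens)
    (U O : T.Opens) (n m r : ℕ) (h : n + m = r) (h' : n + 1 + m = r + 1) (x : KK l T' U' O' n)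
    (y : EE l T' m), Bd j U' O' U O → O ≤ j.opensRange →
    bd j U' O' U O r (act (𝟙 T') U' O' n m r h x y) =
      act j U O (n + 1) m (r + 1) h' (bd j U' O' U O n x) y
  act_ks : ∀ {T : Scheme.{0}} (U O : T.Opens) (n m r : ℕ) (h : n + m = r) (x : KK l T U O n)
    (y : EE l T m), ks l U O r (act (𝟙 T) U O n m r h x y) = (ks l U O n x).comp y h

/-- Products with supports and Gysin maps. -/
structure SG (l : ℕ) [Fact l.Prime] where
  star : ∀ {T : Scheme.{0}} (U U' U'' : T.Opens) (i j k : ℕ), i + j = k →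
    SS l T U i →+ SS l T U' j →+ SS l T U'' k
  star_nat : ∀ {S T : Scheme.{0}} (g : S ⟶ T) (U U' U'' : T.Opens) (V V' V'' : S.Opens)
    (i j k : ℕ) (h : i + j = k) (x : SS l T U i) (y : SS l T U' j), U'' ≤ U ⊔ U' → V'' ≤ V ⊔ V' →
    V ≤ g ⁻¹ᵁ U → V' ≤ g ⁻¹ᵁ U' → V'' ≤ g ⁻¹ᵁ U'' →
    spb l g V'' U'' k (star U U' U'' i j k h x y) =
      star V V' V'' i j k h (spb l g V U i x) (spb l g V' U' j y)
  star_assoc : ∀ {T : Scheme.{0}} (U₁ U₂ U₃ U₁₂ U₂₃ U : T.Opens) (i j k a b n : ℕ) (h₁ : i + j = a)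
    (h₂ : a + k = n) (h₃ : j + k = b) (h₄ : i + b = n) (x : SS l T U₁ i) (y : SS l T U₂ j)
    (z : SS l T U₃ k), U₁₂ ≤ U₁ ⊔ U₂ → U₂₃ ≤ U₂ ⊔ U₃ → U ≤ U₁₂ ⊔ U₃ → U ≤ U₁ ⊔ U₂₃ →
    star U₁₂ U₃ U a k n h₂ (star U₁ U₂ U₁₂ i j a h₁ x y) z =
      star U₁ U₂₃ U i b n h₄ x (star U₂ U₃ U₂₃ j k b h₃ y z)
  star_comp : ∀ {T : Scheme.{0}} (U U' U'' : T.Opens) (i j k : ℕ) (h : i + j = k) (x : SS l T U i)
    (y : SS l T U' j), U'' ≤ U →
    star U U' U'' i j k h x y = spb l (𝟙 T) U'' U k (x.comp (se l U' j y) h)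
  one_star : ∀ {T : Scheme.{0}} (U' U'' : T.Opens) (j : ℕ) (y : SS l T U' j), U'' ≤ U' →
    star ⊥ U' U'' 0 j j (zero_add j) (sone l ⊥) y = spb l (𝟙 T) U'' U' j y
  gy : ∀ {D T : Scheme.{0}} (i : D ⟶ T) [IsClosedImmersion i] (O U : T.Opens) (U' : D.Opens)
    (n k m : ℕ), n + k = m → SS l T O k →+ SS l D U' n →+ SS l T U m
  gy_res : ∀ {D T : Scheme.{0}} (i : D ⟶ T) [IsClosedImmersion i] (O U : T.Opens) (U' V : D.Opens)
    (n k m : ℕ) (h : n + k = m) (θ : SS l T O k) (γ : SS l D U' n), Linv l T →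
    (∀ x : T, x ∈ O ↔ x ∉ Set.range i) → i ⁻¹ᵁ U ≤ U' → V ≤ i ⁻¹ᵁ U →
    spb l i V U m (gy i O U U' n k m h θ γ) =
      (spb l (𝟙 D) V U' n γ).comp (epb l i k (se l O k θ)) h
  gy_pb : ∀ {D T : Scheme.{0}} (i : D ⟶ T) [IsClosedImmersion i] (O U U₀ : T.Opens) (U' : D.Opens)
    (n k m : ℕ) (h : n + k = m) (θ : SS l T O k) (x : SS l T U₀ n), Linv l T →
    (∀ x : T, x ∈ O ↔ x ∉ Set.range i) → i ⁻¹ᵁ U ≤ U' → U' ≤ i ⁻¹ᵁ U₀ →
    gy i O U U' n k m h θ (spb l i U' U₀ n x) = star U₀ O U n k m h x θ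
  gy_nat : ∀ {D T D₁ T₁ : Scheme.{0}} (i : D ⟶ T) [IsClosedImmersion i] (i₁ : D₁ ⟶ T₁)
    [IsClosedImmersion i₁] (g : T₁ ⟶ T) (g' : D₁ ⟶ D) (O U : T.Opens) (U' : D.Opens)
    (P V : T₁.Opens) (V' : D₁.Opens) (n k m : ℕ) (h : n + k = m) (θ : SS l T O k)
    (γ : SS l D U' n), Linv l T → i₁ ≫ g = g' ≫ i → (∀ x : T, x ∈ O ↔ x ∉ Set.range i) →
    (∀ x : T₁, x ∈ P ↔ x ∉ Set.range i₁) → P ≤ g ⁻¹ᵁ O → i ⁻¹ᵁ U ≤ U' → i₁ ⁻¹ᵁ V ≤ V' →
    V ≤ g ⁻¹ᵁ U → V' ≤ g' ⁻¹ᵁ U' →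
    spb l g V U m (gy i O U U' n k m h θ γ) =
      gy i₁ P V V' n k m h (spb l g P O k θ) (spb l g' V' U' n γ)

section
variable {l : ℕ} [Fact l.Prime] {T : Scheme.{0}}

/-- A class of degree two with its open set. -/
abbrev TH (l : ℕ) [Fact l.Prime] (T : Scheme.{0}) : Type 1 := Σ O : T.Opens, SS l T O 2

/-- The union of the open sets. -/
noncomputable def sup (L : List (TH l T)) : T.Opens := L.foldr (fun a U => a.1 ⊔ U) ⊥

/-- The product of a list of classes, for `U ≤ sup L`. -/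
noncomputable def SG.ths (G : SG l) : (L : List (TH l T)) → (U : T.Opens) → SS l T U (2 * L.length)
  | [], U => sone l U
  | a :: L, U => G.star a.1 (sup L) U 2 (2 * L.length) _
      (by simp only [List.length_cons]; omega) a.2 (G.ths L (sup L))

/-- The same in degree `k`. -/
noncomputable def SG.thk (G : SG l) (L : List (TH l T)) (U : T.Opens) (k : ℕ)
    (h : 2 * L.length = k) : SS l T U k := (G.ths L U).comp (one l T) ((add_zero _).trans h)

variable {Ω : Type} [Field Ω] (Ch : Chern l Ω) {D : Type} [CommRing D]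

open Classical in
/-- The Thom class of the form `s` of weight `n` with zero ideal `I`. -/
noncomputable def thJ {κ : Type} [Fintype κ] [DecidableEq κ] (ω : Ω →+* D) (e : EV κ → D)
    (n : κ → ℤ) (s : MvPolynomial (XY κ) D) (I : Ideal D) : TH l (Spec (.of D)) :=
  ⟨opI I, if h : JP e ∧ Hg n s ∧ Zer e s I then Ch.th (spc ω) (JX.eZ h.1 h.2.1 h.2.2) else 0⟩

/-- The Thom class of a function. -/
noncomputable def thF (ω : Ω →+* D) (t : D) : TH l (Spec (.of D)) :=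
  thJ Ch ω (κ := Fin 0) (fun v => v.1.elim0) 0 (MvPolynomial.C t) (Ideal.span {t})

end

/-! ### Section 1 -/

def KL_s : Prop := ∀ (l : ℕ) [Fact l.Prime],
  (∀ (T : Scheme.{0}) (U O : T.Opens) (n : ℕ),
    (∀ x, kpb l (𝟙 T) U O U O n x = x) ∧ (∀ x, spb l (𝟙 T) U U n x = x) ∧
    Bijective (ks l U ⊤ n) ∧ Bijective (se l (⊥ : T.Opens) n) ∧
    se l (⊥ : T.Opens) 0 (sone l ⊥) = one l T ∧
    ∀ (m k : ℕ) (h : n + m = k) (x : SS l T U n) (y : EE l T m),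
      se l U k (x.comp y h) = (se l U n x).comp y h) ∧
  (∀ (T' T : Scheme.{0}) (g : T' ⟶ T) (U' O' : T'.Opens) (U O : T.Opens) (n : ℕ), U' ≤ g ⁻¹ᵁ U →
    Rp l g U' U (rp l g U' U) ∧
    (g ⁻¹ᵁ O ≤ O' → ∀ x, ks l U' O' n (kpb l g U' O' U O n x) = spb l g U' U n (ks l U O n x)) ∧
    (∀ x, se l U' n (spb l g U' U n x) = epb l g n (se l U n x)) ∧
    ∀ (m k : ℕ) (h : n + m = k) (x : SS l T U n) (y : EE l T m),
      spb l g U' U k (x.comp y h) = (spb l g U' U n x).comp (epb l g m y) h) ∧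
  ∀ (T'' T' T : Scheme.{0}) (g' : T'' ⟶ T') (g : T' ⟶ T) (g'' : T'' ⟶ T) (U'' O'' : T''.Opens)
    (U' O' : T'.Opens) (U O : T.Opens) (n : ℕ), g' ≫ g = g'' → U'' ≤ g' ⁻¹ᵁ U' → U' ≤ g ⁻¹ᵁ U →
    (∀ x, spb l g' U'' U' n (spb l g U' U n x) = spb l g'' U'' U n x) ∧
    (g ⁻¹ᵁ O ≤ O' → g' ⁻¹ᵁ O' ≤ O'' →
      ∀ x, kpb l g' U'' O'' U' O' n (kpb l g U' O' U O n x) = kpb l g'' U'' O'' U O n x)

def BA_s : Prop := ∀ (l : ℕ) [Fact l.Prime], Nonempty (BA l)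

def SG_s : Prop := ∀ (l : ℕ) [Fact l.Prime], Nonempty (SG l)

/-- Excision for open immersions. -/
def OEX_s : Prop := ∀ (l : ℕ) [Fact l.Prime] (T' T : Scheme.{0}) (j : T' ⟶ T) [IsOpenImmersion j]
  (U' O' : T'.Opens) (U O : T.Opens) (n : ℕ), U ⊔ j.opensRange = ⊤ → U' = j ⁻¹ᵁ U →
    Bijective (spb l j U' U n) ∧ (O' = j ⁻¹ᵁ O → Bijective (kpb l j U' O' U O n))

/-- The consequences of the sequence of a closed immersion. -/
def LES2_s : Prop := ∀ (l : ℕ) [Fact l.Prime] (D T : Scheme.{0}) (i : D ⟶ T) [IsClosedImmersion i]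
  (U O O₁ O₂ : T.Opens) (U' O' : D.Opens), Linv l T → (∀ x : T, x ∈ O₁ ↔ x ∉ Set.range i) →
    O₂ = O ⊓ O₁ → U' = i ⁻¹ᵁ U → O' = i ⁻¹ᵁ O →
    (∀ n, Exact (kpb l (𝟙 T) U O U O₂ n) (kpb l i U' O' U O n)) ∧
    ((∀ n, Bijective (kpb l i U' O' U O n)) → ∀ (n : ℕ) (x : KK l T U O₂ n), x = 0) ∧
    ∀ σ : T ⟶ T, i ≫ σ = i → U = σ ⁻¹ᵁ U → O = σ ⁻¹ᵁ O → O₁ = σ ⁻¹ᵁ O₁ →
      ∀ (n : ℕ) (x : KK l T U O₂ n), kpb l (𝟙 T) U O U O₂ n x = 0 → kpb l σ U O₂ U O₂ n x = x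

def EXC_s : Prop := ∀ (l : ℕ) [Fact l.Prime] (C C₁ : Type) [CommRing C] [CommRing C₁]
  [Algebra C C₁] (I J : Ideal C) (U' O' : (Spec (.of C₁)).Opens) (n : ℕ), Exs C C₁ I → I.FG →
    J.FG → U' = spc (algebraMap C C₁) ⁻¹ᵁ opI I → O' = spc (algebraMap C C₁) ⁻¹ᵁ opI J →
    Bijective (kpb l (spc (algebraMap C C₁)) U' O' (opI I) (opI J) n)

/-- Retracts of affine space bundles (`s = 𝟙` gives the bundles themselves). -/
def RET_s : Prop := ∀ (l : ℕ) [Fact l.Prime] (W T' T : Scheme.{0}) (ρ : W ⟶ T) (g : T' ⟶ T)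
  (s : T' ⟶ W) (r : W ⟶ T') (U' O' : T'.Opens) (U O : T.Opens) (n : ℕ), GG.AffB ρ → Qcs T →
    Linv l T → IsCompact (U : Set T) → s ≫ r = 𝟙 T' → r ≫ g = ρ → U' = g ⁻¹ᵁ U → O' = g ⁻¹ᵁ O →
    Bijective (kpb l g U' O' U O n)

def GABK_s : Prop := ∀ (l : ℕ) [Fact l.Prime] (B : Type) [CommRing B] (ϖ : B), IsUnit (l : B) →
  T.HP B (Ideal.span {ϖ}) → ∀ (n : ℕ) (x : KK l (Spec (.of B)) ⊥ (opI (Ideal.span {ϖ})) n), x = 0

/-! ### Section 3 -/

def THS_s : Prop := ∀ (l : ℕ) [Fact l.Prime] (G : SG l) (T : Scheme.{0}) (L : List (TH l T))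
  (U : T.Opens) (k : ℕ) (h : 2 * L.length = k), U ≤ sup L →
    se l U k (G.thk L U k h) = Twt.pk (L.map fun a => se l a.1 2 a.2) k (by simpa using h) ∧
    (∀ (L' : List (TH l T)) (U' U'' : T.Opens) (k' k'' : ℕ) (h' : 2 * L'.length = k')
      (e : k + k' = k'') (h'' : 2 * (L ++ L').length = k''), U' ≤ sup L' → U'' ≤ U ⊔ U' →
      G.star U U' U'' k k' k'' e (G.thk L U k h) (G.thk L' U' k' h') = G.thk (L ++ L') U'' k'' h'') ∧
    ∀ (T' : Scheme.{0}) (g : T' ⟶ T) (L' : List (TH l T')) (U' : T'.Opens) (N : ℕ)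
      (h' : 2 * L'.length = k), U' ≤ g ⁻¹ᵁ U → U' ≤ sup L' →
      List.Forall₂ (fun (a' : TH l T') (a : TH l T) => a'.1 ≤ g ⁻¹ᵁ a.1 ∧
        spb l g a'.1 a.1 2 a.2 = N • a'.2) L' L →
      spb l g U' U k (G.thk L U k h) = N ^ L.length • G.thk L' U' k h'

/-- Thom classes of forms: class, pull-back, Galois twist. -/
def THJ_s : Prop := ∀ (l : ℕ) [Fact l.Prime] (Ω : Type) [Field Ω] (Ch : Chern l Ω) (hP : P1L_s)
  (κ : Type) [Fintype κ] [DecidableEq κ] (D : Type) [CommRing D] (ω : Ω →+* D) (e : EV κ → D)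
  (n : κ → ℤ) (s : MvPolynomial (XY κ) D) (I : Ideal D), JP e → Hg n s → Zer e s I →
    (∀ z : κ → (Spec (.of D) ⟶ P1), Ad e z →
      se l _ 2 (thJ Ch ω e n s I).2 = Ch.cl hP (spc ω) z n) ∧
    ∀ (D' : Type) [CommRing D'] (ψ : D →+* D') (ω' : Ω →+* D') (σ : Ω →+* Ω) (Q : ℕ)
      (s' : MvPolynomial (XY κ) D') (I' : Ideal D'), Tw l σ Q → ψ.comp ω = ω'.comp σ →
      Hg n s' → Zer (ψ ∘ e) s' I' →
      (∀ (D'' : Type) [CommRing D''] (χ : D' →+* D'') (a : XY κ → D''), emat a = χ ∘ ψ ∘ e →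
        MvPolynomial.eval₂ χ a s' = MvPolynomial.eval₂ (χ.comp ψ) a s) →
      opI I' = spc ψ ⁻¹ᵁ opI I ∧
      spb l (spc ψ) (opI I') (opI I) 2 (thJ Ch ω e n s I).2 = Q • (thJ Ch ω' (ψ ∘ e) n s' I').2

/-- Change of generators, for functions. -/
def MAT0_s : Prop := ∀ (l : ℕ) [Fact l.Prime] (Ω : Type) [Field Ω] [IsAlgClosed Ω] [CharZero Ω]
  (Ch : Chern l Ω) (G : SG l) (D : Type) [CommRing D] (ω : Ω →+* D) (β : Type) [Fintype β]
  [DecidableEq β] (t t' : β → D) (M : Matrix β β D) (A A' : List β) (U : (Spec (.of D)).Opens)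
  (k : ℕ) (h : 2 * (A.map fun a => thF Ch ω (t a)).length = k)
  (h' : 2 * (A'.map fun a => thF Ch ω (t' a)).length = k), t = M.mulVec t' → IsUnit M.det →
    A.Nodup → (∀ a, a ∈ A) → A'.Nodup → (∀ a, a ∈ A') → U ≤ opI (Ideal.span (Set.range t)) →
    G.thk (A.map fun a => thF Ch ω (t a)) U k h = G.thk (A'.map fun a => thF Ch ω (t' a)) U k h'

/-- Change of generators, for forms. -/
def MATW_s : Prop := ∀ (l : ℕ) [Fact l.Prime] (Ω : Type) [Field Ω] [IsAlgClosed Ω] [CharZero Ω]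
  (Ch : Chern l Ω) (G : SG l) (κ : Type) [Fintype κ] [DecidableEq κ] (D : Type) [CommRing D]
  (ω : Ω →+* D) (e : EV κ → D) (β : Type) [Fintype β] [DecidableEq β] (n n' : β → κ → ℤ)
  (t t' : β → MvPolynomial (XY κ) D) (I I' : β → Ideal D)
  (M : Matrix β β (MvPolynomial (XY κ) D)) (A A' : List β) (U : (Spec (.of D)).Opens) (k : ℕ)
  (h : 2 * (A.map fun a => thJ Ch ω e (n a) (t a) (I a)).length = k)
  (h' : 2 * (A'.map fun a => thJ Ch ω e (n' a) (t' a) (I' a)).length = k), JP e →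
    (∀ a, Hg (n a) (t a) ∧ Zer e (t a) (I a)) → (∀ a, Hg (n' a) (t' a) ∧ Zer e (t' a) (I' a)) →
    (∀ a b, Hg (n a - n' b) (M a b)) →
    (∀ (D' : Type) [CommRing D'] (ψ : D →+* D') (x : XY κ → D'), emat x = ψ ∘ e →
      IsUnit (MvPolynomial.eval₂ ψ x M.det) ∧ ∀ a, MvPolynomial.eval₂ ψ x (t a) =
        ∑ b, MvPolynomial.eval₂ ψ x (M a b) * MvPolynomial.eval₂ ψ x (t' b)) →
    A.Nodup → (∀ a, a ∈ A) → A'.Nodup → (∀ a, a ∈ A') → U ≤ opI (∑ a, I a) →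
    G.thk (A.map fun a => thJ Ch ω e (n a) (t a) (I a)) U k h =
      G.thk (A'.map fun a => thJ Ch ω e (n' a) (t' a) (I' a)) U k h'

/-- The Thom class of the origin of an affine space is not torsion. -/
def NT0_s : Prop := ∀ (l : ℕ) [Fact l.Prime] (Ω : Type) [Field Ω] [IsAlgClosed Ω] [CharZero Ω]
  (Ch : Chern l Ω) (G : SG l) (β : Type) [Fintype β] (A : List β) (k : ℕ)
  (h : 2 * (A.map fun a => thF Ch (MvPolynomial.C : Ω →+* MvPolynomial β Ω) (.X a)).length = k)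
  (N : ℕ), A.Nodup → (∀ a, a ∈ A) → N ≠ 0 →
    N • G.thk (A.map fun a => thF Ch (MvPolynomial.C : Ω →+* MvPolynomial β Ω) (.X a))
      (opI (Ideal.span (Set.range MvPolynomial.X))) k h ≠ 0

end Pool.Agent.MP_855f4c_ag.A

end

section

/-! Row M0P: forms that vanish on the complete intersection are highly divisible along the
segment from the power of the approximate root to the equations. -/

set_option autoImplicit false

open MvPolynomial

namespace Pool.Agent.MP_855f4c_ag.T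

def M0P_s : Prop := ∀ (p : ℕ) [Fact p.Prime] (K Ω : Type) [Field K] [Field Ω] [IsAlgClosed Ω]
  [Algebra K Ω] [Algebra K (PadicAlgCl p)] (κ : Type) [Fintype κ] [DecidableEq κ] (c : ℕ)
  (e : Fin c → κ → ℕ) (cf : MI e → K) (τ ρ : Type) [Fintype τ] [Finite ρ]
  (s : τ → MvPolynomial (XY κ) K) (n : τ → κ → ℤ) (P : ρ → MvPolynomial (XY κ) K) (d : ℕ),
    (∀ i, ‖algebraMap K (PadicAlgCl p) (cf i)‖ ≤ 1) → (∀ t, Hg (n t) (s t)) →
    (∀ a : XY κ → Ω, Rel a → (∀ b, gen (algebraMap K Ω ∘ cf) b (fun v => a (.inl v)) = 0) →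
      (∀ t, aeval a (s t) = 0) → ∀ j, aeval a (P j) = 0) →
    ∃ r : ℕ, ∀ Δ : MvPolynomial (MI fun a k => p ^ r * e a k) ℤ,
      map (Int.castRingHom (ZMod p)) Δ ≠ 0 → ∀ ε : ℝ, ε < 1 →
      ∃ (N : ℕ) (E : Finset (PadicAlgCl p)), r < N ∧ (∀ z ∈ E, ‖z‖ ≤ 1) ∧
        ∀ O : Subring (PadicAlgCl p), (∀ z ∈ E, z ∈ O) →
          (∀ x : K, ‖algebraMap K (PadicAlgCl p) x‖ ≤ 1 → algebraMap K _ x ∈ O) →
          ∃ (c₀ : MI e → O) (c' : (MI fun a k => p ^ r * e a k) → O),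
            (∀ i, (c₀ i : PadicAlgCl p) = algebraMap K _ (cf i)) ∧
            ε < ‖aeval (fun i => (c' i : PadicAlgCl p)) Δ‖ ∧
            ∀ Φ : XY κ → MvPolynomial (XY κ) ℤ, (∀ v, Φ (.inl v) = X (.inl v) ^ p ^ N) →
              (∀ (D : Type) [CommRing D] (a : XY κ → D), Rel a → Rel fun v => aeval a (Φ v)) →
              ∀ (B C : Type) [CommRing B] [CommRing C] [Algebra B C] (ω : O →+* B) (χ : K →+* C)
                (m : EV κ → B) (t : B) (π : C) (y : ρ → C), JP m → p * π = 1 →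
                (∀ (x : K) (o : O), algebraMap K _ x = (o : PadicAlgCl p) →
                  χ x = algebraMap B C (ω o)) →
                (∀ (L : Type) [Field L] (ψ : C →+* L) (a : XY κ → L),
                  emat a = ψ ∘ algebraMap B C ∘ m →
                  (∀ b, gen (ψ ∘ algebraMap B C ∘ ω ∘ c') b (fun v => a (.inl v)) ^ p ^ (N - r) +
                    ψ (algebraMap B C t) *
                      (gen (ψ ∘ algebraMap B C ∘ ω ∘ c₀) b (fun v => a (.inl v) ^ p ^ N) -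
                        gen (ψ ∘ algebraMap B C ∘ ω ∘ c') b (fun v => a (.inl v)) ^ p ^ (N - r)) =
                      0) ∧
                  (∀ i, eval₂ (ψ.comp χ) (fun v => aeval a (Φ v)) (s i) = 0) ∧
                  ∀ j, ψ (y j) = eval₂ (ψ.comp χ) (fun v => aeval a (Φ v)) (P j)) →
                ∀ j, IsIntegral B (π ^ d * y j)

namespace M0p

open M0

/-- Trivialisation over a local ring. -/
theorem triv {κ D : Type} [Fintype κ] [DecidableEq κ] [CommRing D] [IsLocalRing D]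
    {m : EV κ → D} (hJ : JP m) : ∃ a : XY κ → D, emat a = m := by
  have h (k : κ) : ∃ i, IsUnit (m (k, i, i)) :=
    (IsLocalRing.isUnit_or_isUnit_of_add_one (hJ k).1).elim (⟨0, ·⟩) (⟨1, ·⟩)
  choose σ hσ using h
  exact (w0 κ D).2.2.1 _ σ hJ hσ

theorem eps_int {B C : Type} [CommRing B] [CommRing C] [Algebra B C] {x T : C}
    (hT : IsIntegral B T) (h : IsIntegral B (x * (x - T))) : IsIntegral B x :=
  G.vint x fun L _ _ ψ W hW => by
    have key : ∀ z : C, IsIntegral B z → ψ z ∈ W := fun z hz => by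
      let _ : Algebra B W := ((ψ.comp (algebraMap B C)).codRestrict W hW).toAlgebra
      let _ : Algebra B L := (ψ.comp (algebraMap B C)).toAlgebra
      have : IsScalarTower B W L := .of_algebraMap_eq fun _ => rfl
      have h1 : IsIntegral B (ψ z) := hz.map (⟨ψ, fun _ => rfl⟩ : C →ₐ[B] L)
      obtain ⟨w, hw⟩ := IsIntegrallyClosed.isIntegral_iff.1 (h1.tower_top (A := W))
      exact hw ▸ w.2
    have h1 := key _ hT
    have h2 := key _ h
    rw [map_mul, map_sub] at h2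
    rcases W.mem_or_inv_mem (ψ x) with h3 | h3
    · exact h3
    · by_cases h0 : ψ x = 0
      · rw [h0]; exact zero_mem _
      · have e : ψ x = ψ x * (ψ x - ψ T) * (ψ x)⁻¹ + ψ T := by field_simp; ring
        rw [e]
        exact add_mem (mul_mem h2 h3) h1

end M0p

open M0 M0p in
theorem m0p : M0P_s := by
  intro p _ K Ω _ _ _ _ _ κ _ _ c e cf τ ρ _ _ s n P d hcf hs h1
  have := Fintype.ofFinite ρ
  let F (b : Fin c) : MvPolynomial (XY κ) K := gen (fun i => C (cf i)) b fun v => X (.inl v)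
  have hF {D : Type} [CommRing D] (χ : K →+* D) (a : XY κ → D) (b) :
      eval₂ χ a (F b) = gen (χ ∘ cf) b fun v => a (.inl v) :=
    (map_gen (eval₂Hom χ a) _ b _).trans (by congr 1 <;> ext <;> simp)
  obtain ⟨-, n2⟩ := null K Ω κ Empty (Fin c ⊕ τ) (Sum.elim F s)
    (Sum.elim (fun b k => e b k) n) (by rintro (b | t); exacts [gen_hg _ b, hs t])
  choose M b hM0 hb using fun j => n2 (P j) fun a ha h => h1 a ha
    (fun b => (hF (algebraMap K Ω) a b).symm.trans (h (.inl b))) (fun t => h (.inr t)) j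
  obtain ⟨c₃, hc₃⟩ := dens p fun x : ρ × Fin c => b x.1 (.inl x.2)
  obtain ⟨r, hr⟩ := apxp p κ c e (algebraMap K _ ∘ cf) hcf (c₃ + ∑ j, d * M j)
  refine ⟨r, fun Δ hΔ ε hε => ?_⟩
  obtain ⟨N, E, hN, hE1, hE2⟩ := hr Δ hΔ ε hε
  refine ⟨N, E, hN, hE1, fun O hO hO' => ?_⟩
  obtain ⟨c₀, c', hc₀, hΔ', hap⟩ := hE2 O hO
  refine ⟨c₀, c', hc₀, hΔ', fun Φ hΦ1 hΦ4 B C _ _ _ ω χ m t π y hm hπ hχ hz j =>
    G.vint _ fun L _ _ ψ W hψ => ?_⟩
  let φ : B →+* W := (ψ.comp (algebraMap B C)).codRestrict W hψ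
  obtain ⟨a, ha⟩ := triv (JP.map φ hm)
  have ha' : emat (W.subtype ∘ a) = ψ ∘ algebraMap B C ∘ m :=
    funext fun v => congrArg W.subtype (congrFun ha v)
  obtain ⟨z1, z2, z3⟩ := hz L ψ _ ha'
  have hr : Rel fun v => aeval (W.subtype ∘ a) (Φ v) :=
    hΦ4 L _ (rel_of (ha' ▸ JP.map ψ (JP.map (algebraMap B C) hm)))
  have hm' (v) : aeval (W.subtype ∘ a) (Φ v) ∈ W.toSubring := by
    rw [show aeval (W.subtype ∘ a) (Φ v) = W.subtype (aeval a (Φ v)) from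
      (comp_aeval_apply a W.subtype.toIntAlgHom _).symm]
    exact Subtype.prop _
  have hO'' : ∀ o ∈ OK p K, (ψ.comp χ) o ∈ W.toSubring := fun o ho => by
    change ψ (χ o) ∈ W
    rw [hχ o ⟨_, hO' o ho⟩ rfl]
    exact hψ _
  have hπ' : p * ψ π = 1 := by rw [← map_natCast ψ, ← map_mul, hπ, map_one]
  have hf : ∀ i, ∃ w ∈ W, eval₂ (ψ.comp χ) (fun v => aeval (W.subtype ∘ a) (Φ v)) (F i) =
      p ^ (c₃ + ∑ j, d * M j) * w := fun i => by
    obtain ⟨w, hw⟩ := hap W (φ.comp ω) (fun v => a (.inl v)) i (φ t) (W.subtype_injective (by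
      rw [map_zero, ← z1 i]
      simp only [map_add, map_mul, map_sub, map_pow, map_gen, Function.comp_def]
      rfl))
    refine ⟨w, w.2, ?_⟩
    have := congrArg W.subtype hw
    rw [map_gen] at this
    refine (hF _ _ i).trans (Eq.trans ?_ (this.trans (by simp)))
    congr 1
    · exact funext fun x => congrArg ψ (hχ _ _ (hc₀ x).symm)
    · ext v
      simp [hΦ1]
  have h4 := est W hπ' _ _ (Nat.add_le_add_left (Finset.single_le_sum (f := fun j => d * M j)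
    (fun _ _ => Nat.zero_le _) (Finset.mem_univ j)) c₃)
    (fun i => hc₃ (j, i) L _ (ψ.comp χ) _ hO'' hm') hf
  have h5 := hb j L (ψ.comp χ) _ hr
  rw [Fintype.sum_sum_type] at h5
  simp only [Sum.elim_inr, z2, mul_zero, Finset.sum_const_zero, add_zero, Sum.elim_inl] at h5
  rw [← h5, pow_mul, ← mul_pow, ← z3] at h4
  rw [map_mul, map_pow]
  exact of_pow W (hM0 j) h4

end Pool.Agent.MP_855f4c_ag.T

end

section

/-! h14a: pull-back of the data on a product of projective lines along a power map. -/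

set_option autoImplicit false

open MvPolynomial

namespace Pool.Agent.MP_855f4c_ag.A

open E E3 T

section
variable {κ : Type} [DecidableEq κ]

/-- `Φ` is a power map of exponent `N` on coordinates and covectors. -/
structure Fr (N : ℕ) (Φ : XY κ → MvPolynomial (XY κ) ℤ) : Prop where
  pow : ∀ v, Φ (.inl v) = X (.inl v) ^ N
  hom : ∀ v, Hg ((N : ℤ) • wt v) (Φ v)
  rel : ∀ (D : Type) [CommRing D] (a : XY κ → D), Rel a → Rel fun v => aeval a (Φ v)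

theorem exFr (κ : Type) [DecidableEq κ] (N : ℕ) :
    ∃ Φ : XY κ → MvPolynomial (XY κ) ℤ, Fr N Φ :=
  let ⟨Φ, h1, h2, _, h4⟩ := Ja.p5 (κ := κ) (A := ℤ) N
  ⟨Φ, h1, h2, h4⟩

omit [DecidableEq κ] in
/-- Substitution of `Φ`. -/
noncomputable def pl (A : Type) [CommRing A] (Φ : XY κ → MvPolynomial (XY κ) ℤ) :
    MvPolynomial (XY κ) A →ₐ[A] MvPolynomial (XY κ) A :=
  aeval fun v => map (Int.castRingHom A) (Φ v)

variable {A D : Type} [CommRing A] [CommRing D] {Φ : XY κ → MvPolynomial (XY κ) ℤ} {N : ℕ}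

omit [DecidableEq κ] in
theorem pl_eval (χ : A →+* D) (a : XY κ → D) (P : MvPolynomial (XY κ) A) :
    eval₂ χ a (pl A Φ P) = eval₂ χ (fun v => aeval a (Φ v)) P := by
  have e : (eval₂Hom χ a).comp (pl A Φ).toRingHom = eval₂Hom χ fun v => aeval a (Φ v) := by
    refine ringHom_ext (fun r => by simp [pl]) fun v => ?_
    have : χ.comp (Int.castRingHom A) = algebraMap ℤ D := Subsingleton.elim _ _
    simp [pl, eval₂_map, this, aeval_def]
  exact congrArg (fun F => F P) (congrArg DFunLike.coe e)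

omit [DecidableEq κ] in
theorem pl_aeval (a : XY κ → D) (P : MvPolynomial (XY κ) ℤ) :
    aeval a (pl ℤ Φ P) = aeval (fun v => aeval a (Φ v)) P := pl_eval _ a P

theorem Fr.pl_hom (h : Fr N Φ) {n : κ → ℤ} {P : MvPolynomial (XY κ) A} (hP : Hg n P) :
    Hg ((N : ℤ) • n) (pl A Φ P) :=
  Ja.aeval_hom wt wt (zsmulAddGroupHom (N : ℤ)) _ (fun v => Ja.hom_map _ (h.hom v)) hP

theorem Fr.pl_gen [Fintype κ] (h : Fr N Φ) {c : ℕ} {e : Fin c → κ → ℕ} (cf : MI e → A)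
    (a : Fin c) : pl A Φ (gen (fun i => C (cf i)) a fun v => X (.inl v)) =
      gen (fun i => C (cf i)) a fun v => X (.inl v) ^ N := by
  simp [gen, mon, pl, h.pow]

end

section
variable {ν J ρ K Ω : Type} [Fintype ν] [Fintype J] [Field K] [Field Ω] {τ : K →+* Ω}
  {g : ρ → MvPolynomial (ν × ν) K} {y : NV ν J → MvPolynomial ν K} {d : ℕ} {u : ν → Ω}
  {ℓ : Fin d → ν → Ω} {o : ν} {κ β : Type} [Fintype κ] [DecidableEq κ] [Fintype β]
  [DecidableEq β] {c : ℕ} {Φ : XY κ → MvPolynomial (XY κ) ℤ} {N : ℕ}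

omit [Fintype ν] [Fintype J] [Fintype κ] [DecidableEq κ] in
theorem pl_wp (q lam : ν → MvPolynomial (XY κ) ℤ) (q' lam' : NV ν J → MvPolynomial (XY κ) ℤ)
    (v : EW ν J) : wp (fun i => pl ℤ Φ (q i)) (fun i => pl ℤ Φ (lam i)) (fun i => pl ℤ Φ (q' i))
      (fun i => pl ℤ Φ (lam' i)) v = pl ℤ Φ (wp q lam q' lam' v) := by
  rcases v with v | v <;> exact (map_mul _ _ _).symm

/-- The pull-back of the data. -/
noncomputable def WD.pull (W : WD τ g y u ℓ o κ β c) (h : Fr N Φ) (hN : N ≠ 0) :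
    WD τ g y u ℓ o κ β c where
  f a := pl K Φ (W.f a)
  nf a := (N : ℤ) • W.nf a
  s t := pl K Φ (W.s t)
  ns t := (N : ℤ) • W.ns t
  q i := pl ℤ Φ (W.q i)
  lam i := pl ℤ Φ (W.lam i)
  m := (N : ℤ) • W.m
  q' i := pl ℤ Φ (W.q' i)
  lam' i := pl ℤ Φ (W.lam' i)
  m' := (N : ℤ) • W.m'
  eps := pl K Φ W.eps
  M := W.M
  t' b := pl Ω Φ (W.t' b)
  n' b := (N : ℤ) • W.n' b
  Mx := (pl Ω Φ).toRingHom.mapMatrix W.Mx
  hf a := h.pl_hom (W.hf a)
  hs t := h.pl_hom (W.hs t)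
  hq i := ⟨h.pl_hom (W.hq i).1, smul_neg (N : ℤ) W.m ▸ h.pl_hom (W.hq i).2⟩
  hq' i := ⟨h.pl_hom (W.hq' i).1, smul_neg (N : ℤ) W.m' ▸ h.pl_hom (W.hq' i).2⟩
  he := smul_zero (A := κ → ℤ) (N : ℤ) ▸ h.pl_hom W.he
  ht b := h.pl_hom (W.ht b)
  hM a b := by
    have := h.pl_hom (W.hM a b)
    rw [smul_sub] at this
    rcases a with a | a | a <;> exact this
  cov D _ a ha := by
    simp only [pl_aeval]
    exact W.cov D _ (h.rel D a ha)
  mat D _ ω a ha b := by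
    have e : ∀ b b', eval₂ ω a ((pl Ω Φ).toRingHom.mapMatrix W.Mx b b') =
        eval₂ ω (fun v => aeval a (Φ v)) (W.Mx b b') := fun _ _ => pl_eval _ _ _
    simp only [pl_aeval, pl_eval, e]
    exact W.mat D ω _ (h.rel D a ha) b
  h1 L _ χ a ha := by
    simp only [pl_wp, pl_aeval, pl_eval]
    exact W.h1 L χ _ (h.rel L a ha)
  h2 L _ ω a ha := by
    simp only [pl_aeval, pl_eval]
    exact W.h2 L ω _ (h.rel L a ha)
  h3 L _ ω a ha := by
    have e : eval₂ ω a ((pl Ω Φ).toRingHom.mapMatrix W.Mx).det =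
        eval₂ ω (fun v => aeval a (Φ v)) W.Mx.det := by
      rw [← RingHom.map_det]
      exact pl_eval _ _ _
    simp only [pl_wp, pl_aeval, pl_eval, e]
    exact W.h3 L ω _ (h.rel L a ha)
  num := by
    simp only [Eps.lin_smul, Finset.prod_mul_distrib, Finset.prod_const]
    rw [mul_mul_mul_comm, ← map_pow, ← map_pow, ← map_mul, T.top, coeff_C_mul]
    exact mul_ne_zero (mul_ne_zero (pow_ne_zero _ (Nat.cast_ne_zero.2 hN))
      (pow_ne_zero _ (Nat.cast_ne_zero.2 hN))) W.num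

variable (W : WD τ g y u ℓ o κ β c) (h : Fr N Φ) (hN : N ≠ 0)

theorem WD.pull_f (a : Fin c) : (W.pull h hN).f a = pl K Φ (W.f a) := rfl

theorem WD.pull_w (v : EW ν J) : (W.pull h hN).w v = pl ℤ Φ (W.w v) := pl_wp _ _ _ _ v

theorem WD.pull_gen {e : Fin c → κ → ℕ} {cf : MI e → K}
    (hW : ∀ a, (W.nf a = fun k => (e a k : ℤ)) ∧
      W.f a = gen (fun i => C (cf i)) a fun v => X (.inl v)) (a : Fin c) :
    ((W.pull h hN).nf a = fun k => ((N * e a k : ℕ) : ℤ)) ∧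
      (W.pull h hN).f a = gen (fun i => C (cf i)) a fun v => X (.inl v) ^ N := by
  refine ⟨?_, by rw [WD.pull_f, (hW a).2, h.pl_gen]⟩
  change (N : ℤ) • W.nf a = _
  rw [(hW a).1]
  exact funext fun k => (Nat.cast_mul _ _).symm

/-- The values of the pull-back at `a` are the values of the original data at `Φ a`. -/
theorem WD.pull_val {D : Type} [CommRing D] (χ : K →+* D) (a : XY κ → D) :
    (∀ k, eval₂ χ a ((W.pull h hN).f k) = eval₂ χ (fun v => aeval a (Φ v)) (W.f k)) ∧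
    (∀ t, eval₂ χ a ((W.pull h hN).s t) = eval₂ χ (fun v => aeval a (Φ v)) (W.s t)) ∧
    eval₂ χ a (W.pull h hN).eps = eval₂ χ (fun v => aeval a (Φ v)) W.eps ∧
    ∀ v, aeval a ((W.pull h hN).w v) = aeval (fun v => aeval a (Φ v)) (W.w v) :=
  ⟨fun _ => pl_eval _ _ _, fun _ => pl_eval _ _ _, pl_eval _ _ _,
    fun v => by rw [WD.pull_w, pl_aeval]⟩

end

end Pool.Agent.MP_855f4c_ag.A

end
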