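import Pool.Agent.MP_855f4c_ag.EC.Pc
import Pool.Agent.MP_855f4c_ag.TC.Th
import Pool.Agent.MP_855f4c_ag.AC.Af

set_option linter.all false

section

/-! h14a row EZA: classes on sheaves supported in an open part, and the long exact sequence. -/

set_option autoImplicit false
set_option backward.isDefEq.respectTransparency false

open CategoryTheory Limits Abelian Opposite AlgebraicGeometry Function

namespace Pool.Agent.MP_855f4c_ag.T.Eza

open E E3 E4 Ez
open Tel hiding πU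

variable {T T' : Scheme.{0}} (j : T' ⟶ T) [IsOpenImmersion j]

instance : (Over.map j).Full where
  map_surjective {A B} g := ⟨Over.homMk g.left (by
    rw [← cancel_mono j, Category.assoc]; exact Over.w g), rfl⟩

/-- Maps out of an extension by zero are maps on the open part. -/
theorem hom_bij (F G : Sh (Scheme.etaleTopology.over T)) :
    Bijective fun ψ : (ez j.opensRange).obj F ⟶ G => (pbe j).map ψ := by
  classical
  let ζ := zη (Scheme.etaleTopology.over T) (ovU j.opensRange) F.obj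
  have hW := (Scheme.etaleTopology.over T).W_of_isLocallyBijective ζ G.obj G.property
  constructor
  · intro ψ ψ' h
    refine Sheaf.hom_ext (hW.1 ?_)
    ext W s
    rcases s.2 with h0 | h0
    · rw [show s = 0 from Subtype.ext h0, map_zero, map_zero]
    · obtain ⟨W', hT⟩ := U.JSH.exists_lift j h0
      obtain rfl : W = op ((Over.map j).obj W') := congrArg op hT
      exact congr(($h).hom.app (op W') (ζ.app _ s))
  · intro θ
    have key : ∀ W : Over T, ∃ t : (zP (ovU j.opensRange) F.obj).obj (op W) ⟶ G.obj.obj (op W),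
        ∀ (A : Over T') (a : (Over.map j).obj A ⟶ W) (s), G.obj.map a.op (t s) =
          θ.hom.app (op A) (ζ.app _ ((zP (ovU j.opensRange) F.obj).map a.op s)) := by
      intro W
      by_cases h : (ovU j.opensRange).mem W
      · obtain ⟨W', rfl⟩ := U.JSH.exists_lift j h
        refine ⟨ζ.app _ ≫ θ.hom.app (op W'), fun A a s => ?_⟩
        obtain ⟨a, rfl⟩ := (Over.map j).map_surjective a
        exact (nat θ.hom a _).symm
      · refine ⟨0, fun A a s => ?_⟩
        rw [show s = 0 from Subtype.ext (s.2.resolve_right h)]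
        simp only [map_zero]
    choose t ht using key
    have ht' : ∀ (A : Over T') (s), t _ s = θ.hom.app (op A) (ζ.app _ s) := fun A s => by
      have := ht _ A (𝟙 _) s
      rwa [res_id, res_id] at this
    obtain ⟨ψ, hψ⟩ := hW.2 ⟨fun W => t W.unop, fun W W' g => by
      ext s
      by_cases h : (ovU j.opensRange).mem W'.unop
      · obtain ⟨A, hA⟩ := U.JSH.exists_lift j h
        obtain rfl : W' = op ((Over.map j).obj A) := congrArg op hA
        exact (ht' A _).trans (ht _ A g.unop s).symm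
      · rw [show s = 0 from Subtype.ext (s.2.resolve_right fun h' =>
          h ((ovU j.opensRange).down g.unop h')), map_zero, map_zero]⟩
    refine ⟨⟨ψ⟩, Sheaf.hom_ext ?_⟩
    ext A s
    exact (congr(($hψ).app (op ((Over.map j).obj A.unop))
      ⟨s.1, .inr (U.JSH.mem_map j _)⟩)).trans (ht' A.unop _)

/-- Restriction to an open part preserves injectives. -/
theorem inj_pb (I : Sh (Scheme.etaleTopology.over T)) [Injective I] :
    CategoryTheory.Injective ((pbe j).obj I) := ⟨fun {A B} g f _ => by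
  have := (U.JSH.exa j).2.1
  have hk (G) : IsIso ((U.JSH.kapN j).app G) := isIso_of_bij _ (U.JSH.kap_bij j G)
  have := hk A
  have := hk B
  obtain ⟨g', hg⟩ := (hom_bij j ((pf j).obj A) I).2 ((U.JSH.kapN j).app A ≫ g)
  have : Mono ((U.JSH.jz j).map f) := inferInstance
  let k : (U.JSH.jz j).obj B ⟶ I := Injective.factorThru g' ((U.JSH.jz j).map f)
  refine ⟨inv ((U.JSH.kapN j).app B) ≫ (pbe j).map k, ?_⟩
  rw [← cancel_epi ((U.JSH.kapN j).app A)]
  refine Eq.trans ?_ hg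
  have h1 := (U.JSH.kapN j).naturality f
  have h2 : (U.JSH.jz j).map f ≫ k = g' := Injective.comp_factorThru _ _
  rw [← h2]
  change _ = (pbe j).map (_ ≫ _)
  rw [Functor.map_comp, ← Category.assoc, ← Category.assoc]
  congr 1
  rw [IsIso.comp_inv_eq]
  exact h1.symm⟩

variable {η : T.Opens}

/-- **EZA**: classes on a sheaf supported in the open part are classes on the open part. -/
theorem eza (A : Sh (Scheme.etaleTopology.over T)) (hA : IsIso ((ezι j.opensRange).app A))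
    {B : Sh (Scheme.etaleTopology.over T')} (a : B ⟶ (pbe j).obj A) [IsIso a]
    (G : Sh (Scheme.etaleTopology.over T)) (q : ℕ) : Bijective (E.cmp (pbe j) a G q) :=
  (Exce.mb_iff a (pre_bij a _)).1 (Exce.MB.of_iso (M := (ez j.opensRange).obj A)
    (fun q => cmp_bij _ _ (fun Y => by simpa using hom_bij j A Y)
      (fun I _ _ y => have := inj_pb j I; Ext.eq_zero_of_injective y) q G)
    (inv ((ezι j.opensRange).app A))) q

section van

/-- `φ` vanishes on schemes that map into `V`. -/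
def Van (V : T.Opens) {F G : Sh (Scheme.etaleTopology.over T)} (φ : F ⟶ G) : Prop :=
  ∀ W, (ovU V).mem W → ∀ s, φ.hom.app (op W) s = 0

variable {U V : T.Opens} {F G : Sh (Scheme.etaleTopology.over T)}

lemma van_iff (φ : F ⟶ G) : Van V φ ↔ (pbe V.ι).map φ = 0 := by
  constructor
  · intro h
    ext W s
    exact h _ (mem_map V W.unop) s
  · intro h W hW s
    obtain ⟨W', rfl⟩ := exists_lift V hW
    exact congr(($h).hom.app (op W') s)

lemma Van.mono {φ : F ⟶ G} (h : Van V φ) (hU : U ≤ V) : Van U φ :=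
  fun W hW => h W fun t => hU (hW t)

lemma Van.sup {φ : F ⟶ G} (h : Van U φ) (h' : Van V φ) : Van (U ⊔ V) φ := fun W hW s =>
  sepP G.property _ ⟨fun Y y => G.obj.map y.op (φ.hom.app (op W) s) = 0,
    fun {Y Z y} h g => by rw [← res_res, h, map_zero]⟩ (mem_Jov_of _ fun t => by
      rcases (show W.hom t ∈ U ∨ W.hom t ∈ V from hW t) with e | e
      · exact ⟨_, opι W (W.hom ⁻¹ᵁ U), inferInstanceAs (Etale (W.hom ⁻¹ᵁ U).ι),
          (nat φ.hom _ s).symm.trans (h (opn W (W.hom ⁻¹ᵁ U)) (fun z => z.2) _), ⟨t, e⟩, rfl⟩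
      · exact ⟨_, opι W (W.hom ⁻¹ᵁ V), inferInstanceAs (Etale (W.hom ⁻¹ᵁ V).ι),
          (nat φ.hom _ s).symm.trans (h' (opn W (W.hom ⁻¹ᵁ V)) (fun z => z.2) _), ⟨t, e⟩, rfl⟩) fun _ _ h => h

lemma van_π (V : T.Opens) (F : Sh (Scheme.etaleTopology.over T)) : Van V ((Tel.πU V).app F) :=
  (van_iff _).2 ((isQ V).pb_π F)

instance (V : T.Opens) (F : Sh (Scheme.etaleTopology.over T)) : Epi ((Tel.πU V).app F) :=
  (isQ V).epi F

/-- The map between the quotients. -/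
noncomputable def qle (h : U ≤ V) (F : Sh (Scheme.etaleTopology.over T)) :
    (QU U).obj F ⟶ (QU V).obj F :=
  ((isQ U).desc _ ((van_iff _).1 ((van_π V F).mono h))).choose

lemma π_qle (h : U ≤ V) (F : Sh (Scheme.etaleTopology.over T)) :
    (Tel.πU U).app F ≫ qle h F = (Tel.πU V).app F :=
  ((isQ U).desc _ ((van_iff _).1 ((van_π V F).mono h))).choose_spec

lemma ι_zero {φ : F ⟶ G} : (ezι V).app F ≫ φ = 0 ↔ Van V φ := by
  have := ez_pb_isIso V F
  rw [van_iff, ← (ez_hom_bij V F G).1.eq_iff]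
  simp only [Functor.map_comp, Functor.map_zero]
  exact ⟨fun h => by rw [← cancel_epi ((pbe V.ι).map ((ezι V).app F)), h, comp_zero],
    fun h => by rw [h, comp_zero]⟩

variable {b : (QU U).obj F ⟶ (QU V).obj F} (hb : (Tel.πU U).app F ≫ b = (Tel.πU V).app F)
include hb

lemma ses_w (h : η ≤ V) : (ezι η).app ((QU U).obj F) ≫ b = 0 := by
  rw [ι_zero, van_iff, ← cancel_epi ((pbe η.ι).map ((Tel.πU U).app F)), ← Functor.map_comp, hb,
    comp_zero]
  exact (van_iff _).1 ((van_π V F).mono h)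

/-- The sequence `0 → (A_U)_η → A_U → A_(U ⊔ η) → 0`. -/
theorem ses (h : U ⊔ η = V) :
    (ShortComplex.mk _ _ (ses_w hb (le_sup_right.trans h.le))).ShortExact := by
  have : Epi b := epi_of_epi_fac hb
  refine { exact := ShortComplex.exact_of_g_is_cokernel _ (CokernelCofork.IsColimit.ofπ' _ _ ?_) }
  intro A k hk
  have h1 : Van V ((Tel.πU U).app F ≫ k) := h ▸ Van.sup
    (fun W hW s => (congrArg (k.hom.app (op W)) (van_π U F W hW s)).trans (map_zero _))
    fun W hW s => ι_zero.1 hk W hW _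
  have h2 := (isQ V).desc _ ((van_iff _).1 h1)
  exact ⟨h2.choose, by rw [← cancel_epi ((Tel.πU U).app F), reassoc_of% hb]; exact h2.choose_spec⟩

omit hb

/-- A sheaf supported in `O` is supported in every larger open. -/
lemma ι_ez {O : T.Opens} (h : O ≤ η) (F : Sh (Scheme.etaleTopology.over T)) :
    IsIso ((ezι η).app ((ez O).obj F)) :=
  isIso_of_bij _ fun _ => ⟨Subtype.val_injective, fun s => ⟨⟨s,
    (Scheme.etaleTopology.over T).superset_covering (S := ezSieve (ovU O) F.obj s.1)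
      (fun _ _ e => e.imp (fun e => Subtype.ext e) fun e t => h (e t)) s.2⟩, rfl⟩⟩

/-- If `U` and `η` cover, the quotient is supported in `η`. -/
lemma ι_QU (h : U ⊔ η = ⊤) (F : Sh (Scheme.etaleTopology.over T)) :
    IsIso ((ezι η).app ((QU U).obj F)) := by
  have hS := ses (π_qle le_top F) h
  have h0 : qle (le_top : U ≤ ⊤) F = 0 := by
    rw [← cancel_epi ((Tel.πU U).app F), π_qle, comp_zero]
    ext W s
    exact van_π ⊤ F W.unop (fun _ => trivial) s
  have : Epi ((ezι η).app ((QU U).obj F)) := hS.exact.epi_f h0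
  exact isIso_of_mono_of_epi _

end van

variable {U : T.Opens} {F G : Sh (Scheme.etaleTopology.over T)}

instance (A : Sh (Scheme.etaleTopology.over T)) :
    IsIso ((pbe j).map ((ezι j.opensRange).app A)) :=
  isIso_of_bij _ fun W => ezι_bij _ A (E.U.JSH.mem_map j W)

/-- **OEX**: restriction is bijective if `U` and the open part cover. -/
theorem oex (h : U ⊔ j.opensRange = ⊤) {B : Sh (Scheme.etaleTopology.over T')}
    (a : B ⟶ (pbe j).obj ((QU U).obj F)) [IsIso a] (G : Sh (Scheme.etaleTopology.over T)) (q : ℕ) :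
    Bijective (E.cmp (pbe j) a G q) := eza j _ (ι_QU h F) a G q

/-- Restriction of classes on a sheaf supported in `O`. -/
theorem eza_le {O : T.Opens} (h : O ≤ j.opensRange) {B : Sh (Scheme.etaleTopology.over T')}
    (a : B ⟶ (pbe j).obj ((ez O).obj F)) [IsIso a] (G : Sh (Scheme.etaleTopology.over T)) (q : ℕ) :
    Bijective (E.cmp (pbe j) a G q) := eza j _ (ι_ez h F) a G q

section les
variable {A : Sh (Scheme.etaleTopology.over T)} {B G' : Sh (Scheme.etaleTopology.over T')}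
  (a : B ⟶ (pbe j).obj A) [IsIso a] (c : (pbe j).obj G ⟶ G') [IsIso c]

/-- The identification of the classes on the part supported in the range of `j`. -/
noncomputable def res (q : ℕ) : Ext.{1} ((ez j.opensRange).obj A) G q ≃+ Ext.{1} B G' q :=
  AddEquiv.ofBijective ((post B c q).comp
    (E.cmp (pbe j) (a ≫ inv ((pbe j).map ((ezι j.opensRange).app A))) G q))
    ((post_bij B c q).comp (eza_le j le_rfl _ G q))

lemma res_apply {q : ℕ} (x : Ext.{1} ((ez j.opensRange).obj A) G q) : res j a c q x =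
    post B c q (E.cmp (pbe j) (a ≫ inv ((pbe j).map ((ezι j.opensRange).app A))) G q x) := rfl

lemma res_pre {q : ℕ} (x : Ext.{1} A G q) :
    res j a c q (pre ((ezι j.opensRange).app A) G q x) = post B c q (E.cmp (pbe j) a G q x) := by
  rw [res_apply, pre_apply, cmp_pre, Category.assoc, IsIso.inv_hom_id, Category.comp_id]
  rfl

variable {A₁ : Sh (Scheme.etaleTopology.over T)} {b : A ⟶ A₁}
  {w : (ezι j.opensRange).app A ≫ b = 0} (hS : (ShortComplex.mk _ _ w).ShortExact)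

/-- The boundary map. -/
noncomputable def bd (q : ℕ) : Ext.{1} B G' q →+ Ext.{1} A₁ G (q + 1) :=
  (dr hS G q).comp (res j a c q).symm.toAddMonoidHom

lemma bd_res {q : ℕ} (x : Ext.{1} ((ez j.opensRange).obj A) G q) :
    bd j a c hS q (res j a c q x) = dr hS G q x :=
  congrArg (dr hS G q) ((res j a c q).symm_apply_apply x)

/-- **LES1**. -/
theorem les1 : IsLES (pre b G) (fun q => (post B c q).comp (E.cmp (pbe j) a G q)) (bd j a c hS) := by
  have h := con_les hS G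
  refine ⟨h.inj, fun q x => (h.e₁ q x).trans ⟨?_, ?_⟩, fun q x => Iff.trans ?_ (h.e₂ q x),
    fun q x => ?_⟩
  · rintro ⟨y, rfl⟩
    exact ⟨_, bd_res j a c hS y⟩
  · rintro ⟨y, rfl⟩
    exact ⟨_, rfl⟩
  · exact (congrArg (· = 0) (res_pre j a c x)).symm.to_iff.trans (res j a c q).map_eq_zero_iff
  · obtain ⟨x, rfl⟩ := (res j a c q).surjective x
    rw [bd_res]
    refine (h.e₃ q x).trans ⟨?_, ?_⟩
    · rintro ⟨y, rfl⟩
      exact ⟨y, (res_pre j a c y).symm⟩
    · rintro ⟨y, hy⟩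
      exact ⟨y, (res j a c q).injective ((res_pre j a c y).trans hy)⟩

/-- The boundary map commutes with products on the right. -/
theorem bd_comp {H : Sh (Scheme.etaleTopology.over T)} {H' : Sh (Scheme.etaleTopology.over T')}
    (c' : (pbe j).obj H ⟶ H') [IsIso c'] {q m n : ℕ} (h : q + m = n) (x : Ext.{1} B G' q)
    (y : Ext.{1} G H m) (y' : Ext.{1} G' H' m)
    (hy : pre c _ m y' = post _ c' m (y.mapExactFunctor (pbe j))) :
    bd j a c' hS n (x.comp y' h) = (bd j a c hS q x).comp y (by omega) := by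
  obtain ⟨x, rfl⟩ := (res j a c q).surjective x
  have e : (res j a c q x).comp y' h = res j a c' n (x.comp y h) := by
    rw [res_apply, res_apply, cmp_comp, post_apply, post_apply,
      Ext.comp_assoc _ _ _ (add_zero q) (zero_add m) (by omega),
      Ext.comp_assoc _ _ _ h (add_zero m) (by omega)]
    exact congrArg (Ext.comp _ · h) hy
  rw [e, bd_res, bd_res, dr_apply, dr_apply,
    Ext.comp_assoc _ _ _ (add_comm 1 q) h (by omega)]

end les

section nat
open Pbc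
variable {S S' : Scheme.{0}}

/-- Pull-back of classes with given comparison maps. -/
noncomputable def gp (g : S ⟶ T) {A G : Sh (Scheme.etaleTopology.over T)}
    {B G' : Sh (Scheme.etaleTopology.over S)} (a : B ⟶ (pbe g).obj A) (c : (pbe g).obj G ⟶ G')
    (n : ℕ) : Ext.{1} A G n →+ Ext.{1} B G' n := (post B c n).comp (E.cmp (pbe g) a G n)

/-- Pull-back along a composite. -/
noncomputable def pce {g' : S' ⟶ S} {g : S ⟶ T} {k : S' ⟶ T} (e : g' ≫ g = k)
    (A : Sh (Scheme.etaleTopology.over T)) : (pbe g').obj ((pbe g).obj A) ≅ (pbe k).obj A :=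
  pc g' g A ≪≫ eqToIso (by rw [e])

lemma pce_rfl (g' : S' ⟶ S) (g : S ⟶ T) (A : Sh (Scheme.etaleTopology.over T)) :
    pce rfl A = pc g' g A := Iso.trans_refl _

lemma pce_nat {g' : S' ⟶ S} {g : S ⟶ T} {k : S' ⟶ T} (e : g' ≫ g = k)
    {A B : Sh (Scheme.etaleTopology.over T)} (f : A ⟶ B) :
    (pbe g').map ((pbe g).map f) ≫ (pce e B).hom = (pce e A).hom ≫ (pbe k).map f := by
  subst e
  rw [pce_rfl, pce_rfl, pc_nat]

variable {A A₁ : Sh (Scheme.etaleTopology.over T)} {B B₁ H : Sh (Scheme.etaleTopology.over S)}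

lemma gp_apply (g : S ⟶ T) (a : B ⟶ (pbe g).obj A) (c : (pbe g).obj G ⟶ H) {n : ℕ}
    (x : Ext.{1} A G n) :
    gp g a c n x = post _ c n (pre a _ n (x.mapExactFunctor (pbe g))) := rfl

lemma gp_gp {g' : S' ⟶ S} {g : S ⟶ T} {k : S' ⟶ T} (e : g' ≫ g = k)
    {B' H' : Sh (Scheme.etaleTopology.over S')} (a' : B' ⟶ (pbe g').obj B)
    (c' : (pbe g').obj H ⟶ H') (a : B ⟶ (pbe g).obj A) (c : (pbe g).obj G ⟶ H) {n : ℕ}
    (x : Ext.{1} A G n) : gp g' a' c' n (gp g a c n x) =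
      gp k (a' ≫ (pbe g').map a ≫ (pce e A).hom) ((pce e G).inv ≫ (pbe g').map c ≫ c') n x := by
  rw [gp_apply, gp_apply, gp_apply, map_post, map_pre, pre_post, post_post, pre_pre,
    ← Category.assoc a', ← pre_pre, ← pre_pre _ (pce e A).hom,
    ← nat_comp (pbe g) (pbe g') (pbe k) (fun A => (pce e A).hom) (pce_nat e), pre_post, post_post,
    Iso.hom_inv_id_assoc, pre_pre]

lemma gp_id {A₀ G₀ : Sh (Scheme.etaleTopology.over T)} (a : A₀ ⟶ (pbe (𝟙 T)).obj A)
    (c : (pbe (𝟙 T)).obj G ⟶ G₀) {n : ℕ} (x : Ext.{1} A G n) :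
    gp (𝟙 T) a c n x = post _ ((pi G).inv ≫ c) n (pre (a ≫ (pi A).hom) _ n x) := by
  rw [gp_apply, ← pre_pre, ← nat_id (pbe (𝟙 T)) (fun A => (pi A).hom) pi_nat, pre_post, post_post,
    Iso.hom_inv_id_assoc]

/-- The induced map on the parts supported in opens. -/
lemma ex_ez (g : S ⟶ T) {η' : S.Opens} (h : η' ≤ g ⁻¹ᵁ η) (α : B ⟶ (pbe g).obj A) :
    ∃ ψ : (ez η').obj B ⟶ (pbe g).obj ((ez η).obj A),
      ψ ≫ (pbe g).map ((ezι η).app A) = (ezι η').app B ≫ α := by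
  have hS := ((isQ η).ex A).map_of_exact (pbe g)
  have := hS.mono_f
  refine hS.exact.lift' _ ((Category.assoc _ _ _).trans (ι_zero.2 fun W hW s => ?_))
  exact van_π η A ((Over.map g).obj W) (fun t => h (hW t)) _

/-- The boundary map commutes with pull-backs. -/
theorem bd_nat {j' : S' ⟶ S} [IsOpenImmersion j'] {g : S ⟶ T} {g' : S' ⟶ T'} {k : S' ⟶ T}
    (e : g' ≫ j = k) (e' : j' ≫ g = k) {A' G' : Sh (Scheme.etaleTopology.over T')}
    {B' H' : Sh (Scheme.etaleTopology.over S')}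
    (a : A' ⟶ (pbe j).obj A) [IsIso a] (c : (pbe j).obj G ⟶ G') [IsIso c]
    (a' : B' ⟶ (pbe j').obj B) [IsIso a'] (c' : (pbe j').obj H ⟶ H') [IsIso c']
    {b : A ⟶ A₁} {w : (ezι j.opensRange).app A ≫ b = 0} (hS : (ShortComplex.mk _ _ w).ShortExact)
    {b' : B ⟶ B₁} {w' : (ezι j'.opensRange).app B ≫ b' = 0}
    (hS' : (ShortComplex.mk _ _ w').ShortExact)
    (α : B ⟶ (pbe g).obj A) (α₁ : B₁ ⟶ (pbe g).obj A₁) (β : B' ⟶ (pbe g').obj A')
    (γ : (pbe g).obj G ⟶ H) (γ' : (pbe g').obj G' ⟶ H')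
    (h₁ : b' ≫ α₁ = α ≫ (pbe g).map b)
    (h₂ : a' ≫ (pbe j').map α ≫ (pce e' A).hom = β ≫ (pbe g').map a ≫ (pce e A).hom)
    (h₃ : (pce e' G).inv ≫ (pbe j').map γ ≫ c' = (pce e G).inv ≫ (pbe g').map c ≫ γ')
    {q : ℕ} (x : Ext.{1} A' G' q) :
    gp g α₁ γ (q + 1) (bd j a c hS q x) = bd j' a' c' hS' q (gp g' β γ' q x) := by
  obtain ⟨x, rfl⟩ := (res j a c q).surjective x
  obtain ⟨ψ, hψ⟩ := ex_ez g (η := j.opensRange) (η' := j'.opensRange) (by
    rintro _ ⟨z, rfl⟩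
    exact ⟨g' z, congr($(e.trans e'.symm) z)⟩) α
  have h4 : gp g' β γ' q (res j a c q x) = res j' a' c' q (gp g ψ γ q x) := by
    refine (gp_gp e β γ' _ c x).trans (Eq.trans ?_ (gp_gp e' _ c' ψ γ x).symm)
    rw [h₃]
    congr 2
    have : Mono ((pbe k).map ((ezι j.opensRange).app A)) := inferInstance
    rw [← cancel_mono ((pbe k).map ((ezι j.opensRange).app A))]
    simp only [Category.assoc]
    rw [← pce_nat e, ← pce_nat e', ← Functor.map_comp_assoc, ← Functor.map_comp_assoc, hψ,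
      Category.assoc, IsIso.inv_hom_id, Category.comp_id, Functor.map_comp_assoc,
      IsIso.inv_hom_id_assoc]
    exact h₂.symm
  rw [h4, bd_res, bd_res, gp_apply, gp_apply, map_dr, ← post_dr]
  exact congrArg _ (pre_dr hS' (hS.map_of_exact (pbe g)) ⟨ψ, α, α₁, hψ, h₁.symm⟩ _)

end nat

end Pool.Agent.MP_855f4c_ag.T.Eza

end

section

/-! h14a row ACT: the action of classes of an open part on groups with supported coefficients. -/

set_option autoImplicit false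
set_option backward.isDefEq.respectTransparency false

open CategoryTheory Limits Abelian Opposite AlgebraicGeometry Function

namespace Pool.Agent.MP_855f4c_ag.T.Act

open E E3 E4 Pbc

variable (l : ℕ) [Fact l.Prime] {T T' T₁ T₁' S : Scheme.{0}}

/-- The map from the pull-back of the supported sheaf to the constant sheaf. -/
noncomputable def kap (g : T' ⟶ T) (O : T.Opens) :
    (pbe g).obj ((ez O).obj (Linf l T)) ⟶ Linf l T' :=
  (pbe g).map ((ezι O).app (Linf l T)) ≫ (lpb l g).hom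

/-- `b` is the comparison map of the supported sheaves. -/
def Rf (g : T' ⟶ T) (O : T.Opens) (O' : T'.Opens)
    (b : (pbe g).obj ((ez O).obj (Linf l T)) ⟶ (ez O').obj (Linf l T')) : Prop :=
  b ≫ (ezι O').app (Linf l T') = (pbe g).map ((ezι O).app (Linf l T)) ≫ (lpb l g).hom

variable {l}

lemma supp_le {O V : T.Opens} (h : O ≤ V) {A : Sh (Scheme.etaleTopology.over T)}
    (hA : IsIso ((ezι O).app A)) : IsIso ((ezι V).app A) := by
  have := Eza.ι_ez h A
  have e : (ez V).map ((ezι O).app A) ≫ (ezι V).app A =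
      (ezι V).app ((ez O).obj A) ≫ (ezι O).app A := (ezι V).naturality _
  have : IsIso ((ez V).map ((ezι O).app A) ≫ (ezι V).app A) := by rw [e]; infer_instance
  exact IsIso.of_isIso_comp_left ((ez V).map ((ezι O).app A)) _

lemma supp_iso {O : T.Opens} {A B : Sh (Scheme.etaleTopology.over T)} (e : A ⟶ B) [IsIso e]
    (hB : IsIso ((ezι O).app B)) : IsIso ((ezι O).app A) := by
  have h : (ez O).map e ≫ (ezι O).app B = (ezι O).app A ≫ e := (ezι O).naturality _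
  have : IsIso ((ezι O).app A ≫ e) := by rw [← h]; infer_instance
  exact IsIso.of_isIso_comp_right _ e

lemma supp_pb (g : T' ⟶ T) (O : T.Opens) {O' : T'.Opens} (h : g ⁻¹ᵁ O ≤ O')
    (A : Sh (Scheme.etaleTopology.over T)) :
    IsIso ((ezι O').app ((pbe g).obj ((ez O).obj A))) := by
  obtain ⟨e, -⟩ := ez_pb O g
  exact supp_iso (e.hom.app A) (Eza.ι_ez h _)

/-- A map from a sheaf supported in `O` factors through the part supported in `O`. -/
lemma ex_lift {O : T.Opens} {A B : Sh (Scheme.etaleTopology.over T)} (hA : IsIso ((ezι O).app A))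
    (φ : A ⟶ B) : ∃ b : A ⟶ (ez O).obj B, b ≫ (ezι O).app B = φ :=
  ⟨inv ((ezι O).app A) ≫ (ez O).map φ, by
    rw [Category.assoc, (ezι O).naturality, IsIso.inv_hom_id_assoc]; rfl⟩

lemma exRf (g : T' ⟶ T) {O : T.Opens} {O' : T'.Opens} (h : g ⁻¹ᵁ O ≤ O') : ∃ b, Rf l g O O' b :=
  ex_lift (supp_pb g O h _) _

lemma Rf_uniq {g : T' ⟶ T} {O : T.Opens} {O' : T'.Opens}
    {b b' : (pbe g).obj ((ez O).obj (Linf l T)) ⟶ (ez O').obj (Linf l T')} (h : Rf l g O O' b)
    (h' : Rf l g O O' b') : b = b' := (cancel_mono ((ezι O').app _)).1 (h.trans h'.symm)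

lemma Rf_isIso {g : T' ⟶ T} {O : T.Opens}
    {b : (pbe g).obj ((ez O).obj (Linf l T)) ⟶ (ez (g ⁻¹ᵁ O)).obj (Linf l T')}
    (h : Rf l g O (g ⁻¹ᵁ O) b) : IsIso b := by
  obtain ⟨e, he⟩ := ez_pb O g
  have h' : Rf l g O (g ⁻¹ᵁ O) (e.hom.app _ ≫ (ez (g ⁻¹ᵁ O)).map (lpb l g).hom) := by
    rw [Rf, Category.assoc, (ezι _).naturality, ← he, Category.assoc]; rfl
  rw [Rf_uniq h h']
  infer_instance

lemma lpb_hom_pc (g' : S ⟶ T') (g : T' ⟶ T) : (pbe g').map (lpb l g).hom ≫ (lpb l g').hom =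
    (pc g' g (Linf l T)).hom ≫ (lpb l (g' ≫ g)).hom := by
  rw [← Iso.comp_inv_eq, ← lpb_pc, Category.assoc, Iso.hom_inv_id_assoc, ← Functor.map_comp_assoc,
    Iso.hom_inv_id, CategoryTheory.Functor.map_id, Category.id_comp]

lemma kap_pc (g' : S ⟶ T') (g : T' ⟶ T) (O : T.Opens) :
    (pbe g').map (kap l g O) ≫ (lpb l g').hom = (pc g' g _).hom ≫ kap l (g' ≫ g) O := by
  rw [kap, kap, Functor.map_comp, Category.assoc, lpb_hom_pc, ← Category.assoc, ← Category.assoc]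
  exact congrArg (· ≫ _) (pc_nat g' g ((ezι O).app (Linf l T)))

lemma Rf_kap {g : T' ⟶ T} {O : T.Opens} {O' : T'.Opens}
    {b : (pbe g).obj ((ez O).obj (Linf l T)) ⟶ (ez O').obj (Linf l T')} (h : Rf l g O O' b)
    (g' : S ⟶ T') : (pbe g').map b ≫ kap l g' O' = (pc g' g _).hom ≫ kap l (g' ≫ g) O := by
  rw [← kap_pc, kap, ← Functor.map_comp_assoc, (h : _ = _), kap]

lemma Rf_comp {g' : S ⟶ T'} {g : T' ⟶ T} {O : T.Opens} {O' : T'.Opens} {O'' : S.Opens}
    {b : (pbe g).obj ((ez O).obj (Linf l T)) ⟶ (ez O').obj (Linf l T')}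
    {b' : (pbe g').obj ((ez O').obj (Linf l T')) ⟶ (ez O'').obj (Linf l S)}
    (h : Rf l g O O' b) (h' : Rf l g' O' O'' b') :
    Rf l (g' ≫ g) O O'' ((pc g' g _).inv ≫ (pbe g').map b ≫ b') := by
  have := Rf_kap h g'
  rw [Rf, Category.assoc, Category.assoc, (h' : _ = _), Iso.inv_comp_eq]
  exact this

lemma Rf_id {O V : T.Opens} {c : (ez O).obj (Linf l T) ⟶ (ez V).obj (Linf l T)}
    (hc : c ≫ (ezι V).app _ = (ezι O).app _) : Rf l (𝟙 T) O V ((pi _).hom ≫ c) := by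
  have h : (lpb l (𝟙 T)).hom = (pi (Linf l T)).hom := by
    rw [← Category.comp_id (lpb l (𝟙 T)).hom, ← lpb_pi, Iso.hom_inv_id_assoc]
  rw [Rf, Category.assoc, hc, h, pi_nat]

/-- Forgetting the support of the target is bijective for a source supported in `O`. -/
lemma post_ι_bij {O : T.Opens} {A : Sh (Scheme.etaleTopology.over T)}
    (hA : IsIso ((ezι O).app A)) (B : Sh (Scheme.etaleTopology.over T)) (m : ℕ) :
    Bijective (post A ((ezι O).app B) m) := by
  have hA' := supp_le O.opensRange_ι.ge hA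
  have := ez_pb_isIso O B
  have e : ⇑(E.cmp (pbe O.ι) (𝟙 _) B m) ∘ post A ((ezι O).app B) m =
      post _ ((pbe O.ι).map ((ezι O).app B)) m ∘ E.cmp (pbe O.ι) (𝟙 _) ((ez O).obj B) m :=
    funext fun x => by
      simp only [comp_apply, cmp_apply, Ext.mk₀_id_comp]
      exact map_post _ _ x
  rw [← Bijective.of_comp_iff' (Eza.eza O.ι A hA' (𝟙 _) B m), e]
  exact (post_bij _ _ m).comp (Eza.eza O.ι A hA' (𝟙 _) _ m)

variable (l) in
/-- Restriction to the source of `g`, forgetting the support of the target. -/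
noncomputable def rs (g : T' ⟶ T) (O : T.Opens) (A : Sh (Scheme.etaleTopology.over T)) (m : ℕ) :
    Ext.{1} A ((ez O).obj (Linf l T)) m →+ Ext.{1} ((pbe g).obj A) (Linf l T') m :=
  (post _ (kap l g O) m).comp ((pbe g).mapExtAddHom _ _ m)

lemma rs_apply (g : T' ⟶ T) (O : T.Opens) {A : Sh (Scheme.etaleTopology.over T)} {m : ℕ}
    (z : Ext.{1} A ((ez O).obj (Linf l T)) m) :
    rs l g O A m z = post _ (kap l g O) m (z.mapExactFunctor (pbe g)) := rfl

variable (j : T' ⟶ T) [IsOpenImmersion j] {O : T.Opens} (h : O ≤ j.opensRange)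
include h

lemma rs_bij {A : Sh (Scheme.etaleTopology.over T)} (hA : IsIso ((ezι O).app A)) (m : ℕ) :
    Bijective (rs l j O A m) := by
  have e : ⇑(rs l j O A m) = post _ (lpb l j).hom m ∘ E.cmp (pbe j) (𝟙 _) _ m ∘
      post A ((ezι O).app (Linf l T)) m := funext fun x => by
    simp only [comp_apply, cmp_apply, Ext.mk₀_id_comp]
    rw [rs_apply, kap, ← post_post]
    exact congrArg _ (map_post _ _ x).symm
  rw [e]
  exact (post_bij _ _ m).comp ((Eza.eza j A (supp_le h hA) (𝟙 _) _ m).comp (post_ι_bij hA _ m))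

/-- The class of the supported sheaf attached to a class on the open part. -/
noncomputable def hat (m : ℕ) :
    EE l T' m →+ Ext.{1} ((ez O).obj (Linf l T)) ((ez O).obj (Linf l T)) m :=
  (AddEquiv.ofBijective _ (rs_bij (l := l) j h (Eza.ι_ez le_rfl _) m)).symm.toAddMonoidHom.comp
    (pre (kap l j O) _ m)

/-- The defining property. -/
theorem hat_spec {m : ℕ} (y : EE l T' m) :
    post _ (kap l j O) m ((hat j h m y).mapExactFunctor (pbe j)) = pre (kap l j O) _ m y :=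
  (AddEquiv.ofBijective _ (rs_bij (l := l) j h (Eza.ι_ez le_rfl _) m)).apply_symm_apply _

theorem hat_uniq {m : ℕ} {y : EE l T' m}
    {z : Ext.{1} ((ez O).obj (Linf l T)) ((ez O).obj (Linf l T)) m}
    (hz : post _ (kap l j O) m (z.mapExactFunctor (pbe j)) = pre (kap l j O) _ m y) :
    z = hat j h m y :=
  (rs_bij j h (Eza.ι_ez le_rfl _) m).1 (hz.trans (hat_spec j h y).symm)

omit h [IsOpenImmersion j] in
/-- The supported version of a global class is compatible with the inclusion. -/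
theorem ι_ez (O : T.Opens) {A B : Sh (Scheme.etaleTopology.over T)} {m : ℕ} (x : Ext.{1} A B m) :
    post _ ((ezι O).app B) m (x.mapExactFunctor (ez O)) = pre ((ezι O).app A) _ m x :=
  nat_id (ez O) (fun A => (ezι O).app A) (fun f => (ezι O).naturality f) x

/-- A class that extends to `T` acts through the functor `ez O`. -/
theorem hat_epb {m : ℕ} (x : EE l T m) : hat j h m (epb l j m x) = x.mapExactFunctor (ez O) :=
  (hat_uniq j h (by
    rw [kap, ← post_post, ← map_post, ι_ez, epb, gpb_apply, pre_post, pre_pre,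
      Category.assoc, Iso.hom_inv_id, Category.comp_id]
    exact congrArg _ (map_pre _ _ x))).symm

/-- The defining property after a further pull-back. -/
theorem hat_spec' (t : S ⟶ T') {s : S ⟶ T} (e : t ≫ j = s) {m : ℕ} (y : EE l T' m) :
    post _ (kap l s O) m ((hat j h m y).mapExactFunctor (pbe s)) =
      pre (kap l s O) _ m (epb l t m y) := by
  subst e
  refine (pre_bij (pc t j _).hom _ m).1 ?_
  rw [pre_post, ← nat_comp (pbe j) (pbe t) (pbe (t ≫ j)) (fun A => (pc t j A).hom) (pc_nat t j),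
    post_post, pre_pre, ← kap_pc, ← post_post, ← map_post, hat_spec, map_pre, epb, gpb_apply,
    pre_post, pre_pre, Category.assoc, Iso.hom_inv_id, Category.comp_id]

/-- **Naturality** for a commutative square. -/
theorem hat_nat (j₁ : T₁' ⟶ T₁) [IsOpenImmersion j₁] {O₁ : T₁.Opens} (h₁ : O₁ ≤ j₁.opensRange)
    {g : T₁ ⟶ T} {g' : T₁' ⟶ T'} (e : g' ≫ j = j₁ ≫ g) (hO : g ⁻¹ᵁ O ≤ O₁)
    {b : (pbe g).obj ((ez O).obj (Linf l T)) ⟶ (ez O₁).obj (Linf l T₁)} (hb : Rf l g O O₁ b)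
    {m : ℕ} (y : EE l T' m) :
    post _ b m ((hat j h m y).mapExactFunctor (pbe g)) =
      pre b _ m (hat j₁ h₁ m (epb l g' m y)) := by
  refine (rs_bij j₁ h₁ (supp_pb g O hO _) m).1 ?_
  rw [rs_apply, rs_apply, map_post, map_pre, post_post, ← pre_post, hat_spec, pre_pre,
    Rf_kap hb, ← post_post, ← pre_pre,
    nat_comp (pbe g) (pbe j₁) (pbe (j₁ ≫ g)) (fun A => (pc j₁ g A).hom) (pc_nat j₁ g), ← pre_post,
    hat_spec' j h g' e]

/-- Pull-back of a product `x . y`. -/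
theorem kpb_act (j₁ : T₁' ⟶ T₁) [IsOpenImmersion j₁] {O₁ : T₁.Opens} (h₁ : O₁ ≤ j₁.opensRange)
    {g : T₁ ⟶ T} {g' : T₁' ⟶ T'} (e : g' ≫ j = j₁ ≫ g) (hO : g ⁻¹ᵁ O ≤ O₁)
    {b : (pbe g).obj ((ez O).obj (Linf l T)) ⟶ (ez O₁).obj (Linf l T₁)} (hb : Rf l g O O₁ b)
    {A : Sh (Scheme.etaleTopology.over T)} {A₁ : Sh (Scheme.etaleTopology.over T₁)}
    (a : A₁ ⟶ (pbe g).obj A) {k m n : ℕ} (x : Ext.{1} A ((ez O).obj (Linf l T)) k)
    (y : EE l T' m) (hn : k + m = n) :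
    post _ b n (E.cmp (pbe g) a _ n (x.comp (hat j h m y) hn)) =
      (post _ b k (E.cmp (pbe g) a _ k x)).comp (hat j₁ h₁ m (epb l g' m y)) hn := by
  rw [cmp_comp, post_comp, hat_nat j h j₁ h₁ e hO hb, comp_pre]

/-- Pull-back to a scheme that maps into the open part. -/
theorem hat_ez {g : S ⟶ T} (t : S ⟶ T') (e : t ≫ j = g) {O' : S.Opens} (hO : g ⁻¹ᵁ O ≤ O')
    {b : (pbe g).obj ((ez O).obj (Linf l T)) ⟶ (ez O').obj (Linf l S)} (hb : Rf l g O O' b)
    {m : ℕ} (y : EE l T' m) :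
    pre b _ m ((epb l t m y).mapExactFunctor (ez O')) =
      post _ b m ((hat j h m y).mapExactFunctor (pbe g)) := by
  refine (post_ι_bij (supp_pb g O hO _) _ m).1 ?_
  rw [← pre_post, ι_ez, post_post, (hb : _ = _)]
  exact ((pre_pre _ _ _).trans (congrArg (pre · _ m _) hb)).trans (hat_spec' j h t e y).symm

/-- The hypothesis of `Eza.bd_comp`. -/
theorem hat_ez_self {O' : T'.Opens} (hO : j ⁻¹ᵁ O ≤ O')
    {c : (pbe j).obj ((ez O).obj (Linf l T)) ⟶ (ez O').obj (Linf l T')} (hc : Rf l j O O' c)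
    {m : ℕ} (y : EE l T' m) :
    pre c _ m (y.mapExactFunctor (ez O')) =
      post _ c m ((hat j h m y).mapExactFunctor (pbe j)) := by
  rw [← hat_ez j h (𝟙 _) (Category.id_comp j) hO hc, epb_id]

section bd
variable {A A₁ : Sh (Scheme.etaleTopology.over T)} {B : Sh (Scheme.etaleTopology.over T')}
  (a : B ⟶ (pbe j).obj A) [IsIso a] {b : A ⟶ A₁}
  {w : (ezι j.opensRange).app A ≫ b = 0} (hS : (ShortComplex.mk _ _ w).ShortExact)

/-- `bd (x . y) = bd x . y`. -/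
theorem bd_act {O' : T'.Opens} (hO : j ⁻¹ᵁ O ≤ O')
    {c : (pbe j).obj ((ez O).obj (Linf l T)) ⟶ (ez O').obj (Linf l T')} [IsIso c]
    (hc : Rf l j O O' c) {q m n : ℕ} (hn : q + m = n) (x : Ext.{1} B ((ez O').obj (Linf l T')) q)
    (y : EE l T' m) :
    Eza.bd j a c hS n (x.comp (y.mapExactFunctor (ez O')) hn) =
      (Eza.bd j a c hS q x).comp (hat j h m y) (by omega) :=
  Eza.bd_comp j a c hS c hn x _ _ (hat_ez_self j h hO hc y)

end bd

omit h [IsOpenImmersion j] in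
/-- Forgetting the support of a product with a global class. -/
theorem ι_act {O : T.Opens} {A : Sh (Scheme.etaleTopology.over T)} {k m n : ℕ}
    (x : Ext.{1} A ((ez O).obj (Linf l T)) k) (y : EE l T m) (hn : k + m = n) :
    post _ ((ezι O).app _) n (x.comp (y.mapExactFunctor (ez O)) hn) =
      (post _ ((ezι O).app _) k x).comp y hn := by
  rw [post_comp, ι_ez]
  exact comp_pre _ _ _ _

end Pool.Agent.MP_855f4c_ag.T.Act

end

section

/-! h14a row RHO: the transfer of classes from the tube side to the generic fibre of `C`. -/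

set_option autoImplicit false
set_option backward.isDefEq.respectTransparency false

open CategoryTheory Limits Abelian Opposite AlgebraicGeometry Function

namespace Pool.Agent.MP_855f4c_ag.A

open E E3 E4 T

/-- The schemes and open sets that enter the transfer. -/
structure RD where
  T : Scheme.{0}
  T0 : Scheme.{0}
  S : Scheme.{0}
  S0 : Scheme.{0}
  R : Scheme.{0}
  R0 : Scheme.{0}
  j : T0 ⟶ T
  jS : S0 ⟶ S
  jR : R0 ⟶ R
  oj : IsOpenImmersion j
  oS : IsOpenImmersion jS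
  oR : IsOpenImmersion jR
  r : R ⟶ T
  e : R ⟶ S
  r0 : R0 ⟶ T0
  e0 : R0 ⟶ S0
  hr : r0 ≫ j = jR ≫ r
  he : e0 ≫ jS = jR ≫ e
  U : T.Opens
  O : T.Opens
  O0 : T0.Opens
  US : S.Opens
  UR : R.Opens
  hO0 : O0 = j ⁻¹ᵁ O
  hO : O ≤ j.opensRange
  hU : j.opensRange ≤ U
  hUS : jS.opensRange ≤ US
  hUR : jR.opensRange ≤ UR
  rU : UR ≤ r ⁻¹ᵁ U
  eU : UR ≤ e ⁻¹ᵁ US
  rη : r ⁻¹ᵁ j.opensRange ≤ jR.opensRange
  eη : e ⁻¹ᵁ jS.opensRange ≤ jR.opensRange

attribute [instance] RD.oj RD.oS RD.oR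

/-- A morphism of such data. -/
structure RD.Hom (D' D : RD) where
  t : D'.T ⟶ D.T
  t0 : D'.T0 ⟶ D.T0
  s : D'.S ⟶ D.S
  s0 : D'.S0 ⟶ D.S0
  g : D'.R ⟶ D.R
  ht : t0 ≫ D.j = D'.j ≫ t
  hs : s0 ≫ D.jS = D'.jS ≫ s
  hr : g ≫ D.r = D'.r ≫ t
  he : g ≫ D.e = D'.e ≫ s
  tU : D'.U ≤ t ⁻¹ᵁ D.U
  tO : t ⁻¹ᵁ D.O ≤ D'.O
  tη : t ⁻¹ᵁ D.j.opensRange ≤ D'.j.opensRange
  sU : D'.US ≤ s ⁻¹ᵁ D.US
  sη : s ⁻¹ᵁ D.jS.opensRange ≤ D'.jS.opensRange
  gU : D'.UR ≤ g ⁻¹ᵁ D.UR
  gη : g ⁻¹ᵁ D.jR.opensRange ≤ D'.jR.opensRange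

variable (l : ℕ) [Fact l.Prime]

/-- The cohomological hypotheses TB, EXC and GAB. -/
structure RD.Good (D : RD) : Prop where
  tb : ∀ n, Bijective (kpb l (𝟙 D.T) D.j.opensRange D.O D.U D.O n)
  exc : ∀ n, Bijective (kpb l D.e D.UR D.jR.opensRange D.US D.jS.opensRange n)
  gS : ∀ (n : ℕ) (x : KK l D.S ⊥ D.jS.opensRange n), x = 0
  gR : ∀ (n : ℕ) (x : KK l D.R ⊥ D.jR.opensRange n), x = 0

variable {l}

/-- `γ` is the transfer of `k`. -/
def RD.Rel (B : BA l) (D : RD) (n : ℕ) (k : KK l D.T0 ⊥ D.O0 n) (γ : EE l D.S0 n) : Prop :=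
  ∃ (a : KK l D.T D.U D.O (n + 1)) (b : KK l D.S D.US D.jS.opensRange (n + 1))
    (c : KK l D.S0 ⊥ ⊤ n),
    kpb l (𝟙 D.T) D.j.opensRange D.O D.U D.O (n + 1) a = B.bd D.j ⊥ D.O0 D.j.opensRange D.O n k ∧
    kpb l D.e D.UR D.jR.opensRange D.US D.jS.opensRange (n + 1) b =
      kpb l D.r D.UR D.jR.opensRange D.U D.O (n + 1) a ∧
    kpb l (𝟙 D.S) D.jS.opensRange D.jS.opensRange D.US D.jS.opensRange (n + 1) b =
      B.bd D.jS ⊥ ⊤ D.jS.opensRange D.jS.opensRange n c ∧ ke l ⊥ ⊤ n c = γ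

open Classical in
/-- The transfer. -/
noncomputable def RD.rl (B : BA l) (D : RD) (n : ℕ) : KK l D.T0 ⊥ D.O0 n →+ EE l D.S0 n :=
  if h : ∃ f : KK l D.T0 ⊥ D.O0 n →+ EE l D.S0 n, ∀ k, D.Rel B n k (f k) then h.choose else 0

/-- The laws of the transfer. -/
def RHO_s : Prop := ∀ (l : ℕ) [Fact l.Prime] (B : BA l) (D : RD), D.Good l →
  (∀ (n : ℕ) (k : KK l D.T0 ⊥ D.O0 n),
    epb l D.e0 n (D.rl B n k) = epb l D.r0 n (ke l ⊥ D.O0 n k)) ∧
  (∀ (n m r : ℕ) (h : n + m = r) (k : KK l D.T0 ⊥ D.O0 n) (y : EE l D.T0 m) (y' : EE l D.S0 m),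
    epb l D.e0 m y' = epb l D.r0 m y →
    D.rl B r (B.act (𝟙 _) ⊥ D.O0 n m r h k y) = (D.rl B n k).comp y' h) ∧
  (∀ (n m r : ℕ) (h : n + m = r) (k : KK l D.T0 ⊥ D.O0 n) (k' : KK l D.T0 ⊥ D.O0 m),
    D.rl B r (B.act (𝟙 _) ⊥ D.O0 n m r h k (ke l ⊥ D.O0 m k')) =
      (D.rl B n k).comp (D.rl B m k') h) ∧
  (∀ (D' : RD) (φ : D'.Hom D) (n : ℕ) (k : KK l D.T0 ⊥ D.O0 n), D'.Good l →
    D'.rl B n (kpb l φ.t0 ⊥ D'.O0 ⊥ D.O0 n k) = epb l φ.s0 n (D.rl B n k)) ∧
  ∀ (V : D.T0.Opens) (VS : D.S0.Opens) (V1 : D.R0.Opens) (n : ℕ) (w : KK l D.T0 V D.O0 n)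
    (w' : SS l D.S0 VS n), V1 = D.r0 ⁻¹ᵁ V ⊓ D.e0 ⁻¹ᵁ VS →
    (∃ W : D.T.Opens, D.j ⁻¹ᵁ W ≤ V ∧ D.U ≤ W ⊔ D.j.opensRange) →
    (∃ W : D.S.Opens, D.jS ⁻¹ᵁ W ≤ VS ∧ D.US ≤ W ⊔ D.jS.opensRange) →
    spb l D.r0 V1 V n (ks l V D.O0 n w) = spb l D.e0 V1 VS n w' →
    D.rl B n (kpb l (𝟙 _) ⊥ D.O0 V D.O0 n w) = se l VS n w'

namespace Rho

variable {T T' T'' S S' : Scheme.{0}}

lemma rng {j : T' ⟶ T} [IsOpenImmersion j] {k : S' ⟶ S} [IsOpenImmersion k] {g : S ⟶ T}
    {g' : S' ⟶ T'} (h : g' ≫ j = k ≫ g) : k.opensRange ≤ g ⁻¹ᵁ j.opensRange := by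
  rintro _ ⟨z, rfl⟩
  exact ⟨g' z, congr($h z)⟩

lemma top_le (j : T' ⟶ T) [IsOpenImmersion j] : ⊤ ≤ j ⁻¹ᵁ j.opensRange := fun z _ => ⟨z, rfl⟩

lemma bd0 (j : T' ⟶ T) [IsOpenImmersion j] {O' : T'.Opens} {O : T.Opens} (h : O' ≤ j ⁻¹ᵁ O) :
    Bd j ⊥ O' j.opensRange O := ⟨h, ⊥, fun _ h => h, le_sup_right⟩

lemma sq {g' : S' ⟶ T'} {j : T' ⟶ T} {k : S' ⟶ S} {g : S ⟶ T} (h : g' ≫ j = k ≫ g)
    (O : T.Opens) : g' ⁻¹ᵁ j ⁻¹ᵁ O = k ⁻¹ᵁ g ⁻¹ᵁ O := congr($h ⁻¹ᵁ O)

variable (hK : KL_s) (B : BA l)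
include hK

lemma kk {g' : T'' ⟶ T'} {g : T' ⟶ T} {g'' : T'' ⟶ T} (e : g' ≫ g = g'') {U'' O'' : T''.Opens}
    {U' O' : T'.Opens} {U O : T.Opens} (h1 : U'' ≤ g' ⁻¹ᵁ U') (h2 : U' ≤ g ⁻¹ᵁ U)
    (h3 : g ⁻¹ᵁ O ≤ O') (h4 : g' ⁻¹ᵁ O' ≤ O'') {n : ℕ} (x : KK l T U O n) :
    kpb l g' U'' O'' U' O' n (kpb l g U' O' U O n x) = kpb l g'' U'' O'' U O n x :=
  ((hK l).2.2 _ _ _ g' g g'' U'' O'' U' O' U O n e h1 h2).2 h3 h4 x

lemma k1 {g : T' ⟶ T} {U'' O'' U' O' : T'.Opens} {U O : T.Opens} (h1 : U'' ≤ U')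
    (h2 : U' ≤ g ⁻¹ᵁ U) (h3 : g ⁻¹ᵁ O ≤ O') (h4 : O' ≤ O'') {n : ℕ} (x : KK l T U O n) :
    kpb l (𝟙 T') U'' O'' U' O' n (kpb l g U' O' U O n x) = kpb l g U'' O'' U O n x :=
  kk hK (Category.id_comp _) h1 h2 h3 h4 x

lemma k2 {g : T' ⟶ T} {U'' O'' : T'.Opens} {U' O' U O : T.Opens} (h1 : U'' ≤ g ⁻¹ᵁ U')
    (h2 : U' ≤ U) (h3 : O ≤ O') (h4 : g ⁻¹ᵁ O' ≤ O'') {n : ℕ} (x : KK l T U O n) :
    kpb l g U'' O'' U' O' n (kpb l (𝟙 T) U' O' U O n x) = kpb l g U'' O'' U O n x :=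
  kk hK (Category.comp_id _) h1 h2 h3 h4 x

lemma ke_kpb (g : T' ⟶ T) {U' O' : T'.Opens} {U O : T.Opens} (h1 : U' ≤ g ⁻¹ᵁ U)
    (h2 : g ⁻¹ᵁ O ≤ O') {n : ℕ} (x : KK l T U O n) :
    ke l U' O' n (kpb l g U' O' U O n x) = epb l g n (ke l U O n x) :=
  have h := (hK l).2.1 _ _ g U' O' U O n h1
  (congrArg (se l U' n) (h.2.1 h2 x)).trans (h.2.2.1 _)

lemma ke_act {U O : T.Opens} {n m r : ℕ} (h : n + m = r) (x : KK l T U O n) (y : EE l T m) :
    ke l U O r (B.act (𝟙 T) U O n m r h x y) = (ke l U O n x).comp y h :=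
  (congrArg (se l U r) (B.act_ks U O n m r h x y)).trans
    (((hK l).1 T U O n).2.2.2.2.2 m r h _ y)

omit hK in
lemma bd_bij (j : T' ⟶ T) [IsOpenImmersion j]
    (h : ∀ (n : ℕ) (x : KK l T ⊥ j.opensRange n), x = 0) (n : ℕ) :
    Bijective (B.bd j ⊥ ⊤ j.opensRange j.opensRange n) := by
  obtain ⟨-, h2, h3⟩ := (B.les j ⊥ ⊤ ⊥ j.opensRange j.opensRange rfl (top_le_iff.1 (top_le j)).symm
    (bot_sup_eq _).symm).2 n
  refine ⟨(injective_iff_map_eq_zero _).2 fun x hx => ?_, fun y => (h3 y).1 (h _ _)⟩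
  obtain ⟨z, rfl⟩ := (h2 x).1 hx
  rw [h n z, map_zero]

variable {D : RD}

omit hK in
lemma uniq (hD : D.Good l) {n : ℕ} {k : KK l D.T0 ⊥ D.O0 n} {γ γ' : EE l D.S0 n}
    (h : D.Rel B n k γ) (h' : D.Rel B n k γ') : γ = γ' := by
  obtain ⟨a, b, c, h1, h2, h3, rfl⟩ := h
  obtain ⟨a', b', c', h1', h2', h3', rfl⟩ := h'
  obtain rfl := (hD.tb _).1 (h1.trans h1'.symm)
  obtain rfl := (hD.exc _).1 (h2.trans h2'.symm)
  rw [(bd_bij B _ hD.gS n).1 (h3.symm.trans h3')]

omit hK in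
lemma rel (hD : D.Good l) {n : ℕ} (k : KK l D.T0 ⊥ D.O0 n) : D.Rel B n k (D.rl B n k) := by
  have h : ∃ f : KK l D.T0 ⊥ D.O0 n →+ EE l D.S0 n, ∀ k, D.Rel B n k (f k) := by
    let e₁ := AddEquiv.ofBijective _ (hD.tb (n + 1))
    let e₂ := AddEquiv.ofBijective _ (hD.exc (n + 1))
    let e₃ := AddEquiv.ofBijective _ (bd_bij B _ hD.gS n)
    exact ⟨(ke l ⊥ ⊤ n).comp (e₃.symm.toAddMonoidHom.comp ((kpb l (𝟙 _) _ _ _ _ _).comp
      (e₂.symm.toAddMonoidHom.comp ((kpb l D.r _ _ _ _ _).comp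
      (e₁.symm.toAddMonoidHom.comp (B.bd D.j ⊥ D.O0 _ D.O n)))))), fun k =>
      ⟨_, _, _, e₁.apply_symm_apply _, e₂.apply_symm_apply _, (e₃.apply_symm_apply _).symm, rfl⟩⟩
  rw [RD.rl, dif_pos h]
  exact h.choose_spec k

omit hK in
lemma rO (D : RD) : D.r ⁻¹ᵁ D.O ≤ D.jR.opensRange := fun _ h => D.rη (D.hO h)

lemma res (hD : D.Good l) {n : ℕ} {k : KK l D.T0 ⊥ D.O0 n} {γ : EE l D.S0 n}
    (h : D.Rel B n k γ) : epb l D.e0 n γ = epb l D.r0 n (ke l ⊥ D.O0 n k) := by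
  obtain ⟨a, b, c, h1, h2, h3, rfl⟩ := h
  rw [← ke_kpb hK D.e0 (U' := ⊥) (O' := ⊤) bot_le le_top,
    ← ke_kpb hK D.r0 (U' := ⊥) (O' := ⊤) bot_le le_top]
  refine congrArg _ ((bd_bij B _ hD.gR n).1 ?_)
  rw [← B.bd_nat D.jS D.jR D.e D.e0 _ _ _ _ _ _ _ _ n c D.he D.eη (bd0 _ (top_le _))
      (bd0 _ (top_le _)) (rng D.he) D.eη bot_le le_top,
    ← B.bd_nat D.j D.jR D.r D.r0 _ _ _ _ _ _ _ _ n k D.hr D.rη (bd0 _ D.hO0.le)
      (bd0 _ (top_le _)) (rng D.hr) (rO D) bot_le le_top, ← h1, ← h3,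
    k2 hK (rng D.he) D.hUS le_rfl D.eη,
    k2 hK (rng D.hr) D.hU le_rfl (rO D),
    ← k1 hK D.hUR D.eU D.eη le_rfl, h2,
    k1 hK D.hUR D.rU (rO D) le_rfl]

lemma act {n m r : ℕ} (h : n + m = r) {k : KK l D.T0 ⊥ D.O0 n} {γ : EE l D.S0 n}
    (hk : D.Rel B n k γ) {y : EE l D.T0 m} {y' : EE l D.S0 m}
    (hy : epb l D.e0 m y' = epb l D.r0 m y) :
    D.Rel B r (B.act (𝟙 _) ⊥ D.O0 n m r h k y) (γ.comp y' h) := by
  obtain ⟨a, b, c, h1, h2, h3, rfl⟩ := hk
  have h' : n + 1 + m = r + 1 := by omega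
  refine ⟨B.act D.j _ _ _ m _ h' a y, B.act D.jS _ _ _ m _ h' b y', B.act (𝟙 _) _ _ n m r h c y',
    ?_, ?_, ?_, ke_act hK B h c y'⟩
  · rw [B.act_nat D.j D.j (𝟙 _) (𝟙 _) _ _ _ _ _ _ _ h' a y (by simp) D.hO D.hO D.hU le_rfl, h1,
      Pbc.epb_id, B.act_bd D.j _ _ _ _ n m r h h' k y (bd0 _ D.hO0.le) D.hO]
  · rw [B.act_nat D.jS D.jR D.e D.e0 _ _ _ _ _ _ _ h' b y' D.he le_rfl le_rfl D.eU D.eη, h2, hy,
      B.act_nat D.j D.jR D.r D.r0 _ _ _ _ _ _ _ h' a y D.hr D.hO le_rfl D.rU (rO D)]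
  · rw [B.act_nat D.jS D.jS (𝟙 _) (𝟙 _) _ _ _ _ _ _ _ h' b y' (by simp) le_rfl le_rfl D.hUS le_rfl,
      h3, Pbc.epb_id, B.act_bd D.jS _ _ _ _ n m r h h' c y' (bd0 _ (top_le _)) le_rfl]

lemma nat {D' : RD} (φ : D'.Hom D) {n : ℕ} {k : KK l D.T0 ⊥ D.O0 n} {γ : EE l D.S0 n}
    (hk : D.Rel B n k γ) :
    D'.Rel B n (kpb l φ.t0 ⊥ D'.O0 ⊥ D.O0 n k) (epb l φ.s0 n γ) := by
  obtain ⟨a, b, c, h1, h2, h3, rfl⟩ := hk
  refine ⟨kpb l φ.t _ _ _ _ _ a, kpb l φ.s _ _ _ _ _ b, kpb l φ.s0 _ _ _ _ _ c, ?_, ?_, ?_,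
    ke_kpb hK _ bot_le le_top c⟩
  · rw [← B.bd_nat D.j D'.j φ.t φ.t0 _ _ _ _ _ _ _ _ n k φ.ht φ.tη (bd0 _ D.hO0.le)
      (bd0 _ D'.hO0.le) (rng φ.ht) φ.tO bot_le
      (by rw [D.hO0, D'.hO0, sq φ.ht]; exact fun _ h => φ.tO h), ← h1,
      k1 hK D'.hU φ.tU φ.tO le_rfl,
      k2 hK (rng φ.ht) D.hU le_rfl φ.tO]
  · rw [kk hK φ.he.symm D'.eU φ.sU φ.sη D'.eη, kk hK φ.hr.symm D'.rU φ.tU φ.tO (rO D'),
      ← kk hK rfl φ.gU D.eU D.eη φ.gη, h2, kk hK rfl φ.gU D.rU (rO D) φ.gη]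
  · rw [← B.bd_nat D.jS D'.jS φ.s φ.s0 _ _ _ _ _ _ _ _ n c φ.hs φ.sη (bd0 _ (top_le _))
      (bd0 _ (top_le _)) (rng φ.hs) φ.sη bot_le le_top, ← h3,
      k1 hK D'.hUS φ.sU φ.sη le_rfl,
      k2 hK (rng φ.hs) D.hUS le_rfl φ.sη]

lemma supp {V : D.T0.Opens} {VS : D.S0.Opens} {V1 : D.R0.Opens} {n : ℕ} (w : KK l D.T0 V D.O0 n)
    (w' : SS l D.S0 VS n) (hV : V1 = D.r0 ⁻¹ᵁ V ⊓ D.e0 ⁻¹ᵁ VS)
    (hW : ∃ W : D.T.Opens, D.j ⁻¹ᵁ W ≤ V ∧ D.U ≤ W ⊔ D.j.opensRange)
    (hS : ∃ W : D.S.Opens, D.jS ⁻¹ᵁ W ≤ VS ∧ D.US ≤ W ⊔ D.jS.opensRange)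
    (h : spb l D.r0 V1 V n (ks l V D.O0 n w) = spb l D.e0 V1 VS n w') :
    D.Rel B n (kpb l (𝟙 _) ⊥ D.O0 V D.O0 n w) (se l VS n w') := by
  obtain ⟨w', rfl⟩ := ((hK l).1 _ VS ⊤ n).2.2.1.2 w'
  have b1 : Bd D.j V D.O0 D.U D.O := ⟨D.hO0.le, hW⟩
  have b2 : Bd D.jS VS ⊤ D.US D.jS.opensRange := ⟨top_le _, hS⟩
  have r1 : V1 ≤ D.r0 ⁻¹ᵁ V := hV.le.trans inf_le_left
  have r2 : V1 ≤ D.e0 ⁻¹ᵁ VS := hV.le.trans inf_le_right
  have b3 : Bd D.jR V1 ⊤ D.UR D.jR.opensRange := by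
    obtain ⟨W, h1, h2⟩ := hW
    obtain ⟨W', h1', h2'⟩ := hS
    refine ⟨top_le _, D.r ⁻¹ᵁ W ⊓ D.e ⁻¹ᵁ W', fun z hz => hV.ge ⟨h1 ?_, h1' ?_⟩, fun z hz => ?_⟩
    · exact (sq D.hr W).ge hz.1
    · exact (sq D.he W').ge hz.2
    · rcases (show _ ∨ _ from h2 (D.rU hz)) with p | p
      · rcases (show _ ∨ _ from h2' (D.eU hz)) with q | q
        · exact Or.inl ⟨p, q⟩
        · exact Or.inr (D.eη q)
      · exact Or.inr (D.rη p)
  refine ⟨B.bd D.j _ _ _ _ n w, B.bd D.jS _ _ _ _ n w', kpb l (𝟙 _) _ _ _ _ n w', ?_, ?_, ?_,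
    (ke_kpb hK _ bot_le le_top w').trans (Pbc.epb_id _)⟩
  · exact B.bd_nat D.j D.j (𝟙 _) (𝟙 _) _ _ _ _ _ _ _ _ n w (by simp) le_rfl b1 (bd0 _ D.hO0.le)
      D.hU le_rfl bot_le le_rfl
  · rw [B.bd_nat D.jS D.jR D.e D.e0 _ _ _ _ _ _ _ _ n w' D.he D.eη b2 b3 D.eU D.eη r2 le_top,
      B.bd_nat D.j D.jR D.r D.r0 _ _ _ _ _ _ _ _ n w D.hr D.rη b1 b3 D.rU (rO D) r1 le_top]
    refine congrArg _ (((hK l).1 _ V1 ⊤ n).2.2.1.1 ?_)
    rw [((hK l).2.1 _ _ D.e0 V1 ⊤ VS ⊤ n r2).2.1 le_top,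
      ((hK l).2.1 _ _ D.r0 V1 ⊤ V D.O0 n r1).2.1 le_top, h]
  · exact B.bd_nat D.jS D.jS (𝟙 _) (𝟙 _) _ _ _ _ _ _ _ _ n w' (by simp) le_rfl b2
      (bd0 _ (top_le _)) D.hUS le_rfl bot_le le_rfl

end Rho

open Rho in
theorem rho (hK : KL_s) : RHO_s := fun _ _ B _ hD =>
  ⟨fun _ k => res hK B hD (rel B hD k),
    fun _ _ _ h k _ _ hy => uniq B hD (rel B hD _) (act hK B h (rel B hD k) hy),
    fun _ _ _ h k k' => uniq B hD (rel B hD _)
      (act hK B h (rel B hD k) (res hK B hD (rel B hD k'))),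
    fun _ φ _ k hD' => uniq B hD' (rel B hD' _) (nat hK B φ (rel B hD k)),
    fun _ _ _ _ w w' hV hW hS h => uniq B hD (rel B hD _) (supp hK B w w' hV hW hS h)⟩

end Pool.Agent.MP_855f4c_ag.A

end

section

/-! h14a: the data of the transfer for affine schemes. -/

set_option autoImplicit false
set_option backward.isDefEq.respectTransparency false

open CategoryTheory Limits Abelian Opposite AlgebraicGeometry Function

namespace Pool.Agent.MP_855f4c_ag.A

open E E3 E4 T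

namespace Rdr

variable {A A' : Type} [CommRing A] [CommRing A']

lemma opI_le {I I' : Ideal A} (h : I ≤ I'.radical) : opI I ≤ opI I' := fun x hx h' =>
  hx (h.trans (x.isPrime.radical_le_iff.2 h'))

lemma opI_mono {I I' : Ideal A} (h : I ≤ I') : opI I ≤ opI I' := opI_le (h.trans Ideal.le_radical)

lemma opI_sup (I I' : Ideal A) : opI (I ⊔ I') = opI I ⊔ opI I' := by
  ext x
  exact (not_congr (sup_le_iff (c := x.asIdeal))).trans not_and_or

lemma opI_span (φ : A →+* A') (a : A) :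
    spc φ ⁻¹ᵁ opI (Ideal.span {a}) = opI (Ideal.span {φ a}) := by
  rw [← Exce.opI_map, Ideal.map_span, Set.image_singleton]

lemma oi (a : A) [Algebra A A'] [IsLocalization.Away a A'] :
    IsOpenImmersion (spc (algebraMap A A')) := IsOpenImmersion.of_isLocalization a

lemma rng (a : A) [Algebra A A'] [IsLocalization.Away a A']
    [IsOpenImmersion (spc (algebraMap A A'))] :
    (spc (algebraMap A A')).opensRange = opI (Ideal.span {a}) := by
  ext x
  refine (Set.ext_iff.1 (PrimeSpectrum.localization_away_comap_range A' a) x).trans ?_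
  exact not_congr (Ideal.span_singleton_le_iff_mem _).symm

end Rdr

open Rdr

/-- The rings that enter the transfer. -/
structure RG (p : ℕ) (B J P C H R : Type) [CommRing B] [CommRing J] [CommRing P] [CommRing C]
    [CommRing H] [CommRing R] [Algebra B J] [Algebra P C] [Algebra H R] where
  r : B →+* H
  r0 : J →+* R
  e : P →+* H
  e0 : C →+* R
  I : Ideal B
  I' : Ideal B
  I0 : Ideal J
  Z : Ideal P
  lB : IsLocalization.Away (p : B) J
  lP : IsLocalization.Away (p : P) C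
  lH : IsLocalization.Away (p : H) R
  hr : r0.comp (algebraMap B J) = (algebraMap H R).comp r
  he : e0.comp (algebraMap P C) = (algebraMap H R).comp e
  hI0 : I'.map (algebraMap B J) = I0
  pZ : (p : P) ∈ Z
  pI : opI (Ideal.span {(p : B)}) ≤ opI I
  rz : Z.map e ≤ (Ideal.span {(p : H)} ⊔ I.map r).radical

variable {p : ℕ} {B J P C H R : Type} [CommRing B] [CommRing J] [CommRing P] [CommRing C]
  [CommRing H] [CommRing R] [Algebra B J] [Algebra P C] [Algebra H R] (G : RG p B J P C H R)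

section
include G

lemma RG.oB : IsOpenImmersion (spc (algebraMap B J)) := have := G.lB; oi (p : B)
lemma RG.oP : IsOpenImmersion (spc (algebraMap P C)) := have := G.lP; oi (p : P)
lemma RG.oH : IsOpenImmersion (spc (algebraMap H R)) := have := G.lH; oi (p : H)

end

lemma RG.ηB : have := G.oB; (spc (algebraMap B J)).opensRange = opI (Ideal.span {(p : B)}) :=
  have := G.lB; have := G.oB; rng _
lemma RG.ηP : have := G.oP; (spc (algebraMap P C)).opensRange = opI (Ideal.span {(p : P)}) :=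
  have := G.lP; have := G.oP; rng _
lemma RG.ηH : have := G.oH; (spc (algebraMap H R)).opensRange = opI (Ideal.span {(p : H)}) :=
  have := G.lH; have := G.oH; rng _

/-- The schemes. -/
noncomputable def RG.rd : RD where
  T := Spec (.of B)
  T0 := Spec (.of J)
  S := Spec (.of P)
  S0 := Spec (.of C)
  R := Spec (.of H)
  R0 := Spec (.of R)
  j := spc (algebraMap B J)
  jS := spc (algebraMap P C)
  jR := spc (algebraMap H R)
  oj := G.oB
  oS := G.oP
  oR := G.oH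
  r := spc G.r
  e := spc G.e
  r0 := spc G.r0
  e0 := spc G.e0
  hr := by rw [Twt.spc_spc, Twt.spc_spc, G.hr]
  he := by rw [Twt.spc_spc, Twt.spc_spc, G.he]
  U := opI G.I
  O := opI G.I' ⊓ opI (Ideal.span {(p : B)})
  O0 := opI G.I0
  US := opI G.Z
  UR := opI (G.Z.map G.e)
  hO0 := by
    rw [← G.ηB, ← G.hI0, Exce.opI_map]
    exact le_antisymm (fun x h => ⟨h, x, rfl⟩) fun _ h => h.1
  hO := inf_le_right.trans G.ηB.ge
  hU := G.ηB.le.trans G.pI
  hUS := G.ηP.le.trans (opI_mono ((Ideal.span_singleton_le_iff_mem _).2 G.pZ))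
  hUR := G.ηH.le.trans (opI_mono ((Ideal.span_singleton_le_iff_mem _).2
    (map_natCast G.e p ▸ Ideal.mem_map_of_mem _ G.pZ)))
  rU := (opI_le G.rz).trans ((opI_sup _ _).le.trans (sup_le
    (by rw [← map_natCast G.r, ← opI_span]; exact fun _ h => G.pI h) (Exce.opI_map _ _).le))
  eU := (Exce.opI_map _ _).le
  rη := by rw [G.ηB, G.ηH, opI_span, map_natCast]
  eη := by rw [G.ηP, G.ηH, opI_span, map_natCast]

/-- The hypotheses EXC and GAB hold. -/
theorem RG.good (hE : EXC_s) (hG : GABK_s) (l : ℕ) [Fact l.Prime] [Algebra P H]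
    (he : G.e = algebraMap P H) (hx : Exs P H G.Z) (hZ : G.Z.FG) (hl : IsUnit (l : P))
    (hP : T.HP P (Ideal.span {(p : P)})) (hH : T.HP H (Ideal.span {(p : H)}))
    (tb : ∀ n, Bijective (kpb l (𝟙 _) (opI (Ideal.span {(p : B)})) G.rd.O G.rd.U G.rd.O n)) :
    G.rd.Good l where
  tb n := by
    have := tb n
    rwa [← G.ηB] at this
  exc n := by
    have := hE l P H G.Z (Ideal.span {(p : P)}) G.rd.UR (opI (Ideal.span {(p : H)})) n hx hZ
      (Submodule.fg_span_singleton _) (he ▸ Exce.opI_map _ _) (by rw [opI_span, map_natCast])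
    rwa [← G.ηP, ← G.ηH, ← he] at this
  gS := by
    have := hG l P p hl hP
    rwa [← G.ηP] at this
  gR := by
    have := hG l H p (map_natCast G.e l ▸ hl.map G.e) hH
    rwa [← G.ηH] at this

variable {B' J' P' C' H' R' : Type} [CommRing B'] [CommRing J'] [CommRing P'] [CommRing C']
  [CommRing H'] [CommRing R'] [Algebra B' J'] [Algebra P' C'] [Algebra H' R']
  (G' : RG p B' J' P' C' H' R')

/-- Compatible ring maps give a morphism. -/
noncomputable def RG.hom (t : B →+* B') (t0 : J →+* J') (s : P →+* P') (s0 : C →+* C')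
    (g : H →+* H') (ht : t0.comp (algebraMap B J) = (algebraMap B' J').comp t)
    (hs : s0.comp (algebraMap P C) = (algebraMap P' C').comp s) (hr : g.comp G.r = G'.r.comp t)
    (he : g.comp G.e = G'.e.comp s) (hI : G'.I ≤ (G.I.map t).radical)
    (hI' : G.I'.map t ≤ G'.I'.radical) (hZ : G'.Z ≤ (G.Z.map s).radical) : G'.rd.Hom G.rd where
  t := spc t
  t0 := spc t0
  s := spc s
  s0 := spc s0
  g := spc g
  ht := (Twt.spc_spc _ _).trans ((congrArg spc ht).trans (Twt.spc_spc _ _).symm)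
  hs := (Twt.spc_spc _ _).trans ((congrArg spc hs).trans (Twt.spc_spc _ _).symm)
  hr := (Twt.spc_spc _ _).trans ((congrArg spc hr).trans (Twt.spc_spc _ _).symm)
  he := (Twt.spc_spc _ _).trans ((congrArg spc he).trans (Twt.spc_spc _ _).symm)
  tU := (opI_le hI).trans (Exce.opI_map t _).le
  tO := fun _ h => ⟨opI_le hI' ((Exce.opI_map t _).ge h.1),
    map_natCast t p ▸ (opI_span t p).le h.2⟩
  tη := (congrArg _ G.ηB).le.trans (by rw [opI_span, map_natCast]; exact G'.ηB.ge)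
  sU := (opI_le hZ).trans (Exce.opI_map s _).le
  sη := (congrArg _ G.ηP).le.trans (by rw [opI_span, map_natCast]; exact G'.ηP.ge)
  gU := by
    refine le_trans ?_ (Exce.opI_map g _).le
    rw [Ideal.map_map, he, ← Ideal.map_map]
    exact opI_le ((Ideal.map_mono hZ).trans (Ideal.map_radical_le _))
  gη := (congrArg _ G.ηH).le.trans (by rw [opI_span, map_natCast]; exact G'.ηH.ge)

end Pool.Agent.MP_855f4c_ag.A

end

section

/-! h14a row THS: products of lists of classes with supports. -/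

set_option autoImplicit false
set_option backward.isDefEq.respectTransparency false

open CategoryTheory Limits Abelian Opposite AlgebraicGeometry Function

namespace Pool.Agent.MP_855f4c_ag.A

open E E3 E4 T

namespace Ths

variable {l : ℕ} [Fact l.Prime] {T T' : Scheme.{0}} (G : SG l)

lemma lid {U V : T.Opens} (h : U ≤ V) : U ≤ (𝟙 T :) ⁻¹ᵁ V := h

lemma thk_rfl (L : List (TH l T)) (U : T.Opens) : G.thk L U _ rfl = G.ths L U :=
  Ext.comp_mk₀_id _

lemma thk_nil (U : T.Opens) (h) : G.thk ([] : List (TH l T)) U 0 h = sone l U := thk_rfl G [] U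

lemma thk_cons (a : TH l T) (L : List (TH l T)) (U : T.Opens) (k K : ℕ) (h) (h') (e : 2 + k = K) :
    G.thk (a :: L) U K h' = G.star a.1 (sup L) U 2 k K e a.2 (G.thk L (sup L) k h) := by
  subst h h'
  rw [thk_rfl, thk_rfl]
  rfl

lemma sup_append (L L' : List (TH l T)) : sup (L ++ L') = sup L ⊔ sup L' := by
  induction L with
  | nil => exact (bot_sup_eq _).symm
  | cons a L ih => exact (congrArg (a.1 ⊔ ·) ih).trans (sup_assoc _ _ _).symm

lemma se_star (hK : KL_s) (U U' U'' : T.Opens) (i j k : ℕ) (h : i + j = k) (x : SS l T U i)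
    (y : SS l T U' j) (hU : U'' ≤ U ⊔ U') :
    se l U'' k (G.star U U' U'' i j k h x y) = (se l U i x).comp (se l U' j y) h := by
  obtain ⟨k1, k2, -⟩ := hK l
  have e (W : T.Opens) (z : SS l T W k) : se l ⊥ k (spb l (𝟙 T) ⊥ W k z) = se l W k z :=
    ((k2 T T (𝟙 T) ⊥ ⊥ W ⊥ k bot_le).2.2.1 z).trans (Pbc.epb_id _)
  rw [← e, G.star_nat (𝟙 T) U U' U'' U U' ⊥ i j k h x y hU bot_le (lid le_rfl) (lid le_rfl) bot_le,
    (k1 T U ⊥ i).2.1, (k1 T U' ⊥ j).2.1, G.star_comp _ _ _ _ _ _ _ _ _ bot_le, e]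
  exact (k1 T U ⊥ i).2.2.2.2.2 j k h x _

lemma se_thk (hK : KL_s) (L : List (TH l T)) : ∀ (U : T.Opens) (k : ℕ) (h : 2 * L.length = k) (h'),
    U ≤ sup L → se l U k (G.thk L U k h) = Twt.pk (L.map fun a => se l a.1 2 a.2) k h' := by
  induction L with
  | nil =>
    intro U k h h' hU
    obtain rfl : U = ⊥ := le_bot_iff.1 hU
    obtain rfl : 0 = k := h
    rw [thk_nil, ((hK l).1 T ⊥ ⊥ 0).2.2.2.2.1]
    exact (Twt.pk_rfl []).symm
  | cons a L ih =>
    intro U k h h' hU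
    have e : 2 + 2 * L.length = k := by simp only [List.length_cons] at h; omega
    rw [thk_cons G a L U _ k rfl h e, se_star G hK a.1 (sup L) _ _ _ _ _ _ _ hU,
      ih _ _ rfl (by simp) le_rfl]
    exact Twt.pk_cons _ _ _ k _ _ e

lemma sup_le (g : T' ⟶ T) (N : ℕ) {L' : List (TH l T')} {L : List (TH l T)}
    (H : List.Forall₂ (fun (a' : TH l T') (a : TH l T) => a'.1 ≤ g ⁻¹ᵁ a.1 ∧
      spb l g a'.1 a.1 2 a.2 = N • a'.2) L' L) : sup L' ≤ g ⁻¹ᵁ sup L := by
  induction H with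
  | nil => exact bot_le
  | cons h _ ih =>
    exact _root_.sup_le (h.1.trans (g.preimage_mono le_sup_left))
      (ih.trans (g.preimage_mono le_sup_right))

lemma pb_thk (hK : KL_s) (g : T' ⟶ T) (N : ℕ) {L' : List (TH l T')} {L : List (TH l T)}
    (H : List.Forall₂ (fun (a' : TH l T') (a : TH l T) => a'.1 ≤ g ⁻¹ᵁ a.1 ∧
      spb l g a'.1 a.1 2 a.2 = N • a'.2) L' L) :
    ∀ (U : T.Opens) (U' : T'.Opens) (k : ℕ) (h : 2 * L.length = k) (h' : 2 * L'.length = k),
      U ≤ sup L → U' ≤ g ⁻¹ᵁ U → U' ≤ sup L' →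
      spb l g U' U k (G.thk L U k h) = N ^ L.length • G.thk L' U' k h' := by
  induction H with
  | nil =>
    intro U U' k h h' hU hg hU'
    obtain rfl : U = ⊥ := le_bot_iff.1 hU
    obtain rfl : U' = ⊥ := le_bot_iff.1 hU'
    obtain rfl : 0 = k := h
    obtain ⟨k1, k2, -⟩ := hK l
    rw [thk_nil, thk_nil, List.length_nil, pow_zero, one_smul]
    refine (k1 T' ⊥ ⊥ 0).2.2.2.1.1 ?_
    rw [(k2 T' T g ⊥ ⊥ ⊥ ⊥ 0 bot_le).2.2.1, (k1 T ⊥ ⊥ 0).2.2.2.2.1, (k1 T' ⊥ ⊥ 0).2.2.2.2.1,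
      Pbc.epb_one]
  | @cons a' a L' L ha H ih =>
    intro U U' k h h' hU hg hU'
    have e : 2 + 2 * L.length = k := by simp only [List.length_cons] at h; omega
    have e' : 2 * L'.length = 2 * L.length := by rw [H.length_eq]
    rw [thk_cons G a L U _ k rfl h e, thk_cons G a' L' U' _ k e' h' e,
      G.star_nat g a.1 (sup L) U a'.1 (sup L') U' _ _ _ _ _ _ hU hU' ha.1 (sup_le g N H) hg, ha.2,
      ih _ _ _ rfl e' le_rfl (sup_le g N H) le_rfl, map_nsmul, map_nsmul, AddMonoidHom.nsmul_apply,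
      smul_smul, List.length_cons, pow_succ]

lemma res_thk (hK : KL_s) (L : List (TH l T)) (U U' : T.Opens) (k : ℕ) (h : 2 * L.length = k)
    (hU : U ≤ sup L) (h' : U' ≤ U) : spb l (𝟙 T) U' U k (G.thk L U k h) = G.thk L U' k h := by
  rw [pb_thk G hK (𝟙 T) 1 (L' := L) (List.forall₂_same.2 fun a _ =>
    ⟨lid le_rfl, (((hK l).1 T a.1 ⊥ 2).2.1 _).trans (one_smul _ _).symm⟩) U U' k h h hU (lid h')
    (h'.trans hU), one_pow, one_smul]

lemma star_thk (hK : KL_s) (L L' : List (TH l T)) (U' : T.Opens) (k' : ℕ) (h' : 2 * L'.length = k')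
    (hU' : U' ≤ sup L') : ∀ (U U'' : T.Opens) (k k'' : ℕ) (h : 2 * L.length = k) (e : k + k' = k'')
      (h'' : 2 * (L ++ L').length = k''), U ≤ sup L → U'' ≤ U ⊔ U' →
      G.star U U' U'' k k' k'' e (G.thk L U k h) (G.thk L' U' k' h') =
        G.thk (L ++ L') U'' k'' h'' := by
  induction L with
  | nil =>
    intro U U'' k k'' h e h'' hU hU''
    obtain rfl : U = ⊥ := le_bot_iff.1 hU
    obtain rfl : 0 = k := h
    obtain rfl : k' = k'' := by omega
    rw [bot_sup_eq] at hU''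
    rw [thk_nil, G.one_star _ _ _ _ hU'', res_thk G hK _ _ _ _ _ hU' hU'']
    rfl
  | cons a L ih =>
    intro U U'' k k'' h e h'' hU hU''
    have e1 : 2 + 2 * L.length = k := by simp only [List.length_cons] at h; omega
    have e2 : 2 * (L ++ L').length = 2 * L.length + k' := by rw [List.length_append]; omega
    have e3 : 2 + (2 * L.length + k') = k'' := by omega
    have u1 : U'' ≤ a.1 ⊔ (sup L ⊔ U') :=
      hU''.trans ((sup_le_sup_right hU _).trans (sup_assoc _ _ _).le)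
    have u2 : sup L ⊔ U' ≤ sup (L ++ L') := sup_append L L' ▸ sup_le_sup_left hU' _
    rw [thk_cons G a L U _ k rfl h e1, G.star_assoc a.1 (sup L) U' U (sup L ⊔ U') U'' 2 _ k' k _ k''
      e1 e rfl e3 _ _ _ hU le_rfl hU'' u1, ih _ _ _ _ rfl rfl e2 le_rfl le_rfl]
    refine Eq.trans ?_ (thk_cons G a (L ++ L') U'' _ k'' e2 h'' e3).symm
    have := G.star_nat (𝟙 T) a.1 (sup (L ++ L')) U'' a.1 (sup L ⊔ U') U'' 2 _ k'' e3 a.2
      (G.thk (L ++ L') _ _ e2) (u1.trans (sup_le_sup_left u2 _)) u1 (lid le_rfl) (lid u2) (lid le_rfl)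
    rw [((hK l).1 T U'' ⊥ k'').2.1, ((hK l).1 T a.1 ⊥ 2).2.1, res_thk G hK _ _ _ _ _ le_rfl u2] at this
    exact this.symm

end Ths

theorem ths (hK : KL_s) : THS_s := fun _ _ G _ L U k h hU =>
  ⟨Ths.se_thk G hK L U k h _ hU,
    fun L' U' U'' k' k'' h' e h'' hU' hU'' =>
      Ths.star_thk G hK L L' U' k' h' hU' U U'' k k'' h e h'' hU hU'',
    fun _ g _ U' N h' hg hU' H => Ths.pb_thk G hK g N H U U' k h h' hU hg hU'⟩

end Pool.Agent.MP_855f4c_ag.A

end

section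

/-! h14a, row TRIV0: Thom classes of forms that are functions. -/

set_option autoImplicit false
set_option backward.isDefEq.respectTransparency false

open CategoryTheory Limits Abelian Opposite AlgebraicGeometry Function

namespace Pool.Agent.MP_855f4c_ag.A

open E E3 E4 T

/-- A form of weight zero, or a form in a global trivialisation, has the Thom class of its value. -/
def TRIV0_s : Prop := ∀ (l : ℕ) [Fact l.Prime] (Ω : Type) [Field Ω] (Ch : Chern l Ω)
  (κ : Type) [Fintype κ] [DecidableEq κ] (D : Type) [CommRing D] (ω : Ω →+* D) (e : EV κ → D)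
  (s : MvPolynomial (XY κ) D) (t : D), JP e →
    (Hg 0 s → (∀ (D' : Type) [CommRing D'] (ψ : D →+* D') (a : XY κ → D'), emat a = ψ ∘ e →
      MvPolynomial.eval₂ ψ a s = ψ t) →
      Zer e s (Ideal.span {t}) ∧ thJ Ch ω e 0 s (Ideal.span {t}) = thF Ch ω t) ∧
    ∀ (n : κ → ℤ) (a : XY κ → D) (I : Ideal D), Hg n s → emat a = e → Zer e s I →
      MvPolynomial.eval a s = t → I = Ideal.span {t} ∧ thJ Ch ω e n s I = thF Ch ω t

namespace Triv0

variable {D : Type} [CommRing D]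

lemma jp0 : JP (κ := Fin 0) (D := D) fun v => v.1.elim0 := fun k => k.elim0

lemma hg0 (t : D) : Hg (κ := Fin 0) 0 (MvPolynomial.C t) :=
  MvPolynomial.isWeightedHomogeneous_C _ _

lemma zer0 (t : D) : Zer (κ := Fin 0) (fun v => v.1.elim0) (MvPolynomial.C t) (Ideal.span {t}) :=
  fun D' _ ψ a _ => by rw [Ideal.map_span, Set.image_singleton, MvPolynomial.eval₂_C]

lemma str_id {U : Over (Spec (.of D))} (d : D) :
    str ((Over.map (𝟙 (Spec (.of D)))).obj U).hom d = str U.hom d := by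
  have : ((Over.map (𝟙 (Spec (.of D)))).obj U).hom = U.hom := by simp
  exact congrArg (fun h => str h d) this

end Triv0

open Triv0 in
theorem triv0 (hK : KL_s) : TRIV0_s := by
  intro l _ Ω _ Ch κ _ _ D _ ω e s t he
  have key : ∀ {𝒯' 𝒯 : Trv (Spec (.of D))} {γ' : Coc 𝒯'} {γ : Coc 𝒯} {O : (Spec (.of D)).Opens}
      (s' : Sec γ' O) (s : Sec γ O) (m : CHom (𝟙 _) γ' γ),
      (∀ U b, s'.s U b = s.s ((Over.map (𝟙 _)).obj U) (m.m U b)) →
      Ch.th (spc ω) s = Ch.th (spc ω) s' := by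
    intro _ _ _ _ O s' s m h
    have h1 := Ch.th_nat (𝟙 _) (spc ω) s' s m (rp l (𝟙 _) O O) le_rfl
      ((hK l).2.1 _ _ (𝟙 _) O ⊤ O ⊤ 2 le_rfl).1 h
    rw [Category.id_comp] at h1
    exact (((hK l).1 _ O ⊤ 2).2.1 _).symm.trans h1
  refine ⟨fun hs h => ?_, fun n a I hs ha hI ht => ?_⟩
  · have hz : Zer e s (Ideal.span {t}) := fun D' _ ψ a ha => by
      rw [Ideal.map_span, Set.image_singleton, h D' ψ a ha]
    refine ⟨hz, ?_⟩
    unfold thF thJ
    rw [dif_pos ⟨he, hs, hz⟩, dif_pos ⟨jp0, hg0 t, zer0 t⟩]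
    congr 1
    refine (key (JX.eZ he hs hz) (JX.eZ jp0 (hg0 t) (zer0 t))
      ⟨fun U _ => ⟨fun v => v.elim (fun x => x.1.elim0) fun x => x.1.elim0,
        funext fun v => v.1.elim0⟩, fun w b => ?_, fun U b c => ?_⟩ fun U b => ?_).symm
    · exact Subtype.ext (funext fun v => v.elim (fun x => x.1.elim0) fun x => x.1.elim0)
    · simp [JX.eC]
    · refine (h _ (str U.hom) b.1 b.2).trans ?_
      exact ((MvPolynomial.eval₂_C _ _ _).trans (str_id t)).symm
  · have hI' : I = Ideal.span {t} := by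
      have := hI D (RingHom.id D) a ha
      rwa [Ideal.map_id, MvPolynomial.eval₂_id, ht] at this
    subst hI'
    refine ⟨rfl, ?_⟩
    unfold thF thJ
    rw [dif_pos ⟨he, hs, hI⟩, dif_pos ⟨jp0, hg0 t, zer0 t⟩]
    congr 1
    refine key (JX.eZ jp0 (hg0 t) (zer0 t)) (JX.eZ he hs hI)
      ⟨fun U _ => ⟨str ((Over.map (𝟙 _)).obj U).hom ∘ a, funext fun v => ?_⟩,
        fun {U' U} w b => ?_, fun U b c => ?_⟩ fun U b => ?_
    · exact ha ▸ (map_mul _ _ _).symm
    · refine Subtype.ext (funext fun v => ?_)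
      change str _ (a v) = gam ((Over.map (𝟙 _)).map w).left (str _ (a v))
      rw [← JX.str_comp, Over.w]
    · have h1 := (JX.eC he n).mul ((Over.map (𝟙 _)).obj U)
        ⟨str ((Over.map (𝟙 _)).obj U).hom ∘ a, funext fun v => ha ▸ (map_mul _ _ _).symm⟩
        ⟨str ((Over.map (𝟙 _)).obj U).hom ∘ a, funext fun v => ha ▸ (map_mul _ _ _).symm⟩
        ⟨str ((Over.map (𝟙 _)).obj U).hom ∘ a, funext fun v => ha ▸ (map_mul _ _ _).symm⟩
      refine Eq.trans ?_ (mul_eq_left.1 h1).symm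
      simp [JX.eC]
    · refine (MvPolynomial.eval₂_C _ _ _).trans ?_
      refine (str_id t).symm.trans ?_
      refine (congrArg _ ht.symm).trans ?_
      rw [← MvPolynomial.eval₂_id, MvPolynomial.eval₂_comp_left, RingHom.comp_id]
      rfl

end Pool.Agent.MP_855f4c_ag.A

end

section

/-! h14a row TB: from the tube to the comparison of supports. -/

set_option autoImplicit false
set_option backward.isDefEq.respectTransparency false

open CategoryTheory Limits Abelian Opposite AlgebraicGeometry Function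

namespace Pool.Agent.MP_855f4c_ag.A

open E E3 E4 T

namespace Tb

variable {l : ℕ} [Fact l.Prime]

/-- Two out of three in a commutative square. -/
lemma sq (hK : KL_s) {W D W₀ D₀ : Scheme.{0}} {i : D ⟶ W} {g : W ⟶ W₀} {g' : D ⟶ D₀}
    {i₀ : D₀ ⟶ W₀} (w : i ≫ g = g' ≫ i₀) {U O : W.Opens} {U' O' : D.Opens} {U₀ O₀ : W₀.Opens}
    {U₀' O₀' : D₀.Opens} (e1 : U = g ⁻¹ᵁ U₀) (e2 : O = g ⁻¹ᵁ O₀) (e3 : U' = i ⁻¹ᵁ U)
    (e4 : O' = i ⁻¹ᵁ O) (e5 : U₀' = i₀ ⁻¹ᵁ U₀) (e6 : O₀' = i₀ ⁻¹ᵁ O₀) (n : ℕ)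
    (h1 : Bijective (kpb l g U O U₀ O₀ n)) (h2 : Bijective (kpb l g' U' O' U₀' O₀' n))
    (h3 : Bijective (kpb l i₀ U₀' O₀' U₀ O₀ n)) : Bijective (kpb l i U' O' U O n) := by
  have e (V : W₀.Opens) : i ⁻¹ᵁ g ⁻¹ᵁ V = g' ⁻¹ᵁ i₀ ⁻¹ᵁ V := by
    rw [← Scheme.Hom.comp_preimage, w, Scheme.Hom.comp_preimage]
  subst e1 e2 e3 e4 e5 e6
  have a := ((hK l).2.2 _ _ _ i g _ _ (i ⁻¹ᵁ g ⁻¹ᵁ O₀) _ _ U₀ O₀ n rfl le_rfl le_rfl).2 le_rfl le_rfl
  have b := ((hK l).2.2 _ _ _ g' i₀ _ _ (i ⁻¹ᵁ g ⁻¹ᵁ O₀) _ _ U₀ O₀ n w.symm (e U₀).le le_rfl).2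
    le_rfl (e O₀).ge
  refine (Bijective.of_comp_iff _ h1).1 ?_
  exact (congrArg Bijective (funext fun x => (b x).trans (a x).symm)).mp (h2.comp h3)

/-- If the groups of the open part vanish, the change of supports is bijective. -/
lemma les (B : BA l) {W T : Scheme.{0}} (j : W ⟶ T) [IsOpenImmersion j] {η U P : T.Opens}
    {η' P' : W.Opens} (e1 : η' = j ⁻¹ᵁ η) (e2 : P' = j ⁻¹ᵁ P) (e3 : U = η ⊔ j.opensRange)
    (h : ∀ (n : ℕ) (x : KK l W η' P' n), x = 0) (n : ℕ) : Bijective (kpb l (𝟙 T) η P U P n) := by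
  obtain ⟨h0, h1⟩ := B.les j η' P' η U P e1 e2 e3
  refine ⟨?_, fun y => ((h1 n).1 y).1 (h _ _)⟩
  cases n with
  | zero => exact h0
  | succ n =>
    refine (injective_iff_map_eq_zero _).2 fun x hx => ?_
    obtain ⟨y, rfl⟩ := ((h1 n).2.2 x).1 hx
    rw [h n y, map_zero]

end Tb

/-- **TB**. -/
theorem tb' (h2 : LES2_s) {l : ℕ} [Fact l.Prime] (B : BA l) {D W T : Scheme.{0}} (j : W ⟶ T)
    [IsOpenImmersion j] (i : D ⟶ W) [IsClosedImmersion i] {η U P : T.Opens} {η' O₁ : W.Opens}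
    {η'' : D.Opens} (hl : Linv l W) (hO : ∀ x : W, x ∈ O₁ ↔ x ∉ Set.range i) (e1 : η' = j ⁻¹ᵁ η)
    (e2 : j ⁻¹ᵁ P = η' ⊓ O₁) (e3 : U = η ⊔ j.opensRange) (e4 : η'' = i ⁻¹ᵁ η')
    (h : ∀ n, Bijective (kpb l i η'' η'' η' η' n)) (n : ℕ) : Bijective (kpb l (𝟙 T) η P U P n) :=
  Tb.les B j e1 rfl e3 ((h2 l D W i η' η' O₁ _ η'' η'' hl hO e2 e4 e4).2.1 h) n

end Pool.Agent.MP_855f4c_ag.A

end

section

/-! h14a: statements for the action on top cohomology. -/

set_option autoImplicit false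

open CategoryTheory Limits AlgebraicGeometry MvPolynomial

namespace Pool.Agent.MP_855f4c_ag.A

open E T

/-- Local coordinates at a fixed point. -/
def ZALG_s : Prop := ∀ (Ω : Type) [Field Ω] [IsAlgClosed Ω] (Y : Scheme.{0})
  (f : Y ⟶ Spec (.of Ω)) (d : ℕ) [SmoothOfRelativeDimension d f] (σ : Y ⟶ Y) [IsIso σ]
  (x : Spec (.of Ω) ⟶ Y) (U : Y.Opens), σ ≫ f = f → x ≫ f = 𝟙 _ → x ≫ σ = x →
    (∀ z, z ∈ U ↔ z ∉ Set.range x) →
    ∃ (B B₁ : Type) (_ : CommRing B) (_ : CommRing B₁) (_ : Algebra (MvPolynomial (Fin d) Ω) B)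
      (a s : B →+* B₁) (w : Spec (.of B) ⟶ Y) (w₁ : Spec (.of B₁) ⟶ Y) (_ : IsOpenImmersion w)
      (_ : IsOpenImmersion w₁) (M : Matrix (Fin d) (Fin d) B₁),
      Exs (MvPolynomial (Fin d) Ω) B (Ideal.span (Set.range X)) ∧ spc a ≫ w = w₁ ∧
      spc s ≫ w = w₁ ≫ σ ∧ U ⊔ w₁.opensRange = ⊤ ∧
      w ⁻¹ᵁ U = spc (algebraMap (MvPolynomial (Fin d) Ω) B) ⁻¹ᵁ opI (Ideal.span (Set.range X)) ∧
      (∀ c : Ω, s (algebraMap (MvPolynomial (Fin d) Ω) B (C c)) =
        a (algebraMap (MvPolynomial (Fin d) Ω) B (C c))) ∧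
      (fun i => s (algebraMap (MvPolynomial (Fin d) Ω) B (X i))) =
        M.mulVec (fun i => a (algebraMap (MvPolynomial (Fin d) Ω) B (X i))) ∧ IsUnit M.det

/-- An automorphism with a fixed point acts trivially on top cohomology. -/
def ZETA_s : Prop := ∀ (l : ℕ) [Fact l.Prime] (Ω : Type) [Field Ω] [IsAlgClosed Ω] [CharZero Ω]
  (Y : Scheme.{0}) (f : Y ⟶ Spec (.of Ω)) (d : ℕ) [SmoothOfRelativeDimension d f] [IsProper f]
  [IrreducibleSpace Y] (σ : Y ⟶ Y) [IsIso σ] (x : Spec (.of Ω) ⟶ Y), σ ≫ f = f → x ≫ f = 𝟙 _ →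
    x ≫ σ = x → ∀ y : HH l Y (2 * d), hpb l σ _ y = y

end Pool.Agent.MP_855f4c_ag.A

end

section

/-! h14a row ZALG: local coordinates at a fixed point. -/

set_option autoImplicit false
set_option backward.isDefEq.respectTransparency false

open CategoryTheory Limits AlgebraicGeometry MvPolynomial

namespace Pool.Agent.MP_855f4c_ag.A

open E E3 T

namespace Zalg

section ring
variable {R A B D : Type} [CommRing R] [CommRing A] [CommRing B] [CommRing D]

/-- Two points of an etale algebra agree on an open and closed part. -/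
lemma sep {g : R →+* A} (hg : g.Etale) (u v : A →+* D) (h : u.comp g = v.comp g) :
    ∃ e : D, (∀ b, e * (u b - v b) = 0) ∧ ∀ (k : Type) [CommRing k] (χ : D →+* k),
      (∀ b, χ (u b) = χ (v b)) → χ e = 1 := by
  algebraize [g, u.comp g]
  let u' : A →ₐ[R] D := ⟨u, fun _ => rfl⟩
  let v' : A →ₐ[R] D := ⟨v, fun r => (DFunLike.congr_fun h r).symm⟩
  let m := Algebra.TensorProduct.productMap u' v'
  refine ⟨m (Algebra.FormallyUnramified.elem R A), fun b => ?_, fun k _ χ hχ => ?_⟩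
  · have e := congrArg m (Algebra.FormallyUnramified.one_tmul_sub_tmul_one_mul_elem (R := R) b)
    rw [map_mul, map_sub, map_zero] at e
    simp only [m, Algebra.TensorProduct.productMap_apply_tmul, map_one, one_mul, mul_one] at e
    change (v b - u b) * _ = 0 at e
    linear_combination -e
  · have e (z : TensorProduct R A A) : χ (m z) = χ (u (Algebra.TensorProduct.lmul' R z)) := by
      induction z using TensorProduct.induction_on with
      | zero => simp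
      | add x y hx hy => simp only [map_add, hx, hy]
      | tmul x y =>
        simp only [m, Algebra.TensorProduct.productMap_apply_tmul,
          Algebra.TensorProduct.lmul'_apply_tmul, map_mul]
        exact congrArg (χ (u x) * ·) (hχ y).symm
    rw [e, Algebra.FormallyUnramified.lmul_elem, map_one, map_one]

lemma uniq {g : R →+* A} (hg : g.Etale) (π : B →+* D) (hπ : IsNilpotent (RingHom.ker π))
    (u v : A →+* B) (h : u.comp g = v.comp g) (h' : π.comp u = π.comp v) : u = v := by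
  algebraize [g, u.comp g]
  let u' : A →ₐ[R] B := ⟨u, fun _ => rfl⟩
  let v' : A →ₐ[R] B := ⟨v, fun r => (DFunLike.congr_fun h r).symm⟩
  exact congrArg AlgHom.toRingHom (Algebra.FormallyUnramified.ext' π hπ u' v'
    (DFunLike.congr_fun h'))

lemma exi {g : R →+* A} (hg : g.Etale) (π : B →+* D) (hs : Function.Surjective π)
    (hπ : IsNilpotent (RingHom.ker π)) (r : R →+* B) (u : A →+* D) (h : u.comp g = π.comp r) :
    ∃ t : A →+* B, t.comp g = r ∧ π.comp t = u := by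
  algebraize [g, r, π.comp r]
  let u' : A →ₐ[R] D := ⟨u, DFunLike.congr_fun h⟩
  let π' : B →ₐ[R] D := ⟨π, fun _ => rfl⟩
  let t := Algebra.FormallySmooth.liftOfSurjective u' π' hs hπ
  exact ⟨t, t.comp_algebraMap, congrArg AlgHom.toRingHom
    (Algebra.FormallySmooth.comp_liftOfSurjective u' π' hs hπ)⟩

lemma et_loc {g : R →+* A} (hg : g.Etale) (h : A) :
    ((algebraMap A (Localization.Away h)).comp g).Etale :=
  RingHom.Etale.stableUnderComposition _ _ hg
    (RingHom.etale_algebraMap.2 (Algebra.Etale.of_isLocalizationAway h))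

variable {Ω : Type} [Field Ω] {ν : Type}

lemma sub_cc (r : MvPolynomial ν Ω) :
    r - C (constantCoeff r) ∈ Ideal.span (Set.range (X : ν → MvPolynomial ν Ω)) := by
  induction r using MvPolynomial.induction_on with
  | C a => simp
  | add p q hp hq =>
    rw [map_add, map_add, add_sub_add_comm]
    exact add_mem hp hq
  | mul_X p n _ =>
    rw [map_mul, constantCoeff_X, mul_zero, map_zero, sub_zero]
    exact Ideal.mul_mem_left _ _ (Ideal.subset_span ⟨n, rfl⟩)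

/-- Localization at a function that does not vanish at the point. -/
lemma loc (ev : A →+* Ω) (h : A) (hh : ev h ≠ 0) (I : Ideal A) (hI : ∀ b, ev b = 0 → h * b ∈ I) :
    ∃ ev' : Localization.Away h →+* Ω, ev'.comp (algebraMap A _) = ev ∧
      ∀ b, ev' b = 0 → b ∈ I.map (algebraMap A _) := by
  let ev' : Localization.Away h →+* Ω := IsLocalization.Away.lift h (Ne.isUnit hh)
  have e : ev'.comp (algebraMap A _) = ev := IsLocalization.Away.lift_comp h _
  refine ⟨ev', e, fun b hb => ?_⟩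
  obtain ⟨n, a, ha⟩ := IsLocalization.Away.surj h b
  have hu := IsLocalization.Away.algebraMap_isUnit (S := Localization.Away h) h
  have h0 : ev a = 0 := by
    rw [← e, RingHom.comp_apply, ← ha, map_mul, hb, zero_mul]
  have h1 := Ideal.mem_map_of_mem (algebraMap A (Localization.Away h)) (hI a h0)
  rw [map_mul, ← ha, Ideal.unit_mul_mem_iff_mem _ hu, Ideal.mul_unit_mem_iff_mem _ (hu.pow n)] at h1
  exact h1

/-- Coordinates that vanish at the point and cut it out. -/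
lemma coord (g : MvPolynomial ν Ω →+* A) (hg : g.Etale) (ev : A →+* Ω)
    (he : ∀ c, ev (g (C c)) = c) : ∃ (g' : MvPolynomial ν Ω →+* A) (e : A), g'.Etale ∧
      g'.comp C = g.comp C ∧ ev.comp g' = constantCoeff ∧ ev e ≠ 0 ∧
      ∀ b, ev b = 0 → e * b ∈ (Ideal.span (Set.range X)).map g' := by
  let τ (c : ν → Ω) : MvPolynomial ν Ω →ₐ[Ω] MvPolynomial ν Ω := aeval fun i => X i + C (c i)
  have hτ (c c' : ν → Ω) (h : ∀ i, c i + c' i = 0) (p : MvPolynomial ν Ω) : τ c (τ c' p) = p := by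
    have : (τ c).comp (τ c') = AlgHom.id _ _ := algHom_ext fun i => by
      rw [AlgHom.comp_apply, aeval_X, map_add, aeval_X, aeval_C, algebraMap_eq, add_assoc, ← map_add,
        h, map_zero, add_zero, AlgHom.id_apply]
    exact DFunLike.congr_fun this p
  let c : ν → Ω := fun i => ev (g (X i))
  let g' := g.comp (τ (-c)).toRingHom
  have hg' : g'.Etale := RingHom.Etale.stableUnderComposition _ _
    (RingHom.Etale.of_bijective (Function.bijective_iff_has_inverse.2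
      ⟨τ c, hτ c (-c) fun _ => add_neg_cancel _, hτ (-c) c fun _ => neg_add_cancel _⟩)) hg
  have h1 : g'.comp C = g.comp C := by
    ext a
    simp [g', τ]
  have h2 : ev.comp g' = constantCoeff := by
    refine ringHom_ext (fun a => ?_) fun i => ?_
    · exact (congrArg ev (DFunLike.congr_fun h1 a)).trans ((he a).trans (constantCoeff_C _ a).symm)
    · simp [g', τ, c, he]
  let I : Ideal A := (Ideal.span (Set.range X)).map g'
  obtain ⟨e, e1, e2⟩ := sep hg' (Ideal.Quotient.mk I)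
    ((Ideal.Quotient.mk I).comp (g'.comp (C.comp ev))) (RingHom.ext fun r => by
      change Ideal.Quotient.mk I (g' r) = Ideal.Quotient.mk I (g' (C ((ev.comp g') r)))
      rw [Ideal.Quotient.eq, ← map_sub, h2]
      exact Ideal.mem_map_of_mem _ (sub_cc r))
  obtain ⟨e, rfl⟩ := Ideal.Quotient.mk_surjective e
  have hI : ∀ a ∈ I, ev a = 0 := fun a ha => (show I ≤ RingHom.ker ev from
    Ideal.map_le_iff_le_comap.2 (Ideal.span_le.2 (by
      rintro _ ⟨i, rfl⟩
      exact (DFunLike.congr_fun h2 (X i)).trans (constantCoeff_X _ i)))) ha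
  refine ⟨g', e, hg', h1, h2, ?_, fun b hb => ?_⟩
  · have := e2 Ω (Ideal.Quotient.lift I ev hI) fun b =>
      ((DFunLike.congr_fun h2 (C (ev b))).trans (constantCoeff_C _ _)).symm
    rw [Ideal.Quotient.lift_mk] at this
    rw [this]
    exact one_ne_zero
  · have := e1 b
    simp only [RingHom.comp_apply, hb, map_zero, sub_zero, ← map_mul] at this
    exact Ideal.Quotient.eq_zero_iff_mem.1 this

/-- The differential of an unramified change of coordinates is invertible. -/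
lemma det [Fintype ν] [DecidableEq ν] (g : MvPolynomial ν Ω →+* A) (a s : A →+* B)
    (hg : g.Etale) (ha : (a.comp g).Etale) (ev : B →+* Ω)
    (he : ev.comp (a.comp g) = constantCoeff) (hc : ∀ c, s (g (C c)) = a (g (C c)))
    (hs : ∀ t t' : B →+* DualNumber Ω, t.comp s = t'.comp s → t = t') (M : Matrix ν ν B)
    (hM : (fun i => s (g (X i))) = M.mulVec fun i => a (g (X i))) : ev M.det ≠ 0 := by
  intro h0
  rw [RingHom.map_det] at h0
  obtain ⟨v, hv, hMv⟩ := Matrix.exists_mulVec_eq_zero_iff.2 h0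
  let π : DualNumber Ω →+* Ω := TrivSqZeroExt.fstHom Ω Ω Ω
  let ι : Ω →+* DualNumber Ω := algebraMap _ _
  have hπ : IsNilpotent (RingHom.ker π) := ⟨2, by
    refine (pow_two (RingHom.ker π)).trans (eq_bot_iff.2 (Ideal.mul_le.2 ?_))
    intro x hx y hy
    have hx' : x.fst = 0 := hx
    have hy' : y.fst = 0 := hy
    refine TrivSqZeroExt.ext ?_ ?_ <;> simp [hx', hy']⟩
  obtain ⟨t, t1, t2⟩ := exi ha π (fun c => ⟨ι c, rfl⟩) hπ
    (eval₂Hom ι fun i => TrivSqZeroExt.inr (v i)) ev (by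
      rw [he]
      refine ringHom_ext (fun c => ?_) fun i => ?_ <;> simp [π, ι])
  have tX (i : ν) : t (a (g (X i))) = TrivSqZeroExt.inr (v i) :=
    (DFunLike.congr_fun t1 (X i)).trans (eval₂Hom_X' _ _ _)
  have eX (i : ν) : ev (a (g (X i))) = 0 :=
    (DFunLike.congr_fun he (X i)).trans (constantCoeff_X _ _)
  have tf (b : B) : (t b).fst = ev b := DFunLike.congr_fun t2 b
  have e : t = ι.comp ev := hs _ _ (uniq hg π hπ _ _ (ringHom_ext (fun c => ?_) fun i => ?_)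
    (RingHom.ext fun b => tf (s b)))
  · refine hv (funext fun i => ?_)
    have := congrArg TrivSqZeroExt.snd (tX i)
    rw [e, RingHom.comp_apply, eX, map_zero] at this
    exact this.symm
  · change t (s (g (C c))) = ι (ev (s (g (C c))))
    rw [hc]
    exact (DFunLike.congr_fun t1 (C c)).trans ((eval₂Hom_C _ _ _).trans (congrArg ι
      ((DFunLike.congr_fun he (C c)).trans (constantCoeff_C _ _)).symm))
  · change t (s (g (X i))) = ι (ev (s (g (X i))))
    have hi := congrFun hMv i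
    rw [congrFun hM i]
    simp only [Matrix.mulVec, dotProduct, map_sum, map_mul, tX, eX, mul_zero,
      Finset.sum_const_zero, map_zero] at hi ⊢
    refine TrivSqZeroExt.ext ?_ ?_
    · simp [TrivSqZeroExt.fst_sum]
    · simpa [TrivSqZeroExt.snd_sum, tf, mul_comm] using hi

end ring

lemma spc_comp {A B D : Type} [CommRing A] [CommRing B] [CommRing D] (φ : A →+* B) (ψ : B →+* D) :
    spc (ψ.comp φ) = spc ψ ≫ spc φ := Spec.map_comp (CommRingCat.ofHom φ) (CommRingCat.ofHom ψ)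

lemma spc_inj {A B : Type} [CommRing A] [CommRing B] {φ ψ : A →+* B} (h : spc φ = spc ψ) : φ = ψ :=
  congrArg CommRingCat.Hom.hom (Spec.map_injective h)

lemma spc_surj {A B : Type} [CommRing A] [CommRing B] (u : Spec (.of B) ⟶ Spec (.of A)) :
    ∃ φ : A →+* B, spc φ = u :=
  ⟨(Spec.preimage u).hom, Spec.map_preimage u⟩

instance oi {A : Type} [CommRing A] (h : A) :
    IsOpenImmersion (spc (algebraMap A (Localization.Away h))) :=
  IsOpenImmersion.of_isLocalization h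

/-- An etale chart at a point. -/
lemma chart {Ω : Type} [Field Ω] {Y : Scheme.{0}} (f : Y ⟶ Spec (.of Ω)) (d : ℕ)
    [SmoothOfRelativeDimension d f] (x : Spec (.of Ω) ⟶ Y) (hx : x ≫ f = 𝟙 _) :
    ∃ (B : Type) (_ : CommRing B) (g : MvPolynomial (Fin d) Ω →+* B) (ev : B →+* Ω)
      (w : Spec (.of B) ⟶ Y), IsOpenImmersion w ∧ g.Etale ∧ w ≫ f = spc (g.comp C) ∧
      spc ev ≫ w = x ∧ ev.comp g = constantCoeff ∧
      ∀ b, ev b = 0 → b ∈ (Ideal.span (Set.range X)).map g := by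
  have hu (p q : Spec (.of Ω)) : p = q := Subsingleton.elim (α := PrimeSpectrum Ω) p q
  let o : Spec (.of Ω) := (⊥ : PrimeSpectrum Ω)
  obtain ⟨U, hU, V, hV, hp, e, H⟩ :=
    SmoothOfRelativeDimension.exists_isStandardSmoothOfRelativeDimension (n := d) (f := f) (x o)
  obtain rfl : U = ⊤ := eq_top_iff.2 fun q _ => hu (f (x o)) q ▸ e hp
  let φ : Ω →+* Γ(Y, V) := (f.appLE ⊤ V e).hom.comp (Scheme.ΓSpecIso (.of Ω)).inv.hom
  have H' : φ.IsStandardSmoothOfRelativeDimension d :=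
    RingHom.isStandardSmoothOfRelativeDimension_respectsIso.2 _
      (Scheme.ΓSpecIso (.of Ω)).symm.commRingCatIsoToRingEquiv H
  obtain ⟨g, hgφ, hg⟩ := H'.exists_etale_mvPolynomial
  have hw : hV.fromSpec ≫ f = spc φ := by
    rw [← IsAffineOpen.SpecMap_appLE_fromSpec f hU hV e, IsAffineOpen.fromSpec_top,
      Scheme.isoSpec_Spec_inv, ← Spec.map_comp]
    rfl
  obtain ⟨ev, hev⟩ := spc_surj (A := Γ(Y, V)) (IsOpenImmersion.lift hV.fromSpec x (by
    rintro _ ⟨q, rfl⟩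
    rw [hV.range_fromSpec, hu q o]
    exact hp))
  have hx' : spc ev ≫ hV.fromSpec = x := by rw [hev, IsOpenImmersion.lift_fac]
  have he : ev.comp φ = RingHom.id Ω := spc_inj (by
    rw [spc_comp, ← hw, ← Category.assoc, hx', hx]
    exact (Spec.map_id _).symm)
  obtain ⟨g', h, hg', h1, h2, h3, h4⟩ := coord g hg ev fun c =>
    (congrArg ev (DFunLike.congr_fun hgφ c)).trans (DFunLike.congr_fun he c)
  obtain ⟨ev', e1, e2⟩ := loc ev h h3 _ h4
  refine ⟨Localization.Away h, inferInstance, (algebraMap _ _).comp g', ev',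
    spc (algebraMap _ _) ≫ hV.fromSpec, inferInstance, et_loc hg' h, ?_, ?_, ?_, fun b hb => ?_⟩
  · rw [Category.assoc, hw, RingHom.comp_assoc, h1, hgφ]
    exact (spc_comp _ _).symm
  · rw [← Category.assoc, ← spc_comp, e1, hx']
  · rw [← RingHom.comp_assoc, e1, h2]
  · rw [← Ideal.map_map]
    exact e2 b hb

end Zalg

open Zalg in
theorem zalg : ZALG_s := by
  intro Ω _ _ Y f d _ σ _ x U hσ hx hxσ hU
  have hu (p q : Spec (.of Ω)) : p = q := Subsingleton.elim (α := PrimeSpectrum Ω) p q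
  let o : Spec (.of Ω) := (⊥ : PrimeSpectrum Ω)
  obtain ⟨B, _, g, ev, w, _, hg, hw, hev, h2, h3⟩ := chart f d x hx
  have hp : w (spc ev o) = x o := by rw [← hev]; rfl
  obtain ⟨_, ⟨h, rfl⟩, hh, hle⟩ :=
    PrimeSpectrum.isTopologicalBasis_basic_opens.exists_subset_of_mem_open
    (a := spc ev o) (u := ((w ≫ σ) ⁻¹ᵁ w.opensRange).1)
    ⟨spc ev o, by
      change _ = σ (w (spc ev o))
      rw [hp]
      exact (congrArg (fun u : Spec (.of Ω) ⟶ Y => u o) hxσ).symm⟩ ((w ≫ σ) ⁻¹ᵁ w.opensRange).2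
  have hh' : ev h ≠ 0 := hh
  obtain ⟨ev', e1, e2⟩ := loc ev h hh' _ fun b hb => Ideal.mul_mem_left _ _ (h3 b hb)
  let a' := algebraMap B (Localization.Away h)
  obtain ⟨s', hs'⟩ := spc_surj (A := B) (IsOpenImmersion.lift w (spc a' ≫ w ≫ σ) (by
    rintro _ ⟨q, rfl⟩
    exact hle ((PrimeSpectrum.localization_away_comap_range (Localization.Away h) h).le ⟨q, rfl⟩)))
  have hs : spc s' ≫ w = (spc a' ≫ w) ≫ σ := by rw [hs', IsOpenImmersion.lift_fac, Category.assoc]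
  have hc : s'.comp (g.comp C) = a'.comp (g.comp C) := spc_inj (by
    rw [spc_comp, spc_comp _ a', ← hw, ← Category.assoc, hs, Category.assoc, hσ, Category.assoc])
  have hx' : spc ev' ≫ spc a' ≫ w = x := by rw [← Category.assoc, ← spc_comp, e1, hev]
  have e3 : ev'.comp s' = ev := spc_inj (by
    rw [← cancel_mono w, spc_comp, Category.assoc, hs, ← Category.assoc, hx', hxσ, hev])
  have hM (i : Fin d) : ∃ c : Fin d → Localization.Away h, ∑ j, c j * a' (g (X j)) = s' (g (X i)) := by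
    have := e2 (s' (g (X i))) ((DFunLike.congr_fun e3 _).trans
      ((DFunLike.congr_fun h2 (X i)).trans (constantCoeff_X _ _)))
    rw [Ideal.map_map, Ideal.map_span, ← Set.range_comp] at this
    exact Ideal.mem_span_range_iff_exists_fun.1 this
  choose M hM using hM
  have hM' : (fun i => s' (g (X i))) = (Matrix.of M).mulVec fun i => a' (g (X i)) :=
    funext fun i => (hM i).symm
  have hd : ev' (Matrix.of M).det ≠ 0 := det g a' s' hg (et_loc hg h) ev'
    (by rw [← RingHom.comp_assoc, e1, h2]) (DFunLike.congr_fun hc) (fun t t' e => spc_inj (by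
      rw [← cancel_mono ((spc a' ≫ w) ≫ σ), ← hs, ← Category.assoc, ← Category.assoc, ← spc_comp,
        ← spc_comp, e])) _ hM'
  obtain ⟨ev₁, e4, -⟩ := loc ev' _ hd ⊤ fun _ _ => trivial
  let b := algebraMap (Localization.Away h) (Localization.Away (Matrix.of M).det)
  have hk (k : Type) [CommRing k] (ψ : B →+* k) (hψ : ∀ i, ψ (g (X i)) = 0) (z : B) :
      ψ z = ψ (g (C (ev z))) := by
    have h0 : (Ideal.span (Set.range X)).map g ≤ RingHom.ker ψ :=
      Ideal.map_le_iff_le_comap.2 (Ideal.span_le.2 (by rintro _ ⟨i, rfl⟩; exact hψ i))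
    rw [← sub_eq_zero, ← map_sub]
    refine h0 (h3 _ ?_)
    rw [map_sub, sub_eq_zero]
    exact ((DFunLike.congr_fun h2 (C (ev z))).trans (constantCoeff_C _ _)).symm
  algebraize [g]
  refine ⟨B, Localization.Away (Matrix.of M).det, inferInstance, inferInstance, inferInstance,
    b.comp a', b.comp s', w, spc b ≫ spc a' ≫ w, inferInstance, inferInstance,
    (Matrix.of M).map b, ⟨IndEt.of_etale, fun k _ _ ψ hψ => ⟨ψ.comp (C.comp ev), ?_, ?_⟩⟩,
    by rw [spc_comp, Category.assoc], by simp only [spc_comp, Category.assoc, hs],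
    ?_, ?_, fun c => congrArg b (DFunLike.congr_fun hc c), ?_, ?_⟩
  · refine RingHom.ext fun r => ?_
    change ψ (C ((ev.comp g) r)) = ψ r
    rw [h2, eq_comm, ← sub_eq_zero, ← map_sub]
    exact hψ (sub_cc r)
  · intro ψ₁ h₁
    refine RingHom.ext fun z => (hk k ψ₁ (fun i => ?_) z).trans (DFunLike.congr_fun h₁ _)
    exact (DFunLike.congr_fun h₁ (X i)).trans (hψ (Ideal.subset_span ⟨i, rfl⟩))
  · refine eq_top_iff.2 fun z _ => ?_
    by_cases hz : z ∈ Set.range x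
    · obtain ⟨q, rfl⟩ := hz
      refine Or.inr ⟨spc ev₁ q, ?_⟩
      rw [← hx', ← e4, spc_comp]
      rfl
    · exact Or.inl ((hU z).2 hz)
  · ext q
    change w q ∈ U ↔ ¬ _
    rw [hU, not_iff_not]
    constructor
    · rintro ⟨r, hr⟩
      rw [hu r o, ← hp] at hr
      obtain rfl := w.isOpenEmbedding.injective hr
      refine Ideal.span_le.2 ?_
      rintro _ ⟨i, rfl⟩
      exact (DFunLike.congr_fun h2 (X i)).trans (constantCoeff_X _ _)
    · intro hq
      refine ⟨o, hp.symm.trans (congrArg w (PrimeSpectrum.ext ?_))⟩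
      have hm : (RingHom.ker ev).IsMaximal := RingHom.ker_isMaximal_of_surjective ev fun c =>
        ⟨g (C c), (DFunLike.congr_fun h2 (C c)).trans (constantCoeff_C _ _)⟩
      exact hm.eq_of_le q.2.ne_top fun z hz => Ideal.map_le_iff_le_comap.2 hq (h3 z hz)
  · funext i
    change b (s' (g (X i))) = _
    rw [← hM i, map_sum]
    exact Finset.sum_congr rfl fun j _ => map_mul b _ _
  · rw [← RingHom.mapMatrix_apply, ← RingHom.map_det]
    exact IsLocalization.Away.algebraMap_isUnit _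

end Pool.Agent.MP_855f4c_ag.A

end
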