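import Pool.Agent.MP_855f4c_ag.TC.Th
import Pool.Agent.MP_855f4c_ag.TC.Ti
import Pool.Agent.MP_855f4c_ag.AC.Af

set_option linter.all false

section

/-! h14a row LAM: pull-back of classes with both variables, and the map `lam`. -/

set_option autoImplicit false
set_option backward.isDefEq.respectTransparency false

open CategoryTheory Limits Abelian Opposite AlgebraicGeometry Function

namespace Pool.Agent.MP_855f4c_ag.T.Lam

open E E3 E4 Pbc

variable {T T' T'' : Scheme.{0}}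

section xpb
variable {A B G H : Sh (Scheme.etaleTopology.over T)} {A' B' G' H' : Sh (Scheme.etaleTopology.over T')}
  {A'' G'' : Sh (Scheme.etaleTopology.over T'')}

/-- Pull-back of classes. -/
noncomputable def xpb (g : T' ⟶ T) (a : A' ⟶ (pbe g).obj A) (c : (pbe g).obj G ⟶ G') (n : ℕ) :
    Ext.{1} A G n →+ Ext.{1} A' G' n := (post A' c n).comp (E.cmp (pbe g) a G n)

lemma xpb_apply (g : T' ⟶ T) (a : A' ⟶ (pbe g).obj A) (c : (pbe g).obj G ⟶ G') {n : ℕ}
    (x : Ext.{1} A G n) :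
    xpb g a c n x = post _ c n (pre a _ n (x.mapExactFunctor (pbe g))) := rfl

lemma xpb_pre (g : T' ⟶ T) {a : A' ⟶ (pbe g).obj A} {b : B' ⟶ (pbe g).obj B} {u : B ⟶ A}
    {u' : B' ⟶ A'} (h : u' ≫ a = b ≫ (pbe g).map u) (c : (pbe g).obj G ⟶ G') {n : ℕ}
    (x : Ext.{1} A G n) : pre u' _ n (xpb g a c n x) = xpb g b c n (pre u _ n x) := by
  rw [xpb_apply, xpb_apply, map_pre, pre_post, pre_pre, pre_pre, h]

lemma xpb_post (g : T' ⟶ T) (a : A' ⟶ (pbe g).obj A) {c : (pbe g).obj G ⟶ G'}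
    {d : (pbe g).obj H ⟶ H'} {v : G ⟶ H} {v' : G' ⟶ H'} (h : c ≫ v' = (pbe g).map v ≫ d) {n : ℕ}
    (x : Ext.{1} A G n) : post _ v' n (xpb g a c n x) = xpb g a d n (post _ v n x) := by
  rw [xpb_apply, xpb_apply, map_post, pre_post, post_post, post_post, h]

lemma xpb_xpb (g' : T'' ⟶ T') (g : T' ⟶ T) (a' : A'' ⟶ (pbe g').obj A') (a : A' ⟶ (pbe g).obj A)
    (c' : (pbe g').obj G' ⟶ G'') (c : (pbe g).obj G ⟶ G') {n : ℕ} (x : Ext.{1} A G n) :
    xpb g' a' c' n (xpb g a c n x) = xpb (g' ≫ g) (a' ≫ (pbe g').map a ≫ (pc g' g A).hom)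
      ((pc g' g G).inv ≫ (pbe g').map c ≫ c') n x := by
  have h : (pbe g').map c ≫ c' = (pc g' g G).hom ≫ (pc g' g G).inv ≫ (pbe g').map c ≫ c' :=
    (Iso.hom_inv_id_assoc _ _).symm
  rw [xpb_apply, xpb_apply, xpb_apply, map_post, map_pre, pre_post, post_post, pre_pre, h,
    ← post_post, ← pre_post, nat_comp (pbe g) (pbe g') (pbe (g' ≫ g)) (fun A => (pc g' g A).hom)
      (pc_nat g' g), pre_pre, Category.assoc, Iso.inv_hom_id_assoc]

lemma xpb_id (a : B ⟶ (pbe (𝟙 T)).obj A) (c : (pbe (𝟙 T)).obj G ⟶ H) {n : ℕ} (x : Ext.{1} A G n) :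
    xpb (𝟙 T) a c n x = pre (a ≫ (pi A).hom) _ n (post _ ((pi G).inv ≫ c) n x) := by
  have h : c = (pi G).hom ≫ (pi G).inv ≫ c := (Iso.hom_inv_id_assoc _ _).symm
  rw [xpb_apply, h, ← post_post, ← pre_post a, nat_id (pbe (𝟙 T)) (fun A => (pi A).hom) pi_nat,
    pre_pre, pre_post, Iso.inv_hom_id_assoc]

lemma xpb_dl (g : T' ⟶ T) (a : A' ⟶ (pbe g).obj A)
    {S : ShortComplex (Sh (Scheme.etaleTopology.over T))}
    {S' : ShortComplex (Sh (Scheme.etaleTopology.over T'))} (hS : S.ShortExact)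
    (hS' : S'.ShortExact) (φ : S.map (pbe g) ⟶ S') {n : ℕ} (x : Ext.{1} A S.X₃ n) :
    xpb g a (G := S.X₁) φ.τ₁ (n + 1) (dl A hS n x) =
      dl A' hS' n (xpb g a (G := S.X₃) φ.τ₃ n x) := by
  rw [xpb_apply, xpb_apply, map_dl]
  exact (congrArg (post _ φ.τ₁ _) (pre_dl a (hS.map_of_exact (pbe g)) _)).trans
    (post_dl (hS.map_of_exact (pbe g)) hS' φ _)

lemma xpb_bij (g : T' ⟶ T) (a : A' ⟶ (pbe g).obj A) (c : (pbe g).obj G ⟶ G') [IsIso a] [IsIso c]
    (h : Exce.MB.{1} (pbe g) G A) (n : ℕ) : Bijective (xpb g a c n) :=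
  (post_bij _ c n).comp ((Exce.mb_iff a (pre_bij a _)).1 h n)

lemma mb_of_xpb (g : T' ⟶ T) (a : A' ⟶ (pbe g).obj A) (c : (pbe g).obj G ⟶ G') [IsIso a] [IsIso c]
    (h : ∀ n, Bijective (xpb g a c n)) : Exce.MB.{1} (pbe g) G A :=
  (Exce.mb_iff a (pre_bij a _)).2 fun n => ((post_bij _ c n).of_comp_iff' _).1 (h n)

end xpb

variable (l : ℕ) [Fact l.Prime]

/-- The part of `ℚ_l / ℤ_l` supported on `O`. -/
noncomputable abbrev FO (O : T.Opens) : Sh (Scheme.etaleTopology.over T) := (ez O).obj (Linf l T)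

/-- The inclusion. -/
noncomputable abbrev ιO (O : T.Opens) : FO l O ⟶ Linf l T := (ezι O).app (Linf l T)

/-- `c` is the comparison map of the subsheaves. -/
def Rf (g : T' ⟶ T) (O' : T'.Opens) (O : T.Opens) (c : (pbe g).obj (FO l O) ⟶ FO l O') : Prop :=
  c ≫ ιO l O' = (pbe g).map (ιO l O) ≫ (lpb l g).hom

variable {l} {O U : T.Opens} {O' U' : T'.Opens} {O'' U'' : T''.Opens}

lemma ex_le {O₁ O₂ : T.Opens} (h : O₁ ≤ O₂) (F : Sh (Scheme.etaleTopology.over T)) :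
    ∃ z : (ez O₁).obj F ⟶ (ez O₂).obj F, z ≫ (ezι O₂).app F = (ezι O₁).app F := by
  have : IsIso ((ezι O₂).app ((ez O₁).obj F)) :=
    Ez.isIso_of_bij _ fun _ => ⟨Subtype.val_injective, fun s => ⟨⟨s,
      (Scheme.etaleTopology.over T).superset_covering (S := ezSieve (ovU O₁) F.obj s.1)
        (fun _ _ e => e.imp (fun e => Subtype.ext e) fun e t => h (e t)) s.2⟩, rfl⟩⟩
  refine ⟨inv ((ezι O₂).app ((ez O₁).obj F)) ≫ (ez O₂).map ((ezι O₁).app F), ?_⟩
  rw [Category.assoc, (ezι O₂).naturality, IsIso.inv_hom_id_assoc]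
  rfl

lemma Rf_uniq {g : T' ⟶ T} {c d : (pbe g).obj (FO l O) ⟶ FO l O'} (hc : Rf l g O' O c)
    (hd : Rf l g O' O d) : c = d := (cancel_mono (ιO l O')).1 (hc.trans hd.symm)

lemma exRf₀ (g : T' ⟶ T) (O : T.Opens) : ∃ c, Rf l g (g ⁻¹ᵁ O) O c ∧ IsIso c := by
  obtain ⟨e, he⟩ := ez_pb O g
  refine ⟨e.hom.app _ ≫ (ez (g ⁻¹ᵁ O)).map (lpb l g).hom, ?_, inferInstance⟩
  rw [Rf, Category.assoc, (ezι _).naturality, ← he]
  exact (Category.assoc _ _ _).symm

lemma exRf (g : T' ⟶ T) (h : g ⁻¹ᵁ O ≤ O') : ∃ c, Rf l g O' O c := by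
  obtain ⟨c, hc, -⟩ := exRf₀ (l := l) g O
  obtain ⟨z, hz⟩ := ex_le h (Linf l T')
  exact ⟨c ≫ z, by rw [Rf, Category.assoc, hz]; exact hc⟩

lemma lpb_pc' (g' : T'' ⟶ T') (g : T' ⟶ T) : (pc g' g (Linf l T)).inv ≫
    (pbe g').map (lpb l g).hom ≫ (lpb l g').hom = (lpb l (g' ≫ g)).hom := by
  rw [Iso.inv_comp_eq, ← Iso.comp_inv_eq, ← lpb_pc, Category.assoc, Iso.hom_inv_id_assoc,
    ← Functor.map_comp_assoc, Iso.hom_inv_id, CategoryTheory.Functor.map_id, Category.id_comp]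

lemma lpb_pi' : (pi (Linf l T)).inv ≫ (lpb l (𝟙 T)).hom = 𝟙 _ := by
  rw [Iso.inv_comp_eq, Category.comp_id, ← Category.comp_id (lpb l (𝟙 T)).hom, ← lpb_pi,
    Iso.hom_inv_id_assoc]

lemma pc_nat' (g' : T'' ⟶ T') (g : T' ⟶ T) {A B : Sh (Scheme.etaleTopology.over T)} (f : A ⟶ B) :
    (pc g' g A).inv ≫ (pbe g').map ((pbe g).map f) = (pbe (g' ≫ g)).map f ≫ (pc g' g B).inv := by
  rw [Iso.inv_comp_eq, ← Category.assoc, ← pc_nat, Category.assoc, Iso.hom_inv_id, Category.comp_id]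

lemma Rf_comp {g' : T'' ⟶ T'} {g : T' ⟶ T} {c' : (pbe g').obj (FO l O') ⟶ FO l O''}
    {c : (pbe g).obj (FO l O) ⟶ FO l O'} (h' : Rf l g' O'' O' c') (h : Rf l g O' O c) :
    Rf l (g' ≫ g) O'' O ((pc g' g _).inv ≫ (pbe g').map c ≫ c') := by
  rw [Rf] at h h' ⊢
  rw [Category.assoc, Category.assoc, h', ← Functor.map_comp_assoc, h, Functor.map_comp_assoc,
    ← Category.assoc, pc_nat', ← lpb_pc', Category.assoc]

lemma Rf_id {O₁ O₂ : T.Opens} {c : (pbe (𝟙 T)).obj (FO l O₁) ⟶ FO l O₂} (h : Rf l (𝟙 T) O₂ O₁ c) :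
    ((pi _).inv ≫ c) ≫ ιO l O₂ = ιO l O₁ := by
  rw [Category.assoc, h, Iso.inv_comp_eq, ← pi_nat, ← Category.comp_id (pi (Linf l T)).hom,
    ← lpb_pi', Iso.hom_inv_id_assoc]

lemma Rp_id' {U₁ U₂ : T.Opens} {a : AU l U₁ ⟶ (pbe (𝟙 T)).obj (AU l U₂)} (h : Rp l (𝟙 T) U₁ U₂ a) :
    πU l U₁ ≫ a ≫ (pi _).hom = πU l U₂ := by
  rw [reassoc_of% (h : _ = _), pi_nat, reassoc_of% lpb_pi]

variable (l)

/-- The comparison map of the quotients. -/
noncomputable def aU (g : T' ⟶ T) (h : U' ≤ g ⁻¹ᵁ U) : AU l U' ⟶ (pbe g).obj (AU l U) :=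
  (exRp g h).choose

/-- The comparison map of the subsheaves. -/
noncomputable def fO (g : T' ⟶ T) (h : g ⁻¹ᵁ O ≤ O') : (pbe g).obj (FO l O) ⟶ FO l O' :=
  (exRf g h).choose

lemma aU_Rp (g : T' ⟶ T) (h : U' ≤ g ⁻¹ᵁ U) : Rp l g U' U (aU l g h) := (exRp g h).choose_spec

lemma fO_Rf (g : T' ⟶ T) (h : g ⁻¹ᵁ O ≤ O') : Rf l g O' O (fO l g h) := (exRf g h).choose_spec

/-- The groups `Ext(A_U, F_O)`. -/
abbrev KK (U O : T.Opens) (n : ℕ) : Type 1 := Ext.{1} (AU l U) (FO l O) n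

/-- The groups `Ext(L, F_O)`. -/
abbrev K0 (O : T.Opens) (n : ℕ) : Type 1 := Ext.{1} (Linf l T) (FO l O) n

/-- Pull-back on `KK`. -/
noncomputable def kpb (g : T' ⟶ T) (hU : U' ≤ g ⁻¹ᵁ U) (hO : g ⁻¹ᵁ O ≤ O') (n : ℕ) :
    KK l U O n →+ KK l U' O' n := xpb g (aU l g hU) (fO l g hO) n

/-- Pull-back on `K0`. -/
noncomputable def k0pb (g : T' ⟶ T) (hO : g ⁻¹ᵁ O ≤ O') (n : ℕ) : K0 l O n →+ K0 l O' n :=
  xpb g (lpb l g).inv (fO l g hO) n

variable {l}

lemma kpb_eq {g : T' ⟶ T} (hU : U' ≤ g ⁻¹ᵁ U) (hO : g ⁻¹ᵁ O ≤ O') {a c} (ha : Rp l g U' U a)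
    (hc : Rf l g O' O c) (n : ℕ) : kpb l g hU hO n = xpb g a c n := by
  rw [kpb, Rp_uniq (aU_Rp l g hU) ha, Rf_uniq (fO_Rf l g hO) hc]

lemma k0pb_eq {g : T' ⟶ T} (hO : g ⁻¹ᵁ O ≤ O') {c} (hc : Rf l g O' O c) (n : ℕ) :
    k0pb l g hO n = xpb g (lpb l g).inv c n := by
  rw [k0pb, Rf_uniq (fO_Rf l g hO) hc]

lemma kpb_kpb {g' : T'' ⟶ T'} {g : T' ⟶ T} {g'' : T'' ⟶ T} (e : g' ≫ g = g'')
    (hU' : U'' ≤ g' ⁻¹ᵁ U') (hO' : g' ⁻¹ᵁ O' ≤ O'') (hU : U' ≤ g ⁻¹ᵁ U) (hO : g ⁻¹ᵁ O ≤ O')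
    (hU'' : U'' ≤ g'' ⁻¹ᵁ U) (hO'' : g'' ⁻¹ᵁ O ≤ O'') {n : ℕ} (x : KK l U O n) :
    kpb l g' hU' hO' n (kpb l g hU hO n x) = kpb l g'' hU'' hO'' n x := by
  subst e
  rw [kpb_eq hU'' hO'' (Rp_comp (aU_Rp l g' hU') (aU_Rp l g hU))
    (Rf_comp (fO_Rf l g' hO') (fO_Rf l g hO))]
  exact xpb_xpb _ _ _ _ _ _ x

lemma k0pb_k0pb {g' : T'' ⟶ T'} {g : T' ⟶ T} {g'' : T'' ⟶ T} (e : g' ≫ g = g'')
    (hO' : g' ⁻¹ᵁ O' ≤ O'') (hO : g ⁻¹ᵁ O ≤ O') (hO'' : g'' ⁻¹ᵁ O ≤ O'') {n : ℕ} (x : K0 l O n) :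
    k0pb l g' hO' n (k0pb l g hO n x) = k0pb l g'' hO'' n x := by
  subst e
  rw [k0pb_eq hO'' (Rf_comp (fO_Rf l g' hO') (fO_Rf l g hO)), ← lpb_pc]
  exact xpb_xpb _ _ _ _ _ _ x

/-- Change of the open sets. -/
lemma kpb_le {U₁ U₂ O₁ O₂ : T.Opens} (hU : U₁ ≤ 𝟙 T ⁻¹ᵁ U₂) (hO : 𝟙 T ⁻¹ᵁ O₂ ≤ O₁)
    {b : AU l U₁ ⟶ AU l U₂} (hb : πU l U₁ ≫ b = πU l U₂) {z : FO l O₂ ⟶ FO l O₁}
    (hz : z ≫ ιO l O₁ = ιO l O₂) {n : ℕ} (x : KK l U₂ O₂ n) :
    kpb l (𝟙 T) hU hO n x = pre b _ n (post _ z n x) := by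
  rw [kpb, xpb_id, (cancel_epi (πU l U₁)).1 ((Rp_id' (aU_Rp l _ hU)).trans hb.symm),
    (cancel_mono (ιO l O₁)).1 ((Rf_id (fO_Rf l _ hO)).trans hz.symm)]

lemma kpb_id (hU : U ≤ 𝟙 T ⁻¹ᵁ U) (hO : 𝟙 T ⁻¹ᵁ O ≤ O) {n : ℕ} (x : KK l U O n) :
    kpb l (𝟙 T) hU hO n x = x := by
  rw [kpb_le hU hO (Category.comp_id _) (Category.id_comp _), post_id, pre_id]

lemma π_kpb (g : T' ⟶ T) (hU : U' ≤ g ⁻¹ᵁ U) (hO : g ⁻¹ᵁ O ≤ O') {n : ℕ} (x : KK l U O n) :
    pre (πU l U') _ n (kpb l g hU hO n x) = k0pb l g hO n (pre (πU l U) _ n x) :=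
  xpb_pre g (aU_Rp l g hU) _ x

lemma ι_k0pb (g : T' ⟶ T) (hO : g ⁻¹ᵁ O ≤ O') {n : ℕ} (x : K0 l O n) :
    post _ (ιO l O') n (k0pb l g hO n x) = epb l g n (post _ (ιO l O) n x) :=
  xpb_post g _ (fO_Rf l g hO) x

lemma π_bot : IsIso (πU l (⊥ : T.Opens)) := by
  have h : ιO l (⊥ : T.Opens) = 0 := by
    ext W s
    exact CLZ.van (O := ⊥) (fun _ h => h) s
  have := (πU_exact (l := l) (⊥ : T.Opens)).exact.mono_g h
  exact isIso_of_mono_of_epi _

lemma ι_top : IsIso (ιO l (⊤ : T.Opens)) := Ez.isIso_of_bij _ fun _ => ezι_bij _ _ fun _ => trivial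

end Pool.Agent.MP_855f4c_ag.T.Lam

end

section

section

/-! h14a row MATG: universal families of homogeneous sections; their values are coordinates. -/

set_option autoImplicit false
set_option backward.isDefEq.respectTransparency false

open CategoryTheory Limits AlgebraicGeometry MvPolynomial Function

namespace Pool.Agent.MP_855f4c_ag.T.Matg

open E

variable {κ ι : Type} [Fintype κ] [DecidableEq κ] {C D : Type} [CommRing C] [CommRing D]

section frame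

/-- The frame with affine coordinates `t` in the chart `σ`. -/
def fm (σ : κ → Fin 2) (t : XV κ → D) : XY κ → D :=
  Sum.elim (fun v => if v.2 = σ v.1 then 1 else t (v.1, 0))
    fun v => if v.2 = σ v.1 then 1 - t (v.1, 0) * t (v.1, 1) else t (v.1, 1)

omit [Fintype κ] [DecidableEq κ] in
theorem map_fm (f : C →+* D) (σ : κ → Fin 2) (t : XV κ → C) : f ∘ fm σ t = fm σ (f ∘ t) := by
  funext v
  rcases v with v | v <;> simp [fm, apply_ite f]

omit [Fintype κ] [DecidableEq κ] in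
theorem fm_rel (σ : κ → Fin 2) (t : XV κ → D) : Rel (fm σ t) := fun k => by
  rw [Fin.sum_univ_two]
  generalize h : σ k = s
  fin_cases s <;> simp [fm, h] <;> ring

omit [Fintype κ] [DecidableEq κ] in
theorem fm_diag (σ : κ → Fin 2) (t : XV κ → D) (k : κ) :
    emat (fm σ t) (k, σ k, σ k) = 1 - t (k, 0) * t (k, 1) := by simp [emat, fm]

omit [Fintype κ] [DecidableEq κ] in
theorem fm_inj (σ : κ → Fin 2) {t t' : XV κ → D} (hu : ∀ k, IsUnit (1 - t (k, 0) * t (k, 1)))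
    (h : emat (fm σ t) = emat (fm σ t')) : t = t' := by
  funext ⟨k, i⟩
  have hr : (σ k).rev ≠ σ k := by
    generalize σ k = s
    fin_cases s <;> simp
  have h0 := congrFun h (k, σ k, σ k)
  have h1 := congrFun h (k, (σ k).rev, σ k)
  have h2 := congrFun h (k, σ k, (σ k).rev)
  simp only [emat, fm, Sum.elim_inl, Sum.elim_inr, if_true, if_neg hr, one_mul] at h0 h1 h2
  fin_cases i
  · rw [← h0] at h1
    exact (hu k).mul_right_cancel h1
  · exact h2

omit [Fintype κ] [DecidableEq κ] in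
theorem fm_ex {e : EV κ → D} (he : JP e) (σ : κ → Fin 2) (hu : ∀ k, IsUnit (e (k, σ k, σ k))) :
    ∃ t, emat (fm σ t) = e := by
  choose v hv using fun k => (hu k).exists_right_inv
  refine ⟨fun p => if p.2 = 0 then e (p.1, (σ p.1).rev, σ p.1) * v p.1
    else e (p.1, σ p.1, (σ p.1).rev), funext fun ⟨k, i, j⟩ => ?_⟩
  have h1 := (he k).1
  have h2 := (he k).2
  have h3 := hv k
  simp only [emat, fm, Sum.elim_inl, Sum.elim_inr]
  generalize σ k = s at h3 ⊢
  fin_cases s <;> fin_cases i <;> fin_cases j <;> simp at h3 ⊢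
  · linear_combination -h1 + v k * h2 - e (k, 1, 1) * h3
  · linear_combination e (k, 1, 0) * v k * (-h1 + v k * h2 - e (k, 1, 1) * h3) + e (k, 1, 0) * h3
  · linear_combination -v k * h2 + e (k, 1, 1) * h3
  · linear_combination -v k * h2 + e (k, 0, 0) * h3
  · linear_combination e (k, 0, 1) * v k * (-h1 + v k * h2 - e (k, 0, 0) * h3) + e (k, 0, 1) * h3
  · linear_combination -h1 + v k * h2 - e (k, 0, 0) * h3

end frame

variable (w : ι → κ → ℤ) (m : ι → Finset (XY κ →₀ ℕ))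

/-- The indices of the coefficients. -/
abbrev Ix : Type := Σ i : ι, (κ → Fin 2) ⊕ m i

/-- The monomials. -/
noncomputable def mo (a : XY κ → D) (i : ι) : (κ → Fin 2) ⊕ m i → D :=
  Sum.elim (fun σ => Ja.mu (-w i) σ a) fun d => ∏ v, a v ^ d.1 v

/-- The value at `a` of the section with coefficients `y`. -/
noncomputable def val (a : XY κ → D) (y : Ix m → D) (i : ι) : D := ∑ j, y ⟨i, j⟩ * mo w m a i j

theorem map_val (f : C →+* D) (a : XY κ → C) (y : Ix m → C) (i : ι) :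
    f (val w m a y i) = val w m (f ∘ a) (f ∘ y) i := by
  simp only [val, map_sum, map_mul]
  refine Finset.sum_congr rfl fun j _ => congrArg _ ?_
  rcases j with j | j <;> simp [mo, Ja.mu]

open Classical in
/-- The coefficient of the unit monomial is replaced by the value. -/
noncomputable def sw (σ : κ → Fin 2) (a : XY κ → D) (y : Ix m → D) : Ix m → D :=
  fun p => if p.2 = .inl σ then val w m a y p.1 else y p

theorem map_sw (f : C →+* D) (σ : κ → Fin 2) (a : XY κ → C) (y : Ix m → C) :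
    f ∘ sw w m σ a y = sw w m σ (f ∘ a) (f ∘ y) := by
  funext p
  simp only [sw, comp, apply_ite f, map_val]

theorem sw_bij (σ : κ → Fin 2) {t : XV κ → D} (hu : ∀ k, IsUnit (1 - t (k, 0) * t (k, 1))) :
    Bijective (sw w m σ (fm σ t)) := by
  classical
  have h0 (i : ι) : IsUnit (mo w m (fm σ t) i (.inl σ)) :=
    IsUnit.prod_univ_iff.2 fun k => by simpa [fm] using (hu k).pow _
  have hv (y : Ix m → D) (i : ι) : val w m (fm σ t) y i =
      y ⟨i, .inl σ⟩ * mo w m (fm σ t) i (.inl σ) +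
        ∑ j ∈ Finset.univ.erase (.inl σ), y ⟨i, j⟩ * mo w m (fm σ t) i j :=
    (Finset.add_sum_erase _ _ (Finset.mem_univ _)).symm
  constructor
  · intro y y' h
    have h1 (i : ι) (j) (hj : j ≠ .inl σ) : y ⟨i, j⟩ = y' ⟨i, j⟩ := by
      simpa only [sw, if_neg hj] using congrFun h ⟨i, j⟩
    funext ⟨i, j⟩
    by_cases hj : j = .inl σ
    · subst hj
      have h2 := congrFun h ⟨i, .inl σ⟩
      simp only [sw, if_true, hv] at h2
      refine (h0 i).mul_right_cancel (add_right_cancel (h2.trans (congrArg _ ?_)))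
      exact Finset.sum_congr rfl fun j hj => by rw [h1 i j (Finset.ne_of_mem_erase hj)]
    · exact h1 i j hj
  · intro z
    choose v hv' using fun i => (h0 i).exists_left_inv
    refine ⟨fun p => if p.2 = .inl σ then (z p - ∑ j ∈ Finset.univ.erase (.inl σ),
      z ⟨p.1, j⟩ * mo w m (fm σ t) p.1 j) * v p.1 else z p, funext fun ⟨i, j⟩ => ?_⟩
    by_cases hj : j = .inl σ
    · subst hj
      simp only [sw, if_true, hv]
      rw [mul_assoc, hv', mul_one]
      refine (congrArg _ ?_).trans (sub_add_cancel _ _)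
      exact Finset.sum_congr rfl fun j hj => by rw [if_neg (Finset.ne_of_mem_erase hj)]
    · simp only [sw, if_neg hj]

variable (Ω : Type) [CommRing Ω]

/-- The universal ring. -/
def UU : Type := MvPolynomial (Ix m) (JB (noEq κ Ω))

noncomputable instance : CommRing (UU m Ω) :=
  inferInstanceAs (CommRing (MvPolynomial (Ix m) (JB (noEq κ Ω))))

/-- The universal coefficients. -/
noncomputable def uy (p : Ix m) : UU m Ω := (X p : MvPolynomial (Ix m) (JB (noEq κ Ω)))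

/-- The constants. -/
noncomputable def uc : JB (noEq κ Ω) →+* UU m Ω :=
  (MvPolynomial.C : _ →+* MvPolynomial (Ix m) (JB (noEq κ Ω)))

/-- Its structure map. -/
noncomputable def ut : Ω →+* UU m Ω := (uc m Ω).comp (algebraMap Ω _)

/-- The universal matrices. -/
noncomputable def ue : EV κ → UU m Ω := uc m Ω ∘ je (noEq κ Ω)

/-- The universal sections. -/
noncomputable def us (i : ι) : MvPolynomial (XY κ) (UU m Ω) := 
  val w m X (MvPolynomial.C ∘ uy m Ω) i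

theorem ue_jp : JP (ue m Ω) := Ja.jp_map _ (ZP.jp_je _)

theorem us_eval (f : UU m Ω →+* D) (a : XY κ → D) (i : ι) :
    eval₂ f a (us w m Ω i) = val w m a (f ∘ uy m Ω) i := by
  refine (map_val w m (eval₂Hom f a) _ _ i).trans ?_
  congr 1 <;> funext v <;> simp

theorem us_hom (hm : ∀ i, ∀ d ∈ m i, Finsupp.weight wt d = w i) (i : ι) : Hg (w i) (us w m Ω i) := by
  refine IsWeightedHomogeneous.sum _ _ _ fun j _ => ?_
  refine (zero_add (w i)) ▸ (isWeightedHomogeneous_C _ _).mul ?_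
  rcases j with j | j
  · exact neg_neg (w i) ▸ Ja.mu_hom (-w i) j
  · have := isWeightedHomogeneous_monomial wt j.1 (1 : UU m Ω) (hm i _ j.2)
    rwa [monomial_eq, C_1, one_mul, Finsupp.prod_fintype _ _ (by simp)] at this

theorem u_lift (τ : Ω →+* D) {e : EV κ → D} (he : JP e) (y : Ix m → D) :
    ∃ ψ : UU m Ω →+* D, ψ.comp (ut m Ω) = τ ∧ ψ ∘ ue m Ω = e ∧ ψ ∘ uy m Ω = y := by
  obtain ⟨φ, h1, h2⟩ := ZP.j_lift (cf := noEq κ Ω) τ he fun a => a.elim0
  exact ⟨eval₂Hom φ y, RingHom.ext fun r => (eval₂Hom_C _ _ _).trans (RingHom.congr_fun h1 r),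
    funext fun v => (eval₂Hom_C _ _ _).trans (h2 v), funext fun v => eval₂Hom_X' _ _ _⟩

theorem u_ext {f g : UU m Ω →+* D} (h1 : f.comp (ut m Ω) = g.comp (ut m Ω))
    (h2 : f ∘ ue m Ω = g ∘ ue m Ω) (h3 : f ∘ uy m Ω = g ∘ uy m Ω) : f = g :=
  MvPolynomial.ringHom_ext (RingHom.congr_fun (ZP.j_ext (φ := f.comp (uc m Ω))
    (φ' := g.comp (uc m Ω)) h1 (congrFun h2))) (congrFun h3)

theorem map_eq_eval₂ {σ : Type} (ψ : C →+* D) (P : MvPolynomial σ C) :
    MvPolynomial.map ψ P = eval₂ (MvPolynomial.C.comp ψ) X P :=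
  RingHom.congr_fun (MvPolynomial.ringHom_ext (f := MvPolynomial.map ψ)
    (g := eval₂Hom (MvPolynomial.C.comp ψ) X) (by simp) (by simp)) P

/-- Every family of sections comes from the universal one. -/
theorem spec (τ : Ω →+* D) {e : EV κ → D} (he : JP e) (s : ι → MvPolynomial (XY κ) D) :
    ∃ ψ : UU (fun i => (s i).support) Ω →+* D, ψ.comp (ut _ Ω) = τ ∧ ψ ∘ ue _ Ω = e ∧
      ∀ i, MvPolynomial.map ψ (us w _ Ω i) = s i := by
  obtain ⟨ψ, h1, h2, h3⟩ := u_lift (fun i => (s i).support) Ω τ he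
    fun p => Sum.elim (fun _ => 0) (fun d => coeff d.1 (s p.1)) p.2
  refine ⟨ψ, h1, h2, fun i => ?_⟩
  refine ((map_eq_eval₂ ψ _).trans (us_eval w _ Ω (MvPolynomial.C.comp ψ) X i)).trans ?_
  have h4 (p) : ψ (uy _ Ω p) = _ := congrFun h3 p
  simp only [val, Fintype.sum_sum_type, comp, RingHom.comp_apply, h4, Sum.elim_inl, Sum.elim_inr,
    map_zero, zero_mul, Finset.sum_const_zero, zero_add, mo]
  refine Eq.trans ?_ (s i).as_sum.symm
  rw [← Finset.sum_coe_sort (s i).support]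
  exact Finset.sum_congr rfl fun d _ => by
    rw [monomial_eq, Finsupp.prod_fintype _ _ (by simp)]

theorem unit_of_pts {P : Type} [CommRing P] (q : P →+* C) (h : P)
    (H : ∀ p : Spec (.of C), spc q p ∈ PrimeSpectrum.basicOpen h) : IsUnit (q h) :=
  by_contra fun hn => by
    obtain ⟨p, hp, hle⟩ := Ideal.exists_le_maximal _ (Ideal.span_singleton_ne_top hn)
    exact H ⟨p, hp.isPrime⟩ (hle (Ideal.mem_span_singleton_self _))

/-- In the chart `σ` the values of the universal sections are coordinates. -/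
theorem chart (σ : κ → Fin 2) (A : Type) [CommRing A] [Algebra (UU m Ω) A]
    [IsLocalization.Away (∏ k, ue m Ω (k, σ k, σ k)) A] :
    ∃ (a : XY κ → A) (φ : MvPolynomial (XV κ ⊕ Ix m) Ω →+* A),
      emat a = algebraMap _ A ∘ ue m Ω ∧ IsOpenImmersion (spc φ) ∧
      φ.comp MvPolynomial.C = (algebraMap _ A).comp (ut m Ω) ∧
      ∀ i, φ (X (.inr ⟨i, .inl σ⟩)) = eval₂ (algebraMap _ A) a (us w m Ω i) := by
  have hu := IsLocalization.Away.algebraMap_isUnit (S := A) (∏ k, ue m Ω (k, σ k, σ k))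
  rw [map_prod, IsUnit.prod_univ_iff] at hu
  obtain ⟨t, ht⟩ := fm_ex (Ja.jp_map (algebraMap _ A) (ue_jp m Ω)) σ hu
  have hu' (k) : IsUnit (1 - t (k, 0) * t (k, 1)) := by
    rw [← fm_diag σ, ht]
    exact hu k
  let φ : MvPolynomial (XV κ ⊕ Ix m) Ω →+* A := eval₂Hom ((algebraMap _ A).comp (ut m Ω))
    (Sum.elim t (sw w m σ (fm σ t) (algebraMap _ A ∘ uy m Ω)))
  have hC (r) : φ (MvPolynomial.C r) = algebraMap _ A (ut m Ω r) := eval₂Hom_C _ _ _
  have h1 (v) : φ (X (.inl v)) = t v := eval₂Hom_X' _ _ _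
  have h2 (p) : φ (X (.inr p)) = sw w m σ (fm σ t) (algebraMap _ A ∘ uy m Ω) p := eval₂Hom_X' _ _ _
  clear_value φ
  let h : MvPolynomial (XV κ ⊕ Ix m) Ω := ∏ k, (1 - X (.inl (k, 0)) * X (.inl (k, 1)))
  refine ⟨fm σ t, φ, ht, (ZP.open_of_pts (spc φ) (PrimeSpectrum.basicOpen h) (fun y hy => ?_)
    (fun C _ x x' hx => ?_) fun C _ q hq => ?_).1, RingHom.ext hC, fun i => ?_⟩
  · have : IsUnit (φ h) := by
      simp only [h, map_prod, map_sub, map_mul, map_one, h1]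
      exact IsUnit.prod_univ_iff.2 hu'
    exact y.2.ne_top (Ideal.eq_top_of_isUnit_mem _ hy this)
  · obtain ⟨f, rfl⟩ := ZP.exists_spc x
    obtain ⟨g, rfl⟩ := ZP.exists_spc x'
    have hx' : f.comp φ = g.comp φ :=
      ZP.spc_inj ((ZP.spc_spc φ f).symm.trans (hx.trans (ZP.spc_spc φ g)))
    have e (z) : f (φ z) = g (φ z) := RingHom.congr_fun hx' z
    have e1 : f ∘ t = g ∘ t := funext fun v => by
      rw [comp_apply, comp_apply, ← h1, e]
    refine congrArg spc (IsLocalization.ringHom_ext (.powers (∏ k, ue m Ω (k, σ k, σ k)))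
      (u_ext m Ω (RingHom.ext fun r => ?_) ?_ ?_))
    · simp only [RingHom.comp_apply, ← hC, e]
    · have key (f : A →+* C) : (f.comp (algebraMap _ A)) ∘ ue m Ω = emat (fm σ (f ∘ t)) := by
        rw [← map_fm]
        funext v
        exact (congrArg f (congrFun ht v)).symm.trans (map_mul f _ _)
      rw [key, key, e1]
    · refine (sw_bij w m σ (t := f ∘ t) fun k => by simpa using (hu' k).map f).1 ?_
      have key (f : A →+* C) : sw w m σ (fm σ (f ∘ t)) ((f.comp (algebraMap _ A)) ∘ uy m Ω) =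
          fun p => f (φ (X (.inr p))) := by
        rw [← map_fm]
        exact (map_sw w m f σ _ _).symm.trans (funext fun p => congrArg f (h2 p).symm)
      rw [key, e1, key]
      exact funext fun p => e (X (.inr p))
  · obtain ⟨q, rfl⟩ := ZP.exists_spc q
    have hq' := unit_of_pts q h hq
    simp only [h, map_prod, map_sub, map_mul, map_one, IsUnit.prod_univ_iff] at hq'
    let t' : XV κ → C := fun v => q (X (.inl v))
    obtain ⟨y, hy⟩ := (sw_bij w m σ (t := t') hq').2 fun p => q (X (.inr p))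
    obtain ⟨ψ, p1, p2, p3⟩ := u_lift m Ω (q.comp MvPolynomial.C) (Ja.jp_of_rel (fm_rel σ t')) y
    have hψ : IsUnit (ψ (∏ k, ue m Ω (k, σ k, σ k))) := by
      rw [map_prod, IsUnit.prod_univ_iff]
      exact fun k => (congrArg IsUnit ((congrFun p2 _).trans (fm_diag σ t' k))).mpr (hq' k)
    let f : A →+* C := IsLocalization.Away.lift _ hψ
    have hf (r) : f (algebraMap _ A r) = ψ r := IsLocalization.Away.lift_eq _ hψ r
    have e1 : t' = f ∘ t := fm_inj σ hq' (by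
      rw [← p2, ← map_fm]
      funext v
      exact ((hf _).symm.trans (congrArg f (congrFun ht v)).symm).trans (map_mul f _ _))
    refine ⟨spc f, (ZP.spc_spc _ _).trans (congrArg spc (MvPolynomial.ringHom_ext (fun r => ?_) ?_))⟩
    · exact (congrArg f (hC r)).trans ((hf _).trans (RingHom.congr_fun p1 r))
    · rintro (v | p)
      · exact (congrArg f (h1 v)).trans (congrFun e1 v).symm
      · refine (congrArg f (h2 p)).trans ((congrFun (map_sw w m f σ _ _) p).trans ?_)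
        rw [map_fm, ← e1, ← congrFun hy p, ← p3]
        congr 1
        exact funext fun v => hf _
  · rw [h2, us_eval]
    exact if_pos rfl

theorem split {β γ : Type} [Finite γ] (c : β → γ) (hc : Injective c) :
    ∃ (τ : Type) (_ : Finite τ) (e : MvPolynomial τ (MvPolynomial β Ω) ≃+* MvPolynomial γ Ω),
      (∀ r, e (MvPolynomial.C (MvPolynomial.C r)) = MvPolynomial.C r) ∧
      ∀ b, e (MvPolynomial.C (X b)) = X (c b) := by
  classical
  let ε : {x // x ∉ Set.range c} ⊕ β ≃ γ :=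
    ((Equiv.refl _).sumCongr (Equiv.ofInjective c hc)).trans
      ((Equiv.sumComm _ _).trans (Equiv.sumCompl (· ∈ Set.range c)))
  let e := (sumAlgEquiv Ω {x // x ∉ Set.range c} β).symm.trans (renameEquiv Ω ε)
  refine ⟨_, inferInstance, e.toRingEquiv, fun r => e.commutes r, fun b => ?_⟩
  have : (sumAlgEquiv Ω {x // x ∉ Set.range c} β).symm (MvPolynomial.C (X b)) = X (.inr b) :=
    (AlgEquiv.symm_apply_eq _).2 (sumRingEquiv_X_inr Ω _ β b).symm
  exact (congrArg (renameEquiv Ω ε) this).trans (rename_X _ _)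

/-- The same, with the values of a subfamily as the inner variables. -/
theorem chart' [Finite ι] {β : Type} (c : β → ι) (hc : Injective c) (σ : κ → Fin 2) (A : Type)
    [CommRing A] [Algebra (UU m Ω) A] [IsLocalization.Away (∏ k, ue m Ω (k, σ k, σ k)) A] :
    ∃ (τ : Type) (_ : Finite τ) (a : XY κ → A) (φ : MvPolynomial τ (MvPolynomial β Ω) →+* A),
      emat a = algebraMap _ A ∘ ue m Ω ∧ IsOpenImmersion (spc φ) ∧
      (∀ r, φ (MvPolynomial.C (MvPolynomial.C r)) = algebraMap _ A (ut m Ω r)) ∧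
      ∀ b, φ (MvPolynomial.C (X b)) = eval₂ (algebraMap _ A) a (us w m Ω (c b)) := by
  obtain ⟨a, φ, h1, h2, h3, h4⟩ := chart w m Ω σ A
  obtain ⟨τ, _, e, e1, e2⟩ := split Ω (γ := XV κ ⊕ Ix m) (fun b => .inr ⟨c b, .inl σ⟩)
    fun b b' h => hc (congrArg Sigma.fst (Sum.inr.inj h))
  refine ⟨τ, ‹_›, a, φ.comp e.toRingHom, h1, ?_, fun r => ?_, fun b => ?_⟩
  · have : IsIso (spc e.toRingHom) := inferInstanceAs (IsIso (Spec.map e.toCommRingCatIso.hom))
    rw [← ZP.spc_spc]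
    infer_instance
  · exact (congrArg φ (e1 r)).trans (RingHom.congr_fun h3 r)
  · exact (congrArg φ (e2 b)).trans (h4 _)

end Pool.Agent.MP_855f4c_ag.T.Matg

end

end

section

/-! h14a, head of section 3: products of classes with supports, iterated products, Gysin maps. -/

set_option autoImplicit false
set_option backward.isDefEq.respectTransparency false

open CategoryTheory Limits Abelian Opposite AlgebraicGeometry Function

namespace Pool.Agent.MP_855f4c_ag.T.Star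

open E E3 E4 Pbc Tel Cb

section abs
variable {C D D' D₂ : Type 2} [Category.{1} C] [Abelian C] [Category.{1} D] [Abelian D]
  [Category.{1} D'] [Abelian D'] [Category.{1} D₂] [Abelian D₂] [HasExt.{1} C] [HasExt.{1} D]
  [HasExt.{1} D'] [HasExt.{1} D₂] [EnoughInjectives C]

lemma nat1 (G : C ⥤ C) [G.Additive] [PreservesFiniteLimits G] [PreservesFiniteColimits G]
    (η : ∀ A : C, A ⟶ G.obj A) (hη : ∀ {A B : C} (f : A ⟶ B), f ≫ η B = η A ≫ G.map f)
    {A B : C} {n : ℕ} (x : Ext A B n) :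
    post _ (η B) n x = pre (η A) _ n (x.mapExactFunctor G) := by
  refine ext_ind A (fun B n x => post _ (η B) n x =
      pre (η A) _ n (x.mapExactFunctor G)) (fun B f => ?_) (fun S hS n y ih => ?_) n B x
  · simp only [post_apply, pre_apply, Ext.mapExactFunctor_mk₀, Ext.mk₀_comp_mk₀, hη]
  · change post _ _ _ (dl A hS n y) = pre _ _ _ ((dl A hS n y).mapExactFunctor G)
    rw [map_dl]
    refine Eq.trans ?_ (pre_dl _ (hS.map_of_exact G) _).symm
    exact (post_dl hS (hS.map_of_exact G)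
      ⟨η _, η _, η _, (hη _).symm, (hη _).symm⟩ _).trans (congrArg _ ih)

lemma nat3 (K : C ⥤ D') (F : C ⥤ D) (G : D ⥤ D') [F.Additive] [G.Additive] [K.Additive]
    [PreservesFiniteLimits F] [PreservesFiniteColimits F] [PreservesFiniteLimits G]
    [PreservesFiniteColimits G] [PreservesFiniteLimits K] [PreservesFiniteColimits K]
    (η : ∀ A : C, K.obj A ⟶ G.obj (F.obj A))
    (hη : ∀ {A B : C} (f : A ⟶ B), K.map f ≫ η B = η A ≫ G.map (F.map f)) {A B : C} {n : ℕ}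
    (x : Ext A B n) : post _ (η B) n (x.mapExactFunctor K) =
      pre (η A) _ n ((x.mapExactFunctor F).mapExactFunctor G) := by
  refine ext_ind A (fun B n x => post _ (η B) n (x.mapExactFunctor K) =
      pre (η A) _ n ((x.mapExactFunctor F).mapExactFunctor G)) (fun B f => ?_)
      (fun S hS n y ih => ?_) n B x
  · simp only [post_apply, pre_apply, Ext.mapExactFunctor_mk₀, Ext.mk₀_comp_mk₀, hη]
  · change post _ _ _ ((dl A hS n y).mapExactFunctor K) =
      pre _ _ _ (((dl A hS n y).mapExactFunctor F).mapExactFunctor G)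
    rw [map_dl, map_dl, map_dl]
    refine Eq.trans ?_ (pre_dl _ ((hS.map_of_exact F).map_of_exact G) _).symm
    exact (post_dl (hS.map_of_exact K) ((hS.map_of_exact F).map_of_exact G)
      ⟨η _, η _, η _, (hη _).symm, (hη _).symm⟩ _).trans (congrArg _ ih)

lemma nat4 (F : C ⥤ D) (G : D ⥤ D') (F' : C ⥤ D₂) (G' : D₂ ⥤ D') [F.Additive] [G.Additive]
    [F'.Additive] [G'.Additive] [PreservesFiniteLimits F] [PreservesFiniteColimits F]
    [PreservesFiniteLimits G] [PreservesFiniteColimits G] [PreservesFiniteLimits F']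
    [PreservesFiniteColimits F'] [PreservesFiniteLimits G'] [PreservesFiniteColimits G']
    (η : ∀ A : C, G.obj (F.obj A) ⟶ G'.obj (F'.obj A))
    (hη : ∀ {A B : C} (f : A ⟶ B), G.map (F.map f) ≫ η B = η A ≫ G'.map (F'.map f)) {A B : C}
    {n : ℕ} (x : Ext A B n) : post _ (η B) n ((x.mapExactFunctor F).mapExactFunctor G) =
      pre (η A) _ n ((x.mapExactFunctor F').mapExactFunctor G') := by
  refine ext_ind A (fun B n x => post _ (η B) n ((x.mapExactFunctor F).mapExactFunctor G) =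
      pre (η A) _ n ((x.mapExactFunctor F').mapExactFunctor G')) (fun B f => ?_)
      (fun S hS n y ih => ?_) n B x
  · simp only [post_apply, pre_apply, Ext.mapExactFunctor_mk₀, Ext.mk₀_comp_mk₀, hη]
  · change post _ _ _ (((dl A hS n y).mapExactFunctor F).mapExactFunctor G) =
      pre _ _ _ (((dl A hS n y).mapExactFunctor F').mapExactFunctor G')
    rw [map_dl, map_dl, map_dl, map_dl]
    refine Eq.trans ?_ (pre_dl _ ((hS.map_of_exact F').map_of_exact G') _).symm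
    exact (post_dl ((hS.map_of_exact F).map_of_exact G) ((hS.map_of_exact F').map_of_exact G')
      ⟨η _, η _, η _, (hη _).symm, (hη _).symm⟩ _).trans (congrArg _ ih)

end abs

variable {T T' T'' : Scheme.{0}}

instance (O : T.Opens) : PreservesFiniteLimits (QU O) :=
  (Functor.preservesFiniteLimits_iff_forall_exact_map_and_mono _).2 fun _ hS =>
    ⟨((isQ O).shortExact hS).exact, ((isQ O).shortExact hS).mono_f⟩

instance (O : T.Opens) : PreservesFiniteColimits (QU O) := ⟨fun J _ _ => (isQ O).colim J⟩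

/-! ### Maps that vanish on an open part -/

/-- `φ` vanishes on all schemes that map into `O`. -/
def Van {F G : Sh (Scheme.etaleTopology.over T)} (φ : F ⟶ G) (O : T.Opens) : Prop :=
  ∀ (V : Over T), (∀ t, V.hom t ∈ O) → ∀ s, φ.hom.app (op V) s = 0

section van
variable {F G K : Sh (Scheme.etaleTopology.over T)} {φ : F ⟶ G} {U O W : T.Opens}

lemma Van.mono (h : Van φ O) (e : U ≤ O) : Van φ U := fun V hV => h V fun t => e (hV t)

lemma Van.comp (h : Van φ O) (ψ : G ⟶ K) : Van (φ ≫ ψ) O := fun V hV s =>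
  (congrArg (ψ.hom.app (op V)) (h V hV s)).trans (map_zero _)

lemma Van.pre (h : Van φ O) (ψ : K ⟶ F) : Van (ψ ≫ φ) O := fun V hV _ => h V hV _

lemma Van.sup (h : Van φ U) (h' : Van φ O) : Van φ (U ⊔ O) := fun V hV s =>
  sepP G.property _ ⟨fun Y y => G.obj.map y.op (φ.hom.app (op V) s) = 0,
      fun {Y Z y} h g => by rw [← res_res, h, map_zero]⟩
    (mem_Jov_of _ fun t => (hV t).elim
      (fun e => ⟨_, opι V (V.hom ⁻¹ᵁ U), inferInstanceAs (Etale (V.hom ⁻¹ᵁ U).ι),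
        (nat φ.hom _ s).symm.trans (h (opn V (V.hom ⁻¹ᵁ U)) (fun z => z.2) _), ⟨t, e⟩, rfl⟩)
      (fun e => ⟨_, opι V (V.hom ⁻¹ᵁ O), inferInstanceAs (Etale (V.hom ⁻¹ᵁ O).ι),
        (nat φ.hom _ s).symm.trans (h' (opn V (V.hom ⁻¹ᵁ O)) (fun z => z.2) _), ⟨t, e⟩, rfl⟩))
    fun _ _ h => h

lemma van_pr (O : T.Opens) (F : Sh (Scheme.etaleTopology.over T)) : Van (pr O F) O := by
  intro V hV s
  obtain ⟨s, rfl⟩ := (ezι_bij O F hV).2 s
  exact congrArg (fun a => a.hom.app (op V) s) ((isQ O).w F)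

lemma Van.pb (h : Van φ O) (g : T' ⟶ T) : Van ((pbe g).map φ) (g ⁻¹ᵁ O) := fun V hV s =>
  h ((Over.map g).obj V) hV s

lemma Van.desc (h : Van φ O) : ∃ ψ : (QU O).obj F ⟶ G, pr O F ≫ ψ = φ :=
  (isQ O).desc φ (by
    ext V s
    exact h _ (fun t => (V.unop.hom t).2) s)

open Classical in
/-- The map induced on the quotient. -/
noncomputable def dq (O : T.Opens) (φ : F ⟶ G) : (QU O).obj F ⟶ G :=
  if h : ∃ ψ : (QU O).obj F ⟶ G, pr O F ≫ ψ = φ then h.choose else 0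

@[reassoc]
lemma pr_dq (h : Van φ O) : pr O F ≫ dq O φ = φ := by
  rw [dq, dif_pos h.desc]
  exact h.desc.choose_spec

end van

/-! ### Comparison maps -/

section cmpm
variable {U O P V W : T.Opens} (F : Sh (Scheme.etaleTopology.over T))

/-- Change of supports. -/
noncomputable def csF (W U : T.Opens) : (QU W).obj F ⟶ (QU U).obj F := dq W (pr U F)

/-- The map to the iterated quotient. -/
noncomputable def smF (W U O : T.Opens) : (QU W).obj F ⟶ (QU O).obj ((QU U).obj F) :=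
  dq W (pr U F ≫ pr O _)

/-- The map to the pull-back of a quotient. -/
noncomputable def nuF (g : T' ⟶ T) (O' : T'.Opens) (O : T.Opens) :
    (QU O').obj ((pbe g).obj F) ⟶ (pbe g).obj ((QU O).obj F) := dq O' ((pbe g).map (pr O F))

@[reassoc]
lemma pr_csF (h : W ≤ U) : pr W F ≫ csF F W U = pr U F := pr_dq ((van_pr U F).mono h)

@[reassoc]
lemma pr_smF (h : W ≤ U ⊔ O) : pr W F ≫ smF F W U O = pr U F ≫ pr O _ :=
  pr_dq ((((van_pr U F).comp _).sup ((van_pr O _).pre _)).mono h)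

@[reassoc]
lemma pr_nuF (g : T' ⟶ T) {O' : T'.Opens} (h : O' ≤ g ⁻¹ᵁ O) :
    pr O' _ ≫ nuF F g O' O = (pbe g).map (pr O F) := pr_dq (((van_pr O F).pb g).mono h)

variable {F} {G : Sh (Scheme.etaleTopology.over T)}

lemma smF_nat (h : W ≤ U ⊔ O) (f : F ⟶ G) :
    (QU W).map f ≫ smF G W U O = smF F W U O ≫ (QU O).map ((QU U).map f) := by
  rw [← cancel_epi (pr W F), pr_nat_assoc, pr_smF _ h, pr_smF_assoc _ h, pr_nat, pr_nat_assoc]

lemma nuF_nat (g : T' ⟶ T) {O' : T'.Opens} (h : O' ≤ g ⁻¹ᵁ O) (f : F ⟶ G) :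
    (QU O').map ((pbe g).map f) ≫ nuF G g O' O = nuF F g O' O ≫ (pbe g).map ((QU O).map f) := by
  rw [← cancel_epi (pr O' _), pr_nat_assoc, pr_nuF _ g h, pr_nuF_assoc _ g h, ← Functor.map_comp,
    ← Functor.map_comp, pr_nat]

end cmpm

/-! ### The product -/

variable {l : ℕ} [Fact l.Prime]

section star
variable {U U' O O' P V V' W W' : T.Opens} {G G' : Sh (Scheme.etaleTopology.over T)}

variable (l) in
/-- Change of supports. -/
noncomputable def cs (W U : T.Opens) : AU l W ⟶ AU l U := csF (Linf l T) W U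

variable (l) in
/-- The map `A_W ⟶ Q_O A_U`. -/
noncomputable def sm (W U O : T.Opens) : AU l W ⟶ (QU O).obj (AU l U) := smF (Linf l T) W U O

@[reassoc]
lemma π_cs (h : W ≤ U) : πU l W ≫ cs l W U = πU l U := pr_csF _ h

@[reassoc]
lemma π_sm (h : W ≤ U ⊔ O) : πU l W ≫ sm l W U O = πU l U ≫ pr O _ := pr_smF _ h

lemma cs_self (W : T.Opens) : cs l W W = 𝟙 _ := by
  rw [← cancel_epi (πU l W), π_cs le_rfl, Category.comp_id]

@[reassoc]
lemma cs_cs (h : W ≤ V) (h' : V ≤ U) : cs l W V ≫ cs l V U = cs l W U := by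
  rw [← cancel_epi (πU l W), π_cs_assoc h, π_cs h', π_cs (h.trans h')]

lemma cs_uniq {a : AU l W ⟶ AU l U} (h : W ≤ U) (e : πU l W ≫ a = πU l U) : a = cs l W U := by
  rw [← cancel_epi (πU l W), π_cs h, e]

/-- The image of a class under the exact functor `Q_O`. -/
noncomputable def qm (O : T.Opens) {A : Sh (Scheme.etaleTopology.over T)} {m : ℕ}
    (x : Ext.{1} A (Linf l T) m) : Ext.{1} ((QU O).obj A) (AU l O) m := x.mapExactFunctor (QU O)

lemma qm_π (O : T.Opens) {A : Sh (Scheme.etaleTopology.over T)} {m : ℕ}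
    (x : Ext.{1} A (Linf l T) m) : pre (pr O A) _ m (qm O x) = post _ (πU l O) m x :=
  (nat1 (QU O) (fun A => pr O A) (fun f => (pr_nat O f).symm) x).symm

lemma qm_pre (O : T.Opens) {A B : Sh (Scheme.etaleTopology.over T)} (u : B ⟶ A) {m : ℕ}
    (x : Ext.{1} A (Linf l T) m) : qm O (pre u _ m x) = pre ((QU O).map u) _ m (qm O x) :=
  map_pre (QU O) u x

/-- The product of classes with supports. -/
noncomputable def star (W : T.Opens) {m n k : ℕ} (x : Ext.{1} (AU l U) (Linf l T) m)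
    (θ : Ext.{1} (AU l O) G n) (h : m + n = k) : Ext.{1} (AU l W) G k :=
  (pre (sm l W U O) _ m (qm O x)).comp θ h

/-- The action of absolute classes on classes with supports. -/
noncomputable def act {m n k : ℕ} (y : EE l T m) (θ : Ext.{1} (AU l O) G n) (h : m + n = k) :
    Ext.{1} (AU l O) G k := Ext.comp (X := AU l O) (qm O y) θ h

variable {m n k m' n' k' q : ℕ}

lemma star_add_left (x x' : Ext.{1} (AU l U) (Linf l T) m) (θ : Ext.{1} (AU l O) G n)
    (h : m + n = k) : star W (x + x') θ h = star W x θ h + star W x' θ h := by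
  rw [star, star, star, qm, Ext.mapExactFunctor_add, map_add, Ext.add_comp]; rfl

lemma star_add_right (x : Ext.{1} (AU l U) (Linf l T) m) (θ θ' : Ext.{1} (AU l O) G n)
    (h : m + n = k) : star W x (θ + θ') h = star W x θ h + star W x θ' h := Ext.comp_add _ _ _ _

/-- The product as an additive map in the second variable. -/
noncomputable def starR (W O : T.Opens) (G : Sh (Scheme.etaleTopology.over T))
    (x : Ext.{1} (AU l U) (Linf l T) m) (h : m + n = k) :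
    Ext.{1} (AU l O) G n →+ Ext.{1} (AU l W) G k :=
  AddMonoidHom.mk' (fun θ => star W x θ h) fun θ θ' => star_add_right x θ θ' h

/-- If the support of `θ` is not used, the product is a composition. -/
lemma star_left (h₁ : W ≤ U) (x : Ext.{1} (AU l U) (Linf l T) m) (θ : Ext.{1} (AU l O) G n)
    (h : m + n = k) :
    star W x θ h = (pre (cs l W U) _ m x).comp (pre (πU l O) _ n θ) h := by
  have e : sm l W U O = cs l W U ≫ pr O _ := by
    rw [← cancel_epi (πU l W), π_sm (h₁.trans le_sup_left), π_cs_assoc h₁]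
  rw [star, e, ← pre_pre, qm_π, comp_pre, pre_post]

/-- If the support of `x` is not used, the product is the action. -/
lemma star_right (h₁ : W ≤ O) (x : Ext.{1} (AU l U) (Linf l T) m) (θ : Ext.{1} (AU l O) G n)
    (h : m + n = k) :
    star W x θ h = pre (cs l W O) _ k (act (pre (πU l U) _ m x) θ h) := by
  have e : sm l W U O = cs l W O ≫ (QU O).map (πU l U) := by
    rw [← cancel_epi (πU l W), π_sm (h₁.trans le_sup_right), π_cs_assoc h₁]
    exact (pr_nat O _).symm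
  rw [star, act, e, pre_comp, qm_pre]
  exact congrArg (Ext.comp · θ h) (pre_pre _ _ _).symm

/-- Associativity. -/
lemma star_assoc (h₁ : V ≤ U ⊔ O) (h₂ : W ≤ V ⊔ P) (h₃ : V' ≤ O ⊔ P) (h₄ : W ≤ U ⊔ V')
    (x : Ext.{1} (AU l U) (Linf l T) m) (y : Ext.{1} (AU l O) (Linf l T) n)
    (z : Ext.{1} (AU l P) G q) (h : m + n = k) (h' : k + q = k') (hn : n + q = n')
    (hk : m + n' = k') : star W (star V x y h) z h' = star W x (star V' y z hn) hk := by
  have e : sm l W V P ≫ (QU P).map (sm l V U O) = sm l W U V' ≫ smF (AU l U) V' O P := by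
    rw [← cancel_epi (πU l W), π_sm_assoc h₂, pr_nat, π_sm_assoc h₁, π_sm_assoc h₄, pr_smF _ h₃]
  have e2 : post _ (sm l V' O P) m (qm V' x) =
      pre (smF (AU l U) V' O P) _ m ((qm O x).mapExactFunctor (QU P)) :=
    nat3 (QU V') (QU O) (QU P) (fun A => smF A V' O P) (fun f => smF_nat h₃ f) x
  have e3 : qm P (star V x y h) =
      (pre ((QU P).map (sm l V U O)) _ m ((qm O x).mapExactFunctor (QU P))).comp (qm P y) h := by
    rw [star, qm, Ext.mapExactFunctor_comp, map_pre]; rfl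
  rw [star, e3, pre_comp, pre_pre, e, ← pre_pre, ← e2, pre_post, star, star,
    ← Ext.comp_assoc _ _ _ h hn (by omega), comp_pre]

end star

/-! ### Pull-backs -/

section pull
variable {A B G K : Sh (Scheme.etaleTopology.over T)} {A' B' G' K' : Sh (Scheme.etaleTopology.over T')}
  {A'' G'' : Sh (Scheme.etaleTopology.over T'')} {m n k : ℕ}

/-- Pull-back of classes with comparison maps in both variables. -/
noncomputable def kp (g : T' ⟶ T) (a : A' ⟶ (pbe g).obj A) (c : (pbe g).obj G ⟶ G') (n : ℕ) :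
    Ext.{1} A G n →+ Ext.{1} A' G' n := (post A' c n).comp (cmp (pbe g) a G n)

lemma kp_apply (g : T' ⟶ T) (a : A' ⟶ (pbe g).obj A) (c : (pbe g).obj G ⟶ G') (x : Ext.{1} A G n) :
    kp g a c n x = post _ c n (pre a _ n (x.mapExactFunctor (pbe g))) := rfl

lemma kp_gpb (g : T' ⟶ T) (a : A' ⟶ (pbe g).obj A) (n : ℕ) :
    kp g a (lpb l g).hom n = gpb l g a n := rfl

lemma kp_comp (g : T' ⟶ T) (a : A' ⟶ (pbe g).obj A) (c : (pbe g).obj G ⟶ G')
    (b : G' ⟶ (pbe g).obj G) (e : c ≫ b = 𝟙 _) (d : (pbe g).obj K ⟶ K') (x : Ext.{1} A G m)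
    (y : Ext.{1} G K n) (h : m + n = k) :
    kp g a d k (x.comp y h) = (kp g a c m x).comp (kp g b d n y) h := by
  rw [kp_apply, kp_apply, kp_apply, Ext.mapExactFunctor_comp, pre_comp, post_comp,
    ← pre_post b, comp_pre, post_post, e, post_id]

lemma pre_kp (g : T' ⟶ T) {a : A' ⟶ (pbe g).obj A} {b : B' ⟶ (pbe g).obj B} {u : B ⟶ A}
    {u' : B' ⟶ A'} (h : u' ≫ a = b ≫ (pbe g).map u) (c : (pbe g).obj G ⟶ G') (x : Ext.{1} A G n) :
    pre u' _ n (kp g a c n x) = kp g b c n (pre u _ n x) := by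
  rw [kp_apply, kp_apply, map_pre, pre_post, pre_pre, pre_pre, h]

lemma post_kp (g : T' ⟶ T) (a : A' ⟶ (pbe g).obj A) {c : (pbe g).obj G ⟶ G'}
    {d : (pbe g).obj K ⟶ K'} {u : G ⟶ K} {u' : G' ⟶ K'} (h : c ≫ u' = (pbe g).map u ≫ d)
    (x : Ext.{1} A G n) : post _ u' n (kp g a c n x) = kp g a d n (post _ u n x) := by
  rw [kp_apply, kp_apply, map_post, pre_post, post_post, post_post, h]

lemma kp_kp (g' : T'' ⟶ T') (g : T' ⟶ T) (a' : A'' ⟶ (pbe g').obj A') (a : A' ⟶ (pbe g).obj A)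
    (c' : (pbe g').obj G' ⟶ G'') (c : (pbe g).obj G ⟶ G') (x : Ext.{1} A G n) :
    kp g' a' c' n (kp g a c n x) = kp (g' ≫ g) (a' ≫ (pbe g').map a ≫ (pc g' g A).hom)
      ((pc g' g G).inv ≫ (pbe g').map c ≫ c') n x := by
  rw [kp_apply, kp_apply, kp_apply, map_post, map_pre, pre_post, post_post, pre_pre,
    ← Category.assoc a', ← pre_pre _ (pc g' g A).hom,
    ← nat_comp (pbe g) (pbe g') (pbe (g' ≫ g)) (fun A => (pc g' g A).hom) (pc_nat g' g),
    pre_post, post_post, Iso.hom_inv_id_assoc]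

variable {U O W : T.Opens} {U' O' W' : T'.Opens}

/-- Naturality of the product. -/
lemma kp_star (g : T' ⟶ T) (h₁ : W ≤ U ⊔ O) (h₂ : W' ≤ U' ⊔ O') (h₃ : O' ≤ g ⁻¹ᵁ O)
    {aW : AU l W' ⟶ (pbe g).obj (AU l W)} {aU : AU l U' ⟶ (pbe g).obj (AU l U)}
    {aO : AU l O' ⟶ (pbe g).obj (AU l O)} (hW : Rp l g W' W aW) (hU : Rp l g U' U aU)
    (hO : Rp l g O' O aO) (c : (pbe g).obj G ⟶ G') (x : Ext.{1} (AU l U) (Linf l T) m)
    (θ : Ext.{1} (AU l O) G n) (h : m + n = k) :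
    kp g aW c k (star W x θ h) = star W' (gpb l g aU m x) (kp g aO c n θ) h := by
  have e1 : (QU O').map (lpb l g).hom ≫ aO = nuF (Linf l T) g O' O := by
    rw [← cancel_epi (pr O' _), pr_nat_assoc, pr_nuF _ g h₃]
    exact (congrArg (_ ≫ ·) hO).trans (Iso.hom_inv_id_assoc _ _)
  have e2 : sm l W' U' O' ≫ (QU O').map aU ≫ nuF (AU l U) g O' O =
      aW ≫ (pbe g).map (sm l W U O) := by
    rw [← cancel_epi (πU l W'), π_sm_assoc h₂, pr_nat_assoc, pr_nuF _ g h₃, reassoc_of% hU,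
      reassoc_of% hW, ← Functor.map_comp, ← Functor.map_comp, π_sm h₁]
  have e3 := nat4 (pbe g) (QU O') (QU O) (pbe g) (fun A => nuF A g O' O)
    (fun f => nuF_nat g h₃ f) x
  have e4 : post _ aO m (qm O' (gpb l g aU m x)) = pre ((QU O').map aU ≫ nuF (AU l U) g O' O) _ m
      ((qm O x).mapExactFunctor (pbe g)) := by
    rw [gpb_apply, qm, map_post, map_pre, ← pre_pre]
    refine (post_post _ _ _).trans ?_
    rw [e1, ← pre_post]
    exact congrArg _ e3
  rw [star, star, kp_apply, kp_apply, Ext.mapExactFunctor_comp, map_pre, pre_comp, pre_pre, ← e2,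
    ← post_comp, comp_pre, ← pre_post, e4, pre_pre]

lemma gpb_star (g : T' ⟶ T) (h₁ : W ≤ U ⊔ O) (h₂ : W' ≤ U' ⊔ O') (h₃ : O' ≤ g ⁻¹ᵁ O)
    {aW : AU l W' ⟶ (pbe g).obj (AU l W)} {aU : AU l U' ⟶ (pbe g).obj (AU l U)}
    {aO : AU l O' ⟶ (pbe g).obj (AU l O)} (hW : Rp l g W' W aW) (hU : Rp l g U' U aU)
    (hO : Rp l g O' O aO) (x : Ext.{1} (AU l U) (Linf l T) m)
    (θ : Ext.{1} (AU l O) (Linf l T) n) (h : m + n = k) :
    gpb l g aW k (star W x θ h) = star W' (gpb l g aU m x) (gpb l g aO n θ) h :=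
  kp_star g h₁ h₂ h₃ hW hU hO _ x θ h

open Classical in
variable (l) in
/-- The comparison map of the quotients. -/
noncomputable def rp (g : T' ⟶ T) (O' : T'.Opens) (O : T.Opens) : AU l O' ⟶ (pbe g).obj (AU l O) :=
  if h : ∃ a, Rp l g O' O a then h.choose else 0

lemma Rp_rp (g : T' ⟶ T) (h : O' ≤ g ⁻¹ᵁ O) : Rp l g O' O (rp l g O' O) := by
  rw [rp, dif_pos (exRp g h)]
  exact (exRp g h).choose_spec

lemma cs_Rp (g : T' ⟶ T) {a : AU l O' ⟶ (pbe g).obj (AU l O)} {b : AU l U' ⟶ (pbe g).obj (AU l U)}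
    (ha : Rp l g O' O a) (hb : Rp l g U' U b) (h' : U' ≤ O') (h : U ≤ O) :
    cs l U' O' ≫ a = b ≫ (pbe g).map (cs l U O) := by
  rw [← cancel_epi (πU l U'), π_cs_assoc h', ha, reassoc_of% hb, ← Functor.map_comp, π_cs h]

lemma cs_gpb (g : T' ⟶ T) {a : AU l O' ⟶ (pbe g).obj (AU l O)} {b : AU l U' ⟶ (pbe g).obj (AU l U)}
    (ha : Rp l g O' O a) (hb : Rp l g U' U b) (h' : U' ≤ O') (h : U ≤ O)
    (x : Ext.{1} (AU l O) (Linf l T) n) :
    pre (cs l U' O') _ n (gpb l g a n x) = gpb l g b n (pre (cs l U O) _ n x) :=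
  gpb_pre g (cs_Rp g ha hb h' h) x

lemma gpb_one {a : AU l W ⟶ (pbe (𝟙 T)).obj (AU l U)} (ha : Rp l (𝟙 T) W U a) (h : W ≤ U)
    (x : Ext.{1} (AU l U) (Linf l T) n) : gpb l (𝟙 T) a n x = pre (cs l W U) _ n x := by
  rw [gpb_id, cs_uniq (a := a ≫ (pi _).hom) h (by rw [reassoc_of% ha, pi_nat, reassoc_of% lpb_pi])]

end pull

/-! ### Gysin maps -/

section gysin
variable {D D' : Scheme.{0}} {O U W : T.Opens} {A B G G₁ : Sh (Scheme.etaleTopology.over T)}
  {A' B' : Sh (Scheme.etaleTopology.over D)} {m n k q : ℕ}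

lemma isIso_π (i : D ⟶ T) (h : ∀ d, i d ∉ O) : IsIso ((pbe i).map (πU l O)) := by
  have h2 := (πU_exact (l := l) O).map_of_exact (pbe i)
  refine h2.isIso_g_iff.2 (IsZero.of_iso (isZero_zero _) ?_)
  refine IsZero.isoZero ((IsZero.iff_id_eq_zero _).2 ?_)
  ext V s
  exact Subtype.ext (CLZ.van (W := (Over.map i).obj V.unop) (fun t => h _) s)

open Classical in
variable (l) in
/-- The identification `i^* A_O = L`. -/
noncomputable def ci (i : D ⟶ T) (O : T.Opens) : (pbe i).obj (AU l O) ⟶ Linf l D :=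
  if _h : IsIso ((pbe i).map (πU l O)) then inv ((pbe i).map (πU l O)) ≫ (lpb l i).hom else 0

@[reassoc]
lemma π_ci (i : D ⟶ T) (h : ∀ d, i d ∉ O) : (pbe i).map (πU l O) ≫ ci l i O = (lpb l i).hom := by
  rw [ci, dif_pos (isIso_π i h), IsIso.hom_inv_id_assoc]

lemma ci_π (i : D ⟶ T) (h : ∀ d, i d ∉ O) :
    ci l i O ≫ (lpb l i).inv ≫ (pbe i).map (πU l O) = 𝟙 _ := by
  have := isIso_π (l := l) i h
  rw [← cancel_epi ((pbe i).map (πU l O)), π_ci_assoc i h, Iso.hom_inv_id_assoc, Category.comp_id]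

variable (l) in
/-- `i` is a closed immersion with complement `O`. -/
structure Cl (i : D ⟶ T) (O : T.Opens) : Prop where
  cl : IsClosedImmersion i
  mem : ∀ x : T, x ∈ O ↔ x ∉ Set.range i
  inv : Linv l T

omit [Fact l.Prime] in
lemma Cl.out {i : D ⟶ T} (h : Cl l i O) (d : D) : i d ∉ O := fun e => (h.mem _).1 e ⟨d, rfl⟩

/-- Restriction of classes with values in `A_O`. -/
theorem psi_bij {i : D ⟶ T} (h : Cl l i O) (a : A' ⟶ (pbe i).obj A) [IsIso a] (n : ℕ) :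
    Bijective (kp i a (ci l i O) n) := by
  have := h.cl
  have := CLZ.iso i h.mem h.inv (G0.linf_Tc l T).1
  let e : AU l O ⟶ (pf i).obj (Linf l D) :=
    cokernel.desc _ _ (CLZ.w i (fun x => (h.mem x).1) _) ≫ (pf i).map (lpb l i).hom
  have : IsIso e := IsIso.comp_isIso' this inferInstance
  have e1 : (pbpf i).unit.app (AU l O) ≫ (pf i).map (ci l i O) = e := by
    rw [← cancel_epi (πU l O)]
    refine ((pbpf i).unit.naturality_assoc _ _).trans ?_
    refine Eq.trans ?_ (cokernel.π_desc_assoc _ _ _ _).symm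
    exact congrArg (_ ≫ ·) (((pf i).map_comp _ _).symm.trans (congrArg _ (π_ci i h.out)))
  refine (Bijective.of_comp_iff' (CLZ.adj_bij i (asIso a).symm (Linf l D) n) _).1 ?_
  refine (congrArg Bijective (funext fun y => ?_)).mpr (post_bij A e n)
  exact (CLZ.adj_pb i (asIso a).symm (ci l i O) n y).trans (congrArg (fun u => post A u n y) e1)

/-- The inverse of the restriction. -/
noncomputable def ps {i : D ⟶ T} (h : Cl l i O) (a : A' ⟶ (pbe i).obj A) [IsIso a] (n : ℕ) :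
    Ext.{1} A (AU l O) n ≃+ Ext.{1} A' (Linf l D) n := AddEquiv.ofBijective _ (psi_bij h a n)

/-- The Gysin map of a class with supports. -/
noncomputable def Gy {i : D ⟶ T} (h : Cl l i O) (a : A' ⟶ (pbe i).obj A) [IsIso a]
    (θ : Ext.{1} (AU l O) G n) (e : m + n = k) : Ext.{1} A' (Linf l D) m →+ Ext.{1} A G k :=
  (θ.postcomp A e).comp (ps h a m).symm.toAddMonoidHom

variable {i : D ⟶ T} (h : Cl l i O) (a : A' ⟶ (pbe i).obj A) [IsIso a]

lemma Gy_ps (θ : Ext.{1} (AU l O) G n) (e : m + n = k) (y : Ext.{1} A (AU l O) m) :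
    Gy h a θ e (kp i a (ci l i O) m y) = y.comp θ e :=
  congrArg (Ext.comp · θ e) ((ps h a m).symm_apply_apply y)

/-- Restriction of a Gysin image. -/
theorem gpb_Gy (θ : Ext.{1} (AU l O) (Linf l T) n) (e : m + n = k) (γ : Ext.{1} A' (Linf l D) m) :
    gpb l i a k (Gy h a θ e γ) = γ.comp (epb l i n (pre (πU l O) _ n θ)) e := by
  obtain ⟨y, rfl⟩ := (psi_bij h a m).2 γ
  rw [Gy_ps, ← kp_gpb, kp_comp i a _ _ (ci_π i h.out), epb, gpb_apply, kp_apply _ (_ ≫ _), map_pre,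
    pre_pre]

/-- The Gysin image of a restriction, with supports. -/
theorem Gy_star {W' : D.Opens} {a : AU l W' ⟶ (pbe i).obj (AU l W)} [IsIso a]
    {b : AU l W' ⟶ (pbe i).obj (AU l U)} (ha : Rp l i W' W a) (hb : Rp l i W' U b) (hW : W ≤ U ⊔ O)
    (θ : Ext.{1} (AU l O) G n) (e : m + n = k) (x : Ext.{1} (AU l U) (Linf l T) m) :
    Gy h a θ e (gpb l i b m x) = star W x θ e := by
  have e1 : a ≫ (pbe i).map (sm l W U O) = b ≫ (pbe i).map (pr O _) := by
    rw [← cancel_epi (πU l W'), reassoc_of% ha, reassoc_of% hb, ← Functor.map_comp,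
      ← Functor.map_comp, π_sm hW]
  rw [star, ← Gy_ps h a, ← pre_kp i (a := a ≫ (pbe i).map (sm l W U O)) (u' := 𝟙 _)
    (Category.id_comp _), pre_id, e1, ← pre_id (kp i (b ≫ _) _ m _),
    pre_kp i (b := b) (Category.id_comp _), qm_π, ← post_kp i b (c := (lpb l i).hom) (u' := 𝟙 _)
    (by rw [π_ci i h.out, Category.comp_id]), post_id, kp_gpb]

lemma kp_heq {r r' : D' ⟶ T} (w : r = r') {A₁ : Sh (Scheme.etaleTopology.over D')}
    {α : A₁ ⟶ (pbe r).obj A} {β : A₁ ⟶ (pbe r').obj A} (e : HEq α β) (y : Ext.{1} A (AU l O) m) :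
    kp r α (ci l r O) m y = kp r' β (ci l r' O) m y := by
  subst w
  rw [eq_of_heq e]

lemma lpb_pc' (g' : T'' ⟶ T') (g : T' ⟶ T) : (pc g' g (Linf l T)).inv ≫ (pbe g').map (lpb l g).hom ≫
    (lpb l g').hom = (lpb l (g' ≫ g)).hom := by
  rw [Iso.inv_comp_eq, ← Iso.comp_inv_eq, ← lpb_pc, Category.assoc, Iso.hom_inv_id_assoc,
    ← Functor.map_comp_assoc, Iso.hom_inv_id, CategoryTheory.Functor.map_id, Category.id_comp]

/-- Naturality. -/
theorem kp_Gy {O' : T'.Opens} {i' : D' ⟶ T'} (h' : Cl l i' O') (g : T' ⟶ T) (f : D' ⟶ D)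
    (w : i' ≫ g = f ≫ i) (hO : O' = g ⁻¹ᵁ O) {A₁ G' : Sh (Scheme.etaleTopology.over T')}
    {A₁' : Sh (Scheme.etaleTopology.over D')} (a₁ : A₁' ⟶ (pbe i').obj A₁) [IsIso a₁]
    (b : A₁ ⟶ (pbe g).obj A) (b' : A₁' ⟶ (pbe f).obj A')
    (hb : HEq (a₁ ≫ (pbe i').map b ≫ (pc i' g A).hom) (b' ≫ (pbe f).map a ≫ (pc f i A).hom))
    {aO : AU l O' ⟶ (pbe g).obj (AU l O)} (ha : Rp l g O' O aO) (c : (pbe g).obj G ⟶ G')
    (θ : Ext.{1} (AU l O) G n) (e : m + n = k) (γ : Ext.{1} A' (Linf l D) m) :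
    kp g b c k (Gy h a θ e γ) = Gy h' a₁ (kp g aO c n θ) e (gpb l f b' m γ) := by
  subst hO
  have := Rp_isIso ha
  obtain ⟨y, rfl⟩ := (psi_bij h a m).2 γ
  have o1 : ∀ d, (i' ≫ g) d ∉ O := fun d => h'.out d
  have o2 : ∀ d, (f ≫ i) d ∉ O := fun d => h.out (f d)
  have e1 : (pc i' g _).inv ≫ (pbe i').map (inv aO) ≫ ci l i' (g ⁻¹ᵁ O) = ci l (i' ≫ g) O := by
    have := isIso_π (l := l) _ o1
    have e0 : (pbe g).map (πU l O) ≫ inv aO = (lpb l g).hom ≫ πU l _ := by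
      rw [IsIso.comp_inv_eq, Category.assoc, ha, Iso.hom_inv_id_assoc]
    rw [← cancel_epi ((pbe (i' ≫ g)).map (πU l O)), π_ci _ o1, ← lpb_pc', ← cancel_epi (pc i' g _).hom,
      ← reassoc_of% pc_nat, Iso.hom_inv_id_assoc, Iso.hom_inv_id_assoc, ← Functor.map_comp_assoc,
      e0, Functor.map_comp_assoc, π_ci _ h'.out]
  have e2 : (pc f i _).inv ≫ (pbe f).map (ci l i O) ≫ (lpb l f).hom = ci l (f ≫ i) O := by
    have := isIso_π (l := l) _ o2
    rw [← cancel_epi ((pbe (f ≫ i)).map (πU l O)), π_ci _ o2, ← lpb_pc', ← cancel_epi (pc f i _).hom,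
      ← reassoc_of% pc_nat, Iso.hom_inv_id_assoc, Iso.hom_inv_id_assoc, ← Functor.map_comp_assoc,
      π_ci _ h.out]
  rw [Gy_ps, kp_comp g b (inv aO) aO (IsIso.inv_hom_id _), ← Gy_ps h' a₁, kp_kp, ← kp_gpb, kp_kp,
    e1, e2, kp_heq w hb]

lemma Rp_heq {r r' : D' ⟶ T} (w : r = r') {V : D'.Opens} {α : AU l V ⟶ (pbe r).obj (AU l W)}
    {β : AU l V ⟶ (pbe r').obj (AU l W)} (e : Rp l r V W α) (e' : Rp l r' V W β) : HEq α β := by
  subst w
  exact heq_of_eq (Rp_uniq e e')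

/-- Naturality for classes with supports. -/
theorem gpb_Gy_Rp {O' W' : T'.Opens} {V : D.Opens} {V' : D'.Opens} {i' : D' ⟶ T'} (h' : Cl l i' O')
    (g : T' ⟶ T) (f : D' ⟶ D) (w : i' ≫ g = f ≫ i) (hO : O' = g ⁻¹ᵁ O)
    {a : AU l V ⟶ (pbe i).obj (AU l W)} [IsIso a] {a₁ : AU l V' ⟶ (pbe i').obj (AU l W')} [IsIso a₁]
    {b : AU l W' ⟶ (pbe g).obj (AU l W)} {b' : AU l V' ⟶ (pbe f).obj (AU l V)}
    (r : Rp l i V W a) (r₁ : Rp l i' V' W' a₁) (s : Rp l g W' W b) (s' : Rp l f V' V b')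
    {aO : AU l O' ⟶ (pbe g).obj (AU l O)} (ha : Rp l g O' O aO)
    (θ : Ext.{1} (AU l O) (Linf l T) n) (e : m + n = k) (γ : Ext.{1} (AU l V) (Linf l D) m) :
    gpb l g b k (Gy h a θ e γ) = Gy h' a₁ (gpb l g aO n θ) e (gpb l f b' m γ) :=
  kp_Gy h _ h' g f w hO _ _ _ (Rp_heq w (Rp_comp r₁ s) (Rp_comp s' r)) ha _ θ e γ

end gysin

/-! ### Iterated products -/

section ths

variable (l) in
/-- The inverse of the projection for the empty open. -/
noncomputable def un (W : T.Opens) : AU l W ⟶ Linf l T := dq W (𝟙 (Linf l T))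

@[reassoc]
lemma π_un {W : T.Opens} (h : W ≤ ⊥) : πU l W ≫ un l W = 𝟙 _ :=
  pr_dq fun V hV _ => have : IsEmpty V.left := ⟨fun t => h (hV t)⟩; zero_of_isEmpty _ V _

variable {W W' V V' : T.Opens} {n n' k : ℕ}

section chern
variable {Ω : Type} [Field Ω] (Ch : Chern l Ω) {𝒯' : Trv T'} {𝒯 : Trv T} {γ' : Coc 𝒯'} {γ : Coc 𝒯}
  {O' : T'.Opens} {O : T.Opens}

end chern

end ths

end Pool.Agent.MP_855f4c_ag.T.Star

end

section

/-! h14a row SG: products with supports and Gysin maps. -/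

set_option autoImplicit false
set_option backward.isDefEq.respectTransparency false

open CategoryTheory Limits Abelian Opposite AlgebraicGeometry Function

namespace Pool.Agent.MP_855f4c_ag.A

open E E3 E4 T Pbc

namespace Sg

variable {l : ℕ} [Fact l.Prime] {D T T' : Scheme.{0}}

lemma rpR (g : T' ⟶ T) {O' : T'.Opens} {O : T.Opens} (h : O' ≤ g ⁻¹ᵁ O) :
    Rp l g O' O (rp l g O' O) := Star.Rp_rp g h

instance (g : T' ⟶ T) (O : T.Opens) : IsIso (rp l g (g ⁻¹ᵁ O) O) := Rp_isIso (rpR g le_rfl)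

lemma spb_one {W U : T.Opens} (h : W ≤ U) {n : ℕ} (x : SS l T U n) :
    spb l (𝟙 T) W U n x = pre (Star.cs l W U) _ n x := Star.gpb_one (rpR (𝟙 T) h) h x

lemma cs_spb (g : T' ⟶ T) {V V' : T'.Opens} {U : T.Opens} (h : V ≤ V') (h' : V' ≤ g ⁻¹ᵁ U) {n : ℕ}
    (x : SS l T U n) : pre (Star.cs l V V') _ n (spb l g V' U n x) = spb l g V U n x :=
  (Star.cs_gpb g (rpR g h') (rpR g (h.trans h')) h le_rfl x).trans (by
    rw [Star.cs_self, pre_id]; rfl)

lemma se_sone : se l (⊥ : T.Opens) 0 (sone l ⊥) = one l T := by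
  have h : ∃ x : SS l T ⊥ 0, se l ⊥ 0 x = one l T :=
    ⟨Ext.mk₀ (Star.un l ⊥), (Ext.mk₀_comp_mk₀ _ _).trans (congrArg _ (Star.π_un le_rfl))⟩
  rw [sone, dif_pos h]
  exact h.choose_spec

/-- The product. -/
noncomputable def st (U U' U'' : T.Opens) (i j k : ℕ) (h : i + j = k) :
    SS l T U i →+ SS l T U' j →+ SS l T U'' k :=
  AddMonoidHom.mk' (fun x => Star.starR U'' U' _ x h) fun x x' =>
    AddMonoidHom.ext fun θ => Star.star_add_left x x' θ h

/-- The Gysin map if `O` is the complement. -/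
noncomputable def g0 {i : D ⟶ T} {O : T.Opens} (c : Star.Cl l i O) (U : T.Opens) (U' : D.Opens)
    (n k m : ℕ) (h : n + k = m) : SS l T O k →+ SS l D U' n →+ SS l T U m :=
  AddMonoidHom.mk' (fun θ => (Star.Gy c (rp l i (i ⁻¹ᵁ U) U) θ h).comp
    (pre (Star.cs l (i ⁻¹ᵁ U) U') _ n)) fun _ _ => AddMonoidHom.ext fun _ => Ext.comp_add _ _ _ h

open Classical in
/-- The Gysin map. -/
noncomputable def gy (i : D ⟶ T) (O U : T.Opens) (U' : D.Opens) (n k m : ℕ) (h : n + k = m) :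
    SS l T O k →+ SS l D U' n →+ SS l T U m :=
  if c : Star.Cl l i O then g0 c U U' n k m h else 0

lemma gy_eq {i : D ⟶ T} {O : T.Opens} (c : Star.Cl l i O) (U : T.Opens) (U' : D.Opens) {n k m : ℕ}
    (h : n + k = m) (θ : SS l T O k) (γ : SS l D U' n) : gy i O U U' n k m h θ γ =
      Star.Gy c (rp l i (i ⁻¹ᵁ U) U) θ h (pre (Star.cs l (i ⁻¹ᵁ U) U') _ n γ) := by
  rw [gy, dif_pos c]
  rfl

end Sg

open Sg in
theorem sg : SG_s := fun l _ => ⟨
  { star := st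
    star_nat := fun g _ _ _ _ _ _ _ _ _ h x y h1 h2 h3 h4 h5 =>
      Star.gpb_star g h1 h2 h4 (rpR g h5) (rpR g h3) (rpR g h4) x y h
    star_assoc := fun _ _ _ _ _ _ _ _ _ _ _ _ h₁ h₂ h₃ h₄ x y z e1 e2 e3 e4 =>
      Star.star_assoc e1 e3 e2 e4 x y z h₁ h₂ h₃ h₄
    star_comp := fun _ _ _ _ _ _ h x y e =>
      (Star.star_left e x y h).trans ((pre_comp _ _ _ h).symm.trans (spb_one e _).symm)
    one_star := fun U' _ j y e => by
      refine (Star.star_right e _ y (zero_add j)).trans (Eq.trans ?_ (spb_one e _).symm)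
      refine congrArg _ ((congrArg (Star.act · y (zero_add j)) se_sone).trans ?_)
      rw [Star.act, Star.qm, Ext.mapExactFunctor_mk₀, CategoryTheory.Functor.map_id]
      exact Ext.mk₀_id_comp _
    gy := fun i _ => gy i
    gy_res := fun i hi O U U' V n k m h θ γ hl hO h1 h2 => by
      have c : Star.Cl l i O := ⟨hi, hO, hl⟩
      rw [gy_eq c, ← cs_spb i h2 le_rfl, spb, Star.gpb_Gy, pre_comp, pre_pre, Star.cs_cs h2 h1,
        spb_one (h2.trans h1)]
      rfl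
    gy_pb := fun i hi O U U₀ U' n k m h θ x hl hO h1 h2 => by
      have c : Star.Cl l i O := ⟨hi, hO, hl⟩
      rw [gy_eq c, cs_spb i h1 h2]
      refine Star.Gy_star c (rpR i le_rfl) (rpR i (h1.trans h2)) (fun t ht => ?_) θ h x
      by_cases e : t ∈ Set.range i
      · obtain ⟨d, rfl⟩ := e
        exact .inl (h2 (h1 ht))
      · exact .inr ((hO t).2 e)
    gy_nat := fun i hi i₁ hi₁ g g' O U U' P V V' n k m h θ γ hl w hO hP h1 h2 h3 h4 h5 => by
      have c : Star.Cl l i O := ⟨hi, hO, hl⟩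
      have c₁ : Star.Cl l i₁ P := ⟨hi₁, hP, hl.of_hom g⟩
      have e (d) : g (i₁ d) = i (g' d) := congr($w d)
      have hPO : P = g ⁻¹ᵁ O := le_antisymm h1 fun t ht => (hP t).2 fun ⟨d, hd⟩ =>
        c.out (g' d) (by rw [← e, hd]; exact ht)
      have h6 : i₁ ⁻¹ᵁ V ≤ g' ⁻¹ᵁ i ⁻¹ᵁ U := fun d hd => by
        change i (g' d) ∈ U
        rw [← e]
        exact h4 hd
      rw [gy_eq c, gy_eq c₁]
      refine (Star.gpb_Gy_Rp c c₁ g g' w hPO (rpR i le_rfl) (rpR i₁ le_rfl) (rpR g h4) (rpR g' h6)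
        (rpR g h1) θ h _).trans (congrArg _ ?_)
      exact (Star.cs_gpb g' (rpR g' h5) (rpR g' h6) h3 h2 γ).symm }⟩

end Pool.Agent.MP_855f4c_ag.A

end
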