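import Pool.Agent.MP_855f4c_ag.AC.Ac
import Pool.Agent.MP_855f4c_ag.TC.All

set_option linter.all false

section

/-! h14a row ENDR: from the map `ε` to the non-invariant part of one reflection. -/

set_option autoImplicit false
set_option backward.isDefEq.respectTransparency false

open CategoryTheory Limits Abelian Opposite Function AlgebraicGeometry

namespace Pool.Agent.MP_855f4c_ag.T

open E

/-- Pull-back on `l`-adic cohomology. -/
noncomputable abbrev hl (l i : ℕ) {T' T : Scheme.{0}} (g : T' ⟶ T) :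
    (Et.Hl l i).obj (op T) →ₗ[ℚ] (Et.Hl l i).obj (op T') := ((Et.Hl l i).map g.op).hom

/-- The base change of an endomorphism to the fibre. -/
noncomputable def sb {X S T : Scheme.{0}} (f : X ⟶ S) (t : T ⟶ S) (σ : X ⟶ X) (h : σ ≫ f = f) :
    (fbr f t).left ⟶ (fbr f t).left :=
  pullback.map t f t f (𝟙 _) σ (𝟙 _) (by simp) (by simp [h])

def ENDR_s : Prop := ∀ (l : ℕ) [Fact l.Prime] (K R Ω : Type) [Field K] [CommRing R]
  [Algebra.FiniteType ℤ R] [Field Ω] [IsAlgClosed Ω] [CharZero Ω] [Algebra K Ω] [Algebra R Ω]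
  (X X' : Scheme.{0}) (f : X ⟶ Spec (.of K)) [Smooth f] [IsProper f] (f' : X' ⟶ Spec (.of R))
  [IsProper f'] (d T k Q m M M' : ℕ) (φ u : Ω ≃ₐ[K] Ω) (φ' u' : Ω ≃ₐ[R] Ω) (ψ v : Ω →+* Ω)
  (hψ : spc ψ ≫ spc (algebraMap K Ω) = spc (algebraMap K Ω))
  (hv : spc v ≫ spc (algebraMap K Ω) = spc (algebraMap K Ω))
  (hψ' : spc ψ ≫ spc (algebraMap R Ω) = spc (algebraMap R Ω))
  (hv' : spc v ≫ spc (algebraMap R Ω) = spc (algebraMap R Ω))
  (σ : End X) (hσ : σ ≫ f = f) (n : ℕ), 0 < n → σ ^ n = 1 →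
  D.Chart d f → IrreducibleSpace (fbr f (spc (algebraMap K Ω))).left → 1 < Q → 0 < m →
    k = 2 * T → M = (Q ^ m) ^ T → M' = 1 → (∀ z, ψ z = (φ ^ m) z) → (∀ z, v z = (u ^ m) z) →
    (∀ z, ψ z = φ' z) → (∀ z, v z = u' z) → Tw l ψ (Q ^ m) →
    (∀ i : ℕ, Mw (Q ^ m) i (E.gal f' l i φ') (E.gal f' l i u')) →
    (∀ y : HH l (fbr f (spc (algebraMap K Ω))).left (2 * d), hpb l (sb f _ σ hσ) _ y = y) →
    ∀ ε : ∀ i, EE l (fbr f (spc (algebraMap K Ω))).left i →+ QZ l →+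
        HH l (fbr f' (spc (algebraMap R Ω))).left (i + k),
      (∀ i α, ε i α = 0 → ∀ x, tau (epb l (sb f _ σ hσ) i (epb l (sb f _ σ hσ) i α - α) -
        (epb l (sb f _ σ hσ) i α - α)) x = 0) →
      (∀ i α x, hpb l (fa f' ψ hψ') _ (ε i α x) = M • ε i (epb l (fa f ψ hψ) i α) x) →
      (∀ i α x, hpb l (fa f' v hv') _ (ε i α x) = M' • ε i (epb l (fa f v hv) i α) x) →
      ∀ i : ℕ, Sum.MwOn Q i (Et.gal f l i φ) (Et.gal f l i u)
        (LinearMap.range (hl l i (sb f (spc (algebraMap K Ω)) σ hσ) - 1))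

namespace Endr

variable {l : ℕ} [Fact l.Prime] {X S T : Scheme.{0}}

lemma sb_fst (f : X ⟶ S) (t : T ⟶ S) (σ : X ⟶ X) (h : σ ≫ f = f) :
    sb f t σ h ≫ pullback.fst (Over.mk t).hom f = pullback.fst (Over.mk t).hom f :=
  (pullback.lift_fst _ _ _).trans (Category.comp_id _)

lemma sb_snd (f : X ⟶ S) (t : T ⟶ S) (σ : X ⟶ X) (h : σ ≫ f = f) :
    sb f t σ h ≫ pullback.snd (Over.mk t).hom f = pullback.snd (Over.mk t).hom f ≫ σ :=
  pullback.lift_snd _ _ _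

lemma sb_id (f : X ⟶ S) (t : T ⟶ S) (h) : sb f t (𝟙 X) h = 𝟙 _ :=
  pullback.hom_ext ((sb_fst ..).trans (Category.id_comp _).symm)
    ((sb_snd ..).trans ((Category.comp_id _).trans (Category.id_comp _).symm))

lemma sb_comp (f : X ⟶ S) (t : T ⟶ S) (σ σ' : X ⟶ X) (h h' h'') :
    sb f t (σ ≫ σ') h'' = sb f t σ h ≫ sb f t σ' h' :=
  pullback.hom_ext (by rw [Category.assoc, sb_fst, sb_fst, sb_fst])
    (by rw [Category.assoc, sb_snd, sb_snd, ← Category.assoc, ← Category.assoc, sb_snd])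

lemma sb_fa (f : X ⟶ S) {k : Type} [CommRing k] {t : Spec (.of k) ⟶ S} (ψ : k →+* k)
    (hψ : spc ψ ≫ t = t) (σ : X ⟶ X) (h : σ ≫ f = f) :
    sb f t σ h ≫ fa f ψ hψ = fa f ψ hψ ≫ sb f t σ h := by
  have a1 : fa f ψ hψ ≫ pullback.fst (Over.mk t).hom f = pullback.fst (Over.mk t).hom f ≫ spc ψ :=
    pullback.lift_fst _ _ _
  have a2 : fa f ψ hψ ≫ pullback.snd (Over.mk t).hom f = pullback.snd (Over.mk t).hom f :=
    pullback.lift_snd _ _ _
  refine pullback.hom_ext ?_ ?_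
  · rw [Category.assoc, Category.assoc, a1, sb_fst, a1, ← Category.assoc, sb_fst]
  · rw [Category.assoc, Category.assoc, a2, sb_snd, ← Category.assoc, a2]

lemma pow_f (f : X ⟶ S) (σ : End X) (h : σ ≫ f = f) (n : ℕ) : (σ ^ n : End X) ≫ f = f := by
  induction n with
  | zero => exact Category.id_comp f
  | succ n ih =>
    rw [pow_succ]
    exact (Category.assoc σ _ f).trans ((congrArg (σ ≫ ·) ih).trans h)

lemma sb_pow (f : X ⟶ S) (t : T ⟶ S) (σ : End X) (h : σ ≫ f = f) (i n : ℕ) :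
    Vm l (hpb l (sb f t σ h) i) ^ n = Vm l (hpb l (sb f t (σ ^ n : End X) (pow_f f σ h n)) i) := by
  induction n with
  | zero =>
    have : sb f t (σ ^ 0 : End X) (pow_f f σ h 0) = 𝟙 _ := sb_id f t _
    rw [this, pow_zero]
    exact LinearMap.ext fun v => V.ext fun x => (Pbc.hpb_id _).symm
  | succ n ih =>
    have : sb f t (σ ^ (n + 1) : End X) (pow_f f σ h _) =
        sb f t σ h ≫ sb f t (σ ^ n : End X) (pow_f f σ h n) := by
      exact sb_comp f t _ _ h (pow_f f σ h n) (pow_f f σ h (n + 1))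
    rw [this, pow_succ', ih]
    exact LinearMap.ext fun v => V.ext fun x =>
      (Pbc.hpb_comp (sb f t σ h) (sb f t (σ ^ n : End X) (pow_f f σ h n)) (v.1 x)).symm

omit [Fact l.Prime] in
lemma hl_comp (l i : ℕ) {A B C : Scheme.{0}} (a : A ⟶ B) (b : B ⟶ C) (y) :
    hl l i (a ≫ b) y = hl l i a (hl l i b y) := by
  rw [hl, op_comp, Functor.map_comp]; rfl

omit [Fact l.Prime] in
lemma hl_id (l i : ℕ) (A : Scheme.{0}) : hl l i (𝟙 A) = 1 := by
  rw [hl, op_id, CategoryTheory.Functor.map_id]; rfl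

omit [Fact l.Prime] in
lemma hl_sq (l i : ℕ) {A B B' C : Scheme.{0}} {a : A ⟶ B} {b : B ⟶ C} {a' : A ⟶ B'} {b' : B' ⟶ C}
    (h : a ≫ b = a' ≫ b') (y) : hl l i a (hl l i b y) = hl l i a' (hl l i b' y) := by
  rw [← hl_comp, h, hl_comp]

lemma th (T : Scheme.{0}) (hc : ∀ n, Cof l (HH l T n)) (i : ℕ) :
    ∃ Θ : (Et.Hl l i).obj (op T) ≃+ V l (HH l T i), ∀ (g : T ⟶ T) y,
      Θ (hl l i g y) = Vm l (hpb l g i) (Θ y) := by
  let U : Over (⊤_ Scheme.{0}) := Over.mk (terminal.from T)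
  obtain ⟨e, h1, h2⟩ := Et.hl_equiv U l i
  obtain ⟨Θ, hΘ⟩ := End.th zb U hc i
  refine ⟨(AddEquiv.ofBijective e.toAddMonoidHom h1).trans Θ, fun g y => ?_⟩
  let g' : U ⟶ U := Over.homMk g (terminal.hom_ext _ _)
  exact (congrArg Θ (h2 g' y)).trans (hΘ g' _)

lemma gal_eq {R Ω : Type} [CommRing R] [Field Ω] [Algebra R Ω] (f : X ⟶ Spec (.of R)) (l i : ℕ)
    (σ : Ω ≃ₐ[R] Ω) (h) :
    Et.gal f l i σ = hl l i (fa f (t := spc (algebraMap R Ω)) (σ : Ω →+* Ω) h) := by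
  refine congrArg (fun a : _ ⟶ _ => ((Et.Hl l i).map a.op).hom) (pullback.hom_ext ?_ ?_)
  · exact (pullback.lift_fst _ _ _).trans (pullback.lift_fst _ _ _).symm
  · exact (pullback.lift_snd _ _ _).trans ((Category.comp_id _).trans (pullback.lift_snd _ _ _).symm)

/-- Transport of `MwVS` to `MwOn`, and passage from powers. -/
lemma tr {W H : Type 1} [AddCommGroup W] [Module ℚ W] [AddCommGroup H] [Module ℚ_[l] H]
    (Θ : W ≃+ H) {φ u σ : Module.End ℚ W} {φ' u' σ' : Module.End ℚ_[l] H} {Q m : ℕ} {i : ℤ}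
    (hQ : 1 < Q) (hm : 0 < m) (h1 : ∀ v, Θ ((φ ^ m) v) = φ' (Θ v))
    (h2 : ∀ v, Θ ((u ^ m) v) = u' (Θ v)) (h3 : ∀ v, Θ (σ v) = σ' (Θ v))
    (c1 : ∀ v, σ (φ v) = φ (σ v)) (c2 : ∀ v, σ (u v) = u (σ v))
    (h : MwVS (Q ^ m) i φ' u' (LinearMap.range (σ' - 1))) :
    Sum.MwOn Q i φ u (LinearMap.range (σ - 1)) := by
  obtain ⟨a1, a2, h⟩ := h
  have e : ∀ v, Θ ((σ - 1) v) = (σ' - 1) (Θ v) := fun v => by
    rw [LinearMap.sub_apply, LinearMap.sub_apply, map_sub, h3]; rfl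
  let Θ' : LinearMap.range (σ - 1) ≃+ LinearMap.range (σ' - 1) :=
    { toFun := fun x => ⟨Θ x, x.2.elim fun y hy => ⟨Θ y, by rw [← e, hy]⟩⟩
      invFun := fun x => ⟨Θ.symm x, x.2.elim fun y hy => ⟨Θ.symm y, Θ.injective (by
        rw [e, Θ.apply_symm_apply, Θ.apply_symm_apply, hy])⟩⟩
      left_inv := fun x => Subtype.ext (Θ.symm_apply_apply _)
      right_inv := fun x => Subtype.ext (Θ.apply_symm_apply _)
      map_add' := fun x y => Subtype.ext (Θ.map_add _ _) }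
  refine ⟨Linr.stab c1, Linr.stab c2, mwv.2 _ _ _ Q m i hQ hm
    ((mwv.1 l _ _ Θ' _ _ _ _ _ _ (Nat.one_lt_pow hm.ne' hQ) (fun v => ?_) fun v => ?_).2 h)⟩
  · rw [Module.End.pow_restrict]
    exact Subtype.ext (h1 v)
  · rw [Module.End.pow_restrict]
    exact Subtype.ext (h2 v)

/-- An endomorphism that acts trivially on `E^N` up to torsion acts trivially on `H^N`. -/
lemma top {N : ℕ} (t : HH l T N →+ QZ l) (hq : Qcs T) (hc : ConnectedSpace T) (ht : PDh t)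
    (s : T ⟶ T) (h : ∀ x : EE l T N, ∃ M : ℕ, M ≠ 0 ∧ M • (epb l s _ x - x) = 0)
    (y : HH l T N) : hpb l s N y = y := by
  let ω : QZ l ≃+ HH l T 0 := AddEquiv.ofBijective (AddMonoidHom.mk'
    (fun a => (Ext.mk₀ (ta l T a) : HH l T 0)) fun a b => by rw [Inj.ta_add, Ext.mk₀_add])
    ((All.hKH l T).1 hc)
  obtain ⟨x, hx⟩ := (ht _ (Kpd.tc T) N 0 (zero_add N)).2 ω.symm.toAddMonoidHom
  have e : Inj.tauH l T N x (t y) = y := (All.hKTOP l T N t hq hc ht).1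
    ((DFunLike.congr_fun hx (ω (t y))).trans (ω.symm_apply_apply _))
  obtain ⟨M, h0, hM⟩ := h x
  obtain ⟨b, hb⟩ := (endq l).2.2.1 M (t y) (Nat.cast_ne_zero.2 h0)
  have e2 : Inj.tauH l T N (epb l s _ x - x) (t y) = 0 := by
    rw [← hb, natCast_zsmul, map_nsmul, ← AddMonoidHom.nsmul_apply, ← map_nsmul, hM, map_zero,
      AddMonoidHom.zero_apply]
  rw [map_sub, AddMonoidHom.sub_apply, e, sub_eq_zero] at e2
  exact (congrArg _ e.symm).trans ((Pbc.tau_pb _ _ _).trans e2)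

/-- Duality on the geometric fibre, with an invariant pairing. -/
lemma pd (K Ω : Type) [Field K] [Field Ω] [IsAlgClosed Ω] [CharZero Ω] (τ : K →+* Ω)
    (f : X ⟶ Spec (.of K)) [Smooth f] [IsProper f] (d : ℕ) (hd : D.Chart d f)
    (hI : IrreducibleSpace (fbr f (spc τ)).left) :
    ∃ ϖ : ∀ i j, j + i = 2 * d →
        EE l (fbr f (spc τ)).left i →+ HH l (fbr f (spc τ)).left j →+ QZ l,
      (∀ i j h, Bijective (ϖ i j h)) ∧
      (∀ (ψ : Ω →+* Ω) (hψ : spc ψ ≫ spc τ = spc τ) (Q : ℕ), Tw l ψ Q → ∀ i j h x y,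
        ϖ i j h (epb l (fa f ψ hψ) i x) (hpb l (fa f ψ hψ) j y) = Q ^ d • ϖ i j h x y) ∧
      ∀ s : (fbr f (spc τ)).left ⟶ (fbr f (spc τ)).left,
        ((∀ x : EE l _ (2 * d), ∃ M : ℕ, M ≠ 0 ∧ M • (epb l s _ x - x) = 0) →
          ∀ y : HH l _ (2 * d), hpb l s _ y = y) ∧
        ((∀ y : HH l _ (2 * d), hpb l s _ y = y) → ∀ i j h x y,
          ϖ i j h (epb l s i x) (hpb l s j y) = ϖ i j h x y) := by
  have hd' : D.Chart d (pullback.fst (spc τ) f) :=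
    D.twf.2.2 d X _ _ _ f _ (spc τ) _ (IsPullback.of_hasPullback (spc τ) f).flip inferInstance hd
  have : IrreducibleSpace (pullback (spc τ) f : Scheme.{0}) := hI
  obtain ⟨t, ht⟩ : ∃ t : HH l (fbr f (spc τ)).left (2 * d) →+ QZ l, PDh t :=
    Kpd.pdh zb (All.hPDX l Ω _ _ d hd')
  refine ⟨fun i j h => (Ext.bilinearComp _ _ _ j i _ h).flip.compr₂ t,
    fun i j h => ht _ (Kpd.tc _) i j h, fun ψ hψ Q hQ i j h x y => ?_, fun s =>
      ⟨top t (Kpd.qcs (pullback.fst (spc τ) f)) inferInstance ht s, fun hs i j h x y => ?_⟩⟩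
  · obtain ⟨Θ, hΘ⟩ := zb.2 l X (2 * d)
    change t ((hpb l (fa f ψ hψ) j y).comp (epb l (fa f ψ hψ) i x) h) = Q ^ d • t (y.comp x h)
    rw [← (kpb l _ _ (fa f ψ hψ)).1, ← map_nsmul]
    obtain ⟨w, hw⟩ := (Θ (fbr f (spc τ))).surjective (y.comp x h)
    rw [← hw, ← hΘ, ← map_nsmul]
    exact congrArg (fun z => t (Θ _ z)) (All.hTOPQ l K Ω τ X f d hd hI ψ hψ Q hQ w)
  · change t ((hpb l s j y).comp (epb l s i x) h) = t (y.comp x h)
    rw [← (kpb l _ _ s).1, hs]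

end Endr

open Endr in
theorem endr : ENDR_s := by
  intro l _ K R Ω _ _ _ _ _ _ _ _ X X' f _ _ f' _ d T k Q m M M' φ u φ' u' ψ v hψ hv hψ' hv' σ hσ n
    hn σn hd hi hQ hm ek eM eM' eψ ev eφ eu tw mw ze ε e0 e1 e2 i
  subst ek eM eM'
  obtain rfl : ψ = (φ' : Ω →+* Ω) := RingHom.ext eφ
  obtain rfl : v = (u' : Ω →+* Ω) := RingHom.ext eu
  have hc := All.hCOFZ l R Ω (algebraMap R Ω) X' f'
  let U := fbr f' (spc (algebraMap R Ω))
  let a : U ⟶ U := (Over.pullback f').map (sph _ hψ')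
  let b : U ⟶ U := (Over.pullback f').map (sph _ hv')
  have hQ' : 1 < Q ^ m := Nat.one_lt_pow hm.ne' hQ
  obtain ⟨c1, c2, c3, -⟩ := All.hKPD l K Ω (algebraMap K Ω) X f d hd hi
  obtain ⟨ϖ, w1, w2, w3⟩ := pd (l := l) K Ω (algebraMap K Ω) f d hd hi
  have cm : ∀ (χ : Ω →+* Ω) hχ i y, hpb l (sb f (spc (algebraMap K Ω)) σ hσ) i
      (hpb l (fa f χ hχ) i y) = hpb l (fa f χ hχ) i (hpb l (sb f _ σ hσ) i y) :=
    fun χ hχ i y => by rw [← Pbc.hpb_comp, sb_fa, Pbc.hpb_comp]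
  have key := linr l (Q ^ m) d T n (EE l (fbr f (spc (algebraMap K Ω))).left)
    (HH l (fbr f (spc (algebraMap K Ω))).left) (fun i => HH l U.left (i + 2 * T))
    (epb l (fa f _ hψ)) (epb l (fa f _ hv)) (epb l (sb f _ σ hσ)) (hpb l (fa f _ hψ))
    (hpb l (fa f _ hv)) (hpb l (sb f _ σ hσ))
    (fun _ => hpb l a.left _) (fun _ => hpb l b.left _) (Inj.tauH l _) ε ϖ hQ' hn c1 c2
    (fun _ _ _ => (Pbc.tau_pb _ _ _).symm) (fun _ _ _ => (Pbc.tau_pb _ _ _).symm)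
    (fun _ _ _ => (Pbc.tau_pb _ _ _).symm) e1
    (fun i x y => (e2 i x y).trans (one_smul _ _)) w1 (w2 _ hψ _ tw) ((w3 _).2 ze)
    (fun i => by
      have : sb f (spc (algebraMap K Ω)) (σ ^ n : End X) (pow_f f σ hσ n) = 𝟙 _ := by
        rw [← sb_id f _ (Category.id_comp f)]
        congr 1
      rw [sb_pow, this]
      exact LinearMap.ext fun v => V.ext fun x => Pbc.hpb_id _)
    (cm _ hψ) (cm _ hv)
    (fun i => (c3 i).imp fun n hn x hx => hn x fun y => DFunLike.congr_fun hx y)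
    (fun i x hx => AddMonoidHom.ext (e0 i x hx))
    (fun i => (End.th zb U hc (i + 2 * T)).elim fun Θ hΘ =>
      (mwv.1 l _ _ Θ _ _ _ _ _ _ hQ' (hΘ a) (hΘ b)).1 (mw _)) i
  obtain ⟨Θ, hΘ⟩ := th (l := l) (fbr f (spc (algebraMap K Ω))).left c1 i
  have fx : ∀ g : Ω ≃ₐ[K] Ω, spc (g : Ω →+* Ω) ≫ spc (algebraMap K Ω) = spc (algebraMap K Ω) :=
    fun g => by
      rw [← Spec.map_comp, ← CommRingCat.ofHom_comp]
      congr 2
      exact RingHom.ext g.commutes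
  have pw : ∀ (g : Ω ≃ₐ[K] Ω) (χ : Ω →+* Ω) hχ, (∀ z, χ z = (g ^ m) z) → ∀ y,
      Θ ((Et.gal f l i g ^ m) y) = Vm l (hpb l (fa f χ hχ) i) (Θ y) := fun g χ hχ e y => by
    rw [End.fa_pow f g (fx g) i m χ hχ e, Module.End.pow_apply, Module.End.pow_apply,
      gal_eq f l i g (fx g)]
    exact (Semiconj.iterate_right (hΘ _) m y)
  have cg : ∀ (g : Ω ≃ₐ[K] Ω) y, hl l i (sb f (spc (algebraMap K Ω)) σ hσ) (Et.gal f l i g y) =
      Et.gal f l i g (hl l i (sb f (spc (algebraMap K Ω)) σ hσ) y) := fun g y => by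
    rw [gal_eq f l i g (fx g)]
    exact hl_sq l i (sb_fa f _ (fx g) σ hσ) y
  exact tr Θ hQ hm (pw φ _ hψ eψ) (pw u _ hv ev) (hΘ _) (cg φ) (cg u) key

end Pool.Agent.MP_855f4c_ag.T

end
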