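import Pool.Agent.MP_855f4c_ag.TC.All

set_option linter.all false

section

/-! h14a row SU2: the sandwich for polynomial rings over the affine model, and its slices. -/

set_option autoImplicit false
set_option backward.isDefEq.respectTransparency false

open CategoryTheory Limits Abelian Opposite AlgebraicGeometry Function TensorProduct

namespace Pool.Agent.MP_855f4c_ag.T.Su2

open E E3 E4 GG ZP Su

/-- Composition with `Spec J ⟶ Spec A` keeps affine space bundles. -/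
def Aff (A J : Type) [CommRing A] [CommRing J] [Algebra A J] : Prop :=
  ∀ (X : Scheme.{0}) (ρ : Spec (.of A) ⟶ X), AffB ρ → AffB (spc (algebraMap A J) ≫ ρ)

theorem aff_self (A : Type) [CommRing A] : Aff A A := fun X ρ hρ => by
  rwa [show spc (algebraMap A A) = 𝟙 _ from Spec.map_id _, Category.id_comp]

attribute [local instance] MvPolynomial.algebraMvPolynomial in
theorem aff_mv (A σ : Type) [CommRing A] [Finite σ] : Aff A (MvPolynomial σ A) :=
    fun X ρ hρ x => by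
  obtain ⟨R, _, j, σ₀, _, w, h1, h2, h3⟩ := hρ x
  obtain ⟨φ, rfl⟩ := exists_spc w
  let := φ.toAlgebra
  have p1 : IsPullback (spc (algebraMap (MvPolynomial σ A) (MvPolynomial σ (MvPolynomial σ₀ R))))
      (spc (algebraMap (MvPolynomial σ₀ R) (MvPolynomial σ (MvPolynomial σ₀ R))))
      (spc (algebraMap A (MvPolynomial σ A))) (spc φ) :=
    isPullback_SpecMap_of_isPushout _ _ _ _
      (CommRingCat.isPushout_of_isPushout A (MvPolynomial σ A) (MvPolynomial σ₀ R) _)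
  let e := MvPolynomial.sumAlgEquiv R σ σ₀
  have : IsIso (spc e.symm.toRingEquiv.toRingHom) :=
    inferInstanceAs (IsIso (Spec.map (e.symm.toRingEquiv.toCommRingCatIso).hom))
  refine ⟨R, _, j, σ ⊕ σ₀, inferInstance, spc e.symm.toRingEquiv.toRingHom ≫
    spc (algebraMap (MvPolynomial σ A) (MvPolynomial σ (MvPolynomial σ₀ R))), h1, h2, ?_⟩
  refine (p1.paste_vert h3).of_iso (asIso (spc e.symm.toRingEquiv.toRingHom)).symm
    (Iso.refl _) (Iso.refl _) (Iso.refl _) (by simp) ?_ (by simp) (by simp)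
  rw [Iso.symm_hom, asIso_inv, Iso.refl_hom, Category.comp_id, IsIso.eq_inv_comp, spc_spc, spc_spc]
  exact congrArg spc (RingHom.ext e.symm.commutes)

/-- A quotient by the extended ideal is a base change. -/
theorem push (J J' B B' : Type) [CommRing J] [CommRing J'] [CommRing B] [CommRing B']
    [Algebra J J'] [Algebra J B] [Algebra J B'] [Algebra J' B'] [Algebra B B']
    [IsScalarTower J J' B'] [IsScalarTower J B B'] (h1 : Surjective (algebraMap J J'))
    (h2 : Surjective (algebraMap B B'))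
    (h3 : RingHom.ker (algebraMap B B') ≤ (RingHom.ker (algebraMap J J')).map (algebraMap J B)) :
    Algebra.IsPushout J B J' B' := by
  let φ : B ⊗[J] J' →ₐ[B] B' := Algebra.TensorProduct.lift (Algebra.ofId B B')
    (IsScalarTower.toAlgHom J J' B') fun _ _ => .all _ _
  have hs : ∀ x : B ⊗[J] J', ∃ b : B, b ⊗ₜ 1 = x := fun x => by
    induction x with
    | zero => exact ⟨0, zero_tmul _ _⟩
    | tmul b j =>
      obtain ⟨a, rfl⟩ := h1 j
      exact ⟨a • b, by rw [smul_tmul, Algebra.algebraMap_eq_smul_one]⟩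
    | add x y hx hy =>
      obtain ⟨a, rfl⟩ := hx
      obtain ⟨b, rfl⟩ := hy
      exact ⟨a + b, add_tmul _ _ _⟩
  have hφ : ∀ b : B, φ (b ⊗ₜ 1) = algebraMap B B' b := fun b => by simp [φ]
  have hk : (RingHom.ker (algebraMap J J')).map (algebraMap J B) ≤
      RingHom.ker (algebraMap B (B ⊗[J] J')) := Ideal.map_le_iff_le_comap.2 fun a ha => by
    change algebraMap J B a ⊗ₜ[J] (1 : J') = 0
    rw [Algebra.algebraMap_eq_smul_one, smul_tmul, ← Algebra.algebraMap_eq_smul_one,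
      show algebraMap J J' a = 0 from ha, tmul_zero]
  have hb : Bijective φ := ⟨(injective_iff_map_eq_zero φ).2 fun x hx => by
    obtain ⟨b, rfl⟩ := hs x
    exact hk (h3 ((hφ b).symm.trans hx)), fun y => by
    obtain ⟨b, rfl⟩ := h2 y
    exact ⟨_, hφ b⟩⟩
  exact ⟨IsBaseChange.of_equiv (AlgEquiv.ofBijective φ hb).toLinearEquiv fun x => by simp [φ]⟩

theorem core (l : ℕ) [Fact l.Prime]
    (R O V Ω J B C₀ : Type) [CommRing R] [IsNoetherianRing R] [CommRing O] [CommRing V] [SHL V]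
    [CommRing Ω] [Algebra O V] [Algebra V Ω] [Algebra O Ω] [IsScalarTower O V Ω]
    [Algebra.IsIntegral O V] (ϖ : O) [IsLocalization.Away (algebraMap O V ϖ) Ω] [CommRing J]
    [CommRing B] [CommRing C₀] [Algebra O J] [Algebra J B] [Algebra O B] [IsScalarTower O J B]
    [Algebra B C₀] [Algebra O C₀] [IsScalarTower O B C₀]
    [IsLocalization.Away (algebraMap O B ϖ) C₀] {Z₀ Y Z : Scheme.{0}} {f₀ : Z₀ ⟶ Spec (.of R)}
    [IsProper f₀] {y : Y ⟶ Spec (.of O)} {f : Z ⟶ Spec (.of Ω)} {a₀ : Y ⟶ Z₀} {a : Z ⟶ Y}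
    {τ : R →+* O} (p₁ : IsPullback a₀ y f₀ (spc τ)) (p₀ : IsPullback a f y (spc (algebraMap O Ω)))
    {ρ : Spec (.of J) ⟶ Y} (r1 : ρ ≫ y = spc (algebraMap O J)) (r3 : AffB ρ)
    (hϖ : ¬ IsUnit (algebraMap O V ϖ)) (hl : IsUnit (l : V)) (h1 : IndEt J B)
    (h2 : QIso J B (Ideal.span {algebraMap O J ϖ}))
    (h3 : T.HP B ((Ideal.span {algebraMap O J ϖ}).map (algebraMap J B))) :
    ∃ s : Spec (.of (Ω ⊗[O] C₀)) ⟶ Z, s ≫ f = spc (iL O Ω C₀) ∧
      s ≫ a = spc ((iR O Ω C₀).comp ((algebraMap B C₀).comp (algebraMap J B))) ≫ ρ ∧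
      SA.AB (AddCommGrpCat.uliftFunctor.{1}.obj (.of (QZ l))) s := by
  have p₂ := IsPullback.of_hasPullback y (spc (algebraMap O V))
  have eO : spc (algebraMap V Ω) ≫ spc (algebraMap O V) = spc (algebraMap O Ω) := by
    rw [spc_spc, ← IsScalarTower.algebraMap_eq]
  let a' := p₂.lift a (f ≫ spc (algebraMap V Ω)) (by rw [p₀.w, Category.assoc, eO])
  have t1 : a' ≫ _ = a := p₂.lift_fst _ _ _
  have p₃ : IsPullback a' f _ (spc (algebraMap V Ω)) :=
    IsPullback.of_right (by rw [t1, eO]; exact p₀) (p₂.lift_snd _ _ _) p₂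
  let ρ' := p₂.lift (spc (iR O V J) ≫ ρ) (spc (iL O V J))
    (by rw [Category.assoc, r1]; exact (pbT O V J).w)
  have q1 : ρ' ≫ _ = spc (iR O V J) ≫ ρ := p₂.lift_fst _ _ _
  have q2 : ρ' ≫ _ = spc (iL O V J) := p₂.lift_snd _ _ _
  have p₄ : IsPullback (spc (iR O V J)) ρ' ρ _ :=
    IsPullback.of_bot (by rw [q2, r1]; exact pbT O V J) q1.symm p₂
  let : Algebra (V ⊗[O] J) (V ⊗[O] B) := (tm O V V J B).toAlgebra
  let : Algebra (V ⊗[O] B) (Ω ⊗[O] C₀) := (tm O V Ω B C₀).toAlgebra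
  have e1 : algebraMap (V ⊗[O] J) (V ⊗[O] B) (algebraMap V (V ⊗[O] J) (algebraMap O V ϖ)) =
      iL O V B (algebraMap O V ϖ) := by
    change algebraMap O V ϖ ⊗ₜ algebraMap J B 1 = algebraMap O V ϖ ⊗ₜ 1
    rw [map_one]
  have : IsLocalization.Away (algebraMap (V ⊗[O] J) (V ⊗[O] B)
      (algebraMap V (V ⊗[O] J) (algebraMap O V ϖ))) (Ω ⊗[O] C₀) := e1 ▸ away O V Ω B C₀ ϖ
  let ψ := (algebraMap (V ⊗[O] B) (Ω ⊗[O] C₀)).comp (algebraMap (V ⊗[O] J) (V ⊗[O] B))
  have e2 : ψ.comp (iL O V J) = (iL O Ω C₀).comp (algebraMap V Ω) := RingHom.ext fun v => by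
    change algebraMap V Ω v ⊗ₜ algebraMap B C₀ (algebraMap J B 1) = algebraMap V Ω v ⊗ₜ 1
    rw [map_one, map_one]
  have e3 : ψ.comp (iR O V J) =
      (iR O Ω C₀).comp ((algebraMap B C₀).comp (algebraMap J B)) := RingHom.ext fun v => by
    change algebraMap V Ω 1 ⊗ₜ algebraMap B C₀ (algebraMap J B v) = 1 ⊗ₜ _
    rw [map_one]; rfl
  let s := p₃.lift (spc ψ ≫ ρ') (spc (iL O Ω C₀))
    (by rw [Category.assoc, q2, spc_spc, spc_spc, e2])
  have s1 : s ≫ a' = spc ψ ≫ ρ' := p₃.lift_fst _ _ _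
  have e4 : iR O V J (algebraMap O J ϖ) = algebraMap V (V ⊗[O] J) (algebraMap O V ϖ) :=
    ((Algebra.TensorProduct.includeRight (R := O) (A := V)).commutes ϖ).trans
      (IsScalarTower.algebraMap_apply O V _ ϖ)
  obtain ⟨b1, b2⟩ := bcq exs O J V B _ h1 h2
    (Ideal.span {algebraMap V (V ⊗[O] J) (algebraMap O V ϖ)})
    (by rw [Ideal.map_span, Set.image_singleton, e4])
  have b3 : T.HP (V ⊗[O] B) ((Ideal.span {algebraMap V (V ⊗[O] J) (algebraMap O V ϖ)}).map
      (algebraMap (V ⊗[O] J) (V ⊗[O] B))) := by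
    refine hp.2 B _ (iR O V B) _ _ (tm_int O V B) ?_ h3
    simp only [Ideal.map_span, Set.image_singleton, ← e4]
    rfl
  refine ⟨s, p₃.lift_snd _ _ _, ?_, ?_⟩
  · rw [← t1, reassoc_of% s1, q1, ← e3, ← Category.assoc, spc_spc]
  · exact All.hSAND l R V Ω (V ⊗[O] J) (V ⊗[O] B) (Ω ⊗[O] C₀) (algebraMap O V ϖ) Z₀ _ Z f₀ _ _ _ f a'
      ρ' s _ (p₂.paste_horiz p₁) p₃ q2 (All.hABU.1 _ _ _ _ ρ ρ' _ _ p₄ r3) s1 hϖ hl b1 b2 b3
      fun m => ((cof_QZ (l := l)).1 m.down).imp fun _ hn => ULift.ext _ _ hn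

/-- The valuation ring of the algebraic closure of `ℚ_p`. -/
theorem padic (p l : ℕ) [Fact p.Prime] [Fact l.Prime] (O : Subring (PadicAlgCl p)) (hlp : l ≠ p)
    (h1 : ∀ x ∈ O, ‖x‖ ≤ 1) (h2 : ∀ x : ℤ_[p], algebraMap _ _ x ∈ O) :
    ∃ (V : Type) (_ : CommRing V) (_ : SHL V) (_ : Algebra O V) (_ : Algebra V (PadicAlgCl p))
      (_ : IsScalarTower O V (PadicAlgCl p)) (_ : Algebra.IsIntegral O V),
      IsLocalization.Away (algebraMap O V p) (PadicAlgCl p) ∧ ¬ IsUnit (algebraMap O V p) ∧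
        IsUnit (l : V) := by
  let v : Valuation (PadicAlgCl p) NNReal := Valued.v
  let V := v.valuationSubring
  have mem : ∀ x, x ∈ V ↔ ‖x‖ ≤ 1 := fun _ => Iff.rfl
  let : Algebra O V := (O.subtype.codRestrict V fun x => (mem _).2 (h1 _ x.2)).toAlgebra
  have : IsScalarTower O V (PadicAlgCl p) := .of_algebraMap_eq fun _ => rfl
  have : Algebra.IsIntegral O V := ⟨fun x => by
    let : Algebra ℤ_[p] O := ((algebraMap ℤ_[p] (PadicAlgCl p)).codRestrict O h2).toAlgebra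
    have : IsScalarTower ℤ_[p] O (PadicAlgCl p) := .of_algebraMap_eq fun _ => rfl
    exact (isIntegral_algHom_iff (IsScalarTower.toAlgHom O V (PadicAlgCl p))
      Subtype.val_injective).1 ((((Pow.pow p l hlp).2.2 x).1 ((mem _).1 x.2)).tower_top)⟩
  have : SHL V := Aic.shl fun P hP hd => by
    obtain ⟨x, hx⟩ := IsAlgClosed.exists_aeval_eq_zero (PadicAlgCl p) P
      fun h => hd (Polynomial.natDegree_eq_of_degree_eq_some h)
    obtain ⟨y, rfl⟩ := IsIntegrallyClosed.algebraMap_eq_of_integral (R := V) ⟨P, hP, hx⟩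
    refine ⟨y, Subtype.val_injective ?_⟩
    rwa [Polynomial.aeval_algebraMap_apply, Polynomial.coe_aeval_eq_eval] at hx
  have np : ‖(p : PadicAlgCl p)‖ < 1 := by
    rw [← map_natCast (algebraMap ℚ_[p] _), norm_algebraMap']; exact Padic.norm_p_lt_one
  have p0 : (p : PadicAlgCl p) ≠ 0 := Nat.cast_ne_zero.2 (Fact.out : p.Prime).ne_zero
  have un : ∀ x : V, IsUnit x ↔ ‖(x : PadicAlgCl p)‖ = 1 := fun x =>
    (Valuation.Integers.isUnit_iff_valuation_eq_one
      (Valuation.valuationSubring.integers v)).trans NNReal.coe_inj.symm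
  have hloc : IsLocalization.Away (algebraMap O V p) (PadicAlgCl p) := by
    rw [map_natCast]
    refine IsLocalization.Away.mk _ (by rw [map_natCast]; exact p0.isUnit) (fun x => ?_)
      fun a b hab => ⟨0, by rw [Subtype.val_injective hab]⟩
    obtain ⟨n, hn⟩ := exists_pow_lt_of_lt_one (show 0 < (‖x‖ + 1)⁻¹ by positivity) np
    refine ⟨n, ⟨x * p ^ n, (mem _).2 ?_⟩, by rw [map_natCast]; rfl⟩
    rw [norm_mul, norm_pow]
    rw [lt_inv_comm₀ (by positivity) (by positivity), lt_inv_comm₀ (by positivity) (by positivity),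
      inv_eq_one_div, lt_div_iff₀ (by positivity)] at hn
    nlinarith [pow_nonneg (norm_nonneg (p : PadicAlgCl p)) n]
  refine ⟨V, _, this, _, _, inferInstance, inferInstance, hloc, ?_, ?_⟩
  · rw [map_natCast, un]; exact np.ne
  · rw [un]
    change ‖(l : PadicAlgCl p)‖ = 1
    rw [← map_natCast (algebraMap ℚ_[p] _), norm_algebraMap']
    exact Padic.norm_natCast_eq_one_iff.2 ((Nat.coprime_primes Fact.out Fact.out).2 hlp.symm)

section
variable {κ : Type} [Fintype κ] [DecidableEq κ] {c : ℕ} {e : Fin c → κ → ℕ}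

/-- The sandwich data: `C₀` is the generic fibre of a henselisation of `J` along `p`. -/
structure Dat (p : ℕ) (J B C₀ : Type) [CommRing J] [CommRing B] [CommRing C₀] [Algebra J B]
    [Algebra B C₀] : Prop where
  ind : IndEt J B
  qiso : QIso J B (Ideal.span {(p : J)})
  hp : T.HP B (Ideal.span {(p : B)})
  loc : IsLocalization.Away (p : B) C₀

/-- **QUO**: quotients of sandwich data. -/
theorem Dat.quo {p : ℕ} {J B C₀ J' C' : Type} [CommRing J] [CommRing B] [CommRing C₀]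
    [Algebra J B] [Algebra B C₀] [CommRing J'] [CommRing C'] (h : Dat p J B C₀) (r : J →+* J')
    (hr : Surjective r) (q : C₀ →+* C') (hq : Surjective q)
    (hk : RingHom.ker q = (RingHom.ker r).map ((algebraMap B C₀).comp (algebraMap J B))) :
    ∃ (B' : Type) (_ : CommRing B') (_ : Algebra J' B') (_ : Algebra B' C') (π : B →+* B'),
      Dat p J' B' C' ∧ Surjective π ∧ RingHom.ker π = (RingHom.ker r).map (algebraMap J B) ∧
      (∀ x, π (algebraMap J B x) = algebraMap J' B' (r x)) ∧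
      ∀ b, q (algebraMap B C₀ b) = algebraMap B' C' (π b) := by
  let I := (RingHom.ker r).map (algebraMap J B)
  have hk' : RingHom.ker q = I.map (algebraMap B C₀) := by rw [hk, Ideal.map_map]
  let : Algebra J J' := r.toAlgebra
  let : Algebra J' (B ⧸ I) := (r.liftOfSurjective hr ⟨(Ideal.Quotient.mk I).comp (algebraMap J B),
    fun x hx => Ideal.Quotient.eq_zero_iff_mem.2 (Ideal.mem_map_of_mem _ hx)⟩).toAlgebra
  have e1 : ∀ x, Ideal.Quotient.mk I (algebraMap J B x) = algebraMap J' (B ⧸ I) (r x) := fun x =>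
    (r.liftOfSurjective_comp_apply hr ⟨(Ideal.Quotient.mk I).comp (algebraMap J B), _⟩ x).symm
  let : Algebra (B ⧸ I) C' := (Ideal.Quotient.lift I (q.comp (algebraMap B C₀)) fun x hx =>
    show _ ∈ RingHom.ker q from hk' ▸ Ideal.mem_map_of_mem _ hx).toAlgebra
  have : IsScalarTower J J' (B ⧸ I) := .of_algebraMap_eq e1
  have := push J J' B (B ⧸ I) hr Ideal.Quotient.mk_surjective Ideal.mk_ker.le
  obtain ⟨b1, b2⟩ := exs.1 J B J' (B ⧸ I) _ (Ideal.span {(p : J')})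
    (by rw [Ideal.map_span, Set.image_singleton, map_natCast]) h.ind h.qiso
  have := h.loc
  have b4 := IsLocalization.of_surjective (Submonoid.powers (p : B)) C₀ (Ideal.Quotient.mk I)
    Ideal.Quotient.mk_surjective q hq rfl (by rw [Ideal.mk_ker, hk'])
  rw [Submonoid.map_powers, map_natCast] at b4
  exact ⟨B ⧸ I, _, _, _, Ideal.Quotient.mk I, ⟨b1, b2, T.hp.2 B _ (Ideal.Quotient.mk I) _ _
    (RingHom.isIntegral_of_surjective _ Ideal.Quotient.mk_surjective)
    (by rw [Ideal.map_span, Set.image_singleton, map_natCast]) h.hp, b4⟩,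
    Ideal.Quotient.mk_surjective, Ideal.mk_ker, e1, fun _ => rfl⟩

theorem su0 (l : ℕ) [Fact l.Prime] (O V Ω : Type) [CommRing O] [CommRing V] [SHL V]
    [CommRing Ω] [Algebra O V] [Algebra V Ω] [Algebra O Ω] [IsScalarTower O V Ω]
    [Algebra.IsIntegral O V] (p : ℕ) [IsLocalization.Away (algebraMap O V p) Ω] (c' : MI e → O)
    (J B C₀ : Type) [CommRing J] [CommRing B] [CommRing C₀] [Algebra (JB c') J] [Algebra J B]
    [Algebra B C₀] [Algebra O C₀] (β : JB c' →ₐ[O] C₀)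
    (hβ : ∀ x, β x = algebraMap B C₀ (algebraMap J B (algebraMap _ J x)))
    (hA : Aff (JB c') J) (hD : Dat p J B C₀) {Z : Scheme.{0}} {f : Z ⟶ Spec (.of Ω)} {z : κ → (Z ⟶ P1)}
    (hϖ : ¬ IsUnit (algebraMap O V p)) (hl : IsUnit (l : V)) (hz : ZL f z (algebraMap O Ω ∘ c')) :
    ∃ s : Spec (.of (Ω ⊗[O] C₀)) ⟶ Z, s ≫ f = spc (iL O Ω C₀) ∧
      Ad (iR O Ω C₀ ∘ β ∘ je c') (fun k => s ≫ z k) ∧ (∀ n, Bijective (hpb l s n)) ∧
      ∀ (σ : Ω ≃ₐ[O] Ω) (g : Z ⟶ Z), g ≫ f = f ≫ spc (σ : Ω →+* Ω) → (∀ k, g ≫ z k = z k) →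
        spc (tw σ C₀) ≫ s = s ≫ g := by
  let : Algebra O J := ((algebraMap (JB c') J).comp (algebraMap O _)).toAlgebra
  let : Algebra O B := ((algebraMap J B).comp (algebraMap O J)).toAlgebra
  have : IsScalarTower O J B := .of_algebraMap_eq fun _ => rfl
  have : IsScalarTower O B C₀ := .of_algebraMap_eq fun x => (β.commutes x).symm.trans (hβ _)
  have : IsLocalization.Away (algebraMap O B p) C₀ := by rw [map_natCast]; exact hD.loc
  obtain ⟨Z₀, f₀, z₀, _, h₀⟩ := zlx κ c e (MvPolynomial (MI e) ℤ) MvPolynomial.X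
  let τ : MvPolynomial (MI e) ℤ →+* O := (MvPolynomial.aeval c').toRingHom
  have p₁ := IsPullback.of_hasPullback f₀ (spc τ)
  have hO := zbc h₀ p₁
  rw [show τ ∘ MvPolynomial.X = c' from funext fun i => MvPolynomial.aeval_X _ _] at hO
  obtain ⟨ρ, r1, r2, r3⟩ := zju κ c e O c' _ _ _ hO
  obtain ⟨a, p₀, ha⟩ := zlu hO hz
  obtain ⟨s, s2, s1, s3⟩ := core l _ O V Ω J B C₀ p p₁ p₀ (ρ := spc (algebraMap _ J) ≫ ρ)
    (by rw [Category.assoc, r1, spc_spc]; rfl) (hA _ _ r3) hϖ hl hD.ind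
    (by rw [map_natCast]; exact hD.qiso)
    (by simpa only [Ideal.map_span, Set.image_singleton, map_natCast] using hD.hp)
  have s1' : s ≫ a = spc ((iR O Ω C₀).comp β) ≫ ρ := by
    rw [s1, ← Category.assoc, spc_spc]
    exact congrArg (spc · ≫ _) (RingHom.ext fun x => congrArg (iR O Ω C₀) (hβ x).symm)
  have sz : ∀ k, s ≫ z k = spc ((iR O Ω C₀).comp β) ≫ ρ ≫ pullback.fst f₀ (spc τ) ≫ z₀ k :=
    fun k => by rw [← ha k, reassoc_of% s1']
  have had := Su.ad_map r2 ((iR O Ω C₀).comp β)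
  refine ⟨s, s2, by simp only [sz]; exact had, hpb_bij zb l s s3, fun σ g g1 g2 => ?_⟩
  refine hz.inj _ _ _ ?_ fun k => ?_
  · rw [Category.assoc, Category.assoc, s2, g1, reassoc_of% s2, spc_spc, spc_spc]
    exact congrArg spc (RingHom.ext fun x => rfl)
  · rw [Category.assoc, Category.assoc, g2, sz, ← Category.assoc, spc_spc]
    exact congrArg (spc · ≫ _) (RingHom.ext fun x => by
      change σ 1 ⊗ₜ _ = 1 ⊗ₜ _
      rw [map_one]; rfl)

/-- A map to a zero locus is determined by its coordinates. -/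
theorem uniq {R D : Type} [CommRing R] [CommRing D] {cf : MI e → R} {Z : Scheme.{0}}
    {f : Z ⟶ Spec (.of R)} {z : κ → (Z ⟶ P1)} (hz : ZL f z cf) {m : EV κ → D} (hm : JP m)
    {s s' : Spec (.of D) ⟶ Z} (h : s ≫ f = s' ≫ f) (a : Ad m fun k => s ≫ z k)
    (a' : Ad m fun k => s' ≫ z k) : s = s' :=
  hz.inj _ _ _ h (congrFun ((zad κ D m hm).1.unique a a'))

end

end Pool.Agent.MP_855f4c_ag.T.Su2

end

section

/-! h14a row SU2, second part: the tube and its slices. -/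

set_option autoImplicit false
set_option backward.isDefEq.respectTransparency false

open CategoryTheory AlgebraicGeometry Function TensorProduct MvPolynomial

namespace Pool.Agent.MP_855f4c_ag.T.Su2

open E E3 E4 GG ZP Su

variable {κ : Type} [Fintype κ] [DecidableEq κ] {c : ℕ} {e : Fin c → κ → ℕ}

omit [Fintype κ] [DecidableEq κ] in
theorem triv {D : Type} [CommRing D] [IsLocalRing D] {m : EV κ → D} (hm : JP m) :
    ∃ a : XY κ → D, emat a = m := by
  have ex (k : κ) : ∃ i, IsUnit (m (k, i, i)) :=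
    (IsLocalRing.isUnit_or_isUnit_of_add_one (hm k).1).elim (⟨0, ·⟩) (⟨1, ·⟩)
  choose σ hσ using ex
  exact Ja.p3 m σ hm hσ

omit [Fintype κ] [DecidableEq κ] in
/-- The zero ideal is killed where the form vanishes. -/
theorem zer_ker {D D' : Type} [CommRing D] [CommRing D'] {m : EV κ → D} (hm : JP m)
    {s : MvPolynomial (XY κ) D} {I : Ideal D} (h : Zer m s I) (ψ : D →+* D')
    (h0 : ∀ (L : Type) [CommRing L] (χ : D' →+* L) (a : XY κ → L), emat a = χ ∘ ψ ∘ m →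
      eval₂ (χ.comp ψ) a s = 0) : I ≤ RingHom.ker ψ := by
  rw [← Ideal.map_eq_bot_iff_le_ker]
  refine Ideal.eq_of_localization_maximal fun P hP => ?_
  obtain ⟨a, ha⟩ := triv (Twt.jp_map (algebraMap D' (Localization.AtPrime P)) (Twt.jp_map ψ hm))
  rw [Ideal.map_map, h _ _ a ha, h0 _ _ a ha, Ideal.map_bot, Ideal.span_singleton_zero]

/-- The affine model of a zero locus as a quotient of the base ring of the tube. -/
theorem ex_r {O : Type} [CommRing O] (c' : MI e → O) (a : O) :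
    ∃ r : MvPolynomial Unit (JB (noEq κ O)) →+* JB c', Function.Surjective r ∧
      (∀ v, r (C (je _ v)) = je c' v) ∧ (∀ x, r (algebraMap O _ x) = algebraMap O _ x) ∧
      r (X ()) = algebraMap O _ a ∧ RingHom.ker r ≤ Ideal.span {X () - algebraMap O _ a} ⊔
        ⨆ i, Bez.eqI (algebraMap O _ ∘ c') i (C ∘ je (noEq κ O)) := by
  obtain ⟨χ, c1, c2⟩ := Bez.jb_lift (noEq κ O) (algebraMap O (JB c')) (Bez.jp_je c')
    fun i => i.elim0
  obtain ⟨r, r0, r3⟩ : ∃ r : MvPolynomial Unit (JB (noEq κ O)) →+* JB c',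
      (∀ x, r (C x) = χ x) ∧ r (X ()) = algebraMap O _ a :=
    ⟨eval₂Hom χ fun _ => algebraMap O (JB c') a, eval₂Hom_C _ _, eval₂Hom_X' _ _ _⟩
  have r1 : ∀ v, r (C (je _ v)) = je c' v := fun v => (r0 _).trans (congrFun c2 v)
  have r2 : ∀ x, r (algebraMap O _ x) = algebraMap O _ x := fun x =>
    (r0 _).trans (RingHom.congr_fun c1 x)
  refine ⟨r, fun y => ?_, r1, r2, r3, fun x hx => ?_⟩
  · obtain ⟨P, rfl⟩ := Ideal.Quotient.mk_surjective y
    have : r.comp (C.comp (Ideal.Quotient.mk _)) = Ideal.Quotient.mk (JI c') :=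
      ringHom_ext (fun x => r2 x) fun v => r1 v
    exact ⟨_, RingHom.congr_fun this P⟩
  generalize hK : (Ideal.span {X () - algebraMap O (MvPolynomial Unit (JB (noEq κ O))) a} ⊔
    ⨆ i, Bez.eqI (algebraMap O _ ∘ c') i (C ∘ je (noEq κ O))) = K
  obtain ⟨θ, t1, t2⟩ := Bez.jb_lift c' ((Ideal.Quotient.mk K).comp (algebraMap O _))
    (ε := Ideal.Quotient.mk K ∘ C ∘ je (noEq κ O))
    (Twt.jp_map _ (Twt.jp_map C (Bez.jp_je (noEq κ O)))) fun i σ => by
      have h := Bez.map_gen (Ideal.Quotient.mk K) (algebraMap O _ ∘ c') i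
        (col (C ∘ je (noEq κ O)) σ)
      rw [Ideal.Quotient.eq_zero_iff_mem.2
        (hK ▸ Ideal.mem_sup_right (Ideal.mem_iSup_of_mem i (Ideal.subset_span ⟨σ, rfl⟩)))] at h
      exact h.symm
  have : θ.comp r = Ideal.Quotient.mk K := ringHom_ext' (Ideal.Quotient.ringHom_ext
    (ringHom_ext (fun x => (congrArg θ (r2 x)).trans (RingHom.congr_fun t1 x)) fun v =>
      (congrArg θ (r1 v)).trans (congrFun t2 v))) fun _ =>
    (congrArg θ r3).trans ((RingHom.congr_fun t1 a).trans (Ideal.Quotient.eq.2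
      (hK ▸ Ideal.mem_sup_left (Ideal.mem_span_singleton_self _))).symm)
  rw [← Ideal.Quotient.eq_zero_iff_mem, ← this, RingHom.comp_apply, show r x = 0 from hx, map_zero]

variable {p : ℕ} (l : ℕ) [Fact l.Prime] {O : Type} (V Ω : Type) [CommRing O] [CommRing V] [SHL V]
  [CommRing Ω] [Algebra O V] [Algebra V Ω] [Algebra O Ω] [IsScalarTower O V Ω]
  [Algebra.IsIntegral O V] [IsLocalization.Away (algebraMap O V p) Ω] {B C₀ : Type} [CommRing B]
  [CommRing C₀] [Algebra (MvPolynomial Unit (JB (noEq κ O))) B] [Algebra O B]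
  [IsScalarTower O (MvPolynomial Unit (JB (noEq κ O))) B] [Algebra B C₀] [Algebra O C₀]
  [IsScalarTower O B C₀]

/-- The slice `τ = a` of the tube of a zero locus. -/
theorem slice (h1 : ¬ IsUnit (algebraMap O V p)) (h2 : IsUnit (l : V))
    (hD : Dat p (MvPolynomial Unit (JB (noEq κ O))) B C₀)
    (φ : MvPolynomial Unit (JB (noEq κ O)) →+* C₀)
    (hφ : φ = (algebraMap B C₀).comp (algebraMap _ B)) (c' : MI e → O) (a : O) :
    ∃ (C' : Type) (_ : CommRing C') (_ : Algebra O C') (_ : Algebra C₀ C')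
      (_ : IsScalarTower O C₀ C'), Function.Surjective (algebraMap C₀ C') ∧
      algebraMap C₀ C' (φ (X ())) = algebraMap O C' a ∧
      (∀ i, Bez.eqI (algebraMap O C₀ ∘ c') i (φ ∘ C ∘ je (noEq κ O)) ≤
        RingHom.ker (algebraMap C₀ C')) ∧
      RingHom.ker (algebraMap C₀ C') ≤ Ideal.span {φ (X ()) - algebraMap O _ a} ⊔
        ⨆ i, Bez.eqI (algebraMap O C₀ ∘ c') i (φ ∘ C ∘ je (noEq κ O)) ∧
      ∀ {Z : Scheme.{0}} {f : Z ⟶ Spec (.of Ω)} {z : κ → (Z ⟶ P1)},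
        ZL f z (algebraMap O Ω ∘ c') →
        ∃ s : Spec (.of (Ω ⊗[O] C')) ⟶ Z, s ≫ f = spc (iL O Ω C') ∧
          Ad (iR O Ω C' ∘ algebraMap C₀ C' ∘ φ ∘ C ∘ je (noEq κ O))
            (fun k => s ≫ z k) ∧ (∀ n, Bijective (hpb l s n)) ∧
          ∀ (σ : Ω ≃ₐ[O] Ω) (g : Z ⟶ Z),
            g ≫ f = f ≫ spc (σ : Ω →+* Ω) → (∀ k, g ≫ z k = z k) →
            spc (tw σ C') ≫ s = s ≫ g := by
  obtain ⟨r, r0, r1, r2, r3, r4⟩ := ex_r c' a
  have f0 : ∀ x, φ (algebraMap O _ x) = algebraMap O C₀ x := fun x => by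
    rw [hφ, RingHom.comp_apply, ← IsScalarTower.algebraMap_apply O _ B,
      ← IsScalarTower.algebraMap_apply O B C₀]
  obtain ⟨B', _, _, _, π, hD', -, -, a1, a2⟩ := hD.quo r r0
    (Ideal.Quotient.mk ((RingHom.ker r).map φ)) Ideal.Quotient.mk_surjective
    (by rw [Ideal.mk_ker, hφ])
  have key : ∀ x, algebraMap C₀ (C₀ ⧸ (RingHom.ker r).map φ) (φ x) =
      algebraMap B' _ (algebraMap (JB c') B' (r x)) := fun x => by
    rw [← a1, ← a2]
    exact congrArg (Ideal.Quotient.mk _) (RingHom.congr_fun hφ x)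
  let β : JB c' →ₐ[O] C₀ ⧸ (RingHom.ker r).map φ :=
    ⟨(algebraMap B' _).comp (algebraMap (JB c') B'), fun x => by
      change algebraMap B' _ (algebraMap (JB c') B' _) = _
      rw [← r2, ← key, f0]
      rfl⟩
  have b1 : algebraMap C₀ _ ∘ φ ∘ C ∘ je (noEq κ O) = β ∘ je c' := funext fun v =>
    (key _).trans (congrArg β (r1 v))
  refine ⟨C₀ ⧸ (RingHom.ker r).map φ, _, _, _, inferInstance, Ideal.Quotient.mk_surjective,
    (key _).trans ((congrArg β r3).trans (β.commutes a)), fun i => Ideal.span_le.2 ?_, ?_,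
    fun hz => b1 ▸ su0 l O V Ω p c' (JB c') B' _ β (fun _ => rfl) (aff_self _) hD' h1 h2 hz⟩
  · rintro _ ⟨σ, rfl⟩
    have h := congrArg β.toRingHom (Bez.gen_je c' i σ)
    rw [map_zero, Bez.map_gen] at h
    rw [SetLike.mem_coe, RingHom.mem_ker, Bez.map_gen, ← h]
    congr 1
    · exact funext fun j => (β.commutes _).symm
    · exact funext fun v => congrFun b1 _
  · refine Ideal.mk_ker.le.trans ((Ideal.map_mono r4).trans ?_)
    rw [Ideal.map_sup, Ideal.map_span, Set.image_singleton, map_sub, f0, Ideal.map_iSup]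
    refine sup_le_sup_left (iSup_mono fun i => Ideal.map_le_iff_le_comap.2 (Ideal.span_le.2 ?_)) _
    rintro _ ⟨σ, rfl⟩
    have h := Bez.map_gen φ (algebraMap O _ ∘ c') i (col (C ∘ je (noEq κ O)) σ)
    rw [show φ ∘ algebraMap O _ ∘ c' = algebraMap O C₀ ∘ c' from funext fun j => f0 _] at h
    exact Ideal.subset_span ⟨σ, h.symm⟩

end Pool.Agent.MP_855f4c_ag.T.Su2

end

section

/-! h14a, section 1: homotopy invariance and retracts for `Ext(A_U, G)`. -/

set_option autoImplicit false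
set_option backward.isDefEq.respectTransparency false

open CategoryTheory Limits Abelian Function AlgebraicGeometry Opposite

namespace Pool.Agent.MP_855f4c_ag.T.A1k

open E E3 E4 Pbc Exce
open Tel hiding πU

variable {T T' T'' : Scheme.{0}}

/-- Pull-back of `Ext(A, G)` along `g`. -/
noncomputable abbrev cp (g : T' ⟶ T) (A G : Sh (Scheme.etaleTopology.over T)) (q : ℕ) :
    Ext.{1} A G q →+ Ext.{1} ((pbe g).obj A) ((pbe g).obj G) q := E.cmp (pbe g) (𝟙 _) G q

lemma cp_apply (g : T' ⟶ T) {A G : Sh (Scheme.etaleTopology.over T)} {q : ℕ} (x : Ext.{1} A G q) :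
    cp g A G q x = x.mapExactFunctor (pbe g) := by
  rw [cp, cmp_apply, Ext.mk₀_id_comp]

lemma cp_comp (g' : T'' ⟶ T') (g : T' ⟶ T) (A G : Sh (Scheme.etaleTopology.over T)) (q : ℕ) :
    post _ (pc g' g G).hom q ∘ cp g' _ _ q ∘ cp g A G q =
      pre (pc g' g A).hom _ q ∘ cp (g' ≫ g) A G q := funext fun x => by
  simp only [comp_apply, cp_apply]
  exact nat_comp (pbe g) (pbe g') (pbe (g' ≫ g)) (fun A => (pc g' g A).hom) (pc_nat g' g) x

lemma bij_comp (g' : T'' ⟶ T') (g : T' ⟶ T) (A G : Sh (Scheme.etaleTopology.over T)) (q : ℕ) :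
    Bijective (cp (g' ≫ g) A G q) ↔ Bijective (cp g' _ _ q ∘ cp g A G q) := by
  rw [← (pre_bij (pc g' g A).hom _ q).of_comp_iff', ← cp_comp,
    (post_bij _ (pc g' g G).hom q).of_comp_iff']

variable {A G : Sh (Scheme.etaleTopology.over T)}

lemma mb_id (A G : Sh (Scheme.etaleTopology.over T)) : MB.{1} (pbe (𝟙 T)) G A := fun q => by
  have h : post _ (pi G).hom q ∘ cp (𝟙 T) A G q = pre (pi A).hom _ q := funext fun x => by
    simp only [comp_apply, cp_apply]
    exact nat_id (pbe (𝟙 T)) (fun A => (pi A).hom) pi_nat x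
  have h2 := pre_bij.{1} (pi A).hom G q
  rw [← h] at h2
  exact ((post_bij _ (pi G).hom q).of_comp_iff' _).1 h2

/-- **RET**: a retract over `T` of a map that is bijective on `Ext(A, G)`. -/
theorem ret {W : Scheme.{0}} {g : T' ⟶ T} {ρ : W ⟶ T} (s : T' ⟶ W) (r : W ⟶ T')
    (hs : s ≫ r = 𝟙 _) (hr : r ≫ g = ρ) (h : MB.{1} (pbe ρ) G A) : MB.{1} (pbe g) G A := by
  subst hr
  intro q
  have h1 := (bij_comp r g A G q).1 (h q)
  have h2 := (bij_comp s r ((pbe g).obj A) ((pbe g).obj G) q).1 (hs ▸ mb_id _ _ q)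
  exact ⟨h1.1.of_comp, fun y => (h1.2 (cp r _ _ q y)).imp fun x hx => h2.1.of_comp hx⟩

/-- The form with comparison isomorphisms in both variables. -/
lemma MB.kpb {g : T' ⟶ T} (h : MB.{1} (pbe g) G A) {A' G' : Sh (Scheme.etaleTopology.over T')}
    (a : A' ⟶ (pbe g).obj A) [IsIso a] (c : (pbe g).obj G ⟶ G') [IsIso c] (q : ℕ) :
    Bijective ((post A' c q).comp (E.cmp (pbe g) a G q)) :=
  (post_bij _ c q).comp ((mb_iff a (pre_bij _ _)).1 h q)

lemma ez_tc {l : ℕ} (O : T.Opens) (h : Tc l G) : Tc l ((ez O).obj G) :=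
  ⟨CLZ.ez_cc h.1, fun U hU s => (h.2 U hU s.1).imp fun _ hn => Subtype.ext hn⟩

section hb
variable (g : T' ⟶ T) (O : T.Opens)

/-- The restriction of `g` to `O`, over `T`. -/
noncomputable def gO : (Over.map g).obj (Over.mk (g ⁻¹ᵁ O).ι) ⟶ Over.mk O.ι :=
  Over.homMk (g ∣_ O) (morphismRestrict_ι g O)

/-- The map `g`, over `T`. -/
noncomputable def gT : (Over.map g).obj (E.top T') ⟶ E.top T := Over.homMk g (by simp)

variable {g O}

lemma hb_gT (h : SA.HB (SA.tp g) G) : SA.HB (gT g) G := by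
  let a : (Over.map g).obj (E.top T') ⟶ Over.mk g := Over.homMk (𝟙 _) rfl
  have : IsIso a := isIso_homMk _ (inferInstanceAs (IsIso (𝟙 T')))
  exact (SA.hb_of_sq (gT g) (SA.tp g) a (𝟙 _) (Over.OverMorphism.ext (by simp [a, gT, SA.tp]))).2 h

lemma hb_gO (h : SA.HB (SA.tp (g ∣_ O)) ((pbe O.ι).obj G)) : SA.HB (gO g O) G := by
  let a : (Over.map g).obj (Over.mk (g ⁻¹ᵁ O).ι) ⟶ (Over.map O.ι).obj (Over.mk (g ∣_ O)) :=
    Over.homMk (𝟙 _) ((Category.id_comp _).trans (morphismRestrict_ι g O))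
  let b : Over.mk O.ι ⟶ (Over.map O.ι).obj (E.top O) := Over.homMk (𝟙 _) (by simp)
  have : IsIso a := isIso_homMk _ (inferInstanceAs (IsIso (𝟙 _)))
  have : IsIso b := isIso_homMk _ (inferInstanceAs (IsIso (𝟙 _)))
  exact (SA.hb_of_sq (gO g O) _ a b (Over.OverMorphism.ext (by simp [a, b, gO, SA.tp]))).2
    ((SA.hb_pb O.ι _).1 h)

lemma mb_fr (h1 : SA.HB (gT g) G) (h2 : SA.HB (gO g O) G) :
    MB.{1} (pbe g) G (cokernel ((fr (Scheme.etaleTopology.over T)).map (uO O))) := by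
  have w : (Over.map g).map (uO (g ⁻¹ᵁ O)) ≫ gT g = gO g O ≫ uO O :=
    Over.OverMorphism.ext (morphismRestrict_ι g O).symm
  have : Mono ((Over.map g).map (uO (g ⁻¹ᵁ O))).left := inferInstanceAs (Mono (g ⁻¹ᵁ O).ι)
  have : Mono ((Over.map g).map (uO (g ⁻¹ᵁ O))) := Over.mono_of_mono_left _
  have i1 := fr_iso g (gO g O) (isPullback_morphismRestrict g O)
  have i2 := fr_iso g (V' := E.top _) (V := E.top _) (gT g) (IsPullback.of_vert_isIso ⟨by simp [gT]⟩)
  exact mb_coker' _ _ _ (by rw [← Functor.map_comp, ← Functor.map_comp, w])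
    (frPs_nat (Over.map g) (Scheme.etaleTopology.over _) (Scheme.etaleTopology.over _) (uO (g ⁻¹ᵁ O)))
    (slH_bij g _ G) (slH_bij g _ G) i1 i2
    (ExtBij.τ₃ (pair_exact _ _) (pair_exact _ _) (pairMap _ _ _ w) h2 h1)

lemma tel {Q : Sh (Scheme.etaleTopology.over T) ⥤ Sh (Scheme.etaleTopology.over T)} [Q.Additive]
    (hQ : Good (cst T ⋙ Q)) (h : MB.{1} (pbe g) G (Q.obj ((cst T).obj (.of (ULift ℤ)))))
    (M : Ab.{1}) : MB.{1} (pbe g) G (Q.obj ((cst T).obj M)) := by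
  have := (pbpf g).leftAdjoint_preservesColimits.{1, 1}
  exact telc hQ (Ψ := (cst _ ⋙ Q) ⋙ pbe g)
    ⟨fun S hS => (hQ.ex S hS).map_of_exact (pbe g), fun ι => have := hQ.sum ι; inferInstance⟩ _
    (𝟙 _) G h M

/-- Cohomology of `T` and of `O` unchanged: `Ext(M / M_O, G)` unchanged. -/
theorem mbQ (h1 : SA.HB (SA.tp g) G) (h2 : SA.HB (SA.tp (g ∣_ O)) ((pbe O.ι).obj G))
    {Q : Sh (Scheme.etaleTopology.over T) ⥤ Sh (Scheme.etaleTopology.over T)} {π : 𝟭 _ ⟶ Q}
    (h : IsQ O Q π) (M : Ab.{1}) : MB.{1} (pbe g) G (Q.obj ((cst T).obj M)) := by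
  have := h.additive
  obtain ⟨m, _, -⟩ := q_fr h
  obtain ⟨e⟩ := cst_fr T
  exact tel (h.good good_cst) (((mb_fr (hb_gT h1) (hb_gO h2)).of_iso m).of_iso (Q.map e.hom)) M

variable (l : ℕ) [Fact l.Prime]

theorem mbA (h1 : SA.HB (SA.tp g) G) (h2 : SA.HB (SA.tp (g ∣_ O)) ((pbe O.ι).obj G)) :
    MB.{1} (pbe g) G (AU l O) := mbQ h1 h2 (isQ O) (.of (ULift.{1} (QZ l)))

end hb

section abu
variable {W X : Scheme.{0}} {ρ : W ⟶ X} (l : ℕ) [Fact l.Prime] (hρ : GG.AffB ρ) [CompactSpace X]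
  [X.IsSeparated] (hl : Linv l X) {F : Sh (Scheme.etaleTopology.over X)} (hF : Tc l F)
  {U : X.Opens} (hU : IsCompact (U : Set X))
include hρ hl hF

lemma hb_top : SA.HB (SA.tp ρ) F := All.hABU.2 l W X ρ F hρ ‹_› ‹_› hl hF

include hU

omit [CompactSpace X] in
lemma hb_open : SA.HB (SA.tp (ρ ∣_ U)) ((pbe U.ι).obj F) :=
  All.hABU.2 l _ _ _ _ (All.hABU.1 _ _ _ _ ρ _ _ _ (isPullback_morphismRestrict ρ U).flip hρ)
    (isCompact_iff_compactSpace.1 hU)
    ⟨by rw [← terminal.comp_from U.ι]; infer_instance⟩ (hl.of_hom U.ι) (hF.pb U.ι)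

/-- **ABU** with supports. -/
theorem abu : MB.{1} (pbe ρ) F (AU l U) := mbA l (hb_top l hρ hl hF) (hb_open l hρ hl hF hU)

end abu

lemma affB_poly (A σ : Type) [CommRing A] [Finite σ] :
    GG.AffB (spc (algebraMap A (MvPolynomial σ A))) := fun x =>
  ⟨A, _, 𝟙 _, σ, ‹_›, 𝟙 _, inferInstance, ⟨x, rfl⟩, .of_horiz_isIso ⟨by simp⟩⟩

/-- **A1** with supports. -/
theorem a1 (l : ℕ) [Fact l.Prime] (A σ : Type) [CommRing A] [Finite σ] (hl : IsUnit (l : A))
    {F : Sh (Scheme.etaleTopology.over (Spec (.of A)))} (hF : Tc l F) {U : (Spec (.of A)).Opens}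
    (hU : IsCompact (U : Set (Spec (.of A)))) :
    MB.{1} (pbe (spc (algebraMap A (MvPolynomial σ A)))) F (AU l U) :=
  abu l (affB_poly A σ) (Linv.spec hl) hF hU

end Pool.Agent.MP_855f4c_ag.T.A1k

end
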