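import Pool.Agent.MP_855f4c_ag.TC.All

set_option linter.all false

section

/-! h14a row KL: complementary classes on the left. -/

set_option autoImplicit false
set_option backward.isDefEq.respectTransparency false

open CategoryTheory Limits Abelian Opposite AlgebraicGeometry Function

namespace Pool.Agent.MP_855f4c_ag.T.Kl

open E E3 E4 Kert EZ

variable (l : ℕ) [Fact l.Prime]

universe w v u

section
variable {A : Type u} [Category.{v} A] [Abelian A] [HasExt.{w} A] [EnoughInjectives A]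

theorem core1 {Φ : Ab.{0} ⥤ A} [Φ.Additive] (hΦ : Tel.Good Φ) (G : A) (i : ℕ)
    (ψ : QZ l →+ Ext.{w} (Φ.obj (.of ℤ)) G i) : ∃ x : Ext.{w} (Φ.obj (.of (QZ l))) G i,
      ∀ n, pre (Φ.map (AddCommGrpCat.ofHom (zmultiplesHom (QZ l) (qe l (n + 1))))) G i x =
        ψ (qe l (n + 1)) := by
  have := hΦ.sum ℕ
  have hb := Tel.sigma_bij.{w} (isColimitOfPreserves Φ cfc) i G
  have hL := con_les.{w} (hΦ.ex _ (SS_exact l)) G
  let e : ℕ → Ext.{w} (Φ.obj (.of (ℕ →₀ ℤ))) G i →+ Ext.{w} (Φ.obj (.of ℤ)) G i :=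
    fun n => pre (Φ.map (AddCommGrpCat.ofHom (eZ n))) G i
  obtain ⟨z, hz⟩ := hb.2 fun n => ψ (qe l (n.as + 1))
  have hz' (n : ℕ) : e n z = ψ (qe l (n + 1)) := congrFun hz ⟨n⟩
  have hq (n : ℕ) : l • qe l (n + 1) = qe l n := by
    cases n with
    | zero =>
      have h := pp_dd l (eZ 0 1)
      rwa [dd_zero, map_nsmul, pp_e, one_smul, ← qe_zero l] at h
    | succ n =>
      have h := pp_dd l (eZ (n + 1) 1)
      rwa [dd_succ, map_sub, map_nsmul, pp_e, pp_e, one_smul, one_smul, sub_eq_zero] at h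
  obtain ⟨x, hx⟩ := (hL.e₂ i z).1 (hb.1 (funext fun n => by
    change e n.as (pre (Φ.map (AddCommGrpCat.ofHom (dd l))) G i z) = e n.as 0
    have hp (a : Φ.obj (.of ℤ) ⟶ Φ.obj (.of (ℕ →₀ ℤ))) :
        pre a G i z = Ext.bilinearComp _ _ _ 0 i i (zero_add i) (Ext.addEquiv₀.symm a) z := rfl
    rw [map_zero, pre_pre, ← Φ.map_comp]
    obtain ⟨n⟩ := n
    cases n with
    | zero =>
      rw [show AddCommGrpCat.ofHom (eZ 0) ≫ AddCommGrpCat.ofHom (dd l) =
        l • AddCommGrpCat.ofHom (eZ 0) from AddCommGrpCat.ext (dd_zero l), Φ.map_nsmul, hp,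
        map_nsmul, map_nsmul]
      change l • e 0 z = 0
      rw [hz', ← map_nsmul, hq, qe_zero, map_zero]
    | succ n =>
      rw [show AddCommGrpCat.ofHom (eZ (n + 1)) ≫ AddCommGrpCat.ofHom (dd l) =
        l • AddCommGrpCat.ofHom (eZ (n + 1)) - AddCommGrpCat.ofHom (eZ n) from
          AddCommGrpCat.ext (dd_succ l n), Φ.map_sub, Φ.map_nsmul, hp, map_sub, map_sub,
        map_nsmul, map_nsmul]
      change l • e (n + 1) z - e n z = 0
      rw [hz', hz', ← map_nsmul, hq, sub_self]))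
  refine ⟨x, fun n => Eq.trans ?_ (hz' n)⟩
  rw [← hx]
  refine Eq.trans ?_ (pre_pre _ _ x).symm
  refine congrArg (fun t => pre t G i x) (Eq.trans (congrArg _ ?_) (Φ.map_comp _ _))
  ext
  exact (pp_e l _ _).symm
end

variable {l} {T : Scheme.{0}}

lemma ext_qe {M : Type*} [AddCommGroup M] {f g : QZ l →+ M}
    (h : ∀ n, f (qe l (n + 1)) = g (qe l (n + 1))) : f = g := AddMonoidHom.ext fun y => by
  obtain ⟨n, hn⟩ := cof_QZ.1 y
  obtain ⟨x, rfl⟩ := (qj_ex l (n + 1) y).1 (by rw [pow_succ', mul_smul, hn, smul_zero])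
  obtain ⟨a, rfl⟩ := ZMod.intCast_surjective x
  rw [qj_int, map_zsmul, map_zsmul, h]

/-- Every compatible system of classes comes from a class with source `Linf`. -/
theorem tsurj (G : Sh (Scheme.etaleTopology.over T)) (i : ℕ) (ψ : QZ l →+ Ext.{1} (Zs T) G i) :
    ∃ x : Ext.{1} (Linf l T) G i, ∀ a, pre (ta l T a) G i x = ψ a := by
  obtain ⟨x, hx⟩ := core1 l (Φ := con T) ⟨fun _ h => h.map_of_exact _, fun ι => by
    unfold con cst constantSheaf
    infer_instance⟩ G i ψ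
  let f : QZ l →+ Ext.{1} (Zs T) G i := AddMonoidHom.mk' (fun a => pre (ta l T a) G i x)
    fun a b => by
      change (Ext.mk₀ (ta l T (a + b))).comp x (zero_add i) =
        (Ext.mk₀ (ta l T a)).comp x (zero_add i) + (Ext.mk₀ (ta l T b)).comp x (zero_add i)
      rw [KTop.ta_add, Ext.mk₀_add, Ext.add_comp]
  exact ⟨x, DFunLike.congr_fun (ext_qe (f := f) (g := ψ) hx)⟩

lemma comm (ρ w : QZ l →+ QZ l) (b : QZ l) : w (ρ b) = ρ (w b) := by
  obtain ⟨c, hc⟩ := ENDQ.ex w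
  obtain ⟨d, hd⟩ := ENDQ.ex ρ
  obtain ⟨x, rfl⟩ := QuotientAddGroup.mk_surjective b
  rw [hd, hc, hc, hd, mul_right_comm]

/-- A character that is not torsion is not zero on the divisible part. -/
lemma dvs {M : Type 1} [AddCommGroup M] (hM : Cof l M) (χ : M →+ QZ l)
    (hχ : ∀ n : ℕ, l ^ n • χ ≠ 0) : ∃ ψ : QZ l →+ M, χ.comp ψ ≠ 0 := by
  obtain ⟨c, hc⟩ := hM.range_ev
  obtain ⟨m, hm⟩ : ∃ m, χ (l ^ c • m) ≠ 0 := by
    by_contra h
    push Not at h
    exact hχ c (AddMonoidHom.ext fun m => (map_nsmul χ _ m).symm.trans (h m))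
  obtain ⟨f, hf⟩ := (hc _).2 ⟨m, rfl⟩
  obtain ⟨n, hn⟩ := hM.1 (l ^ c • m)
  have h1 : (((l : ℚ_[l]) ^ n • f : V l M)).1 1 = 0 := by
    change E.ev l M ((l : ℚ_[l]) ^ n • f) = 0
    rw [← Nat.cast_pow, Nat.cast_smul_eq_nsmul, map_nsmul, hf, hn]
  refine ⟨QuotientAddGroup.lift _ (((l : ℚ_[l]) ^ n • f : V l M).1 : ℚ_[l] →+ M)
    fun x hx => V.ev_zero h1 (QZ.mk_zero.1 ((QuotientAddGroup.eq_zero_iff x).2 hx)),
    fun h => hm ?_⟩
  have h2 := DFunLike.congr_fun h (QuotientAddGroup.mk ((l : ℚ_[l]) ^ n)⁻¹)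
  change χ (f.1 (((l : ℚ_[l]) ^ n)⁻¹ * (l : ℚ_[l]) ^ n)) = 0 at h2
  rw [inv_mul_cancel₀ (pow_ne_zero n l_ne)] at h2
  rw [← hf]
  exact h2

open KTop in
/-- Complementary classes on the left. -/
theorem kleft {N : ℕ} (t : HH l T N →+ QZ l) (hq : Qcs T) (hc : ConnectedSpace T) (hP : PDh t)
    (i j : ℕ) (h : j + i = N) (α : EE l T i) (η : EE l T N) (hα : ∃ a, tau α a ≠ 0) :
    ∃ (m : ℕ) (α' : EE l T j), α'.comp α h = l ^ m • η := by
  obtain ⟨e1, -, e3, -⟩ := endq l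
  obtain ⟨k1, -, -⟩ := kh zb l T
  obtain ⟨a, ha⟩ := hα
  have hL := hP _ (G0.linf_Tc l T)
  obtain ⟨ψ, hψ⟩ := dvs (kcof endq (kh zb) l T N t hq hP j (by omega)) (dm t _ h α) fun n hn => by
    obtain ⟨b, rfl⟩ := e3 (l ^ n : ℕ) a (by exact_mod_cast pow_ne_zero n (Fact.out : l.Prime).ne_zero)
    have h0 : l ^ n • α = 0 := (hL i j h).1 (AddMonoidHom.ext fun y => by
      change t (y.comp (l ^ n • α) h) = t (y.comp 0 h)
      rw [Ext.comp_zero, map_zero]
      exact (congrArg t (map_nsmul (Ext.bilinearComp _ _ _ j i _ h y) _ α)).trans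
        ((map_nsmul t _ _).trans (DFunLike.congr_fun hn y)))
    refine ha ?_
    rw [natCast_zsmul]
    exact (map_nsmul (tauH α) _ b).trans ((tau_nsmul _ α b).symm.trans (by
      rw [h0]; exact map_zero (pre (ta l T b) _ i)))
  obtain ⟨m, ρ, hρ⟩ := e1 _ (t.comp (tauH η)) hψ
  obtain ⟨α', hα⟩ := tsurj (Linf l T) j (ψ.comp ρ)
  refine ⟨m, α', (hL N 0 (zero_add N)).1 (AddMonoidHom.ext fun y => ?_)⟩
  obtain ⟨b, rfl⟩ := (k1 hc).2 y
  change t (tau (α'.comp α h) b) = t (tau (l ^ m • η) b)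
  rw [tau_comp, tau_nsmul, map_nsmul]
  exact (congrArg (fun y => t (Ext.comp y α h)) (hα b)).trans
    ((comm ρ ((dm t _ h α).comp ψ) b).trans (DFunLike.congr_fun hρ b))

/-- The trace on the geometric fibre. -/
theorem fib (l : ℕ) [Fact l.Prime] (K Ω : Type) [Field K] [Field Ω] [IsAlgClosed Ω]
    [CharZero Ω] (τ : K →+* Ω) (X : Scheme.{0}) (f : X ⟶ Spec (.of K)) [Smooth f] [IsProper f]
    (d : ℕ) (hd : D.Chart d f) (hI : IrreducibleSpace (fbr f (spc τ)).left) :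
    Qcs (fbr f (spc τ)).left ∧ ∃ t : HH l (fbr f (spc τ)).left (2 * d) →+ QZ l, PDh t := by
  have hd' : D.Chart d (pullback.fst (spc τ) f) :=
    D.twf.2.2 d X _ _ _ f _ (spc τ) _ (IsPullback.of_hasPullback (spc τ) f).flip inferInstance hd
  have : IrreducibleSpace (pullback (spc τ) f : Scheme.{0}) := hI
  exact ⟨Kpd.qcs (pullback.fst (spc τ) f), Kpd.pdh zb (All.hPDX l Ω _ _ d hd')⟩

/-- The left complement on the geometric fibre, in the shape of `KPD_s`. -/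
theorem kpdl (l : ℕ) [Fact l.Prime] (K Ω : Type) [Field K] [Field Ω] [IsAlgClosed Ω]
    [CharZero Ω] (τ : K →+* Ω) (X : Scheme.{0}) (f : X ⟶ Spec (.of K)) [Smooth f] [IsProper f]
    (d : ℕ) (hd : D.Chart d f) (hI : IrreducibleSpace (fbr f (spc τ)).left)
    (i j : ℕ) (h : j + i = 2 * d) (α : EE l (fbr f (spc τ)).left i) (η)
    (hα : ∃ a, tau α a ≠ 0) : ∃ (m : ℕ) (α' : EE l _ j), α'.comp α h = l ^ m • η := by
  obtain ⟨hq, t, ht⟩ := fib l K Ω τ X f d hd hI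
  exact kleft t hq inferInstance ht i j h α η hα

end Pool.Agent.MP_855f4c_ag.T.Kl

end

section

section

/-! h14a row TOPX: classes that die on the complement of a dense open set, in top degree. -/

set_option autoImplicit false
set_option backward.isDefEq.respectTransparency false

open CategoryTheory Limits Abelian Opposite AlgebraicGeometry Function

namespace Pool.Agent.MP_855f4c_ag.T.Topx

open E E3 E4 EZ Kert

section

universe w v u

variable {A : Type u} [Category.{v} A] [Abelian A] [HasExt.{w} A] [EnoughInjectives A]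

/-- The telescope: no `lim^1` term over a divisible group. -/
theorem core (l : ℕ) [Fact l.Prime] {Φ : Ab.{0} ⥤ A} [Φ.Additive] (hΦ : Tel.Good Φ) (G : A)
    (i : ℕ) (hc : ∀ k, k + 1 = i → ∀ m : Ext.{w} (Φ.obj (.of ℤ)) G k, ∃ m', m = l • m')
    (x : Ext.{w} (Φ.obj (.of (QZ l))) G i)
    (hx : ∀ a, pre (Φ.map (AddCommGrpCat.ofHom (zmultiplesHom (QZ l) a))) G i x = 0) : x = 0 := by
  have := hΦ.sum ℕ
  have hb := fun q => Tel.sigma_bij.{w} (isColimitOfPreserves Φ cfc) q G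
  have hL := con_les.{w} (hΦ.ex _ (SS_exact l)) G
  have h0 : pre ((SS l).map Φ).g G i x = 0 := (hb i).1 (funext fun n => by
    refine ((pre_pre _ _ x).trans ?_).trans (map_zero _).symm
    refine Eq.trans ?_ (hx (qe l (n.as + 1)))
    refine congrArg (fun t => pre t G i x) ((Φ.map_comp _ _).symm.trans (congrArg _ ?_))
    ext
    exact pp_e l _ _)
  cases i with
  | zero => exact hL.inj (h0.trans (map_zero _).symm)
  | succ k =>
    obtain ⟨β, rfl⟩ := (hL.e₁ k x).1 h0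
    let e : ℕ → Ext.{w} (Φ.obj (.of (ℕ →₀ ℤ))) G k →+ Ext.{w} (Φ.obj (.of ℤ)) G k :=
      fun n => pre (Φ.map (AddCommGrpCat.ofHom (eZ n))) G k
    obtain ⟨y, h1, h2⟩ := solve l (c := 0) (by simpa using hc k rfl) fun n => e n β
    obtain ⟨z, hz⟩ := (hb k).2 fun n => y n.as
    have hz' (n : ℕ) : e n z = y n := congrFun hz ⟨n⟩
    refine (hL.e₃ k _).2 ⟨z, (hb k).1 (funext fun n => ?_)⟩
    change e n.as (pre (Φ.map (AddCommGrpCat.ofHom (dd l))) G k z) = e n.as β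
    have hp (a : Φ.obj (.of ℤ) ⟶ Φ.obj (.of (ℕ →₀ ℤ))) :
        pre a G k z = Ext.bilinearComp _ _ _ 0 k k (zero_add k) (Ext.addEquiv₀.symm a) z := rfl
    simp only [pow_zero, one_smul] at h1 h2
    rw [pre_pre, ← Φ.map_comp]
    obtain ⟨n⟩ := n
    cases n with
    | zero =>
      rw [← h1, ← hz', show AddCommGrpCat.ofHom (eZ 0) ≫ AddCommGrpCat.ofHom (dd l) =
        l • AddCommGrpCat.ofHom (eZ 0) from AddCommGrpCat.ext (dd_zero l), Φ.map_nsmul, hp,
        map_nsmul, map_nsmul]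
      rfl
    | succ n =>
      rw [← h2, ← hz', ← hz', show AddCommGrpCat.ofHom (eZ (n + 1)) ≫ AddCommGrpCat.ofHom (dd l) =
        l • AddCommGrpCat.ofHom (eZ (n + 1)) - AddCommGrpCat.ofHom (eZ n) from
          AddCommGrpCat.ext (dd_succ l n), Φ.map_sub, Φ.map_nsmul, hp, map_sub, map_sub,
        map_nsmul, map_nsmul]
      rfl

end

variable {l : ℕ} [Fact l.Prime] {T : Scheme.{0}}

theorem good (T : Scheme.{0}) : Tel.Good (con T) :=
  ⟨fun _ h => h.map_of_exact _, fun ι => by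
    unfold con cst constantSheaf
    infer_instance⟩

/-- From `H` to `Ext(L, -)` for a divisible sheaf `G`. -/
theorem van_of (G : Sh (Scheme.etaleTopology.over T)) [Epi (l • 𝟙 G)] (i : ℕ)
    (h1 : ∀ y : H (E.top T) G i, y = 0) (h2 : ∀ y : H (E.top T) (kernel (l • 𝟙 G)) i, y = 0)
    (x : Ext.{1} (Linf l T) G i) : x = 0 := by
  obtain ⟨e⟩ := zb.1 T
  refine core l (good T) G i (fun k hk m => ?_) x fun a =>
    (pre_bij e.hom _ i).1 ((h1 _).trans (map_zero _).symm)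
  subst hk
  have hS : (ShortComplex.mk _ _ (kernel.condition (l • 𝟙 G))).ShortExact :=
    ⟨ShortComplex.exact_kernel _⟩
  obtain ⟨m', hm⟩ := ((cov_les.{1} (Zs T) hS).e₃ k m).1
    ((pre_bij e.hom _ _).1 ((h2 _).trans (map_zero _).symm))
  exact ⟨m', hm.symm.trans (Kcof.post_n l m')⟩

instance epi_L : Epi (l • 𝟙 (Linf l T)) := by
  have := (Zj_exact l T 1).epi_g
  simpa using this

theorem epi_q {G : Sh (Scheme.etaleTopology.over T)} (p : Linf l T ⟶ G) [Epi p] :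
    Epi (l • 𝟙 G) :=
  epi_of_epi_fac (f := p) (h := (l • 𝟙 (Linf l T)) ≫ p) (by simp)

theorem tc_AU (O : T.Opens) : Tc l (AU l O) :=
  Tc.coker _ (CLZ.ez_cc (Kpd.tc T).1) (Kpd.tc T)

theorem gz_AU (O : T.Opens) (hO : ∃ t, t ∈ O) : D.GZr (AU l O) := by
  intro k _ _ x hx s
  obtain ⟨s, rfl⟩ := pt_shl x (πU l O) s
  obtain ⟨t, ht⟩ := hO
  obtain ⟨s, rfl⟩ := (ezι_bij O (Linf l T) (T := Over.mk x) fun z => by
    obtain ⟨_, rfl, h⟩ := (hx z).exists_mem_open O.2 ⟨t, ht⟩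
    exact h).2 s
  exact congrArg (fun a => a.hom.app (op (Over.mk x)) s) (Pbc.ez_π (l := l) O)

/-- `Ext^i(L, G) = 0` for `i ≥ N - 1`, `G` a quotient of `L` that vanishes generically. -/
theorem van_q {N : ℕ} (hN : D.CDZ l T N) {G : Sh (Scheme.etaleTopology.over T)}
    (p : Linf l T ⟶ G) [Epi p] (hG : Tc l G) (hz : D.GZr G) {i : ℕ} (hi : N ≤ i + 1)
    (x : Ext.{1} (Linf l T) G i) : x = 0 :=
  have := epi_q p
  van_of G i (hN _ hG hz i hi) (hN _ (hG.ker _ hG.1) (D.CDG.gz_mono (kernel.ι _) hz) i hi) x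

theorem van_cdz {N : ℕ} (hN : D.CDZ l T N) (O : T.Opens) (hO : ∃ t, t ∈ O) {i : ℕ}
    (hi : N ≤ i + 1) (x : Ext.{1} (Linf l T) (AU l O) i) : x = 0 :=
  van_q hN (πU l O) (tc_AU O) (gz_AU O hO) hi x

theorem inj_cdz {N : ℕ} (hN : D.CDZ l T N) (O : T.Opens) (hO : ∃ t, t ∈ O) {i : ℕ}
    (hi : N ≤ i) : Bijective (post (Linf l T) ((ezι O).app (Linf l T)) i) := by
  have hL := cov_les.{1} (Linf l T) (Pbc.πU_exact (l := l) O)
  refine ⟨?_, fun y => (hL.e₂ i y).1 (van_cdz hN O hO (by omega) _)⟩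
  cases i with
  | zero => exact hL.inj
  | succ k =>
    refine (injective_iff_map_eq_zero _).2 fun x hx => ?_
    obtain ⟨y, rfl⟩ := (hL.e₁ k x).1 hx
    rw [van_cdz hN O hO hi y, map_zero]

variable (l) {Ω : Type} [Field Ω] [IsAlgClosed Ω] [CharZero Ω] {X : Scheme.{0}}
  (f : X ⟶ Spec (.of Ω)) [Smooth f] [IsProper f] [IrreducibleSpace X] {d : ℕ}

/-- In top degree the support map is bijective. -/
theorem topx (hd : D.Chart d f) (O : X.Opens) (hO : ∃ t, t ∈ O) :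
    Bijective (post (Linf l X) ((ezι O).app (Linf l X)) (2 * d)) :=
  inj_cdz (All.hCDG l Ω X f d hd).2 O hO le_rfl

end Pool.Agent.MP_855f4c_ag.T.Topx

end

end
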