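import Pool.Agent.MP_855f4c_ag.AC.Am

set_option linter.all false

section

/-! h14a row LES2: the long exact sequence of a closed subscheme in the coefficient variable. -/

set_option autoImplicit false
set_option backward.isDefEq.respectTransparency false

open CategoryTheory Limits Abelian Opposite AlgebraicGeometry Function

namespace Pool.Agent.MP_855f4c_ag.T.Les2

open E E3 E4 CLZ Pbc

variable {D D' T T' T'' : Scheme.{0}}

lemma les_tr {X₁ X₂ X₃ Y : ℕ → Type 1} [∀ q, AddCommGroup (X₁ q)] [∀ q, AddCommGroup (X₂ q)]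
    [∀ q, AddCommGroup (X₃ q)] [∀ q, AddCommGroup (Y q)] {f : ∀ q, X₁ q →+ X₂ q}
    {g : ∀ q, X₂ q →+ X₃ q} {d : ∀ q, X₃ q →+ X₁ (q + 1)} (h : IsLES f g d) (p : ∀ q, Y q →+ X₃ q)
    (b : ∀ q, Bijective (p q)) (k : ∀ q, X₂ q →+ Y q) (e : ∀ q y, p q (k q y) = g q y) :
    IsLES f k fun q => (d q).comp (p q) := by
  refine ⟨h.inj, fun q y => (h.e₁ q y).trans ⟨fun ⟨x, hx⟩ => ?_, fun ⟨x, hx⟩ => ⟨_, hx⟩⟩,
    fun q y => ?_, fun q y => (h.e₃ q _).trans (exists_congr fun x => ?_)⟩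
  · obtain ⟨x, rfl⟩ := (b q).2 x
    exact ⟨x, hx⟩
  · rw [← h.e₂ q y, ← map_eq_zero_iff _ (b q).1, e]
  · rw [← (b q).1.eq_iff, e]

section gen
variable {A B F F₁ : Sh (Scheme.etaleTopology.over T)} {A' B' F' F₁' : Sh (Scheme.etaleTopology.over T')}
  {A'' F'' : Sh (Scheme.etaleTopology.over T'')}

/-- Pull-back with a map of the sources and a map of the coefficients. -/
noncomputable def kp (g : T' ⟶ T) (a : A' ⟶ (pbe g).obj A) (c : (pbe g).obj F ⟶ F') (n : ℕ) :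
    Ext.{1} A F n →+ Ext.{1} A' F' n := (post A' c n).comp (cmp (pbe g) a F n)

lemma kp_apply (g : T' ⟶ T) (a : A' ⟶ (pbe g).obj A) (c : (pbe g).obj F ⟶ F') {n : ℕ}
    (x : Ext.{1} A F n) : kp g a c n x = post _ c n (pre a _ n (x.mapExactFunctor (pbe g))) := rfl

lemma kp_dl (g : T' ⟶ T) (a : A' ⟶ (pbe g).obj A)
    {S : ShortComplex (Sh (Scheme.etaleTopology.over T))}
    {S' : ShortComplex (Sh (Scheme.etaleTopology.over T'))} (hS : S.ShortExact)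
    (hS' : S'.ShortExact) (φ : S.map (pbe g) ⟶ S') {n : ℕ} (w : Ext.{1} A S.X₃ n) :
    kp g a φ.τ₁ (n + 1) (dl A hS n w) = dl A' hS' n (kp g a φ.τ₃ n w) := by
  rw [kp_apply, map_dl]
  exact (congrArg _ (pre_dl a (hS.map_of_exact (pbe g)) _)).trans (post_dl _ hS' φ _)

/-- Pull-back along a composite. -/
noncomputable def pce {g' : T'' ⟶ T'} {g : T' ⟶ T} {h : T'' ⟶ T} (e : g' ≫ g = h)
    (X : Sh (Scheme.etaleTopology.over T)) : (pbe g').obj ((pbe g).obj X) ≅ (pbe h).obj X :=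
  pc g' g X ≪≫ eqToIso (by rw [e])

variable {g' : T'' ⟶ T'} {g : T' ⟶ T} {h : T'' ⟶ T} (e : g' ≫ g = h)

lemma pce_nat (f : A ⟶ B) :
    (pbe g').map ((pbe g).map f) ≫ (pce e B).hom = (pce e A).hom ≫ (pbe h).map f := by
  subst e
  simpa only [pce, Iso.trans_hom, eqToIso_refl, Iso.refl_hom, Category.comp_id] using pc_nat g' g f

lemma kp_kp (a' : A'' ⟶ (pbe g').obj A') (a : A' ⟶ (pbe g).obj A) (c' : (pbe g').obj F' ⟶ F'')
    (c : (pbe g).obj F ⟶ F') {n : ℕ} (x : Ext.{1} A F n) : kp g' a' c' n (kp g a c n x) =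
      kp h (a' ≫ (pbe g').map a ≫ (pce e A).hom) ((pce e F).inv ≫ (pbe g').map c ≫ c') n x := by
  have h1 : (pbe g').map c ≫ c' = (pce e F).hom ≫ (pce e F).inv ≫ (pbe g').map c ≫ c' :=
    (Iso.hom_inv_id_assoc _ _).symm
  rw [kp_apply, kp_apply, kp_apply, map_post, map_pre, pre_post, post_post, pre_pre, h1,
    ← post_post, ← pre_post, nat_comp (pbe g) (pbe g') (pbe h) (fun A => (pce e A).hom)
      (pce_nat e), pre_pre, Category.assoc, Iso.inv_hom_id_assoc]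

lemma kp_id (a : B ⟶ (pbe (𝟙 T)).obj A) (c : (pbe (𝟙 T)).obj F ⟶ F₁) {n : ℕ} (x : Ext.{1} A F n) :
    kp (𝟙 T) a c n x = post _ ((pi F).inv ≫ c) n (pre (a ≫ (pi A).hom) _ n x) := by
  rw [kp_apply, ← pre_pre, ← nat_id (pbe (𝟙 T)) (fun A => (pi A).hom) pi_nat, pre_post, post_post,
    Iso.hom_inv_id_assoc]

/-- Maps into the part supported on `O`. -/
lemma lift (O : T.Opens) (φ : A ⟶ F)
    (h : ∀ (W : Over T) s, φ.hom.app (op W) s ∈ ezSub (Scheme.etaleTopology.over T) (ovU O) F.obj W) :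
    ∃ ψ : A ⟶ (ez O).obj F, ψ ≫ (ezι O).app F = φ :=
  ⟨⟨{ app W := AddCommGrpCat.ofHom ((φ.hom.app W).hom.codRestrict _ (h W.unop))
      naturality W W' w := by ext s; exact Subtype.ext (nat φ.hom w.unop s) }⟩, by ext; rfl⟩

lemma incl {O O' : T.Opens} (h : O ≤ O') (F : Sh (Scheme.etaleTopology.over T)) :
    ∃ u : (ez O).obj F ⟶ (ez O').obj F, u ≫ (ezι O').app F = (ezι O).app F :=
  lift O' _ fun _ s => (Scheme.etaleTopology.over T).superset_covering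
    (S := ezSieve (ovU O) F.obj s.1) (fun _ _ hy => hy.imp_right fun hy t => h (hy t)) s.2

lemma meet {O O₁ O₂ : T.Opens} (h : O ⊓ O₁ ≤ O₂) (F : Sh (Scheme.etaleTopology.over T)) :
    ∃ v : (ez O₁).obj ((ez O).obj F) ⟶ (ez O₂).obj F,
      v ≫ (ezι O₂).app F = (ezι O₁).app _ ≫ (ezι O).app F :=
  lift O₂ _ fun _ s => (Scheme.etaleTopology.over T).superset_covering
    (S := ezSieve (ovU O₁) ((ez O).obj F).obj s.1 ⊓ ezSieve (ovU O) F.obj s.1.1)
    (fun _ _ hy => hy.1.elim (fun h1 => .inl (congrArg Subtype.val h1))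
      fun h1 => hy.2.imp_right fun h2 t => h ⟨h2 t, h1 t⟩)
    ((Scheme.etaleTopology.over T).intersection_covering s.2 s.1.2)

end gen

/-! ### The sequence of a closed subscheme -/

section closed
variable (i : D ⟶ T) {A B F F₁ : Sh (Scheme.etaleTopology.over T)}
  {A' B' G : Sh (Scheme.etaleTopology.over D)}

/-- The adjoint map. -/
noncomputable def adj (c : (pbe i).obj F ⟶ G) : F ⟶ (pf i).obj G :=
  (pbpf i).unit.app F ≫ (pf i).map c

/-- The counit. -/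
noncomputable def cu (G : Sh (Scheme.etaleTopology.over D)) : (pbe i).obj ((pf i).obj G) ⟶ G :=
  (pbpf i).counit.app G

lemma adj_counit (c : (pbe i).obj F ⟶ G) : (pbe i).map (adj i c) ≫ cu i G = c :=
  ((pbpf i).homEquiv F G).symm_apply_apply c

lemma adj_cu (G : Sh (Scheme.etaleTopology.over D)) : adj i (cu i G) = 𝟙 _ :=
  (pbpf i).right_triangle_components G

theorem ses₀ [IsClosedImmersion i] {l : ℕ} {O : T.Opens} (h : ∀ x : T, x ∈ O ↔ x ∉ Set.range i)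
    (hl : Linv l T) (hF : Cc l F) (c : (pbe i).obj F ⟶ G) [IsIso c] :
    ∃ z : (ezι O).app F ≫ adj i c = 0, (ShortComplex.mk _ _ z).ShortExact := by
  have z₀ := w i (fun x => (h x).1) F
  have z : (ezι O).app F ≫ adj i c = 0 := 
    (Category.assoc _ _ _).symm.trans ((congrArg (· ≫ _) z₀).trans zero_comp)
  have := iso i h hl hF
  refine ⟨z, ShortComplex.shortExact_of_iso (S₁ := .mk _ _ (cokernel.condition ((ezι O).app F)))
    (ShortComplex.isoMk (Iso.refl _) (Iso.refl _)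
      (asIso (cokernel.desc _ _ z₀) ≪≫ (pf i).mapIso (asIso c)) (by simp) ?_)
    { exact := ShortComplex.exact_cokernel _ }⟩
  exact (Category.id_comp _).trans (cokernel.π_desc_assoc _ _ _ _).symm

variable [IsIntegralHom i] {u : F₁ ⟶ F} {c : (pbe i).obj F ⟶ G} {z : u ≫ adj i c = 0}
  (hS : (ShortComplex.mk _ _ z).ShortExact) (a : (pbe i).obj A ≅ A')

/-- The adjunction on classes. -/
noncomputable def ph (G : Sh (Scheme.etaleTopology.over D)) (n : ℕ) :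
    Ext.{1} A' G n →+ Ext.{1} A ((pf i).obj G) n := cmp (pf i) (adj i a.hom) G n

lemma ph_bij (G : Sh (Scheme.etaleTopology.over D)) (n : ℕ) : Bijective (ph i a G n) :=
  adj_bij i a G n

lemma ph_kp (c : (pbe i).obj F ⟶ G) {n : ℕ} (y : Ext.{1} A F n) :
    ph i a G n (kp i a.inv c n y) = post _ (adj i c) n y := adj_pb i a c n y

lemma ph_counit {n : ℕ} (y : Ext.{1} A ((pf i).obj G) n) :
    ph i a G n (kp i a.inv (cu i G) n y) = y := by
  rw [ph_kp, adj_cu, post_id]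

lemma counit_bij (G : Sh (Scheme.etaleTopology.over D)) (n : ℕ) :
    Bijective (kp i a.inv (cu i G) n) :=
  ((ph_bij i a G n).of_comp_iff' _).1 (by
    rw [show ph i a G n ∘ kp i a.inv (cu i G) n = id from funext (ph_counit i a)]
    exact bijective_id)

/-- The connecting map. -/
noncomputable def cd (n : ℕ) : Ext.{1} A' G n →+ Ext.{1} A F₁ (n + 1) :=
  (dl A hS n).comp (ph i a G n)

lemma cd_apply {n : ℕ} (y : Ext.{1} A' G n) : cd i hS a n y = dl A hS n (ph i a G n y) := rfl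

lemma cd_counit {n : ℕ} (y : Ext.{1} A ((pf i).obj G) n) :
    cd i hS a n (kp i a.inv (cu i G) n y) = dl A hS n y :=
  (cd_apply i hS a _).trans (congrArg (dl A hS n) (ph_counit i a y))

theorem les : IsLES (post A u) (kp i a.inv c) (cd i hS a) :=
  les_tr (cov_les A hS) (ph i a G) (ph_bij i a G) _ (fun _ y => ph_kp i a c y)

/-- The connecting map commutes with pull-back. -/
theorem cd_kp {i' : D' ⟶ T'} [IsIntegralHom i'] {g : T' ⟶ T} {gD : D' ⟶ D} {h : D' ⟶ T}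
    (e : i' ≫ g = h) (e' : gD ≫ i = h) {A₀ F₀ F₀₁ : Sh (Scheme.etaleTopology.over T')}
    {A₀' G₀ : Sh (Scheme.etaleTopology.over D')} {u₀ : F₀₁ ⟶ F₀} {c₀ : (pbe i').obj F₀ ⟶ G₀}
    {z₀ : u₀ ≫ adj i' c₀ = 0} (hS₀ : (ShortComplex.mk _ _ z₀).ShortExact)
    (a₀ : (pbe i').obj A₀ ≅ A₀') {r : A₀ ⟶ (pbe g).obj A} {rD : A₀' ⟶ (pbe gD).obj A'}
    {p₁ : (pbe g).obj F₁ ⟶ F₀₁} {p : (pbe g).obj F ⟶ F₀} {q : (pbe gD).obj G ⟶ G₀}
    (h₁ : p₁ ≫ u₀ = (pbe g).map u ≫ p)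
    (ha : a₀.inv ≫ (pbe i').map r ≫ (pce e A).hom = rD ≫ (pbe gD).map a.inv ≫ (pce e' A).hom)
    (hc : (pce e F).inv ≫ (pbe i').map p ≫ c₀ = (pce e' F).inv ≫ (pbe gD).map c ≫ q)
    {n : ℕ} (y : Ext.{1} A' G n) :
    kp g r p₁ (n + 1) (cd i hS a n y) = cd i' hS₀ a₀ n (kp gD rD q n y) := by
  obtain ⟨y, rfl⟩ := (counit_bij i a G n).2 y
  have h2 := hS.map_of_exact (pbe g)
  have := h2.epi_g
  obtain ⟨t, ht⟩ := h2.exact.desc' (p ≫ adj i' c₀) (by
    change (pbe g).map u ≫ _ = 0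
    rw [← reassoc_of% h₁, z₀, comp_zero])
  have ht' : (pbe g).map (adj i c) ≫ t = p ≫ adj i' c₀ := ht
  have h3 : Epi ((pbe h).map (adj i c)) := (hS.map_of_exact (pbe h)).epi_g
  have h4 : (pce e _).inv ≫ (pbe i').map t ≫ cu i' G₀ =
      (pce e' _).inv ≫ (pbe gD).map (cu i G) ≫ q := by
    rw [← cancel_epi ((pbe h).map (adj i c)), ← cancel_epi (pce e F).hom, ← reassoc_of% pce_nat e,
      Iso.hom_inv_id_assoc, ← Functor.map_comp_assoc, ht', Functor.map_comp_assoc, adj_counit,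
      ← cancel_epi (pce e F).inv, hc, Iso.inv_hom_id_assoc, ← cancel_epi (pce e' F).hom,
      ← reassoc_of% pce_nat e', Iso.hom_inv_id_assoc, Iso.hom_inv_id_assoc,
      ← Functor.map_comp_assoc, adj_counit]
  rw [cd_counit, kp_kp e', ← ha, ← h4, ← kp_kp e, cd_counit]
  exact kp_dl g r hS hS₀ ⟨p₁, p, t, h₁, ht.symm⟩ y

end closed

/-! ### The case of `ℚ_l / ℤ_l` -/

section lin
variable {l : ℕ} [Fact l.Prime]

variable (l) in
/-- `c` is the comparison map of the parts with support. -/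
def Rq (g : T' ⟶ T) (O : T.Opens) (O' : T'.Opens)
    (c : (pbe g).obj ((ez O).obj (Linf l T)) ⟶ (ez O').obj (Linf l T')) : Prop :=
  c ≫ (ezι O').app (Linf l T') = (pbe g).map ((ezι O).app (Linf l T)) ≫ (lpb l g).hom

variable {O O₂ : T.Opens} {O' : T'.Opens} {O'' : T''.Opens}

lemma Rq_uniq {g : T' ⟶ T} {c c' : (pbe g).obj ((ez O).obj (Linf l T)) ⟶ (ez O').obj (Linf l T')}
    (h : Rq l g O O' c) (h' : Rq l g O O' c') : c = c' :=
  (cancel_mono ((ezι O').app (Linf l T'))).1 (h.trans h'.symm)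

lemma exRq₀ (g : T' ⟶ T) (O : T.Opens) : ∃ c, Rq l g O (g ⁻¹ᵁ O) c ∧ IsIso c := by
  obtain ⟨e, he⟩ := ez_pb O g
  refine ⟨e.hom.app _ ≫ (ez (g ⁻¹ᵁ O)).map (lpb l g).hom, ?_, inferInstance⟩
  rw [Rq, ← he, Category.assoc, Category.assoc]
  exact congrArg (_ ≫ ·) ((ezι (g ⁻¹ᵁ O)).naturality _)

lemma exRq (g : T' ⟶ T) (h : g ⁻¹ᵁ O ≤ O') : ∃ c, Rq l g O O' c := by
  obtain ⟨c, hc, -⟩ := exRq₀ (l := l) g O
  obtain ⟨u, hu⟩ := incl h (Linf l T')
  exact ⟨c ≫ u, by rw [Rq, Category.assoc, hu]; exact hc⟩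

lemma Rq_isIso {g : T' ⟶ T} (h : g ⁻¹ᵁ O = O')
    {c : (pbe g).obj ((ez O).obj (Linf l T)) ⟶ (ez O').obj (Linf l T')} (hc : Rq l g O O' c) :
    IsIso c := by
  subst h
  obtain ⟨c', hc', h⟩ := exRq₀ (l := l) g O
  rwa [Rq_uniq hc hc']

variable {g' : T'' ⟶ T'} {g : T' ⟶ T} {h : T'' ⟶ T} (e : g' ≫ g = h)

lemma lpb_pce : (lpb l g').inv ≫ (pbe g').map (lpb l g).inv ≫ (pce e (Linf l T)).hom =
    (lpb l h).inv := by
  subst e
  simpa only [pce, Iso.trans_hom, eqToIso_refl, Iso.refl_hom, Category.comp_id] using lpb_pc g' g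

lemma pce_lpb : (pce e (Linf l T)).hom ≫ (lpb l h).hom =
    (pbe g').map (lpb l g).hom ≫ (lpb l g').hom := by
  symm
  rw [← Iso.comp_inv_eq, ← lpb_pce e, Category.assoc, Iso.hom_inv_id_assoc,
    ← Functor.map_comp_assoc, Iso.hom_inv_id, CategoryTheory.Functor.map_id, Category.id_comp]

lemma Rq_comp {c' : (pbe g').obj ((ez O').obj (Linf l T')) ⟶ (ez O'').obj (Linf l T'')}
    {c : (pbe g).obj ((ez O).obj (Linf l T)) ⟶ (ez O').obj (Linf l T')} (h' : Rq l g' O' O'' c')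
    (hc : Rq l g O O' c) : Rq l h O O'' ((pce e _).inv ≫ (pbe g').map c ≫ c') := by
  rw [Rq] at h' hc ⊢
  rw [Category.assoc, Category.assoc, h', ← Functor.map_comp_assoc, hc, Functor.map_comp_assoc,
    ← pce_lpb e, Iso.inv_comp_eq]
  exact (Category.assoc _ _ _).symm.trans ((congrArg (· ≫ _) (pce_nat e _)).trans
    (Category.assoc _ _ _))

lemma Rp_comp' {U : T.Opens} {U' : T'.Opens} {U'' : T''.Opens}
    {a' : AU l U'' ⟶ (pbe g').obj (AU l U')} {a : AU l U' ⟶ (pbe g).obj (AU l U)}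
    (h' : Rp l g' U'' U' a') (ha : Rp l g U' U a) :
    Rp l h U'' U (a' ≫ (pbe g').map a ≫ (pce e _).hom) := by
  subst e
  simpa only [pce, Iso.trans_hom, eqToIso_refl, Iso.refl_hom, Category.comp_id] using Rp_comp h' ha

variable (i : D ⟶ T) {OD : D.Opens} {u : (ez O₂).obj (Linf l T) ⟶ (ez O).obj (Linf l T)}
  {c : (pbe i).obj ((ez O).obj (Linf l T)) ⟶ (ez OD).obj (Linf l D)}

/-- The sequence `0 → F_(O - D) → F_O → i_* F_(O ∩ D) → 0`. -/
theorem ses [IsClosedImmersion i] (hl : Linv l T) (h₂ : ∀ x, x ∈ O₂ ↔ x ∈ O ∧ x ∉ Set.range i)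
    (hD : i ⁻¹ᵁ O = OD) (hu : u ≫ (ezι O).app _ = (ezι O₂).app _) (hc : Rq l i O OD c) :
    ∃ z : u ≫ adj i c = 0, (ShortComplex.mk _ _ z).ShortExact := by
  let O₁ : T.Opens := ⟨(Set.range i)ᶜ, i.isClosedEmbedding.isClosed_range.isOpen_compl⟩
  have := Rq_isIso hD hc
  obtain ⟨z₀, h₀⟩ := ses₀ i (O := O₁) (fun _ => Iff.rfl) hl (ez_cc (O := O) (G0.linf_Tc l T).1) c
  obtain ⟨v, hv⟩ := meet (O := O) (O₁ := O₁) (O₂ := O₂) (fun x hx => (h₂ x).2 hx) (Linf l T)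
  have h1 : v ≫ u = (ezι O₁).app _ := by
    rw [← cancel_mono ((ezι O).app _), Category.assoc, hu]
    exact hv
  have h3 : Mono u := mono_of_mono_fac hu
  have z : u ≫ adj i c = 0 := by
    have h4 : Mono ((pf i).map ((ezι OD).app (Linf l D))) := inferInstance
    have h5 := w i (O := O₂) (fun x hx => ((h₂ x).1 hx).2) (Linf l T)
    rw [← cancel_mono ((pf i).map ((ezι OD).app (Linf l D))), zero_comp, adj, Category.assoc,
      Category.assoc, ← Functor.map_comp, hc, Functor.map_comp]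
    refine (congrArg (u ≫ ·) ((pbpf i).unit.naturality_assoc ((ezι O).app (Linf l T)) _).symm).trans ?_
    refine (Category.assoc _ _ _).symm.trans ((congrArg (· ≫ _) hu).trans ?_)
    exact (Category.assoc _ _ _).symm.trans ((congrArg (· ≫ _) h5).trans zero_comp)
  have := h₀.mono_f
  refine ⟨z, { exact := ?_, epi_g := h₀.epi_g }⟩
  refine ShortComplex.exact_of_f_is_kernel _ (KernelFork.IsLimit.ofι' u z fun k hk => ?_)
  exact ⟨h₀.exact.lift k hk ≫ v, by rw [Category.assoc, h1]; exact h₀.exact.lift_f k hk⟩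

lemma Rq_id (O : T.Opens) : Rq l (𝟙 T) O O (pi _).hom := by
  have h : (lpb l (𝟙 T)).hom = (pi (Linf l T)).hom := by
    rw [← Category.comp_id (lpb l (𝟙 T)).hom, ← lpb_pi, Iso.hom_inv_id_assoc]
  rw [Rq, h]
  exact (pi_nat _).symm

lemma Rq_incl {g : T' ⟶ T} {O₂' : T'.Opens} {u : (ez O₂).obj (Linf l T) ⟶ (ez O).obj (Linf l T)}
    {u' : (ez O₂').obj (Linf l T') ⟶ (ez O').obj (Linf l T')}
    (hu : u ≫ (ezι O).app _ = (ezι O₂).app _) (hu' : u' ≫ (ezι O').app _ = (ezι O₂').app _)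
    {p₁ : (pbe g).obj ((ez O₂).obj (Linf l T)) ⟶ (ez O₂').obj (Linf l T')}
    {p : (pbe g).obj ((ez O).obj (Linf l T)) ⟶ (ez O').obj (Linf l T')} (h₁ : Rq l g O₂ O₂' p₁)
    (h : Rq l g O O' p) : p₁ ≫ u' = (pbe g).map u ≫ p := by
  rw [← cancel_mono ((ezι O').app _), Category.assoc, Category.assoc, hu', h₁, h,
    ← Functor.map_comp_assoc, hu]

section
variable [IsIntegralHom i] {z : u ≫ adj i c = 0} (hS : (ShortComplex.mk _ _ z).ShortExact)
  (hu : u ≫ (ezι O).app _ = (ezι O₂).app _) (hc : Rq l i O OD c)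
  {i' : D' ⟶ T'} [IsIntegralHom i'] {g : T' ⟶ T} {gD : D' ⟶ D} (sq : i' ≫ g = gD ≫ i)
  {O₂' : T'.Opens} {OD' : D'.Opens} {u' : (ez O₂').obj (Linf l T') ⟶ (ez O').obj (Linf l T')}
  {c' : (pbe i').obj ((ez O').obj (Linf l T')) ⟶ (ez OD').obj (Linf l D')}
  {z' : u' ≫ adj i' c' = 0} (hS' : (ShortComplex.mk _ _ z').ShortExact)
  (hu' : u' ≫ (ezι O').app _ = (ezι O₂').app _) (hc' : Rq l i' O' OD' c')
  {p₁ : (pbe g).obj ((ez O₂).obj (Linf l T)) ⟶ (ez O₂').obj (Linf l T')}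
  {p : (pbe g).obj ((ez O).obj (Linf l T)) ⟶ (ez O').obj (Linf l T')}
  {q : (pbe gD).obj ((ez OD).obj (Linf l D)) ⟶ (ez OD').obj (Linf l D')}
  (h₁ : Rq l g O₂ O₂' p₁) (hp : Rq l g O O' p) (hq : Rq l gD OD OD' q)
include hu hc sq hu' hc' h₁ hp hq

/-- Naturality of the connecting map, source `AU`. -/
theorem cd_natA {U : T.Opens} {UD : D.Opens} {U' : T'.Opens} {UD' : D'.Opens}
    (a : (pbe i).obj (AU l U) ≅ AU l UD) (ha : Rp l i UD U a.inv)
    (a' : (pbe i').obj (AU l U') ≅ AU l UD') (ha' : Rp l i' UD' U' a'.inv)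
    {r : AU l U' ⟶ (pbe g).obj (AU l U)} (hr : Rp l g U' U r)
    {rD : AU l UD' ⟶ (pbe gD).obj (AU l UD)} (hrD : Rp l gD UD' UD rD) {n : ℕ}
    (y : Ext.{1} (AU l UD) ((ez OD).obj (Linf l D)) n) :
    kp g r p₁ (n + 1) (cd i hS a n y) = cd i' hS' a' n (kp gD rD q n y) :=
  cd_kp i hS a sq rfl hS' a' (Rq_incl hu hu' h₁ hp)
    (Rp_uniq (Rp_comp' sq ha' hr) (Rp_comp' rfl hrD ha))
    (Rq_uniq (Rq_comp sq hc' hp) (Rq_comp rfl hq hc)) y

end

section
variable [IsClosedImmersion i] (hl : Linv l T) (h₂ : ∀ x, x ∈ O₂ ↔ x ∈ O ∧ x ∉ Set.range i)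
  (hD : i ⁻¹ᵁ O = OD) (hu : u ≫ (ezι O).app _ = (ezι O₂).app _) (hc : Rq l i O OD c)
  {A : Sh (Scheme.etaleTopology.over T)} {A' : Sh (Scheme.etaleTopology.over D)}
  (a : A' ⟶ (pbe i).obj A) [IsIso a]
include hl h₂ hD hu hc

/-- The long exact sequence. -/
theorem les2 : ∃ d, IsLES (post A u) (kp i a c) d :=
  have ⟨_, hS⟩ := ses i hl h₂ hD hu hc
  ⟨_, les i hS (asIso a).symm⟩

/-- Restriction is bijective in all degrees if and only if the first terms vanish. -/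
theorem van_iff : (∀ n, Bijective (kp i a c n)) ↔
    ∀ n (x : Ext.{1} A ((ez O₂).obj (Linf l T)) n), x = 0 := by
  obtain ⟨d, h⟩ := les2 i hl h₂ hD hu hc a
  refine ⟨fun H n x => ?_, fun H n => ⟨(injective_iff_map_eq_zero _).2 fun x hx => ?_,
    fun y => (h.e₃ n y).1 (H _ _)⟩⟩
  · have h0 : post A u n x = 0 := (H n).1 (((h.e₂ n).apply_apply_eq_zero x).trans (map_zero _).symm)
    cases n with
    | zero => exact h.inj (h0.trans (map_zero _).symm)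
    | succ n =>
      obtain ⟨y, rfl⟩ := (h.e₁ n x).1 h0
      obtain ⟨y, rfl⟩ := (H n).2 y
      exact (h.e₃ n).apply_apply_eq_zero y
  · obtain ⟨y, rfl⟩ := (h.e₂ n x).1 hx
    rw [H _ y, map_zero]

omit [IsIso a] in
/-- A map that fixes `D` fixes the kernel of the first map, source `AU`. -/
theorem fixA {s : T ⟶ T} (hs : i ≫ s = i) (hO : s ⁻¹ᵁ O ≤ O) {U : T.Opens}
    {r : AU l U ⟶ (pbe s).obj (AU l U)} (hr : Rp l s U U r)
    {p₁ : (pbe s).obj ((ez O₂).obj (Linf l T)) ⟶ (ez O₂).obj (Linf l T)} (h₁ : Rq l s O₂ O₂ p₁)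
    {n : ℕ} (k : Ext.{1} (AU l U) ((ez O₂).obj (Linf l T)) n) (hk : post _ u n k = 0) :
    kp s r p₁ n k = k := by
  obtain ⟨z, hS⟩ := ses i hl h₂ hD hu hc
  obtain ⟨p, hp⟩ := exRq (l := l) s hO
  obtain ⟨b, hb⟩ := exRp (l := l) i (le_refl (i ⁻¹ᵁ U))
  have := Rp_isIso hb
  have h := les i hS (asIso b).symm
  cases n with
  | zero => rw [h.inj (hk.trans (map_zero _).symm : _ = post _ u 0 0), map_zero]
  | succ n =>
    obtain ⟨y, rfl⟩ := (h.e₁ n k).1 hk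
    rw [cd_natA i hS hu hc (hs.trans (Category.id_comp i).symm) hS hu hc h₁ hp (Rq_id OD)
      (asIso b).symm hb (asIso b).symm hb hr (Rp_id _), kp_id, Iso.inv_hom_id, Iso.inv_hom_id, pre_id, post_id]

end

end lin

end Pool.Agent.MP_855f4c_ag.T.Les2

namespace Pool.Agent.MP_855f4c_ag.A

open E E3 E4 T Pbc Les2

section
variable {l : ℕ} [Fact l.Prime] {T T' : Scheme.{0}}

lemma Les2.rp_spec (g : T' ⟶ T) {U' : T'.Opens} {U : T.Opens} (h : U' ≤ g ⁻¹ᵁ U) :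
    Rp l g U' U (rp l g U' U) := by
  have h1 := exRp (l := l) g h
  rw [rp, dif_pos h1]
  exact h1.choose_spec

lemma Les2.rf_spec (g : T' ⟶ T) {O' : T'.Opens} {O : T.Opens} (h : g ⁻¹ᵁ O ≤ O') :
    Les2.Rq l g O O' (rf l g O' O) := by
  have h1 : ∃ b, Rf l g O' O b := exRq (l := l) g h
  rw [rf, dif_pos h1]
  exact h1.choose_spec

lemma Les2.kpb_id (U : T.Opens) {O O₂ : T.Opens} (h : O₂ ≤ O) :
    ∃ u : (ez O₂).obj (Linf l T) ⟶ (ez O).obj (Linf l T), u ≫ (ezι O).app _ = (ezι O₂).app _ ∧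
      ∀ n, kpb l (𝟙 T) U O U O₂ n = post _ u n := by
  obtain ⟨u, hu⟩ := incl h (Linf l T)
  refine ⟨u, hu, fun n => AddMonoidHom.ext fun x => (kp_id _ _ x).trans ?_⟩
  have h1 : rf l (𝟙 T) O O₂ = (pi _).hom ≫ u := Rq_uniq (Les2.rf_spec (𝟙 T) h) (by
    rw [Les2.Rq, Category.assoc, hu]
    exact Rq_id O₂)
  have h2 : rp l (𝟙 T) U U = (pi _).inv := Rp_uniq (Les2.rp_spec (𝟙 T) le_rfl) (Rp_id U)
  rw [h2, h1, Iso.inv_hom_id, pre_id]
  exact congrArg (post _ · n x) (Iso.inv_hom_id_assoc _ _)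
end

theorem les2 : LES2_s := by
  intro l _ D T i _ U O O₁ O₂ U' O' hl h₁ h₂ hU hO
  subst hU hO
  have h₃ : ∀ x, x ∈ O₂ ↔ x ∈ O ∧ x ∉ Set.range i := fun x => by
    rw [h₂, ← h₁]
    exact Iff.rfl
  obtain ⟨u, hu, e⟩ := Les2.kpb_id (l := l) U (O := O) (O₂ := O₂) (h₂ ▸ inf_le_left)
  have hc := Les2.rf_spec (l := l) i (le_refl (i ⁻¹ᵁ O))
  have := Rp_isIso (Les2.rp_spec (l := l) i (le_refl (i ⁻¹ᵁ U)))
  refine ⟨fun n => ?_, (van_iff i hl h₃ rfl hu hc (rp l i (i ⁻¹ᵁ U) U)).1,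
    fun s hs h4 h5 h6 n x hx => ?_⟩
  · obtain ⟨_, h⟩ := Les2.les2 i hl h₃ rfl hu hc (rp l i (i ⁻¹ᵁ U) U)
    rw [e]
    exact h.e₂ n
  · rw [e] at hx
    exact fixA i hl h₃ rfl hu hc hs h5.ge (Les2.rp_spec s h4.le) (Les2.rf_spec s (by
      rw [h₂]
      exact fun y hy => ⟨h5.ge hy.1, h6.ge hy.2⟩)) x hx

end Pool.Agent.MP_855f4c_ag.A

end

section

/-! h14a row THJ: Thom classes of forms (class, pull-back, Galois twist). -/

set_option autoImplicit false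
set_option backward.isDefEq.respectTransparency false

open CategoryTheory Limits Abelian Opposite AlgebraicGeometry Function MvPolynomial

namespace Pool.Agent.MP_855f4c_ag.A

open E E3 E4 T

namespace Thj

variable {l : ℕ} [Fact l.Prime] {Ω : Type} [Field Ω] (Ch : Chern l Ω) {D D' : Type} [CommRing D]
  [CommRing D'] {κ : Type} [Fintype κ] [DecidableEq κ]

lemma rp_spec {T' T : Scheme.{0}} (g : T' ⟶ T) {U' : T'.Opens} {U : T.Opens} (h : U' ≤ g ⁻¹ᵁ U) :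
    Rp l g U' U (rp l g U' U) := by
  have := Pbc.exRp (l := l) g h
  rw [rp, dif_pos this]
  exact this.choose_spec

lemma thJ_eq (ω : Ω →+* D) {e : EV κ → D} {n : κ → ℤ} {s : MvPolynomial (XY κ) D} {I : Ideal D}
    (he : JP e) (hs : Hg n s) (hI : Zer e s I) :
    (thJ Ch ω e n s I).2 = Ch.th (spc ω) (JX.eZ he hs hI) := dif_pos ⟨he, hs, hI⟩

omit [Fintype κ] [DecidableEq κ] in
/-- Two ideals that agree in all trivialisations have the same zero set. -/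
lemma opI_eq {e : EV κ → D} (he : JP e) {I J : Ideal D}
    (h : ∀ (D' : Type) [CommRing D'] (χ : D →+* D') (a : XY κ → D'), emat a = χ ∘ e →
      I.map χ = J.map χ) : opI I = opI J := by
  ext x
  let χ := algebraMap D x.asIdeal.ResidueField
  have h1 : ∀ k, ∃ i, e (k, i, i) ∉ x.asIdeal := fun k => by
    by_contra hc
    push Not at hc
    exact x.2.ne_top ((Ideal.eq_top_iff_one _).2 ((he k).1 ▸ add_mem (hc 0) (hc 1)))
  choose σ hσ using h1
  obtain ⟨a, ha⟩ := Ja.p3 (χ ∘ e) σ (Ja.jp_map _ he) fun k =>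
    Ne.isUnit fun hc => hσ k (Ideal.algebraMap_residueField_eq_zero.1 hc)
  have key (K : Ideal D) : x ∈ PrimeSpectrum.zeroLocus (K : Set D) ↔ K.map χ = ⊥ := by
    rw [Ideal.map_eq_bot_iff_le_ker, Ideal.ker_algebraMap_residueField]
    rfl
  exact not_congr ((key I).trans ((h _ χ a ha) ▸ (key J).symm))

end Thj

open Thj in
theorem thj : THJ_s := by
  intro l _ Ω _ Ch hP κ _ _ D _ ω e n s I he hs hI
  refine ⟨fun z hz => ?_, fun D' _ ψ ω' σ Q s' I' hσ hω hs' hI' h => ?_⟩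
  · rw [thJ_eq Ch ω he hs hI]
    exact (Ch.th_c _ _).trans (JX.c_eC he Ch hP _ hz n)
  have he' : JP (ψ ∘ e) := Ja.jp_map _ he
  have hO : opI I' = spc ψ ⁻¹ᵁ opI I := by
    rw [← Exce.opI_map]
    refine opI_eq he' fun D'' _ χ a ha => ?_
    rw [hI' D'' χ a ha, h D'' χ a ha, Ideal.map_map, hI D'' (χ.comp ψ) a ha]
  refine ⟨hO, ?_⟩
  rw [thJ_eq Ch ω he hs hI, thJ_eq Ch ω' he' hs' hI', ← Ch.th_tw _ _ σ Q hσ, Twt.spc_spc, ← hω,
    ← Twt.spc_spc]
  refine Ch.th_nat _ _ _ _ (JX.eH he ψ he' rfl n) _ hO.le (rp_spec _ hO.le) fun U b => ?_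
  refine (h _ (str U.hom) b.1 b.2).trans ?_
  exact congrArg (eval₂ · b.1 s)
    (RingHom.ext fun d => (JX.str_spc U.hom ψ d).symm : (str U.hom).comp ψ = str (U.hom ≫ spc ψ))

end Pool.Agent.MP_855f4c_ag.A

end

section

/-! h14a row LAM: the additive lift of `(σ^* - 1)^2` to classes with values in `F_O`. -/

set_option autoImplicit false
set_option backward.isDefEq.respectTransparency false

open CategoryTheory Limits Abelian Opposite AlgebraicGeometry Function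

namespace Pool.Agent.MP_855f4c_ag.T.Lam

open E E3 E4 Pbc

variable {l : ℕ} [Fact l.Prime] {T T' T'' : Scheme.{0}} {O : T.Opens} {O' : T'.Opens}

lemma pb_ι (g : T' ⟶ T) (h : ∀ t, g t ∉ O) (F : Sh (Scheme.etaleTopology.over T)) :
    (pbe g).map ((ezι O).app F) = 0 := by
  ext W s
  exact CLZ.van (W := (Over.map g).obj W.unop) (fun t => h (W.unop.hom t)) s

lemma ex_c (g : T' ⟶ T) (h : ∀ t, g t ∉ O) :
    ∃ c : (pbe g).obj (AU l O) ⟶ Linf l T', (pbe g).map (πU l O) ≫ c = (lpb l g).hom :=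
  have hS := (πU_exact (l := l) O).map_of_exact (pbe g)
  have := hS.epi_g
  hS.exact.desc' _ ((congrArg (· ≫ _) (pb_ι g h _)).trans zero_comp)

lemma ex_b (g : T' ⟶ T) (h : g ⁻¹ᵁ O ≤ O') : ∃ b : (pbe g).obj (AU l O) ⟶ AU l O',
    (pbe g).map (πU l O) ≫ b = (lpb l g).hom ≫ πU l O' :=
  have hS := (πU_exact (l := l) O).map_of_exact (pbe g)
  have := hS.epi_g
  hS.exact.desc' _ (by
    change (pbe g).map (ιO l O) ≫ _ = 0
    rw [← Category.assoc, ← (fO_Rf l g h : _ = _), Category.assoc, ez_π, comp_zero])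

lemma xq {g' : T'' ⟶ T'} {g : T' ⟶ T} {g'' : T'' ⟶ T} (e : g' ≫ g = g'')
    {G : Sh (Scheme.etaleTopology.over T)} {G' : Sh (Scheme.etaleTopology.over T')}
    {p : Linf l T ⟶ G} [Epi p] {p' : Linf l T' ⟶ G'} {b : (pbe g).obj G ⟶ G'}
    (hb : (pbe g).map p ≫ b = (lpb l g).hom ≫ p') {c' : (pbe g').obj G' ⟶ Linf l T''}
    (hc' : (pbe g').map p' ≫ c' = (lpb l g').hom) {c'' : (pbe g'').obj G ⟶ Linf l T''}
    (hc'' : (pbe g'').map p ≫ c'' = (lpb l g'').hom) {n : ℕ} (y : Ext.{1} (Linf l T) G n) :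
    xpb g' (lpb l g').inv c' n (xpb g (lpb l g).inv b n y) = xpb g'' (lpb l g'').inv c'' n y := by
  subst e
  have : (pc g' g G).inv ≫ (pbe g').map b ≫ c' = c'' := by
    rw [← cancel_epi ((pbe (g' ≫ g)).map p), hc'', ← Category.assoc, ← pc_nat', Category.assoc,
      ← Functor.map_comp_assoc, hb, Functor.map_comp_assoc, hc', lpb_pc']
  rw [xpb_xpb, lpb_pc, this]

/-- Pull-back commutes with the boundary map `Ext(L, A_O) → Ext(L, F_O)`. -/
lemma k0pb_dl (g : T' ⟶ T) (h : g ⁻¹ᵁ O ≤ O') {b : (pbe g).obj (AU l O) ⟶ AU l O'}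
    (hb : (pbe g).map (πU l O) ≫ b = (lpb l g).hom ≫ πU l O') {n : ℕ}
    (y : Ext.{1} (Linf l T) (AU l O) n) :
    k0pb l g h (n + 1) (dl _ (πU_exact O) n y) =
      dl _ (πU_exact O') n (xpb g (lpb l g).inv b n y) :=
  xpb_dl g _ (πU_exact O) (πU_exact O') ⟨fO l g h, (lpb l g).hom, b, fO_Rf l g h, hb.symm⟩ y

variable {X D : Scheme.{0}} {j : D ⟶ X} {V : X.Opens}

section
variable [IsClosedImmersion j] (h : ∀ x : X, x ∈ V ↔ x ∉ Set.range j) (hl : Linv l X)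
include h hl

/-- Classes with values in `A_V` are classes on the closed complement. -/
theorem cl_bij {A : Sh (Scheme.etaleTopology.over X)} {A' : Sh (Scheme.etaleTopology.over D)}
    (e : (pbe j).obj A ≅ A') {c : (pbe j).obj (AU l V) ⟶ Linf l D}
    (hc : (pbe j).map (πU l V) ≫ c = (lpb l j).hom) (n : ℕ) : Bijective (xpb j e.inv c n) := by
  have i1 := CLZ.iso j h hl (G0.linf_Tc l X).1
  have e1 : (pbpf j).unit.app (AU l V) ≫ (pf j).map c =
      cokernel.desc _ _ (CLZ.w j (fun x => (h x).1) _) ≫ (pf j).map (lpb l j).hom := by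
    rw [← cancel_epi (πU l V), ← hc, Functor.map_comp]
    refine Eq.trans ?_ (cokernel.π_desc_assoc _ _ _ _).symm
    rw [← Category.assoc, ← Category.assoc]
    exact congrArg (· ≫ _) ((pbpf j).unit.naturality (πU l V))
  have : IsIso ((pbpf j).unit.app (AU l V) ≫ (pf j).map c) :=
    e1 ▸ IsIso.comp_isIso' i1 inferInstance
  refine ((CLZ.adj_bij j e (Linf l D) n).of_comp_iff' _).1 ?_
  exact (funext fun y => CLZ.adj_pb j e c n y : _ ∘ ⇑(xpb j e.inv c n) = _) ▸ post_bij A _ n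

/-- A class that dies on the closed complement lifts. -/
theorem ex_lift {n : ℕ} (x : EE l X n) : epb l j n x = 0 ↔ ∃ k, post _ (ιO l V) n k = x := by
  obtain ⟨c, hc⟩ := ex_c (l := l) j fun t ht => (h _).1 ht ⟨t, rfl⟩
  have e : epb l j n x = xpb j (lpb l j).inv c n (post _ (πU l V) n x) :=
    (post_id _).symm.trans (xpb_post j _ ((Category.comp_id _).trans hc.symm) x)
  rw [e, map_eq_zero_iff _ (cl_bij h hl (lpb l j) hc n).1]
  exact (cov_les (Linf l X) (πU_exact V)).e₂ n x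

omit hl [IsClosedImmersion j] in
lemma pre_le {σ : X ⟶ X} (hσ : j ≫ σ = j) : σ ⁻¹ᵁ V ≤ V := fun x hx => (h x).2 (by
  rintro ⟨d, rfl⟩
  exact (h _).1 hx ⟨d, congr($hσ.symm d)⟩)

variable {σ : X ⟶ X} (hσ : j ≫ σ = j)

/-- `σ` acts trivially on the kernel of `Ext(L, F_V) → E(X)`. -/
theorem fix_ker {n : ℕ} (k : K0 l V n) (hk : post _ (ιO l V) n k = 0) :
    k0pb l σ (pre_le h hσ) n k = k := by
  have H := cov_les (Linf l X) (πU_exact (l := l) V)
  cases n with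
  | zero => rw [H.inj (hk.trans (map_zero _).symm), map_zero]
  | succ n =>
    obtain ⟨y, rfl⟩ := (H.e₁ n k).1 hk
    obtain ⟨c, hc⟩ := ex_c (l := l) j fun t ht => (h _).1 ht ⟨t, rfl⟩
    obtain ⟨b, hb⟩ := ex_b (l := l) σ (pre_le h hσ)
    exact (k0pb_dl σ _ hb y).trans
      (congrArg _ ((cl_bij h hl (lpb l j) hc n).1 (xq hσ hb hc hc y)))

include hσ in
theorem lam_ex {n : ℕ} (x : EE l X n) : ∃ k, post _ (ιO l V) n k = epb l σ n x - x :=
  (ex_lift h hl _).1 (by rw [map_sub, ← epb_comp, hσ, sub_self])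

lemma lam_ind {n : ℕ} {k k' : K0 l V n} (e : post _ (ιO l V) n k = post _ (ιO l V) n k') :
    k0pb l σ (pre_le h hσ) n k - k = k0pb l σ (pre_le h hσ) n k' - k' := by
  have := fix_ker h hl hσ (k - k') (by rw [map_sub, e, sub_self])
  rw [map_sub] at this
  rw [sub_eq_sub_iff_sub_eq_sub, this]

/-- The map `lam`. -/
noncomputable def lmb (n : ℕ) : EE l X n →+ K0 l V n :=
  AddMonoidHom.mk' (fun x => k0pb l σ (pre_le h hσ) n (lam_ex h hl hσ x).choose -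
    (lam_ex h hl hσ x).choose) fun x y => by
      rw [lam_ind h hl hσ (k' := (lam_ex h hl hσ x).choose + (lam_ex h hl hσ y).choose)
        ((lam_ex h hl hσ (x + y)).choose_spec.trans (by
          rw [map_add, map_add, (lam_ex h hl hσ x).choose_spec, (lam_ex h hl hσ y).choose_spec]
          abel)), map_add]
      abel

theorem lam_eq {n : ℕ} {x : EE l X n} {k : K0 l V n} (hk : post _ (ιO l V) n k = epb l σ n x - x) :
    lmb h hl hσ n x = k0pb l σ (pre_le h hσ) n k - k :=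
  lam_ind h hl hσ ((lam_ex h hl hσ x).choose_spec.trans hk.symm)

/-- `lam x` lifts `(σ^* - 1)^2 x`. -/
theorem ι_lam {n : ℕ} (x : EE l X n) : post _ (ιO l V) n (lmb h hl hσ n x) =
    epb l σ n (epb l σ n x - x) - (epb l σ n x - x) := by
  obtain ⟨k, hk⟩ := lam_ex h hl hσ x
  rw [lam_eq h hl hσ hk, map_sub, ι_k0pb, hk]

/-- The same map with values in `KK(X; ⊥, V)`. -/
noncomputable def lamK (n : ℕ) : EE l X n →+ KK l ⊥ V n :=
  have := π_bot (l := l) (T := X)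
  (pre (inv (πU l ⊥)) _ n).comp (lmb h hl hσ n)

theorem π_lamK {n : ℕ} (x : EE l X n) :
    pre (πU l ⊥) _ n (lamK h hl hσ n x) = lmb h hl hσ n x :=
  have := π_bot (l := l) (T := X)
  (pre_pre _ _ _).trans (by rw [IsIso.hom_inv_id, pre_id])

end

section
variable {X' D' : Scheme.{0}} {j' : D' ⟶ X'} {V' : X'.Opens} [IsClosedImmersion j]
  [IsClosedImmersion j'] (h : ∀ x : X, x ∈ V ↔ x ∉ Set.range j) (hl : Linv l X)
  (h' : ∀ x : X', x ∈ V' ↔ x ∉ Set.range j') (hl' : Linv l X') {σ : X ⟶ X} (hσ : j ≫ σ = j)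
  {σ' : X' ⟶ X'} (hσ' : j' ≫ σ' = j') {g : X' ⟶ X} (hg : σ' ≫ g = g ≫ σ) (hV : g ⁻¹ᵁ V ≤ V')
include hg

/-- Naturality (Galois action, base change, `g = σ`). -/
theorem lam_nat {n : ℕ} (x : EE l X n) :
    k0pb l g hV n (lmb h hl hσ n x) = lmb h' hl' hσ' n (epb l g n x) := by
  obtain ⟨k, hk⟩ := lam_ex h hl hσ x
  have hW : (g ≫ σ) ⁻¹ᵁ V ≤ V' := fun t ht => hV (pre_le h hσ ht)
  rw [lam_eq h hl hσ hk, lam_eq h' hl' hσ' (k := k0pb l g hV n k)
    (by rw [ι_k0pb, hk, map_sub, ← epb_comp, ← epb_comp, hg]), map_sub,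
    k0pb_k0pb rfl _ _ hW, k0pb_k0pb hg _ _ hW]

theorem lamK_nat (hU : (⊥ : X'.Opens) ≤ g ⁻¹ᵁ ⊥) {n : ℕ} (x : EE l X n) :
    kpb l g hU hV n (lamK h hl hσ n x) = lamK h' hl' hσ' n (epb l g n x) :=
  have := π_bot (l := l) (T := X')
  (pre_bij (πU l ⊥) _ n).1 (by rw [π_kpb, π_lamK, π_lamK, lam_nat h hl h' hl' hσ hσ' hg])

end

end Pool.Agent.MP_855f4c_ag.T.Lam

namespace Pool.Agent.MP_855f4c_ag.A

open E E3 E4 T

variable {l : ℕ} [Fact l.Prime] {X D X' D' : Scheme.{0}} {j : D ⟶ X} {j' : D' ⟶ X'} {V : X.Opens}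
  {V' : X'.Opens} [IsClosedImmersion j] [IsClosedImmersion j']
  (h : ∀ x : X, x ∈ V ↔ x ∉ Set.range j) (hl : Linv l X) {σ : X ⟶ X} (hσ : j ≫ σ = j)

/-- The lift of `(σ^* - 1)^2`. -/
noncomputable def lamA (n : ℕ) : EE l X n →+ KK l X ⊥ V n := Lam.lamK h hl hσ n

lemma ke_pre {T : Scheme.{0}} (U O : T.Opens) {n : ℕ} (k : KK l T U O n) :
    ke l U O n k = post _ (Lam.ιO l O) n (pre (πU l U) _ n k) := pre_post _ _ k

theorem ke_lamA {n : ℕ} (x : EE l X n) : ke l ⊥ V n (lamA h hl hσ n x) =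
    epb l σ n (epb l σ n x - x) - (epb l σ n x - x) :=
  (ke_pre _ _ _).trans ((congrArg _ (Lam.π_lamK h hl hσ x)).trans (Lam.ι_lam h hl hσ x))

/-- Naturality (Galois action, base change, `g = σ`). -/
theorem lamA_nat (h' : ∀ x : X', x ∈ V' ↔ x ∉ Set.range j') (hl' : Linv l X') {σ' : X' ⟶ X'}
    (hσ' : j' ≫ σ' = j') {g : X' ⟶ X} (hg : σ' ≫ g = g ≫ σ) (hV : g ⁻¹ᵁ V ≤ V') {n : ℕ}
    (x : EE l X n) :
    kpb l g ⊥ V' ⊥ V n (lamA h hl hσ n x) = lamA h' hl' hσ' n (epb l g n x) := by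
  rw [Kl.kpb_lam g bot_le hV]
  exact Lam.lamK_nat h hl h' hl' hσ hσ' hg hV _ x

end Pool.Agent.MP_855f4c_ag.A

end
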