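import Pool.Agent.MP_855f4c_ag.AC.Am
import Pool.Agent.MP_855f4c_ag.TC.All
import Pool.Agent.MP_855f4c_ag.AC.Ak
import Pool.Agent.MP_855f4c_ag.AC.Ac
import Pool.Agent.MP_855f4c_ag.AC.Aa
import Pool.Agent.MP_855f4c_ag.AC.Ah

set_option linter.all false

section

/-! h14a row NT0: the Thom class of the origin of an affine space is not torsion. -/

set_option autoImplicit false
set_option backward.isDefEq.respectTransparency false

open CategoryTheory Limits Abelian Opposite AlgebraicGeometry Function MvPolynomial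

namespace Pool.Agent.MP_855f4c_ag.A

open E E3 E4 T

namespace Nt0

variable {l : ℕ} [Fact l.Prime] {Ω : Type} [Field Ω] (Ch : Chern l Ω) {D D' : Type} [CommRing D]
  [CommRing D'] {κ : Type} [Fintype κ] [DecidableEq κ]

lemma rp_spec {T' T : Scheme.{0}} (g : T' ⟶ T) {U' : T'.Opens} {U : T.Opens} (h : U' ≤ g ⁻¹ᵁ U) :
    Rp l g U' U (rp l g U' U) := by
  have := Pbc.exRp (l := l) g h
  rw [rp, dif_pos this]
  exact this.choose_spec

lemma thJ_eq (ω : Ω →+* D) {e : EV κ → D} {n : κ → ℤ} {s : MvPolynomial (XY κ) D} {I : Ideal D}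
    (he : JP e) (hs : Hg n s) (hI : Zer e s I) :
    (thJ Ch ω e n s I).2 = Ch.th (spc ω) (JX.eZ he hs hI) := dif_pos ⟨he, hs, hI⟩

lemma jp0 : JP (κ := Fin 0) (D := D) fun v => v.1.elim0 := fun k => k.elim0

lemma hg0 (t : D) : Hg (κ := Fin 0) 0 (C t) := isWeightedHomogeneous_C _ _

lemma zer0 (t : D) : Zer (κ := Fin 0) (fun v => v.1.elim0) (C t) (Ideal.span {t}) :=
  fun _ _ ψ a _ => by rw [Ideal.map_span, Set.image_singleton, eval₂_C]

/-- A trivialisation of `e` as a morphism of cocycles. -/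
noncomputable def tH {e : EV κ → D} (he : JP e) (n : κ → ℤ) (ψ : D →+* D') (a : XY κ → D')
    (ha : emat a = ψ ∘ e) : CHom (spc ψ) (JX.eC (jp0 (D := D')) 0) (JX.eC he n) where
  m U _ := ⟨str U.hom ∘ a, funext fun v =>
    ((map_mul _ _ _).symm.trans (congrArg (str U.hom) (congrFun ha v))).trans
      (JX.str_spc U.hom ψ _).symm⟩
  res w _ := Subtype.ext (funext fun v =>
    (congrArg (str · (a v)) (Over.w w).symm).trans (JX.str_comp _ _ _))
  g U b c := by
    simp only [JX.eC, Fin.prod_univ_zero]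
    refine (Finset.prod_eq_one fun k _ => ?_).symm
    have key {R : Type} [CommRing R] {x : XY κ → R} (h : Rel x) : JX.eu h h rfl k ^ n k = 1 := by
      rw [show JX.eu h h rfl k = 1 from Units.ext (h k), one_zpow]
    exact key _

/-- In a trivialisation the Thom class of a form is the Thom class of a function. -/
lemma triv (ω : Ω →+* D) {e : EV κ → D} {n : κ → ℤ} {s : MvPolynomial (XY κ) D} {I : Ideal D}
    (he : JP e) (hs : Hg n s) (hI : Zer e s I) (ψ : D →+* D') (a : XY κ → D')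
    (ha : emat a = ψ ∘ e) (ω' : Ω →+* D') (hω : ψ.comp ω = ω') (t : D') (ht : eval₂ ψ a s = t) :
    (thF Ch ω' t).1 ≤ spc ψ ⁻¹ᵁ (thJ Ch ω e n s I).1 ∧
      spb l (spc ψ) (thF Ch ω' t).1 (thJ Ch ω e n s I).1 2 (thJ Ch ω e n s I).2 =
        1 • (thF Ch ω' t).2 := by
  subst hω ht
  have hO : opI (Ideal.span {eval₂ ψ a s}) ≤ spc ψ ⁻¹ᵁ opI I := by
    rw [← hI D' ψ a ha, Exce.opI_map]
  refine ⟨hO, ?_⟩
  rw [one_smul, thJ_eq Ch ω he hs hI]
  refine Eq.trans ?_ (thJ_eq Ch _ jp0 (hg0 _) (zer0 _)).symm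
  rw [← Twt.spc_spc]
  refine Ch.th_nat _ _ _ _ (tH he n ψ a ha) _ hO (rp_spec _ hO) fun U b => ?_
  refine (eval₂_C _ _ _).trans ((eval₂_comp_left _ _ _ _).trans ?_)
  exact congrArg (eval₂ · (str U.hom ∘ a) s)
    (RingHom.ext fun d => (JX.str_spc U.hom ψ d).symm : (str U.hom).comp ψ = str (U.hom ≫ spc ψ))

omit [Fintype κ] [DecidableEq κ] in
lemma zer1 {e : EV κ → D} (he : JP e) (k : κ) :
    Zer e (X (.inl (k, 1))) (Ideal.span (Set.range fun j => e (k, 1, j))) := fun D' _ ψ a ha => by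
  have h (v) : ψ (e v) = emat a v := (congrFun ha v).symm
  have h1 := Ja.rel_of_jp (a := a) (by rw [ha]; exact Ja.jp_map _ he) k
  rw [eval₂_X, Ideal.map_span]
  refine le_antisymm (Ideal.span_le.2 ?_) ((Ideal.span_singleton_le_iff_mem _).2 ?_)
  · rintro _ ⟨_, ⟨j, rfl⟩, rfl⟩
    rw [h]
    exact Ideal.mul_mem_right _ _ (Ideal.mem_span_singleton_self _)
  · have : a (.inl (k, 1)) = a (.inl (k, 0)) * ψ (e (k, 1, 0)) + a (.inl (k, 1)) * ψ (e (k, 1, 1)) := by
      rw [Fin.sum_univ_two] at h1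
      simp only [h, emat]
      linear_combination (-a (.inl (k, 1))) * h1
    rw [this]
    exact add_mem (Ideal.mul_mem_left _ _ (Ideal.subset_span ⟨_, ⟨0, rfl⟩, rfl⟩))
      (Ideal.mul_mem_left _ _ (Ideal.subset_span ⟨_, ⟨1, rfl⟩, rfl⟩))

lemma le_sup' {T : Scheme.{0}} {L : List (TH l T)} {a : TH l T} (h : a ∈ L) : a.1 ≤ sup L := by
  induction h with
  | head => exact le_sup_left
  | tail _ _ ih => exact ih.trans le_sup_right

lemma opI_le {β : Type} (t : β → D) (U : (Spec (.of D)).Opens)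
    (h : ∀ a, opI (Ideal.span {t a}) ≤ U) : opI (Ideal.span (Set.range t)) ≤ U := fun x hx => by
  by_contra hc
  refine hx (Ideal.span_le.2 ?_)
  rintro _ ⟨a, rfl⟩
  by_contra h'
  exact hc (h a fun h'' => h' (h'' (Ideal.mem_span_singleton_self _)))

lemma sup_pre {T' T : Scheme.{0}} (g : T' ⟶ T) {β : Type} (θ' : β → TH l T') (θ : β → TH l T)
    (h : ∀ b, (θ' b).1 = g ⁻¹ᵁ (θ b).1) (A : List β) : sup (A.map θ') = g ⁻¹ᵁ sup (A.map θ) := by
  induction A with
  | nil => rfl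
  | cons b A ih => exact (congrArg₂ (· ⊔ ·) (h b) ih).trans rfl

lemma sup_le' {T : Scheme.{0}} {β : Type} (θ : β → TH l T) (U : T.Opens) (h : ∀ b, (θ b).1 ≤ U)
    (A : List β) : sup (A.map θ) ≤ U := by
  induction A with
  | nil => exact bot_le
  | cons b A ih => exact _root_.sup_le (h b) ih

lemma fa2 {α α' β : Type*} (R : α' → α → Prop) (f' : β → α') (f : β → α) (h : ∀ b, R (f' b) (f b))
    (A : List β) : List.Forall₂ R (A.map f') (A.map f) := by
  induction A with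
  | nil => exact .nil
  | cons b A ih => exact .cons (h b) ih

end Nt0

open Nt0 in
theorem nt0 (hT : THS_s) (hO : OEX_s) : NT0_s := by
  classical
  intro l _ Ω _ _ _ Ch G β _ A k h N h1 h2 hN h0
  let J := JB (noEq β Ω)
  let e : EV β → J := je _
  have he : JP e := Bez.jp_je _
  obtain ⟨z, hz, -⟩ := (zad β J e he).1
  let f : J := ∏ b, e (b, 0, 0)
  let ψ := algebraMap J (Localization.Away f)
  obtain ⟨a, ha⟩ := Ja.p3 (ψ ∘ e) (fun _ => 0) (Ja.jp_map _ he) fun b =>
    isUnit_of_dvd_unit (map_dvd ψ (Finset.dvd_prod_of_mem (fun b => e (b, 0, 0)) (Finset.mem_univ b)))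
      (IsLocalization.Away.algebraMap_isUnit f)
  let ω := algebraMap Ω J
  let t : β → Localization.Away f := fun b => a (.inl (b, 1))
  let χ : MvPolynomial β Ω →+* Localization.Away f := eval₂Hom (ψ.comp ω) t
  let θ := fun b => thJ Ch ω e (Pi.single b 1) (X (.inl (b, 1)))
    (Ideal.span (Set.range fun j => e (b, 1, j)))
  let θ' := fun b => thF Ch (ψ.comp ω) (t b)
  have p1 (b) := triv Ch ω he (JX.hx b 1) (zer1 he b) ψ a ha _ rfl (t b) (eval₂_X _ _ _)
  have p2 (b) := triv Ch (C : Ω →+* MvPolynomial β Ω) jp0 (hg0 (X b)) (zer0 _) χ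
    (fun v => v.elim (·.1.elim0) (·.1.elim0)) (funext fun v => v.1.elim0) (ψ.comp ω)
    (RingHom.ext fun _ => eval₂_C _ _ _) (t b) ((eval₂_C _ _ _).trans (eval₂_X _ _ _))
  have hk : 2 * (A.map θ).length = k := by simpa using h
  have hk' : 2 * (A.map θ').length = k := by simpa using h
  have e1 (b) : (θ' b).1 = spc ψ ⁻¹ᵁ (θ b).1 := by
    refine Eq.trans ?_ (Exce.opI_map ψ _)
    rw [zer1 he b _ ψ a ha, eval₂_X]; rfl
  have e2 := sup_pre (spc ψ) θ' θ e1 A
  have q1 := (hT l G _ (A.map θ) _ k hk le_rfl).2.2 _ (spc ψ) (A.map θ') _ 1 hk' e2.le le_rfl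
    (fa2 _ θ' θ p1 A)
  have q2 := (hT l G _ (A.map fun b => thF Ch (C : Ω →+* MvPolynomial β Ω) (X b))
    (opI (Ideal.span (Set.range X))) k h
    (opI_le _ _ fun b => le_sup' (List.mem_map_of_mem
      (f := fun b => thF Ch (C : Ω →+* MvPolynomial β Ω) (X b)) (h2 b)))).2.2 _ (spc χ) (A.map θ') _ 1
    hk' (sup_le' θ' (spc χ ⁻¹ᵁ opI (Ideal.span (Set.range X))) (fun b x hx hc => (p2 b).1 hx fun y hy => hc
      (Ideal.span_mono (Set.singleton_subset_iff.2 (Set.mem_range_self b)) hy)) A) le_rfl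
    (fa2 _ θ' _ p2 A)
  have hj : IsOpenImmersion (spc ψ) := IsOpenImmersion.of_isLocalization f
  have hc : sup (A.map θ) ⊔ (spc ψ).opensRange = ⊤ := top_unique fun x _ => by
    by_cases hx : f ∈ x.asIdeal
    · obtain ⟨b, -, hb⟩ := x.2.prod_mem_iff.1 hx
      refine .inl (le_sup' (List.mem_map_of_mem (f := θ) (h2 b)) fun hc => x.2.ne_top ?_)
      rw [Ideal.eq_top_iff_one, ← (he b).1]
      exact add_mem hb (hc (Ideal.subset_span ⟨1, rfl⟩))
    · exact .inr ((PrimeSpectrum.localization_away_comap_range (Localization.Away f) f).ge hx)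
  have h3 : N • G.thk (A.map θ) (sup (A.map θ)) k hk = 0 := by
    refine (hO l _ _ (spc ψ) _ ⊤ _ ⊤ k hc e2).1.1 ?_
    rw [one_pow] at q1 q2
    rw [map_nsmul, map_zero, q1, ← q2, ← map_nsmul, h0, map_zero]
  have h4 := congrArg (se l _ k) h3
  rw [map_nsmul, map_zero, (hT l G _ (A.map θ) _ k hk le_rfl).1] at h4
  have h5 : (A.map θ).map (fun a => se l a.1 2 a.2) = A.map fun b => Ch.x p1l (spc ω) (z b) := by
    rw [List.map_map]
    refine List.map_congr_left fun b _ => ?_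
    refine Eq.trans ?_ (JX.c_single he Ch p1l (spc ω) hz b)
    exact (congrArg _ (thJ_eq Ch ω he (JX.hx b 1) (zer1 he b))).trans (Ch.th_c _ _)
  obtain ⟨c, hc⟩ := All.hTOPJ l Ω Ch p1l β A h1 h2 z hz
  obtain ⟨c, rfl⟩ := (endq l).2.2.1 N c (by exact_mod_cast hN)
  refine hc ?_
  simp only [h5] at h4
  obtain rfl : 2 * (A.map fun b => Ch.x p1l (spc ω) (z b)).length = k := by simpa using h
  rw [Twt.pk_rfl] at h4
  rw [Bez.tau_smul, natCast_zsmul, ← KTop.tau_nsmul, h4]
  exact map_zero (pre _ _ _)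

end Pool.Agent.MP_855f4c_ag.A

end

section

/-! h14a row RET: retracts of affine space bundles. -/

set_option autoImplicit false
set_option backward.isDefEq.respectTransparency false

open CategoryTheory Limits Abelian Opposite AlgebraicGeometry Function

namespace Pool.Agent.MP_855f4c_ag.A

open E E3 E4 T

namespace Ret

variable (l : ℕ) [Fact l.Prime] {T T' : Scheme.{0}} (g : T' ⟶ T)

lemma rp_iso (U : T.Opens) : IsIso (rp l g (g ⁻¹ᵁ U) U) := by
  have h : ∃ a, Rp l g (g ⁻¹ᵁ U) U a := Pbc.exRp g le_rfl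
  rw [rp, dif_pos h]
  exact Pbc.Rp_isIso h.choose_spec

lemma rf_iso (O : T.Opens) : IsIso (rf l g (g ⁻¹ᵁ O) O) := by
  obtain ⟨e, he⟩ := ez_pb O g
  let c : (pbe g).obj (FU l O) ⟶ FU l (g ⁻¹ᵁ O) := e.hom.app _ ≫ (ez (g ⁻¹ᵁ O)).map (lpb l g).hom
  have hc : Rf l g (g ⁻¹ᵁ O) O c := by
    refine (Category.assoc _ _ _).trans ((congrArg _ ((ezι _).naturality _)).trans ?_)
    rw [ιU, ← he]
    exact (Category.assoc _ _ _).symm
  have h : ∃ b, Rf l g (g ⁻¹ᵁ O) O b := ⟨c, hc⟩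
  have : Mono (ιU l (g ⁻¹ᵁ O)) := inferInstanceAs (Mono ((ezι _).app _))
  rw [rf, dif_pos h, (cancel_mono (ιU l (g ⁻¹ᵁ O))).1 (h.choose_spec.trans hc.symm)]
  exact inferInstanceAs (IsIso (e.hom.app _ ≫ (ez (g ⁻¹ᵁ O)).map (lpb l g).hom))

/-- Bijectivity of `kpb` in terms of `MB`. -/
lemma kpb_iff (U O : T.Opens) : (∀ n, Bijective (kpb l g (g ⁻¹ᵁ U) (g ⁻¹ᵁ O) U O n)) ↔
    Exce.MB.{1} (pbe g) (FU l O) (AU l U) := by
  have := rp_iso l g U
  have := rf_iso l g O
  exact ⟨fun h => (Exce.mb_iff (rp l g (g ⁻¹ᵁ U) U) (pre_bij _ _)).2 fun n =>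
    ((post_bij _ (rf l g (g ⁻¹ᵁ O) O) n).of_comp_iff' _).1 (h n), fun h => A1k.MB.kpb h _ _⟩

end Ret

theorem ret : RET_s := by
  intro l _ W T' T ρ g s r U' O' U O n hρ hT hl hU hs hr e e'
  subst e e'
  have := hT.1
  have := hT.2
  exact (Ret.kpb_iff l g U O).2
    (A1k.ret s r hs hr (A1k.abu l hρ hl (A1k.ez_tc O (G0.linf_Tc l T)) hU)) n

end Pool.Agent.MP_855f4c_ag.A

end

section

/-! h14a row EXC: excision along ind-etale maps. -/

set_option autoImplicit false
set_option backward.isDefEq.respectTransparency false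

open CategoryTheory Limits Abelian Opposite AlgebraicGeometry Function

namespace Pool.Agent.MP_855f4c_ag.A

open E E3 E4 T

namespace Exc
variable {l : ℕ} [Fact l.Prime] {T T' : Scheme.{0}}

lemma rp_iso (g : T' ⟶ T) (U : T.Opens) : IsIso (rp l g (g ⁻¹ᵁ U) U) := by
  have h : ∃ a, Rp l g (g ⁻¹ᵁ U) U a := Pbc.exRp g le_rfl
  rw [rp, dif_pos h]
  exact Pbc.Rp_isIso h.choose_spec

lemma rf_iso (g : T' ⟶ T) (O : T.Opens) : IsIso (rf l g (g ⁻¹ᵁ O) O) := by
  obtain ⟨e, he⟩ := ez_pb O g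
  have h0 : Rf l g (g ⁻¹ᵁ O) O (e.hom.app _ ≫ (ez (g ⁻¹ᵁ O)).map (lpb l g).hom) := by
    rw [Rf, Category.assoc, ιU, (ezι _).naturality, ιU, ← he]
    exact (Category.assoc _ _ _).symm
  have h : ∃ b, Rf l g (g ⁻¹ᵁ O) O b := ⟨_, h0⟩
  have : Mono (ιU l (g ⁻¹ᵁ O)) := inferInstanceAs (Mono ((ezι _).app _))
  rw [rf, dif_pos h, (cancel_mono (ιU l _)).1 (h.choose_spec.trans h0.symm)]
  exact IsIso.comp_isIso' inferInstance inferInstance

lemma kpb_bij (g : T' ⟶ T) (U O : T.Opens) (h : Exce.MB.{1} (pbe g) (FU l O) (AU l U)) (n : ℕ) :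
    Bijective (kpb l g (g ⁻¹ᵁ U) (g ⁻¹ᵁ O) U O n) :=
  have := rp_iso (l := l) g U
  have := rf_iso (l := l) g O
  (post_bij _ _ n).comp ((Exce.mb_iff _ (pre_bij _ _)).1 h n)

/-- Excision for every `LFP` sheaf. -/
lemma mb {C C₁ : Type} [CommRing C] [CommRing C₁] [Algebra C C₁] {I : Ideal C} (h : Exs C C₁ I)
    (hI : I.FG) {G : Sh (Scheme.etaleTopology.over (Spec (.of C)))} (hG : LFP G.obj) :
    Exce.MB.{1} (pbe (spc (algebraMap C C₁))) G (AU l (opI I)) := by
  refine Exce.mb h.1 (Exce.opI_compact hI) (fun k _ _ y hy => ?_) (Tel.isQ _) hG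
    (.of (ULift.{1} (QZ l)))
  obtain ⟨φ, rfl⟩ := Spec.map_surjective y
  obtain ⟨ψ, h1, h2⟩ := h.2 k φ.hom fun x hx => by
    have := not_not.1 (hy (IsLocalRing.closedPoint k)) hx
    exact not_not.1 fun h0 => (IsLocalRing.mem_maximalIdeal _).1 this (IsUnit.mk0 _ h0)
  refine ⟨spc ψ, ?_, fun y' hy' => ?_⟩
  · change spc ψ ≫ _ = _
    rw [← Spec.map_comp, ← CommRingCat.ofHom_comp, h1, CommRingCat.ofHom_hom]
  · obtain ⟨ψ', rfl⟩ := Spec.map_surjective y'
    rw [← h2 ψ'.hom congr($(Spec.map_injective ((Spec.map_comp _ _).trans hy')).hom)]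
    rfl

end Exc

theorem exc : EXC_s := by
  rintro l _ C C₁ _ _ _ I J _ _ n h hI - rfl rfl
  exact Exc.kpb_bij _ _ _ (Exc.mb h hI (CLZ.ez_cc (G0.linf_Tc l _).1).1) n

end Pool.Agent.MP_855f4c_ag.A

end

section

/-! h14a rows EXC and the cohomological input of TUBE: classes supported on the special fibre with
coefficients extended by zero from the generic fibre, as a functor of the algebra. -/

set_option autoImplicit false
set_option backward.isDefEq.respectTransparency false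

open CategoryTheory Limits Abelian Opposite AlgebraicGeometry Function TensorProduct

namespace Pool.Agent.MP_855f4c_ag.T.Tubk

open E E3 E4 Pbc

section gen

variable {T T' T'' : Scheme.{0}}

/-- Pull-back of classes with given comparison maps. -/
noncomputable def cpb (g : T' ⟶ T) {A G : Sh (Scheme.etaleTopology.over T)}
    {A' G' : Sh (Scheme.etaleTopology.over T')} (a : A' ⟶ (pbe g).obj A) (c : (pbe g).obj G ⟶ G')
    (n : ℕ) : Ext A G n →+ Ext A' G' n :=
  (post A' c n).comp (cmp (pbe g) a G n)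

variable {A G : Sh (Scheme.etaleTopology.over T)} {A' G' : Sh (Scheme.etaleTopology.over T')}
  {A'' G'' : Sh (Scheme.etaleTopology.over T'')}

lemma cpb_apply (g : T' ⟶ T) (a : A' ⟶ (pbe g).obj A) (c : (pbe g).obj G ⟶ G') {n : ℕ}
    (x : Ext A G n) :
    cpb g a c n x = post _ c n (pre a _ n (x.mapExactFunctor (pbe g))) := rfl

lemma cpb_cpb (g' : T'' ⟶ T') (g : T' ⟶ T) (a' : A'' ⟶ (pbe g').obj A') (a : A' ⟶ (pbe g).obj A)
    (c' : (pbe g').obj G' ⟶ G'') (c : (pbe g).obj G ⟶ G') {n : ℕ} (x : Ext A G n) :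
    cpb g' a' c' n (cpb g a c n x) = cpb (g' ≫ g) (a' ≫ (pbe g').map a ≫ (pc g' g A).hom)
      ((pc g' g G).inv ≫ (pbe g').map c ≫ c') n x := by
  have h : (pbe g').map c ≫ c' = (pc g' g G).hom ≫ (pc g' g G).inv ≫ (pbe g').map c ≫ c' :=
    (Iso.hom_inv_id_assoc _ _).symm
  rw [cpb_apply, cpb_apply, cpb_apply, map_post, map_pre, pre_post, post_post, pre_pre, h,
    ← post_post, ← pre_post, nat_comp (pbe g) (pbe g') (pbe (g' ≫ g)) (fun A => (pc g' g A).hom)
      (pc_nat g' g), pre_pre, Category.assoc, ← h]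

lemma cpb_bij (g : T' ⟶ T) (a : A' ⟶ (pbe g).obj A) (c : (pbe g).obj G ⟶ G') [IsIso a] [IsIso c] :
    (∀ n, Bijective (cpb g a c n)) ↔ Exce.MB.{1} (pbe g) G A := by
  rw [Exce.mb_iff a (pre_bij _ _)]
  exact forall_congr' fun n => (post_bij A' c n).of_comp_iff' (cmp (pbe g) a G n)

variable (l : ℕ) [Fact l.Prime]

/-- `c` is the comparison map of the extensions by zero. -/
def Rz (g : T' ⟶ T) (O' : T'.Opens) (O : T.Opens)
    (c : (pbe g).obj ((ez O).obj (Linf l T)) ⟶ (ez O').obj (Linf l T')) : Prop :=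
  c ≫ (ezι O').app (Linf l T') = (pbe g).map ((ezι O).app (Linf l T)) ≫ (lpb l g).hom

variable {l} {O : T.Opens} {O' : T'.Opens} {O'' : T''.Opens}

lemma Rz_uniq {g : T' ⟶ T} {a b} (ha : Rz l g O' O a) (hb : Rz l g O' O b) : a = b :=
  (cancel_mono ((ezι O').app (Linf l T'))).1 (ha.trans hb.symm)

lemma exRz (g : T' ⟶ T) (h : O' = g ⁻¹ᵁ O) : ∃ c, Rz l g O' O c ∧ IsIso c := by
  subst h
  obtain ⟨e, he⟩ := ez_pb O g
  refine ⟨e.hom.app _ ≫ (ez _).map (lpb l g).hom, ?_, inferInstance⟩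
  rw [Rz, ← he, Category.assoc, Category.assoc]
  exact congrArg _ ((ezι (g ⁻¹ᵁ O)).naturality _)

lemma Rz_comp {g' : T'' ⟶ T'} {g : T' ⟶ T} {c' c} (h' : Rz l g' O'' O' c') (h : Rz l g O' O c) :
    Rz l (g' ≫ g) O'' O ((pc g' g _).inv ≫ (pbe g').map c ≫ c') := by
  have e : (pbe g').map (lpb l g).hom ≫ (lpb l g').hom =
      (pc g' g (Linf l T)).hom ≫ (lpb l (g' ≫ g)).hom := by
    rw [← Iso.comp_inv_eq, ← lpb_pc, Category.assoc, Iso.hom_inv_id_assoc, ← Functor.map_comp_assoc,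
      Iso.hom_inv_id, CategoryTheory.Functor.map_id, Category.id_comp]
  rw [Rz] at h h' ⊢
  rw [Category.assoc, Category.assoc, h', ← Functor.map_comp_assoc, h, Functor.map_comp_assoc, e,
    Iso.inv_comp_eq, ← Category.assoc, ← Category.assoc]
  exact congrArg (· ≫ _) (pc_nat g' g ((ezι O).app (Linf l T)))

end gen

section gen2

variable {T T' : Scheme.{0}} {l : ℕ} [Fact l.Prime] {O : T.Opens} {O' : T'.Opens}

lemma rp_spec (g : T' ⟶ T) (h : O' ≤ g ⁻¹ᵁ O) : Rp l g O' O (A.rp l g O' O) := by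
  rw [A.rp, dif_pos (exRp g h)]
  exact (exRp g h).choose_spec

lemma rf_spec (g : T' ⟶ T) (h : O' = g ⁻¹ᵁ O) :
    Rz l g O' O (A.rf l g O' O) ∧ IsIso (A.rf l g O' O) := by
  obtain ⟨c, h1, h2⟩ := exRz (l := l) g h
  have e : ∃ b, A.Rf l g O' O b := ⟨c, h1⟩
  have e' : A.rf l g O' O = c := by
    rw [A.rf, dif_pos e]
    exact Rz_uniq e.choose_spec h1
  rw [e']
  exact ⟨h1, h2⟩

end gen2

section exc

variable (l : ℕ) [Fact l.Prime] {C C₁ : Type} [CommRing C] [CommRing C₁] [Algebra C C₁]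

/-- **EXC**: excision for every compact open containing the complement of the zero set. -/
theorem exck {I : Ideal C} (h : Exs C C₁ I) {U : (Spec (.of C)).Opens}
    (hU : IsCompact (U : Set (Spec (.of C)))) (hI : opI I ≤ U)
    {G : Sh (Scheme.etaleTopology.over (Spec (.of C)))} (hG : LFP G.obj) :
    Exce.MB.{1} (pbe (spc (algebraMap C C₁))) G (AU l U) := by
  refine Exce.mb h.1 hU (fun k _ _ y hy => ?_) (Tel.isQ U) hG (.of (ULift.{1} (QZ l)))
  obtain ⟨φ, rfl⟩ := Spec.map_surjective y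
  obtain ⟨ψ, h1, h2⟩ := h.2 k φ.hom fun x hx => by
    have := not_not.1 (fun h0 => hy (IsLocalRing.closedPoint k) (hI h0)) hx
    exact not_not.1 fun h0 => (IsLocalRing.mem_maximalIdeal _).1 this (IsUnit.mk0 _ h0)
  refine ⟨spc ψ, ?_, fun y' hy' => ?_⟩
  · change spc ψ ≫ _ = _
    rw [← Spec.map_comp, ← CommRingCat.ofHom_comp, h1, CommRingCat.ofHom_hom]
  · obtain ⟨ψ', rfl⟩ := Spec.map_surjective y'
    rw [← h2 ψ'.hom congr($(Spec.map_injective ((Spec.map_comp _ _).trans hy')).hom)]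
    rfl

lemma fz_Tc {T : Scheme.{0}} (O : T.Opens) : Tc l ((ez O).obj (Linf l T)) :=
  have h := G0.linf_Tc l T
  ⟨⟨ez_LFP O (h.1.1.restrict _), ez_Rig O (h.1.2.restrict _)⟩, ez_Tor O (h.2.restrict _)⟩

end exc

section fun_

variable (l : ℕ) [Fact l.Prime] {O : Type} [CommRing O] (w : O) (V : Type) [CommRing V] [Algebra O V]

/-- The generic fibre. -/
noncomputable def eta (B : Type) [CommRing B] [Algebra O B] : (Spec (.of (V ⊗[O] B))).Opens :=
  opI (Ideal.span {algebraMap O (V ⊗[O] B) w})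

/-- The groups. -/
abbrev kk (B : Type) [CommRing B] [Algebra O B] (n : ℕ) : Type 1 :=
  Ext.{1} (AU l (eta w V B)) ((ez (eta w V B)).obj (Linf l _)) n

variable {B B' B'' : Type} [CommRing B] [Algebra O B] [CommRing B'] [Algebra O B'] [CommRing B'']
  [Algebra O B'']

lemma eta_pb (f : B →ₐ[O] B') : eta w V B' = spc (bcf V f) ⁻¹ᵁ eta w V B := by
  rw [eta, eta, ← Exce.opI_map, Ideal.map_span, Set.image_singleton]
  congr 3
  exact ((Algebra.TensorProduct.map (AlgHom.id O V) f).commutes w).symm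

lemma eta_compact (B : Type) [CommRing B] [Algebra O B] :
    IsCompact (eta w V B : Set (Spec (.of (V ⊗[O] B)))) :=
  Exce.opI_compact (Submodule.fg_span_singleton _)

/-- The pull-back along an algebra homomorphism. -/
noncomputable def pull (f : B →ₐ[O] B') (n : ℕ) : kk l w V B n →+ kk l w V B' n :=
  cpb (spc (bcf V f)) (exRp (l := l) _ (eta_pb w V f).le).choose
    (exRz (l := l) _ (eta_pb w V f)).choose n

lemma pull_eq (f : B →ₐ[O] B') {a c} (ha : Rp l (spc (bcf V f)) _ _ a)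
    (hc : Rz l (spc (bcf V f)) _ _ c) (n : ℕ) : pull l w V f n = cpb (spc (bcf V f)) a c n := by
  rw [pull, Rp_uniq (exRp (l := l) _ (eta_pb w V f).le).choose_spec ha,
    Rz_uniq (exRz (l := l) _ (eta_pb w V f)).choose_spec.1 hc]

lemma pull_kpb (f : B →ₐ[O] B') (n : ℕ) : pull l w V f n =
    A.kpb l (spc (bcf V f)) (eta w V B') (eta w V B') (eta w V B) (eta w V B) n :=
  pull_eq l w V f (rp_spec _ (eta_pb w V f).le) (rf_spec _ (eta_pb w V f)).1 n

lemma spc_bcf (f : B →ₐ[O] B') (f' : B' →ₐ[O] B'') :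
    spc (bcf V f') ≫ spc (bcf V f) = spc (bcf V (f'.comp f)) := by
  refine (Twt.spc_spc _ _).trans (congrArg spc ?_)
  ext x <;> simp [bcf]

theorem pull_comp (f : B →ₐ[O] B') (f' : B' →ₐ[O] B'') (n : ℕ) (x : kk l w V B n) :
    pull l w V (f'.comp f) n x = pull l w V f' n (pull l w V f n x) := by
  have h1 := Rp_comp (exRp (l := l) _ (eta_pb w V f').le).choose_spec
    (exRp (l := l) _ (eta_pb w V f).le).choose_spec
  have h2 := Rz_comp (exRz (l := l) _ (eta_pb w V f')).choose_spec.1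
    (exRz (l := l) _ (eta_pb w V f)).choose_spec.1
  rw [pull, pull, pull, cpb_cpb]
  have key : ∀ (g : Spec (.of (V ⊗[O] B'')) ⟶ Spec (.of (V ⊗[O] B))) (_ : g = spc (bcf V (f'.comp f)))
      a c, Rp l g (eta w V B'') (eta w V B) a → Rz l g (eta w V B'') (eta w V B) c →
      pull l w V (f'.comp f) n x = cpb g a c n x := by
    rintro _ rfl a c ha hc
    rw [pull_eq l w V _ ha hc]
  exact key _ (spc_bcf V f f') _ _ h1 h2

/-- Bijectivity of the pull-back in the form used by the other rows. -/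
theorem pull_bij (f : B →ₐ[O] B') : (∀ n, Bijective (pull l w V f n)) ↔
    Exce.MB.{1} (pbe (spc (bcf V f))) ((ez (eta w V B)).obj (Linf l _)) (AU l (eta w V B)) := by
  have h1 := (exRp (l := l) _ (eta_pb w V f).le).choose_spec
  have h2 := (exRz (l := l) _ (eta_pb w V f)).choose_spec.2
  have key : ∀ (U : (Spec (.of (V ⊗[O] B'))).Opens) (_ : U = spc (bcf V f) ⁻¹ᵁ eta w V B) a,
      Rp l (spc (bcf V f)) U (eta w V B) a → IsIso a := by
    rintro _ rfl a ha
    exact Rp_isIso ha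
  have := key _ (eta_pb w V f) _ h1
  exact cpb_bij _ _ _

/-- (i) Henselisations along `w`. -/
theorem pull_exc [Algebra B B'] [IsScalarTower O B B'] (h1 : IndEt B B')
    (h2 : QIso B B' (Ideal.span {algebraMap O B w})) (n : ℕ) :
    Bijective (pull l w V (IsScalarTower.toAlgHom O B B') n) := by
  let : Algebra (V ⊗[O] B) (V ⊗[O] B') := (bcf V (IsScalarTower.toAlgHom O B B')).toAlgebra
  have h := exs_tensor exs O V B B' _ h1 h2
  refine (pull_bij l w V _).2 (exck l h (eta_compact w V B) (le_of_eq ?_) (fz_Tc l _).1.1) n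
  rw [eta, Ideal.map_span, Set.image_singleton]
  congr 3
  exact (Algebra.TensorProduct.includeRight (R := O) (A := V) (B := B)).commutes w

omit [Fact l.Prime] in
lemma tens_sq (B : Type) [CommRing B] [Algebra O B] : IsPullback (spc (iR O V B)) (spc (iL O V B))
    (spc (algebraMap O B)) (spc (algebraMap O V)) :=
  (isPullback_SpecMap_of_isPushout _ _ _ _ (CommRingCat.isPushout_tensorProduct O V B)).flip

/-- The base change of an algebra homomorphism is cartesian. -/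
lemma bcf_sq (f : B →ₐ[O] B') : IsPullback (spc (iR O V B')) (spc (bcf V f)) (spc f.toRingHom)
    (spc (iR O V B)) := by
  refine IsPullback.of_bot ?_ ?_ (tens_sq V B)
  · rw [Twt.spc_spc, Twt.spc_spc, show (bcf V f).comp (iL O V B) = iL O V B' from
      RingHom.ext fun x => by simp [bcf, iL], show f.toRingHom.comp (algebraMap O B) = algebraMap O B'
      from f.comp_algebraMap]
    exact tens_sq V B'
  · rw [Twt.spc_spc, Twt.spc_spc]
    exact congrArg spc (RingHom.ext fun _ => rfl)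

lemma affB_mv (B σ : Type) [CommRing B] [Finite σ] {P : Type} [CommRing P] [Algebra B P]
    (e : P ≃ₐ[B] MvPolynomial σ B) : GG.AffB (spc (algebraMap B P)) := fun x => by
  have : IsIso (CommRingCat.ofHom e.toRingEquiv.toRingHom) :=
    (ConcreteCategory.isIso_iff_bijective _).2 e.bijective
  refine ⟨B, _, 𝟙 _, σ, inferInstance, spc e.toRingEquiv.toRingHom, inferInstance, ⟨x, rfl⟩,
    IsPullback.of_horiz_isIso ⟨?_⟩⟩
  rw [Category.comp_id, Twt.spc_spc]
  exact congrArg spc e.toAlgHom.comp_algebraMap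

/-- A polynomial ring stays an affine space after the base change. -/
lemma affB_bcf [Algebra B B'] [IsScalarTower O B B'] {σ : Type} [Finite σ]
    (e : B' ≃ₐ[B] MvPolynomial σ B) : GG.AffB (spc (bcf V (IsScalarTower.toAlgHom O B B'))) :=
  All.hABU.1 _ _ _ _ _ _ _ _ (bcf_sq V (IsScalarTower.toAlgHom O B B')) (affB_mv B σ e)

/-- (iii) Polynomial rings. -/
theorem pull_mv (hl : IsUnit (l : V)) [Algebra B B'] [IsScalarTower O B B'] {σ : Type} [Finite σ]
    (e : B' ≃ₐ[B] MvPolynomial σ B) (n : ℕ) :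
    Bijective (pull l w V (IsScalarTower.toAlgHom O B B') n) :=
  (pull_bij l w V _).2 (A1k.abu l (affB_bcf V e)
    (Linv.spec (by simpa using hl.map (iL O V B))) (fz_Tc l _) (eta_compact w V B)) n

/-- The functor of the tube argument. -/
noncomputable def inv (hl : IsUnit (l : V)) (n : ℕ) : Tubc.Inv O w where
  F B _ _ := kk l w V B n
  pl f := pull l w V f n
  comp f g x := pull_comp l w V f g n x
  exc _ _ _ _ _ _ _ _ h1 h2 := pull_exc l w V h1 h2 n
  a1 B _ _ := pull_mv l w V hl (MvPolynomial.uniqueAlgEquiv B Unit).symm n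

/-- **TUBE**, cohomological form. -/
theorem tubk (hl : IsUnit (l : V)) {ι : Type} (hw : algebraMap O B w ∈ nonZeroDivisors B)
    (c : ι → B) (h : Tubc.Tub w c) (n : ℕ) :
    Bijective (A.kpb l (spc (bcf V (Ideal.Quotient.mkₐ O (Ideal.span (Set.range c)))))
      (eta w V _) (eta w V _) (eta w V B) (eta w V B) n) := by
  rw [← pull_kpb]
  exact Tubc.tubc (inv l w V hl n) hw c h

end fun_

end Pool.Agent.MP_855f4c_ag.T.Tubk

end

section

/-! h14a row TBR: the comparison of supports on the integral model of the projectors. -/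

set_option autoImplicit false
set_option backward.isDefEq.respectTransparency false

open CategoryTheory Limits Abelian Opposite AlgebraicGeometry Function TensorProduct

namespace Pool.Agent.MP_855f4c_ag.A

open E E3 E4 T T.Tubk

namespace Tbr

variable {l : ℕ} [Fact l.Prime] {O : Type} [CommRing O] (w : O) {V : Type} [CommRing V]
  [Algebra O V] (hl : IsUnit (l : V))

omit [Fact l.Prime] in
include hl in
lemma linv (B : Type) [CommRing B] [Algebra O B] : Linv l (Spec (.of (V ⊗[O] B))) :=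
  Linv.spec (by simpa using hl.map (iL O V B))

include hl in
/-- Retracts of polynomial rings, after the base change. -/
lemma retT (hR : RET_s) {B B' σ : Type} [CommRing B] [CommRing B'] [Algebra O B] [Algebra O B']
    [Finite σ] (f : B →ₐ[O] B') (i : B' →ₐ[O] MvPolynomial σ B) (p : MvPolynomial σ B →ₐ[O] B')
    (hi : i.comp f = IsScalarTower.toAlgHom O B _) (hp : p.comp i = AlgHom.id O B') (n : ℕ) :
    Bijective (kpb l (spc (bcf V f)) (eta w V B') (eta w V B') (eta w V B) (eta w V B) n) :=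
  hR l _ _ _ _ _ (spc (bcf V p)) (spc (bcf V i)) _ _ _ _ n (affB_bcf V AlgEquiv.refl)
    ⟨inferInstanceAs (CompactSpace (PrimeSpectrum _)), inferInstance⟩ (linv hl B)
    (eta_compact w V B)
    (by rw [spc_bcf, hp, bcf, Algebra.TensorProduct.map_id]; exact Spec.map_id _)
    (by rw [spc_bcf, hi]) (eta_pb w V f) (eta_pb w V f)

variable (V) in
lemma closed {W : Type} [CommRing W] [Algebra O W] (J : Ideal W) :
    IsClosedImmersion (spc (bcf V (Ideal.Quotient.mkₐ O J))) ∧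
      ∀ x, x ∈ opI (J.map (iR O V W)) ↔ x ∉ Set.range (spc (bcf V (Ideal.Quotient.mkₐ O J))) := by
  have hs : Surjective (bcf V (Ideal.Quotient.mkₐ O J)) :=
    Algebra.TensorProduct.map_surjective _ _ surjective_id Ideal.Quotient.mk_surjective
  refine ⟨IsClosedImmersion.spec_of_surjective _ hs, fun x => not_congr ?_⟩
  have h1 := Set.ext_iff.1 (range_comap_of_surjective _ _ hs) x
  have h2 : RingHom.ker (bcf V (Ideal.Quotient.mkₐ O J)) = J.map (iR O V W) := by
    refine (Algebra.TensorProduct.lTensor_ker _ Ideal.Quotient.mk_surjective).trans ?_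
    exact congrArg (Ideal.map _) (Ideal.Quotient.mkₐ_ker O J)
  rw [h2] at h1
  exact h1.symm

lemma bcf_iR {B W : Type} [CommRing B] [CommRing W] [Algebra O B] [Algebra O W] (φ : B →ₐ[O] W) :
    (bcf V φ).comp (iR O V B) = (iR O V W).comp φ := RingHom.ext fun x => by simp [bcf, iR]

include hl in
/-- The tube passes to retracts of polynomial rings. -/
lemma tubW (hK : KL_s) (hR : RET_s) {D W σ : Type} [CommRing D] [CommRing W] [Algebra O D]
    [Algebra O W] [Algebra D W] [IsScalarTower O D W] [Finite σ] (s : W →ₐ[D] MvPolynomial σ D)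
    (p : MvPolynomial σ D →ₐ[D] W) (hp : ∀ x, p (s x) = x) (I : Ideal D) (n : ℕ)
    (h : Bijective (kpb l (spc (bcf V (Ideal.Quotient.mkₐ O I))) (eta w V _) (eta w V _)
      (eta w V D) (eta w V D) n)) :
    Bijective (kpb l (spc (bcf V (Ideal.Quotient.mkₐ O (I.map (algebraMap D W))))) (eta w V _)
      (eta w V _) (eta w V W) (eta w V W) n) := by
  let J := I.map (algebraMap D W)
  let f : D →ₐ[O] W := IsScalarTower.toAlgHom O D W
  let f' : (D ⧸ I) →ₐ[O] W ⧸ J := Ideal.quotientMapₐ J f Ideal.le_comap_map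
  let m : MvPolynomial σ D →ₐ[O] MvPolynomial σ (D ⧸ I) :=
    MvPolynomial.mapAlgHom (Ideal.Quotient.mkₐ O I)
  have hm (d : D) : m (s (algebraMap D W d)) = MvPolynomial.C (Ideal.Quotient.mk I d) := by
    rw [s.commutes]
    exact MvPolynomial.map_C _ d
  let s' : (W ⧸ J) →ₐ[O] MvPolynomial σ (D ⧸ I) :=
    Ideal.Quotient.liftₐ J (m.comp (s.restrictScalars O)) fun x hx =>
      (Ideal.map_le_iff_le_comap (K := RingHom.ker (m.comp (s.restrictScalars O)))).2
        (fun d hd => (hm d).trans (by rw [Ideal.Quotient.eq_zero_iff_mem.2 hd, map_zero])) hx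
  let p' : MvPolynomial σ (D ⧸ I) →ₐ[O] W ⧸ J :=
    MvPolynomial.aevalTower f' fun x => Ideal.Quotient.mk J (p (.X x))
  have e : p'.comp m = (Ideal.Quotient.mkₐ O J).comp (p.restrictScalars O) := by
    refine AlgHom.coe_ringHom_injective (MvPolynomial.ringHom_ext (fun d => ?_) fun x => ?_)
    · change p' (MvPolynomial.map _ (.C d)) = Ideal.Quotient.mk J (p (algebraMap D _ d))
      rw [MvPolynomial.map_C, MvPolynomial.aevalTower_C, p.commutes]
      rfl
    · change p' (MvPolynomial.map _ (.X x)) = _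
      rw [MvPolynomial.map_X, MvPolynomial.aevalTower_X]
      rfl
  refine Tb.sq hK (g := spc (bcf V f)) (g' := spc (bcf V f'))
    (i₀ := spc (bcf V (Ideal.Quotient.mkₐ O I))) (by rw [spc_bcf, spc_bcf]; rfl) (eta_pb w V f)
    (eta_pb w V f) (eta_pb w V _) (eta_pb w V _) (eta_pb w V _) (eta_pb w V _) n
    (retT w hl hR f (s.restrictScalars O) (p.restrictScalars O) (AlgHom.ext s.commutes)
      (AlgHom.ext hp) n)
    (retT w hl hR f' s' p' (Ideal.Quotient.algHom_ext _ (AlgHom.ext hm))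
      (Ideal.Quotient.algHom_ext _ (AlgHom.ext fun x => ?_)) n) h
  exact (DFunLike.congr_fun e (s x)).trans (congrArg (Ideal.Quotient.mk J) (hp x))

variable (V) in
lemma opn {B W : Type} [CommRing B] [CommRing W] [Algebra O B] [Algebra O W] (φ : B →ₐ[O] W)
    (h : IsOpenImmersion (spc (φ : B →+* W))) (I : Ideal B)
    (hI : ∀ x, x ∈ Set.range (spc (φ : B →+* W)) ↔ x ∈ opI I) :
    ∃ _ : IsOpenImmersion (spc (bcf V φ)), (spc (bcf V φ)).opensRange = opI (I.map (iR O V B)) := by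
  have q := bcf_sq V φ
  have : IsOpenImmersion (spc φ.toRingHom) := h
  refine ⟨MorphismProperty.of_isPullback q ‹_›, ?_⟩
  rw [Exce.opI_map]
  refine TopologicalSpace.Opens.ext (Set.ext fun x => Iff.trans ⟨?_, ?_⟩ (hI _))
  · rintro ⟨y, rfl⟩
    exact ⟨_, congr($(q.w) y)⟩
  · rintro ⟨y, hy⟩
    obtain ⟨z, -, hz⟩ := Scheme.exists_preimage_of_isPullback q y x hy
    exact ⟨z, hz⟩

include hl in
/-- **TB** for rings. -/
theorem tbA (h2 : LES2_s) (hK : KL_s) (hR : RET_s) (Bd : BA l) {B D W σ : Type} [CommRing B]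
    [CommRing D] [CommRing W] [Algebra O B] [Algebra O D] [Algebra O W] [Algebra D W]
    [IsScalarTower O D W] [Finite σ] (s : W →ₐ[D] MvPolynomial σ D) (p : MvPolynomial σ D →ₐ[D] W)
    (hp : ∀ x, p (s x) = x) (I : Ideal D)
    (h : ∀ n, Bijective (kpb l (spc (bcf V (Ideal.Quotient.mkₐ O I))) (eta w V _) (eta w V _)
      (eta w V D) (eta w V D) n)) (φ : B →ₐ[O] W) (ho : IsOpenImmersion (spc (φ : B →+* W)))
    (IH IG : Ideal B) (hH : ∀ x, x ∈ Set.range (spc (φ : B →+* W)) ↔ x ∈ opI IH)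
    (hG : IG.map φ = I.map (algebraMap D W)) {η U P : (Spec (.of (V ⊗[O] B))).Opens}
    (e1 : η = eta w V B) (e2 : U = η ⊔ opI (IH.map (iR O V B)))
    (e3 : P = η ⊓ opI (IG.map (iR O V B))) (n : ℕ) : Bijective (kpb l (𝟙 _) η P U P n) := by
  obtain ⟨_, e⟩ := opn V φ ho IH hH
  obtain ⟨_, c⟩ := closed V (O := O) (I.map (algebraMap D W))
  subst e1
  refine tb' h2 Bd (spc (bcf V φ)) _ (linv hl W) c (eta_pb w V φ) ?_ (e ▸ e2) (eta_pb w V _)
    (fun n => tubW w hl hK hR s p hp I n (h n)) n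
  rw [e3, Scheme.Hom.preimage_inf, ← eta_pb, ← Exce.opI_map, Ideal.map_map, bcf_iR, ← hG,
    ← Ideal.map_map]
  rfl

end Tbr

open T.Jr in
/-- **TB** for the model of the projectors. -/
theorem tbr (h2 : LES2_s) (hK : KL_s) (hR : RET_s) {l : ℕ} [Fact l.Prime] (Bd : BA l) {O : Type}
    [CommRing O] (w : O) {V : Type} [CommRing V] [Algebra O V] (hl : IsUnit (l : V))
    {D ν ι : Type} [CommRing D] [Algebra O D] [Fintype ν] [Fintype ι] {e : ν × ν → D}
    {g : ι → ν → D} {r : ℕ} {S : ν → ι ⊕ ν → D} (h : Ln (QY e g r) S)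
    (hS : ∀ i j, S i (.inl j) = 0)
    (hD : Algebra.adjoin O (Set.range e ∪ Set.range fun q : ι × ν => g q.1 q.2) = ⊤)
    (hw : algebraMap O D w ∈ nonZeroDivisors D) (hT : Tubc.Tub w fun q : ι × ν => g q.1 q.2)
    {B : Type} [CommRing B] [Algebra O B] (φ : B →ₐ[O] T.Jr.JQ (QY e g r)) (hφ : Injective φ)
    (ε : ν × ν → B) (ε' : (ι ⊕ ν) × (ι ⊕ ν) → B) (hε : ∀ p, φ (ε p) = algebraMap D _ (e p))
    (hε' : ∀ p, φ (ε' p) = Jr.je _ p) {η U P : (Spec (.of (V ⊗[O] B))).Opens} (e1 : η = eta w V B)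
    (e2 : U = η ⊔ opI ((Ideal.span (Set.range fun q : ν × (ι ⊕ ν) => ε' (.inr q.1, q.2))).map
      (iR O V B)))
    (e3 : P = η ⊓ opI ((Ideal.span (Set.range fun q : ι × (ι ⊕ ν) => ε' (.inl q.1, q.2))).map
      (iR O V B))) (n : ℕ) : Bijective (kpb l (𝟙 _) η P U P n) := by
  obtain ⟨o1, o2⟩ := bw O h hS hD φ hφ ε ε' hε hε'
  have hq := pq_je (QY e g r)
  have hL := h.map (algebraMap D (T.Jr.JQ (QY e g r)))
  refine Tbr.tbA w hl h2 hK hR Bd (sec h) (Ideal.Quotient.mkₐ D _) (mk_sec_apply h) _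
    (tubk l w V hl hw _ hT) φ o1 _ _ (fun x => (o2 x).trans ?_) ?_ e1 e2 e3 n
  · refine Iff.trans ?_ (not_congr (Ideal.span_le (I := x.asIdeal))).symm
    simp only [Set.range_subset_iff, not_forall, Prod.exists, SetLike.mem_coe]
  · rw [Ideal.map_span, Ideal.map_span, ← Set.range_comp, ← Set.range_comp]
    refine le_antisymm (Ideal.span_le.2 ?_) (Ideal.span_le.2 ?_)
    · rintro _ ⟨⟨j, b⟩, rfl⟩
      rw [Function.comp_apply, hε', ← hq.left hL]
      refine Ideal.sum_mem _ fun c _ => Ideal.mul_mem_right _ _ (Ideal.sum_mem _ fun i _ => ?_)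
      exact Ideal.mul_mem_right _ _ (Ideal.subset_span ⟨(j, i), rfl⟩)
    · rintro _ ⟨⟨j, i⟩, rfl⟩
      rw [Function.comp_apply, ← one_mul (algebraMap D _ _), ← hq.1.1, Finset.sum_mul]
      refine Ideal.sum_mem _ fun a _ => ?_
      rw [show Jr.je _ (a, a) * algebraMap D _ (g j i) = _ from hq.2 a a (.inl j) i]
      exact Ideal.mul_mem_right _ _ (Ideal.subset_span ⟨(j, a), hε' _⟩)

end Pool.Agent.MP_855f4c_ag.A

end
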