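import Pool.Agent.MP_855f4c_ag.AC.Ad
import Pool.Agent.MP_855f4c_ag.AC.Aj
import Pool.Agent.MP_855f4c_ag.AC.Ah
import Pool.Agent.MP_855f4c_ag.AC.Ak

set_option linter.all false

section

/-! h14a: statements of the X side and of the C side. -/

set_option autoImplicit false
set_option backward.isDefEq.respectTransparency false

open CategoryTheory Limits Abelian Opposite AlgebraicGeometry Function TensorProduct MvPolynomial

namespace Pool.Agent.MP_855f4c_ag.A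

open E E3 E4 T

attribute [local instance] MvPolynomial.gradedAlgebra

section
variable {ν J K Ω D : Type} [CommRing K] [CommRing D]

/-- The ideal of the rows of the second matrix that belong to the forms `G`. -/
def IG (w : EW ν J → D) : Ideal D :=
  Ideal.span (Set.range fun v : J × NV ν J => w (.inr (.inl v.1, v.2)))

/-- The forms `G` evaluated at the columns. -/
noncomputable def gc (G : J → MvPolynomial ν K) : J × ν → MvPolynomial (ν × ν) K :=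
  fun v => rename (fun k => (k, v.2)) (G v.1)

/-- `U` is the complement of the common zeros of the forms `t`. -/
def Zo {κ β : Type} [CommRing Ω] (ω : Ω →+* D) (e : EV κ → D) (t : β → MvPolynomial (XY κ) Ω)
    (U : (Spec (.of D)).Opens) : Prop :=
  ∀ (L : Type) [Field L] (ψ : D →+* L) (a : XY κ → L), emat a = ψ ∘ e →
    ((∀ x, spc ψ x ∈ U) ↔ ∃ b, eval₂ (ψ.comp ω) a (t b) ≠ 0)

/-- `w` is the part off `U` of the Thom class of the linear forms `ℓ`. -/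
def LocC {l : ℕ} [Fact l.Prime] [Field Ω] [Fintype ν] (G : SG l) (Ch : Chern l Ω) (ω : Ω →+* D)
    (e : ν × ν → D) (o : ν) {d : ℕ} (ℓ : Fin d → ν → Ω) (U : (Spec (.of D)).Opens)
    (w : SS l (Spec (.of D)) U (2 * d)) : Prop :=
  ∃ (θ : D) (t : Fin d → Localization.Away θ), U ⊔ opI (Ideal.span {θ}) = ⊤ ∧
    Lt ((algebraMap D _).comp ω) (algebraMap D (Localization.Away θ) ∘ e) o ℓ t ∧
    spc (algebraMap D (Localization.Away θ)) ⁻¹ᵁ U ≤ opI (Ideal.span (Set.range t)) ∧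
    spb l (spc (algebraMap D (Localization.Away θ)))
      (spc (algebraMap D (Localization.Away θ)) ⁻¹ᵁ U) U (2 * d) w =
      G.thk ((List.finRange d).map fun a => thF Ch ((algebraMap D _).comp ω) (t a)) _ (2 * d)
        (by simp)

end

def LOCC_s : Prop := ∀ (l : ℕ) [Fact l.Prime] (Ω ν D : Type) [Field Ω] [Fintype ν] [CommRing D]
  (G : SG l) (Ch : Chern l Ω) (ω : Ω →+* D) (e : ν × ν → D) (o : ν) (d : ℕ) (ℓ : Fin d → ν → Ω)
  (U : (Spec (.of D)).Opens),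
    (∀ (θ : D) (t : Fin d → Localization.Away θ), U ⊔ opI (Ideal.span {θ}) = ⊤ →
      Lt ((algebraMap D _).comp ω) (algebraMap D (Localization.Away θ) ∘ e) o ℓ t →
      spc (algebraMap D (Localization.Away θ)) ⁻¹ᵁ U ≤ opI (Ideal.span (Set.range t)) →
      ∃ w, LocC G Ch ω e o ℓ U w) ∧
    (∀ w w', LocC G Ch ω e o ℓ U w → LocC G Ch ω e o ℓ U w' → w = w') ∧
    ∀ w, LocC G Ch ω e o ℓ U w → ∀ (A : Type) [CommRing A] (ψ : D →+* A)
      (U' : (Spec (.of A)).Opens), U' = spc ψ ⁻¹ᵁ U →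
      LocC G Ch (ψ.comp ω) (ψ ∘ e) o ℓ U' (spb l (spc ψ) U' U (2 * d) w) ∧
      ∀ t : Fin d → A, Lt (ψ.comp ω) (ψ ∘ e) o ℓ t → U' ≤ opI (Ideal.span (Set.range t)) →
        spb l (spc ψ) U' U (2 * d) w =
          G.thk ((List.finRange d).map fun a => thF Ch (ψ.comp ω) (t a)) U' (2 * d) (by simp)

/-- Equations of the pair and the map from the double model. -/
def XAE_s : Prop := ∀ (K Ω : Type) [Field K] [Field Ω] [IsAlgClosed Ω] (τ : K →+* Ω)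
  (X : Scheme.{0}) (f : X ⟶ Spec (.of K)) (d : ℕ) [SmoothOfRelativeDimension d f] (ν : Type)
  [Fintype ν] (o : ν) (ι : X ⟶ Proj (homogeneousSubmodule ν K)) [IsClosedImmersion ι]
  (D : Scheme.{0}) (j : D ⟶ X) [IsClosedImmersion j] [Smooth (j ≫ f)],
    ι ≫ Proj.toSpecZero _ ≫ spc (algebraMap K (homogeneousSubmodule ν K 0)) = f →
    (∀ x : X, x ∈ Set.range j ↔ MvPolynomial.X o ∈ (ι x).asHomogeneousIdeal) →
    (∃ x : X, x ∉ Set.range j) →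
    ∃ (n n' n'' r : ℕ) (g : Fin n → MvPolynomial (ν × ν) K) (G : Fin n' → MvPolynomial ν K)
      (F : Fin n'' → MvPolynomial {k // k ≠ o} K) (u : ν → Ω), XA o d r g G F ∧
      Algebra.FormallySmooth K
        (MvPolynomial (ν × ν) K ⧸ Ideal.span (Set.range (Sum.elim g (gc G)))) ∧
      u o = 1 ∧ (∀ i, eval₂ τ (fun k : {k // k ≠ o} => u k) (F i) = 0) ∧
      ∀ c : K, c ≠ 0 → ∃ q : Spec (.of (JW τ g (yv G r c))) ⟶ (fbr f (spc τ)).left,
        (∀ x, x ∈ opI (IG (wJ τ g (yv G r c))) ↔ (fbr f (spc τ)).hom (q x) ∉ Set.range j) ∧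
        (∃ (W : Scheme.{0}) (ρ : W ⟶ (fbr f (spc τ)).left) (s : Spec (.of _) ⟶ W)
          (t : W ⟶ Spec (.of _)), GG.AffB ρ ∧ s ≫ t = 𝟙 _ ∧ t ≫ q = ρ) ∧
        ∀ (ψ : Ω →+* Ω) (h : spc ψ ≫ spc τ = spc τ)
          (θ : JW τ g (yv G r c) →+* JW τ g (yv G r c)),
          θ.comp (algebraMap Ω _) = (algebraMap Ω _).comp ψ →
          (∀ v, θ (wJ τ g (yv G r c) v) = wJ τ g (yv G r c) v) → spc θ ≫ q = q ≫ fa f ψ h

/-- The tube has the cohomology of the divisor. -/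
def TBW {ν J ρ K : Type} [Fintype ν] [Fintype J] [CommRing K] (p l : ℕ) [Fact p.Prime]
    [Fact l.Prime] (τ : K →+* PadicAlgCl p) (g : ρ → MvPolynomial (ν × ν) K)
    (y : NV ν J → MvPolynomial ν K) : Prop :=
  ∀ (η O : (Spec (.of (BW τ g y (algebraMap (VV p) _)))).Opens),
    η = opI (Ideal.span {(p : BW τ g y (algebraMap (VV p) _))}) →
    O = opI (IG (wB τ g y (algebraMap (VV p) _))) ⊓ η →
    ∀ n, Bijective (kpb l (𝟙 _) η O (opI (IH (wB τ g y (algebraMap (VV p) _)))) O n)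

def TBX_s : Prop := ∀ (p l : ℕ) [Fact p.Prime] [Fact l.Prime], l ≠ p →
  ∀ (K ν ρ J φ : Type) [Field K] [Fintype ν] [Fintype J] [Finite ρ] (τ : K →+* PadicAlgCl p)
    (o : ν) (d r : ℕ) (g : ρ → MvPolynomial (ν × ν) K) (G : J → MvPolynomial ν K)
    (F : φ → MvPolynomial {k // k ≠ o} K), XA o d r g G F →
    Algebra.FormallySmooth K
      (MvPolynomial (ν × ν) K ⧸ Ideal.span (Set.range (Sum.elim g (gc G)))) →
    ∃ k₀ : ℕ, ∀ k ≥ k₀, TBW p l τ g (yv G r ((p : K) ^ k)⁻¹)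

/-- The action on the top cohomology of the fibre. -/
def ZF_s : Prop := ∀ (l : ℕ) [Fact l.Prime] (K Ω : Type) [Field K] [Field Ω] [IsAlgClosed Ω]
  [CharZero Ω] (τ : K →+* Ω) (X : Scheme.{0}) (f : X ⟶ Spec (.of K)) [IsProper f] (d : ℕ)
  [SmoothOfRelativeDimension d f] (D : Scheme.{0}) (j : D ⟶ X) [IsClosedImmersion j] [Nonempty D]
  (σ : End X) (hσ : σ ≫ f = f) (n : ℕ), IrreducibleSpace (fbr f (spc τ)).left → j ≫ σ = j →
    0 < n → σ ^ n = 1 → ∀ y : HH l (fbr f (spc τ)).left (2 * d), hpb l (sb f _ σ hσ) _ y = y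

/-- The lift of `(σ - 1) ^ 2` on an affine bundle. -/
def XL_s : Prop := ∀ (l : ℕ) [Fact l.Prime] (B : BA l) (K Ω : Type) [Field K] [Field Ω]
  [IsAlgClosed Ω] [CharZero Ω] (τ : K →+* Ω) (X : Scheme.{0}) (f : X ⟶ Spec (.of K)) [IsProper f]
  (d : ℕ) [SmoothOfRelativeDimension d f] (D : Scheme.{0}) (j : D ⟶ X) [IsClosedImmersion j]
  (σ : End X) (hσ : σ ≫ f = f) (n : ℕ) (Y W : Scheme.{0}) (q : Y ⟶ (fbr f (spc τ)).left)
  (O : Y.Opens) (ρ : W ⟶ (fbr f (spc τ)).left) (s : Y ⟶ W) (t : W ⟶ Y),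
    IrreducibleSpace (fbr f (spc τ)).left → (∃ x : X, x ∉ Set.range j) → j ≫ σ = j → 0 < n →
    σ ^ n = 1 → (∀ y : HH l (fbr f (spc τ)).left (2 * d), hpb l (sb f _ σ hσ) _ y = y) →
    (∀ x, x ∈ O ↔ (fbr f (spc τ)).hom (q x) ∉ Set.range j) → GG.AffB ρ → s ≫ t = 𝟙 _ → t ≫ q = ρ →
    ∃ lam : ∀ i, EE l (fbr f (spc τ)).left i →+ KK l Y ⊥ O i,
      (∀ (ψ : Ω →+* Ω) (h : spc ψ ≫ spc τ = spc τ) (θ : Y ⟶ Y), θ ≫ q = q ≫ fa f ψ h →
        ∀ i x, kpb l θ ⊥ O ⊥ O i (lam i x) = lam i (epb l (fa f ψ h) i x)) ∧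
      ∀ (w : KK l Y ⊥ O (2 * d)) (i : ℕ) (x : EE l (fbr f (spc τ)).left i),
        (¬ ∀ a, tau (epb l (sb f _ σ hσ) i (epb l (sb f _ σ hσ) i x - x) -
          (epb l (sb f _ σ hσ) i x - x)) a = 0) →
        ∃ (k : ℕ) (h : k + i = 2 * d) (x' : EE l (fbr f (spc τ)).left k) (N : ℕ), N ≠ 0 ∧
          B.act (𝟙 Y) ⊥ O k i (2 * d) h (lam k x') (ke l ⊥ O i (lam i x)) = N • w

/-- The class `γ` restricts at `τ = 1` to the local class. -/
def M2 {l : ℕ} [Fact l.Prime] {ν κ β Ω S : Type} [Fintype ν] [Field Ω] [CommRing S] (G : SG l)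
    (Ch : Chern l Ω) (ω : Ω →+* S) (e : EV κ → S) (τ : S) (w : ν × ν → MvPolynomial (XY κ) ℤ)
    (t' : β → MvPolynomial (XY κ) Ω) (o : ν) {d : ℕ} (ℓ : Fin d → ν → Ω)
    (γ : EE l (Spec (.of S)) (2 * d)) : Prop :=
  ∃ n : Ideal S, τ - 1 ∈ n ∧ n ≤ (Ideal.span {τ - 1}).radical ∧
    ∀ (U : (Spec (.of (S ⧸ n))).Opens) (z : ν × ν → S ⧸ n) (x : SS l _ U (2 * d)),
      Zo ((Ideal.Quotient.mk n).comp ω) (Ideal.Quotient.mk n ∘ e) t' U →
      (∀ v, Val (Ideal.Quotient.mk n ∘ e) (Int.castRingHom _) (w v) (z v)) →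
      LocC G Ch ((Ideal.Quotient.mk n).comp ω) z o ℓ U x →
      epb l (spc (Ideal.Quotient.mk n)) (2 * d) γ = se l U (2 * d) x

/-- The transfer to the generic fibre of the tube. -/
def MIDR_s : Prop := ∀ (p l : ℕ) [Fact p.Prime] [Fact l.Prime], l ≠ p →
  ∀ (B : BA l) (Γ : SG l) (Ch : Chern l (PadicAlgCl p)) (K ν ρ J φ κ β : Type) [Field K]
    [Algebra K (PadicAlgCl p)] [Fintype ν] [Fintype J] [Fintype κ] [DecidableEq κ] [Fintype β]
    [DecidableEq β] (o : ν) (d r c : ℕ) (g : ρ → MvPolynomial (ν × ν) K)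
    (G : J → MvPolynomial ν K) (F : φ → MvPolynomial {k // k ≠ o} K) (c₀ : K)
    (u : ν → PadicAlgCl p) (ℓ : Fin d → ν → PadicAlgCl p)
    (W : WD (algebraMap K (PadicAlgCl p)) g (yv G r c₀) u ℓ o κ β c) (j₀ : J)
    (O : Subring (PadicAlgCl p)) (C₀ C P H R : Type) [CommRing C₀] [CommRing C] [CommRing P]
    [CommRing H] [CommRing R] [Algebra O C₀] [Algebra C₀ C] [Algebra P C] [Algebra P H]
    [Algebra H R] [Algebra C R] [Algebra O C] [Algebra O P] [IsScalarTower O C₀ C]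
    [IsScalarTower O P C] (χ : K →+* C₀) (e₀ : EV κ → C₀) (τ : C₀) (I : Ideal C₀)
    (f₀ : Fin c → MvPolynomial (XY κ) C₀) (If : Fin c → Ideal C₀) (Is : β → Ideal C₀)
    (wP : EW ν J → P) (eps : P) (nn : Ideal P) (z : EW ν J → H),
    XA o d r g G F → u o = 1 → Iso (algebraMap K (PadicAlgCl p)) F u ℓ →
    (∀ i, ‖u i ^ r‖ < ‖aeval u (yv G r c₀ (.inl j₀))‖) →
    TBW p l (algebraMap K (PadicAlgCl p)) g (yv G r c₀) → (∀ x ∈ O, ‖x‖ ≤ 1) →
    (∀ x : ℤ_[p], algebraMap _ _ x ∈ O) → ValuationRing O →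
    (iR O (PadicAlgCl p) C₀).comp χ = (iL O (PadicAlgCl p) C₀).comp (algebraMap K _) → JP e₀ →
    (∀ a, Zer e₀ (f₀ a) (If a)) → (∀ t, Zer e₀ (map χ (W.s t)) (Is t)) →
    I = ∑ a, If a + ∑ t, Is t →
    (∀ (D : Type) [CommRing D] (ψ : C₀ →+* D) (a : XY κ → D), emat a = ψ ∘ e₀ → ψ τ = 1 →
      ∀ k, eval₂ ψ a (f₀ k) = eval₂ (ψ.comp χ) a (W.f k)) →
    CP p g (yv G r c₀) W.w W.eps χ e₀ τ I C P H R wP eps nn z →
    ∃ (rl : ∀ n, KK l (Spec (.of (JW (algebraMap K (PadicAlgCl p)) g (yv G r c₀)))) ⊥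
        (opI (IG (wJ _ g (yv G r c₀)))) n →+ EE l (Spec (.of (PadicAlgCl p ⊗[O] C))) n)
      (w : KK l _ ⊥ (opI (IG (wJ _ g (yv G r c₀)))) (2 * d)),
      (∀ (n m k : ℕ) (h : n + m = k) x x',
        rl k (B.act (𝟙 _) ⊥ _ n m k h x (ke l ⊥ _ m x')) = (rl n x).comp (rl m x') h) ∧
      (∀ (σ : PadicAlgCl p ≃ₐ[O] PadicAlgCl p) (θ : JW _ g (yv G r c₀) →+* JW _ g (yv G r c₀)),
        (∀ x, ‖σ x‖ = ‖x‖) →
        θ.comp (algebraMap _ _) = (algebraMap _ _).comp (σ : PadicAlgCl p →+* PadicAlgCl p) →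
        (∀ v, θ (wJ _ g (yv G r c₀) v) = wJ _ g (yv G r c₀) v) →
        ∀ n x, rl n (kpb l (spc θ) ⊥ _ ⊥ _ n x) = epb l (spc (tw σ C)) n (rl n x)) ∧
      M2 Γ Ch (iL O (PadicAlgCl p) C) (iR O (PadicAlgCl p) C ∘ algebraMap C₀ C ∘ e₀)
        (iR O (PadicAlgCl p) C (algebraMap C₀ C τ)) (W.w ∘ .inl) W.t' o ℓ (rl _ w)

/-- The tubes have the cohomology of the zero loci. -/
def SUP_s : Prop := ∀ (p l : ℕ) [Fact p.Prime] [Fact l.Prime] (O : Subring (PadicAlgCl p))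
  (κ : Type) [Fintype κ] [DecidableEq κ] (c : ℕ) (e e' : Fin c → κ → ℕ) (c₀ : MI e → O)
  (c' : MI e' → O) (B C₀ : Type) [CommRing B] [CommRing C₀] [Algebra (JT κ O) B] [Algebra O B]
  [IsScalarTower O (JT κ O) B] [Algebra B C₀] [Algebra O C₀] [IsScalarTower O B C₀]
  [IsLocalization.Away (p : B) C₀] (Z₀ Z : Scheme.{0}) (f₀ : Z₀ ⟶ Spec (.of (PadicAlgCl p)))
  (f : Z ⟶ Spec (.of (PadicAlgCl p))) (z₀ : κ → (Z₀ ⟶ P1)) (z : κ → (Z ⟶ P1)) (e₀ : EV κ → C₀)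
  (τ : C₀) (A A' : ℕ) (If : Fin c → Ideal C₀), l ≠ p → (∀ x ∈ O, ‖x‖ ≤ 1) →
    (∀ x : ℤ_[p], algebraMap _ _ x ∈ O) → IndEt (JT κ O) B →
    QIso (JT κ O) B (Ideal.span {(p : JT κ O)}) → Hens B (Ideal.span {(p : B)}) →
    ZL f₀ z₀ (noEq κ _) → ZL f z (fun i => (c' i : PadicAlgCl p)) →
    e₀ = algebraMap B C₀ ∘ algebraMap (JT κ O) B ∘ C ∘ je (noEq κ O) →
    τ = algebraMap B C₀ (algebraMap (JT κ O) B (X ())) → 0 < A →
    (∀ a, Zer e₀ (ft (algebraMap O C₀ ∘ c₀) (algebraMap O C₀ ∘ c') A A' τ a) (If a)) →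
    ∃ (C' : Type) (_ : CommRing C') (_ : Algebra O C') (_ : Algebra C₀ C')
      (_ : IsScalarTower O C₀ C') (s₀ : Spec (.of (PadicAlgCl p ⊗[O] C₀)) ⟶ Z₀)
      (s : Spec (.of (PadicAlgCl p ⊗[O] C')) ⟶ Z), Surjective (bc O (PadicAlgCl p) C₀ C') ∧
      bc O (PadicAlgCl p) C₀ C' (iR O _ C₀ τ) = 0 ∧
      (∀ a, (If a).map (iR O (PadicAlgCl p) C₀) ≤ RingHom.ker (bc O (PadicAlgCl p) C₀ C')) ∧
      RingHom.ker (bc O (PadicAlgCl p) C₀ C') ≤
        (Ideal.span {iR O _ C₀ τ} + ∑ a, (If a).map (iR O (PadicAlgCl p) C₀)).radical ∧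
      s₀ ≫ f₀ = spc (iL O (PadicAlgCl p) C₀) ∧
      Ad (iR O (PadicAlgCl p) C₀ ∘ e₀) (fun k => s₀ ≫ z₀ k) ∧
      (∀ n, Injective (hpb l (spc (Ideal.Quotient.mk (Ideal.span {iR O (PadicAlgCl p) C₀ τ}))) n)) ∧
      (∀ n, Injective
        (hpb l (spc (Ideal.Quotient.mk (Ideal.span {iR O (PadicAlgCl p) C₀ τ - 1})) ≫ s₀) n)) ∧
      (∀ n, Bijective (hpb l s n)) ∧
      ∀ (σ : PadicAlgCl p ≃ₐ[O] PadicAlgCl p) (g : Z ⟶ Z),
        g ≫ f = f ≫ spc (σ : PadicAlgCl p →+* PadicAlgCl p) → (∀ k, g ≫ z k = z k) →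
        spc (tw σ C') ≫ s = s ≫ g

/-- The map `ε`, its kernel and its equivariance. -/
def EPS2_s : Prop := ∀ (l : ℕ) [Fact l.Prime] (K Ω ν ρ J κ β : Type) [Field K] [Field Ω]
  [IsAlgClosed Ω] [CharZero Ω] [Fintype ν] [Fintype J] [Fintype κ] [DecidableEq κ] [Fintype β]
  [DecidableEq β] (Γ : SG l) (Ch : Chern l Ω) (τ : K →+* Ω) (o : ν) (d c : ℕ)
  (g : ρ → MvPolynomial (ν × ν) K) (y : NV ν J → MvPolynomial ν K) (u : ν → Ω)
  (ℓ : Fin d → ν → Ω) (W : WD τ g y u ℓ o κ β c) (P S P' : Type) [CommRing P] [CommRing S]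
  [CommRing P'] (ω : Ω →+* P) (e : EV κ → P) (t : P) (f₀ : Fin c → MvPolynomial (XY κ) P)
  (If : Fin c → Ideal P) (Is : β → Ideal P) (π : P →+* S) (π' : P →+* P') (Z₀ Z : Scheme.{0})
  (f : Z₀ ⟶ Spec (.of Ω)) (z₀ : κ → (Z₀ ⟶ P1)) (s₀ : Spec (.of P) ⟶ Z₀) (s : Spec (.of P') ⟶ Z)
  (A : ℕ → Type 1) [∀ i, AddCommGroup (A i)] (rl : ∀ i, A i →+ EE l (Spec (.of S)) i)
  (γ : EE l (Spec (.of S)) (2 * d)) (good : ∀ i, A i → Prop), u o = 1 → JP e →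
    (∀ a, Hg (W.nf a) (f₀ a) ∧ Zer e (f₀ a) (If a)) →
    (∀ b, Zer e (map (ω.comp τ) (W.s b)) (Is b)) →
    (∀ (D : Type) [CommRing D] (ψ : P →+* D) (a : XY κ → D), emat a = ψ ∘ e → ψ t = 1 →
      ∀ k, eval₂ ψ a (f₀ k) = eval₂ ((ψ.comp ω).comp τ) a (W.f k)) →
    Surjective π → RingHom.ker π = ∑ a, If a + ∑ b, Is b → Surjective π' → π' t = 0 →
    (∀ a, If a ≤ RingHom.ker π') → RingHom.ker π' ≤ (Ideal.span {t} + ∑ a, If a).radical →
    ZL f z₀ (noEq κ Ω) → s₀ ≫ f = spc ω → Ad e (fun k => s₀ ≫ z₀ k) →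
    (∀ n, Injective (hpb l (spc (Ideal.Quotient.mk (Ideal.span {t}))) n)) →
    (∀ n, Injective (hpb l (spc (Ideal.Quotient.mk (Ideal.span {t - 1})) ≫ s₀) n)) →
    (∀ n, Bijective (hpb l s n)) → (∀ n, Cof l (HH l Z n)) →
    (∀ i x, ¬ good i x → ∃ (k : ℕ) (h : k + i = 2 * d) (x' : A k) (N : ℕ), N ≠ 0 ∧
      (rl k x').comp (rl i x) h = N • γ) →
    M2 Γ Ch (π.comp ω) (π ∘ e) (π t) (W.w ∘ .inl) W.t' o ℓ γ →
    ∃ ε : ∀ i, A i →+ QZ l →+ HH l Z (i + 2 * Fintype.card β), (∀ i x, ε i x = 0 → good i x) ∧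
      ∀ (ψ : Ω →+* Ω) (Q : ℕ) (g₀ : P →+* P) (g₁ : S →+* S) (g' : P' →+* P') (gZ : Z ⟶ Z)
        (φ : ∀ i, A i → A i), Tw l ψ Q → ψ.comp τ = τ → g₀.comp ω = ω.comp ψ → g₀ ∘ e = e →
        g₁.comp π = π.comp g₀ → g'.comp π' = π'.comp g₀ → spc g' ≫ s = s ≫ gZ →
        (∀ i x, epb l (spc g₁) i (rl i x) = rl i (φ i x)) →
        ∀ i x a, hpb l gZ _ (ε i x a) = Q ^ Fintype.card β • ε i (φ i x) a

end Pool.Agent.MP_855f4c_ag.A

end

section

/-! h14a row SUP: the tubes have the cohomology of the zero loci. -/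

set_option autoImplicit false
set_option backward.isDefEq.respectTransparency false

open CategoryTheory AlgebraicGeometry Function TensorProduct MvPolynomial

namespace Pool.Agent.MP_855f4c_ag.A

open E E3 E4 T T.Su2

namespace Sup

theorem ft_ev {κ D D' : Type} [Fintype κ] [DecidableEq κ] [CommRing D] [CommRing D'] {c : ℕ}
    {e e' : Fin c → κ → ℕ} (c₀ : MI e → D) (c' : MI e' → D) (A B : ℕ) (τ : D) (i : Fin c)
    (ψ : D →+* D') (a : XY κ → D') (h : ψ τ = 0) :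
    eval₂ ψ a (ft c₀ c' A B τ i) = eval₂ ψ a (Bez.fm c' i) ^ A := by
  rw [ft, eval₂_add, eval₂_mul, eval₂_C, h, zero_mul, add_zero, eval₂_pow, Bez.fm]

theorem inj {l : ℕ} [Fact l.Prime] {D D' : Type} [CommRing D] [CommRing D'] {Z : Scheme.{0}}
    (ψ : D →+* D') (x : D) (hx : ψ x = 0) (s : Spec (.of D) ⟶ Z) (n : ℕ)
    (h : Injective (hpb l (spc ψ ≫ s) n)) :
    Injective (hpb l (spc (Ideal.Quotient.mk (Ideal.span {x})) ≫ s) n) := by
  let χ := Ideal.Quotient.lift (Ideal.span {x}) ψ fun y hy =>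
    (Ideal.span_singleton_le_iff_mem (RingHom.ker ψ)).2 hx hy
  have e : spc ψ ≫ s = spc χ ≫ spc (Ideal.Quotient.mk (Ideal.span {x})) ≫ s := by
    rw [← Category.assoc, ZP.spc_spc]
    rfl
  intro y y' hy
  exact h (by rw [e, Pbc.hpb_comp, Pbc.hpb_comp (spc χ), hy])

theorem main {p : ℕ} (l : ℕ) [Fact l.Prime] (O V Ω : Type) [CommRing O] [CommRing V] [SHL V]
    [CommRing Ω] [Algebra O V] [Algebra V Ω] [Algebra O Ω] [IsScalarTower O V Ω]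
    [Algebra.IsIntegral O V] [IsLocalization.Away (algebraMap O V p) Ω] {κ : Type} [Fintype κ]
    [DecidableEq κ] {c : ℕ} {e e' : Fin c → κ → ℕ} {c₀ : MI e → O} {c' : MI e' → O} {B C₀ : Type}
    [CommRing B] [CommRing C₀] [Algebra (JT κ O) B] [Algebra O B] [IsScalarTower O (JT κ O) B]
    [Algebra B C₀] [Algebra O C₀] [IsScalarTower O B C₀] {Z₀ Z : Scheme.{0}}
    {f₀ : Z₀ ⟶ Spec (.of Ω)} {f : Z ⟶ Spec (.of Ω)} {z₀ : κ → (Z₀ ⟶ P1)} {z : κ → (Z ⟶ P1)}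
    {e₀ : EV κ → C₀} {τ : C₀} {A A' : ℕ} {If : Fin c → Ideal C₀}
    (h1 : ¬ IsUnit (algebraMap O V p)) (h2 : IsUnit (l : V)) (hD : Dat p (JT κ O) B C₀)
    (hz₀ : ZL f₀ z₀ (noEq κ Ω)) (hz : ZL f z (algebraMap O Ω ∘ c'))
    (he : e₀ = algebraMap B C₀ ∘ algebraMap (JT κ O) B ∘ C ∘ je (noEq κ O))
    (hτ : τ = algebraMap B C₀ (algebraMap (JT κ O) B (X ()))) (hA : 0 < A)
    (hIf : ∀ a, Zer e₀ (ft (algebraMap O C₀ ∘ c₀) (algebraMap O C₀ ∘ c') A A' τ a) (If a)) :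
    ∃ (C' : Type) (_ : CommRing C') (_ : Algebra O C') (_ : Algebra C₀ C')
      (_ : IsScalarTower O C₀ C') (s₀ : Spec (.of (Ω ⊗[O] C₀)) ⟶ Z₀)
      (s : Spec (.of (Ω ⊗[O] C')) ⟶ Z), Surjective (bc O Ω C₀ C') ∧
      bc O Ω C₀ C' (iR O _ C₀ τ) = 0 ∧
      (∀ a, (If a).map (iR O Ω C₀) ≤ RingHom.ker (bc O Ω C₀ C')) ∧
      RingHom.ker (bc O Ω C₀ C') ≤
        (Ideal.span {iR O _ C₀ τ} + ∑ a, (If a).map (iR O Ω C₀)).radical ∧
      s₀ ≫ f₀ = spc (iL O Ω C₀) ∧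
      Ad (iR O Ω C₀ ∘ e₀) (fun k => s₀ ≫ z₀ k) ∧
      (∀ n, Injective (hpb l (spc (Ideal.Quotient.mk (Ideal.span {iR O Ω C₀ τ}))) n)) ∧
      (∀ n, Injective
        (hpb l (spc (Ideal.Quotient.mk (Ideal.span {iR O Ω C₀ τ - 1})) ≫ s₀) n)) ∧
      (∀ n, Bijective (hpb l s n)) ∧
      ∀ (σ : Ω ≃ₐ[O] Ω) (g : Z ⟶ Z),
        g ≫ f = f ≫ spc (σ : Ω →+* Ω) → (∀ k, g ≫ z k = z k) →
        spc (tw σ C') ≫ s = s ≫ g := by
  obtain ⟨φ, hφ⟩ : ∃ φ : JT κ O →+* C₀, φ = (algebraMap B C₀).comp (algebraMap _ B) := ⟨_, rfl⟩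
  obtain rfl : e₀ = φ ∘ C ∘ je (noEq κ O) := by rw [he, hφ]; rfl
  obtain rfl : τ = φ (X ()) := by rw [hτ, hφ]; rfl
  have hj : JP (φ ∘ C ∘ je (noEq κ O)) := Twt.jp_map _ (Twt.jp_map C (Bez.jp_je _))
  rw [show noEq κ Ω = algebraMap O Ω ∘ noEq κ O from funext fun i => i.1.elim0] at hz₀
  let β : JB (noEq κ O) →ₐ[O] C₀ := ⟨φ.comp C, fun x => by
    rw [hφ, IsScalarTower.algebraMap_apply O B C₀, IsScalarTower.algebraMap_apply O (JT κ O) B]
    rfl⟩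
  obtain ⟨s₀, s1, s2, s3, -⟩ := su0 l O V Ω p _ (JT κ O) B C₀ β (fun x => RingHom.congr_fun hφ _)
    (aff_mv _ _) hD h1 h2 hz₀
  have sl : ∀ a : O, ∃ (D : Type) (_ : CommRing D) (ψ : Ω ⊗[O] C₀ →+* D),
      ψ (iR O _ C₀ (φ (X ()) - algebraMap O C₀ a)) = 0 ∧ ∀ n, Bijective (hpb l (spc ψ ≫ s₀) n) :=
    fun a => by
      obtain ⟨C', _, _, _, _, -, q1, -, -, q2⟩ := slice l V Ω h1 h2 hD φ hφ (noEq κ O) a
      obtain ⟨s, t1, t2, t3, -⟩ := q2 hz₀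
      refine ⟨_, _, bc O Ω C₀ C', ?_, fun n => ?_⟩
      · change (1 : Ω) ⊗ₜ[O] algebraMap C₀ C' _ = 0
        rw [map_sub, q1, ← IsScalarTower.algebraMap_apply, sub_self, tmul_zero]
      · rw [uniq hz₀ (s := spc (bc O _ C₀ C') ≫ s₀) (Twt.jp_map _ (Twt.jp_map _ hj)) (by
          rw [Category.assoc, s1, t1, ZP.spc_spc]
          exact congrArg spc (RingHom.ext fun x => congrArg (x ⊗ₜ[O] ·) (map_one (algebraMap C₀ C'))))
          (by simp only [Category.assoc]; exact Su.ad_map s2 (bc O _ C₀ C')) t2]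
        exact t3 n
  obtain ⟨C', _, _, _, _, q0, q1, q2, q3, q4⟩ := slice l V Ω h1 h2 hD φ hφ c' 0
  obtain ⟨s, -, -, t3, t4⟩ := q4 hz
  rw [map_zero] at q1
  have zr := fun i => Bez.zer (algebraMap O C₀ ∘ c') i hj
  have hk : RingHom.ker (bc O Ω C₀ C') =
      (RingHom.ker (algebraMap C₀ C')).map (iR O Ω C₀) :=
    Algebra.TensorProduct.lTensor_ker (IsScalarTower.toAlgHom O C₀ C') q0
  refine ⟨C', _, _, _, inferInstance, s₀, s,
    Algebra.TensorProduct.map_surjective _ _ surjective_id q0, ?_, fun i => ?_, ?_, s1, s2,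
    fun n => ?_, fun n => ?_, t3, t4⟩
  · change (1 : Ω) ⊗ₜ[O] algebraMap C₀ C' _ = 0
    rw [q1, tmul_zero]
  · refine hk ▸ Ideal.map_mono (zer_ker hj (hIf i) _ fun L _ χ a ha => ?_)
    rw [ft_ev _ _ _ _ _ _ _ _ (by rw [RingHom.comp_apply, q1, map_zero]),
      Ideal.span_singleton_eq_bot.1 ((zr i L _ a ha).symm.trans (by
        rw [← Ideal.map_map, (Ideal.map_eq_bot_iff_le_ker _).2 (q2 i), Ideal.map_bot])),
      zero_pow hA.ne']
  · rw [hk, Ideal.map_le_iff_le_comap, Ideal.radical_eq_sInf]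
    refine fun x hx => Ideal.mem_sInf.2 fun {P} ⟨hP, _⟩ => ?_
    let ψ := (algebraMap _ P.ResidueField).comp (iR O Ω C₀)
    have k : ∀ y, ψ y = 0 ↔ iR O Ω C₀ y ∈ P := fun y =>
      Ideal.algebraMap_residueField_eq_zero
    have k0 : ψ (φ (X ())) = 0 :=
      (k _).2 (hP (Ideal.mem_sup_left (Ideal.mem_span_singleton_self _)))
    obtain ⟨a, ha⟩ := triv (Twt.jp_map ψ hj)
    refine (k x).1 ((sup_le ?_ (iSup_le fun i => ?_) : _ ≤ RingHom.ker ψ) (q3 hx))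
    · rw [Ideal.span_singleton_le_iff_mem, map_zero, sub_zero]
      exact k0
    · have k1 : (If i).map ψ = ⊥ := (Ideal.map_eq_bot_iff_le_ker _).2 fun y hy =>
        (k y).2 (hP (Ideal.mem_sup_right (Finset.single_le_sum
          (f := fun a => (If a).map (iR O Ω C₀)) (fun _ _ => bot_le)
          (Finset.mem_univ i) (Ideal.mem_map_of_mem _ hy))))
      rw [hIf i _ ψ a ha, Ideal.span_singleton_eq_bot, ft_ev _ _ _ _ _ _ _ _ k0] at k1
      rw [← Ideal.map_eq_bot_iff_le_ker, zr i _ ψ a ha, Ideal.span_singleton_eq_bot]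
      exact pow_eq_zero_iff hA.ne' |>.1 k1
  · obtain ⟨D, _, ψ, a1, a2⟩ := sl 0
    rw [map_zero, sub_zero] at a1
    have a3 : Injective (hpb l (spc ψ ≫ 𝟙 _) n) := by
      have : hpb l (spc ψ ≫ 𝟙 _) n ∘ hpb l s₀ n = hpb l (spc ψ ≫ s₀) n :=
        funext fun x => by rw [Category.comp_id, Pbc.hpb_comp]; rfl
      exact ((Bijective.of_comp_iff _ (s3 n)).1 (this ▸ a2 n)).1
    simpa only [Category.comp_id] using inj ψ _ a1 (𝟙 _) n a3
  · obtain ⟨D, _, ψ, a1, a2⟩ := sl 1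
    rw [map_one, map_sub, map_one] at a1
    exact inj ψ _ a1 s₀ n (a2 n).1

end Sup

theorem supA : SUP_s := by
  intro p l _ _ O κ _ _ c e e' c₀ c' B C₀ _ _ _ _ _ _ _ _ hloc Z₀ Z f₀ f z₀ z e₀ τ A A' If hlp h1 h2
    b1 b2 b3 hz₀ hz he hτ hA hIf
  exact (padic p l O hlp h1 h2).elim fun V ⟨_, _, _, _, _, _, _, a1, a2⟩ =>
    Sup.main l O V _ a1 a2 ⟨b1, b2, hp.1 _ _ b3, hloc⟩ hz₀ hz he hτ hA hIf

end Pool.Agent.MP_855f4c_ag.A

end

section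

/-! h14a: the part `τ = 1` of the transfer. -/

set_option autoImplicit false
set_option backward.isDefEq.respectTransparency false

open CategoryTheory Limits Abelian Opposite AlgebraicGeometry Function MvPolynomial

namespace Pool.Agent.MP_855f4c_ag.A

open E E3 E4 T

namespace M2p

section
variable {D D' : Type} [CommRing D] [CommRing D']

lemma mem_opI {I : Ideal D} {x : Spec (.of D)} : x ∈ opI I ↔ ¬ I ≤ x.asIdeal := Iff.rfl

lemma pt (x : Spec (.of D)) :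
    ∃ (L : Type) (_ : Field L) (ψ : D →+* L), RingHom.ker ψ = x.asIdeal :=
  ⟨x.asIdeal.ResidueField, _, algebraMap _ _, Ideal.ker_algebraMap_residueField _⟩

lemma mem_pre (ψ : D →+* D') {I : Ideal D} {x : Spec (.of D')} {L : Type} [Field L]
    {φ : D' →+* L} (h : RingHom.ker φ = x.asIdeal) :
    x ∈ spc ψ ⁻¹ᵁ opI I ↔ I.map (φ.comp ψ) ≠ ⊥ := by
  rw [Ne, Ideal.map_eq_bot_iff_le_ker, ← RingHom.comap_ker, h]
  rfl

lemma triv {κ : Type} [Fintype κ] [DecidableEq κ] [IsLocalRing D] {m : EV κ → D} (hJ : JP m) :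
    ∃ a : XY κ → D, emat a = m ∧ Rel a := by
  have h (k : κ) : ∃ i, IsUnit (m (k, i, i)) :=
    (IsLocalRing.isUnit_or_isUnit_of_add_one (hJ k).1).elim (⟨0, ·⟩) (⟨1, ·⟩)
  choose σ hσ using h
  obtain ⟨a, ha⟩ := Ja.p3 _ σ hJ hσ
  exact ⟨a, ha, Ja.rel_of_jp (ha ▸ hJ)⟩

lemma val_uniq {κ A : Type} [Fintype κ] [DecidableEq κ] [CommRing A] {e : EV κ → D} (he : JP e)
    {χ : A →+* D} {P : MvPolynomial (XY κ) A} {z z' : D} (h : Val e χ P z) (h' : Val e χ P z') :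
    z = z' :=
  Module.eq_of_localization_maximal _ (fun _ _ => Algebra.linearMap D _) z z' fun m _ => by
    obtain ⟨a, ha, -⟩ := triv (Ja.jp_map (algebraMap D (Localization.AtPrime m)) he)
    exact (h _ _ a ha).trans (h' _ _ a ha).symm

lemma zo {κ β Ω : Type} [CommRing Ω] {ω : Ω →+* D} {e : EV κ → D}
    {t : β → MvPolynomial (XY κ) Ω} {U : (Spec (.of D)).Opens} (h : Zo ω e t U)
    {x : Spec (.of D)} {L : Type} [Field L] {φ : D →+* L} (hφ : RingHom.ker φ = x.asIdeal)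
    {a : XY κ → L} (ha : emat a = φ ∘ e) : x ∈ U ↔ ∃ b, eval₂ (φ.comp ω) a (t b) ≠ 0 := by
  have k : ∀ y, spc φ y = x := fun y => PrimeSpectrum.ext (by
    change y.asIdeal.comap φ = x.asIdeal
    rw [Ideal.eq_bot_of_prime y.asIdeal, ← hφ]
    rfl)
  rw [← h L _ a ha]
  exact ⟨fun h y => (k y).symm ▸ h, fun h => by
    have := h ⟨⊥, Ideal.isPrime_bot⟩
    rwa [k] at this⟩

lemma zo_map {κ β Ω : Type} [CommRing Ω] {ω : Ω →+* D} {e : EV κ → D}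
    {t : β → MvPolynomial (XY κ) Ω} {U : (Spec (.of D)).Opens} (h : Zo ω e t U) (ψ : D →+* D') :
    Zo (ψ.comp ω) (ψ ∘ e) t (spc ψ ⁻¹ᵁ U) := fun L _ φ a ha => by
  refine Iff.trans (forall_congr' fun x => ?_) (h L (φ.comp ψ) a ha)
  rfl

variable {ν J : Type}

lemma IY_map (φ : D →+* D') (e : ν × ν → D) (u : ν → D) :
    (IY e u).map φ = IY (φ ∘ e) (φ ∘ u) := by
  rw [IY, IY, Ideal.map_span, ← Set.range_comp]
  congr 2
  funext v
  simp

lemma IY_bot [Fintype ν] {q lam u : ν → D} (h : Cov q lam) :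
    IY (fun v => q v.1 * lam v.2) u = ⊥ ↔ ∀ i k, q i * u k = q k * u i := by
  rw [IY, Ideal.span_eq_bot]
  refine ⟨fun H i k => ?_, ?_⟩
  · have h1 : ∀ j, q i * lam j * u k - q k * lam j * u i = 0 := fun j => H _ ⟨(i, j, k), rfl⟩
    have h2 : ∑ j, lam j * q j = 1 := h
    rw [← sub_eq_zero, ← mul_one (_ - _), ← h2, Finset.mul_sum]
    exact Finset.sum_eq_zero fun j _ => by linear_combination q j * h1 j
  · rintro H _ ⟨v, rfl⟩
    linear_combination lam v.2.1 * H v.1 v.2.2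

/-- The rows `H` are the multiples `c` of the row `j`. -/
def NW (c : ν → D) (j : J) (w : EW ν J → D) : Ideal D :=
  Ideal.span (Set.range fun v : ν × NV ν J =>
    w (.inr (.inr v.1, v.2)) - c v.1 * w (.inr (.inl j, v.2)))

lemma NW_map (φ : D →+* D') (c : ν → D) (j : J) (w : EW ν J → D) :
    (NW c j w).map φ = NW (φ ∘ c) j (φ ∘ w) := by
  rw [NW, NW, Ideal.map_span, ← Set.range_comp]
  congr 2
  funext v
  simp

lemma IH_le {c : ν → D} {j : J} {w : EW ν J → D} {x : Ideal D} (hc : ∀ i, c i ∈ x)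
    (h : NW c j w ≤ x) : IH w ≤ x := by
  rw [IH, Ideal.span_le]
  rintro _ ⟨v, rfl⟩
  have := x.add_mem (h (Ideal.subset_span ⟨v, rfl⟩))
    (x.mul_mem_right (w (.inr (.inl j, v.2))) (hc v.1))
  rwa [sub_add_cancel] at this

lemma TT_mem [Fintype ν] (w : EW ν J → D) (M : ℕ) : TT w ^ M - 1 ∈ IH w := by
  have h : TT w - 1 ∈ IH w := by
    rw [TT, sub_sub_cancel_left]
    exact neg_mem (Ideal.sum_mem _ fun i _ => Ideal.subset_span ⟨(i, .inr i), rfl⟩)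
  simpa using Ideal.mem_of_dvd _ (sub_dvd_pow_sub_pow (TT w) 1 M) h

lemma TT_map [Fintype ν] (φ : D →+* D') (w : EW ν J → D) : φ (TT w) = TT (φ ∘ w) := by
  simp [TT]

end

section
variable {K Ω V ν ρ J φ : Type} [Field K] [Field Ω] [CommRing V] [Fintype ν] [Fintype J]
  {τ : K →+* Ω} {o : ν} {d r : ℕ} {g : ρ → MvPolynomial (ν × ν) K} {G : J → MvPolynomial ν K}
  {F : φ → MvPolynomial {k // k ≠ o} K} {c₀ : K} {u : ν → Ω} {j₀ : J}

omit [Fintype J] in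
lemma yv_hom (hX : XA o d r g G F) (a : NV ν J) : (yv G r c₀ a).IsHomogeneous r := by
  rcases a with a | a
  · exact (hX.hom a).C_mul _
  · simpa [yv] using (isHomogeneous_X K a).pow r

lemma rows (hY : YC_s) (hX : XA o d r g G F) (hu : u o = 1)
    (h0 : eval₂ τ u (yv G r c₀ (.inl j₀)) ≠ 0) {L : Type} [Field L] (ω : Ω →+* L)
    {w : EW ν J → L} (hw : JQ (ω.comp τ) g (yv G r c₀) w) (hI : IY (w ∘ .inl) (ω ∘ u) = ⊥)
    (b k : NV ν J) {c : Ω} (hc : eval₂ τ u (yv G r c₀ b) = c * eval₂ τ u (yv G r c₀ (.inl j₀))) :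
    w (.inr (b, k)) = ω c * w (.inr (.inl j₀, k)) :=
  hY K Ω L ν ρ J τ ω g _ r u w _ b c (yv_hom hX) (fun h => by simp [h] at hu)
    (hX.rk L _ _ hw.1) hw hI h0 hc k

lemma NW_bot (hY : YC_s) (hX : XA o d r g G F) (hu : u o = 1)
    (h0 : eval₂ τ u (yv G r c₀ (.inl j₀)) ≠ 0) {c : ν → Ω}
    (hc : ∀ i, eval₂ τ u (yv G r c₀ (.inr i)) = c i * eval₂ τ u (yv G r c₀ (.inl j₀)))
    {L : Type} [Field L] (ω : Ω →+* L) {w : EW ν J → L} (hw : JQ (ω.comp τ) g (yv G r c₀) w)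
    (hI : IY (w ∘ .inl) (ω ∘ u) = ⊥) : NW (ω ∘ c) j₀ w = ⊥ := by
  rw [NW, Ideal.span_eq_bot]
  rintro _ ⟨v, rfl⟩
  exact sub_eq_zero.2 (rows hY hX hu h0 ω hw hI _ _ (hc _))

lemma jqJ (y : NV ν J → MvPolynomial ν K) {L : Type} [CommRing L] (ψ : JW τ g y →+* L) :
    JQ ((ψ.comp (algebraMap Ω _)).comp τ) g y (ψ ∘ wJ τ g y) :=
  (jq_iff _ g y _).1 fun t => by
    have h : Ideal.Quotient.mk _ (map τ (jq g y t)) = (0 : JW τ g y) :=
      Ideal.Quotient.eq_zero_iff_mem.2 (Ideal.subset_span ⟨t, rfl⟩)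
    rw [← eval₂_map, ← eval₂_comp_left, ← map_zero ψ, ← h]
    congr 1
    generalize map τ (jq g y t) = Q
    induction Q using MvPolynomial.induction_on with
    | C a => rw [eval₂_C]; rfl
    | add P Q h1 h2 => rw [eval₂_add, map_add, h1, h2]
    | mul_X P i h1 => rw [eval₂_mul, eval₂_X, map_mul, h1]; rfl

/-- The complement of the fibre over `u`. -/
noncomputable abbrev VY (τ : K →+* Ω) (g : ρ → MvPolynomial (ν × ν) K)
    (y : NV ν J → MvPolynomial ν K) (u : ν → Ω) : (Spec (.of (JW τ g y))).Opens :=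
  opI (IY (wJ τ g y ∘ .inl) (algebraMap Ω _ ∘ u))

lemma cover (hY : YC_s) (hX : XA o d r g G F) (hu : u o = 1)
    (h0 : eval₂ τ u (yv G r c₀ (.inl j₀)) ≠ 0) :
    VY τ g (yv G r c₀) u ⊔ opI (IG (wJ τ g (yv G r c₀))) = ⊤ := by
  refine top_le_iff.1 fun x _ => ?_
  by_contra hx
  obtain ⟨h1, h2⟩ := not_or.1 (show ¬ (_ ∨ _) from hx)
  obtain ⟨L, _, ψ, hψ⟩ := pt x
  have hw := jqJ (yv G r c₀) ψ
  have hI : IY ((ψ ∘ wJ τ g (yv G r c₀)) ∘ .inl) (ψ.comp (algebraMap Ω _) ∘ u) = ⊥ :=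
    (IY_map ψ _ _).symm.trans ((Ideal.map_eq_bot_iff_le_ker _).2 (hψ ▸ not_not.1 h1))
  have h3 : ∀ k, ψ (wJ τ g (yv G r c₀) (.inr (.inl j₀, k))) = 0 := fun k =>
    hψ.ge ((not_not.1 (mt mem_opI.2 h2)) (Ideal.subset_span ⟨(j₀, k), rfl⟩))
  refine one_ne_zero (hw.2.1.1.symm.trans (Finset.sum_eq_zero fun a _ => ?_))
  exact (rows hY hX hu h0 _ hw hI a a (div_mul_cancel₀ _ h0).symm).trans
    (mul_eq_zero_of_right _ (h3 a))

variable {l : ℕ} [Fact l.Prime]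

lemma ks_bij (hK : KL_s) (hO : OEX_s) {T : Scheme.{0}} {U O : T.Opens} (h : U ⊔ O = ⊤) (n : ℕ) :
    Bijective (ks l U O n) := by
  obtain ⟨b1, b2⟩ := hO l _ T O.ι _ ⊤ U O n (by rwa [Scheme.Opens.opensRange_ι]) rfl
  have e : ks l _ ⊤ n ∘ kpb l O.ι (O.ι ⁻¹ᵁ U) ⊤ U O n = spb l O.ι _ U n ∘ ks l U O n :=
    funext (((hK l).2.1 _ _ O.ι _ ⊤ U O n le_rfl).2.1 le_top)
  rw [← b1.of_comp_iff', ← e]
  exact ((hK l).1 _ _ ⊤ n).2.2.1.comp (b2 (Scheme.Opens.ι_preimage_self O).symm)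

/-- The class on the double model. -/
theorem cls (hK : KL_s) (hO : OEX_s) (hJ : LOCJ_s) (hC : LOCC_s) (hY : YC_s) (Γ : SG l)
    (Ch : Chern l Ω) {ℓ : Fin d → ν → Ω} (hX : XA o d r g G F) (hu : u o = 1) (hI : Iso τ F u ℓ)
    (h0 : eval₂ τ u (yv G r c₀ (.inl j₀)) ≠ 0) :
    ∃ w : KK l _ (VY τ g (yv G r c₀) u) (opI (IG (wJ τ g (yv G r c₀)))) (2 * d),
      LocC Γ Ch (algebraMap Ω _) (wJ τ g (yv G r c₀) ∘ .inl) o ℓ _ (ks l _ _ _ w) := by
  obtain ⟨θ, h1, t, h2, h3⟩ := hJ K Ω ν ρ J φ o d r τ g G F (yv G r c₀) u ℓ hX hu hI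
  obtain ⟨w, hw⟩ := (hC l Ω ν _ Γ Ch (algebraMap Ω _) (wJ τ g (yv G r c₀) ∘ .inl) o d ℓ
    (VY τ g (yv G r c₀) u)).1 θ t (top_le_iff.1 fun x _ => by
      by_contra hx
      obtain ⟨a, b⟩ := not_or.1 (show ¬ (_ ∨ _) from hx)
      exact x.isPrime.ne_top (top_le_iff.1 (h1.ge.trans (sup_le (not_not.1 a) (not_not.1 b))))) h2
    fun x hx h => hx (Ideal.map_le_iff_le_comap.1 (h3.trans (x.isPrime.radical_le_iff.2 h)))
  obtain ⟨w, rfl⟩ := (ks_bij hK hO (cover hY hX hu h0) _).2 w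
  exact ⟨w, hw⟩

variable [Algebra V Ω] {p : ℕ} {c : ν → V}

omit [Fintype ν] [Fintype J] in
lemma cen {P : Type} [CommRing P] (β : V →+* P) (hc : ∀ i, c i ∈ (Ideal.span {(p : V)}).radical)
    {x : Spec (.of P)} (hx : x ∉ opI (Ideal.span {(p : P)})) (i : ν) : β (c i) ∈ x.asIdeal := by
  have h := Ideal.map_radical_le β (Ideal.mem_map_of_mem β (hc i))
  rw [Ideal.map_span, Set.image_singleton, map_natCast] at h
  exact x.isPrime.radical_le_iff.2 (not_not.1 (mt mem_opI.2 hx)) h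

/-- The closure of the fibre over `u` meets the special fibre of the tube in the centre. -/
theorem wT (hY : YC_s) (hX : XA o d r g G F) (hu : u o = 1)
    (h0 : eval₂ τ u (yv G r c₀ (.inl j₀)) ≠ 0) (hc : ∀ i, c i ∈ (Ideal.span {(p : V)}).radical)
    (hc' : ∀ i, eval₂ τ u (yv G r c₀ (.inr i)) =
      algebraMap V Ω (c i) * eval₂ τ u (yv G r c₀ (.inl j₀))) :
    ∃ W : (Spec (.of (BW τ g (yv G r c₀) (algebraMap V Ω)))).Opens,
      spc (BW τ g (yv G r c₀) (algebraMap V Ω)).subtype ⁻¹ᵁ W ≤ VY τ g (yv G r c₀) u ∧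
      opI (IH (wB τ g (yv G r c₀) (algebraMap V Ω))) ≤ W ⊔ opI (Ideal.span {(p : BW τ g _ _)}) := by
  refine ⟨opI (NW (bB τ g _ _ ∘ c) j₀ (wB τ g _ _)), fun x hx h => ?_, fun x hx => ?_⟩
  · obtain ⟨L, _, ψ, hψ⟩ := pt x
    refine (mem_pre _ hψ).1 hx ((NW_map _ _ _ _).trans ?_)
    have e : ψ.comp (BW τ g (yv G r c₀) (algebraMap V Ω)).subtype ∘ bB τ g _ _ ∘ c =
        ψ.comp (algebraMap Ω _) ∘ algebraMap V Ω ∘ c :=
      funext fun i => congrArg ψ (congrArg (Ideal.Quotient.mk _) (map_C _ _))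
    have e' : ψ.comp (BW τ g (yv G r c₀) (algebraMap V Ω)).subtype ∘ wB τ g _ _ =
        ψ ∘ wJ τ g (yv G r c₀) :=
      funext fun i => congrArg ψ (congrArg (Ideal.Quotient.mk _) (map_X _ _))
    rw [e, e']
    exact NW_bot hY hX hu h0 hc' _ (jqJ _ ψ)
      ((IY_map ψ _ _).symm.trans ((Ideal.map_eq_bot_iff_le_ker _).2 (hψ ▸ h)))
  · by_contra h
    obtain ⟨a, b⟩ := not_or.1 (show ¬ (_ ∨ _) from h)
    exact hx (IH_le (cen _ hc b) (not_not.1 (mt mem_opI.2 a)))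

omit [Algebra V Ω] in
/-- The rows `H` have no common zero on the generic fibre. -/
theorem IH_top (hX : XA o d r g G F) : opI (IH (wJ τ g (yv G r c₀))) = ⊤ := by
  refine top_le_iff.1 fun x _ h => ?_
  obtain ⟨L, _, ψ, hψ⟩ := pt x
  obtain ⟨h1, h2, h3⟩ := jqJ (yv G r c₀) ψ
  obtain ⟨a, -, ha⟩ := Finset.exists_ne_zero_of_sum_ne_zero (h2.1.trans_ne one_ne_zero)
  obtain ⟨i, -, hi⟩ :=
    Finset.exists_ne_zero_of_sum_ne_zero ((hX.rk L _ _ h1).1.trans_ne one_ne_zero)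
  have h4 : ψ (wJ τ g (yv G r c₀) (.inr (.inr i, a))) = 0 :=
    hψ.ge (h (Ideal.subset_span ⟨(i, a), rfl⟩))
  have h5 := h3 a a (.inr i) i
  rw [comp_apply (f := ψ) (x := Sum.inr (Sum.inr i, a)), h4, zero_mul] at h5
  refine mul_ne_zero ha ?_ h5
  simpa [yv, cw] using fun h => absurd h hi

variable {κ β : Type} [Fintype κ] [DecidableEq κ] [Fintype β] [DecidableEq β] {m : ℕ}
  {ℓ : Fin d → ν → Ω} (W : WD τ g (yv G r c₀) u ℓ o κ β m) {C P R : Type} [CommRing C]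
  [CommRing P] [CommRing R] {ω : Ω →+* C} {e : EV κ → C} {z : EW ν J → C} {ε : C}
  {U : (Spec (.of C)).Opens}

lemma val_int {L : Type} [CommRing L] (hz : ∀ v, Val e (Int.castRingHom C) (W.w v) (z v))
    (ψ : C →+* L) {a : XY κ → L} (ha : emat a = ψ ∘ e) :
    ψ ∘ z = fun v => aeval a (wp W.q W.lam W.q' W.lam' v) := funext fun v =>
  (hz v L ψ a ha).trans (congrArg (eval₂ · a _) (Subsingleton.elim _ _))

lemma IY_iff {L : Type} [CommRing L] {a : XY κ → L} (ha : Rel a) (v : ν → L) :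
    IY ((fun v => aeval a (wp W.q W.lam W.q' W.lam' v)) ∘ .inl) v = ⊥ ↔
      ∀ i k, aeval a (W.q i) * v k = aeval a (W.q k) * v i := by
  rw [← IY_bot (W.cov L a ha).1]
  refine Eq.congr_left (congrArg (IY · v) (funext fun v => map_mul _ _ _))

/-- The closure of the zeros of `t'` meets the special fibre in the centre. -/
theorem wS (hY : YC_s) (hX : XA o d r g G F) (hu : u o = 1)
    (h0 : eval₂ τ u (yv G r c₀ (.inl j₀)) ≠ 0) (hc : ∀ i, c i ∈ (Ideal.span {(p : V)}).radical)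
    (hc' : ∀ i, eval₂ τ u (yv G r c₀ (.inr i)) =
      algebraMap V Ω (c i) * eval₂ τ u (yv G r c₀ (.inl j₀))) (he : JP e)
    (hz : ∀ v, Val e (Int.castRingHom C) (W.w v) (z v)) (hε : Val e (ω.comp τ) W.eps ε)
    (ι : P →+* C) (b : V →+* P) (hb : ι.comp b = ω.comp (algebraMap V Ω)) {wP : EW ν J → P}
    {eps : P} (hw : ι ∘ wP = z) (hp : ι eps = ε) (hU : Zo ω e W.t' U) :
    ∃ W : (Spec (.of P)).Opens, spc ι ⁻¹ᵁ W ≤ U ∧
      opI (Ideal.span {(p : P), eps - 1} ⊔ IH wP) ≤ W ⊔ opI (Ideal.span {(p : P)}) := by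
  refine ⟨opI (Ideal.span {eps - TT wP ^ W.M} ⊔ NW (b ∘ c) j₀ wP), fun x hx => ?_, fun x hx => ?_⟩
  · obtain ⟨L, _, ψ, hψ⟩ := pt x
    obtain ⟨a, ha, hr⟩ := triv (Ja.jp_map ψ he)
    by_contra h
    have h1 := mt (zo hU hψ ha).2 h
    push Not at h1
    obtain ⟨h2, -, h3, h4⟩ := W.h3 L _ a hr h1
    have e1 : ψ.comp ι ∘ wP = _ := (congrArg (ψ ∘ ·) hw).trans (val_int W hz ψ ha)
    have e2 : ψ.comp ι ∘ b ∘ c = ψ.comp ω ∘ algebraMap V Ω ∘ c :=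
      funext fun i => congrArg ψ (RingHom.congr_fun hb (c i))
    refine (mem_pre _ hψ).1 hx ?_
    rw [Ideal.map_sup, NW_map, e1, e2, NW_bot (c := algebraMap V Ω ∘ c) hY hX hu h0 hc' _ h3
      ((IY_iff W hr _).2 h2), Ideal.map_span, Set.image_singleton, map_sub, map_pow, TT_map, e1, ← h4, RingHom.comp_apply,
      hp, hε L ψ a ha, sup_bot_eq, Ideal.span_singleton_eq_bot]
    exact sub_self _
  · by_contra h
    obtain ⟨a, b'⟩ := not_or.1 (show ¬ (_ ∨ _) from h)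
    have a0 := not_not.1 (mt mem_opI.2 a)
    obtain ⟨a1, a2⟩ := sup_le_iff.1 a0
    have h1 := IH_le (cen b hc b') a2
    refine hx (sup_le (Ideal.span_le.2 (Set.pair_subset ?_ ?_)) h1)
    · exact not_not.1 (mt mem_opI.2 b') (Ideal.mem_span_singleton_self _)
    · have := x.asIdeal.add_mem (a1 (Ideal.mem_span_singleton_self _)) (h1 (TT_mem wP W.M))
      rwa [sub_add_sub_cancel] at this

omit [Algebra V Ω] in
/-- Where `ε` is a unit, the zeros of `t'` are the points over `u`. -/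
theorem opens (he : JP e) (hz : ∀ v, Val e (Int.castRingHom C) (W.w v) (z v))
    (hε : Val e (ω.comp τ) W.eps ε)
    (hf : ∀ (L : Type) [Field L] (ψ : C →+* L) (a : XY κ → L), emat a = ψ ∘ e →
      (∀ k, eval₂ ((ψ.comp ω).comp τ) a (W.f k) = 0) ∧
        ∀ t, eval₂ ((ψ.comp ω).comp τ) a (W.s t) = 0)
    (e0 : C →+* R) (hu : IsUnit (e0 ε)) (r0 : JW τ g (yv G r c₀) →+* R)
    (h1 : r0.comp (algebraMap Ω _) = e0.comp ω) (h2 : r0 ∘ wJ τ g (yv G r c₀) = e0 ∘ z)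
    (hU : Zo ω e W.t' U) : spc r0 ⁻¹ᵁ VY τ g (yv G r c₀) u = spc e0 ⁻¹ᵁ U := by
  ext x
  obtain ⟨L, _, ψ, hψ⟩ := pt x
  obtain ⟨a, ha, hr⟩ := triv (Ja.jp_map (ψ.comp e0) he)
  have e1 : ψ.comp r0 ∘ wJ τ g (yv G r c₀) ∘ .inl = _ ∘ Sum.inl :=
    congrArg (· ∘ Sum.inl) ((congrArg (ψ ∘ ·) h2).trans (val_int W hz (ψ.comp e0) ha))
  have e2 : ψ.comp r0 ∘ algebraMap Ω _ ∘ u = (ψ.comp e0).comp ω ∘ u :=
    funext fun i => congrArg ψ (RingHom.congr_fun h1 (u i))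
  refine (mem_pre r0 hψ).trans (Iff.trans ?_ (zo (zo_map hU e0) hψ ha).symm)
  rw [IY_map, e1, e2, Ne, IY_iff W hr, not_iff_comm]
  push Not
  refine ⟨fun h => (W.h3 L _ a hr h).1, W.h2 L _ a hr (hf L _ a ha).1 (hf L _ a ha).2 ?_⟩
  exact (hε L _ a ha).symm.trans_ne (hu.map ψ).ne_zero

omit [Algebra V Ω] in
/-- The two classes agree on the tube. -/
theorem agree (hC : LOCC_s) {Γ : SG l} {Ch : Chern l Ω} {U₀ : (Spec (.of (JW τ g (yv G r c₀)))).Opens}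
    (e0 : C →+* R) (r0 : JW τ g (yv G r c₀) →+* R) (h1 : r0.comp (algebraMap Ω _) = e0.comp ω)
    (h2 : r0 ∘ wJ τ g (yv G r c₀) = e0 ∘ z) (h : spc r0 ⁻¹ᵁ U₀ = spc e0 ⁻¹ᵁ U) {x₀ : SS l _ U₀ (2 * d)}
    (hx₀ : LocC Γ Ch (algebraMap Ω _) (wJ τ g (yv G r c₀) ∘ .inl) o ℓ U₀ x₀) {x : SS l _ U (2 * d)}
    (hx : LocC Γ Ch ω (z ∘ .inl) o ℓ U x) :
    spb l (spc r0) (spc e0 ⁻¹ᵁ U) U₀ _ x₀ = spb l (spc e0) (spc e0 ⁻¹ᵁ U) U _ x := by
  have a := ((hC l Ω ν _ Γ Ch _ _ o d ℓ U₀).2.2 x₀ hx₀ R r0 _ h.symm).1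
  have b := ((hC l Ω ν _ Γ Ch _ _ o d ℓ U).2.2 x hx R e0 _ rfl).1
  rw [h1, show r0 ∘ wJ τ g (yv G r c₀) ∘ Sum.inl = e0 ∘ z ∘ Sum.inl from
    congrArg (· ∘ Sum.inl) h2] at a
  exact (hC l Ω ν _ Γ Ch _ _ o d ℓ _).2.1 _ _ a b

/-- The last law of the transfer, for affine schemes. -/
def R3 {A B C P R : Type} [CommRing A] [CommRing B] [CommRing C] [CommRing P] [CommRing R]
    (j : B →+* A) (ι : P →+* C) (r0 : A →+* R) (e0 : C →+* R) (O : (Spec (.of A)).Opens)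
    (UT : (Spec (.of B)).Opens → Prop) (US : (Spec (.of P)).Opens → Prop) (n : ℕ)
    (rl : KK l (Spec (.of A)) ⊥ O n → EE l (Spec (.of C)) n) : Prop :=
  ∀ (V : (Spec (.of A)).Opens) (VS : (Spec (.of C)).Opens) (V1 : (Spec (.of R)).Opens)
    (w : KK l _ V O n) (w' : SS l _ VS n), V1 = spc r0 ⁻¹ᵁ V ⊓ spc e0 ⁻¹ᵁ VS →
    (∃ W, spc j ⁻¹ᵁ W ≤ V ∧ UT W) → (∃ W, spc ι ⁻¹ᵁ W ≤ VS ∧ US W) →
    spb l (spc r0) V1 V n (ks l V O n w) = spb l (spc e0) V1 VS n w' →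
    rl (kpb l (𝟙 _) ⊥ O V O n w) = se l VS n w'

/-- The statement over the ring `τ = 1`. -/
theorem core (hC : LOCC_s) (hY : YC_s) {Γ : SG l} {Ch : Chern l Ω} (hX : XA o d r g G F)
    (hu : u o = 1) (h0 : eval₂ τ u (yv G r c₀ (.inl j₀)) ≠ 0)
    (hc : ∀ i, c i ∈ (Ideal.span {(p : V)}).radical)
    (hc' : ∀ i, eval₂ τ u (yv G r c₀ (.inr i)) =
      algebraMap V Ω (c i) * eval₂ τ u (yv G r c₀ (.inl j₀))) (he : JP e)
    (hz : ∀ v, Val e (Int.castRingHom C) (W.w v) (z v)) (hε : Val e (ω.comp τ) W.eps ε)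
    (hf : ∀ (L : Type) [Field L] (ψ : C →+* L) (a : XY κ → L), emat a = ψ ∘ e →
      (∀ k, eval₂ ((ψ.comp ω).comp τ) a (W.f k) = 0) ∧
        ∀ t, eval₂ ((ψ.comp ω).comp τ) a (W.s t) = 0)
    (ι : P →+* C) (b : V →+* P) (hb : ι.comp b = ω.comp (algebraMap V Ω)) {wP : EW ν J → P}
    {eps : P} (hw : ι ∘ wP = z) (hp : ι eps = ε) (e0 : C →+* R) (hε' : IsUnit (e0 ε))
    (r0 : JW τ g (yv G r c₀) →+* R) (h1 : r0.comp (algebraMap Ω _) = e0.comp ω)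
    (h2 : r0 ∘ wJ τ g (yv G r c₀) = e0 ∘ z) {O : (Spec (.of (JW τ g (yv G r c₀)))).Opens}
    {UT : _ → Prop} {US : _ → Prop} {rl : KK l _ ⊥ O (2 * d) → EE l (Spec (.of C)) (2 * d)}
    (h3 : R3 (BW τ g (yv G r c₀) (algebraMap V Ω)).subtype ι r0 e0 O UT US (2 * d) rl)
    (hT : ∀ W, opI (IH (wB τ g (yv G r c₀) (algebraMap V Ω))) ≤
      W ⊔ opI (Ideal.span {(p : BW τ g _ _)}) → UT W)
    (hS : ∀ W, opI (Ideal.span {(p : P), eps - 1} ⊔ IH wP) ≤ W ⊔ opI (Ideal.span {(p : P)}) → US W)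
    {w : KK l _ (VY τ g (yv G r c₀) u) O (2 * d)}
    (hw₀ : LocC Γ Ch (algebraMap Ω _) (wJ τ g (yv G r c₀) ∘ .inl) o ℓ _ (ks l _ _ _ w))
    (hU : Zo ω e W.t' U) {z' : ν × ν → C}
    (hz' : ∀ v, Val e (Int.castRingHom C) ((W.w ∘ .inl) v) (z' v)) {x : SS l _ U (2 * d)}
    (hx : LocC Γ Ch ω z' o ℓ U x) : rl (kpb l (𝟙 _) ⊥ O _ O _ w) = se l U _ x := by
  obtain rfl : z' = z ∘ .inl := funext fun v => val_uniq he (hz' v) (hz _)
  have h := opens W he hz hε hf e0 hε' r0 h1 h2 hU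
  obtain ⟨W₁, a1, a2⟩ := wT hY hX hu h0 hc hc'
  obtain ⟨W₂, b1, b2⟩ := wS W hY hX hu h0 hc hc' he hz hε ι b hb hw hp hU
  exact h3 _ U _ w x (by rw [h, inf_idem]) ⟨W₁, a1, hT _ a2⟩ ⟨W₂, b1, hS _ b2⟩
    (agree hC e0 r0 h1 h2 h hw₀ hx)

end

/-- Transport of `M2` along a presentation of the quotient. -/
theorem m2_of (hK : KL_s) (hC : LOCC_s) {l : ℕ} [Fact l.Prime] {ν κ β Ω S C : Type} [Fintype ν]
    [Field Ω] [CommRing S] [CommRing C] {Γ : SG l} {Ch : Chern l Ω} {ω : Ω →+* S} {e : EV κ → S}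
    {τ : S} {w : ν × ν → MvPolynomial (XY κ) ℤ} {t' : β → MvPolynomial (XY κ) Ω} {o : ν} {d : ℕ}
    {ℓ : Fin d → ν → Ω} {γ : EE l (Spec (.of S)) (2 * d)} (a : S →+* C) (ha : Surjective a)
    (hk : RingHom.ker a = (Ideal.span {τ - 1}).radical)
    (h : ∀ (U : (Spec (.of C)).Opens) (z : ν × ν → C) (x : SS l _ U (2 * d)),
      Zo (a.comp ω) (a ∘ e) t' U → (∀ v, Val (a ∘ e) (Int.castRingHom _) (w v) (z v)) →
      LocC Γ Ch (a.comp ω) z o ℓ U x → epb l (spc a) (2 * d) γ = se l U (2 * d) x) :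
    M2 Γ Ch ω e τ w t' o ℓ γ := by
  refine ⟨RingHom.ker a, hk.ge (Ideal.le_radical (Ideal.mem_span_singleton_self _)), hk.le,
    fun U z x hU hz hx => ?_⟩
  let i := RingHom.quotientKerEquivOfSurjective ha
  have e2 : spc i.symm.toRingHom ≫ spc a = spc (Ideal.Quotient.mk _) := by
    rw [← Spec.map_comp, ← CommRingCat.ofHom_comp]
    exact congrArg spc (RingHom.ext fun x => i.symm_apply_apply (Ideal.Quotient.mk _ x))
  have e3 : spc i.symm.toRingHom ≫ spc i.toRingHom = 𝟙 _ := by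
    rw [← Spec.map_comp, ← CommRingCat.ofHom_comp, ← Spec.map_id]
    exact congrArg spc (RingHom.ext fun x => i.symm_apply_apply x)
  have k := h _ (i ∘ z) _ (zo_map hU i.toRingHom)
    (fun v D _ ψ b hb => (hz v D (ψ.comp i.toRingHom) b hb).trans
      (congrArg (eval₂ · b _) (Subsingleton.elim _ _)))
    ((hC l Ω ν _ Γ Ch _ _ o d ℓ U).2.2 x hx C i.toRingHom _ rfl).1
  rw [((hK l).2.1 _ _ _ _ ⊤ U ⊤ _ le_rfl).2.2.1] at k
  rw [← e2, Pbc.epb_comp, k, ← Pbc.epb_comp, e3, Pbc.epb_id]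

lemma rad {p : ℕ} [Fact p.Prime] (x : VV p) (h : ‖(x : PadicAlgCl p)‖ < 1) :
    x ∈ (Ideal.span {(p : VV p)}).radical := by
  have p0 : (p : PadicAlgCl p) ≠ 0 := Nat.cast_ne_zero.2 (Fact.out : p.Prime).ne_zero
  obtain ⟨n, hn⟩ := exists_pow_lt_of_lt_one (norm_pos_iff.2 p0) h
  refine ⟨n, Ideal.mem_span_singleton'.2 ⟨⟨x ^ n / p, show ‖_‖ ≤ 1 from ?_⟩, Subtype.ext ?_⟩⟩
  · rw [norm_div, norm_pow, div_le_one (norm_pos_iff.2 p0)]
    exact hn.le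
  · exact div_mul_cancel₀ _ p0

lemma ratio {p : ℕ} [Fact p.Prime] {ν : Type} {a : ν → PadicAlgCl p} {y : PadicAlgCl p}
    (h : ∀ i, ‖a i‖ < ‖y‖) : ∃ c : ν → VV p, (∀ i, c i ∈ (Ideal.span {(p : VV p)}).radical) ∧
      ∀ i, a i = algebraMap (VV p) _ (c i) * y := by
  have k : ∀ i, ‖a i / y‖ < 1 := fun i => by
    rw [norm_div, div_lt_one ((norm_nonneg _).trans_lt (h i))]
    exact h i
  exact ⟨fun i => ⟨a i / y, (k i).le⟩, fun i => rad _ (k i), fun i =>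
    (div_mul_cancel₀ _ (norm_pos_iff.1 ((norm_nonneg _).trans_lt (h i)))).symm⟩

end M2p

open M2p in
/-- The third clause of `MIDR_s`, from the last law of the transfer for the rings `τ = 1`. -/
theorem m2 (hK : KL_s) (hO : OEX_s) (hJ : LOCJ_s) (hC : LOCC_s) (hY : YC_s) {p l : ℕ}
    [Fact p.Prime] [Fact l.Prime] (Γ : SG l) (Ch : Chern l (PadicAlgCl p))
    {K ν ρ J φ κ β : Type} [Field K] [Algebra K (PadicAlgCl p)] [Fintype ν] [Fintype J] [Fintype κ]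
    [DecidableEq κ] [Fintype β] [DecidableEq β] {o : ν} {d r c : ℕ}
    {g : ρ → MvPolynomial (ν × ν) K} {G : J → MvPolynomial ν K}
    {F : φ → MvPolynomial {k // k ≠ o} K} {c₀ : K} {u : ν → PadicAlgCl p}
    {ℓ : Fin d → ν → PadicAlgCl p} (W : WD (algebraMap K (PadicAlgCl p)) g (yv G r c₀) u ℓ o κ β c)
    {j₀ : J} (hX : XA o d r g G F) (hu : u o = 1) (hI : Iso (algebraMap K (PadicAlgCl p)) F u ℓ)
    (hn : ∀ i, ‖u i ^ r‖ < ‖aeval u (yv G r c₀ (.inl j₀))‖) :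
    ∃ w : KK l _ ⊥ (opI (IG (wJ (algebraMap K (PadicAlgCl p)) g (yv G r c₀)))) (2 * d),
      ∀ {C₀ C₀' S C P H R : Type} [CommRing C₀] [CommRing C₀'] [CommRing S] [CommRing C]
        [CommRing P] [CommRing H] [CommRing R] [Algebra C₀' C] [Algebra P C] [Algebra P H]
        [Algebra H R] [Algebra C R] (ι : C₀ →+* C₀') (ω₀ : PadicAlgCl p →+* C₀') {χ : K →+* C₀}
        {e₀ : EV κ → C₀} {τ : C₀} {f₀ : Fin c → MvPolynomial (XY κ) C₀} {If : Fin c → Ideal C₀}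
        {Is : β → Ideal C₀} {I : Ideal C₀'} {wP : EW ν J → P} {eps : P} {nn : Ideal P}
        {z : EW ν J → H}, ι.comp χ = ω₀.comp (algebraMap K _) → JP e₀ →
        (∀ a, Zer e₀ (f₀ a) (If a)) → (∀ t, Zer e₀ (map χ (W.s t)) (Is t)) →
        (∀ (D : Type) [CommRing D] (ψ : C₀ →+* D) (a : XY κ → D), emat a = ψ ∘ e₀ → ψ τ = 1 →
          ∀ k, eval₂ ψ a (f₀ k) = eval₂ (ψ.comp χ) a (W.f k)) →
        (∑ a, If a + ∑ t, Is t).map ι ≤ I →
        CP p g (yv G r c₀) W.w W.eps (ι.comp χ) (ι ∘ e₀) (ι τ) I C P H R wP eps nn z →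
        algebraMap C₀' C (ι τ) = 1 → z = algebraMap P H ∘ wP →
        ∀ (b : VV p →+* P) (r0 : JW (algebraMap K (PadicAlgCl p)) g (yv G r c₀) →+* R),
        (algebraMap P C).comp b = ((algebraMap C₀' C).comp ω₀).comp (algebraMap _ _) →
        r0.comp (algebraMap _ _) = (algebraMap C R).comp ((algebraMap C₀' C).comp ω₀) →
        (∀ v, r0 (wJ _ g (yv G r c₀) v) = algebraMap H R (z v)) →
        ∀ {UT : _ → Prop} {US : _ → Prop}
          {rl : KK l _ ⊥ _ (2 * d) → EE l (Spec (.of C)) (2 * d)},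
        R3 (BW _ g (yv G r c₀) (algebraMap (VV p) _)).subtype (algebraMap P C) r0 (algebraMap C R)
          _ UT US (2 * d) rl →
        (∀ W, opI (IH (wB _ g (yv G r c₀) (algebraMap (VV p) _))) ≤
          W ⊔ opI (Ideal.span {(p : BW _ g _ _)}) → UT W) →
        (∀ W, opI (Ideal.span {(p : P), eps - 1} ⊔ IH wP) ≤ W ⊔ opI (Ideal.span {(p : P)}) →
          US W) →
        ∀ (a : S →+* C) {ω : PadicAlgCl p →+* S} {e : EV κ → S} {t : S}
          {γ : EE l (Spec (.of S)) (2 * d)}, Surjective a →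
        RingHom.ker a = (Ideal.span {t - 1}).radical → a.comp ω = (algebraMap C₀' C).comp ω₀ →
        a ∘ e = algebraMap C₀' C ∘ ι ∘ e₀ → epb l (spc a) (2 * d) γ = rl w →
        M2 Γ Ch ω e t (W.w ∘ .inl) W.t' o ℓ γ := by
  have h0 : eval₂ (algebraMap K _) u (yv G r c₀ (.inl j₀)) ≠ 0 :=
    norm_pos_iff.1 ((norm_nonneg _).trans_lt (hn o))
  obtain ⟨c', hc, hc'⟩ := ratio hn
  obtain ⟨w, hw⟩ := cls hK hO hJ hC hY Γ Ch hX hu hI h0
  refine ⟨kpb l (𝟙 _) ⊥ _ _ _ _ w, ?_⟩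
  intro C₀ C₀' S C P H R _ _ _ _ _ _ _ _ _ _ _ _ ι ω₀ χ e₀ τ f₀ If Is I wP eps nn z hχ he hf hs hτ
    hI' cp h1 hz b r0 hb r1 r2 UT US rl h3 hT hS a ω e t γ ha hk e1 e2 hγ
  refine m2_of hK hC a ha hk fun U z' x hU hz' hx => hγ.trans ?_
  rw [e1] at hU hx
  rw [e2] at hU hz'
  have sq : ∀ x, algebraMap C R (algebraMap P C x) = algebraMap H R (algebraMap P H x) :=
    RingHom.congr_fun cp.sq
  refine core W hC hY hX hu h0 hc (fun i => Eq.trans (by simp [yv]) (hc' i))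
    (Ja.jp_map _ (Ja.jp_map ι he)) cp.wval ?_ (fun L _ ψ a ha => ?_) _ b hb rfl rfl _ ?_ r0 r1
    (funext fun v => (r2 v).trans (by rw [hz]; exact (sq _).symm)) h3 hT hS hw hU hz' hx
  · rw [RingHom.comp_assoc, ← hχ]
    exact cp.eval
  · let θ := (ψ.comp (algebraMap C₀' C)).comp ι
    have k : (∑ a, If a + ∑ t, Is t).map θ = ⊥ := by
      rw [← Ideal.map_map, Ideal.map_eq_bot_iff_le_ker]
      refine hI'.trans (cp.ker.ge.trans fun x hx => ?_)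
      rw [RingHom.mem_ker] at hx ⊢
      rw [RingHom.comp_apply, hx, map_zero]
    have e3 : (ψ.comp ((algebraMap C₀' C).comp ω₀)).comp (algebraMap K _) = θ.comp χ :=
      RingHom.ext fun x => congrArg (ψ.comp (algebraMap C₀' C)) (RingHom.congr_fun hχ x).symm
    rw [e3]
    refine ⟨fun i => ?_, fun i => ?_⟩
    · rw [← hτ L θ a ha ((congrArg ψ h1).trans (map_one ψ)), ← Ideal.span_singleton_eq_bot,
        ← hf i L θ a ha, eq_bot_iff, ← k]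
      exact Ideal.map_mono ((Finset.single_le_sum (fun _ _ => bot_le) (Finset.mem_univ i)).trans
        le_sup_left)
    · rw [← eval₂_map, ← Ideal.span_singleton_eq_bot, ← hs i L θ a ha, eq_bot_iff, ← k]
      exact Ideal.map_mono ((Finset.single_le_sum (fun _ _ => bot_le) (Finset.mem_univ i)).trans
        le_sup_right)
  · exact sq eps ▸ cp.unit.map _

/-- The generic fibre of the tube lies in the open set of the rows `H`. -/
theorem M2p.le_IH {K Ω V ν ρ J φ : Type} [Field K] [Field Ω] [CommRing V] [Fintype ν] [Fintype J]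
    {τ : K →+* Ω} {o : ν} {d r : ℕ} {g : ρ → MvPolynomial (ν × ν) K} {G : J → MvPolynomial ν K}
    {F : φ → MvPolynomial {k // k ≠ o} K} {c₀ : K} (b : V →+* Ω) (hX : XA o d r g G F)
    [IsOpenImmersion (spc (BW τ g (yv G r c₀) b).subtype)] :
    (spc (BW τ g (yv G r c₀) b).subtype).opensRange ≤ opI (IH (wB τ g (yv G r c₀) b)) := by
  rintro _ ⟨x, rfl⟩ h
  refine (M2p.IH_top (τ := τ) (c₀ := c₀) hX).ge (Set.mem_univ x) (Ideal.span_le.2 ?_)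
  rintro _ ⟨v, rfl⟩
  have k := h (Ideal.subset_span ⟨v, rfl⟩)
  have e : ∀ i, (BW τ g (yv G r c₀) b).subtype (wB τ g _ b i) = wJ τ g (yv G r c₀) i :=
    fun i => congrArg (Ideal.Quotient.mk _) (map_X _ _)
  exact Set.mem_of_eq_of_mem (e _).symm k

end Pool.Agent.MP_855f4c_ag.A

end

section

/-! h14a: statements of the parts of row EPS2. -/

set_option autoImplicit false
set_option backward.isDefEq.respectTransparency false

open CategoryTheory Limits Abelian Opposite AlgebraicGeometry Function MvPolynomial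

namespace Pool.Agent.MP_855f4c_ag.A

open E E3 E4 T

/-- The product of the Thom classes of a finite family of forms. -/
noncomputable def SG.tf {l : ℕ} [Fact l.Prime] (G : SG l) {Ω : Type} [Field Ω] (Ch : Chern l Ω)
    {κ β D : Type} [Fintype κ] [DecidableEq κ] [Fintype β] [CommRing D] (ω : Ω →+* D)
    (e : EV κ → D) (n : β → κ → ℤ) (s : β → MvPolynomial (XY κ) D) (I : β → Ideal D)
    (U : (Spec (.of D)).Opens) : SS l (Spec (.of D)) U (2 * Fintype.card β) :=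
  G.thk ((Finset.univ : Finset β).toList.map fun b => thJ Ch ω e (n b) (s b) (I b)) U _ (by simp)

/-- A neighbourhood of the zero set of `t'` on which the matrix and the coordinate `o` are units. -/
def DEL_s : Prop := ∀ (K Ω ν ρ J κ β : Type) [Field K] [Field Ω] [Fintype ν] [Fintype J]
  [Fintype κ] [DecidableEq κ] [Fintype β] [DecidableEq β] (τ : K →+* Ω) (o : ν) (d c : ℕ)
  (g : ρ → MvPolynomial (ν × ν) K) (y : NV ν J → MvPolynomial ν K) (u : ν → Ω)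
  (ℓ : Fin d → ν → Ω) (W : WD τ g y u ℓ o κ β c) (D : Type) [CommRing D] (ω : Ω →+* D)
  (e : EV κ → D), u o = 1 → JP e →
    ∃ (I' : BI d β c → Ideal D) (z : ν × ν → D) (δ : D)
      (μ : MvPolynomial (XY κ) (Localization.Away δ)) (t : Fin d → Localization.Away δ),
      (∀ b, Zer e (map ω (W.t' b)) (I' b)) ∧ Zo ω e W.t' (opI (∑ b, I' b)) ∧
      (∀ v, Val e (Int.castRingHom D) (W.w (.inl v)) (z v)) ∧
      opI (∑ b, I' b) ⊔ opI (Ideal.span {δ}) = ⊤ ∧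
      Lt ((algebraMap D _).comp ω) (algebraMap D (Localization.Away δ) ∘ z) o ℓ t ∧ Hg (-W.m) μ ∧
      ∀ (D' : Type) [CommRing D'] (ψ : Localization.Away δ →+* D') (x : XY κ → D'),
        emat x = ψ ∘ algebraMap D _ ∘ e →
        IsUnit (eval₂ (ψ.comp ((algebraMap D _).comp ω)) x W.Mx.det) ∧ IsUnit (eval₂ ψ x μ) ∧
        ∀ a, ψ (t a) = eval₂ ψ x μ * ∑ i, ψ (algebraMap D _ (ω (ℓ a i))) * aeval x (W.q i)

/-- The change of generators near the zero set of `t'`. -/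
def T1_s : Prop := ∀ (l : ℕ) [Fact l.Prime] (K Ω ν ρ J κ β : Type) [Field K] [Field Ω]
  [IsAlgClosed Ω] [CharZero Ω] [Fintype ν] [Fintype J] [Fintype κ] [DecidableEq κ] [Fintype β]
  [DecidableEq β] (Γ : SG l) (Ch : Chern l Ω) (τ : K →+* Ω) (o : ν) (d c : ℕ)
  (g : ρ → MvPolynomial (ν × ν) K) (y : NV ν J → MvPolynomial ν K) (u : ν → Ω)
  (ℓ : Fin d → ν → Ω) (W : WD τ g y u ℓ o κ β c) (D : Type) [CommRing D] (ω : Ω →+* D)
  (e : EV κ → D) (s₁ : β → MvPolynomial (XY κ) D) (f₁ : Fin c → MvPolynomial (XY κ) D)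
  (If : Fin c → Ideal D) (Is : β → Ideal D) (x : κ → (Spec (.of D) ⟶ P1)) (M : ℕ)
  (h : 2 * d + 2 * Fintype.card β + 2 * Fintype.card (β ⊕ Fin c) = M), u o = 1 → JP e → Ad e x →
    (∀ a, Hg (W.nf a) (f₁ a) ∧ Zer e (f₁ a) (If a)) → (∀ b, s₁ b = map (ω.comp τ) (W.s b)) →
    (∀ b, Zer e (s₁ b) (Is b)) →
    (∀ (D' : Type) [CommRing D'] (ψ : D →+* D') (a : XY κ → D'), emat a = ψ ∘ e →
      ∀ k, eval₂ ψ a (f₁ k) = eval₂ ((ψ.comp ω).comp τ) a (W.f k)) →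
    ∃ (U : (Spec (.of D)).Opens) (z : ν × ν → D) (δ : D) (t : Fin d → Localization.Away δ)
      (Θ : SS l _ U M) (L : List (κ → ℤ)) (hL : 2 * (L.map (Ch.cl p1l (spc ω) x)).length = M),
      Zo ω e W.t' U ∧ (∀ v, Val e (Int.castRingHom D) (W.w (.inl v)) (z v)) ∧
      U ⊔ opI (Ideal.span {δ}) = ⊤ ∧
      Lt ((algebraMap D _).comp ω) (algebraMap D (Localization.Away δ) ∘ z) o ℓ t ∧
      se l U M Θ = Twt.pk (L.map (Ch.cl p1l (spc ω) x)) M hL ∧ top (L.map lin).prod ≠ 0 ∧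
      ∀ (j : Spec (.of (Localization.Away δ)) ⟶ Spec (.of D)) (O : (Spec (.of D)).Opens)
        (U₀ : (Spec (.of (Localization.Away δ))).Opens),
        j = spc (algebraMap D (Localization.Away δ)) → O = opI (∑ a, If a + ∑ b, Is b) →
        U₀ = opI (Ideal.span (Set.range t)) → j ⁻¹ᵁ U ≤ U₀ ⊔ j ⁻¹ᵁ O ∧
        spb l j (j ⁻¹ᵁ U) U M Θ = Γ.star U₀ (j ⁻¹ᵁ O) (j ⁻¹ᵁ U) _ _ M h
          ((Γ.thk ((List.finRange d).map fun a => thF Ch ((algebraMap D _).comp ω) (t a)) U₀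
            (2 * d) (by simp)).comp
            (epb l j _ (se l _ _ (Γ.tf Ch ω e W.ns s₁ Is (opI (∑ b, Is b))))) rfl)
          (spb l j (j ⁻¹ᵁ O) O _
            (Γ.tf Ch ω e (Sum.elim W.ns W.nf) (Sum.elim s₁ f₁) (Sum.elim Is If) O))

end Pool.Agent.MP_855f4c_ag.A

end

section

/-! h14a row DEL: a neighbourhood of the zero set of `t'`. -/

set_option autoImplicit false

open AlgebraicGeometry MvPolynomial

namespace Pool.Agent.MP_855f4c_ag.A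

open E T

namespace Del

variable {κ A D : Type} [CommRing A] [CommRing D]

lemma triv [IsLocalRing D] {e : EV κ → D} (he : JP e) : ∃ a : XY κ → D, emat a = e := by
  choose σ hσ using fun k : κ => show ∃ i, IsUnit (e (k, i, i)) from
    (IsLocalRing.isUnit_or_isUnit_of_add_one (he k).1).elim (⟨0, ·⟩) (⟨1, ·⟩)
  exact Ja.p3 e σ he hσ

lemma zer_iff {e : EV κ → D} {s : MvPolynomial (XY κ) D} {I : Ideal D} (h : Zer e s I) {L : Type}
    [CommRing L] (ψ : D →+* L) {a : XY κ → L} (ha : emat a = ψ ∘ e) :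
    I ≤ RingHom.ker ψ ↔ eval₂ ψ a s = 0 := by
  rw [← Ideal.map_eq_bot_iff_le_ker, h L ψ a ha, Ideal.span_singleton_eq_bot]

lemma mem_opI {L : Type} [Field L] (ψ : D →+* L) (I : Ideal D) :
    (∀ x, spc ψ x ∈ opI I) ↔ ¬ I ≤ RingHom.ker ψ := by
  have key (x : Spec (.of L)) : spc ψ x ∈ opI I ↔ ¬ I ≤ RingHom.ker ψ := by
    rw [RingHom.ker_eq_comap_bot, ← Ideal.eq_bot_of_prime x.asIdeal]
    rfl
  exact ⟨fun h => (key (IsLocalRing.closedPoint L)).1 (h _), fun h x => (key x).2 h⟩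

lemma top_of (I : Ideal D) (h : ∀ (L : Type) [Field L] (ψ : D →+* L), ¬ I ≤ RingHom.ker ψ) :
    I = ⊤ := by
  by_contra hI
  obtain ⟨m, hm, hle⟩ := Ideal.exists_le_maximal _ hI
  let := Ideal.Quotient.field m
  exact h (D ⧸ m) (Ideal.Quotient.mk m) (by rwa [Ideal.mk_ker])

variable [Fintype κ] [DecidableEq κ]

omit [Fintype κ] in
lemma val_ex (e : EV κ → D) (χ : A →+* D) {P : MvPolynomial (XY κ) A} (h : Hg 0 P) :
    ∃ z, Val e χ P z := by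
  obtain ⟨P', hP⟩ := (Ja.pr_wt κ).w0_eval h
  exact ⟨eval₂ χ e P', fun D' _ ψ a ha => (eval₂_comp_left ψ χ e P').trans
    (hP D' _ a _ fun k i j => congrFun ha (k, i, j)).symm⟩

omit [Fintype κ] in
lemma det_hom {β : Type} [Fintype β] [DecidableEq β] {M : Matrix β β (MvPolynomial (XY κ) A)}
    {n n' : β → κ → ℤ} (h : ∀ a b, Hg (n a - n' b) (M a b)) : Hg (∑ a, n a - ∑ b, n' b) M.det := by
  rw [Matrix.det_apply]
  refine IsWeightedHomogeneous.sum _ _ _ fun σ _ => ?_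
  have := IsWeightedHomogeneous.prod (w := wt (κ := κ)) Finset.univ _ _ fun b _ => h (σ b) b
  rw [Finset.sum_sub_distrib, Equiv.sum_comp σ n] at this
  exact zsmul_mem (S := Submodule A _) (K := weightedHomogeneousSubmodule A _ _) this _

end Del

open Del in
theorem del : DEL_s := by
  intro K Ω ν ρ J κ β _ _ _ _ _ _ _ _ τ o d c g y u ℓ W D _ ω e hu he
  choose I' _ hI using fun b => Ja.p2 e _ _ he (Ja.hom_map ω (W.ht b))
  choose z hz using fun v : ν × ν => val_ex e (Int.castRingHom D) (P := W.w (.inl v))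
    (add_neg_cancel W.m ▸ (W.hq v.1).1.mul (W.hq v.2).2)
  have hz' {D' : Type} [CommRing D'] (ψ : D →+* D') (x : XY κ → D') (hx : emat x = ψ ∘ e) (i j) :
      ψ (z (i, j)) = aeval x (W.q i) * aeval x (W.lam j) := by
    rw [hz _ D' ψ x hx, ← map_mul, aeval_def, RingHom.ext_int (ψ.comp _) (algebraMap ℤ D')]
    rfl
  obtain ⟨I₀, -, h₀⟩ := Ja.p2 e _ _ he ((Ja.hom_map ω (det_hom W.hM)).mul
    (Ja.hom_map (Int.castRingHom D) (W.hq o).1))
  have ev {D' : Type} [CommRing D'] (ψ : D →+* D') (x : XY κ → D') :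
      eval₂ ψ x (map ω W.Mx.det * map (Int.castRingHom D) (W.q o)) =
        eval₂ (ψ.comp ω) x W.Mx.det * aeval x (W.q o) := by
    rw [eval₂_mul, eval₂_map, eval₂_map, aeval_def, RingHom.ext_int (ψ.comp _) (algebraMap ℤ D')]
  have ker {L : Type} [CommRing L] (ψ : D →+* L) {a : XY κ → L} (ha : emat a = ψ ∘ e) :
      ∑ b, I' b ≤ RingHom.ker ψ ↔ ∀ b, eval₂ (ψ.comp ω) a (W.t' b) = 0 := by
    simp only [Ideal.sum_eq_sup, Finset.sup_le_iff, Finset.mem_univ, forall_const,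
      zer_iff (hI _) ψ ha, eval₂_map]
  have cov {L : Type} [CommRing L] (ψ : D →+* L) {a : XY κ → L} (ha : emat a = ψ ∘ e) :=
    (W.cov L a (Ja.rel_of_jp (ha ▸ Ja.jp_map ψ he))).1
  obtain ⟨ε, hε, δ, hδ, e1⟩ := Submodule.mem_sup.1 ((Ideal.eq_top_iff_one _).1
    (top_of ((∑ b, I' b) ⊔ I₀) fun L _ ψ h => by
      obtain ⟨a, ha⟩ := triv (Ja.jp_map ψ he)
      obtain ⟨h1, h2, -⟩ := W.h3 L (ψ.comp ω) a (Ja.rel_of_jp (ha ▸ Ja.jp_map ψ he))
        ((ker ψ ha).1 (le_sup_left.trans h))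
      have h3 := (zer_iff h₀ ψ ha).1 (le_sup_right.trans h)
      rw [ev, mul_eq_zero, or_iff_right h2] at h3
      have h4 := cov ψ ha
      have h5 (i) : aeval a (W.q i) = 0 := by simpa [hu, h3] using h1 i o
      simp [T.Cov, h5] at h4))
  let ι := algebraMap D (Localization.Away δ)
  have un {D' : Type} [CommRing D'] (ψ : Localization.Away δ →+* D') (x : XY κ → D')
      (hx : emat x = ψ ∘ ι ∘ e) :
      IsUnit (eval₂ (ψ.comp (ι.comp ω)) x W.Mx.det) ∧ IsUnit (aeval x (W.q o)) := by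
    have h1 := Ideal.mem_map_of_mem (ψ.comp ι) hδ
    rw [h₀ D' (ψ.comp ι) x hx, ev, Ideal.mem_span_singleton] at h1
    exact IsUnit.mul_iff.1
      (isUnit_of_dvd_unit h1 ((IsLocalization.Away.algebraMap_isUnit δ).map ψ))
  have sp : Ideal.span (Set.range fun j => ι (z (o, j))) = ⊤ := top_of _ fun L _ ψ h => by
    obtain ⟨a, ha⟩ := triv (Ja.jp_map (ψ.comp ι) he)
    have h4 := cov _ ha
    have h5 (j) : aeval a (W.lam j) = 0 := (un ψ a ha).2.mul_right_eq_zero.1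
      ((hz' (ψ.comp ι) a ha o j).symm.trans (h (Ideal.subset_span ⟨j, rfl⟩)))
    simp [T.Cov, h5] at h4
  obtain ⟨b, hb⟩ := Ideal.mem_span_range_iff_exists_fun.1 ((Ideal.eq_top_iff_one _).1 sp)
  let μ : MvPolynomial (XY κ) (Localization.Away δ) :=
    ∑ j, C (b j) * map (Int.castRingHom _) (W.lam j)
  have key (D' : Type) [CommRing D'] (ψ : Localization.Away δ →+* D') (x : XY κ → D')
      (hx : emat x = ψ ∘ ι ∘ e) : eval₂ ψ x μ * aeval x (W.q o) = 1 ∧ ∀ a,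
        ψ (∑ j, b j * ∑ i, ι (ω (ℓ a i)) * ι (z (i, j))) =
          eval₂ ψ x μ * ∑ i, ψ (ι (ω (ℓ a i))) * aeval x (W.q i) := by
    have h1 : eval₂ ψ x μ = ∑ j, ψ (b j) * aeval x (W.lam j) := by
      simp only [μ, eval₂_sum, eval₂_mul, eval₂_C, eval₂_map, aeval_def,
        RingHom.ext_int (ψ.comp _) (algebraMap ℤ D')]
    have h2 (i j) : ψ (ι (z (i, j))) = _ := hz' (ψ.comp ι) x hx i j
    refine ⟨?_, fun a => ?_⟩
    · rw [← map_one ψ, ← hb, h1, Finset.sum_mul, map_sum]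
      exact Finset.sum_congr rfl fun j _ => by rw [map_mul, h2]; ring
    · simp only [map_sum, map_mul, h1, h2, Finset.sum_mul, Finset.mul_sum]
      exact Finset.sum_comm.trans
        (Finset.sum_congr rfl fun i _ => Finset.sum_congr rfl fun j _ => by ring)
  refine ⟨I', z, δ, μ, fun a => ∑ j, b j * ∑ i, ι (ω (ℓ a i)) * ι (z (i, j)), hI,
    fun L _ ψ a ha => by rw [mem_opI, ker ψ ha, not_forall], hz, ?_,
    ⟨sp, fun a j => ZP.eq_of_loc fun D' _ _ ψ => ?_⟩,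
    IsWeightedHomogeneous.sum _ _ _ fun j _ => ?_, fun D' _ ψ x hx =>
      ⟨(un ψ x hx).1, .of_mul_eq_one _ (key D' ψ x hx).1, (key D' ψ x hx).2⟩⟩
  · refine top_le_iff.1 fun p _ => ?_
    by_contra h
    obtain ⟨h1, h2⟩ := not_or.1 h
    refine p.isPrime.ne_top ((Ideal.eq_top_iff_one _).2 (e1 ▸ add_mem ?_ ?_))
    · exact (not_not.1 h1 : (_ : Set D) ⊆ _) hε
    · exact (not_not.1 h2 : (_ : Set D) ⊆ _) (Ideal.mem_span_singleton_self δ)
  · obtain ⟨x, hx⟩ := triv (Ja.jp_map (ψ.comp ι) he)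
    have h2 (i j) : ψ (ι (z (i, j))) = _ := hz' (ψ.comp ι) x hx i j
    rw [map_mul, (key D' ψ x hx).2]
    simp only [Function.comp, map_sum, map_mul, RingHom.comp_apply]
    erw [h2]
    rw [mul_right_comm, ← mul_assoc, (key D' ψ x hx).1, one_mul, Finset.mul_sum]
    exact Finset.sum_congr rfl fun i _ => by erw [h2]; ring
  · exact zero_add (-W.m) ▸ (isWeightedHomogeneous_C _ _).mul (Ja.hom_map _ (W.hq j).2)

end Pool.Agent.MP_855f4c_ag.A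

end
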