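import Pool.Agent.MP_855f4c_ag.AC.Ac
import Pool.Agent.MP_855f4c_ag.AC.As
import Pool.Agent.MP_855f4c_ag.AC.Ak
import Pool.Agent.MP_855f4c_ag.AC.Ah
import Pool.Agent.MP_855f4c_ag.AC.Aa
import Pool.Agent.MP_855f4c_ag.AC.Ae

set_option linter.all false

section

/-! h14a: the rings of the tube are stable under base change and under the quotient `τ = 1`. -/

set_option autoImplicit false

open MvPolynomial AlgebraicGeometry TensorProduct Function

namespace Pool.Agent.MP_855f4c_ag.A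

open E E3 T

namespace Cpv
variable {ν J ρ K D D' : Type} [CommRing K] [CommRing D] [CommRing D']

lemma IH_map (φ : D →+* D') (w : EW ν J → D) : (IH w).map φ = IH (φ ∘ w) := by
  rw [IH, IH, Ideal.map_span, ← Set.range_comp]
  rfl

lemma cen_map (φ : D →+* D') (p : ℕ) (ε : D) (w : EW ν J → D) :
    (Ideal.span {(p : D), ε - 1} ⊔ IH w).map φ = Ideal.span {(p : D'), φ ε - 1} ⊔ IH (φ ∘ w) := by
  rw [Ideal.map_sup, IH_map, Ideal.map_span, Set.image_pair, map_natCast, map_sub, map_one]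

lemma p_map (φ : D →+* D') (p : ℕ) : (Ideal.span {(p : D)}).map φ = Ideal.span {(p : D')} := by
  rw [Ideal.map_span, Set.image_singleton, map_natCast]

lemma IH_fg [Finite ν] [Finite J] (w : EW ν J → D) : (IH w).FG :=
  Submodule.fg_span (Set.finite_range _)

lemma cen_fg [Finite ν] [Finite J] (p : ℕ) (ε : D) (w : EW ν J → D) :
    (Ideal.span {(p : D), ε - 1} ⊔ IH w).FG :=
  Submodule.FG.sup (Submodule.fg_span (Set.toFinite _)) (IH_fg w)

lemma jq_map [Fintype ν] [Fintype J] (φ : D →+* D') {χ : K →+* D}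
    {g : ρ → MvPolynomial (ν × ν) K} {y : NV ν J → MvPolynomial ν K} {w : EW ν J → D}
    (h : JQ χ g y w) : JQ (φ.comp χ) g y (φ ∘ w) :=
  (jq_iff _ g y _).1 fun t => by
    rw [← eval₂_comp_left, (jq_iff χ g y w).2 h t, map_zero]

lemma val_map {κ A : Type} [CommRing A] (φ : D →+* D') {e : EV κ → D} {χ : A →+* D}
    {P : MvPolynomial (XY κ) A} {z : D} (h : Val e χ P z) : Val (φ ∘ e) (φ.comp χ) P (φ z) :=
  fun D'' _ ψ a ha => h D'' (ψ.comp φ) a ha

lemma nzd_of_inj (φ : D →+* D') (h : Injective φ) {x : D} (hx : IsUnit (φ x)) :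
    x ∈ nonZeroDivisors D :=
  mem_nonZeroDivisors_iff_right.2 fun y hy => h (by
    have := congrArg φ hy
    rw [map_mul, map_zero] at this
    rw [map_zero, hx.mul_left_eq_zero.1 this])

lemma inj_of_nzd [Algebra D D'] (x : D) [IsLocalization.Away x D'] (hx : x ∈ nonZeroDivisors D) :
    Injective (algebraMap D D') :=
  IsLocalization.injective D' (M := Submonoid.powers x) (Submonoid.powers_le.2 hx)

end Cpv

open Cpv

variable {ν J ρ K κ : Type} [Fintype ν] [Fintype J] [CommRing K] {p : ℕ}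
  {g : ρ → MvPolynomial (ν × ν) K} {y : NV ν J → MvPolynomial ν K}
  {w : EW ν J → MvPolynomial (XY κ) ℤ} {ε : MvPolynomial (XY κ) K}
  {C₀ : Type} [CommRing C₀] {χ : K →+* C₀} {e : EV κ → C₀} {τ : C₀} {I : Ideal C₀}
  {C P H R : Type} [CommRing C] [CommRing P] [CommRing H] [CommRing R] [Algebra C₀ C]
  [Algebra P C] [Algebra P H] [Algebra H R] [Algebra C R] {wP : EW ν J → P} {eps : P}
  {nn : Ideal P} {z : EW ν J → H} (h : CP p g y w ε χ e τ I C P H R wP eps nn z)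
include h

theorem CP.exs : Exs P H (Ideal.span {(p : P), eps - 1} ⊔ IH wP) := T.exs.2 _ _ _ h.ind h.qiso

theorem CP.nn_map : nn.map (algebraMap P C) = (Ideal.span {algebraMap C₀ C τ - 1}).radical := by
  have := h.loc
  rw [h.hnn]
  exact IsLocalization.map_under (Submonoid.powers (p : P)) C _

/-- Transport along a map of diagrams. -/
theorem CP.map {C₀' C' P' H' R' : Type} [CommRing C₀'] [CommRing C'] [CommRing P'] [CommRing H']
    [CommRing R'] [Algebra C₀' C'] [Algebra P' C'] [Algebra P' H'] [Algebra H' R'] [Algebra C' R']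
    (a₀ : C₀ →+* C₀') (a : C →+* C') (b : P →+* P') (c : H →+* H') (d : R →+* R')
    (s0 : ∀ x, a (algebraMap C₀ C x) = algebraMap C₀' C' (a₀ x))
    (s1 : ∀ x, a (algebraMap P C x) = algebraMap P' C' (b x))
    (s2 : ∀ x, c (algebraMap P H x) = algebraMap P' H' (b x))
    (s3 : ∀ x, d (algebraMap H R x) = algebraMap H' R' (c x))
    (s4 : ∀ x, d (algebraMap C R x) = algebraMap C' R' (a x)) {I' : Ideal C₀'}
    (sur : Surjective (algebraMap C₀' C')) (ker : RingHom.ker (algebraMap C₀' C') = I')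
    (loc : IsLocalization.Away (p : P') C') (loc₁ : IsLocalization.Away (p : H') R')
    (sq : (algebraMap C' R').comp (algebraMap P' C') = (algebraMap H' R').comp (algebraMap P' H'))
    (hb : b.IsIntegral) (hc : c.IsIntegral) (inj : Injective (algebraMap H' R'))
    (hq : IndEt P' H' ∧ QIso P' H' (Ideal.span {(p : P'), b eps - 1} ⊔ IH (b ∘ wP))) :
    CP p g y w ε (a₀.comp χ) (a₀ ∘ e) (a₀ τ) I' C' P' H' R' (b ∘ wP) (b eps)
      ((Ideal.span {algebraMap C₀' C' (a₀ τ) - 1}).radical.comap (algebraMap P' C')) (c ∘ z) := by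
  have e0 : algebraMap C₀' C' ∘ a₀ ∘ e = a ∘ algebraMap C₀ C ∘ e := funext fun v => (s0 _).symm
  have e1 : (algebraMap C₀' C').comp (a₀.comp χ) = a.comp ((algebraMap C₀ C).comp χ) :=
    RingHom.ext fun v => (s0 _).symm
  have e2 : c.comp (algebraMap P H) = (algebraMap P' H').comp b := RingHom.ext s2
  refine ⟨sur, ker, loc, loc₁, sq, inj, T.hp.2 _ _ b _ _ hb (by rw [p_map]) h.hp,
    T.hp.2 _ _ c _ _ hc (by rw [p_map]) h.hp₁, hq.1, hq.2, s2 eps ▸ h.unit.map c, fun v => ?_, ?_,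
    ?_, rfl, fun v => ?_, ?_⟩
  · rw [e0, Function.comp_apply, ← s1, Subsingleton.elim (Int.castRingHom C') (a.comp _)]
    exact val_map a (h.wval v)
  · rw [e0, e1, ← s1]
    exact val_map a h.eval
  · have e3 : (algebraMap C' R').comp (a.comp ((algebraMap C₀ C).comp χ)) =
        d.comp ((algebraMap C R).comp ((algebraMap C₀ C).comp χ)) :=
      RingHom.ext fun v => (s4 _).symm
    have e4 : algebraMap H' R' ∘ c ∘ z = d ∘ algebraMap H R ∘ z := funext fun v => (s3 _).symm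
    rw [e1, e3, e4]
    exact jq_map d h.jq
  · have h1 := Ideal.mem_map_of_mem c (h.zw v)
    rw [map_sub, s2, Ideal.map_map, e2, ← Ideal.map_map] at h1
    refine Ideal.map_mono (Ideal.map_le_iff_le_comap.2 fun x hx => ?_) h1
    rw [h.hnn] at hx
    have h2 := Ideal.map_radical_le a (Ideal.mem_map_of_mem a hx)
    rwa [s1, Ideal.map_span, Set.image_singleton, map_sub, map_one, s0] at h2
  · rw [← cen_map b, Ideal.map_map, ← e2, ← Ideal.map_map]
    refine (Ideal.map_mono h.rz).trans ((Ideal.map_radical_le c).trans ?_)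
    rw [Ideal.map_sup, IH_map, p_map]

/-- Base change along `O → V → Ω`. -/
theorem CP.bc (O V Ω : Type) [CommRing O] [CommRing V] [CommRing Ω] [Algebra O V] [Algebra V Ω]
    [Algebra O Ω] [IsScalarTower O V Ω] [Algebra.IsIntegral O V] [Module.Flat O V]
    [IsLocalization.Away (p : V) Ω] [Algebra O C₀] [Algebra O C] [Algebra O P] [Algebra O H]
    [Algebra O R] [IsScalarTower O C₀ C] [IsScalarTower O P C] [IsScalarTower O P H]
    [IsScalarTower O H R] [IsScalarTower O C R] :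
    letI := (Su.tm O Ω Ω C₀ C).toAlgebra
    letI := (Su.tm O V Ω P C).toAlgebra
    letI := (Su.tm O V V P H).toAlgebra
    letI := (Su.tm O V Ω H R).toAlgebra
    letI := (Su.tm O Ω Ω C R).toAlgebra
    CP p g y w ε ((iR O Ω C₀).comp χ) (iR O Ω C₀ ∘ e) (iR O Ω C₀ τ) (I.map (iR O Ω C₀))
      (Ω ⊗[O] C) (V ⊗[O] P) (V ⊗[O] H) (Ω ⊗[O] R) (iR O V P ∘ wP) (iR O V P eps)
      ((Ideal.span {Su.tm O Ω Ω C₀ C (iR O Ω C₀ τ) - 1}).radical.comap (Su.tm O V Ω P C))
      (iR O V H ∘ z) := by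
  let := (Su.tm O Ω Ω C₀ C).toAlgebra
  let := (Su.tm O V Ω P C).toAlgebra
  let := (Su.tm O V V P H).toAlgebra
  let := (Su.tm O V Ω H R).toAlgebra
  let := (Su.tm O Ω Ω C R).toAlgebra
  have : IsLocalization.Away (algebraMap O V p) Ω := by rwa [map_natCast]
  have : IsLocalization.Away (algebraMap O P p) C := by rw [map_natCast]; exact h.loc
  have : IsLocalization.Away (algebraMap O H p) R := by rw [map_natCast]; exact h.loc₁
  have l1 := Su.away O V Ω P C (p : O)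
  have l2 := Su.away O V Ω H R (p : O)
  rw [map_natCast, map_natCast] at l1 l2
  have t1 : ∀ x, iR O Ω C (algebraMap P C x) = Su.tm O V Ω P C (iR O V P x) := fun x => by
    change (1 : Ω) ⊗ₜ _ = algebraMap V Ω 1 ⊗ₜ _
    rw [map_one]; rfl
  have t3 : ∀ x, iR O Ω R (algebraMap H R x) = Su.tm O V Ω H R (iR O V H x) := fun x => by
    change (1 : Ω) ⊗ₜ _ = algebraMap V Ω 1 ⊗ₜ _
    rw [map_one]; rfl
  refine h.map (iR O Ω C₀) (iR O Ω C) (iR O V P) (iR O V H) (iR O Ω R) (fun _ => rfl) t1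
    (fun _ => rfl) t3 (fun _ => rfl) ?_ ?_ l1 l2 ?_ (Su.tm_int O V P) (Su.tm_int O V H) ?_
    (Su.bcq T.exs O P V H _ h.ind h.qiso _ (cen_map _ _ _ _).le)
  · exact Algebra.TensorProduct.map_surjective _ _ surjective_id h.sur
  · rw [← h.ker]
    exact Algebra.TensorProduct.lTensor_ker (IsScalarTower.toAlgHom O C₀ C) h.sur
  · refine RingHom.ext fun x => ?_
    induction x with
    | zero => simp only [map_zero]
    | tmul v x => exact congrArg (algebraMap V Ω v ⊗ₜ[O] ·) (RingHom.congr_fun h.sq x)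
    | add x y hx hy => rw [map_add, map_add, hx, hy]
  · refine inj_of_nzd (p : V ⊗[O] H) (nzd_of_inj (Su.tm O V V H R)
      (Module.Flat.lTensor_preserves_injective_linearMap (M := V)
        (IsScalarTower.toAlgHom O H R).toLinearMap h.inj) ?_)
    have := h.loc₁
    have := (IsLocalization.Away.algebraMap_isUnit (S := R) (p : H)).map (iR O V R)
    rwa [map_natCast, map_natCast, ← map_natCast (Su.tm O V V H R)] at this

/-- The quotient `τ = 1`. -/
theorem CP.quo : ∃ (C₁ P₁ H₁ R₁ : Type) (_ : CommRing C₁) (_ : CommRing P₁) (_ : CommRing H₁)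
    (_ : CommRing R₁) (_ : Algebra C₀ C₁) (_ : Algebra P₁ C₁) (_ : Algebra P₁ H₁)
    (_ : Algebra H₁ R₁) (_ : Algebra C₁ R₁) (a : C →+* C₁) (b : P →+* P₁) (c : H →+* H₁)
    (d : R →+* R₁), (Surjective a ∧ Surjective b ∧ Surjective c ∧ Surjective d) ∧
      (RingHom.ker a = (Ideal.span {algebraMap C₀ C τ - 1}).radical ∧ RingHom.ker b = nn ∧
        RingHom.ker c = nn.map (algebraMap P H) ∧
        RingHom.ker d = (nn.map (algebraMap P H)).map (algebraMap H R)) ∧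
      (a.comp (algebraMap C₀ C) = algebraMap C₀ C₁ ∧
        a.comp (algebraMap P C) = (algebraMap P₁ C₁).comp b ∧
        c.comp (algebraMap P H) = (algebraMap P₁ H₁).comp b ∧
        d.comp (algebraMap H R) = (algebraMap H₁ R₁).comp c ∧
        d.comp (algebraMap C R) = (algebraMap C₁ R₁).comp a) ∧
      algebraMap C₀ C₁ τ = 1 ∧ c ∘ z = algebraMap P₁ H₁ ∘ b ∘ wP ∧
      CP p g y w ε χ e τ (I ⊔ Ideal.span {τ - 1}).radical C₁ P₁ H₁ R₁ (b ∘ wP) (b eps) ⊥
        (c ∘ z) := by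
  have := h.loc
  have := h.loc₁
  obtain rfl := h.hnn
  set N := (Ideal.span {algebraMap C₀ C τ - 1}).radical with hN
  set nn := N.comap (algebraMap P C)
  let M := nn.map (algebraMap P H)
  let M' := M.map (algebraMap H R)
  have hle : N ≤ M'.comap (algebraMap C R) := by
    rw [← Ideal.map_le_iff_le_comap, hN, ← h.nn_map, Ideal.map_map, h.sq, ← Ideal.map_map]
  let : Algebra C₀ (C ⧸ N) := ((Ideal.Quotient.mk N).comp (algebraMap C₀ C)).toAlgebra
  let : Algebra (P ⧸ nn) (C ⧸ N) := (Ideal.quotientMap N (algebraMap P C) le_rfl).toAlgebra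
  let : Algebra (P ⧸ nn) (H ⧸ M) :=
    (Ideal.quotientMap M (algebraMap P H) Ideal.le_comap_map).toAlgebra
  let : Algebra (H ⧸ M) (R ⧸ M') :=
    (Ideal.quotientMap M' (algebraMap H R) Ideal.le_comap_map).toAlgebra
  let : Algebra (C ⧸ N) (R ⧸ M') := (Ideal.quotientMap M' (algebraMap C R) hle).toAlgebra
  obtain ⟨-, l1, n1⟩ := Cpl.sat (p : P) N
  rw [map_natCast] at l1 n1
  have : IsScalarTower P (P ⧸ nn) (H ⧸ M) := .of_algebraMap_eq fun _ => rfl
  have := Su2.push P (P ⧸ nn) H (H ⧸ M) Ideal.Quotient.mk_surjective Ideal.Quotient.mk_surjective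
    (by rw [Ideal.Quotient.algebraMap_eq, Ideal.Quotient.algebraMap_eq, Ideal.mk_ker, Ideal.mk_ker])
  have hq := T.exs.1 P H (P ⧸ nn) (H ⧸ M) _ _ (cen_map (Ideal.Quotient.mk nn) p eps wP).le
    h.ind h.qiso
  have l2 := IsLocalization.of_surjective (Submonoid.powers (p : H)) R (Ideal.Quotient.mk M)
    Ideal.Quotient.mk_surjective (Ideal.Quotient.mk M') Ideal.Quotient.mk_surjective rfl
    (by rw [Ideal.mk_ker, Ideal.mk_ker])
  rw [Submonoid.map_powers, map_natCast] at l2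
  have n2 := Cpl.nzd hq.1 n1
  rw [map_natCast] at n2
  have hτ : algebraMap C₀ (C ⧸ N) τ = 1 :=
    (Ideal.Quotient.eq.2 (Ideal.le_radical (Ideal.mem_span_singleton_self _))).trans (map_one _)
  have hk : RingHom.ker (algebraMap C₀ (C ⧸ N)) = (I ⊔ Ideal.span {τ - 1}).radical := by
    change RingHom.ker ((Ideal.Quotient.mk N).comp (algebraMap C₀ C)) = _
    rw [← RingHom.comap_ker, Ideal.mk_ker, hN, Ideal.comap_radical, ← map_one (algebraMap C₀ C),
      ← map_sub, ← Set.image_singleton, ← Ideal.map_span,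
      Ideal.comap_map_of_surjective _ h.sur, ← RingHom.ker_eq_comap_bot, h.ker, sup_comm]
  have key := h.map (RingHom.id C₀) (Ideal.Quotient.mk N) (Ideal.Quotient.mk nn)
    (Ideal.Quotient.mk M) (Ideal.Quotient.mk M') (fun _ => rfl) (fun _ => rfl) (fun _ => rfl)
    (fun _ => rfl) (fun _ => rfl) (Ideal.Quotient.mk_surjective.comp h.sur) hk l1 l2
    (Ideal.Quotient.ringHom_ext (RingHom.ext fun x =>
      congrArg (Ideal.Quotient.mk M') (RingHom.congr_fun h.sq x)))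
    (RingHom.isIntegral_of_surjective _ Ideal.Quotient.mk_surjective)
    (RingHom.isIntegral_of_surjective _ Ideal.Quotient.mk_surjective) (inj_of_nzd _ n2) hq
  have hb : (Ideal.span {algebraMap C₀ (C ⧸ N) (RingHom.id C₀ τ) - 1}).radical.comap
      (algebraMap (P ⧸ nn) (C ⧸ N)) = ⊥ := by
    have : IsReduced (C ⧸ N) := (Ideal.isRadical_iff_quotient_reduced N).1 (Ideal.radical_isRadical _)
    rw [RingHom.id_apply, hτ, sub_self, Ideal.span_singleton_zero, ← Ideal.zero_eq_bot,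
      ← nilradical, nilradical_eq_zero, Ideal.zero_eq_bot]
    exact Ideal.comap_bot_of_injective _ Ideal.quotientMap_injective
  rw [hb] at key
  exact ⟨C ⧸ N, P ⧸ nn, H ⧸ M, R ⧸ M', _, _, _, _, _, _, _, _, _, _, _, _, _,
    ⟨Ideal.Quotient.mk_surjective, Ideal.Quotient.mk_surjective, Ideal.Quotient.mk_surjective,
      Ideal.Quotient.mk_surjective⟩, ⟨Ideal.mk_ker, Ideal.mk_ker, Ideal.mk_ker, Ideal.mk_ker⟩,
    ⟨rfl, rfl, rfl, rfl, rfl⟩, hτ, funext fun v => Ideal.Quotient.eq.2 (h.zw v), key⟩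

omit h

/-- The valuation ring over a valuation subring that contains `ℤ_p`. -/
theorem Cpv.vv (p l : ℕ) [Fact p.Prime] [Fact l.Prime] (O : Subring (PadicAlgCl p)) (hlp : l ≠ p)
    (h1 : ∀ x ∈ O, ‖x‖ ≤ 1) (h2 : ∀ x : ℤ_[p], algebraMap _ _ x ∈ O) [ValuationRing O] :
    ∃ (_ : Algebra O (VV p)) (_ : IsScalarTower O (VV p) (PadicAlgCl p)),
      Algebra.IsIntegral O (VV p) ∧ Module.Flat O (VV p) ∧
      IsLocalization.Away (p : VV p) (PadicAlgCl p) ∧ IsUnit (l : VV p) ∧ ¬ IsUnit (p : VV p) ∧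
      ∀ σ : PadicAlgCl p ≃ₐ[O] PadicAlgCl p, (∀ x, ‖σ x‖ = ‖x‖) →
        ∃ σ' : VV p ≃ₐ[O] VV p, ∀ x, (σ' x : PadicAlgCl p) = σ x := by
  let v : Valuation (PadicAlgCl p) NNReal := Valued.v
  have mem : ∀ x, x ∈ VV p ↔ ‖x‖ ≤ 1 := fun _ => Iff.rfl
  let : Algebra O (VV p) := (O.subtype.codRestrict (VV p) fun x => (mem _).2 (h1 _ x.2)).toAlgebra
  have : IsScalarTower O (VV p) (PadicAlgCl p) := .of_algebraMap_eq fun _ => rfl
  have np : ‖(p : PadicAlgCl p)‖ < 1 := by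
    rw [← map_natCast (algebraMap ℚ_[p] _), norm_algebraMap']; exact Padic.norm_p_lt_one
  have p0 : (p : PadicAlgCl p) ≠ 0 := Nat.cast_ne_zero.2 (Fact.out : p.Prime).ne_zero
  have un : ∀ x : VV p, IsUnit x ↔ ‖(x : PadicAlgCl p)‖ = 1 := fun x =>
    (Valuation.Integers.isUnit_iff_valuation_eq_one
      (Valuation.valuationSubring.integers v)).trans NNReal.coe_inj.symm
  refine ⟨_, this, ⟨fun x => ?_⟩, ?_, ?_, ?_, ?_, fun σ hσ => ?_⟩
  · let : Algebra ℤ_[p] O := ((algebraMap ℤ_[p] (PadicAlgCl p)).codRestrict O h2).toAlgebra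
    have : IsScalarTower ℤ_[p] O (PadicAlgCl p) := .of_algebraMap_eq fun _ => rfl
    exact (isIntegral_algHom_iff (IsScalarTower.toAlgHom O (VV p) (PadicAlgCl p))
      Subtype.val_injective).1 ((((T.Pow.pow p l hlp).2.2 x).1 ((mem _).1 x.2)).tower_top)
  · refine Module.Flat.flat_iff_torsion_eq_bot_of_isBezout.2 (eq_bot_iff.2 ?_)
    rintro x ⟨⟨a, ha⟩, hx⟩
    have : (a : PadicAlgCl p) * x = 0 := congrArg Subtype.val hx
    exact Subtype.ext ((mul_eq_zero.1 this).resolve_left fun h =>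
      nonZeroDivisors.ne_zero ha (Subtype.ext h))
  · refine IsLocalization.Away.mk _ (by rw [map_natCast]; exact p0.isUnit) (fun x => ?_)
      fun a b hab => ⟨0, by rw [Subtype.val_injective hab]⟩
    obtain ⟨n, hn⟩ := exists_pow_lt_of_lt_one (show 0 < (‖x‖ + 1)⁻¹ by positivity) np
    refine ⟨n, ⟨x * p ^ n, (mem _).2 ?_⟩, by rw [map_natCast]; rfl⟩
    rw [norm_mul, norm_pow]
    rw [lt_inv_comm₀ (by positivity) (by positivity), lt_inv_comm₀ (by positivity) (by positivity),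
      inv_eq_one_div, lt_div_iff₀ (by positivity)] at hn
    nlinarith [pow_nonneg (norm_nonneg (p : PadicAlgCl p)) n]
  · rw [un]
    change ‖(l : PadicAlgCl p)‖ = 1
    rw [← map_natCast (algebraMap ℚ_[p] _), norm_algebraMap']
    exact Padic.norm_natCast_eq_one_iff.2 ((Nat.coprime_primes Fact.out Fact.out).2 hlp.symm)
  · rw [un]; exact np.ne
  · let f : VV p →ₐ[O] VV p := ⟨((σ : PadicAlgCl p →+* PadicAlgCl p).comp (VV p).subtype).codRestrict
      (VV p) fun x => (mem _).2 ((hσ x).trans_le x.2), fun o => Subtype.ext (σ.commutes o)⟩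
    refine ⟨AlgEquiv.ofBijective f ⟨fun a b e => Subtype.ext (σ.injective (congrArg Subtype.val e)),
      fun x => ⟨⟨σ.symm x, (mem _).2 ?_⟩, Subtype.ext (σ.apply_symm_apply x)⟩⟩, fun _ => rfl⟩
    rw [← hσ, σ.apply_symm_apply]
    exact x.2

end Pool.Agent.MP_855f4c_ag.A

end

section

/-! h14a row MIDR: the transfer to the generic fibre of the tube. -/

set_option autoImplicit false
set_option backward.isDefEq.respectTransparency false
set_option linter.unusedSectionVars false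

open CategoryTheory Limits Abelian Opposite AlgebraicGeometry Function TensorProduct MvPolynomial

namespace Pool.Agent.MP_855f4c_ag.A

open E E3 E4 T

namespace Midr

variable {ν J ρ K κ V Ω : Type} [Fintype ν] [Fintype J] [CommRing K] [CommRing V] [CommRing Ω]
  [Algebra V Ω] {p : ℕ} {τ : K →+* Ω} {g : ρ → MvPolynomial (ν × ν) K}
  {y : NV ν J → MvPolynomial ν K}

noncomputable local instance algBJ (b : V →+* Ω) : Algebra (BW τ g y b) (JW τ g y) :=
  Algebra.ofSubsemiring _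

lemma coe_w (b : V →+* Ω) (v : EW ν J) : (BW τ g y b).subtype (wB τ g y b v) = wJ τ g y v :=
  congrArg (Ideal.Quotient.mk _) (map_X _ _)

lemma extB {b : V →+* Ω} {D : Type} [CommRing D] {r r' : BW τ g y b →+* D}
    (h1 : ∀ a, r (bB τ g y b a) = r' (bB τ g y b a))
    (h2 : ∀ v, r (wB τ g y b v) = r' (wB τ g y b v)) : r = r' :=
  (RingHom.cancel_right (RingHom.rangeRestrict_surjective _)).1 (MvPolynomial.ringHom_ext h1 h2)

lemma extJ {D : Type} [CommRing D] {r r' : JW τ g y →+* D}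
    (h1 : r.comp (algebraMap Ω _) = r'.comp (algebraMap Ω _))
    (h2 : ∀ v, r (wJ τ g y v) = r' (wJ τ g y v)) : r = r' :=
  Ideal.Quotient.ringHom_ext (MvPolynomial.ringHom_ext (RingHom.congr_fun h1) h2)

lemma IG_map {D D' : Type} [CommRing D] [CommRing D'] (φ : D →+* D') (w : EW ν J → D) :
    (IG w).map φ = IG (φ ∘ w) := by
  rw [IG, IG, Ideal.map_span, ← Set.range_comp]
  rfl

lemma gal (hM : MOD_s) (ϖ : V) [IsLocalization.Away ϖ Ω] (σ : Ω →+* Ω)
    (θ : JW τ g y →+* JW τ g y) (a : V →+* V)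
    (k1 : θ.comp (algebraMap Ω (JW τ g y)) = (algebraMap Ω (JW τ g y)).comp σ)
    (k2 : ∀ v, θ (wJ τ g y v) = wJ τ g y v)
    (k3 : ∀ x, algebraMap V Ω (a x) = σ (algebraMap V Ω x)) :
    ∃ t : BW τ g y (algebraMap V Ω) →+* BW τ g y (algebraMap V Ω),
      t.comp (bB τ g y (algebraMap V Ω)) = (bB τ g y (algebraMap V Ω)).comp a ∧
      (∀ v, t (wB τ g y (algebraMap V Ω) v) = wB τ g y (algebraMap V Ω) v) ∧
      θ.comp (BW τ g y (algebraMap V Ω)).subtype = (BW τ g y (algebraMap V Ω)).subtype.comp t := by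
  obtain ⟨-, m2, m3, m4, m5⟩ := hM K Ω V ν ρ J ϖ τ g y
  have e : (BW τ g y (algebraMap V Ω)).subtype ∘ wB τ g y (algebraMap V Ω) = θ ∘ wJ τ g y := by
    funext v
    rw [Function.comp_apply, Function.comp_apply, coe_w, k2]
  have q1 : (BW τ g y (algebraMap V Ω)).subtype.comp ((bB τ g y (algebraMap V Ω)).comp a) =
      ((algebraMap Ω (JW τ g y)).comp σ).comp (algebraMap V Ω) :=
    RingHom.ext fun x => (m4 (a x)).trans (congrArg (algebraMap Ω (JW τ g y)) (k3 x))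
  have q2 := Cpv.jq_map θ m2
  rw [← RingHom.comp_assoc, k1, ← e] at q2
  obtain ⟨t₁, t₀, f1, f2, f3, f4, f5⟩ := m5 _ _ _ _ _ _
    (BW τ g y (algebraMap V Ω)).subtype_injective q1 q2
  obtain rfl : t₀ = θ := extJ (f3.trans k1.symm) fun v => by rw [f4, coe_w, k2]
  exact ⟨t₁, f1, f2, f5⟩

variable {w : EW ν J → MvPolynomial (XY κ) ℤ} {ε : MvPolynomial (XY κ) K}
  {C₀ : Type} [CommRing C₀] {χ : K →+* C₀} {e : EV κ → C₀} {t : C₀} {I : Ideal C₀}
  {C P H R : Type} [CommRing C] [CommRing P] [CommRing H] [CommRing R] [Algebra C₀ C]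
  [Algebra P C] [Algebra P H] [Algebra H R] [Algebra C R] {wP : EW ν J → P} {eps : P}
  {nn : Ideal P} {z : EW ν J → H} (h : CP p g y w ε χ e t I C P H R wP eps nn z)
  (lB : IsLocalization.Away (p : BW τ g y (algebraMap V Ω)) (JW τ g y))
  (pI : opI (Ideal.span {(p : BW τ g y (algebraMap V Ω))}) ≤ opI (IH (wB τ g y (algebraMap V Ω))))
  (r : BW τ g y (algebraMap V Ω) →+* H) (r0 : JW τ g y →+* R)
  (h1 : r0.comp (BW τ g y (algebraMap V Ω)).subtype = (algebraMap H R).comp r)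
  (h2 : ∀ v, r (wB τ g y (algebraMap V Ω) v) = z v)

/-- The rings of the transfer. -/
noncomputable def rg : RG p (BW τ g y (algebraMap V Ω)) (JW τ g y) P C H R where
  r := r
  r0 := r0
  e := algebraMap P H
  e0 := algebraMap C R
  I := IH (wB τ g y (algebraMap V Ω))
  I' := IG (wB τ g y (algebraMap V Ω))
  I0 := IG (wJ τ g y)
  Z := Ideal.span {(p : P), eps - 1} ⊔ IH wP
  lB := lB
  lP := h.loc
  lH := h.loc₁
  hr := h1
  he := h.sq
  hI0 := (IG_map _ _).trans (congrArg IG (funext (coe_w _)))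
  pZ := Ideal.mem_sup_left (Ideal.subset_span (.inl rfl))
  pI := pI
  rz := h.rz.trans (by rw [Cpv.IH_map, show r ∘ _ = z from funext h2])

lemma good (hE : EXC_s) (hG : GABK_s) (l : ℕ) [Fact l.Prime] (hl : IsUnit (l : P))
    (tb : ∀ η O : (Spec (.of (BW τ g y (algebraMap V Ω)))).Opens,
      η = opI (Ideal.span {(p : BW τ g y (algebraMap V Ω))}) →
      O = opI (IG (wB τ g y (algebraMap V Ω))) ⊓ η →
      ∀ n, Bijective (kpb l (𝟙 _) η O (opI (IH (wB τ g y (algebraMap V Ω)))) O n)) :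
    (rg h lB pI r r0 h1 h2).rd.Good l :=
  RG.good _ hE hG l rfl h.exs (Cpv.cen_fg _ _ _) hl h.hp h.hp₁ (tb _ _ rfl rfl)

theorem core (hK : KL_s) (hO : OEX_s) (hE : EXC_s) (hG : GABK_s) (hR : RHO_s) (hM : MOD_s)
    (hJ : LOCJ_s) (hC : LOCC_s) (hY : YC_s) {p l : ℕ} [Fact p.Prime] [Fact l.Prime] (B : BA l)
    (Γ : SG l) (Ch : Chern l (PadicAlgCl p)) {K ν ρ J φ κ β : Type} [Field K]
    [Algebra K (PadicAlgCl p)] [Fintype ν] [Fintype J] [Fintype κ] [DecidableEq κ] [Fintype β]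
    [DecidableEq β] {o : ν} {d r c : ℕ} {g : ρ → MvPolynomial (ν × ν) K}
    {G : J → MvPolynomial ν K} {F : φ → MvPolynomial {k // k ≠ o} K} {c₀ : K}
    {u : ν → PadicAlgCl p} {ℓ : Fin d → ν → PadicAlgCl p}
    (W : WD (algebraMap K (PadicAlgCl p)) g (yv G r c₀) u ℓ o κ β c) {j₀ : J}
    (hX : XA o d r g G F) (hu : u o = 1) (hI : Iso (algebraMap K (PadicAlgCl p)) F u ℓ)
    (hn : ∀ i, ‖u i ^ r‖ < ‖aeval u (yv G r c₀ (.inl j₀))‖)
    (tb : TBW p l (algebraMap K (PadicAlgCl p)) g (yv G r c₀))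
    [IsLocalization.Away (p : VV p) (PadicAlgCl p)] (hl : IsUnit (l : VV p))
    {C₀ C₀' C P H R : Type} [CommRing C₀] [CommRing C₀'] [CommRing C] [CommRing P] [CommRing H]
    [CommRing R] [Algebra C₀' C] [Algebra P C] [Algebra P H] [Algebra H R] [Algebra C R]
    (ι : C₀ →+* C₀') (ω₀ : PadicAlgCl p →+* C₀') {χ : K →+* C₀} {e₀ : EV κ → C₀} {τ : C₀}
    {f₀ : Fin c → MvPolynomial (XY κ) C₀} {If : Fin c → Ideal C₀} {Is : β → Ideal C₀}
    {wP : EW ν J → P} {eps : P} {nn : Ideal P} {z : EW ν J → H}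
    (hχ : ι.comp χ = ω₀.comp (algebraMap K _)) (he : JP e₀) (hf : ∀ a, Zer e₀ (f₀ a) (If a))
    (hs : ∀ t, Zer e₀ (map χ (W.s t)) (Is t))
    (hτ : ∀ (D : Type) [CommRing D] (ψ : C₀ →+* D) (a : XY κ → D), emat a = ψ ∘ e₀ → ψ τ = 1 →
      ∀ k, eval₂ ψ a (f₀ k) = eval₂ (ψ.comp χ) a (W.f k))
    (cp : CP p g (yv G r c₀) W.w W.eps (ι.comp χ) (ι ∘ e₀) (ι τ) ((∑ a, If a + ∑ t, Is t).map ι)
      C P H R wP eps nn z) (b : VV p →+* P)
    (hb : (algebraMap P C).comp b = ((algebraMap C₀' C).comp ω₀).comp (algebraMap _ _)) :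
    ∃ (rl : ∀ n, KK l (Spec (.of (JW (algebraMap K (PadicAlgCl p)) g (yv G r c₀)))) ⊥
        (opI (IG (wJ _ g (yv G r c₀)))) n →+ EE l (Spec (.of C)) n)
      (w : KK l _ ⊥ (opI (IG (wJ _ g (yv G r c₀)))) (2 * d)),
      (∀ (n m k : ℕ) (h : n + m = k) x x',
        rl k (B.act (𝟙 _) ⊥ _ n m k h x (ke l ⊥ _ m x')) = (rl n x).comp (rl m x') h) ∧
      (∀ (σ : PadicAlgCl p →+* PadicAlgCl p) (θ : JW _ g (yv G r c₀) →+* JW _ g (yv G r c₀))
        (a : VV p →+* VV p) (s₀ : C →+* C) (s : P →+* P) (t : H →+* H),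
        θ.comp (algebraMap _ _) = (algebraMap _ _).comp σ →
        (∀ v, θ (wJ _ g (yv G r c₀) v) = wJ _ g (yv G r c₀) v) → (∀ x, (a x : PadicAlgCl p) = σ x) →
        s₀.comp (algebraMap P C) = (algebraMap P C).comp s →
        t.comp (algebraMap P H) = (algebraMap P H).comp s → (∀ x, s (b x) = b (a x)) →
        s ∘ wP = wP → s eps = eps → (∀ v, t (z v) = z v) →
        ∀ n x, rl n (kpb l (spc θ) ⊥ _ ⊥ _ n x) = epb l (spc s₀) n (rl n x)) ∧
      M2 Γ Ch ((algebraMap C₀' C).comp ω₀) (algebraMap C₀' C ∘ ι ∘ e₀) (algebraMap C₀' C (ι τ))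
        (W.w ∘ .inl) W.t' o ℓ (rl _ w) := by
  obtain ⟨lB, m2', m3, m4, m5⟩ := hM K (PadicAlgCl p) (VV p) ν ρ J (p : VV p)
    (algebraMap K (PadicAlgCl p)) g (yv G r c₀)
  rw [map_natCast] at lB
  have oi := Rdr.oi (A' := JW (algebraMap K (PadicAlgCl p)) g (yv G r c₀))
    (p : BW (algebraMap K (PadicAlgCl p)) g (yv G r c₀) (algebraMap (VV p) (PadicAlgCl p)))
  have pI := (Rdr.rng (A' := JW (algebraMap K (PadicAlgCl p)) g (yv G r c₀))
    (p : BW (algebraMap K (PadicAlgCl p)) g (yv G r c₀)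
      (algebraMap (VV p) (PadicAlgCl p)))).ge.trans (@M2p.le_IH _ _ _ _ _ _ _ _ _ _ _ _ _ _ _ _ _ _ _ c₀
    (algebraMap (VV p) (PadicAlgCl p)) hX oi)
  obtain ⟨r₁, r₀, e1, e2, e3, e4, e5⟩ := m5 H R (algebraMap H R) ((algebraMap P H).comp b)
    ((algebraMap C R).comp ((algebraMap C₀' C).comp ω₀)) z cp.inj
    (by rw [← RingHom.comp_assoc, ← cp.sq, RingHom.comp_assoc, hb]; rfl)
    (by rw [RingHom.comp_assoc, RingHom.comp_assoc, ← hχ]; exact cp.jq)
  have gd := good cp lB pI r₁ r₀ e5 e2 hE hG l (map_natCast b l ▸ hl.map b) tb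
  obtain ⟨w, hw⟩ := m2 hK hO hJ hC hY Γ Ch W hX hu hI hn
  refine ⟨(rg cp lB pI r₁ r₀ e5 e2).rd.rl B, w, (hR l B _ gd).2.2.1,
    fun σ θ a s₀ s t k1 k2 k3 k4 k5 k6 k7 k8 k9 n x => ?_, ?_⟩
  · obtain ⟨t₁, f1, f2, f5⟩ := gal hM (p : VV p) σ θ a k1 k2 k3
    have f6 : t₁ ∘ _ = _ := funext f2
    exact (hR l B _ gd).2.2.2.1 _ (RG.hom _ (rg cp lB pI r₁ r₀ e5 e2) t₁ θ s s₀ t f5 k4
      (extB (fun x => by
        change t (r₁ _) = r₁ (t₁ _)
        rw [show t₁ _ = _ from RingHom.congr_fun f1 x]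
        exact (congrArg t (RingHom.congr_fun e1 x)).trans ((RingHom.congr_fun k5 _).trans
          ((congrArg (algebraMap P H) (k6 x)).trans (RingHom.congr_fun e1 (a x)).symm)))
        fun v => by
          change t (r₁ _) = r₁ (t₁ _)
          rw [f2, e2, k9]) k5
      (((Cpv.IH_map _ _).trans (congrArg IH f6)).ge.trans Ideal.le_radical)
      (((IG_map _ _).trans (congrArg IG f6)).le.trans Ideal.le_radical)
      (((Cpv.cen_map s p eps wP).trans (by rw [k7, k8]; rfl)).ge.trans Ideal.le_radical)) n x gd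
  · obtain ⟨C₁, P₁, H₁, R₁, _, _, _, _, _, _, _, _, _, a, b', c', d', ⟨a1, -⟩, ⟨a2, -⟩,
      ⟨s1, s2, s3, s4, s5⟩, t1, t2, cq⟩ := cp.quo
    have g5 : (d'.comp r₀).comp (BW _ g (yv G r c₀) _).subtype =
        (algebraMap H₁ R₁).comp (c'.comp r₁) := by
      rw [RingHom.comp_assoc, e5, ← RingHom.comp_assoc, s4, RingHom.comp_assoc]
    have g2 : ∀ v, (c'.comp r₁) (wB _ g _ _ v) = (c' ∘ z) v := fun v => congrArg c' (e2 v)
    have gq := good cq lB pI _ _ g5 g2 hE hG l (map_natCast (b'.comp b) l ▸ hl.map (b'.comp b)) tb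
    have h1 := (hR l B _ gd).2.2.2.1 _ (RG.hom _ (rg cq lB pI _ _ g5 g2) (RingHom.id _)
      (RingHom.id _) b' a c' rfl s2 rfl s3
      ((Ideal.map_id _).ge.trans Ideal.le_radical) ((Ideal.map_id _).le.trans Ideal.le_radical)
      ((Cpv.cen_map b' p eps wP).ge.trans Ideal.le_radical)) _ w gq
    refine hw ι ω₀ hχ he hf hs hτ (le_sup_left.trans Ideal.le_radical) cq t1 t2 (b'.comp b)
      (d'.comp r₀) ?_ ?_ (fun v => (congrArg d' (e4 v)).trans (RingHom.congr_fun s4 _))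
      (fun V VS V1 => (hR l B _ gq).2.2.2.2 V VS V1 _)
      (fun W h => h.trans (sup_le_sup_left (rg cq lB pI _ _ g5 g2).ηB.ge W))
      (fun W h => h.trans (sup_le_sup_left (rg cq lB pI _ _ g5 g2).ηP.ge W)) a a1 a2
      (by rw [← RingHom.comp_assoc, s1]) (by rw [← s1]; rfl) (h1.symm.trans (congrArg _ ?_))
    · rw [← RingHom.comp_assoc, ← s2, RingHom.comp_assoc, hb, ← s1]
      rfl
    · rw [RingHom.comp_assoc, e3, ← RingHom.comp_assoc, s5, ← s1]
      rfl
    · exact (congrArg (fun q => kpb l q ⊥ _ ⊥ _ _ w) (Spec.map_id _)).trans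
        (((hK l).1 _ _ _ _).1 w)

end Midr

open Midr in
theorem midr (hK : KL_s) (hO : OEX_s) (hE : EXC_s) (hG : GABK_s) (hR : RHO_s) (hM : MOD_s)
    (hJ : LOCJ_s) (hC : LOCC_s) (hY : YC_s) : MIDR_s := by
  intro p l _ _ hlp B Γ Ch K ν ρ J φ κ β _ _ _ _ _ _ _ _ o d r c g G F c₀ u ℓ W j₀ O C₀ C P H R
    _ _ _ _ _ _ _ _ _ _ _ _ _ _ _ χ e₀ τ I f₀ If Is wP eps nn z hX hu hI hn tb o1 o2 o3 hχ he hf hs
    eI hτ cp
  subst eI
  obtain ⟨_, _, _, _, _, hl, -, hσ⟩ := Cpv.vv p l O hlp o1 o2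
  let : Algebra O H := ((algebraMap P H).comp (algebraMap O P)).toAlgebra
  let : Algebra O R := ((algebraMap H R).comp (algebraMap O H)).toAlgebra
  have : IsScalarTower O P H := .of_algebraMap_eq fun _ => rfl
  have : IsScalarTower O H R := .of_algebraMap_eq fun _ => rfl
  have : IsScalarTower O C R := .of_algebraMap_eq fun x => by
    rw [IsScalarTower.algebraMap_apply O P C]
    exact (RingHom.congr_fun cp.sq _).symm
  let := (Su.tm O (PadicAlgCl p) (PadicAlgCl p) C₀ C).toAlgebra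
  let := (Su.tm O (VV p) (PadicAlgCl p) P C).toAlgebra
  let := (Su.tm O (VV p) (VV p) P H).toAlgebra
  let := (Su.tm O (VV p) (PadicAlgCl p) H R).toAlgebra
  let := (Su.tm O (PadicAlgCl p) (PadicAlgCl p) C R).toAlgebra
  have e1 : (algebraMap (PadicAlgCl p ⊗[O] C₀) (PadicAlgCl p ⊗[O] C)).comp (iL O _ C₀) = iL O _ C :=
    RingHom.ext fun x => congrArg (x ⊗ₜ[O] ·) (map_one (algebraMap C₀ C))
  obtain ⟨rl, w, h1, h2, h3⟩ := core hK hO hE hG hR hM hJ hC hY B Γ Ch W hX hu hI hn tb hl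
    (iR O _ C₀) (iL O _ C₀) hχ he hf hs hτ (cp.bc O (VV p) (PadicAlgCl p)) (iL O (VV p) P)
    (RingHom.ext fun x => (congrArg (algebraMap (VV p) (PadicAlgCl p) x ⊗ₜ[O] ·)
      ((map_one (algebraMap P C)).trans (map_one (algebraMap C₀ C)).symm)))
  rw [e1] at h3
  refine ⟨rl, w, h1, fun σ θ n1 n2 n3 => ?_, h3⟩
  obtain ⟨σ', hσ'⟩ := hσ σ n1
  refine h2 σ θ σ' (tw σ C) (tw σ' P) (tw σ' H) n2 n3 hσ' (RingHom.ext fun x => ?_)
    (RingHom.ext fun x => ?_) (fun _ => rfl) (funext fun v => ?_) ?_ fun v => ?_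
  · induction x with
    | zero => simp only [map_zero]
    | tmul v x => exact congrArg (· ⊗ₜ[O] algebraMap P C x) (hσ' v).symm
    | add x y hx hy => rw [map_add, map_add, hx, hy]
  · induction x with
    | zero => simp only [map_zero]
    | tmul v x => rfl
    | add x y hx hy => rw [map_add, map_add, hx, hy]
  · exact congrArg (· ⊗ₜ[O] wP v) (map_one σ')
  · exact congrArg (· ⊗ₜ[O] eps) (map_one σ')
  · exact congrArg (· ⊗ₜ[O] z v) (map_one σ')

end Pool.Agent.MP_855f4c_ag.A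

end

section

/-! h14a row XAE (helper90): equations of the pair and the map from the double model. -/

set_option autoImplicit false
set_option backward.isDefEq.respectTransparency false

open CategoryTheory Limits AlgebraicGeometry MvPolynomial

namespace Pool.Agent.MP_855f4c_ag.A

open E E3 T T.YJ T.ZP T.Jxd

attribute [local instance] MvPolynomial.gradedAlgebra

namespace Xae

section
variable {ν J ρ K Ω D : Type} [Fintype ν] [Fintype J] [CommRing K] [CommRing Ω] [CommRing D]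
  (τ : K →+* Ω) (g : ρ → MvPolynomial (ν × ν) K) (y : NV ν J → MvPolynomial ν K)

theorem jw_q : JQ ((algebraMap Ω (JW τ g y)).comp τ) g y (wJ τ g y) := (jq_iff _ g y _).1 fun t => by
  rw [← eval₂_map]
  exact (Jxd.ev_mk _ _).trans (Ideal.Quotient.eq_zero_iff_mem.2 (Ideal.subset_span ⟨t, rfl⟩))

theorem jw_lift (ω : Ω →+* D) (w : EW ν J → D) (h : JQ (ω.comp τ) g y w) :
    ∃ φ : JW τ g y →+* D, φ.comp (algebraMap Ω _) = ω ∧ ∀ v, φ (wJ τ g y v) = w v :=
  ⟨Ideal.Quotient.lift _ (eval₂Hom ω w) (Ideal.span_le (I := RingHom.ker _).2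
    (Set.range_subset_iff.2 fun t => (eval₂_map _ _ _ _).trans ((jq_iff _ g y _).2 h t))),
    RingHom.ext fun c => eval₂_C _ _ c, fun v => eval₂_X _ _ v⟩

variable {τ g y}

theorem ig {χ : K →+* D} {G : J → MvPolynomial ν K} {r : ℕ} {c : K} {w : EW ν J → D}
    (h : JQ χ g (yv G r c) w) (he : RK (w ∘ .inl)) (hc : IsUnit c) (x : Spec (.of D)) :
    x ∈ opI (IG w) ↔ ¬ ∀ a i, eval₂ χ (cw w i) (G a) ∈ x.asIdeal := by
  have hp := x.isPrime
  have ex : ∀ {ι : Type} [Fintype ι] {e : ι × ι → D}, RK e → ∃ m, e (m, m) ∉ x.asIdeal := fun he => by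
    by_contra hc
    push Not at hc
    exact hp.ne_top ((Ideal.eq_top_iff_one _).2 (he.1 ▸ Ideal.sum_mem _ fun i _ => hc i))
  refine not_congr ((Ideal.span_le (I := x.asIdeal)).trans (Set.range_subset_iff.trans
    ⟨fun H a i => ?_, fun H ⟨a, b⟩ => ?_⟩))
  · obtain ⟨m, hm⟩ := ex h.2.1
    have e := h.2.2 m m (.inl a) i
    have := (hp.mem_or_mem (e ▸ Ideal.mul_mem_right _ _ (H (a, m)))).resolve_left hm
    rw [yv, Sum.elim_inl, eval₂_mul, eval₂_C] at this
    exact (Ideal.unit_mul_mem_iff_mem _ (hc.map χ)).1 this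
  · obtain ⟨m, hm⟩ := ex he
    have e := h.2.2 (.inl a) b (.inr m) m
    simp only [yv, Sum.elim_inl, Sum.elim_inr, eval₂_mul, eval₂_pow, eval₂_X] at e
    exact (hp.mem_or_mem (e ▸ Ideal.mul_mem_left _ _ (Ideal.mul_mem_left _ _ (H a m)))).resolve_right
      fun H => hm (hp.mem_of_pow_mem _ H)

/-- The double model is a retract of an affine space bundle. -/
theorem ret {Y : Scheme.{0}} {f : Y ⟶ Spec (.of Ω)} {ι : Y ⟶ PP K ν} (h : Lin τ f ι (Set.range g))
    {bl : Ω →+* D} {n : ν × ν → D} (hB : UM (Set.range g) τ bl n)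
    {G : J → MvPolynomial ν K} {r : ℕ} (c : K) (hG : ∀ j, (G j).IsHomogeneous r)
    {q : Spec (.of (JW τ g (yv G r c))) ⟶ Y} (h1 : q ≫ f = spc (algebraMap Ω _))
    (h2 : Ln ((algebraMap Ω _).comp τ) (wJ τ g (yv G r c) ∘ .inl) (q ≫ ι)) :
    ∃ (W : Scheme.{0}) (p : W ⟶ Y) (s : Spec (.of _) ⟶ W) (t : W ⟶ Spec (.of _)),
      GG.AffB p ∧ s ≫ t = 𝟙 _ ∧ t ≫ q = p := by
  obtain ⟨hn, q₀, a1, a2⟩ := h.ex_q hB
  have hw := jw_q τ g (yv G r c)
  let P := MvPolynomial (NV ν J × NV ν J) D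
  let k := algebraMap D P
  obtain ⟨S, hS, -⟩ := Jfs.ln ((k.comp bl).comp τ) (hn.map k) c hG
  obtain ⟨t, t1, t2⟩ := jw_lift τ g (yv G r c) (k.comp bl) (Sum.elim (fun p => k (n p))
    (Jr.rt (fun a i => eval₂ ((k.comp bl).comp τ) (fun l => k (n (l, i))) (yv G r c a)) S X))
    ⟨fun j => (eval₂_comp_left k (bl.comp τ) n _).symm.trans
      (by rw [hB.zero _ ⟨j, rfl⟩, map_zero]), (hS.rt X).1, (hS.rt X).2⟩
  obtain ⟨β, b1, b2⟩ := hB.lift _ _ _ (Set.forall_mem_range.2 hw.1)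
  let s : P →+* JW τ g (yv G r c) := eval₂Hom β (wJ τ g (yv G r c) ∘ .inr)
  have sk : ∀ a, s (k a) = β a := eval₂Hom_C _ _
  have s1 : s.comp (k.comp bl) = algebraMap Ω _ := RingHom.ext fun a =>
    (sk _).trans (DFunLike.congr_fun b1 a)
  refine ⟨_, spc k ≫ q₀, spc s, spc t, Su2.aff_mv _ _ _ _ (h.affB hB a1 a2), ?_,
    h.inj _ _ _ ?_ ?_⟩
  · rw [spc_spc, show s.comp t = .id _ from ?_]
    · exact Spec.map_id _
    refine Ideal.Quotient.ringHom_ext (MvPolynomial.ringHom_ext (fun a => ?_) fun v => ?_)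
    · exact (congrArg s (DFunLike.congr_fun t1 a)).trans (DFunLike.congr_fun s1 a)
    refine (congrArg s (t2 v)).trans ?_
    rcases v with p | p
    · exact (sk _).trans (b2 p)
    have hq : ∀ a i, s (eval₂ ((k.comp bl).comp τ) (fun l => k (n (l, i))) (yv G r c a)) =
        eval₂ ((algebraMap Ω _).comp τ) (cw (wJ τ g (yv G r c)) i) (yv G r c a) := fun a i => by
      rw [eval₂_comp_left, ← RingHom.comp_assoc, s1]
      exact congrArg (eval₂ _ · _) (funext fun l => (sk _).trans (b2 _))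
    have h := hS.map s
    refine (Jr.map_rt s _ S X p).trans ?_
    simp only [hq] at h ⊢
    rw [show (fun q => s (X q)) = wJ τ g (yv G r c) ∘ .inr from funext (eval₂Hom_X' _ _)]
    exact congrFun (Jr.PQ.rt h ⟨hw.2.1, hw.2.2⟩) p
  · rw [Category.assoc, Category.assoc, h1, a1, spc_spc, spc_spc, t1]
  · have := h2.map t
    rw [← RingHom.comp_assoc, t1, show (fun p => t ((wJ τ g (yv G r c) ∘ .inl) p)) =
      fun p => k (n p) from funext fun p => t2 (.inl p)] at this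
    rw [Category.assoc, Category.assoc]
    exact this.uniq (hn.map k) (a2.map k)

end

theorem ex_pt {K Ω A : Type} [Field K] [Field Ω] [IsAlgClosed Ω] (τ : K →+* Ω) [CommRing A]
    [Algebra K A] [Algebra.FiniteType K A] [Nontrivial A] :
    ∃ φ : A →+* Ω, φ.comp (algebraMap K A) = τ := by
  let _ := τ.toAlgebra
  obtain ⟨m, hm⟩ := Ideal.exists_maximal A
  let _ := Ideal.Quotient.field m
  have := finite_of_finite_type_of_isJacobsonRing K (A ⧸ m)
  exact ⟨_, ((IsAlgClosed.lift : A ⧸ m →ₐ[K] Ω).comp (Ideal.Quotient.mkₐ K m)).comp_algebraMap⟩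

theorem ex_ne {ν L : Type} [Fintype ν] [Field L] {v μ : ν → L} (c : Cov v μ) :
    ∃ i, μ i ≠ 0 ∧ v i ≠ 0 := by
  by_contra hc
  refine one_ne_zero (c.symm.trans (Finset.sum_eq_zero fun i _ => ?_))
  exact not_not.1 fun h => hc ⟨i, mul_ne_zero_iff.1 h⟩

end Xae

open Xae in
theorem xae : XAE_s := by
  intro K Ω _ _ _ τ Y f d _ ν _ o ι _ Z j _ _ hι hj ⟨x₀, hx⟩
  have : Smooth f := SmoothOfRelativeDimension.smooth d f
  obtain ⟨n, g, hg⟩ := ex_lin f ι hι
  obtain ⟨m, g', hg'⟩ := ex_lin (j ≫ f) (j ≫ ι) (by rw [Category.assoc, hι])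
  obtain ⟨r, n', G, r0, hG, hGG⟩ := hg'.forms
  have hD : Lin (.id K) (j ≫ f) (j ≫ ι) (Set.range (Sum.elim g (gc G))) := by
    refine hg'.congr fun C _ ω e => ?_
    simp only [Set.forall_mem_range, Sum.forall, Sum.elim_inl, Sum.elim_inr, Prod.forall, gc,
      eval₂_rename]
    refine ⟨fun ⟨a, b⟩ => (hGG C ω e ((hg.mem C ω e).1 (Set.forall_mem_range.2 a)).1).1 b,
      fun a => ?_⟩
    obtain ⟨he, y, y1, y2⟩ := (hg'.mem C ω e).1 (Set.forall_mem_range.2 a)
    exact ⟨Set.forall_mem_range.1 ((hg.mem C ω e).2 ⟨he, y ≫ j, (Category.assoc _ _ _).trans y1,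
      by rw [Category.assoc]; exact y2⟩), (hGG C ω e he).2 a⟩
  have mr : ∀ (C : Type) [CommRing C] (χ : K →+* C) (e : ν × ν → C) (y : Spec (.of C) ⟶ Y),
      (∀ a, eval₂ χ e (g a) = 0) → y ≫ f = spc χ → Ln χ e (y ≫ ι) → ∀ x,
      (y x ∈ Set.range j ↔ ∀ a i, eval₂ χ (fun k => e (k, i)) (G a) ∈ x.asIdeal) := by
    intro C _ χ e y z y1 y2 x
    rw [hg.mem_range hD χ ((hg.mem C χ e).1 (Set.forall_mem_range.2 z)).1 y1 y2]
    simp only [Set.forall_mem_range, Sum.forall, Sum.elim_inl, Sum.elim_inr, Prod.forall, gc,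
      eval₂_rename, RingHom.comp_id, z, zero_mem, implies_true, true_and]
    rfl
  obtain ⟨n'', F, a, -, a2, a3, a4, -, a6, a7⟩ := Aff.aff f d ι hι o
  obtain ⟨z, -⟩ := (a2 x₀).2 fun h => hx ((hj x₀).2 h)
  have : Nontrivial (MvPolynomial {k // k ≠ o} K ⧸ Ideal.span (Set.range F)) :=
    PrimeSpectrum.nonempty_iff_nontrivial.1 ⟨z⟩
  obtain ⟨φ, hφ⟩ := ex_pt (A := MvPolynomial {k // k ≠ o} K ⧸ Ideal.span (Set.range F)) τ
  obtain ⟨u, u1, u2⟩ := ex_mu o 1 fun k => φ (Ideal.Quotient.mk _ (X k))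
  refine ⟨n, n', n'', r, g, G, F, u, ⟨r0, hG, (hg.smooth (um_id _)).formallySmooth,
    fun C _ χ e z => ((hg.mem C χ e).1 (Set.forall_mem_range.2 z)).1, a4,
    fun L _ χ v μ t c hv => ?_, fun L _ χ v μ c z => ?_⟩, (hD.smooth (um_id _)).formallySmooth, u1,
    fun i => ?_, fun c hc => ?_⟩
  · have h0 : v o ≠ 0 := fun h0 => by
      obtain ⟨i, -, hi⟩ := ex_ne c
      by_cases hk : i = o
      · exact hi (hk ▸ h0)
      · exact hi ((hv ⟨i, hk⟩).trans (by rw [h0, zero_mul]))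
    refine (Set.forall_mem_range.symm.trans (hg.pt χ v μ c o h0.isUnit)).trans
      ⟨fun ⟨y, _, y2⟩ => (a7 L χ v t h0 hv).2 fun G' k hk hG' hy => ?_, fun hF =>
        ⟨spc (Aff.lf F χ t hF) ≫ a, ?_, ?_⟩⟩
    · have := hy (y (⟨⊥, Ideal.isPrime_bot⟩ : PrimeSpectrum L))
      rw [← Scheme.Hom.comp_apply, y2, pt_mem _ v o _ hG' hk, not_not] at this
      exact this
    · rw [Category.assoc, a3, spc_spc, Aff.lf_alg]
    · have := a6 L (Aff.lf F χ t hF) v h0.isUnit fun k => by rw [Aff.lf_mk, eval₂_X, hv]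
      rw [Aff.lf_alg] at this
      exact (Category.assoc _ _ _).trans this
  · obtain ⟨i, hμ, hi⟩ := ex_ne c
    obtain ⟨y, y1, y2⟩ := (hg.pt χ v μ c i hi.isUnit).1 (Set.forall_mem_range.2 z)
    let x : Spec (.of L) := (⟨⊥, Ideal.isPrime_bot⟩ : PrimeSpectrum L)
    have e1 := mr L χ _ y z y1 (y2 ▸ ln_pt _ v μ i hi.isUnit) x
    have e2 := pt_mem χ v i hi.isUnit (xm K o) one_pos x
    rw [eval₂_X] at e2
    rw [hj, ← Scheme.Hom.comp_apply, y2] at e1
    refine Iff.trans ?_ (e1.symm.trans (not_iff_not.1 e2))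
    have e3 : ∀ a k, eval₂ χ (fun l => v l * μ k) (G a) = eval₂ χ v (G a) * μ k ^ r :=
      fun a k => hom_scale χ v (μ k) (a := G a) (hG a)
    exact ⟨fun H a k => (e3 a k).trans (by rw [H, zero_mul]), fun H a =>
      (mul_eq_zero.1 ((e3 a i).symm.trans (H a i))).resolve_right (pow_ne_zero _ hμ)⟩
  · rw [funext u2, ← hφ]
    refine (eval₂_comp_left φ _ _ _).symm.trans ?_
    rw [Jxd.ev_mk, Ideal.Quotient.eq_zero_iff_mem.2 (Ideal.subset_span (Set.mem_range_self i)),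
      map_zero]
  have hΩ : Lin τ _ _ _ := hg.bc (IsPullback.of_hasPullback (Over.mk (spc τ)).hom f).flip
  have hw := jw_q τ g (yv G r c)
  obtain ⟨he, q, q1, q2⟩ := (hΩ.mem _ _ _).1 (Set.forall_mem_range.2 hw.1)
  refine ⟨q, fun x => (ig hw he hc.isUnit x).trans (not_congr (mr _ _ _
    (q ≫ pullback.snd _ _) hw.1 ?_ (by rw [Category.assoc]; exact q2) x).symm),
    ret hΩ (um _ τ) c hG q1 q2, fun ψ h θ t1 t2 => ?_⟩
  · rw [Category.assoc, ← pullback.condition, reassoc_of% q1]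
    exact spc_spc _ _
  have e1 : fa f ψ h ≫ pullback.fst _ _ = pullback.fst _ _ ≫ spc ψ := pullback.lift_fst _ _ _
  have e2 : fa f ψ h ≫ pullback.snd _ _ = pullback.snd _ _ := pullback.lift_snd _ _ _
  refine hΩ.inj _ _ _ ?_ ?_
  · rw [Category.assoc, Category.assoc, e1, q1, reassoc_of% q1, spc_spc, spc_spc, t1]
  · have := q2.map θ
    rw [← RingHom.comp_assoc, t1, RingHom.comp_assoc, spc_inj ((spc_spc _ _).symm.trans h),
      show (fun p => θ ((wJ τ g (yv G r c) ∘ .inl) p)) = wJ τ g (yv G r c) ∘ .inl from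
        funext fun p => t2 _] at this
    rw [Category.assoc, Category.assoc, reassoc_of% e2]
    exact this.uniq he q2

end Pool.Agent.MP_855f4c_ag.A

end
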