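import Pool.Agent.MP_855f4c_ag.TC.Th
import Pool.Agent.MP_855f4c_ag.TC.Tk
import Pool.Agent.MP_855f4c_ag.AC.Af
import Pool.Agent.MP_855f4c_ag.AC.Ai

set_option linter.all false

section

section

/-! h14a, section 1: Gabber's theorem and integral maps for sheaves extended by zero. -/

set_option autoImplicit false
set_option backward.isDefEq.respectTransparency false

open CategoryTheory Limits Abelian Opposite AlgebraicGeometry Function

namespace Pool.Agent.MP_855f4c_ag.T.Gabk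

open E E3 E4

variable {T T' : Scheme.{0}}

/-- From the cohomology of `F` to `Ext(M, F)` for all constant `M`. -/
theorem mb_cst (g : T' ⟶ T) {F : Sh (Scheme.etaleTopology.over T)} (h : GG.Hs (𝟙 T) g F)
    (M : Ab.{1}) : Exce.MB.{1} (pbe g) F ((cst T).obj M) := by
  obtain ⟨e⟩ := Exce.cst_fr T
  let v : (Over.map g).obj (E.top T') ⟶ E.top T := Over.homMk g (by simp)
  have := Exce.fr_iso g v (IsPullback.of_vert_isIso ⟨by simp [v]⟩)
  have h0 : Exce.MB.{1} (pbe g) F ((fr (Scheme.etaleTopology.over T)).obj (E.top T)) :=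
    (Exce.mb_iff (frPs (Over.map g) _ _ (E.top T') ≫ (pbe g).map ((fr _).map v))
      (pre_bij _ _)).2 fun q => by
      rw [Exce.cmp_map]
      exact (slH_bij g _ F q).comp ((GG.hs_iff v).2 h q)
  have := (pbpf g).leftAdjoint_preservesColimits.{1, 1}
  exact Tel.telc Tel.good_cst (Ψ := cst T ⋙ pbe g)
    ⟨fun S hS => (Tel.good_cst.ex S hS).map_of_exact (pbe g),
      fun ι => have := (Tel.good_cst (X := T)).sum ι; inferInstance⟩ _ (𝟙 _) F (h0.of_iso e.hom) M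

lemma ez_tc {l : ℕ} (O : T.Opens) {F : Sh (Scheme.etaleTopology.over T)} (hF : Tc l F) :
    Tc l ((ez O).obj F) := ⟨CLZ.ez_cc hF.1, Tor.of_mono ((ezι O).app F) hF.2⟩

/-- `g^* F_O = 0` if `g` misses `O`. -/
lemma pb_ez_zero (g : T' ⟶ T) {O : T.Opens} (h : ∀ t, g t ∉ O)
    (F : Sh (Scheme.etaleTopology.over T)) : IsZero ((pbe g).obj ((ez O).obj F)) := by
  rw [IsZero.iff_id_eq_zero]
  ext W s
  exact Subtype.ext (CLZ.van (W := (Over.map g).obj W.unop) (fun t => h (W.unop.hom t)) s)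

section gab
variable {l : ℕ} [Fact l.Prime] {B : Type} [CommRing B] {I : Ideal B} (hl : IsUnit (l : B))
  (hI : HP B I)
include hl hI

/-- Gabber's theorem for `Ext(M, F)`. -/
theorem gab_mb {F : Sh (Scheme.etaleTopology.over (Spec (.of B)))} (hF : Tc l F) (M : Ab.{1}) :
    Exce.MB.{1} (pbe (spc (Ideal.Quotient.mk I))) F ((cst _).obj M) :=
  mb_cst _ ((GG.hs_hm (B := B ⧸ I) _ F).1 (GG.gab_of PB.affv_final l _ B (B ⧸ I) _ F hl
    Ideal.Quotient.mk_surjective (by rwa [Ideal.Quotient.algebraMap_eq, Ideal.mk_ker]) hF)) M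

variable {O : (Spec (.of B)).Opens} (hO : O ≤ opI I)
include hO

/-- `Ext(M, F_O) = 0` if `O` misses the zero set of `I`. -/
theorem gab_cst {F : Sh (Scheme.etaleTopology.over (Spec (.of B)))} (hF : Tc l F) (M : Ab.{1})
    (n : ℕ) (x : Ext ((cst _).obj M) ((ez O).obj F) n) : x = 0 := by
  refine (gab_mb hl hI (ez_tc O hF) M n).1 ?_
  have hz := pb_ez_zero (spc (Ideal.Quotient.mk I)) (O := O)
    (fun t ht => hO ht fun a ha => by
      change Ideal.Quotient.mk I a ∈ t.asIdeal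
      rw [Ideal.Quotient.eq_zero_iff_mem.2 ha]
      exact zero_mem _) F
  rw [map_zero, ← post_id (E.cmp _ _ _ n x), hz.eq_zero_of_src (𝟙 _), post_apply, Ext.mk₀_zero,
    Ext.comp_zero]

/-- **GAB**: `Ext(L, L_O) = 0`. -/
theorem gab (n : ℕ) (x : Ext (Linf l _) ((ez O).obj (Linf l _)) n) : x = 0 :=
  gab_cst hl hI hO (G0.linf_Tc l _) (.of (ULift.{1} (QZ l))) n x

/-- **GAB**, source `A_⊥`. -/
theorem gab_bot (n : ℕ) (x : Ext (AU l ⊥) ((ez O).obj (Linf l _)) n) : x = 0 := by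
  have : IsIso (πU l (⊥ : (Spec (.of B)).Opens)) := by
    have hz : (ezι ⊥).app (Linf l (Spec (.of B))) = 0 := by
      ext W s
      exact CLZ.van (O := ⊥) (W := W.unop) (fun _ h => h) s
    exact (cokernel.π_of_zero hz :)
  exact (pre_bij (πU l ⊥) _ n).1 ((gab hl hI hO n _).trans (map_zero _).symm)

end gab

section int
variable {l : ℕ} (g : T' ⟶ T) [IsIntegralHom g] {O : T.Opens}
  (hg : ∀ (k : Type) [Field k] [IsAlgClosed k] (x : Spec (.of k) ⟶ T), (∀ z, x z ∈ O) →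
    ∃! y : Spec (.of k) ⟶ T', y ≫ g = x) (hl : Linv l T)
  {F : Sh (Scheme.etaleTopology.over T)} (hF : Cc l F)
include hg hl hF

end int

end Pool.Agent.MP_855f4c_ag.T.Gabk

end

end

section

/-! h14a rows INT and GABK. -/

set_option autoImplicit false
set_option backward.isDefEq.respectTransparency false

open CategoryTheory Limits Abelian Opposite AlgebraicGeometry Function

namespace Pool.Agent.MP_855f4c_ag.A

open E E3 E4 T

namespace Intg

variable (l : ℕ) [Fact l.Prime] {T T' : Scheme.{0}} (g : T' ⟶ T)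

end Intg

theorem gabk : GABK_s := fun _ _ _ _ _ hl h n x => Gabk.gab_bot hl h le_rfl n x

end Pool.Agent.MP_855f4c_ag.A

end

section

/-! h14a row KL: the laws of the pull-backs with supports. -/

set_option autoImplicit false
set_option backward.isDefEq.respectTransparency false

open CategoryTheory Limits Abelian Opposite AlgebraicGeometry Function

namespace Pool.Agent.MP_855f4c_ag.A

open E E3 E4 T T.Pbc

namespace Kl

variable {l : ℕ} [Fact l.Prime] {T T' T'' : Scheme.{0}} {U O : T.Opens} {U' O' : T'.Opens}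
  {U'' O'' : T''.Opens}

lemma rp_Rp (g : T' ⟶ T) (h : U' ≤ g ⁻¹ᵁ U) : Rp l g U' U (rp l g U' U) := by
  have e : ∃ a, Rp l g U' U a := exRp g h
  rw [rp, dif_pos e]
  exact e.choose_spec

lemma rf_Rf (g : T' ⟶ T) (h : g ⁻¹ᵁ O ≤ O') : Rf l g O' O (rf l g O' O) := by
  have e : ∃ a, Rf l g O' O a := Lam.exRf g h
  rw [rf, dif_pos e]
  exact e.choose_spec

/-- The bridge to the pull-back of the file `KPB`. -/
lemma kpb_lam (g : T' ⟶ T) (hU : U' ≤ g ⁻¹ᵁ U) (hO : g ⁻¹ᵁ O ≤ O') (n : ℕ) :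
    kpb l g U' O' U O n = Lam.kpb l g hU hO n :=
  (Lam.kpb_eq hU hO (rp_Rp g hU) (rf_Rf g hO) n).symm

lemma kpb_id (U O : T.Opens) {n : ℕ} (x : KK l T U O n) : kpb l (𝟙 T) U O U O n x = x :=
  (DFunLike.congr_fun (kpb_lam (𝟙 T) le_rfl le_rfl n) x).trans (Lam.kpb_id _ _ x)

lemma spb_le {U₁ U₂ : T.Opens} (h : U₁ ≤ U₂) {b : AU l U₁ ⟶ AU l U₂} (hb : πU l U₁ ≫ b = πU l U₂)
    {n : ℕ} (x : SS l T U₂ n) : spb l (𝟙 T) U₁ U₂ n x = pre b _ n x := by
  rw [spb, gpb_id, (cancel_epi (πU l U₁)).1 ((Lam.Rp_id' (rp_Rp (𝟙 T) h)).trans hb.symm)]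

lemma spb_id (U : T.Opens) {n : ℕ} (x : SS l T U n) : spb l (𝟙 T) U U n x = x := by
  rw [spb_le le_rfl (Category.comp_id _), pre_id]

lemma ks_bij (U : T.Opens) (n : ℕ) : Bijective (ks l U ⊤ n) :=
  have : IsIso (ιU l (⊤ : T.Opens)) := Lam.ι_top
  post_bij _ _ n

lemma se_bij (n : ℕ) : Bijective (se l (⊥ : T.Opens) n) :=
  have := Lam.π_bot (l := l) (T := T)
  pre_bij _ _ n

lemma se_sone : se l (⊥ : T.Opens) 0 (sone l ⊥) = one l T := by
  have e : ∃ x : SS l T ⊥ 0, se l ⊥ 0 x = one l T := (se_bij 0).2 _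
  rw [sone, dif_pos e]
  exact e.choose_spec

lemma se_comp {n m k : ℕ} (h : n + m = k) (x : SS l T U n) (y : EE l T m) :
    se l U k (x.comp y h) = (se l U n x).comp y h := pre_comp _ x y h

lemma ks_kpb (g : T' ⟶ T) (hO : g ⁻¹ᵁ O ≤ O') {n : ℕ} (x : KK l T U O n) :
    ks l U' O' n (kpb l g U' O' U O n x) = spb l g U' U n (ks l U O n x) :=
  Lam.xpb_post g _ (rf_Rf g hO) x

lemma se_spb (g : T' ⟶ T) (hU : U' ≤ g ⁻¹ᵁ U) {n : ℕ} (x : SS l T U n) :
    se l U' n (spb l g U' U n x) = epb l g n (se l U n x) := pre_gpb (rp_Rp g hU) x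

lemma ke_kpb (g : T' ⟶ T) (hU : U' ≤ g ⁻¹ᵁ U) (hO : g ⁻¹ᵁ O ≤ O') {n : ℕ} (x : KK l T U O n) :
    ke l U' O' n (kpb l g U' O' U O n x) = epb l g n (ke l U O n x) :=
  (congrArg (se l U' n) (ks_kpb g hO x)).trans (se_spb g hU _)

lemma spb_comp (g : T' ⟶ T) {n m k : ℕ} (h : n + m = k) (x : SS l T U n) (y : EE l T m) :
    spb l g U' U k (x.comp y h) = (spb l g U' U n x).comp (epb l g m y) h := gpb_mul g _ x y h

lemma spb_spb {g' : T'' ⟶ T'} {g : T' ⟶ T} {g'' : T'' ⟶ T} (e : g' ≫ g = g'')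
    (h' : U'' ≤ g' ⁻¹ᵁ U') (h : U' ≤ g ⁻¹ᵁ U) {n : ℕ} (x : SS l T U n) :
    spb l g' U'' U' n (spb l g U' U n x) = spb l g'' U'' U n x :=
  gpb_Rp e (rp_Rp g' h') (rp_Rp g h) (rp_Rp g'' (by subst e; exact fun t ht => h (h' ht))) x

lemma kpb_kpb {g' : T'' ⟶ T'} {g : T' ⟶ T} {g'' : T'' ⟶ T} (e : g' ≫ g = g'')
    (h' : U'' ≤ g' ⁻¹ᵁ U') (h : U' ≤ g ⁻¹ᵁ U) (k : g ⁻¹ᵁ O ≤ O') (k' : g' ⁻¹ᵁ O' ≤ O'') {n : ℕ}
    (x : KK l T U O n) :
    kpb l g' U'' O'' U' O' n (kpb l g U' O' U O n x) = kpb l g'' U'' O'' U O n x := by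
  have h'' : U'' ≤ g'' ⁻¹ᵁ U := by subst e; exact fun t ht => h (h' ht)
  have k'' : g'' ⁻¹ᵁ O ≤ O'' := by subst e; exact fun t ht => k' (k ht)
  rw [kpb_lam g' h' k', kpb_lam g h k, kpb_lam g'' h'' k'']
  exact Lam.kpb_kpb e h' k' h k h'' k'' x

/-- Bijectivity of `spb` in terms of `Exce.MB`. -/
lemma spb_bij_iff (g : T' ⟶ T) (eU : U' = g ⁻¹ᵁ U) :
    (∀ n, Bijective (spb l g U' U n)) ↔ Exce.MB.{1} (pbe g) (Linf l T) (AU l U) := by
  subst eU
  have := Rp_isIso (rp_Rp (l := l) (U := U) g le_rfl)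
  exact ⟨Lam.mb_of_xpb g (rp l g _ U) (lpb l g).hom, Lam.xpb_bij g (rp l g _ U) (lpb l g).hom⟩

end Kl

open Kl in
theorem kl : KL_s := fun _ _ =>
  ⟨fun _ U O n => ⟨kpb_id U O, spb_id U, ks_bij U n, se_bij n, se_sone,
      fun _ _ h x y => se_comp h x y⟩,
    fun _ _ g _ _ _ _ _ h => ⟨rp_Rp g h, fun k x => ks_kpb g k x, se_spb g h,
      fun _ _ e x y => spb_comp g e x y⟩,
    fun _ _ _ _ _ _ _ _ _ _ _ _ _ e h' h => ⟨spb_spb e h' h, fun k k' x => kpb_kpb e h' h k k' x⟩⟩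

end Pool.Agent.MP_855f4c_ag.A

end
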