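import Pool.Agent.MP_855f4c_ag.AC.Ap
import Pool.Agent.MP_855f4c_ag.AC.As
import Pool.Agent.MP_855f4c_ag.AC.Am
import Pool.Agent.MP_855f4c_ag.AC.Al
import Pool.Agent.MP_855f4c_ag.AC.An

set_option linter.all false

section

/-! h14a row LOCC: the local class exists, is unique and is stable under pull-back. -/

set_option autoImplicit false
set_option backward.isDefEq.respectTransparency false

open CategoryTheory Limits Abelian Opposite AlgebraicGeometry Function MvPolynomial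

namespace Pool.Agent.MP_855f4c_ag.A

open E E3 E4 T

namespace Locc

variable {Ω ν D A : Type} [Fintype ν] [CommRing D] [CommRing A] {d : ℕ}

lemma lt_map [CommRing Ω] {ω : Ω →+* D} {e : ν × ν → D} {o : ν} {ℓ : Fin d → ν → Ω}
    {t : Fin d → D} (h : Lt ω e o ℓ t) (ψ : D →+* A) {ω' : Ω →+* A} {e' : ν × ν → A}
    (h1 : ψ.comp ω = ω') (h2 : ψ ∘ e = e') : Lt ω' e' o ℓ (ψ ∘ t) := by
  subst h1 h2
  refine ⟨?_, fun a j => by simpa using congrArg ψ (h.2 a j)⟩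
  have := congrArg (Ideal.map ψ) h.1
  rwa [Ideal.map_span, ← Set.range_comp, Ideal.map_top] at this

lemma lt_uniq [CommRing Ω] {ω : Ω →+* D} {e : ν × ν → D} {o : ν} {ℓ : Fin d → ν → Ω}
    {t t' : Fin d → D} (h : Lt ω e o ℓ t) (h' : Lt ω e o ℓ t') : t = t' := funext fun a => by
  have : (⊤ : Ideal D) ≤ RingHom.ker (RingHom.id D) ⊔ LinearMap.ker (LinearMap.mul D D (t a - t' a)) := by
    rw [← h.1]
    refine le_sup_of_le_right (Ideal.span_le.2 ?_)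
    rintro _ ⟨j, rfl⟩
    exact (sub_mul _ _ _).trans (sub_eq_zero.2 ((h.2 a j).trans (h'.2 a j).symm))
  rw [(RingHom.injective_iff_ker_eq_bot _).1 injective_id, bot_sup_eq] at this
  exact sub_eq_zero.1 ((mul_one _).symm.trans (this (Submodule.mem_top (x := 1))))

lemma opI_range (ψ : D →+* A) (t : Fin d → D) :
    opI (Ideal.span (Set.range (ψ ∘ t))) = spc ψ ⁻¹ᵁ opI (Ideal.span (Set.range t)) := by
  rw [← Exce.opI_map, Ideal.map_span, ← Set.range_comp]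

lemma cover {U : (Spec (.of D)).Opens} {θ : D} (h : U ⊔ opI (Ideal.span {θ}) = ⊤) (ψ : D →+* A) :
    spc ψ ⁻¹ᵁ U ⊔ opI (Ideal.span {ψ θ}) = ⊤ := by
  rw [← Set.image_singleton, ← Ideal.map_span, Exce.opI_map]
  exact congrArg (spc ψ ⁻¹ᵁ ·) h

variable {l : ℕ} [Fact l.Prime]

/-- Restriction to `D(θ)` is bijective. -/
lemma loc_bij (hO : OEX_s) {U : (Spec (.of D)).Opens} {θ : D}
    (h : U ⊔ opI (Ideal.span {θ}) = ⊤) (n : ℕ) :
    Bijective (spb l (spc (algebraMap D (Localization.Away θ)))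
      (spc (algebraMap D (Localization.Away θ)) ⁻¹ᵁ U) U n) := by
  have : IsOpenImmersion (spc (algebraMap D (Localization.Away θ))) :=
    IsOpenImmersion.of_isLocalization θ
  refine (hO l _ _ _ _ ⊤ U ⊤ n (top_unique (h.ge.trans (sup_le_sup_left (fun x hx => ?_) _))) rfl).1
  exact (PrimeSpectrum.localization_away_comap_range (Localization.Away θ) θ).ge
    fun hc => hx (Ideal.span_le.2 (Set.singleton_subset_iff.2 hc))

variable [Field Ω] (G : SG l) (Ch : Chern l Ω)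

/-- The product of the Thom classes of the functions `t`. -/
noncomputable abbrev tk (ω : Ω →+* D) (t : Fin d → D) (U : (Spec (.of D)).Opens) :
    SS l (Spec (.of D)) U (2 * d) :=
  G.thk ((List.finRange d).map fun a => thF Ch ω (t a)) U (2 * d) (by simp)

lemma le_sup (ω : Ω →+* D) (t : Fin d → D) :
    opI (Ideal.span (Set.range t)) ≤ sup ((List.finRange d).map fun a => thF Ch ω (t a)) :=
  Nt0.opI_le _ _ fun b => Nt0.le_sup' (List.mem_map_of_mem (f := fun a => thF Ch ω (t a))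
    (List.mem_finRange b))

lemma tk_nat (hT : THS_s) (ω : Ω →+* D) (t : Fin d → D) {U : (Spec (.of D)).Opens}
    (hU : U ≤ opI (Ideal.span (Set.range t))) (ψ : D →+* A) {V : (Spec (.of A)).Opens}
    (hV : V ≤ spc ψ ⁻¹ᵁ U) {ω' : Ω →+* A} (h : ψ.comp ω = ω') :
    spb l (spc ψ) V U (2 * d) (tk G Ch ω t U) = tk G Ch ω' (ψ ∘ t) V := by
  have p (b) := Nt0.triv Ch ω Nt0.jp0 (Nt0.hg0 (t b)) (Nt0.zer0 _) ψ
    (fun v => v.elim (·.1.elim0) (·.1.elim0)) (funext fun v => v.1.elim0) ω' h _ (eval₂_C _ _ _)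
  have hV' : V ≤ opI (Ideal.span (Set.range (ψ ∘ t))) := by
    rw [opI_range]
    exact fun _ hx => hU (hV hx)
  have := (hT l G _ _ U (2 * d) (by simp) (hU.trans (le_sup Ch ω t))).2.2 _ (spc ψ) _ V 1 (by simp)
    hV (hV'.trans (le_sup Ch ω' (ψ ∘ t)))
    (Nt0.fa2 _ (fun a => thF Ch ω' ((ψ ∘ t) a)) (fun a => thF Ch ω (t a)) p _)
  rwa [one_pow, one_smul] at this

end Locc

open Locc in
theorem locc (hK : KL_s) (hO : OEX_s) (hT : THS_s) : LOCC_s := by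
  intro l _ Ω ν D _ _ _ G Ch ω e o d ℓ U
  have cc {A A' : Type} [CommRing A] [CommRing A'] (ψ : D →+* A) (α : A →+* A')
      {V : (Spec (.of A)).Opens} {V' : (Spec (.of A')).Opens} (h : V ≤ spc ψ ⁻¹ᵁ U)
      (h' : V' ≤ spc α ⁻¹ᵁ V) (w : SS l _ U (2 * d)) :
      spb l (spc α) V' V _ (spb l (spc ψ) V U _ w) = spb l (spc (α.comp ψ)) V' U _ w :=
    ((hK l).2.2 _ _ _ _ _ _ V' ⊤ V ⊤ U ⊤ _ (GG.spc_comp ψ α).symm h' h).1 w
  have k0 (w) (h : LocC G Ch ω e o ℓ U w) {A : Type} [CommRing A] (ψ : D →+* A) :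
      ∃ (θ : A) (t : Fin d → Localization.Away θ), spc ψ ⁻¹ᵁ U ⊔ opI (Ideal.span {θ}) = ⊤ ∧
        Lt ((algebraMap A _).comp (ψ.comp ω)) (algebraMap A (Localization.Away θ) ∘ ψ ∘ e) o ℓ t ∧
        spc (algebraMap A (Localization.Away θ)) ⁻¹ᵁ spc ψ ⁻¹ᵁ U ≤ opI (Ideal.span (Set.range t)) ∧
        spb l (spc (algebraMap A (Localization.Away θ)))
          (spc (algebraMap A (Localization.Away θ)) ⁻¹ᵁ spc ψ ⁻¹ᵁ U) _ (2 * d)
          (spb l (spc ψ) (spc ψ ⁻¹ᵁ U) U _ w) = tk G Ch ((algebraMap A _).comp (ψ.comp ω)) t _ := by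
    obtain ⟨θ, t, h1, h2, h3, h4⟩ := h
    let α := algebraMap A (Localization.Away (ψ θ))
    let β := algebraMap D (Localization.Away θ)
    let ψ' : Localization.Away θ →+* Localization.Away (ψ θ) :=
      IsLocalization.Away.lift θ (g := α.comp ψ) (IsLocalization.Away.algebraMap_isUnit (ψ θ))
    have e1 : ψ'.comp β = α.comp ψ := IsLocalization.Away.lift_comp θ _
    have e2 : ψ'.comp (β.comp ω) = α.comp (ψ.comp ω) := congrArg (·.comp ω) e1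
    have e3 : spc α ⁻¹ᵁ spc ψ ⁻¹ᵁ U = spc ψ' ⁻¹ᵁ spc β ⁻¹ᵁ U := by
      rw [← Scheme.Hom.comp_preimage, ← Scheme.Hom.comp_preimage, ← GG.spc_comp, ← GG.spc_comp, e1]
    refine ⟨ψ θ, ψ' ∘ t, cover h1 ψ, lt_map h2 ψ' e2 (funext fun v => congr($e1 (e v))), ?_, ?_⟩
    · rw [opI_range]
      exact e3.le.trans fun _ hx => h3 hx
    · rw [cc ψ α le_rfl le_rfl, ← e1, ← cc β ψ' le_rfl e3.le, h4]
      exact tk_nat G Ch hT _ t h3 ψ' e3.le e2
  have k1 (w) (h : LocC G Ch ω e o ℓ U w) {A : Type} [CommRing A] (ψ : D →+* A) (t : Fin d → A)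
      (h1 : Lt (ψ.comp ω) (ψ ∘ e) o ℓ t) (h2 : spc ψ ⁻¹ᵁ U ≤ opI (Ideal.span (Set.range t))) :
      spb l (spc ψ) (spc ψ ⁻¹ᵁ U) U _ w = tk G Ch (ψ.comp ω) t _ := by
    obtain ⟨θ, t', a1, a2, -, a4⟩ := k0 w h ψ
    refine (loc_bij hO a1 _).1 (a4.trans ?_)
    rw [lt_uniq a2 (lt_map h1 _ rfl rfl)]
    exact (tk_nat G Ch hT _ t h2 _ le_rfl rfl).symm
  refine ⟨fun θ t h1 h2 h3 => ?_, fun w w' h ⟨θ, t, h1, h2, h3, h4⟩ => ?_, ?_⟩
  · obtain ⟨w, hw⟩ := (loc_bij (l := l) hO h1 (2 * d)).2 (tk G Ch ((algebraMap D _).comp ω) t _)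
    exact ⟨w, θ, t, h1, h2, h3, hw⟩
  · exact (loc_bij hO h1 _).1 ((k1 w h _ t h2 h3).trans h4.symm)
  · rintro w h A _ ψ _ rfl
    exact ⟨k0 w h ψ, k1 w h ψ⟩

end Pool.Agent.MP_855f4c_ag.A

end

section

/-! h14a row EPS2: the map `ε`, its kernel and its equivariance. -/

set_option autoImplicit false
set_option backward.isDefEq.respectTransparency false

open CategoryTheory Limits Abelian Opposite AlgebraicGeometry Function MvPolynomial

namespace Pool.Agent.MP_855f4c_ag.A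

open E E3 E4 T

namespace Ep2

variable {l : ℕ} [Fact l.Prime] (G : SG l) {D T D₁ T₁ : Scheme.{0}}

/-- `O` is the complement of the image of `i`. -/
def Co (i : D ⟶ T) (O : T.Opens) : Prop := ∀ x : T, x ∈ O ↔ x ∉ Set.range i

/-- The Gysin map without supports. -/
noncomputable def ge (i : D ⟶ T) [IsClosedImmersion i] (O : T.Opens) (n k m : ℕ) (h : n + k = m)
    (θ : SS l T O k) : EE l D n →+ EE l T m :=
  (se l ⊥ m).comp ((G.gy i O ⊥ ⊥ n k m h θ).comp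
    (AddEquiv.ofBijective _ (Kl.se_bij n)).symm.toAddMonoidHom)

lemma pbot (g : D ⟶ T) : g ⁻¹ᵁ ⊥ ≤ ⊥ := fun _ h => h

lemma sq {g' : D₁ ⟶ D} {i : D ⟶ T} {i₁ : D₁ ⟶ T₁} {g : T₁ ⟶ T} (e : i₁ ≫ g = g' ≫ i)
    (U : T.Opens) : i₁ ⁻¹ᵁ g ⁻¹ᵁ U = g' ⁻¹ᵁ i ⁻¹ᵁ U := congr($e ⁻¹ᵁ U)

section
variable {i : D ⟶ T} [IsClosedImmersion i] {O : T.Opens} {n k m : ℕ} (h : n + k = m)

lemma ge_bot (θ : SS l T O k) (γ : SS l D ⊥ n) :
    ge G i O n k m h θ (se l ⊥ n γ) = se l ⊥ m (G.gy i O ⊥ ⊥ n k m h θ γ) :=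
  congrArg (fun y => se l ⊥ m (G.gy i O ⊥ ⊥ n k m h θ y))
    ((AddEquiv.ofBijective _ (Kl.se_bij n)).symm_apply_apply γ)

lemma ge_smul (N : ℕ) (θ : SS l T O k) (γ : EE l D n) :
    ge G i O n k m h (N • θ) γ = N • ge G i O n k m h θ γ := by
  obtain ⟨γ, rfl⟩ := (Kl.se_bij n).2 γ
  rw [ge_bot, ge_bot, map_nsmul, AddMonoidHom.nsmul_apply, map_nsmul]

lemma comp_nsmul (N : ℕ) (x : EE l T n) (y : EE l T k) : x.comp (N • y) h = N • x.comp y h :=
  map_nsmul (Ext.bilinearComp _ _ _ n k m h x) N y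

variable (hl : Linv l T) (hO : Co i O) (θ : SS l T O k)
include hl hO

lemma ge_res (γ : EE l D n) :
    epb l i m (ge G i O n k m h θ γ) = γ.comp (epb l i k (se l O k θ)) h := by
  obtain ⟨γ, rfl⟩ := (Kl.se_bij n).2 γ
  rw [ge_bot, ← Kl.se_spb i (U' := ⊥) bot_le,
    G.gy_res i O ⊥ ⊥ ⊥ n k m h θ γ hl hO (pbot i) bot_le, Kl.spb_id, Kl.se_comp]

lemma ge_nat {i₁ : D₁ ⟶ T₁} [IsClosedImmersion i₁] {g : T₁ ⟶ T} {g' : D₁ ⟶ D} {P : T₁.Opens}
    (e : i₁ ≫ g = g' ≫ i) (hP : Co i₁ P) (hg : P ≤ g ⁻¹ᵁ O) (γ : EE l D n) :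
    epb l g m (ge G i O n k m h θ γ) = ge G i₁ P n k m h (spb l g P O k θ) (epb l g' n γ) := by
  obtain ⟨γ, rfl⟩ := (Kl.se_bij n).2 γ
  rw [ge_bot, ← Kl.se_spb g (U' := ⊥) bot_le, ← Kl.se_spb g' (U' := ⊥) bot_le, ge_bot,
    G.gy_nat i i₁ g g' O ⊥ ⊥ P ⊥ ⊥ n k m h θ γ hl e hO hP hg (pbot i) (pbot i₁) bot_le bot_le]

lemma ge_se {U : T.Opens} (γ : SS l D (i ⁻¹ᵁ U) n) :
    ge G i O n k m h θ (se l _ n γ) = se l U m (G.gy i O U _ n k m h θ γ) := by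
  have h1 := G.gy_nat i i (𝟙 _) (𝟙 _) O U _ O ⊥ ⊥ n k m h θ γ hl (by simp) hO hO le_rfl le_rfl
    (pbot i) bot_le bot_le
  rw [← Pbc.epb_id (se l _ n γ), ← Kl.se_spb (𝟙 _) (U' := ⊥) bot_le, ge_bot,
    ← Kl.spb_id O θ, ← h1, Kl.se_spb (𝟙 _) bot_le, Pbc.epb_id, Kl.spb_id]

/-- The Gysin image of a class that is a pull-back near its support. -/
lemma xi (hX : OEX_s) {j : T₁ ⟶ T} [IsOpenImmersion j] {i₁ : D₁ ⟶ T₁} [IsClosedImmersion i₁]
    {j' : D₁ ⟶ D} (e : i₁ ≫ j = j' ≫ i) (hO₁ : Co i₁ (j ⁻¹ᵁ O)) {U : T.Opens} {U₀ : T₁.Opens}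
    (hU : U ⊔ j.opensRange = ⊤) (hU₀ : j' ⁻¹ᵁ i ⁻¹ᵁ U ≤ i₁ ⁻¹ᵁ U₀) {w : SS l D (i ⁻¹ᵁ U) n}
    {Θ₀ : SS l T₁ U₀ n} {Θ : SS l T U m}
    (hw : spb l j' (j' ⁻¹ᵁ i ⁻¹ᵁ U) _ n w = spb l i₁ (j' ⁻¹ᵁ i ⁻¹ᵁ U) U₀ n Θ₀)
    (hΘ : spb l j (j ⁻¹ᵁ U) U m Θ =
      G.star U₀ (j ⁻¹ᵁ O) (j ⁻¹ᵁ U) n k m h Θ₀ (spb l j (j ⁻¹ᵁ O) O k θ)) :
    ge G i O n k m h θ (se l _ n w) = se l U m Θ := by
  rw [ge_se G h hl hO]
  refine congrArg _ ((hX l _ _ j _ ⊤ U ⊤ m hU rfl).1.1 ?_)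
  rw [hΘ, G.gy_nat i i₁ j j' O U _ _ _ _ n k m h θ w hl e hO hO₁ le_rfl le_rfl (sq e U).le le_rfl
    le_rfl, hw, G.gy_pb i₁ _ _ _ _ n k m h _ _ (hl.of_hom j) hO₁ (sq e U).le hU₀]

omit hl hO in
/-- The statement on the level of schemes. -/
theorem main {A : ℕ → Type 1} [∀ i, AddCommGroup (A i)] {rl : ∀ i, A i →+ EE l D i} {N : ℕ}
    {γ : EE l D N} {good : ∀ i, A i → Prop} {S' Y' Y₀ Z : Scheme.{0}} (a : S' ⟶ D) (i' : S' ⟶ Y')
    [IsClosedImmersion i'] (i₀ : S' ⟶ Y₀) [IsClosedImmersion i₀] (g₀ : Y₀ ⟶ T) (s : Y' ⟶ Z)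
    {O' : Y'.Opens} {r : ℕ} (h₁ : N + r = n) (θ' : SS l Y' O' r) (c : EE l D r)
    (hl : Linv l T) (hl' : Linv l Y') (hO : Co i O) (hO' : Co i' O') (hO₀ : Co i₀ (g₀ ⁻¹ᵁ O))
    (e₀ : i₀ ≫ g₀ = a ≫ i) (hc : epb l i' r (se l O' r θ') = epb l a r c)
    (hs : ∀ n, Bijective (hpb l s n)) (cof : ∀ n, Cof l (HH l Z n)) (inj : Injective (hpb l g₀ m))
    (hγ : ∀ i x, ¬ good i x → ∃ (k : ℕ) (h : k + i = N) (x' : A k) (M : ℕ), M ≠ 0 ∧
      (rl k x').comp (rl i x) h = M • γ)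
    (nv : ∀ M : ℕ, M ≠ 0 → ∃ b, tau (M • ge G i O n k m h θ (γ.comp c h₁)) b ≠ 0) :
    ∃ ε : ∀ i, A i →+ QZ l →+ HH l Z (i + r), (∀ i x, ε i x = 0 → good i x) ∧
      ∀ (g₁ : D ⟶ D) (gS : S' ⟶ S') (g' : Y' ⟶ Y') (gZ : Z ⟶ Z) (φ : ∀ i, A i → A i) (Q : ℕ),
        gS ≫ a = a ≫ g₁ → i' ≫ g' = gS ≫ i' → O' ≤ g' ⁻¹ᵁ O' → spb l g' O' O' r θ' = Q • θ' →
        g' ≫ s = s ≫ gZ → (∀ i x, epb l g₁ i (rl i x) = rl i (φ i x)) →
        ∀ i x b, hpb l gZ _ (ε i x b) = Q • ε i (φ i x) b := by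
  let w (n : ℕ) := AddEquiv.ofBijective (hpb l s n) (hs n)
  let ε (n : ℕ) : A n →+ QZ l →+ HH l Z (n + r) :=
    (AddMonoidHom.compHom (w _).symm.toAddMonoidHom).comp
      ((Inj.tauH l Y' _).comp ((ge G i' O' n r _ rfl θ').comp ((epb l a n).comp (rl n))))
  have hε (n α b) : hpb l s _ (ε n α b) = tau (ge G i' O' n r _ rfl θ' (epb l a n (rl n α))) b :=
    (w _).apply_symm_apply _
  refine ⟨ε, fun j α h0 => ?_, fun g₁ gS g' gZ φ Q e4 e5 e6 e7 e8 e9 j α b => (hs _).1 ?_⟩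
  · by_contra h1
    obtain ⟨j', hj, x, M, hM, q2⟩ := hγ j α h1
    obtain ⟨p, hp⟩ := kert l Y' (j + r) fun _ _ => (cof _).quo _ (hs _).2
    have q3 := congrArg (epb l i' _) (hp (ge G i' O' j r _ rfl θ' (epb l a j (rl j α))) fun b => by
      rw [← hε, h0, AddMonoidHom.zero_apply, map_zero])
    rw [map_nsmul, ge_res G rfl hl' hO', hc, ← Pbc.epb_mul, map_zero] at q3
    obtain ⟨b, hb⟩ := nv (l ^ p * M) (mul_ne_zero (pow_ne_zero _ (Fact.out : l.Prime).ne_zero) hM)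
    refine hb (inj ?_)
    rw [map_zero, Pbc.tau_pb, map_nsmul, ge_nat G h hl hO θ e₀ hO₀ le_rfl, ← map_nsmul, mul_smul,
      ← map_nsmul (epb l a n), ← Inj.nsmul_comp, ← q2, Ext.comp_assoc _ _ _ hj rfl (by omega),
      Pbc.epb_mul, ← comp_nsmul, q3, Ext.comp_zero, map_zero]
    exact map_zero (pre _ _ _)
  · rw [← Pbc.hpb_comp, ← e8, Pbc.hpb_comp, hε, Pbc.tau_pb, ge_nat G rfl hl' hO' θ' e5 hO' e6, e7,
      ge_smul, map_nsmul, hε, ← Pbc.epb_comp, e4, Pbc.epb_comp, e9]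
    exact DFunLike.congr_fun (map_nsmul (Inj.tauH l Y' _) Q _) b

end

section
variable {P S P₁ S₁ : Type} [CommRing P] [CommRing S] [CommRing P₁] [CommRing S₁]

lemma le_rad {I J : Ideal P} : I ≤ J.radical ↔ opI I ≤ opI J :=
  (PrimeSpectrum.zeroLocus_subset_zeroLocus_iff J I).symm.trans Set.compl_subset_compl.symm

lemma opI_rad (J : Ideal P) : opI J.radical = opI J :=
  le_antisymm (le_rad.1 le_rfl) (le_rad.1 (Ideal.le_radical.trans Ideal.le_radical))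

lemma cli {π : P →+* S} (hπ : Surjective π) : IsClosedImmersion (spc π) :=
  IsClosedImmersion.spec_of_surjective _ hπ

lemma co {π : P →+* S} (hπ : Surjective π) : Co (spc π) (opI (RingHom.ker π)) := fun x =>
  not_congr (Set.ext_iff.1 (range_comap_of_surjective _ π hπ) x).symm

lemma lift {π : P →+* S} (hπ : Surjective π) (φ : P →+* S₁) (h : RingHom.ker π ≤ RingHom.ker φ) :
    ∃ a : S →+* S₁, a.comp π = φ := ⟨_, π.liftOfSurjective_comp hπ ⟨φ, h⟩⟩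

lemma ssq {π : P →+* S} {ρ : P →+* P₁} {π₁ : P₁ →+* S₁} {a : S →+* S₁}
    (e : a.comp π = π₁.comp ρ) : spc π₁ ≫ spc ρ = spc a ≫ spc π := by
  rw [Twt.spc_spc, Twt.spc_spc, e]

lemma co_bc {π : P →+* S} {ρ : P →+* P₁} {π₁ : P₁ →+* S₁} {a : S →+* S₁} (hρ : Surjective ρ)
    (hπ : Surjective π₁) (e : a.comp π = π₁.comp ρ)
    (h : RingHom.ker (a.comp π) ≤ (RingHom.ker π ⊔ RingHom.ker ρ).radical) :
    Co (spc π₁) (spc ρ ⁻¹ᵁ opI (RingHom.ker π)) := by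
  have : opI (RingHom.ker π₁) = opI ((RingHom.ker π).map ρ) := by
    refine le_antisymm (le_rad.1 fun x hx => ?_) (le_rad.1 (le_trans (b := RingHom.ker π₁)
      (Ideal.map_le_iff_le_comap.2 fun x hx =>
        (congr($e x).symm.trans (congrArg a hx)).trans (map_zero a)) Ideal.le_radical))
    obtain ⟨x, rfl⟩ := hρ x
    rw [← Ideal.mem_comap, Ideal.comap_radical, Ideal.comap_map_of_surjective ρ hρ]
    exact h (congr($e x).trans hx)
  rw [← Exce.opI_map, ← this]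
  exact co hπ

lemma mem_sum {β : Type} [Fintype β] (I : β → Ideal P) (x : Spec (.of P)) :
    x ∈ opI (∑ b, I b) ↔ ∃ b, x ∈ opI (I b) := by
  change ¬ ∑ b, I b ≤ x.asIdeal ↔ ∃ b, ¬ I b ≤ x.asIdeal
  rw [Ideal.sum_eq_sup]
  simp

end

section
variable {β : Type}

lemma mem_sup (A : List β) (f : β → TH l T) (x : T) :
    x ∈ sup (A.map f) ↔ ∃ a ∈ A, x ∈ (f a).1 := by
  induction A with
  | nil => simp [sup]
  | cons a L ih =>
    change x ∈ (f a).1 ⊔ sup (L.map f) ↔ _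
    simp [ih]

/-- `a'` is the pull-back of `a` up to the factor `Q`. -/
def PQ (g : T₁ ⟶ T) (Q : ℕ) (a' : TH l T₁) (a : TH l T) : Prop :=
  a'.1 = g ⁻¹ᵁ a.1 ∧ spb l g a'.1 a.1 2 a.2 = Q • a'.2

lemma thk_pb (hT : THS_s) {g : T₁ ⟶ T} {Q : ℕ} {f' : β → TH l T₁} {f : β → TH l T}
    (h : ∀ a, PQ g Q (f' a) (f a)) (A : List β) {U' : T₁.Opens} {U : T.Opens}
    (hU : U ≤ sup (A.map f)) (hU' : U' ≤ g ⁻¹ᵁ U) {k : ℕ} (e : 2 * (A.map f).length = k)
    (e' : 2 * (A.map f').length = k) :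
    spb l g U' U k (G.thk (A.map f) U k e) = Q ^ A.length • G.thk (A.map f') U' k e' := by
  have := (hT l G T (A.map f) U k e hU).2.2 T₁ g (A.map f') U' Q e' hU'
    (fun x hx => by
      obtain ⟨a, h1, h2⟩ := (mem_sup A f _).1 (hU (hU' hx))
      exact (mem_sup A f' _).2 ⟨a, h1, (h a).1.ge h2⟩) (by
      rw [List.forall₂_map_left_iff, List.forall₂_map_right_iff, List.forall₂_same]
      exact fun a _ => ⟨(h a).1.le, (h a).2⟩)
  rwa [List.length_map] at this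

variable {Ω κ P P₁ : Type} [Field Ω] (Ch : Chern l Ω) [Fintype κ] [DecidableEq κ] [CommRing P]
  [CommRing P₁] (hJ : THJ_s) (ψ : P →+* P₁) {ω : Ω →+* P} {ω' : Ω →+* P₁} {σ : Ω →+* Ω} {Q : ℕ}
  (hσ : Tw l σ Q) (h1 : ψ.comp ω = ω'.comp σ)
include hJ hσ h1

lemma pq_J {e : EV κ → P} {e' : EV κ → P₁} (h2 : ψ ∘ e = e') (he : JP e) {n : κ → ℤ}
    {s : MvPolynomial (XY κ) P} {I : Ideal P} (hs : Hg n s) (hI : Zer e s I)
    {s' : MvPolynomial (XY κ) P₁} {I' : Ideal P₁} (h3 : map ψ s = s') (hI' : Zer e' s' I') :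
    PQ (spc ψ) Q (thJ Ch ω' e' n s' I') (thJ Ch ω e n s I) := by
  subst h2 h3
  exact (hJ l Ω Ch p1l κ P ω e n s I he hs hI).2 P₁ ψ ω' σ Q _ I' hσ h1 (Twt.hg_map ψ hs) hI'
    fun D'' _ χ a _ => eval₂_map _ _ _ _

lemma tf_pb (hT : THS_s) [Fintype β] {e : EV κ → P} {e' : EV κ → P₁} (h2 : ψ ∘ e = e') (he : JP e)
    {n : β → κ → ℤ} {s : β → MvPolynomial (XY κ) P} {I : β → Ideal P}
    (hs : ∀ b, Hg (n b) (s b) ∧ Zer e (s b) (I b)) {s' : β → MvPolynomial (XY κ) P₁}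
    {I' : β → Ideal P₁} (h3 : ∀ b, map ψ (s b) = s' b) (hI' : ∀ b, Zer e' (s' b) (I' b))
    {U : (Spec (.of P)).Opens} (hU : U = opI (∑ b, I b)) :
    opI (∑ b, I' b) = spc ψ ⁻¹ᵁ U ∧ ∀ U', U' ≤ spc ψ ⁻¹ᵁ U →
      spb l (spc ψ) U' U _ (G.tf Ch ω e n s I U) =
        Q ^ Fintype.card β • G.tf Ch ω' e' n s' I' U' := by
  have k (b) := pq_J Ch hJ ψ hσ h1 h2 he (hs b).1 (hs b).2 (h3 b) (hI' b)
  subst hU
  refine ⟨TopologicalSpace.Opens.ext (Set.ext fun x => (mem_sum I' x).trans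
    ((exists_congr fun b => congr(x ∈ $((k b).1)).to_iff).trans (mem_sum I _).symm)),
    fun U' hU' => (thk_pb G hT k _ (fun x hx => ?_) hU' _ _).trans (by
      rw [Finset.length_toList, Finset.card_univ]; rfl)⟩
  obtain ⟨b, hb⟩ := (mem_sum I x).1 hx
  exact (mem_sup _ _ _).2 ⟨b, by simp, hb⟩

end

/-- The Gysin image of the local class. -/
lemma one (hX : OEX_s) (hT : THS_s) {Ω ν P S : Type} [Field Ω] [Fintype ν] [CommRing P]
    [CommRing S] (Ch : Chern l Ω) {ω : Ω →+* P} {π : P →+* S} (hπ : Surjective π)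
    [IsClosedImmersion (spc π)] (hl : Linv l (Spec (.of P))) {O U : (Spec (.of P)).Opens}
    (hO : Co (spc π) O) {d r n k m : ℕ} {ℓ : Fin d → ν → Ω} {o : ν} {z : ν × ν → P} {δ : P}
    {t : Fin d → Localization.Away δ} (h₁ : 2 * d + r = n) (h : n + k = m) (θ : SS l _ O k)
    (c : EE l (Spec (.of P)) r) {Θ : SS l _ U m} (hU : U ⊔ opI (Ideal.span {δ}) = ⊤)
    (ht : Lt ((algebraMap P _).comp ω) (algebraMap P (Localization.Away δ) ∘ z) o ℓ t)
    {j : Spec (.of (Localization.Away δ)) ⟶ Spec (.of P)} (hj : j = spc (algebraMap P _))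
    {U₀ : (Spec (.of (Localization.Away δ))).Opens} (e₀ : U₀ = opI (Ideal.span (Set.range t)))
    (hU₀ : j ⁻¹ᵁ U ≤ U₀ ⊔ j ⁻¹ᵁ O)
    (hΘ : spb l j (j ⁻¹ᵁ U) U m Θ = G.star U₀ (j ⁻¹ᵁ O) (j ⁻¹ᵁ U) n k m h
      ((Locc.tk G Ch ((algebraMap P _).comp ω) t U₀).comp (epb l j r c) h₁)
      (spb l j (j ⁻¹ᵁ O) O k θ)) :
    ∃ x : SS l _ (spc π ⁻¹ᵁ U) (2 * d), LocC G Ch (π.comp ω) (π ∘ z) o ℓ _ x ∧
      ge G (spc π) O n k m h θ ((se l _ _ x).comp (epb l (spc π) r c) h₁) = se l U m Θ := by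
  subst hj e₀
  let α := algebraMap S (Localization.Away (π δ))
  let β := algebraMap P (Localization.Away δ)
  let ψ : Localization.Away δ →+* Localization.Away (π δ) := IsLocalization.Away.map _ _ π δ
  have e1 : ψ.comp β = α.comp π := IsLocalization.map_comp _
  have e2 : ψ.comp (β.comp ω) = α.comp (π.comp ω) := congrArg (·.comp ω) e1
  have := cli ((IsLocalization.Away.map_surjective_iff _ _ π δ).2 fun a =>
    (hπ a).imp fun b hb => ⟨0, by simpa using hb⟩ : Surjective ψ)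
  have : IsOpenImmersion (spc β) := IsOpenImmersion.of_isLocalization δ
  have e3 : spc ψ ≫ spc β = spc α ≫ spc π := ssq e1.symm
  have rg {R : Type} [CommRing R] (a : R) (y : Spec (.of R)) :
      y ∈ Set.range (spc (algebraMap R (Localization.Away a))) ↔ a ∉ y.asIdeal :=
    Set.ext_iff.1 (PrimeSpectrum.localization_away_comap_range (Localization.Away a) a) y
  have hc : Co (spc ψ) (spc β ⁻¹ᵁ O) := fun y => (hO _).trans (not_congr ⟨fun ⟨w, hw⟩ => by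
    obtain ⟨w', rfl⟩ := (rg (π δ) w).2 fun hd => (rg δ _).1 ⟨y, rfl⟩ (hw ▸ hd)
    exact ⟨w', (spc β).isOpenEmbedding.injective (congr($e3 w').trans hw)⟩,
      fun ⟨w, hw⟩ => ⟨_, congr($e3 w).symm.trans (congrArg (spc β) hw)⟩⟩)
  have h3 : spc α ⁻¹ᵁ spc π ⁻¹ᵁ U ≤ spc ψ ⁻¹ᵁ opI (Ideal.span (Set.range t)) := fun y hy =>
    (show _ ∨ _ from hU₀ ((sq e3 U).ge hy)).resolve_right fun ho => (hc _).1 ho ⟨_, rfl⟩
  obtain ⟨x, hx⟩ := (Locc.loc_bij (l := l) hX (Locc.cover hU π) (2 * d)).2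
    (Locc.tk G Ch (α.comp (π.comp ω)) (ψ ∘ t) _)
  refine ⟨x, ⟨π δ, ψ ∘ t, Locc.cover hU π, Locc.lt_map ht ψ e2 (funext fun v => congr($e1 (z v))),
    h3.trans (Locc.opI_range ψ t).ge, hx⟩, ?_⟩
  rw [← Kl.se_comp]
  refine xi G h hl hO θ hX e3 hc (top_unique (hU.ge.trans (sup_le_sup_left (fun y hy =>
    (rg δ y).2 fun hd => hy (Ideal.span_le.2 (Set.singleton_subset_iff.2 hd))) _))) h3 ?_ hΘ
  rw [Kl.spb_comp, Kl.spb_comp, hx, Locc.tk_nat G Ch hT _ t le_rfl ψ h3 e2, ← Pbc.epb_comp,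
    ← Pbc.epb_comp, e3]

lemma bez (hB : BEZZ_s) {Ω κ : Type} [Field Ω] [IsAlgClosed Ω] [CharZero Ω] [Fintype κ]
    [DecidableEq κ] (Ch : Chern l Ω) {f : T ⟶ Spec (.of Ω)} {z : κ → (T ⟶ P1)}
    (hZ : ZL f z (noEq κ Ω)) (g : T₁ ⟶ T) (hg : ∀ n, Injective (hpb l g n))
    {f' : T₁ ⟶ Spec (.of Ω)} (hf : g ≫ f = f') (L : List (κ → ℤ)) (hL : top (L.map lin).prod ≠ 0)
    {m : ℕ} (h : 2 * (L.map (Ch.cl p1l f' fun k => g ≫ z k)).length = m) {M : ℕ} (hM : M ≠ 0) :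
    ∃ b, tau (M • Twt.pk _ m h) b ≠ 0 := by
  subst hf
  obtain ⟨b, hb⟩ := hB l Ω Ch p1l κ 0 _ _ T f z hZ L M (Nat.cast_ne_zero.2 hM) (by simpa using hL)
  have h' : 2 * (L.map (Ch.cl p1l f z)).length = m := by simpa using h
  rw [← Twt.pk_pb g (L.map (Ch.cl p1l f z)) _ (by
    rw [List.map_map]
    exact List.map_congr_left fun n _ => epb_cl Ch p1l g f z n) m h' h]
  subst h'
  refine ⟨b, fun h0 => hb (hg _ ?_)⟩
  rw [Twt.pk_rfl, ← map_nsmul, ← Pbc.tau_pb] at h0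
  rw [natCast_zsmul, h0, map_zero]

end Ep2

open Ep2 in
theorem eps2 (hX : OEX_s) (hT : THS_s) (hJ : THJ_s) (h1 : T1_s) : EPS2_s := by
  intro l _ K Ω ν ρ J κ β _ _ _ _ _ _ _ _ _ _ Γ Ch τ o d c g y u ℓ W P S P' _ _ _ ω e t f₀ If Is π π'
    Z₀ Z f z₀ s₀ s A _ rl γ good hu he hf hs ht hπ kπ hπ' ht0 hIf kπ' hZ hs₀ had inj₀ inj₁ bs cof hγ
    ⟨n, hn1, hn2, hn3⟩
  have tw1 : Tw l (RingHom.id Ω) 1 := fun ζ _ _ => pow_one ζ
  have hl : Linv l (Spec (.of P)) := (Linv.spec (IsUnit.mk0 _ (Nat.cast_ne_zero.2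
    (Fact.out : l.Prime).ne_zero))).of_hom (spc ω)
  let sb (b : β) := map (ω.comp τ) (W.s b)
  have hsb (b) : Hg (W.ns b) (sb b) ∧ Zer e (sb b) (Is b) := ⟨Twt.hg_map _ (W.hs b), hs b⟩
  let θs := Γ.tf Ch ω e W.ns sb Is (opI (∑ b, Is b))
  let θ := Γ.tf Ch ω e (Sum.elim W.ns W.nf) (Sum.elim sb f₀) (Sum.elim Is If)
    (opI (RingHom.ker π))
  let mk := Ideal.Quotient.mk ((∑ b, Is b).map π').radical
  let ρ₀ := Ideal.Quotient.mk (Ideal.span {t})
  let ρ₁ := Ideal.Quotient.mk (Ideal.span {t - 1})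
  have hk : RingHom.ker (mk.comp π') = ((∑ b, Is b) ⊔ RingHom.ker π').radical := by
    rw [← RingHom.comap_ker, Ideal.mk_ker, Ideal.comap_radical,
      Ideal.comap_map_of_surjective π' hπ', RingHom.ker_eq_comap_bot]
  have sIf : ∑ a, If a ≤ RingHom.ker π' := by
    rw [Ideal.sum_eq_sup]
    exact Finset.sup_le fun a _ => hIf a
  obtain ⟨a, ha⟩ := lift hπ (mk.comp π') (by
    rw [kπ, hk]
    exact (sup_le (le_sup_of_le_right sIf) le_sup_left).trans Ideal.le_radical)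
  obtain ⟨π₀, h₀⟩ := lift (π := ρ₀) Ideal.Quotient.mk_surjective (mk.comp π') (by
    rw [Ideal.mk_ker, Ideal.span_singleton_le_iff_mem]
    exact (congrArg mk ht0).trans (map_zero mk))
  obtain ⟨π₁, h₁⟩ := lift (π := ρ₁) Ideal.Quotient.mk_surjective
    ((Ideal.Quotient.mk n).comp π) (by
      rw [Ideal.mk_ker, Ideal.span_singleton_le_iff_mem]
      exact Ideal.Quotient.eq_zero_iff_mem.2 (by rwa [map_sub, map_one]))
  have s0 : Surjective π₀ := Surjective.of_comp (g := ρ₀)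
    (by rw [← RingHom.coe_comp, h₀]; exact Ideal.Quotient.mk_surjective.comp hπ')
  have s1 : Surjective π₁ := Surjective.of_comp (g := ρ₁)
    (by rw [← RingHom.coe_comp, h₁]; exact Ideal.Quotient.mk_surjective.comp hπ)
  have := cli hπ
  have := cli s0
  have := cli s1
  have := cli (π := mk) Ideal.Quotient.mk_surjective
  have eO : opI (RingHom.ker mk) = spc π' ⁻¹ᵁ opI (∑ b, Is b) := by
    rw [Ideal.mk_ker, opI_rad, Exce.opI_map]
  have c1 : Co (spc π₁) (spc ρ₁ ⁻¹ᵁ opI (RingHom.ker π)) :=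
    co_bc Ideal.Quotient.mk_surjective s1 h₁.symm (by
      rw [← RingHom.comap_ker, Ideal.mk_ker, Ideal.mk_ker, sup_comm, RingHom.ker_eq_comap_bot,
        ← Ideal.comap_map_of_surjective π hπ, ← Ideal.comap_radical, Ideal.map_span,
        Set.image_singleton, map_sub, map_one]
      exact Ideal.comap_mono hn2)
  have nv (M : ℕ) (hM : M ≠ 0) : ∃ b, tau (M • ge Γ (spc π) _ _ _ _ rfl θ
      (γ.comp (epb l (spc π) _ (se l _ _ θs)) rfl)) b ≠ 0 := by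
    have zs (b) := Twt.zer_map ρ₁ (hs b)
    have zf (b) := Twt.zer_map ρ₁ (hf b).2
    obtain ⟨U, z, δ, v, Θ, L, hL, r1, r2, r3, r4, r5, r6, r7⟩ := h1 l K Ω ν ρ J κ β Γ Ch τ o d c g y
      u ℓ W _ (ρ₁.comp ω) (ρ₁ ∘ e) (fun b => map ρ₁ (sb b)) (fun b => map ρ₁ (f₀ b))
      (fun b => (If b).map ρ₁) (fun b => (Is b).map ρ₁) (fun k => (spc ρ₁ ≫ s₀) ≫ z₀ k) _ rfl hu
      (Twt.jp_map ρ₁ he) (by simpa only [Category.assoc] using Twt.ad_map ρ₁ had)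
      (fun b => ⟨Twt.hg_map ρ₁ (hf b).1, zf b⟩) (fun b => map_map _ _ _) zs fun D' _ χ x hx k => by
        rw [eval₂_map]
        exact ht D' (χ.comp ρ₁) x hx (by
          rw [RingHom.comp_apply, (Ideal.Quotient.eq.2 (Ideal.mem_span_singleton_self _) :
            ρ₁ t = ρ₁ 1), map_one, map_one]) k
    obtain ⟨p1, p2⟩ := tf_pb Γ Ch hJ ρ₁ tw1 (ω' := ρ₁.comp ω) rfl hT rfl he hsb (fun _ => rfl) zs rfl
    obtain ⟨p3, p4⟩ := tf_pb Γ Ch hJ ρ₁ tw1 (ω' := ρ₁.comp ω) rfl hT rfl he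
      (n := Sum.elim W.ns W.nf) (s := Sum.elim sb f₀) (I := Sum.elim Is If)
      (s' := Sum.elim (fun b => map ρ₁ (sb b)) fun b => map ρ₁ (f₀ b))
      (I' := Sum.elim (fun b => (Is b).map ρ₁) fun b => (If b).map ρ₁) (U := opI (RingHom.ker π))
      (by rintro (b | b); exacts [hsb b, hf b]) (by rintro (b | b) <;> rfl)
      (by rintro (b | b); exacts [zs b, zf b]) (by rw [kπ, Fintype.sum_sum_type, add_comm]; rfl)
    obtain ⟨r7, r8⟩ := r7 _ _ _ rfl (p3.symm.trans (by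
      rw [Fintype.sum_sum_type, add_comm]; rfl)) rfl
    obtain ⟨x, hx, h3⟩ := one Γ hX hT Ch s1 (hl.of_hom (spc ρ₁)) c1 rfl rfl _ _ r3 r4 rfl rfl r7 r8
    have e1 : (Ideal.Quotient.mk n).comp (π.comp ω) = π₁.comp (ρ₁.comp ω) :=
      congrArg (RingHom.comp · ω) h₁.symm
    have e2 : Ideal.Quotient.mk n ∘ π ∘ e = π₁ ∘ ρ₁ ∘ e := funext fun w => congr($h₁ (e w)).symm
    rw [e1, e2] at hn3
    have h4 := hn3 _ _ x (fun F _ χ b hb => (r1 F (χ.comp π₁) b hb :))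
      (fun w D' _ χ b hb => (r2 w D' (χ.comp π₁) b hb).trans
        (congrArg (eval₂ · b _) (RingHom.ext_int _ _))) hx
    obtain ⟨b, hb⟩ := Ep2.bez T.All.hBEZZ Ch hZ (spc ρ₁ ≫ s₀) inj₁
      (by rw [Category.assoc, hs₀, Twt.spc_spc]) L r6 hL hM
    refine ⟨b, fun h0 => hb ?_⟩
    have h5 := congrArg (hpb l (spc ρ₁) _) h0
    rw [map_zero, Pbc.tau_pb, map_nsmul, ge_nat Γ rfl hl (co hπ) θ (ssq h₁.symm) c1 le_rfl,
      Pbc.epb_mul, h4, ← Pbc.epb_comp, ← ssq h₁.symm, Pbc.epb_comp, ← Kl.se_spb _ p1.le,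
      p2 _ p1.le, p4 _ le_rfl, one_pow, one_pow, one_smul, one_smul, h3, r5] at h5
    exact h5
  obtain ⟨ε, k1, k2⟩ := main Γ rfl θ (spc a) (spc mk) (spc π₀) (spc ρ₀) s rfl
    (spb l (spc π') (opI (RingHom.ker mk)) _ _ θs) (epb l (spc π) _ (se l _ _ θs)) hl
    (hl.of_hom (spc π')) (co hπ) (co Ideal.Quotient.mk_surjective)
    (co_bc Ideal.Quotient.mk_surjective s0 (ha.trans h₀.symm) (by
      rw [ha, hk, Ideal.radical_le_radical_iff, Ideal.mk_ker, kπ]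
      exact sup_le ((le_sup_of_le_left le_sup_right).trans Ideal.le_radical) (kπ'.trans
        (Ideal.radical_mono (sup_le le_sup_right (le_sup_of_le_left le_sup_left))))))
    (ssq (ha.trans h₀.symm))
    (by rw [Kl.se_spb _ eO.le, ← Pbc.epb_comp, ← Pbc.epb_comp, ssq ha]) bs cof (inj₀ _) hγ nv
  refine ⟨ε, k1, fun ψ Q g₀ g₁ g' gZ φ q1 q2 q3 q4 q5 q6 q7 q8 => ?_⟩
  obtain ⟨p1, p2⟩ := tf_pb Γ Ch hJ g₀ q1 q3 hT q4 he hsb (s' := sb) (fun b => by
    rw [map_map, ← RingHom.comp_assoc, q3, RingHom.comp_assoc, q2]) hs rfl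
  have p3 : spc g' ≫ spc π' = spc π' ≫ spc g₀ := by rw [Twt.spc_spc, Twt.spc_spc, q6]
  have p4 : opI (RingHom.ker mk) = spc g' ⁻¹ᵁ opI (RingHom.ker mk) := by
    rw [eO, sq p3, ← p1]
  obtain ⟨gS, hg⟩ := lift (π := mk) Ideal.Quotient.mk_surjective (mk.comp g') (by
    rw [← RingHom.comap_ker, ← Ideal.map_le_iff_le_comap]
    nth_rw 2 [Ideal.mk_ker]
    rw [le_rad, Exce.opI_map, ← p4, eO, Exce.opI_map])
  refine k2 (spc g₁) (spc gS) (spc g') gZ φ _ (ssq ?_) (ssq hg) p4.le ?_ q7 q8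
  · refine RingHom.ext fun x => ?_
    obtain ⟨x, rfl⟩ := hπ x
    exact ((congrArg a congr($q5 x)).trans congr($ha (g₀ x))).trans
      ((congrArg gS congr($ha x)).trans (congr($hg (π' x)).trans
        (congrArg mk congr($q6 x)))).symm
  · rw [Kl.spb_spb p3 p4.le eO.le, ← Kl.spb_spb rfl eO.le p1.le, p2 _ p1.le, map_nsmul]

end Pool.Agent.MP_855f4c_ag.A

end

section

/-! h14a row TBX: the tube has the cohomology of the divisor. -/

set_option autoImplicit false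
set_option backward.isDefEq.respectTransparency false

open CategoryTheory Limits Abelian Opposite AlgebraicGeometry Function MvPolynomial
open scoped TensorProduct

namespace Pool.Agent.MP_855f4c_ag.A

open E E3 E4 T T.Tubk

namespace Tbx

/-- Formal smoothness of a presentation is stable under change of the coefficients. -/
theorem fs_map {K Ω ν ρ : Type} [CommRing K] [CommRing Ω] (τ : K →+* Ω) (g : ρ → MvPolynomial ν K)
    (h : Algebra.FormallySmooth K (MvPolynomial ν K ⧸ Ideal.span (Set.range g))) :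
    Algebra.FormallySmooth Ω
      (MvPolynomial ν Ω ⧸ Ideal.span (Set.range fun i => map τ (g i))) := by
  refine Algebra.FormallySmooth.of_comp_surjective fun D _ _ I hI φ => ?_
  let : Algebra K D := ((algebraMap Ω D).comp τ).toAlgebra
  let u : MvPolynomial ν K →ₐ[K] D ⧸ I := aeval fun j => φ (Ideal.Quotient.mk _ (X j))
  have hu (P : MvPolynomial ν K) : u P = φ (Ideal.Quotient.mk _ (map τ P)) :=
    DFunLike.congr_fun (ringHom_ext (f := u.toRingHom)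
      (g := φ.toRingHom.comp ((Ideal.Quotient.mk _).comp (map τ)))
      (fun a => (aeval_C _ a).trans (by
        rw [RingHom.comp_apply, RingHom.comp_apply, map_C]
        exact (φ.commutes (τ a)).symm))
      fun j => (aeval_X _ j).trans (by rw [RingHom.comp_apply, RingHom.comp_apply, map_X]; rfl)) P
  obtain ⟨ψ, hψ⟩ := Algebra.FormallySmooth.comp_surjective K _ I hI
    (Ideal.Quotient.liftₐ (Ideal.span (Set.range g)) u fun a ha =>
      (Ideal.span_le (I := RingHom.ker u)).2 (Set.range_subset_iff.2 fun i => (hu _).trans (by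
        rw [Ideal.Quotient.eq_zero_iff_mem.2 (Ideal.subset_span (Set.mem_range_self i)),
          map_zero])) ha)
  let v : MvPolynomial ν Ω →ₐ[Ω] D := aeval fun j => ψ (Ideal.Quotient.mk _ (X j))
  have hv (P : MvPolynomial ν K) : v (map τ P) = ψ (Ideal.Quotient.mk _ P) :=
    DFunLike.congr_fun (ringHom_ext (f := v.toRingHom.comp (map τ))
      (g := ψ.toRingHom.comp (Ideal.Quotient.mk _))
      (fun a => by
        rw [RingHom.comp_apply, RingHom.comp_apply, map_C]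
        exact (aeval_C _ _).trans (ψ.commutes a).symm)
      fun j => by rw [RingHom.comp_apply, RingHom.comp_apply, map_X]; exact aeval_X _ j) P
  refine ⟨Ideal.Quotient.liftₐ _ v fun a ha =>
    (Ideal.span_le (I := RingHom.ker v)).2 (Set.range_subset_iff.2 fun i => (hv _).trans (by
      rw [Ideal.Quotient.eq_zero_iff_mem.2 (Ideal.subset_span (Set.mem_range_self i)),
        map_zero])) ha, Ideal.Quotient.algHom_ext _ (algHom_ext fun j => ?_)⟩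
  refine (congrArg (Ideal.Quotient.mk I) (aeval_X _ j)).trans ?_
  exact (DFunLike.congr_fun hψ _).trans (aeval_X _ j)

lemma exD (V : Type) {X α γ : Type} [CommRing V] [CommRing X] [Algebra V X] (a : α → X) (b : γ → X) :
    ∃ (D : Type) (_ : CommRing D) (_ : Algebra V D) (β : D →ₐ[V] X) (e : α → D) (c : γ → D),
      Injective β ∧ (∀ j, β (e j) = a j) ∧ (∀ i, β (c i) = b i) ∧
      Algebra.adjoin V (Set.range e ∪ Set.range c) = ⊤ := by
  refine ⟨Algebra.adjoin V (Set.range a ∪ Set.range b), _, _, Subalgebra.val _,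
    fun j => ⟨a j, Algebra.subset_adjoin (.inl ⟨j, rfl⟩)⟩,
    fun j => ⟨b j, Algebra.subset_adjoin (.inr ⟨j, rfl⟩)⟩, Subtype.val_injective, fun _ => rfl,
    fun _ => rfl, top_le_iff.1 (Algebra.adjoin_adjoin_coe_preimage.ge.trans (Algebra.adjoin_mono ?_))⟩
  rintro ⟨_, _⟩ (⟨j, rfl⟩ | ⟨j, rfl⟩)
  exacts [.inl ⟨j, rfl⟩, .inr ⟨j, rfl⟩]

lemma bij_sq {A B C D : Type 1} {f : A → B} {g : B → D} {h : A → C} {k : C → D}
    (e : ∀ x, g (f x) = k (h x)) (hg : Bijective g) (hh : Bijective h) (hk : Bijective k) :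
    Bijective f := (hg.of_comp_iff' f).1 ((funext e : g ∘ f = k ∘ h) ▸ hk.comp hh)

/-- Transport along an isomorphism. -/
lemma iso (hK : KL_s) {l : ℕ} [Fact l.Prime] {T T' : Scheme.{0}} (a : T' ⟶ T) [IsIso a]
    {η U P : T.Opens} (hU : η ≤ U) (n : ℕ)
    (h : Bijective (kpb l (𝟙 _) (a ⁻¹ᵁ η) (a ⁻¹ᵁ P) (a ⁻¹ᵁ U) (a ⁻¹ᵁ P) n)) :
    Bijective (kpb l (𝟙 _) η P U P n) := by
  have b (W : T.Opens) : Bijective (kpb l a (a ⁻¹ᵁ W) (a ⁻¹ᵁ P) W P n) :=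
    (Ret.kpb_iff l a W P).2 (A1k.ret (g := a) (ρ := 𝟙 T) a (inv a)
      (IsIso.hom_inv_id a) (IsIso.inv_hom_id a) (A1k.mb_id (AU l W) (FU l P))) n
  have e1 := ((hK l).2.2 _ _ _ a (𝟙 T) a (a ⁻¹ᵁ η) (a ⁻¹ᵁ P) η P U P n (Category.comp_id _) le_rfl
    hU).2 (le_refl P) le_rfl
  have e2 := ((hK l).2.2 _ _ _ (𝟙 T') a a (a ⁻¹ᵁ η) (a ⁻¹ᵁ P) (a ⁻¹ᵁ U) (a ⁻¹ᵁ P) U P n
    (Category.id_comp _) (a.preimage_mono hU) le_rfl).2 le_rfl (le_refl (a ⁻¹ᵁ P))
  exact bij_sq (fun x => (e1 x).trans (e2 x).symm) (b η) (b U) h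

lemma le_of_top {B C ι : Type} [CommRing B] [CommRing C] {_ : Algebra B C} {w : B}
    (h : IsLocalization.Away w C) (t : ι → B) (t' : ι → C) (e : ∀ i, algebraMap B C (t i) = t' i)
    (ht : Ideal.span (Set.range t') = ⊤) :
    opI (Ideal.span {w}) ≤ opI (Ideal.span (Set.range t)) := by
  intro x hx hI
  refine ((IsLocalization.map_algebraMap_ne_top_iff_disjoint (.powers w) C x.asIdeal).2 ?_) ?_
  · refine Set.disjoint_left.2 ?_
    rintro _ ⟨m, rfl⟩ hm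
    exact hx ((Ideal.span_singleton_le_iff_mem _).2 (x.isPrime.mem_of_pow_mem m hm))
  · refine top_le_iff.1 (ht.ge.trans (Ideal.span_le.2 ?_))
    rintro _ ⟨q, rfl⟩
    rw [← e]
    exact Ideal.mem_map_of_mem _ (hI (Ideal.subset_span ⟨q, rfl⟩))

lemma vv (p l : ℕ) [Fact p.Prime] [Fact l.Prime] (hlp : l ≠ p) :
    IsLocalization.Away (p : VV p) (PadicAlgCl p) ∧ IsUnit (l : VV p) := by
  have np : ‖(p : PadicAlgCl p)‖ < 1 := by
    rw [← map_natCast (algebraMap ℚ_[p] _), norm_algebraMap']; exact Padic.norm_p_lt_one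
  have p0 : (p : PadicAlgCl p) ≠ 0 := Nat.cast_ne_zero.2 (Fact.out : p.Prime).ne_zero
  constructor
  · refine IsLocalization.Away.mk _ (by rw [map_natCast]; exact p0.isUnit) (fun x => ?_)
      fun a b hab => ⟨0, by rw [Subtype.val_injective hab]⟩
    obtain ⟨n, hn⟩ := exists_pow_lt_of_lt_one (show 0 < (‖x‖ + 1)⁻¹ by positivity) np
    refine ⟨n, ⟨x * p ^ n, show ‖_‖ ≤ 1 from ?_⟩, by rw [map_natCast]; rfl⟩
    rw [norm_mul, norm_pow]
    rw [lt_inv_comm₀ (by positivity) (by positivity), lt_inv_comm₀ (by positivity) (by positivity),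
      inv_eq_one_div, lt_div_iff₀ (by positivity)] at hn
    nlinarith [pow_nonneg (norm_nonneg (p : PadicAlgCl p)) n]
  · refine ((Valuation.Integers.isUnit_iff_valuation_eq_one
      (Valuation.valuationSubring.integers _)).trans NNReal.coe_inj.symm).2 ?_
    change ‖(l : PadicAlgCl p)‖ = 1
    rw [← map_natCast (algebraMap ℚ_[p] _), norm_algebraMap']
    exact Padic.norm_natCast_eq_one_iff.2 ((Nat.coprime_primes Fact.out Fact.out).2 hlp.symm)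

section
variable {K Ω ν ρ J : Type} [CommRing K] [CommRing Ω] [Fintype ν] [Fintype J] (τ : K →+* Ω)
  (g : ρ → MvPolynomial (ν × ν) K)

/-- The single model over `Ω`. -/
abbrev JX : Type := MvPolynomial (ν × ν) Ω ⧸ Ideal.span (Set.range fun i => map τ (g i))

omit [Fintype ν] in
lemma ev {D : Type} [CommRing D] (ψ : JX τ g →+* D) {z : ν × ν → D}
    (hz : ∀ v, z v = ψ (Ideal.Quotient.mk _ (X v))) (P : MvPolynomial (ν × ν) K) :
    eval₂ ((ψ.comp (algebraMap Ω _)).comp τ) z P = ψ (Ideal.Quotient.mk _ (map τ P)) :=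
  DFunLike.congr_fun (ringHom_ext (f := eval₂Hom ((ψ.comp (algebraMap Ω _)).comp τ) z)
    (g := ψ.comp ((Ideal.Quotient.mk _).comp (map τ)))
    (fun a => (eval₂Hom_C _ _ a).trans (congrArg (fun x => ψ (Ideal.Quotient.mk _ x))
      (map_C τ a).symm))
    fun v => (eval₂Hom_X' _ _ v).trans ((hz v).trans
      (congrArg (fun x => ψ (Ideal.Quotient.mk _ x)) (map_X τ v).symm))) P

omit [Fintype ν] in
lemma ev0 {D : Type} [CommRing D] (ψ : JX τ g →+* D) {z : ν × ν → D}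
    (hz : ∀ v, z v = ψ (Ideal.Quotient.mk _ (X v))) (j : ρ) :
    eval₂ ((ψ.comp (algebraMap Ω _)).comp τ) z (g j) = 0 := by
  rw [ev τ g ψ hz, Ideal.Quotient.eq_zero_iff_mem.2 (Ideal.subset_span (Set.mem_range_self j)),
    map_zero]

variable {τ g} {y : NV ν J → MvPolynomial ν K} {D : Type} [CommRing D] {β : D →+* JX τ g}
  {Q : NV ν J → ν → D} (hQ : ∀ a i, β (Q a i) =
    Ideal.Quotient.mk _ (map τ (rename (fun k => (k, i)) (y a))))
include hQ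

lemma jq_pq {D' : Type} [CommRing D'] (ψ : JX τ g →+* D') {w : EW ν J → D'}
    (hw : ∀ v, w (.inl v) = ψ (Ideal.Quotient.mk _ (X v))) :
    JQ ((ψ.comp (algebraMap Ω _)).comp τ) g y w ↔
      Jr.PQ (fun a i => ψ (β (Q a i))) fun q => w (.inr q) := by
  have h (a i) : eval₂ ((ψ.comp (algebraMap Ω _)).comp τ) (cw w i) (y a) = ψ (β (Q a i)) := by
    rw [hQ, ← ev τ g ψ (z := w ∘ .inl) hw, eval₂_rename]
    rfl
  simp only [JQ, h]
  exact and_iff_right (ev0 τ g ψ hw)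

lemma exψ (m2 : JQ ((algebraMap Ω (JW τ g y)).comp τ) g y (wJ τ g y)) :
    ∃ ψ : JX τ g →+* JW τ g y, ψ.comp (algebraMap Ω _) = algebraMap Ω _ ∧
      (∀ v, wJ τ g y (.inl v) = ψ (Ideal.Quotient.mk _ (X v))) ∧
      Jr.PQ (fun a i => ψ (β (Q a i))) fun q => wJ τ g y (.inr q) := by
  obtain ⟨ψ, ψ1, ψ2⟩ : ∃ ψ : JX τ g →+* JW τ g y, ψ.comp (algebraMap Ω _) = algebraMap Ω _ ∧
      ∀ v, wJ τ g y (.inl v) = ψ (Ideal.Quotient.mk _ (X v)) :=
    ⟨Ideal.Quotient.lift _ (eval₂Hom (algebraMap Ω _) (wJ τ g y ∘ .inl)) fun a ha =>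
      (Ideal.span_le (I := RingHom.ker _)).2 (Set.range_subset_iff.2 fun j =>
        (eval₂_map _ _ _ _).trans (m2.1 j)) ha, RingHom.ext fun a => eval₂Hom_C _ _ a,
      fun v => (eval₂Hom_X' (algebraMap Ω _) (wJ τ g y ∘ .inl) v).symm⟩
  exact ⟨ψ, ψ1, ψ2, (jq_pq hQ ψ ψ2).1 (by rw [ψ1]; exact m2)⟩

variable (hM : MOD_s) {V : Type} [CommRing V] [Algebra V Ω] (ϖ : V) [IsLocalization.Away ϖ Ω]
  {S : ν → NV ν J → D} (hL : Jr.Ln Q S)
include hM hL

lemma eta_le (hS : ∀ i j, S i (.inl j) = 0) :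
    opI (Ideal.span {bB τ g y (algebraMap V Ω) ϖ}) ≤ opI (IH (wB τ g y (algebraMap V Ω))) := by
  obtain ⟨m1, m2, m3, -⟩ := hM K Ω V ν ρ J ϖ τ g y
  obtain ⟨ψ, -, -, hq⟩ := exψ hQ m2
  refine le_of_top m1 (fun q : ν × NV ν J => wB τ g y (algebraMap V Ω) (.inr (.inr q.1, q.2)))
    (fun q => wJ τ g y (.inr (.inr q.1, q.2))) (fun q => m3 _)
    (hq.span ((hL.map β).map ψ) Sum.inr ?_)
  rintro i (j | m) hc
  · rw [hS, map_zero, map_zero]
  · exact (hc ⟨m, rfl⟩).elim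

include ϖ in
lemma exφ [Algebra V D] (hβ : Injective β)
    (hV : ∀ o, β (algebraMap V D o) = algebraMap Ω _ (algebraMap V Ω o)) {e : ν × ν → D}
    (he : ∀ v, β (e v) = Ideal.Quotient.mk _ (X v)) :
    ∃ φ : BW τ g y (algebraMap V Ω) →+* Jr.JQ Q, Injective φ ∧
      φ.comp (bB τ g y (algebraMap V Ω)) = algebraMap V _ ∧
      (∀ v, φ (wB τ g y (algebraMap V Ω) (.inl v)) = algebraMap D _ (e v)) ∧
      ∀ v, φ (wB τ g y (algebraMap V Ω) (.inr v)) = Jr.je Q v := by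
  obtain ⟨-, m2, -, -, m5⟩ := hM K Ω V ν ρ J ϖ τ g y
  obtain ⟨ψ, ψ1, ψ2, hq⟩ := exψ hQ m2
  let z : EW ν J → Jr.JQ Q := Sum.elim (fun v => algebraMap D _ (e v)) (Jr.je Q)
  have z1 (v) : Jr.bc Q β (z (.inl v)) = algebraMap (JX τ g) _ (Ideal.Quotient.mk _ (X v)) :=
    (Jr.bc_alg Q β _).trans (congrArg _ (he v))
  have z2 (v) : Jr.bc Q β (z (.inr v)) = Jr.je _ v := Jr.bc_je Q β v
  have z3 : Jr.PQ (fun a i => algebraMap (JX τ g) _ (β (Q a i)))
      fun q => (Jr.bc Q β ∘ z) (.inr q) := by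
    rw [show (fun q => (Jr.bc Q β ∘ z) (.inr q)) = Jr.je _ from funext z2]
    exact Jr.pq_je fun a i => β (Q a i)
  obtain ⟨φ, φ', a1, a2, a3, a4, a5⟩ := m5 _ _ (Jr.bc Q β) (algebraMap V _)
    ((algebraMap (JX τ g) _).comp (algebraMap Ω _)) z (Jr.bc_inj hL _ hβ)
    (RingHom.ext fun o => (Jr.bc_alg Q β (algebraMap V D o)).trans (congrArg _ (hV o)))
    ((jq_pq hQ _ z1).2 z3)
  refine ⟨φ, fun x x' h => ?_, a1, fun v => a2 _, fun v => a2 _⟩
  let lam := Jr.lift (fun a i => β (Q a i)) ψ _ hq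
  have l1 (x) : lam (algebraMap (JX τ g) _ x) = ψ x := Jr.lift_alg _ _ _ _ x
  have l2 (v) : lam (Jr.je _ v) = wJ τ g y (.inr v) := Jr.lift_je _ _ _ _ v
  clear_value lam
  have i : lam.comp φ' = RingHom.id _ := by
    refine Ideal.Quotient.ringHom_ext (ringHom_ext (fun a => ?_) fun v => ?_)
    · exact (congrArg lam (DFunLike.congr_fun a3 a)).trans ((l1 _).trans (DFunLike.congr_fun ψ1 a))
    · refine (congrArg lam (a4 v)).trans ?_
      rcases v with v | v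
      · exact (congrArg lam (z1 v)).trans ((l1 _).trans (ψ2 v).symm)
      · exact (congrArg lam (z2 v)).trans (l2 v)
  have i' : Injective φ' := LeftInverse.injective (DFunLike.congr_fun i)
  exact Subtype.ext (i' ((DFunLike.congr_fun a5 x).trans
    ((congrArg (Jr.bc Q β) h).trans (DFunLike.congr_fun a5 x').symm)))

end

/-- The form without the tensor product. -/
theorem tb0 (h2 : LES2_s) (hK : KL_s) (hR : RET_s) {l : ℕ} [Fact l.Prime] (Bd : BA l) {V : Type}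
    [CommRing V] (w : V) (hl : IsUnit (l : V))
    {D ν ι : Type} [CommRing D] [Algebra V D] [Fintype ν] [Fintype ι] {e : ν × ν → D}
    {g : ι → ν → D} {r : ℕ} {S : ν → ι ⊕ ν → D} (h : Jr.Ln (Jr.QY e g r) S)
    (hS : ∀ i j, S i (.inl j) = 0)
    (hD : Algebra.adjoin V (Set.range e ∪ Set.range fun q : ι × ν => g q.1 q.2) = ⊤)
    (hw : algebraMap V D w ∈ nonZeroDivisors D) (hT : Tubc.Tub w fun q : ι × ν => g q.1 q.2)
    {B : Type} [CommRing B] (b : V →+* B) (φ : B →+* Jr.JQ (Jr.QY e g r)) (hφ : Injective φ)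
    (hb : φ.comp b = algebraMap V _) (z : EW ν ι → B)
    (hε : ∀ p, φ (z (.inl p)) = algebraMap D _ (e p)) (hε' : ∀ p, φ (z (.inr p)) = Jr.je _ p)
    {η P : (Spec (.of B)).Opens} (e1 : η = opI (Ideal.span {b w})) (e3 : P = opI (IG z) ⊓ η)
    (hU : η ≤ opI (IH z)) (n : ℕ) : Bijective (kpb l (𝟙 _) η P (opI (IH z)) P n) := by
  let : Algebra V B := b.toAlgebra
  have : IsIso (CommRingCat.ofHom (iR V V B)) :=
    (ConcreteCategory.isIso_iff_bijective _).2 (Algebra.TensorProduct.lid V B).symm.bijective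
  have e0 : spc (iR V V B) ⁻¹ᵁ η = eta w V B := by
    rw [e1, ← Exce.opI_map, Ideal.map_span, Set.image_singleton, eta]
    congr 3
    exact Algebra.TensorProduct.includeRight.commutes w
  refine iso hK (spc (iR V V B)) hU n (tbr h2 hK hR Bd w hl h hS hD hw hT
    ⟨φ, DFunLike.congr_fun hb⟩ hφ (fun v => z (.inl v)) (fun v => z (.inr v)) hε hε' e0 ?_ ?_ n)
  · rw [Exce.opI_map, ← Scheme.Hom.preimage_sup]
    exact congrArg _ (sup_eq_right.2 hU).symm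
  · rw [Exce.opI_map, ← Scheme.Hom.preimage_inf, e3, inf_comm]
    rfl

/-- The general form. -/
theorem tbw (h2 : LES2_s) (hK : KL_s) (hR : RET_s) (hM : MOD_s) {l : ℕ} [Fact l.Prime] (Bd : BA l)
    {K Ω V ν ρ J : Type} [CommRing K] [CommRing Ω] [CommRing V] [Algebra V Ω] [Fintype ν]
    [Fintype J] [Finite ρ] (ϖ : V) [IsLocalization.Away ϖ Ω] (hl : IsUnit (l : V)) (τ : K →+* Ω)
    (g : ρ → MvPolynomial (ν × ν) K) (G : J → MvPolynomial ν K) (r : ℕ)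
    (hG : ∀ j, (G j).IsHomogeneous r)
    (f1 : Algebra.FormallySmooth K (MvPolynomial (ν × ν) K ⧸ Ideal.span (Set.range g)))
    (f2 : Algebra.FormallySmooth K
      (MvPolynomial (ν × ν) K ⧸ Ideal.span (Set.range (Sum.elim g (gc G)))))
    (rk : ∀ (D : Type) [CommRing D] (χ : K →+* D) (z : ν × ν → D), (∀ j, eval₂ χ z (g j) = 0) →
      YJ.RK z) :
    ∃ k₀ : ℕ, ∀ k ≥ k₀, ∀ c₀ : K, algebraMap V Ω ϖ ^ k * τ c₀ = 1 →
      ∀ η P : (Spec (.of (BW τ g (yv G r c₀) (algebraMap V Ω)))).Opens,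
      η = opI (Ideal.span {bB τ g (yv G r c₀) (algebraMap V Ω) ϖ}) →
      P = opI (IG (wB τ g (yv G r c₀) (algebraMap V Ω))) ⊓ η →
      ∀ n, Bijective (kpb l (𝟙 _) η P (opI (IH (wB τ g (yv G r c₀) (algebraMap V Ω)))) P n) := by
  have f3 := fs_map τ _ f2
  rw [show (fun i => map τ (Sum.elim g (gc G) i)) =
    Sum.elim (fun i => map τ (g i)) fun q => map τ (gc G q) from
      funext fun i => by cases i <;> rfl] at f3
  refine (Tubc.tub (w := ϖ) _ _ (fs_map τ g f1) f3).imp fun k₀ hk k h c₀ h0 η P e1 e3 n => ?_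
  obtain ⟨D, _, _, β, e, c, hβ, he, hc, hD⟩ := exD V
    (fun v => (Ideal.Quotient.mk _ (X v) : JX τ g))
    fun q => algebraMap Ω (JX τ g) (τ c₀) * Ideal.Quotient.mk _ (map τ (gc G q))
  have hc' (q) : algebraMap Ω (JX τ g) (algebraMap V Ω ϖ ^ k) * β (c q) =
      Ideal.Quotient.mk _ (map τ (gc G q)) := by
    rw [hc, ← mul_assoc, ← map_mul, h0, map_one, one_mul]
  obtain ⟨hw, hT⟩ := hk k h D β e c hβ he (fun q => by
    rw [map_mul, map_pow, β.commutes, IsScalarTower.algebraMap_apply V Ω, ← map_pow, hc']) hD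
  have hr : YJ.RK fun v => β (e v) := rk _ _ _ (ev0 τ g (RingHom.id _) he)
  obtain ⟨S, hL, hS⟩ := Jr.ln_QY (β : D →+* JX τ g) hβ (algebraMap Ω _)
    (Units.mkOfMulEqOne _ _ h0) (e := e)
    ⟨hβ (by rw [map_sum, map_one]; exact hr.1), fun a b x y => hβ (by
      rw [map_mul, map_mul]; exact hr.2 a b x y)⟩ (fun j => map τ (G j)) (fun j => (hG j).map τ)
    (fun j i => c (j, i)) fun j i => (hc' (j, i)).trans (by
      rw [eval₂_map]
      exact (ev τ g (RingHom.id _) he _).symm.trans (eval₂_rename _ _ _ _))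
  have hQ (a i) : (β : D →+* JX τ g) (Jr.QY e (fun j i => c (j, i)) r a i) =
      Ideal.Quotient.mk _ (map τ (rename (fun k => (k, i)) (yv G r c₀ a))) := by
    rcases a with j | m
    · refine (hc (j, i)).trans ?_
      rw [yv, Sum.elim_inl, map_mul, map_mul, map_mul, rename_C, map_C]
      rfl
    · refine (map_pow β _ _).trans ?_
      rw [yv, Sum.elim_inr, map_pow, map_pow, map_pow, rename_X, map_X, he]
  obtain ⟨φ, hφ, a1, a2, a3⟩ := exφ hQ hM ϖ hL hβ β.commutes he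
  exact tb0 h2 hK hR Bd ϖ hl hL hS hD hw hT _ φ hφ a1 _ a2 a3 e1 e3
    (e1 ▸ eta_le hQ hM ϖ hL hS) n

end Tbx

theorem tbx (h2 : LES2_s) (hK : KL_s) (hR : RET_s) (hM : MOD_s) (hB : BA_s) : TBX_s := by
  intro p l _ _ hlp K ν ρ J φ _ _ _ _ τ o d r g G F hX f2
  obtain ⟨_, hl⟩ := Tbx.vv p l hlp
  obtain ⟨Bd⟩ := hB l
  refine (Tbx.tbw h2 hK hR hM Bd (p : VV p) hl τ g G r hX.hom hX.fs f2 hX.rk).imp
    fun k₀ h k hk η O e1 e2 => h k hk _ ?_ η O (by rw [map_natCast]; exact e1) e2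
  rw [map_natCast, map_inv₀, map_pow, map_natCast]
  exact mul_inv_cancel₀ (pow_ne_zero _ (Nat.cast_ne_zero.2 (Fact.out : p.Prime).ne_zero))

end Pool.Agent.MP_855f4c_ag.A

end

section

/-! h14a row XL: the lift of `(σ - 1) ^ 2` on an affine bundle. -/

set_option autoImplicit false
set_option backward.isDefEq.respectTransparency false

open CategoryTheory Limits Abelian Opposite AlgebraicGeometry Function

namespace Pool.Agent.MP_855f4c_ag.A

open E E3 E4 T T.Pbc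

namespace Xl

lemma dec {A : Type 1} [AddCommGroup A] (S : A →+ A) {n : ℕ} (h : ∀ a, S^[n] a = a) (a : A) :
    ∃ b c, S c = c ∧ n • a = (S b - b) + c := by
  have key (j : ℕ) : ∃ b c, j • a = (S b - b) + c ∧ S c - c = S^[j] a - a := by
    induction j with
    | zero => exact ⟨0, 0, by simp, by simp⟩
    | succ j ih =>
      obtain ⟨b, c, h1, h2⟩ := ih
      refine ⟨b - c, S c + a, by rw [succ_nsmul, h1, map_sub]; abel, ?_⟩
      have := congrArg S h2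
      rw [map_sub, map_sub] at this
      rw [map_add, iterate_succ_apply', ← sub_add_cancel (S (S^[j] a)) (S a), ← this]
      abel
  obtain ⟨b, c, h1, h2⟩ := key n
  exact ⟨b, c, sub_eq_zero.1 (by rw [h2, h, sub_self]), h1⟩

lemma dec2 {A : Type 1} [AddCommGroup A] (S : A →+ A) {n : ℕ} (h : ∀ a, S^[n] a = a) (a : A) :
    ∃ b c, S c = c ∧ (n * n) • a = (S (S b - b) - (S b - b)) + c := by
  obtain ⟨b, c, h1, h2⟩ := dec S h a
  obtain ⟨b', c', h3, h4⟩ := dec S h b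
  refine ⟨b', n • c, by rw [map_nsmul, h1], ?_⟩
  rw [mul_smul, h2, smul_add, smul_sub, ← map_nsmul, h4, map_add, h3]
  abel

variable {l : ℕ} [Fact l.Prime]

lemma ke_act (B : BA l) {T : Scheme.{0}} (U O : T.Opens) {n m r : ℕ} (h : n + m = r)
    (x : KK l T U O n) (y : EE l T m) :
    ke l U O r (B.act (𝟙 T) U O n m r h x y) = (ke l U O n x).comp y h :=
  (congrArg (se l U r) (B.act_ks U O n m r h x y)).trans (Kl.se_comp h _ y)

/-- The product formula on `X`. -/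
lemma key {T : Scheme.{0}} (s : T ⟶ T) {n N : ℕ} (hn : 0 < n) (h1 : ∀ i x, (epb l s i)^[n] x = x)
    (hz : ∀ y : HH l T N, hpb l s N y = y) (hv : ∀ i, N < i → ∀ x : HH l T i, x = 0)
    (hk : ∃ c : ℕ, ∀ x : EE l T N, (∀ a, tau x a = 0) → l ^ c • x = 0)
    (hl : ∀ (i j : ℕ) (h : j + i = N) (α : EE l T i) η, (∃ a, tau α a ≠ 0) →
      ∃ (m : ℕ) (α' : EE l T j), α'.comp α h = l ^ m • η) (η : EE l T N) (i : ℕ) (y : EE l T i)
    (hy : ¬ ∀ a, tau (epb l s i y - y) a = 0) :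
    ∃ (k : ℕ) (h : k + i = N) (x' : EE l T k) (M : ℕ), M ≠ 0 ∧
      (epb l s k (epb l s k x' - x') - (epb l s k x' - x')).comp (epb l s i y - y) h = M • η := by
  have hi : i ≤ N := not_lt.1 fun h => hy fun a => hv i h _
  have h : N - i + i = N := by omega
  obtain ⟨m, α, hα⟩ := hl i _ h _ η (not_forall.1 hy)
  obtain ⟨b, c, h2, h3⟩ := dec2 (epb l s (N - i)) (h1 _) α
  obtain ⟨e, he⟩ := hk
  let μ := (Ext.bilinearComp (Linf l T) (Linf l T) (Linf l T) (N - i) i N h).flip (epb l s i y - y)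
  have h4 : l ^ e • μ c = 0 := he _ fun a => by
    have : μ c = epb l s N (c.comp y h) - c.comp y h := by
      rw [epb_mul, h2]
      exact map_sub (Ext.bilinearComp _ _ _ (N - i) i N h c) _ _
    rw [this]
    refine (map_sub (pre (ta l T a) _ N) _ _).trans (sub_eq_zero.2 ?_)
    exact (tau_pb s _ a).symm.trans (hz _)
  have h5 := congrArg (fun z => l ^ e • μ z) h3
  simp only [map_add, smul_add, h4, add_zero, map_nsmul] at h5
  have l0 : l ≠ 0 := (Fact.out : l.Prime).ne_zero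
  refine ⟨_, h, l ^ e • b, l ^ e * (n * n * l ^ m), by positivity, ?_⟩
  rw [map_nsmul, ← smul_sub, map_nsmul, ← smul_sub, mul_smul, mul_smul, ← hα]
  exact (map_nsmul μ _ _).trans h5.symm

end Xl

theorem xl : XL_s := by
  intro l _ B K Ω _ _ _ _ τ X f _ d _ D j _ σ hσ n Y W q O ρ s t hI ⟨x₀, hx₀⟩ hj hn hσn hz hO hρ
    hs ht
  have : Smooth f := SmoothOfRelativeDimension.smooth d f
  have hd := chart_of E.D.twf K X f d
  let π : (fbr f (spc τ)).left ⟶ X := (fbr f (spc τ)).hom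
  let j' := pullback.fst π j
  let V : (fbr f (spc τ)).left.Opens :=
    π ⁻¹ᵁ ⟨(Set.range j)ᶜ, j.isClosedEmbedding.isClosed_range.isOpen_compl⟩
  have hV : ∀ x, x ∈ V ↔ x ∉ Set.range j' := fun x => by
    rw [Scheme.Pullback.range_fst]; rfl
  have hl : Linv l (fbr f (spc τ)).left :=
    (Linv.spec (isUnit_iff_ne_zero.2 (Nat.cast_ne_zero.2 (Fact.out : l.Prime).ne_zero))).of_hom
      (pullback.fst (spc τ) f)
  have hj' : j' ≫ sb f (spc τ) σ hσ = j' := pullback.hom_ext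
    ((Category.assoc _ _ _).trans (congrArg _ (Endr.sb_fst f _ σ hσ)))
    ((Category.assoc _ _ _).trans ((congrArg _ (Endr.sb_snd f _ σ hσ)).trans (by
      have e : j' ≫ π = pullback.snd π j ≫ j := pullback.condition
      change j' ≫ π ≫ σ = j' ≫ π
      rw [← Category.assoc, e, Category.assoc, hj])))
  obtain rfl : O = q ⁻¹ᵁ V := TopologicalSpace.Opens.ext (Set.ext hO)
  refine ⟨fun i => (kpb l q ⊥ _ ⊥ V i).comp (lamA hV hl hj' i), fun ψ h θ hθ i x => ?_,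
    fun w i x hx => ?_⟩
  · have e : fa f ψ h ≫ π = π := pullback.lift_snd _ _ _
    have h1 : fa f ψ h ⁻¹ᵁ V = V := congrArg (· ⁻¹ᵁ (⟨(Set.range j)ᶜ,
      j.isClosedEmbedding.isClosed_range.isOpen_compl⟩ : X.Opens)) e
    have h2 : θ ⁻¹ᵁ q ⁻¹ᵁ V = q ⁻¹ᵁ V := congr($hθ ⁻¹ᵁ V).trans (congrArg (q ⁻¹ᵁ ·) h1)
    rw [AddMonoidHom.comp_apply, AddMonoidHom.comp_apply,
      ← lamA_nat hV hl hj' hV hl hj' (Endr.sb_fa f ψ h σ hσ) h1.le]
    exact (Kl.kpb_kpb hθ bot_le bot_le le_rfl h2.le _).trans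
      (Kl.kpb_kpb rfl bot_le bot_le h1.le le_rfl _).symm
  · obtain ⟨-, k2, k3, -⟩ := All.hKPD l K Ω τ X f d hd hI
    obtain ⟨w, rfl⟩ := (ret l W Y _ ρ q s t ⊥ _ ⊥ V (2 * d) hρ (Kl.fib l K Ω τ X f d hd hI).1 hl
      isCompact_empty hs ht rfl rfl).2 w
    have h1 (i : ℕ) (x) (m : ℕ) : (epb l (sb f (spc τ) σ hσ) i)^[m] x =
        epb l (sb f _ (σ ^ m : End X) (Endr.pow_f f σ hσ m)) i x := by
      induction m with
      | zero => exact (epb_id x).symm.trans (congrArg (epb l · i x) (Endr.sb_id f _ _).symm)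
      | succ m ih =>
        rw [iterate_succ_apply', ih, ← epb_comp]
        exact congrArg (epb l · i x) (Endr.sb_comp f _ _ _ hσ _ (Endr.pow_f f σ hσ (m + 1))).symm
    obtain ⟨k, h, x', N, hN, e⟩ := Xl.key (sb f (spc τ) σ hσ) hn (fun i x => by
      rw [h1]
      generalize Endr.pow_f f σ hσ n = a
      revert a
      rw [hσn]
      exact fun a => (congrArg (epb l · i x) (Endr.sb_id f _ a)).trans (epb_id x)) hz k2 (k3 _)
      (Kl.kpdl l K Ω τ X f d hd hI) (ke l ⊥ V _ w) i _ hx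
    refine ⟨k, h, x', N, hN, ?_⟩
    have : IrreducibleSpace (pullback (spc τ) f : Scheme.{0}) := hI
    obtain ⟨y, -, hy⟩ := Scheme.exists_preimage_of_isPullback (IsPullback.of_hasPullback (spc τ) f)
      (IsLocalRing.closedPoint Ω) x₀ (Subsingleton.elim _ _)
    have inj : Injective (ke l ⊥ V (2 * d)) := by
      have := Lam.π_bot (l := l) (T := (fbr f (spc τ)).left)
      exact (funext fun k => (ke_pre ⊥ V k).symm : _ ∘ ⇑(pre (πU l ⊥) _ (2 * d)) = _) ▸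
        (Topx.topx l (pullback.fst (spc τ) f) (E.D.twf.2.2 d X _ _ _ f _ (spc τ) _
          (IsPullback.of_hasPullback (spc τ) f).flip inferInstance hd) V
          ⟨y, fun hh => hx₀ (hy ▸ hh)⟩).1.comp (pre_bij _ _ _).1
    rw [AddMonoidHom.comp_apply, AddMonoidHom.comp_apply, Kl.ke_kpb q bot_le le_rfl,
      ← B.act_nat (𝟙 _) (𝟙 _) q q ⊥ V ⊥ _ k i _ h _ _ (by simp) (fun z _ => ⟨z, rfl⟩)
        (fun z _ => ⟨z, rfl⟩) bot_le le_rfl, ← map_nsmul]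
    refine congrArg _ (inj ?_)
    rw [Xl.ke_act, ke_lamA, ke_lamA, e, map_nsmul]

end Pool.Agent.MP_855f4c_ag.A

end
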