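import Pool.Agent.MP_855f4c_ag.AC.Ar
import Pool.Agent.MP_855f4c_ag.AC.As

set_option linter.all false

section

/-! h14a row CORE: the main argument for one reflection. -/

set_option autoImplicit false
set_option backward.isDefEq.respectTransparency false

open CategoryTheory Limits Abelian Opposite AlgebraicGeometry Function TensorProduct MvPolynomial

namespace Pool.Agent.MP_855f4c_ag.A

open E E3 E4 T

attribute [local instance] MvPolynomial.gradedAlgebra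

namespace Cor

section tens
variable (A Ω C C' : Type) [CommRing A] [CommRing Ω] [Algebra A Ω] [CommRing C]
  [CommRing C'] [Algebra A C] [Algebra A C'] [Algebra C C'] [IsScalarTower A C C']

lemma bc_iL : (bc A Ω C C').comp (iL A Ω C) = iL A Ω C' :=
  RingHom.ext fun x => by simp [bc, iL]

lemma bc_iR (x : C) : bc A Ω C C' (iR A Ω C x) = iR A Ω C' (algebraMap C C' x) := by
  simp [bc, iR]

lemma bc_surj (h : Surjective (algebraMap C C')) : Surjective (bc A Ω C C') :=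
  Algebra.TensorProduct.map_surjective _ _ surjective_id h

lemma bc_ker (h : Surjective (algebraMap C C')) :
    RingHom.ker (bc A Ω C C') = (RingHom.ker (algebraMap C C')).map (iR A Ω C) :=
  Algebra.TensorProduct.lTensor_ker (IsScalarTower.toAlgHom A C C') h

variable {A Ω} (σ : Ω ≃ₐ[A] Ω)

lemma tw_iL : (tw σ C).comp (iL A Ω C) = (iL A Ω C).comp (σ : Ω →+* Ω) :=
  RingHom.ext fun x => by simp [T.tw, iL]

lemma tw_iR (x : C) : tw σ C (iR A Ω C x) = iR A Ω C x := by simp [T.tw, iR]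

lemma tw_bc : (tw σ C').comp (bc A Ω C C') = (bc A Ω C C').comp (tw σ C) :=
  RingHom.ext fun x => by
    induction x with
    | zero => simp
    | tmul a b => simp [T.tw, bc]
    | add a b ha hb => rw [map_add, map_add, ha, hb]

end tens

section ft
variable {κ D D' : Type} [Fintype κ] [DecidableEq κ] [CommRing D] [CommRing D'] {c : ℕ}
  {e e' : Fin c → κ → ℕ} (c₀ : MI e → D) (c' : MI e' → D)

lemma ev_gen (ψ : D →+* D') (x : XY κ → D') (B : ℕ) (a : Fin c) :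
    eval₂ ψ x (gen (fun i => C (c₀ i)) a fun v => X (.inl v) ^ B) =
      gen (ψ ∘ c₀) a fun v => x (.inl v) ^ B := by
  simp [gen, mon, eval₂_sum, eval₂_prod]

lemma ev_ft (ψ : D →+* D') (x : XY κ → D') (A B : ℕ) (τ : D) (a : Fin c) (h : ψ τ = 1) :
    eval₂ ψ x (ft c₀ c' A B τ a) = gen (ψ ∘ c₀) a fun v => x (.inl v) ^ B := by
  rw [ft, eval₂_add, eval₂_mul, eval₂_sub, eval₂_C, h, ev_gen]
  ring

lemma hg_ft {n : κ → ℤ} (A B : ℕ) (τ : D) (a : Fin c) (h1 : ∀ k, n k = (A * e' a k : ℕ))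
    (h2 : Hg n (gen (fun i => C (c₀ i)) a fun v => X (.inl v) ^ B)) : Hg n (ft c₀ c' A B τ a) := by
  have h3 : Hg n (gen (fun i => C (c' i)) a (fun v => X (.inl v)) ^ A) :=
    (congrArg (IsWeightedHomogeneous wt _) (funext fun k => by simp [h1])).mpr
      ((M0.gen_hg c' a).pow A)
  exact h3.add (IsWeightedHomogeneous.C_mul (h2.sub h3) τ)

lemma map_gen' (ψ : D →+* D') (B : ℕ) (a : Fin c) :
    map ψ (gen (fun i => C (c₀ i)) a fun v => (X (.inl v) : MvPolynomial (XY κ) D) ^ B) =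
      gen (fun i => C (ψ (c₀ i))) a fun v => X (.inl v) ^ B := by
  simp [gen, mon]

end ft

/-- The action on the double model. -/
lemma ex_theta {K Ω ν ρ J : Type} [CommRing K] [CommRing Ω] [Fintype ν] [Fintype J] (τ : K →+* Ω)
    (g : ρ → MvPolynomial (ν × ν) K) (y : NV ν J → MvPolynomial ν K) (ψ : Ω →+* Ω)
    (h : ψ.comp τ = τ) : ∃ θ : JW τ g y →+* JW τ g y,
      θ.comp (algebraMap Ω _) = (algebraMap Ω _).comp ψ ∧ ∀ v, θ (wJ τ g y v) = wJ τ g y v := by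
  refine ⟨Ideal.quotientMap _ (map ψ) (Ideal.span_le.2 ?_), RingHom.ext fun a => ?_, fun v => ?_⟩
  · rintro _ ⟨t, rfl⟩
    refine Ideal.subset_span ⟨t, ?_⟩
    simp only [MvPolynomial.map_map, h]
  · exact congrArg (Ideal.Quotient.mk _) (map_C ψ a)
  · exact congrArg (Ideal.Quotient.mk _) (map_X ψ v)

/-- The choice of the radius. -/
lemma ex_k {p : ℕ} [Fact p.Prime] {K ν ρ J φ : Type} [Field K] [Algebra K (PadicAlgCl p)]
    [Fintype ν] {o : ν} {d r : ℕ} {g : ρ → MvPolynomial (ν × ν) K} {G : J → MvPolynomial ν K}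
    {F : φ → MvPolynomial {k // k ≠ o} K} (h : XA o d r g G F) {u : ν → PadicAlgCl p} (h1 : u o = 1)
    (h2 : ∀ i, eval₂ (algebraMap K _) (fun k : {k // k ≠ o} => u k) (F i) = 0) (k₀ : ℕ) :
    ∃ k ≥ k₀, ∃ j, ∀ i, ‖u i ^ r‖ < ‖aeval u (yv G r ((p : K) ^ k)⁻¹ (.inl j))‖ := by
  classical
  have hc : T.Cov u (Pi.single o 1) := by simp [T.Cov, Pi.single_apply, h1]
  have h3 := h.van _ (algebraMap K _) u _ hc
    ((h.chart _ (algebraMap K _) u _ (fun k => u k) hc fun k => by rw [h1, one_mul]).2 h2)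
  obtain ⟨j, hj⟩ := not_forall.1 fun h4 => one_ne_zero (h1.symm.trans (h3.1 h4))
  have hp : (1 : ℝ) < p := Nat.one_lt_cast.2 (Fact.out : p.Prime).one_lt
  have hn : 0 < ‖aeval u (G j)‖ := norm_pos_iff.2 hj
  obtain ⟨k, hk⟩ := pow_unbounded_of_one_lt ((∑ i, ‖u i ^ r‖) / ‖aeval u (G j)‖) hp
  refine ⟨k + k₀, le_add_self, j, fun i => ?_⟩
  have e : ‖(p : PadicAlgCl p)‖ = (p : ℝ)⁻¹ := by
    rw [← map_natCast (algebraMap ℚ_[p] (PadicAlgCl p)), norm_algebraMap', Padic.norm_p]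
  have : ‖aeval u (yv G r ((p : K) ^ (k + k₀))⁻¹ (.inl j))‖ = p ^ (k + k₀) * ‖aeval u (G j)‖ := by
    simp [yv, e]
  rw [this]
  refine (Finset.single_le_sum (fun i _ => norm_nonneg (u i ^ r)) (Finset.mem_univ i)).trans_lt ?_
  exact ((div_lt_iff₀ hn).1 hk).trans_le
    (mul_le_mul_of_nonneg_right (pow_le_pow_right₀ hp.le le_self_add) hn.le)

/-- `ENDR_s` -/
def END : Prop := ∀ (l : ℕ) [Fact l.Prime] (K R Ω : Type) [Field K] [CommRing R]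
  [Algebra.FiniteType ℤ R] [Field Ω] [IsAlgClosed Ω] [CharZero Ω] [Algebra K Ω] [Algebra R Ω]
  (X X' : Scheme.{0}) (f : X ⟶ Spec (.of K)) [Smooth f] [IsProper f] (f' : X' ⟶ Spec (.of R))
  [IsProper f'] (d T k Q m M M' : ℕ) (φ u : Ω ≃ₐ[K] Ω) (φ' u' : Ω ≃ₐ[R] Ω) (ψ v : Ω →+* Ω)
  (hψ : spc ψ ≫ spc (algebraMap K Ω) = spc (algebraMap K Ω))
  (hv : spc v ≫ spc (algebraMap K Ω) = spc (algebraMap K Ω))
  (hψ' : spc ψ ≫ spc (algebraMap R Ω) = spc (algebraMap R Ω))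
  (hv' : spc v ≫ spc (algebraMap R Ω) = spc (algebraMap R Ω))
  (σ : End X) (hσ : σ ≫ f = f) (n : ℕ), 0 < n → σ ^ n = 1 →
  D.Chart d f → IrreducibleSpace (fbr f (spc (algebraMap K Ω))).left → 1 < Q → 0 < m →
    k = 2 * T → M = (Q ^ m) ^ T → M' = 1 → (∀ z, ψ z = (φ ^ m) z) → (∀ z, v z = (u ^ m) z) →
    (∀ z, ψ z = φ' z) → (∀ z, v z = u' z) → Tw l ψ (Q ^ m) →
    (∀ i : ℕ, Mglue.MG f' l i (Q ^ m) φ' u') →
    (∀ y : HH l (fbr f (spc (algebraMap K Ω))).left (2 * d), hpb l (sb f _ σ hσ) _ y = y) →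
    ∀ ε : ∀ i, EE l (fbr f (spc (algebraMap K Ω))).left i →+ QZ l →+
        HH l (fbr f' (spc (algebraMap R Ω))).left (i + k),
      (∀ i α, ε i α = 0 → ∀ x, tau (epb l (sb f _ σ hσ) i (epb l (sb f _ σ hσ) i α - α) -
        (epb l (sb f _ σ hσ) i α - α)) x = 0) →
      (∀ i α x, hpb l (fa f' ψ hψ') _ (ε i α x) = M • ε i (epb l (fa f ψ hψ) i α) x) →
      (∀ i α x, hpb l (fa f' v hv') _ (ε i α x) = M' • ε i (epb l (fa f v hv) i α) x) →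
      ∀ i : ℕ, MR f σ hσ l i Q φ u

theorem endw : END := endr

end Cor

open Cor in
theorem core (hB : BA_s) (hG : SG_s) (hX : XAE_s) (hT : TBX_s) (hZ : ZF_s) (hL : XL_s)
    (hJ : JFS_s) (hW : WP_s) (hC : CS_s) (hO : OPR2_s) (hI : MIDR_s) (hS : SUP_s) (hE : EPS2_s) :
    CORE_s := by
  classical
  intro p l _ _ hlp K _ _ X f d N₀ _ _ ι _ hι D j _ _ _ hj hne σ hσ hjσ n hn σn i φ u Q hQ hφ hu hr
  have hl : (l : PadicAlgCl p) ≠ 0 := Nat.cast_ne_zero.2 (Fact.out : l.Prime).ne_zero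
  have hp : 0 < p := (Fact.out : p.Prime).pos
  have : Smooth f := SmoothOfRelativeDimension.smooth d f
  have : IsProper f := hι ▸ Lr.prp K _ ι
  have hirr : IrreducibleSpace (fbr f (spc (algebraMap K (PadicAlgCl p)))).left :=
    GeometricallyIrreducible.geometrically_irreducibleSpace _ _ _
      (IsPullback.of_hasPullback _ f).flip
  have ch := chart_of E.D.twf K X f d
  obtain ⟨Ch⟩ := All.hCHERN l (PadicAlgCl p) hl
  obtain ⟨BB⟩ := hB l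
  obtain ⟨Γ⟩ := hG l
  obtain ⟨n₁, n₂, n₃, r₀, g, G, F, x, xa, fs, x1, x2, hq⟩ :=
    hX K (PadicAlgCl p) (algebraMap K _) X f d _ 0 ι D j hι hj hne
  obtain ⟨k₀, hk₀⟩ := hT p l hlp K _ _ _ _ (algebraMap K (PadicAlgCl p)) 0 d r₀ g G F xa fs
  obtain ⟨k₁, hk₁, j₀, hj₀⟩ := ex_k xa x1 x2 k₀
  have tb := hk₀ k₁ hk₁
  have c0 : ((p : K) ^ k₁)⁻¹ ≠ 0 := inv_ne_zero (pow_ne_zero _ (M0.p_ne p K))
  generalize ((p : K) ^ k₁)⁻¹ = c₁ at hj₀ tb c0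
  obtain ⟨q, q1, ⟨Wa, ρa, sa, ta, q2, q3, q4⟩, q5⟩ := hq c₁ c0
  have ze := hZ l K _ (algebraMap K (PadicAlgCl p)) X f d D j σ hσ n hirr hjσ hn σn
  obtain ⟨lam, l1, l2⟩ := hL l BB K _ (algebraMap K (PadicAlgCl p)) X f d D j σ hσ n _ Wa q _ ρa sa
    ta hirr hne hjσ hn σn ze q1 q2 q3 q4
  obtain ⟨ℓ, κ, β, _, _, _, _, c, e, cf, W₀, iso, w1, w2⟩ :=
    hW p K _ _ _ _ 0 d r₀ g G F c₁ x xa c0 x1 x2
  obtain ⟨r, hr'⟩ := hC p K _ _ _ κ β 0 d c g _ x ℓ e cf W₀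
    (hJ K _ _ _ g G r₀ c₁ xa.hom xa.fs xa.rk) w1 w2
  obtain ⟨Δ, hΔ, ρ, hρ, R, _, _, Z, FF, z, cu, -, _, zl, fam⟩ :=
    Mglue.fam All.hFAM p l hlp κ c fun a k => p ^ r * e a k
  obtain ⟨N, E, W, rN, hE1, w3, hM2⟩ := hr' Δ hΔ ρ hρ
  obtain ⟨k, O, s₁, s₂, hk, o1, o2, o3, o4, o5, o6, o7, o8, o9, t1, t2, vr, n1, n2⟩ :=
    hO p l hlp K φ u Q E hQ hφ hu hr hE1
  obtain ⟨c₀, c', hc₀, hc', hM3⟩ := hM2 O o2 o4
  obtain ⟨_, r1, r2, mw⟩ := fam (fun j => c' j) (fun j => o1 _ (c' j).2) hc'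
  obtain ⟨B, _, _, b1, b2, b3⟩ := hens (JT κ O) (Ideal.span {(p : JT κ O)})
  let _ : Algebra O B := ((algebraMap (JT κ O) B).comp (algebraMap O (JT κ O))).toAlgebra
  have := IsScalarTower.of_algebraMap_eq (R := O) (S := JT κ O) (A := B) fun _ => rfl
  have b2' : Hens B (Ideal.span {(p : B)}) := by simpa [Ideal.map_span] using b2
  obtain ⟨C₀, _, _, _, _, _⟩ : ∃ (C₀ : Type) (_ : CommRing C₀) (_ : Algebra B C₀) (_ : Algebra O C₀)
      (_ : IsScalarTower O B C₀), IsLocalization.Away (p : B) C₀ :=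
    ⟨Localization.Away (p : B), _, _, _, inferInstance, inferInstance⟩
  obtain ⟨χ, c1, c2⟩ := chi p K O C₀ o4 (by
    simpa using IsLocalization.Away.algebraMap_isUnit (S := C₀) (p : B))
  obtain ⟨e₀, he₀⟩ : ∃ e₀ : EV κ → C₀,
    e₀ = algebraMap B C₀ ∘ algebraMap (JT κ O) B ∘ C ∘ je (noEq κ O) := ⟨_, rfl⟩
  obtain ⟨τ, hτ⟩ : ∃ τ : C₀, τ = algebraMap B C₀ (algebraMap (JT κ O) B (MvPolynomial.X ())) :=
    ⟨_, rfl⟩
  have jp : JP e₀ := he₀ ▸ Twt.jp_map _ (Twt.jp_map _ (Twt.jp_map C (jp_je (noEq κ O))))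
  have ec : algebraMap O C₀ ∘ c₀ = χ ∘ cf := funext fun i => (c1 _ _ (hc₀ i).symm).symm
  obtain ⟨f₀, hf₀⟩ : ∃ f₀ : Fin c → MvPolynomial (XY κ) C₀, ∀ a, ft (algebraMap O C₀ ∘ c₀)
    (algebraMap O C₀ ∘ c') (p ^ (N - r)) (p ^ N) τ a = f₀ a := ⟨_, fun _ => rfl⟩
  have g1 (a) : Hg (W.nf a) (f₀ a) := hf₀ a ▸ hg_ft _ _ _ _ _ _
    (fun k => by
      rw [(w3 a).1, ← mul_assoc, ← pow_add, Nat.sub_add_cancel rN.le])
    (by
      have := M0.hg_map χ (W.hf a)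
      rw [(w3 a).2, map_gen'] at this
      rw [ec]
      exact this)
  have g2 (D : Type) [CommRing D] (ψ : C₀ →+* D) (a : XY κ → D) (h : ψ τ = 1) (k) :
      eval₂ ψ a (f₀ k) = eval₂ (ψ.comp χ) a (W.f k) := by
    rw [← hf₀, ev_ft _ _ _ _ _ _ _ _ h, (w3 k).2, ev_gen, ec]
    rfl
  choose If i1 i2 using fun a => W0.zer e₀ _ _ jp (g1 a)
  choose Is i3 i4 using fun t => W0.zer e₀ _ _ jp (M0.hg_map χ (W.hs t))
  obtain ⟨C₁, P, H, R₁, _, _, _, _, _, _, _, _, _, _, _, _, _, wP, eps, nn, zz, cp⟩ :=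
    hM3 B C₀ χ b1 b2' c1 e₀ τ If Is he₀ hτ (fun a => ⟨i1 a, hf₀ a ▸ i2 a⟩) fun t => ⟨i3 t, i4 t⟩
  obtain ⟨rl, ω, m1, m2, m3⟩ := hI p l hlp BB Γ Ch K _ _ _ _ κ β 0 d r₀ c g G F c₁ x ℓ W j₀ O C₀ C₁
    P H R₁ χ e₀ τ _ f₀ If Is wP eps nn zz xa x1 iso hj₀ tb o1 o3 vr c2 jp i2 i4 rfl
    (fun D _ ψ a _ => g2 D ψ a) cp
  have zl' := Mglue.zl zlb zl r1
  obtain ⟨Z₀, F₀, z₀, -, zl₀⟩ := zlx κ 0 Fin.elim0 _ (noEq κ (PadicAlgCl p))
  obtain ⟨C', _, _, _, _, t₀, t, s1, s2, s3, s4, s5, s6, s7, s8, s9, s10⟩ :=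
    hS p l O κ c e _ c₀ c' B C₀ Z₀ _ F₀ _ z₀ _ e₀ τ _ _ If hlp o1 o3 b1 b3 b2' zl₀ zl' he₀ hτ
      (pow_pos hp _) fun a => hf₀ a ▸ i2 a
  obtain ⟨ε, e1, e2⟩ := hE l K _ _ _ _ κ β Γ Ch (algebraMap K (PadicAlgCl p)) 0 d c g _ x ℓ W
    _ _ _ (iL O _ C₀) (iR O _ C₀ ∘ e₀) (iR O _ C₀ τ) (fun a => map (iR O _ C₀) (f₀ a))
    (fun a => (If a).map (iR O _ C₀)) (fun b => (Is b).map (iR O _ C₀)) (bc O _ C₀ C₁)
    (bc O _ C₀ C') Z₀ _ F₀ z₀ t₀ t _ (fun i => (rl i).comp (lam i)) (rl _ ω)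
    (fun i α => ∀ a, tau (epb l (sb f _ σ hσ) i (epb l (sb f _ σ hσ) i α - α) -
      (epb l (sb f _ σ hσ) i α - α)) a = 0) x1 (Twt.jp_map _ jp)
    (fun a => ⟨M0.hg_map _ (g1 a), Twt.zer_map _ (i2 a)⟩)
    (fun b => by
      rw [← c2, ← MvPolynomial.map_map]
      exact Twt.zer_map _ (i4 b))
    (fun D _ ψ a _ h k => by
      rw [eval₂_map, g2 D _ a h, RingHom.comp_assoc, c2, RingHom.comp_assoc])
    (bc_surj _ _ _ _ cp.sur)
    (by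
      rw [bc_ker _ _ _ _ cp.sur, cp.ker]
      simp only [Ideal.add_eq_sup, Ideal.map_sup, Ideal.sum_eq_sup, Finset.sup_univ_eq_iSup,
        Ideal.map_iSup])
    s1 s2 s3 s4 zl₀ s5 s6 s7 s8 s9 (All.hCOFZ l R _ _ Z FF)
    (fun i α h => by
      obtain ⟨k, hk, α', N, hN, e⟩ := l2 ω i α h
      exact ⟨k, hk, α', N, hN, (m1 _ _ _ hk _ _).symm.trans ((congrArg _ e).trans (map_nsmul _ _ _))⟩)
    (by
      have : bc O (PadicAlgCl p) C₀ C₁ ∘ iR O _ C₀ ∘ e₀ = iR O _ C₁ ∘ algebraMap C₀ C₁ ∘ e₀ :=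
        funext fun v => bc_iR _ _ _ _ _
      rw [bc_iL, this, bc_iR]
      exact m3)
  let gg := g
  have fK' (g : PadicAlgCl p ≃ₐ[O] PadicAlgCl p) (g' : PadicAlgCl p ≃ₐ[K] PadicAlgCl p)
      (h : ∀ x, g x = g' x) : (g : PadicAlgCl p →+* PadicAlgCl p).comp (algebraMap K _) =
        algebraMap K _ := RingHom.ext fun x => (h _).trans (g'.commutes x)
  have fK (g : PadicAlgCl p ≃ₐ[O] PadicAlgCl p) (h : (g : PadicAlgCl p →+* PadicAlgCl p).comp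
      (algebraMap K _) = algebraMap K _) : spc (g : PadicAlgCl p →+* PadicAlgCl p) ≫
        spc (algebraMap K (PadicAlgCl p)) = spc (algebraMap K _) :=
    (ZP.spc_spc _ _).trans (congrArg spc h)
  have fR (g : PadicAlgCl p ≃ₐ[O] PadicAlgCl p) (x : R) : g (algebraMap R _ x) = algebraMap R _ x :=
    r2 (g : PadicAlgCl p →+* PadicAlgCl p) (fun j => g.commutes (c' j)) x
  have fR' (g : PadicAlgCl p ≃ₐ[O] PadicAlgCl p) : spc (g : PadicAlgCl p →+* PadicAlgCl p) ≫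
      spc (algebraMap R (PadicAlgCl p)) = spc (algebraMap R _) :=
    (ZP.spc_spc _ _).trans (congrArg spc (RingHom.ext (fR g)))
  have key (g : PadicAlgCl p ≃ₐ[O] PadicAlgCl p) (h) (hn : ∀ x, ‖g x‖ = ‖x‖) (M : ℕ)
      (hg : Tw l (g : PadicAlgCl p →+* PadicAlgCl p) M) (j α y) :
      hpb l (fa FF _ (fR' g)) _ (ε j α y) = (M ^ Fintype.card β) •
        ε j (epb l (fa f (g : PadicAlgCl p →+* PadicAlgCl p) (fK g h)) j α) y := by
    obtain ⟨θ, h1, h2⟩ := ex_theta _ gg (yv G r₀ c₁) _ h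
    exact e2 _ M (tw g C₀) (tw g C₁) (tw g C') _ (fun i => epb l (fa f _ (fK g h)) i) hg h
      (tw_iL _ g) (funext fun v => tw_iR _ g _) (tw_bc _ _ g) (tw_bc _ _ g)
      (s10 g _ (pullback.lift_fst _ _ _) fun k => by
        rw [← Category.assoc]; exact congrArg (· ≫ z k) (pullback.lift_snd _ _ _))
      (fun i α => (m2 g θ hn h1 h2 i _).symm.trans
        (congrArg (rl i) (l1 _ _ _ (q5 _ _ θ h1 h2) i α))) j α y
  exact endw l K R _ X Z f FF d _ _ Q k _ _ φ u (.ofRingEquiv (f := s₁.toRingEquiv) (fR s₁))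
    (.ofRingEquiv (f := s₂.toRingEquiv) (fR s₂)) s₁ s₂ (fK s₁ (fK' s₁ _ o5)) (fK s₂ (fK' s₂ _ o6))
    (fR' s₁) (fR' s₂) σ hσ n hn σn ch hirr hQ hk rfl rfl (one_pow _) o5 o6
    (fun _ => rfl) (fun _ => rfl) t1 (fun j => mw j _ _ _ (Nat.one_lt_pow hk.ne' hQ) o7 o8 o9) ze ε
    e1 (key s₁ (fK' s₁ _ o5) n1 _ t1) (key s₂ (fK' s₂ _ o6) n2 _ t2) i

end Pool.Agent.MP_855f4c_ag.A

end
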