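import Pool.Agent.MP_855f4c_ag.AC.Ak
import Pool.Agent.MP_855f4c_ag.AC.Ah
import Pool.Agent.MP_855f4c_ag.AC.Am
import Pool.Agent.MP_855f4c_ag.AC.Ai

set_option linter.all false

section

/-! h14a rows SPZ, LG, MAT0: semi-purity and invariance of natural classes with supports. -/

set_option autoImplicit false
set_option backward.isDefEq.respectTransparency false

open CategoryTheory Limits Abelian Opposite AlgebraicGeometry Function

namespace Pool.Agent.MP_855f4c_ag.A.Spz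

open E E3 E4 T Eza Pbc

variable {l : ℕ} [Fact l.Prime] {P P' W : Scheme.{0}}

lemma au_tc (U : P.Opens) : Tc l (AU l U) :=
  Tc.coker _ (CLZ.ez_cc (G0.linf_Tc l P).1) (G0.linf_Tc l P)

omit [Fact l.Prime] in
lemma ez_tc (η : P.Opens) {F : Sh (Scheme.etaleTopology.over P)} (h : Tc l F) :
    Tc l ((ez η).obj F) := ⟨CLZ.ez_cc h.1, ez_Tor η (h.pb η.ι).2⟩

lemma au_van (U : P.Opens) : Van U (𝟙 (AU l U)) := by
  rw [van_iff, ← cancel_epi ((pbe U.ι).map (πU l U)), ← Functor.map_comp, Category.comp_id,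
    comp_zero]
  exact pb_πU _ fun t => t.2

lemma ez_van (η U : P.Opens) (V : Over P) (h : ∀ t, V.hom t ∈ U)
    (s : sec ((ez η).obj (AU l U)) V) : s = 0 :=
  Subtype.ext (au_van U V h s.1)

omit [Fact l.Prime] in
/-- Cohomology of a sheaf supported on a closed part. -/
lemma clo (i : P' ⟶ P) [IsClosedImmersion i] (hl : Linv l P)
    {F : Sh (Scheme.etaleTopology.over P)} (hF : Tc l F)
    (h : ∀ V : Over P, (∀ t, V.hom t ∉ Set.range i) → ∀ s : sec F V, s = 0) (q : ℕ)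
    (h0 : ∀ x : H (E.top P') ((pbe i).obj F) q, x = 0) (x : H (E.top P) F q) : x = 0 := by
  let O : P.Opens := ⟨(Set.range i)ᶜ, i.isClosedEmbedding.isClosed_range.isOpen_compl⟩
  have hO : ∀ x : P, x ∈ O ↔ x ∉ Set.range i := fun _ => Iff.rfl
  have h1 := CLZ.iso i hO hl hF.1
  have h2 : (ezι O).app F = 0 := by
    rw [← Category.comp_id ((ezι O).app F), ι_zero]
    exact fun V hV s => h V hV s
  have h3 : IsIso (cokernel.π ((ezι O).app F)) := cokernel.π_of_zero (f := (ezι O).app F) h2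
  have h4 : IsIso ((pbpf i).unit.app F) := by
    rw [← cokernel.π_desc _ _ (CLZ.w i (fun x => (hO x).1) F)]
    infer_instance
  obtain ⟨e⟩ := zb.1 P
  obtain ⟨e'⟩ := zb.1 P'
  refine (injective_iff_map_eq_zero _).1 (post_bij _ ((pbpf i).unit.app F) q).1 x ?_
  obtain ⟨y, hy⟩ := (CLZ.adj_bij i ((pbe i).mapIso e ≪≫ zpb i ≪≫ e'.symm) ((pbe i).obj F) q).2
    (post _ ((pbpf i).unit.app F) q x)
  exact hy.symm.trans (by rw [h0 y, map_zero])

/-- Semi-purity from duality. -/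
lemma core (i : P' ⟶ P) [IsClosedImmersion i] (hl : Linv l P) {N N' : ℕ} (hP : D.PD l P N)
    (j : W ⟶ P) [IsOpenImmersion j] (O : W.Opens) (hO : ∀ w, j w ∉ Set.range i → w ∈ O)
    {n q : ℕ} (hq : q + n = N)
    (h : (D.CD l P' N' ∧ N' < q) ∨ (D.CDZ l P' N' ∧ N' ≤ q + 1 ∧ ∃ w ∈ O, j w ∈ Set.range i))
    (x : Ext.{1} (AU l O) (Linf l W) n) : x = 0 := by
  let O₁ : P.Opens := ⟨(Set.range i)ᶜ, i.isClosedEmbedding.isClosed_range.isOpen_compl⟩
  let U : P.Opens := j ''ᵁ O ⊔ O₁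
  have hU : j ⁻¹ᵁ U = O := by
    refine le_antisymm (fun w hw => ?_) fun w hw => Or.inl ⟨w, hw, rfl⟩
    rcases (show j w ∈ j ''ᵁ O ∨ j w ∈ O₁ from hw) with ⟨w', h1, h2⟩ | h1
    · exact j.isOpenEmbedding.injective h2 ▸ h1
    · exact hO w h1
  obtain ⟨a, ha⟩ := exRp (l := l) j (le_refl (j ⁻¹ᵁ U))
  have := Rp_isIso ha
  revert x
  rw [← hU]
  intro x
  obtain ⟨y, rfl⟩ := (Eza.res j a (lpb l j).hom n).surjective x
  obtain ⟨t, ht⟩ := hP
  have hF := ez_tc j.opensRange (au_tc (l := l) U)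
  suffices y = 0 by rw [this, map_zero]
  refine (ht _ hF n q hq).1 (AddMonoidHom.ext fun z => ?_)
  have hz : z = 0 := by
    refine clo i hl hF (fun V hV s => ez_van _ U V (fun t => Or.inr (hV t)) s) q (fun u => ?_) z
    rcases h with ⟨h1, h2⟩ | ⟨h1, h2, w, hw, p, hp⟩
    · exact h1 _ (hF.pb i) q h2 u
    · refine h1 _ (hF.pb i) (fun k _ _ x hx s => ez_van _ U _ (fun t => ?_) s) q h2 u
      obtain ⟨_, rfl, h3⟩ := (hx t).exists_mem_open (i ⁻¹ᵁ U).2
        ⟨p, show i p ∈ U from hp ▸ Or.inl ⟨w, hw, rfl⟩⟩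
      exact h3
  rw [hz, map_zero, map_zero]

open D in
lemma tw_comp {d d' : ℕ} {Y S S' : Scheme.{0}} {g : Y ⟶ S} (h : TwN d g) {g' : S ⟶ S'}
    (h' : TwN d' g') : TwN (d' + d) (g ≫ g') := by
  induction h with
  | iso g h => exact TWF.bc h' (a := 𝟙 _) (b := g) (.of_horiz_isIso ⟨by simp⟩)
  | step L g _ ih => rw [Category.assoc]; exact .step L _ (ih h')

open D in
lemma aff (K σ : Type) [CommRing K] [Finite σ] : ∃ (P : Scheme.{0}) (g : P ⟶ Spec (.of K))
    (j : Spec (.of (MvPolynomial σ K)) ⟶ P), TwN (Nat.card σ) g ∧ IsOpenImmersion j ∧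
      j ≫ g = spc (algebraMap K _) := by
  obtain ⟨P, g, j, h1, h2, h3⟩ := TWF.aff K (Nat.card σ)
  let e := (MvPolynomial.renameEquiv K (Finite.equivFin σ).symm).toRingEquiv
  refine ⟨P, g, spc (e : _ →+* _) ≫ j, h1, inferInstance, ?_⟩
  rw [Category.assoc, h3, ZP.spc_spc]
  exact congrArg spc (RingHom.ext fun x => MvPolynomial.rename_C _ x)

open MvPolynomial

/-- The universal ring. -/
abbrev UR (Ω ρ σ : Type) [Field Ω] : Type := MvPolynomial σ (MvPolynomial ρ Ω)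

attribute [local instance] algebraMvPolynomial in
open D in
lemma geo (Ω ρ σ : Type) [Field Ω] [Finite ρ] [Finite σ] : ∃ (P P' : Scheme.{0})
    (g : P ⟶ Spec (.of Ω)) (g' : P' ⟶ Spec (.of Ω)) (i : P' ⟶ P) (J : Spec (.of (UR Ω ρ σ)) ⟶ P),
    TwN (Nat.card σ + Nat.card ρ) g ∧ TwN (Nat.card σ) g' ∧ IsClosedImmersion i ∧
      IsOpenImmersion J ∧ ∀ w, J w ∈ Set.range i ↔ ∀ a, C (X a) ∈ w.asIdeal := by
  obtain ⟨Px, gx, jx, x1, x2, x3⟩ := aff Ω σ
  obtain ⟨Py, gy, jy, y1, y2, y3⟩ := aff Ω ρ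
  let o := spc (constantCoeff : MvPolynomial ρ Ω →+* Ω) ≫ jy
  have ho : o ≫ gy = 𝟙 _ := by
    rw [Category.assoc, y3, ZP.spc_spc]
    exact (congrArg spc (RingHom.ext fun x => constantCoeff_C _ x)).trans (Spec.map_id _)
  have s := IsPullback.of_hasPullback gx gy
  have t1 : TwN (Nat.card ρ) (pullback.fst gx gy) := TWF.bc y1 s.flip
  let i : Px ⟶ pullback gx gy := pullback.lift (𝟙 _) (gx ≫ o) (by simp [ho])
  have i1 : i ≫ pullback.fst gx gy = 𝟙 _ := pullback.lift_fst _ _ _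
  have i2 : i ≫ pullback.snd gx gy = gx ≫ o := pullback.lift_snd _ _ _
  have := (TWF.geo t1).1
  have : IsClosedImmersion (i ≫ pullback.fst gx gy) := i1 ▸ inferInstance
  have s2 : IsPullback i gx (pullback.snd gx gy) o :=
    .of_right (by rw [i1, ho]; exact .of_horiz_isIso ⟨by simp⟩) i2 s
  have s3 := isPullback_SpecMap_of_isPushout _ _ _ _ (CommRingCat.isPushout_of_isPushout Ω
    (MvPolynomial σ Ω) (MvPolynomial ρ Ω) (UR Ω ρ σ))
  let J := s3.isoPullback.hom ≫ pullback.map _ _ gx gy jx jy (𝟙 _) (by simp [x3]) (by simp [y3])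
  refine ⟨_, _, _, gx, i, J, tw_comp t1 x1, x1, .of_comp i (pullback.fst gx gy), inferInstance,
    fun w => (pb_mem_range s2.flip _).trans ?_⟩
  have e : J ≫ pullback.snd gx gy = spc (algebraMap _ _) ≫ jy := by simp [J]
  rw [← Scheme.Hom.comp_apply, e, Scheme.Hom.comp_apply]
  constructor
  · rintro ⟨z, hz⟩ a
    have h := jy.isOpenEmbedding.injective ((Scheme.Hom.comp_apply _ _ _).symm.trans hz)
    have h2 : X a ∈ (spc (constantCoeff : MvPolynomial ρ Ω →+* Ω) z).asIdeal := by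
      change constantCoeff (X a) ∈ z.asIdeal
      rw [constantCoeff_X]
      exact zero_mem _
    rw [h] at h2
    exact h2
  · intro h
    have h2 : spc (algebraMap (MvPolynomial ρ Ω) (UR Ω ρ σ)) w ∈ Set.range
        (PrimeSpectrum.comap (constantCoeff : MvPolynomial ρ Ω →+* Ω)) := by
      rw [range_comap_of_surjective _ _ fun x => ⟨C x, constantCoeff_C _ x⟩]
      intro f hf
      have : f ∈ Ideal.span (Set.range (X : ρ → MvPolynomial ρ Ω)) := by
        rw [← Set.image_univ, mem_ideal_span_X_image]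
        intro m hm
        by_contra hc
        have : m = 0 := Finsupp.ext fun a => by
          by_contra h0
          exact hc ⟨a, trivial, h0⟩
        exact mem_support_iff.1 hm (this ▸ hf)
      exact (Ideal.span_le (I := w.asIdeal.comap C)).2 (Set.range_subset_iff.2 h) this
    obtain ⟨z, hz⟩ := h2
    exact ⟨z, (Scheme.Hom.comp_apply _ _ _).trans (congrArg jy hz)⟩

/-- **SPZ**: semi-purity for closed parts of a coordinate subspace. -/
theorem spz (Ω ρ σ : Type) [Field Ω] [IsAlgClosed Ω] [CharZero Ω] [Finite ρ] [Finite σ]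
    (j : W ⟶ Spec (.of (UR Ω ρ σ))) [IsOpenImmersion j] (O : W.Opens)
    (hO : ∀ w a, C (X a) ∉ (j w).asIdeal → w ∈ O) {n : ℕ}
    (h : n < 2 * Nat.card ρ ∨ (n ≤ 2 * Nat.card ρ + 1 ∧ n ≤ 2 * (Nat.card σ + Nat.card ρ) ∧
      ∃ w ∈ O, ∀ a, C (X a) ∈ (j w).asIdeal)) (x : SS l W O n) : x = 0 := by
  obtain ⟨P, P', g, g', i, J, h1, h2, h3, h4, h5⟩ := geo Ω ρ σ
  have hl : IsUnit (l : Ω) := (Nat.cast_ne_zero.2 (Fact.out : l.Prime).ne_zero).isUnit
  have h6 := All.hTOW l Ω _ _ _ h2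
  refine core i ((Linv.spec hl).of_hom g) (All.hPDT l Ω _ _ _ h1) (j ≫ J) O (fun w hw => ?_)
    (q := 2 * (Nat.card σ + Nat.card ρ) - n) (N' := 2 * Nat.card σ) (by omega) ?_ x
  · rw [Scheme.Hom.comp_apply, h5, not_forall] at hw
    exact hw.elim (hO w)
  · rcases h with h | ⟨a, b, w, c, d⟩
    · exact Or.inl ⟨h6.1, by omega⟩
    · exact Or.inr ⟨h6.2.1, by omega, w, c, by rw [Scheme.Hom.comp_apply, h5]; exact d⟩

variable {T T' T'' : Scheme.{0}}

open Kl

/-- The sequence of an open immersion. -/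
lemma les (j : T' ⟶ T) [IsOpenImmersion j] {U V : T.Opens} (h : U ⊔ j.opensRange = V) :
    ∃ d, IsLES (spb l (𝟙 T) U V) (spb l j (j ⁻¹ᵁ U) U) d := by
  have hUV : U ≤ V := le_sup_left.trans h.le
  let b : AU l U ⟶ AU l V := qle hUV (Linf l T)
  have hb : πU l U ≫ b = πU l V := π_qle hUV _
  have := Rp_isIso (rp_Rp (l := l) (U := U) j le_rfl)
  obtain ⟨w, hS⟩ : ∃ w : (ezι j.opensRange).app (AU l U) ≫ b = 0,
      (ShortComplex.mk _ _ w).ShortExact :=
    ⟨_, ses (U := U) (V := V) (F := Linf l T) (b := b) hb h⟩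
  rw [show spb l (𝟙 T) U V = fun n => pre b (Linf l T) n from
    funext fun n => AddMonoidHom.ext fun x => spb_le hUV hb x]
  exact ⟨_, les1 j (rp l j (j ⁻¹ᵁ U) U) (lpb l j).hom hS⟩

lemma ss_top {n : ℕ} (x : SS l T ⊤ n) : x = 0 := by
  have h : 𝟙 (AU l (⊤ : T.Opens)) = 0 := by
    ext V s
    exact au_van ⊤ V.unop (fun _ => trivial) s
  rw [← Ext.mk₀_id_comp x, h, Ext.mk₀_zero, Ext.zero_comp]

/-- **LG**: a class that is locally zero is zero, if the groups one degree lower vanish. -/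
theorem lg {ι : Type} [Finite ι] {W : ι → Scheme.{0}} (j : ∀ s, W s ⟶ T)
    [∀ s, IsOpenImmersion (j s)] (U : T.Opens) (hj : ∀ t, t ∈ U ∨ ∃ s, t ∈ Set.range (j s)) {n : ℕ}
    (h : ∀ s (V : (W s).Opens) (z : SS l V (V.ι ⁻¹ᵁ (j s ⁻¹ᵁ U)) n), z = 0) (x : SS l T U (n + 1))
    (hx : ∀ s, spb l (j s) (j s ⁻¹ᵁ U) U (n + 1) x = 0) : x = 0 := by
  classical
  have := Fintype.ofFinite ι
  have key (S : Finset ι) : ∃ z, spb l (𝟙 T) U (U ⊔ S.sup fun s => (j s).opensRange) _ z = x := by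
    induction S using Finset.induction_on with
    | empty => rw [Finset.sup_empty, sup_bot_eq]; exact ⟨x, spb_id U x⟩
    | insert s S _ ih =>
      rw [Finset.sup_insert]
      generalize (S.sup fun s => (j s).opensRange) = V at ih ⊢
      obtain ⟨z, hz⟩ := ih
      obtain ⟨d, L⟩ := les (l := l) (j s ⁻¹ᵁ V).ι (U := j s ⁻¹ᵁ U) (V := j s ⁻¹ᵁ (U ⊔ V))
        (by rw [Scheme.Opens.opensRange_ι, Scheme.Hom.preimage_sup])
      have h1 : spb l (j s) (j s ⁻¹ᵁ (U ⊔ V)) (U ⊔ V) _ z = 0 := by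
        obtain ⟨y, hy⟩ := (L.e₁ n (spb l (j s) (j s ⁻¹ᵁ (U ⊔ V)) (U ⊔ V) _ z)).1 (by
          refine (spb_spb (g'' := j s) (Category.id_comp _) (by exact fun _ ht => Or.inl ht) le_rfl z).trans ?_
          rw [← hx s, ← hz]
          exact (spb_spb (Category.comp_id _) le_rfl le_sup_left z).symm)
        rw [← hy, h s _ y, map_zero]
      obtain ⟨d', L'⟩ := les (l := l) (j s) (U := U ⊔ V) (V := U ⊔ ((j s).opensRange ⊔ V))
        (by rw [sup_assoc, sup_comm V])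
      obtain ⟨z', hz'⟩ := (L'.e₂ _ z).1 h1
      refine ⟨z', ?_⟩
      rw [← hz, ← hz']
      exact (spb_spb (Category.id_comp _) le_sup_left (sup_le_sup_left le_sup_right U) z').symm
  obtain ⟨z, hz⟩ := key Finset.univ
  have e : (U ⊔ Finset.univ.sup fun s => (j s).opensRange) = ⊤ := top_unique fun t _ =>
    (hj t).imp id fun ⟨s, hs⟩ =>
      Finset.le_sup (f := fun s => (j s).opensRange) (Finset.mem_univ s) hs
  revert z
  rw [e]
  rintro z rfl
  rw [ss_top z, map_zero]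

lemma mem_opI {D β : Type} [CommRing D] (t : β → D) (w : Spec (.of D)) :
    w ∈ opI (Ideal.span (Set.range t)) ↔ ∃ a, t a ∉ w.asIdeal := by
  change ¬ ((Ideal.span (Set.range t) : Set D) ⊆ w.asIdeal) ↔ _
  rw [SetLike.coe_subset_coe, Ideal.span_le, Set.range_subset_iff, not_forall]
  rfl

/-- The generic matrix. -/
noncomputable def gm (Ω β : Type) [Field Ω] : Matrix β β (UR Ω β (β × β)) := .of fun a b => X (a, b)

/-- The universal ring with an invertible matrix. -/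
abbrev UM (Ω β : Type) [Field Ω] [Fintype β] [DecidableEq β] : Type :=
  Localization.Away (gm Ω β).det

/-- A class on the universal space that vanishes along a section is zero. -/
theorem mat (Ω β : Type) [Field Ω] [IsAlgClosed Ω] [CharZero Ω] [Fintype β] [DecidableEq β]
    [Nonempty β] (ψ : UM Ω β →+* MvPolynomial β Ω)
    (hψ : ∀ f, ψ (algebraMap (UR Ω β (β × β)) _ (C f)) = f)
    (O : (Spec (.of (UM Ω β))).Opens) (O' : (Spec (.of (MvPolynomial β Ω))).Opens)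
    (hO : O = opI (Ideal.span (Set.range fun a => algebraMap (UR Ω β (β × β)) _ (C (X a)))))
    (hO' : O' = opI (Ideal.span (Set.range X))) {k : ℕ} (hk : k = 2 * Nat.card β)
    (x : SS l _ O k) (hx : spb l (spc ψ) O' O k x = 0) : x = 0 := by
  let j := spc (algebraMap (UR Ω β (β × β)) (UM Ω β))
  let p := spc (algebraMap (MvPolynomial β Ω) (UR Ω β (β × β)))
  have : IsOpenImmersion j := IsOpenImmersion.of_isLocalization (gm Ω β).det
  have e : spc ψ ≫ j ≫ p = 𝟙 _ := by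
    rw [ZP.spc_spc, ZP.spc_spc]
    exact (congrArg spc (RingHom.ext hψ)).trans (Spec.map_id _)
  have e1 : O = j ⁻¹ᵁ (p ⁻¹ᵁ O') := by
    ext w
    rw [hO, hO']
    exact (mem_opI _ w).trans (mem_opI _ (p (j w))).symm
  subst e1
  have hl : IsUnit (l : MvPolynomial β Ω) := by
    simpa using (Nat.cast_ne_zero.2 (Fact.out : l.Prime).ne_zero : (l : Ω) ≠ 0).isUnit.map
      (C : Ω →+* MvPolynomial β Ω)
  obtain ⟨d, L⟩ := les (l := l) j (U := p ⁻¹ᵁ O') rfl
  have h0 : 0 < Nat.card β := Nat.card_pos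
  obtain ⟨y, rfl⟩ := (L.e₃ k x).1 (spz Ω β (β × β) (𝟙 _) _
    (fun w a h => Or.inl (hO' ▸ (mem_opI _ (p w)).2 ⟨a, h⟩)) (Or.inr ⟨by omega, by
      rw [Nat.card_prod]
      have := Nat.mul_pos h0 h0
      omega, j (spc ψ (spc (constantCoeff : MvPolynomial β Ω →+* Ω) default)), Or.inr ⟨_, rfl⟩,
      fun a => by
        have : constantCoeff (ψ (algebraMap (UR Ω β (β × β)) _ (C (X a)))) ∈
            (default : Spec (.of Ω)).asIdeal := by
          rw [hψ, constantCoeff_X]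
          exact zero_mem _
        exact this⟩) _)
  obtain ⟨z, rfl⟩ := ((spb_bij_iff p rfl).2 (A1k.a1 l _ (β × β) hl (G0.linf_Tc l _) (U := O')
    (hO' ▸ Exce.opI_compact (Submodule.fg_span (Set.finite_range _)))) k).2 y
  have h1 : O' ≤ spc ψ ⁻¹ᵁ (j ⁻¹ᵁ (p ⁻¹ᵁ O')) := by
    rw [← Scheme.Hom.comp_preimage, ← Scheme.Hom.comp_preimage, Category.assoc, e]
    exact le_rfl
  rw [spb_spb (g'' := j ≫ p) rfl le_rfl le_rfl, spb_spb e h1 le_rfl, spb_id] at hx
  rw [hx, map_zero, map_zero]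

lemma span_mulVec {D β : Type} [CommRing D] [Fintype β] [DecidableEq β] {M : Matrix β β D}
    (h : IsUnit M.det) (t : β → D) :
    Ideal.span (Set.range (M.mulVec t)) = Ideal.span (Set.range t) := by
  have key (N : Matrix β β D) (s : β → D) :
      Ideal.span (Set.range (N.mulVec s)) ≤ Ideal.span (Set.range s) :=
    Ideal.span_le.2 (Set.range_subset_iff.2 fun a => Ideal.sum_mem _ fun b _ =>
      Ideal.mul_mem_left _ _ (Ideal.subset_span ⟨b, rfl⟩))
  refine le_antisymm (key M t) ?_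
  have := key M⁻¹ (M.mulVec t)
  rwa [Matrix.mulVec_mulVec, Matrix.nonsing_inv_mul _ h, Matrix.one_mulVec] at this

section
variable {Ω : Type} [Field Ω] (Ch : Chern l Ω) {D D' β : Type} [CommRing D] [CommRing D']

lemma thF_nat (hJ : THJ_s) (ω : Ω →+* D) (ψ : D →+* D') (t : D) :
    (thF Ch (ψ.comp ω) (ψ t)).1 ≤ spc ψ ⁻¹ᵁ (thF Ch ω t).1 ∧
      spb l (spc ψ) (thF Ch (ψ.comp ω) (ψ t)).1 (thF Ch ω t).1 2 (thF Ch ω t).2 =
        1 • (thF Ch (ψ.comp ω) (ψ t)).2 := by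
  have z {A : Type} [CommRing A] (e : EV (Fin 0) → A) (s : A) : Zer e (C s) (Ideal.span {s}) :=
    fun _ _ χ a _ => by rw [Ideal.map_span, Set.image_singleton, eval₂_C]
  have h := (hJ l Ω Ch p1l (Fin 0) D ω (fun v => v.1.elim0) 0 (C t) _ (fun k => k.elim0)
    (isWeightedHomogeneous_C _ _) (z _ t)).2 D' ψ (ψ.comp ω) (.id _) 1 (C (ψ t)) _
    (fun ζ _ _ => pow_one ζ) rfl (isWeightedHomogeneous_C _ _) (z _ (ψ t))
    fun _ _ χ a _ => by simp
  rw [show (ψ ∘ fun v : EV (Fin 0) => v.1.elim0) = fun v => v.1.elim0 from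
    funext fun v => v.1.elim0] at h
  exact ⟨h.1.le, h.2⟩

lemma le_sup_thF (ω : Ω →+* D) (t : β → D) {A : List β} (hA : ∀ a, a ∈ A) :
    opI (Ideal.span (Set.range t)) ≤ sup (A.map fun a => thF Ch ω (t a)) := by
  intro w hw
  obtain ⟨a, ha⟩ := (mem_opI t w).1 hw
  have h := hA a
  clear hA
  induction A with
  | nil => cases h
  | cons b A ih =>
    rcases List.mem_cons.1 h with rfl | h
    · exact Or.inl fun h' => ha (h' (Ideal.mem_span_singleton_self _))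
    · exact Or.inr (ih h)

lemma thk_nat (hS : THS_s) (hJ : THJ_s) (G : SG l) (ω : Ω →+* D) (ψ : D →+* D') {ω' : Ω →+* D'}
    (hω : ψ.comp ω = ω') (t : β → D) (t' : β → D') (ht : ∀ a, ψ (t a) = t' a) {A : List β}
    (hA : ∀ a, a ∈ A) {U : (Spec (.of D)).Opens} {U' : (Spec (.of D')).Opens}
    (hU : U ≤ opI (Ideal.span (Set.range t))) (hU' : U' ≤ spc ψ ⁻¹ᵁ U) {k : ℕ} (h) (h') :
    spb l (spc ψ) U' U k (G.thk (A.map fun a => thF Ch ω (t a)) U k h) =
      G.thk (A.map fun a => thF Ch ω' (t' a)) U' k h' := by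
  obtain rfl : t' = ψ ∘ t := funext fun a => (ht a).symm
  subst hω
  have h1 : U' ≤ opI (Ideal.span (Set.range (ψ ∘ t))) := fun w hw =>
    (mem_opI _ w).2 ((mem_opI t (spc ψ w)).1 (hU (hU' hw)))
  rw [(hS l G _ _ U k h (hU.trans (le_sup_thF Ch ω t hA))).2.2 _ (spc ψ) _ U' 1 h' hU'
    (h1.trans (le_sup_thF Ch _ _ hA)) ?_, one_pow, one_smul]
  rw [List.forall₂_map_left_iff, List.forall₂_map_right_iff, List.forall₂_same]
  exact fun a _ => thF_nat Ch hJ ω ψ (t a)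

end

/-- **MAT0**. -/
theorem mat0 (hS : THS_s) (hJ : THJ_s) : MAT0_s := by
  intro l _ Ω _ _ _ Ch G D _ ω β _ _ t t' M A A' U k h h' ht hM n1 a1 n2 a2 hU
  have c1 : A.length = Nat.card β := by
    rw [← Nat.card_congr (n1.getEquivOfForallMemList A a1), Nat.card_fin]
  have c2 : A'.length = Nat.card β := by
    rw [← Nat.card_congr (n2.getEquivOfForallMemList A' a2), Nat.card_fin]
  have cg {T : Scheme.{0}} {L L' : List (TH l T)} (e : L = L') (V : T.Opens) (h) (h') :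
      G.thk L V k h = G.thk L' V k h' := by subst e; rfl
  rcases isEmpty_or_nonempty β with _ | _
  · refine cg ?_ _ _ _
    rw [List.eq_nil_iff_forall_not_mem.2 fun a (_ : a ∈ A) => isEmptyElim a,
      List.eq_nil_iff_forall_not_mem.2 fun a (_ : a ∈ A') => isEmptyElim a]
    rfl
  let ι := algebraMap (UR Ω β (β × β)) (UM Ω β)
  have lift {B : Type} [CommRing B] (χ : MvPolynomial β Ω →+* B) (N : Matrix β β B)
      (hN : IsUnit N.det) : ∃ φ : UM Ω β →+* B, (∀ f, φ (ι (C f)) = χ f) ∧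
        ((gm Ω β).map ι).map φ = N := by
    let φ₀ : UR Ω β (β × β) →+* B := eval₂Hom χ fun v => N v.1 v.2
    have e : (gm Ω β).map φ₀ = N := by ext a b; simp [φ₀, gm]
    have hu : IsUnit (φ₀ (gm Ω β).det) := by rwa [RingHom.map_det, RingHom.mapMatrix_apply, e]
    refine ⟨IsLocalization.Away.lift _ hu, fun f => ?_, ?_⟩
    · rw [IsLocalization.Away.lift_eq]; exact eval₂Hom_C _ _ f
    · rw [← e]; ext a b; exact IsLocalization.Away.lift_eq _ hu _
  let y : β → UM Ω β := fun a => ι (C (X a))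
  let s := ((gm Ω β).map ι).mulVec y
  let ω₀ : Ω →+* UM Ω β := ι.comp (C.comp C)
  have hd : IsUnit ((gm Ω β).map ι).det := by
    rw [← RingHom.mapMatrix_apply, ← RingHom.map_det]
    exact IsLocalization.Away.algebraMap_isUnit _
  have es : Ideal.span (Set.range s) = Ideal.span (Set.range y) := span_mulVec hd y
  have hk : k = 2 * Nat.card β := by rw [← h, List.length_map, c1]
  have mv {B : Type} [CommRing B] (φ : UM Ω β →+* B) (a : β) :
      φ (s a) = (((gm Ω β).map ι).map φ).mulVec (φ ∘ y) a := RingHom.map_mulVec φ _ y a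
  have key : G.thk (A.map fun a => thF Ch ω₀ (s a)) (opI (Ideal.span (Set.range y))) k
      (by simpa using h) = G.thk (A'.map fun a => thF Ch ω₀ (y a))
        (opI (Ideal.span (Set.range y))) k (by simpa using h') := by
    let π : Equiv.Perm β := (n1.getEquivOfForallMemList A a1).symm.trans
      ((finCongr (c1.trans c2.symm)).trans (n2.getEquivOfForallMemList A' a2))
    have hπ : A.map π = A' := by
      refine List.ext_getElem (by rw [List.length_map, c1, c2]) fun i h1 h2 => ?_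
      rw [List.length_map] at h1
      have : (n1.getEquivOfForallMemList A a1).symm A[i] = ⟨i, h1⟩ :=
        (Equiv.symm_apply_eq _).2 rfl
      rw [List.getElem_map]
      exact congrArg (fun j => n2.getEquivOfForallMemList A' a2 (finCongr _ j)) this
    obtain ⟨ψ, p1, p2⟩ := lift (.id _) (π.permMatrix (MvPolynomial β Ω)) (by
      rw [Matrix.det_permutation]
      exact ((Equiv.Perm.sign π).isUnit.map (Int.castRingHom _)))
    have h1 : opI (Ideal.span (Set.range (X : β → MvPolynomial β Ω))) ≤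
        spc ψ ⁻¹ᵁ opI (Ideal.span (Set.range y)) := fun w hw =>
      (mem_opI y _).2 (((mem_opI _ w).1 hw).imp fun a ha hb => ha ((show ψ (y a) = X a from p1 _) ▸ hb))
    have hω : ψ.comp ω₀ = C := RingHom.ext fun c => p1 (C c)
    rw [← sub_eq_zero]
    refine mat Ω β ψ p1 _ _ rfl rfl hk _ ?_
    rw [map_sub, thk_nat Ch hS hJ G ω₀ ψ hω s (fun a => X (π a)) (fun a => ?_) a1 (es ▸ le_rfl) h1
      _ (by simpa using h), thk_nat Ch hS hJ G ω₀ ψ hω y X (fun a => p1 _) a2 le_rfl h1 _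
      (by simpa using h'), sub_eq_zero]
    · exact cg (by rw [← hπ, List.map_map]; rfl) _ _ _
    · rw [mv, p2, Matrix.permMatrix_mulVec]
      exact p1 _
  obtain ⟨φ, q1, q2⟩ := lift (eval₂Hom ω t') M hM
  have hy (a) : φ (y a) = t' a := (q1 _).trans (eval₂Hom_X' _ _ a)
  have hω : φ.comp ω₀ = ω := RingHom.ext fun c => (q1 _).trans (eval₂Hom_C _ _ c)
  have h1 : U ≤ spc φ ⁻¹ᵁ opI (Ideal.span (Set.range y)) := fun w hw => by
    have := hU hw
    rw [ht, span_mulVec hM] at this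
    exact (mem_opI y _).2 (((mem_opI _ w).1 this).imp fun a ha hb => ha (hy a ▸ hb))
  rw [← thk_nat Ch hS hJ G ω₀ φ hω s t (fun a => ?_) a1 (es ▸ le_rfl) h1 (by simpa using h) h, key,
    thk_nat Ch hS hJ G ω₀ φ hω y t' hy a2 le_rfl h1 _ h']
  rw [mv, q2, ht, show φ ∘ y = t' from funext hy]

end Pool.Agent.MP_855f4c_ag.A.Spz

namespace Pool.Agent.MP_855f4c_ag.A

theorem mat0 (hS : THS_s) (hJ : THJ_s) : MAT0_s := Spz.mat0 hS hJ

end Pool.Agent.MP_855f4c_ag.A

end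

section

/-! h14a, row MATW: change of generators for forms. -/

set_option autoImplicit false
set_option backward.isDefEq.respectTransparency false

open CategoryTheory Limits Abelian Opposite AlgebraicGeometry Function

namespace Pool.Agent.MP_855f4c_ag.A

open E E3 E4 T

/-- The universal family of forms. -/
def MGW_s : Prop := ∀ (Ω : Type) [Field Ω] (κ : Type) [Fintype κ] [DecidableEq κ] (D : Type)
  [CommRing D] (ω : Ω →+* D) (e : EV κ → D) (β γ : Type) [Fintype β] [Fintype γ]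
  (w : β ⊕ γ → κ → ℤ) (s : β ⊕ γ → MvPolynomial (XY κ) D), JP e → (∀ i, Hg (w i) (s i)) →
    ∃ (R : Type) (_ : CommRing R) (ut : Ω →+* R) (ue : EV κ → R)
      (us : β ⊕ γ → MvPolynomial (XY κ) R) (ψ : R →+* D), JP ue ∧ (∀ i, Hg (w i) (us i)) ∧
      ψ.comp ut = ω ∧ ψ ∘ ue = e ∧ (∀ i, MvPolynomial.map ψ (us i) = s i) ∧
      ∀ σ : κ → Fin 2, ∃ (a : XY κ → Localization.Away (∏ k, ue (k, σ k, σ k))) (τ : Type)
        (_ : Finite τ) (φ : MvPolynomial τ (MvPolynomial β Ω) →+*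
          Localization.Away (∏ k, ue (k, σ k, σ k))), emat a = algebraMap R _ ∘ ue ∧
        IsOpenImmersion (spc φ) ∧
        ∀ b, φ (.C (.X b)) = MvPolynomial.eval₂ (algebraMap R _) a (us (.inl b))

theorem mgw : MGW_s := fun Ω _ κ _ _ D _ ω e β γ _ _ w s he hs => by
  obtain ⟨ψ, h1, h2, h3⟩ := Matg.spec w Ω ω he s
  refine ⟨_, inferInstance, _, _, _, ψ, Matg.ue_jp _ Ω, Matg.us_hom w _ Ω
    fun i d hd => hs i (MvPolynomial.mem_support_iff.1 hd), h1, h2, h3, fun σ => ?_⟩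
  obtain ⟨τ, _, a, φ, h4, h5, -, h6⟩ := Matg.chart' w (fun i => (s i).support) Ω Sum.inl
    Sum.inl_injective σ (Localization.Away (∏ k, Matg.ue (fun i => (s i).support) Ω (k, σ k, σ k)))
  exact ⟨a, τ, ‹_›, φ, h4, h5, h6⟩

namespace Matw

open MvPolynomial

variable {l : ℕ} [Fact l.Prime] {T T' : Scheme.{0}} {β : Type}

lemma mem_sup (L : List (TH l T)) (x : T) : x ∈ sup L ↔ ∃ a ∈ L, x ∈ a.1 := by
  induction L with
  | nil => simp [sup]
  | cons a L ih =>
    change x ∈ a.1 ⊔ sup L ↔ _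
    simp [ih]

lemma mem_supm (A : List β) (hA : ∀ a, a ∈ A) (f : β → TH l T) (x : T) :
    x ∈ sup (A.map f) ↔ ∃ a, x ∈ (f a).1 := by
  rw [mem_sup]
  exact ⟨fun ⟨_, h, h'⟩ => by
    obtain ⟨a, -, rfl⟩ := List.mem_map.1 h
    exact ⟨a, h'⟩, fun ⟨a, h⟩ => ⟨_, List.mem_map_of_mem (hA a), h⟩⟩

/-- `a'` is the pull-back of `a`. -/
def PB (g : T' ⟶ T) (a' : TH l T') (a : TH l T) : Prop :=
  a'.1 = g ⁻¹ᵁ a.1 ∧ spb l g a'.1 a.1 2 a.2 = a'.2

lemma sup_pb {g : T' ⟶ T} {f' : β → TH l T'} {f : β → TH l T} (h : ∀ a, PB g (f' a) (f a))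
    (A : List β) (hA : ∀ a, a ∈ A) (x : T') : x ∈ sup (A.map f') ↔ g x ∈ sup (A.map f) := by
  rw [mem_supm A hA, mem_supm A hA]
  exact exists_congr fun a => by rw [(h a).1]; rfl

lemma thk_pb (hT : THS_s) (G : SG l) {g : T' ⟶ T} {f' : β → TH l T'} {f : β → TH l T}
    (h : ∀ a, PB g (f' a) (f a)) (A : List β) (hA : ∀ a, a ∈ A) {U' : T'.Opens} {U : T.Opens}
    (hU : U ≤ sup (A.map f)) (hU' : U' ≤ g ⁻¹ᵁ U) {k : ℕ} (e : 2 * (A.map f).length = k)
    (e' : 2 * (A.map f').length = k) :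
    spb l g U' U k (G.thk (A.map f) U k e) = G.thk (A.map f') U' k e' := by
  have := (hT l G T (A.map f) U k e hU).2.2 T' g (A.map f') U' 1 e' hU'
    (fun x hx => (sup_pb h A hA x).2 (hU (hU' hx))) (by
      rw [List.forall₂_map_left_iff, List.forall₂_map_right_iff, List.forall₂_same]
      exact fun a _ => ⟨(h a).1.le, (h a).2.trans (one_smul _ _).symm⟩)
  rwa [one_pow, one_smul] at this

variable {Ω : Type} [Field Ω] (Ch : Chern l Ω) {κ : Type} [Fintype κ] [DecidableEq κ] {D D' : Type}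
  [CommRing D] [CommRing D'] {ω : Ω →+* D} {e : EV κ → D} {n : κ → ℤ} {s : MvPolynomial (XY κ) D}
  {I : Ideal D}

lemma pb_J (hJ : THJ_s) (he : JP e) (hs : Hg n s) (hI : Zer e s I) (ψ : D →+* D')
    {s' : MvPolynomial (XY κ) D'} {I' : Ideal D'} (hs' : Hg n s') (hI' : Zer (ψ ∘ e) s' I')
    (h : ∀ (D'' : Type) [CommRing D''] (χ : D' →+* D'') (a : XY κ → D''), emat a = χ ∘ ψ ∘ e →
      eval₂ χ a s' = eval₂ (χ.comp ψ) a s) :
    PB (spc ψ) (thJ Ch (ψ.comp ω) (ψ ∘ e) n s' I') (thJ Ch ω e n s I) := by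
  have := (hJ l Ω Ch p1l κ D ω e n s I he hs hI).2 D' ψ (ψ.comp ω) (RingHom.id Ω) 1 s' I'
    (fun ζ _ _ => pow_one ζ) rfl hs' hI' h
  exact ⟨this.1, this.2.trans (one_smul _ _)⟩

lemma pb_F (hK : KL_s) (hJ : THJ_s) (he : JP e) (hs : Hg n s) (hI : Zer e s I) (ψ : D →+* D')
    {a : XY κ → D'} (ha : emat a = ψ ∘ e) :
    PB (spc ψ) (thF Ch (ψ.comp ω) (eval₂ ψ a s)) (thJ Ch ω e n s I) := by
  have hs' : Hg n (map ψ s) := fun d hd => hs fun h0 => hd (by rw [coeff_map, h0, map_zero])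
  have hI' : Zer (ψ ∘ e) (map ψ s) (I.map ψ) := fun D'' _ χ b hb => by
    rw [Ideal.map_map, eval₂_map]
    exact hI D'' (χ.comp ψ) b hb
  rw [← ((triv0 hK l Ω Ch κ D' (ψ.comp ω) (ψ ∘ e) (map ψ s) (eval₂ ψ a s) (Ja.jp_map ψ he)).2 n a
    (I.map ψ) hs' ha hI' (eval_map ψ a s)).2]
  exact pb_J Ch hJ he hs hI ψ hs' hI' fun D'' _ χ b _ => eval₂_map _ _ _ _

lemma mem_opI (I : Ideal D) (x : Spec (.of D)) : x ∈ opI I ↔ ¬ I ≤ x.asIdeal := Iff.rfl

lemma mem_span (t : β → D) (x : Spec (.of D)) :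
    x ∈ opI (Ideal.span (Set.range t)) ↔ ∃ a, t a ∉ x.asIdeal := by
  rw [mem_opI, Ideal.span_le, Set.range_subset_iff, not_forall]
  rfl

lemma mem_F (A : List β) (hA : ∀ a, a ∈ A) (t : β → D) (x : Spec (.of D)) :
    x ∈ sup (A.map fun a => thF Ch ω (t a)) ↔ ∃ a, t a ∉ x.asIdeal := by
  rw [mem_supm A hA]
  exact exists_congr fun a => not_congr (Ideal.span_singleton_le_iff_mem _)

lemma ex_iff [Fintype β] [DecidableEq β] {t t' : β → D} {M : Matrix β β D} (h : t = M.mulVec t')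
    (hM : IsUnit M.det) (P : Ideal D) : (∃ a, t a ∉ P) ↔ ∃ a, t' a ∉ P := by
  have key : ∀ (N : Matrix β β D) (v : β → D), (∃ a, N.mulVec v a ∉ P) → ∃ a, v a ∉ P :=
    fun N v ⟨a, ha⟩ => by
      by_contra hc
      push Not at hc
      exact ha (P.sum_mem fun b _ => P.mul_mem_left _ (hc b))
  refine ⟨fun h' => key M t' (h ▸ h'), fun h' => key M⁻¹ t ?_⟩
  rwa [h, Matrix.mulVec_mulVec, Matrix.nonsing_inv_mul _ hM, Matrix.one_mulVec]

lemma spc_comp {A B C : Type} [CommRing A] [CommRing B] [CommRing C] (f : A →+* B) (g : B →+* C) :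
    spc (g.comp f) = spc g ≫ spc f := by
  rw [← Spec.map_comp]; rfl

lemma fac_zero (hK : KL_s) {T'' : Scheme.{0}} {g' : T'' ⟶ T'} {g : T' ⟶ T} {g'' : T'' ⟶ T}
    (e : g' ≫ g = g'') {U'' : T''.Opens} {U : T.Opens} (hU : U'' ≤ g'' ⁻¹ᵁ U) {n : ℕ}
    {x : SS l T U n} (hx : spb l g (g ⁻¹ᵁ U) U n x = 0) : spb l g'' U'' U n x = 0 := by
  rw [← ((hK l).2.2 _ _ _ g' g g'' U'' ⊤ (g ⁻¹ᵁ U) ⊤ U ⊤ n e
    (by rwa [← Scheme.Hom.comp_preimage, e]) le_rfl).1, hx, map_zero]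

omit [Fintype κ] [DecidableEq κ] in
/-- The chart where also `N` is invertible. -/
lemma chart {R P : Type} [CommRing R] [CommRing P] {ue : EV κ → R} (f : R)
    (N : MvPolynomial (XY κ) R) (a : XY κ → Localization.Away f) (φ : P →+* Localization.Away f)
    (ha : emat a = algebraMap R _ ∘ ue) (hφ : IsOpenImmersion (spc φ)) :
    ∃ (B : Type) (_ : CommRing B) (θ : Localization.Away f →+* B),
      IsOpenImmersion (spc (θ.comp (algebraMap R _))) ∧ IsOpenImmersion (spc (θ.comp φ)) ∧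
      IsUnit (θ (eval₂ (algebraMap R _) a N)) ∧
      ∀ (k : Type) [CommRing k] (lam : R →+* k), IsUnit (lam f) →
        (∀ b : XY κ → k, emat b = lam ∘ ue → IsUnit (eval₂ lam b N)) →
        ∃ μ : B →+* k, μ.comp (θ.comp (algebraMap R _)) = lam := by
  have i1 := IsOpenImmersion.of_isLocalization (S := Localization.Away f) f
  have i2 := IsOpenImmersion.of_isLocalization
    (S := Localization.Away (eval₂ (algebraMap R _) a N)) (eval₂ (algebraMap R _) a N)
  refine ⟨Localization.Away (eval₂ (algebraMap R _) a N), inferInstance, algebraMap _ _, ?_, ?_,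
    IsLocalization.Away.algebraMap_isUnit _, fun k _ lam h1 h2 => ?_⟩
  · rw [spc_comp]; infer_instance
  · rw [spc_comp]; infer_instance
  · let ν : Localization.Away f →+* k := IsLocalization.Away.lift f h1
    have hν : ν.comp (algebraMap R _) = lam := IsLocalization.Away.lift_comp f h1
    have h3 : IsUnit (ν (eval₂ (algebraMap R _) a N)) := by
      rw [eval₂_comp_left, hν]
      refine h2 _ (funext fun v => ?_)
      rw [← hν]
      exact (map_mul ν _ _).symm.trans (congrArg ν (congrFun ha v))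
    refine ⟨IsLocalization.Away.lift _ h3, ?_⟩
    rw [← RingHom.comp_assoc, IsLocalization.Away.lift_comp, hν]

omit [DecidableEq κ] in
lemma ex_sigma (he : JP e) (x : Spec (.of D)) :
    ∃ σ : κ → Fin 2, ∏ k, e (k, σ k, σ k) ∉ x.asIdeal := by
  have h1 : ∀ k, ∃ i, e (k, i, i) ∉ x.asIdeal := fun k => by
    by_contra hc
    push Not at hc
    exact x.2.ne_top ((Ideal.eq_top_iff_one _).2 ((he k).1 ▸ add_mem (hc 0) (hc 1)))
  choose σ hσ using h1
  refine ⟨σ, fun hc => ?_⟩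
  obtain ⟨k, -, hk⟩ := x.2.prod_mem_iff.1 hc
  exact hσ k hk

lemma mem_range {R B : Type} [CommRing R] [CommRing B] (χ : R →+* B) (ψ : R →+* D)
    (x : Spec (.of D)) (μ : B →+* x.asIdeal.ResidueField)
    (h : μ.comp χ = (algebraMap D _).comp ψ) : ∃ q, spc χ q = spc ψ x := by
  refine ⟨PrimeSpectrum.comap μ ⟨⊥, Ideal.isPrime_bot⟩, PrimeSpectrum.ext ?_⟩
  change ((⊥ : Ideal _).comap μ).comap χ = x.asIdeal.comap ψ
  rw [Ideal.comap_comap, h, ← Ideal.comap_comap]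
  congr 1
  exact Ideal.ker_algebraMap_residueField x.asIdeal

end Matw

open Matw MvPolynomial in
theorem matw (hJ : THJ_s) : MATW_s := by
  have hK := kl
  have hT := ths hK
  have hM := mat0 hT hJ
  intro l _ Ω _ _ _ Ch G κ _ _ D _ ω e β _ _ n n' t t' I I' M A A' U k h h' he ht ht' hM' hx hA hA₁
    hA' hA₁' hU
  have hk : k = 2 * Fintype.card β := by
    rw [← h, List.length_map, ← List.toFinset_card_of_nodup hA, ← Finset.card_univ]
    congr 2
    exact Finset.eq_univ_of_forall fun a => List.mem_toFinset.2 (hA₁ a)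
  rcases k with _ | k
  · obtain rfl : A = [] := List.length_eq_zero_iff.1 (by rw [List.length_map] at h; omega)
    obtain rfl : A' = [] := List.length_eq_zero_iff.1 (by rw [List.length_map] at h'; omega)
    rfl
  obtain ⟨R, _, ut, ue, us, ψ, hue, hus, rfl, rfl, hψ, hc⟩ := mgw Ω κ D ω e β (β × β)
    (Sum.elim n' fun p => n p.1 - n' p.2) (Sum.elim t' fun p => M p.1 p.2) he (by
      rintro (b | p)
      exacts [(ht' b).1, hM' _ _])
  let N : Matrix β β (MvPolynomial (XY κ) R) := Matrix.of fun a b => us (.inr (a, b))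
  let u : β → MvPolynomial (XY κ) R := fun b => us (.inl b)
  have hu : ∀ b, Hg (n' b) (u b) := fun b => hus (.inl b)
  have hv : ∀ a, Hg (n a) (N.mulVec u a) := fun a =>
    IsWeightedHomogeneous.sum _ _ _ fun b _ =>
      sub_add_cancel (n a) (n' b) ▸ (hus (.inr (a, b))).mul (hu b)
  choose J _ hJ₁ using fun a => (w0 κ R).2.1 ue _ _ hue (hv a)
  choose J' _ hJ₂ using fun a => (w0 κ R).2.1 ue _ _ hue (hu a)
  let f : β → TH l (Spec (.of R)) := fun a => thJ Ch ut ue (n a) (N.mulVec u a) (J a)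
  let f' : β → TH l (Spec (.of R)) := fun a => thJ Ch ut ue (n' a) (u a) (J' a)
  let U₀ := sup (A.map f) ⊓ sup (A'.map f')
  have e₁ : 2 * (A.map f).length = k + 1 := by simpa using h
  have e₂ : 2 * (A'.map f').length = k + 1 := by simpa using h'
  have ev : ∀ (B : Type) [CommRing B] (χ : R →+* B) (a : XY κ → B),
      (fun b => eval₂ χ a (N.mulVec u b)) =
        (N.map (eval₂Hom χ a)).mulVec fun b => eval₂ χ a (u b) := fun B _ χ a =>
    funext fun b => RingHom.map_mulVec (eval₂Hom χ a) N u b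
  -- the charts
  have hch : ∀ σ : κ → Fin 2, ∃ (B : Type) (_ : CommRing B) (χ : R →+* B)
      (_ : IsOpenImmersion (spc χ)),
      (∀ q, spc χ q ∈ sup (A.map f) ↔ spc χ q ∈ sup (A'.map f')) ∧
      spb l (spc χ) (spc χ ⁻¹ᵁ U₀) U₀ (k + 1)
        (G.thk (A.map f) U₀ _ e₁ - G.thk (A'.map f') U₀ _ e₂) = 0 ∧
      (∀ (W : Scheme.{0}) (j : W ⟶ Spec (.of B)) [IsOpenImmersion j] (O : W.Opens),
        j ⁻¹ᵁ (spc χ ⁻¹ᵁ U₀) ≤ O → ∀ y : SS l W O k, y = 0) ∧
      ∀ x : Spec (.of D), ∏ i, ψ (ue (i, σ i, σ i)) ∉ x.asIdeal → ∃ q, spc χ q = spc ψ x := by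
    intro σ
    obtain ⟨a, τ, _, φ, ha, hφ, hb⟩ := hc σ
    obtain ⟨B, _, θ, i1, i2, hd, hl⟩ := chart _ N.det a φ ha hφ
    have ha' : emat (θ ∘ a) = θ.comp (algebraMap R _) ∘ ue := funext fun v =>
      (map_mul θ _ _).symm.trans (congrArg θ (congrFun ha v))
    rw [eval₂_comp_left] at hd
    have hd' : IsUnit (N.map (eval₂Hom (θ.comp (algebraMap R _)) (θ ∘ a))).det := by
      rwa [← RingHom.mapMatrix_apply, ← RingHom.map_det]
    have p₁ := fun b => pb_F Ch (ω := ut) hK hJ hue (hv b) (hJ₁ b) _ ha'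
    have p₂ := fun b => pb_F Ch (ω := ut) hK hJ hue (hu b) (hJ₂ b) _ ha'
    have q₁ := fun q => (sup_pb p₁ A hA₁ q).symm.trans (mem_F Ch A hA₁ _ q)
    have q₂ := fun q => (sup_pb p₂ A' hA₁' q).symm.trans (mem_F Ch A' hA₁' _ q)
    have q₃ := fun q => (q₁ q).trans ((ex_iff (ev B _ _) hd' _).trans (q₂ q).symm)
    refine ⟨B, inferInstance, θ.comp (algebraMap R _), i1, q₃, ?_, fun W j _ O hO => ?_,
      fun x hx' => ?_⟩
    · rw [map_sub, thk_pb hT G p₁ A hA₁ inf_le_left le_rfl e₁ (by simpa using h),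
        thk_pb hT G p₂ A' hA₁' inf_le_right le_rfl e₂ (by simpa using h'), sub_eq_zero]
      exact hM l Ω Ch G B _ β _ _ _ A A' _ _ _ _ (ev B _ _) hd' hA hA₁ hA' hA₁'
        fun q hq => (mem_span _ q).2 ((q₁ q).1 hq.1)
    · refine Spz.spz Ω β τ (j ≫ spc (θ.comp φ)) O (fun w b hb' => hO ?_)
        (.inl (by rw [Nat.card_eq_fintype_card]; omega))
      have : spc (θ.comp (algebraMap R _)) (j w) ∈ sup (A'.map f') := (q₂ _).2 ⟨b, fun hc' => hb' (by
        change θ (φ (C (X b))) ∈ (j w).asIdeal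
        rwa [hb, eval₂_comp_left])⟩
      exact ⟨(q₃ _).2 this, this⟩
    · obtain ⟨μ, hμ⟩ := hl x.asIdeal.ResidueField ((algebraMap D _).comp ψ) (by
        rw [isUnit_iff_ne_zero, RingHom.comp_apply, map_prod]
        exact fun h0 => hx' (Ideal.algebraMap_residueField_eq_zero.1 h0)) fun b hb' => by
          have := (hx _ (algebraMap D x.asIdeal.ResidueField) b hb').1
          rwa [show M = N.map (map ψ) from Matrix.ext fun i j => (hψ (.inr (i, j))).symm,
            ← RingHom.mapMatrix_apply, ← RingHom.map_det, eval₂_map] at this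
      exact mem_range _ ψ x μ hμ
  choose B _ χ i1 c₁ c₂ c₃ c₄ using hch
  let V : (Spec (.of R)).Opens := ⨆ σ, (spc (χ σ)).opensRange
  have r₀ : ∀ σ, Set.range (spc (χ σ)) ⊆ Set.range V.ι := fun σ x hx' => by
    rw [Scheme.Opens.range_ι]
    exact TopologicalSpace.Opens.mem_iSup.2 ⟨σ, hx'⟩
  let j := fun σ => IsOpenImmersion.lift V.ι (spc (χ σ)) (r₀ σ)
  have e₀ : ∀ σ, j σ ≫ V.ι = spc (χ σ) := fun σ => IsOpenImmersion.lift_fac _ _ _
  have i2 : ∀ σ, IsOpenImmersion (j σ) := fun σ => by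
    have : IsOpenImmersion (j σ ≫ V.ι) := by rw [e₀]; infer_instance
    exact IsOpenImmersion.of_comp _ V.ι
  have e₃ : ∀ σ, j σ ⁻¹ᵁ (V.ι ⁻¹ᵁ U₀) = spc (χ σ) ⁻¹ᵁ U₀ := fun σ => by
    rw [← Scheme.Hom.comp_preimage, e₀]
  have hW := Spz.lg j (V.ι ⁻¹ᵁ U₀) (n := k) (fun x => by
      obtain ⟨σ, q, hq⟩ := TopologicalSpace.Opens.mem_iSup.1 x.2
      refine .inr ⟨σ, q, V.ι.isOpenEmbedding.injective ?_⟩
      rw [← Scheme.Hom.comp_apply, e₀]
      exact hq)
    (fun σ W => c₃ σ W W.ι _ (by rw [e₃]))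
    (spb l V.ι (V.ι ⁻¹ᵁ U₀) U₀ (k + 1) (G.thk (A.map f) U₀ _ e₁ - G.thk (A'.map f') U₀ _ e₂))
    fun σ => by
      rw [((hK l).2.2 _ _ _ _ _ _ _ ⊤ _ ⊤ U₀ ⊤ _ (e₀ σ) le_rfl le_rfl).1, e₃]
      exact c₂ σ
  have hr : ∀ x : Spec (.of D), ∃ σ q, spc (χ σ) q = spc ψ x := fun x => by
    obtain ⟨σ, hσ⟩ := ex_sigma he x
    exact ⟨σ, c₄ σ x hσ⟩
  have p₁ := fun a => pb_J Ch (ω := ut) hJ hue (hv a) (hJ₁ a) ψ (ht a).1 (ht a).2
    fun B _ χ b hb => ((hx B χ b hb).2 a).trans (by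
      rw [congrFun (ev B (χ.comp ψ) b) a]
      exact Finset.sum_congr rfl fun c _ => by
        rw [show M a c = _ from (hψ (.inr (a, c))).symm, show t' c = _ from (hψ (.inl c)).symm,
          eval₂_map, eval₂_map]
        rfl)
  have p₂ := fun a => pb_J Ch (ω := ut) hJ hue (hu a) (hJ₂ a) ψ (ht' a).1 (ht' a).2
    fun B _ χ b _ => by rw [show t' a = _ from (hψ (.inl a)).symm, eval₂_map]
  have hU' : U ≤ spc ψ ⁻¹ᵁ U₀ := fun x hx' => by
    have h1 : spc ψ x ∈ sup (A.map f) := (sup_pb p₁ A hA₁ x).1 ((mem_supm A hA₁ _ x).2 (by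
      by_contra hc'
      exact hU hx' (show ∑ a, I a ≤ x.asIdeal from Finset.sum_induction _ (· ≤ x.asIdeal)
        (fun _ _ => sup_le) bot_le fun a _ => not_not.1 fun h0 => hc' ⟨a, h0⟩)))
    obtain ⟨σ, q, hq⟩ := hr x
    exact ⟨h1, hq ▸ (c₁ σ q).1 (hq ▸ h1)⟩
  have := fac_zero hK (IsOpenImmersion.lift_fac V.ι (spc ψ) (by
    rintro _ ⟨x, rfl⟩
    obtain ⟨σ, q, hq⟩ := hr x
    exact r₀ σ ⟨q, hq⟩)) hU' hW
  rwa [map_sub, thk_pb hT G p₁ A hA₁ inf_le_left hU' e₁ h,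
    thk_pb hT G p₂ A' hA₁' inf_le_right hU' e₂ h', sub_eq_zero] at this

end Pool.Agent.MP_855f4c_ag.A

end
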