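import Pool.Agent.MP_855f4c_ag.AC.Af
import Pool.Agent.MP_855f4c_ag.AC.As
import Pool.Agent.MP_855f4c_ag.AC.Aq
import Pool.Agent.MP_855f4c_ag.AC.An
import Pool.Agent.MP_855f4c_ag.AC.Ah
import Pool.Agent.MP_855f4c_ag.TC.All
import Pool.Agent.MP_855f4c_ag.AC.Aj

set_option linter.all false

section

/-! Row CS, the rings. -/

set_option autoImplicit false

open MvPolynomial

namespace Pool.Agent.MP_855f4c_ag.A.Cs

open E3 T M0 Cpl

section
variable {κ : Type} [Fintype κ] [DecidableEq κ]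

/-- A form of weight zero has a value. -/
theorem val {A D : Type} [CommRing A] [CommRing D] (m : EV κ → D) (χ : A →+* D)
    {P : MvPolynomial (XY κ) A} (h : Hg 0 P) : ∃ z, Val m χ P z := by
  obtain ⟨P', rfl⟩ := (w0 κ A).1 P h
  refine ⟨eval₂ χ m P', fun D' _ ψ a ha => ?_⟩
  rw [ev_aeval, eval₂_comp_left, ← ha]
  congr 1
  ext x
  simp [emat]

omit [Fintype κ] [DecidableEq κ] in
theorem Val.map {A D D' : Type} [CommRing A] [CommRing D] [CommRing D'] {m : EV κ → D}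
    {χ : A →+* D} {P : MvPolynomial (XY κ) A} {z : D} (h : Val m χ P z) (φ : D →+* D') :
    Val (φ ∘ m) (φ.comp χ) P (φ z) := fun D'' _ ψ a ha => h D'' (ψ.comp φ) a ha

end

section
variable {ν J : Type} [Fintype ν]

theorem map_TT {D D' : Type} [CommRing D] [CommRing D'] (ψ : D →+* D') (w : EW ν J → D) :
    ψ (TT w) = TT (ψ ∘ w) := by simp [TT]

omit [Fintype ν] in
theorem IH_eq {D : Type} [CommRing D] (w : EW ν J → D) : IH w = Ideal.span
    (w '' Set.range fun v : ν × NV ν J => (.inr (.inr v.1, v.2) : EW ν J)) := by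
  rw [← Set.range_comp]; rfl

theorem TT_mem {D : Type} [CommRing D] (w : EW ν J → D) : TT w - 1 ∈ IH w := by
  rw [TT, sub_sub_cancel_left]
  exact neg_mem (sum_mem fun i _ => Ideal.subset_span ⟨(i, .inr i), rfl⟩)

end

/-- The lifting step. -/
theorem lift {O K ν ρ : Type} [CommRing O] [CommRing K] [Algebra O K] (p : ℕ)
    (g : ρ → MvPolynomial ν K) (c₁ : ℕ)
    (h : ∀ (C C' : Type) [CommRing C] [CommRing C'] [Algebra O C] [Algebra C C']
      [IsLocalization.Away (algebraMap O C p) C'] (χ : K →+* C') (𝔟 : Ideal C) (z₀ : ν → C'),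
      (∀ o, χ (algebraMap O K o) = algebraMap C C' (algebraMap O C o)) → Newt C 𝔟 →
      (∀ j, ∃ w : C, χ (algebraMap O K p) ^ 0 * z₀ j = algebraMap C C' w) →
      (∀ i, ∃ b ∈ 𝔟, eval₂ χ z₀ (g i) = χ (algebraMap O K p) ^ c₁ * algebraMap C C' b) →
      ∃ z : ν → C', (∀ j, ∃ b ∈ 𝔟, z j - z₀ j = χ (algebraMap O K p) ^ 0 * algebraMap C C' b) ∧
        ∀ i, eval₂ χ z (g i) = 0)
    {H R : Type} [CommRing H] [CommRing R] [Algebra H R] [hl : IsLocalization.Away (p : H) R]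
    (ω : O →+* H) (χ : K →+* R) (hχ : ∀ o, χ (algebraMap O K o) = algebraMap H R (ω o))
    (hN : Newt H (Ideal.span {(p : H)})) (N : Ideal H) (w : ν → H) {ε : H} (hε : IsUnit ε)
    (hw : ∀ i, ∃ y ∈ N, algebraMap H R ε * eval₂ χ (algebraMap H R ∘ w) (g i) =
      (p : R) ^ (c₁ + 1) * algebraMap H R y) :
    ∃ z : ν → H, (∀ j, ∃ y ∈ N, z j = w j + p * y) ∧
      ∀ i, eval₂ χ (algebraMap H R ∘ z) (g i) = 0 := by
  let _ : Algebra O H := ω.toAlgebra
  have : IsLocalization.Away (algebraMap O H p) R := by rwa [map_natCast]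
  obtain ⟨u, hu⟩ := hε.exists_left_inv
  obtain ⟨z, hz, hg⟩ := h H R χ (Ideal.span {(p : H)} * N) (algebraMap H R ∘ w) hχ
    (newt_mono hN (Ideal.mul_le.2 fun _ hr s _ => Ideal.mul_mem_right s _ hr))
    (fun j => ⟨w j, by rw [pow_zero, one_mul]; rfl⟩) fun i => by
      obtain ⟨y, hy, e⟩ := hw i
      refine ⟨p * (u * y), Ideal.mul_mem_mul (Ideal.mem_span_singleton_self _)
        (Ideal.mul_mem_left _ _ hy), ?_⟩
      have e2 := congrArg (algebraMap H R) hu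
      generalize eval₂ χ (algebraMap H R ∘ w) (g i) = t at e ⊢
      simp only [map_mul, map_one, map_natCast] at e2 ⊢
      linear_combination (algebraMap H R u) * e - t * e2
  choose b hb hb' using hz
  refine ⟨fun j => w j + b j, fun j => ?_, fun i => ?_⟩
  · obtain ⟨y, hy, e⟩ := Ideal.mem_span_singleton_mul.1 (hb j)
    exact ⟨y, hy, by rw [e]⟩
  · rw [← hg i]
    congr 1
    funext j
    have := hb' j
    rw [pow_zero, one_mul, sub_eq_iff_eq_add'] at this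
    rw [this, Function.comp_apply, map_add]
    rfl

/-- The rings of the tube, from the integrality of the modified elements. -/
theorem core {O K ν J ρ κ : Type} [CommRing O] [CommRing K] [Algebra O K] [Fintype ν] [Fintype J]
    [Finite ρ] (p : ℕ) (g : ρ → MvPolynomial (ν × ν) K) (y : NV ν J → MvPolynomial ν K) (c₁ : ℕ)
    (h : ∀ (C C' : Type) [CommRing C] [CommRing C'] [Algebra O C] [Algebra C C']
      [IsLocalization.Away (algebraMap O C p) C'] (χ : K →+* C') (𝔟 : Ideal C) (z₀ : EW ν J → C'),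
      (∀ o, χ (algebraMap O K o) = algebraMap C C' (algebraMap O C o)) → Newt C 𝔟 →
      (∀ j, ∃ w : C, χ (algebraMap O K p) ^ 0 * z₀ j = algebraMap C C' w) →
      (∀ i, ∃ b ∈ 𝔟, eval₂ χ z₀ (jq g y i) = χ (algebraMap O K p) ^ c₁ * algebraMap C C' b) →
      ∃ z : EW ν J → C',
        (∀ j, ∃ b ∈ 𝔟, z j - z₀ j = χ (algebraMap O K p) ^ 0 * algebraMap C C' b) ∧
        ∀ i, eval₂ χ z (jq g y i) = 0)
    (w : EW ν J → MvPolynomial (XY κ) ℤ) (ε : MvPolynomial (XY κ) K) (M : ℕ)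
    {B C₀ C : Type} [CommRing B] [CommRing C₀] [CommRing C] [Algebra B C₀] [Algebra C₀ C]
    [Algebra B C] [IsScalarTower B C₀ C] [IsLocalization.Away (p : B) C₀] (ω : O →+* B)
    (χ : K →+* C₀) (hχ : ∀ o, χ (algebraMap O K o) = algebraMap B C₀ (ω o))
    (hB : Newt B (Ideal.span {(p : B)})) (e : EV κ → C₀) (τ : C₀) (I : Ideal C₀)
    (sur : Function.Surjective (algebraMap C₀ C)) (ker : RingHom.ker (algebraMap C₀ C) = I)
    (wB : EW ν J → B) (x π : C) (hπ : p * π = 1)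
    (hw : ∀ v, Val (algebraMap C₀ C ∘ e) (Int.castRingHom C) (w v) (algebraMap B C (wB v)))
    (hx : Val (algebraMap C₀ C ∘ e) ((algebraMap C₀ C).comp χ) ε x)
    (i1 : ∀ t, IsIntegral B (π ^ (c₁ + 1) *
      (x * eval₂ ((algebraMap C₀ C).comp χ) (algebraMap B C ∘ wB) (jq g y t))))
    (i2 : IsIntegral B (π ^ (c₁ + 1) * (x * (x - TT (algebraMap B C ∘ wB) ^ M))))
    (h1 : ∀ (L : Type) [Field L] (ψ : C →+* L), ψ (algebraMap C₀ C τ) = 1 → ∀ t,
      ψ (x * eval₂ ((algebraMap C₀ C).comp χ) (algebraMap B C ∘ wB) (jq g y t)) = 0) :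
    ∃ (P : Subalgebra B C) (H R : Type) (_ : CommRing H) (_ : CommRing R) (_ : Algebra P H)
      (_ : Algebra H R) (_ : Algebra C R) (wP : EW ν J → P) (eps : P) (nn : Ideal P)
      (z : EW ν J → H), CP p g y w ε χ e τ I C P H R wP eps nn z := by
  have hπ' : (p : C) ^ (c₁ + 1) * π ^ (c₁ + 1) = 1 := by rw [← mul_pow, hπ, one_pow]
  obtain i3 : IsIntegral B x := M0p.eps_int (T := TT (algebraMap B C ∘ wB) ^ M)
    (by rw [← map_TT]; exact isIntegral_algebraMap.pow M) (by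
      have := ((isIntegral_algebraMap (x := (p : B))).pow (c₁ + 1)).mul i2
      rwa [map_natCast, ← mul_assoc, hπ', one_mul] at this)
  obtain ⟨P, hP, m1, m2, m3⟩ : ∃ P : Subalgebra B C, Module.Finite B P ∧ (∀ t, π ^ (c₁ + 1) *
      (x * eval₂ ((algebraMap C₀ C).comp χ) (algebraMap B C ∘ wB) (jq g y t)) ∈ P) ∧
      π ^ (c₁ + 1) * (x * (x - TT (algebraMap B C ∘ wB) ^ M)) ∈ P ∧ x ∈ P :=
    ⟨Algebra.adjoin B (insert x (insert _ (Set.range _))),
      Algebra.finite_adjoin_of_finite_of_isIntegral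
        (((Set.finite_range _).insert _).insert _)
        (by rintro _ (rfl | rfl | ⟨t, rfl⟩); exacts [i3, i2, i1 t]),
      fun t => Algebra.subset_adjoin (.inr (.inr ⟨t, rfl⟩)),
      Algebra.subset_adjoin (.inr (.inl rfl)), Algebra.subset_adjoin (.inl rfl)⟩
  obtain ⟨q1, q2⟩ := quot (p : B) (algebraMap C₀ C) sur
    fun b => (IsScalarTower.algebraMap_apply B C₀ C b).symm
  rw [map_natCast] at q1 q2
  obtain loc : IsLocalization.Away (p : P) C :=
    .mk _ (by rwa [map_natCast]) (fun a => by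
      obtain ⟨n, b, e⟩ := q2 a
      exact ⟨n, algebraMap B P b, by rw [map_natCast]; exact e⟩)
      fun a b h => ⟨0, by rw [Subtype.ext h]⟩
  obtain hz : (p : P) ∈ nonZeroDivisors P := mem_nonZeroDivisors_iff_right.2 fun a ha =>
    Subtype.ext (q1.mul_left_eq_zero.1 (congrArg Subtype.val ha))
  obtain hN : Newt P (Ideal.span {(p : P)}) := by
    have := newt_integral (D := P) hB
    rwa [Ideal.map_span, Set.image_singleton, map_natCast] at this
  let wP : EW ν J → P := algebraMap B P ∘ wB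
  let eps : P := ⟨x, m3⟩
  obtain ⟨H, _, _, k1, -, k2, -, -, k3, k4, k5⟩ :=
    hensAll P (Ideal.span {(p : P), eps - 1} ⊔ IH wP)
  obtain ⟨k6, k7⟩ := k3 p (Ideal.mem_sup_left (Ideal.subset_span (.inl rfl)))
  have k8 := k4 eps (Ideal.mem_sup_left (Ideal.subset_span (.inr rfl)))
  have k9 := k5 p hz
  rw [map_natCast] at k6 k7 k9
  obtain ⟨R, _, _, loc₁⟩ : ∃ (R : Type) (_ : CommRing R) (_ : Algebra H R),
      IsLocalization.Away (p : H) R := ⟨Localization.Away (p : H), _, _, inferInstance⟩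
  obtain ⟨μ, hμ⟩ : ∃ μ : C →+* R, ∀ a : P, μ (algebraMap P C a) =
      algebraMap H R (algebraMap P H a) :=
    ⟨IsLocalization.Away.lift (p : P) (g := (algebraMap H R).comp (algebraMap P H)) (by
      have := IsLocalization.Away.algebraMap_isUnit (S := R) (p : H)
      rwa [map_natCast, ← map_natCast ((algebraMap H R).comp (algebraMap P H))] at this),
      fun a => IsLocalization.Away.lift_eq _ _ a⟩
  let _ : Algebra C R := μ.toAlgebra
  obtain ⟨z, z1, z2⟩ := lift p (jq g y) c₁ h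
    ((algebraMap P H).comp ((algebraMap B P).comp ω)) (μ.comp ((algebraMap C₀ C).comp χ))
    (fun o => by
      rw [RingHom.comp_apply, RingHom.comp_apply, hχ, ← IsScalarTower.algebraMap_apply]
      exact hμ (algebraMap B P (ω o))) k6
    (((Ideal.span {algebraMap C₀ C τ - 1}).radical.comap (algebraMap P C)).map (algebraMap P H))
    (algebraMap P H ∘ wP) k8 fun t => by
      refine ⟨algebraMap P H ⟨_, m1 t⟩, Ideal.mem_map_of_mem _ (mem_nn _ _ fun L _ _ ψ hψ => ?_),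
        ?_⟩
      · have e := hψ (Ideal.mem_span_singleton_self _)
        rw [RingHom.mem_ker, map_sub, map_one, sub_eq_zero] at e
        exact (map_mul ψ _ _).trans (mul_eq_zero_of_right _ (h1 L ψ e t))
      · rw [← hμ, ← hμ, show algebraMap H R ∘ algebraMap P H ∘ wP = μ ∘ algebraMap B C ∘ wB from
          funext fun v => (hμ _).symm, ← eval₂_comp_left, ← map_mul, ← map_natCast μ, ← map_pow,
          ← map_mul]
        exact congrArg μ ((one_mul _).symm.trans ((congrArg (· * _) hπ'.symm).trans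
          (mul_assoc _ _ _)))
  refine ⟨P, H, R, _, _, _, _, _, wP, eps, _, z, sur, ker, loc, loc₁, RingHom.ext hμ,
    IsLocalization.injective R ((Submonoid.powers_le (n := (p : H))).2 k9), hp_of_newt hN, k7, k1,
    k2, k8, hw, hx, (jq_iff _ _ _ _).1 z2, rfl, fun v => ?_, le_trans ?_ Ideal.le_radical⟩
  · obtain ⟨a, ha, e⟩ := z1 v
    rw [e, Function.comp_apply, add_sub_cancel_left]
    exact Ideal.mul_mem_left _ _ ha
  · rw [IH_eq wP, ← Ideal.span_union, ← Ideal.mk_ker (I := Ideal.span {(p : H)} ⊔ IH z)]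
    refine rz (algebraMap P H) _ _ wP z p eps (TT wP) M _
      (fun j => by simpa only [map_natCast, Function.comp_apply] using z1 j) k8
      (IH_eq wP ▸ TT_mem wP) (Ideal.mem_span_singleton'.2
        ⟨(p : P) ^ c₁ * ⟨_, m2⟩, Subtype.ext ?_⟩) ?_ ?_
    · have e : ((TT wP : P) : C) = TT (algebraMap B C ∘ wB) := map_TT (algebraMap P C) wP
      push_cast
      rw [e]
      linear_combination (x * (x - TT (algebraMap B C ∘ wB) ^ M)) * hπ'
    · rw [map_natCast]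
      exact Ideal.Quotient.eq_zero_iff_mem.2
        (Ideal.mem_sup_left (Ideal.mem_span_singleton_self _))
    · rintro _ ⟨v, rfl⟩
      exact Ideal.Quotient.eq_zero_iff_mem.2 (Ideal.mem_sup_right (Ideal.subset_span ⟨v, rfl⟩))

end Pool.Agent.MP_855f4c_ag.A.Cs

end

section

/-! Row CS. -/

set_option autoImplicit false

open MvPolynomial

namespace Pool.Agent.MP_855f4c_ag.A

open E3 T M0 Cpl Cs

namespace Cs

section
variable {κ : Type} [Fintype κ] [DecidableEq κ] {c : ℕ} {e e' : Fin c → κ → ℕ}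

theorem ev_gen {K D : Type} [CommRing K] [CommRing D] (χ : K →+* D) (a : XY κ → D) (cf : MI e → K)
    (b : Fin c) (n : ℕ) : eval₂ χ a (gen (fun i => C (cf i)) b fun v => X (.inl v) ^ n) =
      gen (χ ∘ cf) b fun v => a (.inl v) ^ n :=
  (map_gen (eval₂Hom χ a) _ b _).trans (by congr 1 <;> ext <;> simp)

theorem ev_gen1 {K D : Type} [CommRing K] [CommRing D] (χ : K →+* D) (a : XY κ → D)
    (cf : MI e → K) (b : Fin c) : eval₂ χ a (gen (fun i => C (cf i)) b fun v => X (.inl v)) =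
      gen (χ ∘ cf) b fun v => a (.inl v) := by simpa only [pow_one] using ev_gen χ a cf b 1

theorem ev_ft {K D : Type} [CommRing K] [CommRing D] (χ : K →+* D) (a : XY κ → D) (c₀ : MI e → K)
    (c' : MI e' → K) (A B : ℕ) (τ : K) (b : Fin c) : eval₂ χ a (ft c₀ c' A B τ b) =
      gen (χ ∘ c') b (fun v => a (.inl v)) ^ A + χ τ *
        (gen (χ ∘ c₀) b (fun v => a (.inl v) ^ B) - gen (χ ∘ c') b (fun v => a (.inl v)) ^ A) := by
  rw [ft, eval₂_add, eval₂_mul, eval₂_sub, eval₂_pow, eval₂_C, ev_gen, ev_gen1]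

omit [Fintype κ] [DecidableEq κ] in
theorem zer {D L : Type} [CommRing D] [CommRing L] {m : EV κ → D} {s : MvPolynomial (XY κ) D}
    {I : Ideal D} (h : Zer m s I) (ψ : D →+* L) (hψ : I ≤ RingHom.ker ψ) {a : XY κ → L}
    (ha : emat a = ψ ∘ m) : eval₂ ψ a s = 0 := by
  have := h L ψ a ha
  rwa [(Ideal.map_eq_bot_iff_le_ker _).2 hψ, eq_comm, Ideal.span_singleton_eq_bot] at this

end

section
variable {ν J ρ K Ω : Type} [Fintype ν] [Fintype J] [Field K] [Field Ω] {τ : K →+* Ω}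
  {g : ρ → MvPolynomial (ν × ν) K} {y : NV ν J → MvPolynomial ν K} {d : ℕ} {u : ν → Ω}
  {ℓ : Fin d → ν → Ω} {o : ν} {κ β : Type} [Fintype κ] [DecidableEq κ] [Fintype β] [DecidableEq β]
  {c : ℕ} (W : WD τ g y u ℓ o κ β c)

theorem w_hg (v : EW ν J) : Hg 0 (W.w v) := by
  rcases v with v | v
  · exact add_neg_cancel W.m ▸ (W.hq v.1).1.mul (W.hq v.2).2
  · exact add_neg_cancel W.m' ▸ (W.hq' v.1).1.mul (W.hq' v.2).2

/-- The forms that vanish on the complete intersection. -/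
noncomputable def fam (x : Option (RW ρ ν J)) : MvPolynomial (XY κ) K :=
  x.elim (W.eps * (W.eps - TT (fun v => map (Int.castRingHom K) (W.w v)) ^ W.M))
    fun t => W.eps * aeval (fun v => map (Int.castRingHom K) (W.w v)) (jq g y t)

theorem fam_none {D : Type} [CommRing D] (χ : K →+* D) (a : XY κ → D) :
    eval₂ χ a (fam W none) =
      eval₂ χ a W.eps * (eval₂ χ a W.eps - TT (fun v => aeval a (W.w v)) ^ W.M) := by
  rw [fam, Option.elim_none, eval₂_mul, eval₂_sub, eval₂_pow, ← coe_eval₂Hom χ a, map_TT]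
  simp only [Function.comp_def, coe_eval₂Hom, ev_int]

theorem fam_some {D : Type} [CommRing D] (χ : K →+* D) (a : XY κ → D) (t : RW ρ ν J) :
    eval₂ χ a (fam W (some t)) =
      eval₂ χ a W.eps * eval₂ χ (fun v => aeval a (W.w v)) (jq g y t) := by
  rw [fam, Option.elim_some, eval₂_mul, ev_aeval]
  simp only [ev_int]

theorem fam_zero {L : Type} [Field L] (χ : K →+* L) (a : XY κ → L) (ha : Rel a)
    (hf : ∀ k, eval₂ χ a (W.f k) = 0) (hs : ∀ t, eval₂ χ a (W.s t) = 0) (x : Option (RW ρ ν J)) :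
    eval₂ χ a (fam W x) = 0 := by
  by_cases h : eval₂ χ a W.eps = 0
  · cases x
    · rw [fam_none, h, zero_mul]
    · rw [fam_some, h, zero_mul]
  · obtain ⟨h1, h2⟩ := W.h1 L χ a ha hf hs h
    cases x
    · rw [fam_none]
      exact mul_eq_zero_of_right _ (sub_eq_zero.2 h2)
    · rw [fam_some]
      exact mul_eq_zero_of_right _ ((jq_iff _ _ _ _).2 h1 _)

end

end Cs

theorem cs : CS_s := by
  intro p _ K ν ρ J κ β _ _ _ _ _ _ _ _ _ o d c g y u ℓ e cf W hg hcf hW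
  obtain ⟨c₁, hc₁⟩ := elkA (OK p K) K p (EW ν J) (RW ρ ν J) (jq g y) hg 0 0
  obtain ⟨r, hr⟩ := m0p p K (PadicAlgCl p) κ c e cf β (Option (RW ρ ν J)) W.s W.ns (fam W)
    (c₁ + 1) hcf W.hs fun a ha h1 h2 =>
      fam_zero W (algebraMap K _) a ha (fun k => by rw [(hW k).2, ev_gen1]; exact h1 k) h2
  refine ⟨r, fun Δ hΔ ε hε => ?_⟩
  obtain ⟨N, E, hN, hE, hE2⟩ := hr Δ hΔ ε hε
  obtain ⟨Φ, hΦ⟩ := exFr κ (p ^ N)
  have hpN := (pow_pos (Fact.out : p.Prime).pos N).ne'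
  have hΦ1 := hΦ.pow
  have hΦ4 := hΦ.rel
  refine ⟨N, E, W.pull hΦ hpN, hN, hE, W.pull_gen hΦ hpN hW, fun O hO hO' => ?_⟩
  obtain n3 : ∀ (D : Type) [CommRing D] (χ : K →+* D) (a : XY κ → D), _ :=
    fun D _ χ a => W.pull_val hΦ hpN χ a
  generalize W.pull hΦ hpN = W' at n3 ⊢
  obtain hf : ∀ (D : Type) [CommRing D] (χ : K →+* D) (a : XY κ → D) (k : Fin c),
      eval₂ χ (fun v => aeval a (Φ v)) (W.f k) = gen (χ ∘ cf) k fun v => a (.inl v) ^ p ^ N :=
    fun D _ χ a k => by simp only [(hW k).2, ev_gen1, hΦ1, map_pow, aeval_X]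
  obtain ⟨c₀, c', hc₀, hΔ', hm⟩ := hE2 O hO hO'
  refine ⟨c₀, c', hc₀, hΔ', ?_⟩
  intro B C₀ _ _ _ _ _ _ _ _ _ χ _ hB hχ e₀ τ If Is he₀ hτ hIf hIs
  generalize hI : ∑ a, If a + ∑ t, Is t = I
  obtain i1 : ∀ a, If a ≤ I := fun a => hI ▸ (Finset.single_le_sum (f := If)
    (fun _ _ => bot_le) (Finset.mem_univ a)).trans le_sup_left
  obtain i2 : ∀ a, Is a ≤ I := fun a => hI ▸ (Finset.single_le_sum (f := Is)
    (fun _ _ => bot_le) (Finset.mem_univ a)).trans le_sup_right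
  obtain ⟨m, hm1, hm2⟩ : ∃ m : EV κ → B, JP m ∧ e₀ = algebraMap B C₀ ∘ m :=
    ⟨_, JP.map (algebraMap (JT κ O) B) (JP.map C (M0.jp_je (noEq κ O))), he₀⟩
  generalize algebraMap (JT κ O) B (X ()) = t at hτ
  obtain ⟨π, hπ⟩ : ∃ π : C₀ ⧸ I, p * π = 1 := by
    have := (IsLocalization.Away.algebraMap_isUnit (S := C₀) (p : B)).map (Ideal.Quotient.mk I)
    rw [map_natCast, map_natCast] at this
    exact this.exists_right_inv
  choose wB hwB using fun v => val m (Int.castRingHom B) (w_hg W' v)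
  obtain ⟨x, hx⟩ := val (algebraMap C₀ (C₀ ⧸ I) ∘ e₀) ((algebraMap C₀ (C₀ ⧸ I)).comp χ) W'.he
  obtain hw : ∀ v, Val (algebraMap C₀ (C₀ ⧸ I) ∘ e₀) (Int.castRingHom (C₀ ⧸ I)) (W'.w v)
      (algebraMap B (C₀ ⧸ I) (wB v)) := fun v => by
    have := Val.map (hwB v) (algebraMap B (C₀ ⧸ I))
    rwa [Subsingleton.elim (RingHom.comp _ _) (Int.castRingHom (C₀ ⧸ I)),
      show algebraMap B (C₀ ⧸ I) ∘ m = algebraMap C₀ (C₀ ⧸ I) ∘ e₀ from hm2 ▸ rfl] at this
  let χ' := (algebraMap C₀ (C₀ ⧸ I)).comp χ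
  let Y (j : Option (RW ρ ν J)) : C₀ ⧸ I :=
    j.elim (x * (x - TT (algebraMap B (C₀ ⧸ I) ∘ wB) ^ W.M))
      fun s => x * eval₂ χ' (algebraMap B (C₀ ⧸ I) ∘ wB) (jq g y s)
  obtain key : ∀ (L : Type) [Field L] (ψ : C₀ ⧸ I →+* L) (a : XY κ → L),
      emat a = ψ ∘ algebraMap B (C₀ ⧸ I) ∘ m →
      (∀ b, gen (ψ ∘ algebraMap B (C₀ ⧸ I) ∘ algebraMap O B ∘ c') b (fun v => a (.inl v)) ^
          p ^ (N - r) + ψ (algebraMap B (C₀ ⧸ I) t) *
        (gen (ψ ∘ algebraMap B (C₀ ⧸ I) ∘ algebraMap O B ∘ c₀) b (fun v => a (.inl v) ^ p ^ N) -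
          gen (ψ ∘ algebraMap B (C₀ ⧸ I) ∘ algebraMap O B ∘ c') b (fun v => a (.inl v)) ^
            p ^ (N - r)) = 0) ∧
      (∀ i, eval₂ (ψ.comp χ') (fun v => aeval a (Φ v)) (W.s i) = 0) ∧
      ∀ j, ψ (Y j) = eval₂ (ψ.comp χ') (fun v => aeval a (Φ v)) (fam W j) := fun L _ ψ a ha => by
    have ha' : emat a = (ψ.comp (Ideal.Quotient.mk I)) ∘ e₀ := hm2 ▸ ha
    have hk : I ≤ RingHom.ker (ψ.comp (Ideal.Quotient.mk I)) := fun b hb => by
      rw [RingHom.mem_ker, RingHom.comp_apply, Ideal.Quotient.eq_zero_iff_mem.2 hb, map_zero]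
    have e1 : ψ x = eval₂ (ψ.comp χ') (fun v => aeval a (Φ v)) W.eps :=
      (hx L ψ a ha').trans (n3 L _ a).2.2.1
    have e2 : ψ ∘ algebraMap B (C₀ ⧸ I) ∘ wB = fun v => aeval (fun v => aeval a (Φ v)) (W.w v) :=
      funext fun v => (hw v L ψ a ha').trans (by
        rw [← (n3 L (ψ.comp χ') a).2.2.2, aeval_def, Subsingleton.elim (ψ.comp _) (algebraMap ℤ L)])
    refine ⟨fun b => ?_, fun i => ?_, ?_⟩
    · have := zer (hIf b).2 _ ((i1 b).trans hk) ha'
      rw [ev_ft, hτ, IsScalarTower.algebraMap_eq O B C₀] at this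
      exact this
    · have := zer (hIs i).2 _ ((i2 i).trans hk) ha'
      rw [eval₂_map, (n3 L _ a).2.1] at this
      exact this
    · rintro (_ | s)
      · rw [fam_none, ← e1, ← e2, ← map_TT, ← map_pow, ← map_sub, ← map_mul]
        rfl
      · rw [fam_some, ← e1, ← e2, ← eval₂_comp_left, ← map_mul]
        rfl
  obtain hχ' : ∀ (z : K) (a : O), algebraMap K _ z = (a : PadicAlgCl p) →
      χ' z = algebraMap B (C₀ ⧸ I) (algebraMap O B a) := fun z a h =>
    congrArg (Ideal.Quotient.mk I) ((hχ z a h).trans (IsScalarTower.algebraMap_apply O B C₀ a))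
  obtain hint := hm Φ hΦ1 hΦ4 B (C₀ ⧸ I) (algebraMap O B) χ' m t π Y hm1 hπ hχ' key
  let ω : OK p K →+* O :=
    ((algebraMap K _).comp (OK p K).subtype).codRestrict O fun x => hO' x x.2
  obtain ⟨P, H, R, _, _, _, _, _, wP, eps, nn, z, hCP⟩ := core p g y c₁ hc₁ W'.w W'.eps W.M
    ((algebraMap O B).comp ω) χ
    (fun a => (hχ _ (ω a) rfl).trans (IsScalarTower.algebraMap_apply O B C₀ _)) (HBR.newt hB) e₀ τ I
    Ideal.Quotient.mk_surjective Ideal.mk_ker wB x π hπ hw hx (fun s => hint (some s)) (hint none)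
    fun L _ ψ h1 s => by
      obtain ⟨a, ha⟩ := M0p.triv (JP.map ψ (JP.map (algebraMap B (C₀ ⧸ I)) hm1))
      obtain ⟨k1, k2, k3⟩ := key L ψ a ha
      refine (k3 (some s)).trans (fam_zero W _ _
        (hΦ4 L a (rel_of (ha ▸ JP.map ψ (JP.map (algebraMap B (C₀ ⧸ I)) hm1)))) (fun k => ?_) k2 _)
      have := k1 k
      rw [show ψ (algebraMap B (C₀ ⧸ I) t) = 1 from (by rw [hτ] at h1; exact h1), one_mul, add_sub_cancel] at this
      rw [hf, ← this]
      congr 1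
      exact funext fun i => congrArg ψ (hχ' _ _ (hc₀ i).symm)
  exact ⟨C₀ ⧸ I, P, H, R, _, _, _, _, _, _, _, _, _, inferInstance, inferInstance, inferInstance,
    .of_algebraMap_eq fun _ => rfl, wP, eps, nn, z, hCP⟩

end Pool.Agent.MP_855f4c_ag.A

end

section

/-! h14a, row T1: the change of generators near the zero set of `t'`. -/

set_option autoImplicit false
set_option backward.isDefEq.respectTransparency false

open CategoryTheory Limits Abelian Opposite AlgebraicGeometry Function MvPolynomial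

namespace Pool.Agent.MP_855f4c_ag.A

open E E3 E4 T Matw

namespace T1

variable {l : ℕ} [Fact l.Prime] {T : Scheme.{0}}

lemma thk_congr (G : SG l) {L L' : List (TH l T)} (e : L = L') (U : T.Opens) {k : ℕ} (h) (h') :
    G.thk L U k h = G.thk L' U k h' := by subst e; rfl

lemma pk_congr {L L' : List (EE l T 2)} (e : L = L') {k : ℕ} (h) (h') :
    Twt.pk L k h = Twt.pk L' k h' := by subst e; rfl

/-- A product of three lists. -/
lemma split (G : SG l) (L₁ L₂ L₃ : List (TH l T)) {U₀ V O U : T.Opens} {k₁ k₂ k₃ k : ℕ}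
    (h₁ : 2 * L₁.length = k₁) (h₂ : 2 * L₂.length = k₂) (h₃ : 2 * L₃.length = k₃)
    (e : k₁ + k₂ + k₃ = k) (h : 2 * (L₁ ++ L₂ ++ L₃).length = k) (hU₀ : U₀ ≤ sup L₁)
    (hV : V ≤ sup L₂) (hO : O ≤ sup L₃) (hU : U ≤ U₀ ⊔ O) :
    G.star U₀ O U _ _ k e ((G.thk L₁ U₀ k₁ h₁).comp (se l V k₂ (G.thk L₂ V k₂ h₂)) rfl)
      (G.thk L₃ O k₃ h₃) = G.thk (L₁ ++ L₂ ++ L₃) U k h := by
  have s₁ := G.star_comp U₀ V U₀ k₁ k₂ _ rfl (G.thk L₁ U₀ k₁ h₁) (G.thk L₂ V k₂ h₂) le_rfl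
  have h₄ : 2 * (L₁ ++ L₂).length = k₁ + k₂ := by rw [List.length_append]; omega
  rw [((kl l).1 T U₀ ⊤ _).2.1] at s₁
  rw [← s₁, (ths kl l G T L₁ U₀ k₁ h₁ hU₀).2.1 L₂ V U₀ k₂ _ h₂ rfl h₄ hV le_sup_left]
  refine (ths kl l G T _ U₀ _ h₄ fun x hx => ?_).2.1 L₃ O U k₃ k h₃ e h hO hU
  obtain ⟨a, ha, ha'⟩ := (mem_sup _ x).1 (hU₀ hx)
  exact (mem_sup _ x).2 ⟨a, List.mem_append_left _ ha, ha'⟩

variable {D β κ : Type} [CommRing D] [Fintype β]

lemma mem_sum (I : β → Ideal D) (x : Spec (.of D)) :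
    x ∈ opI (∑ a, I a) ↔ ∃ a, ¬ I a ≤ x.asIdeal := by
  rw [mem_opI, ← not_forall]
  exact not_congr ⟨fun h a => (Finset.single_le_sum (fun _ _ => bot_le) (Finset.mem_univ a)).trans h,
    fun h => Finset.sum_induction _ (· ≤ x.asIdeal) (fun _ _ => sup_le) bot_le fun a _ => h a⟩

lemma ex_triv {e : EV κ → D} (he : JP e) (x : Spec (.of D)) :
    ∃ a, emat a = algebraMap D x.asIdeal.ResidueField ∘ e := by
  have h1 : ∀ k, ∃ i, e (k, i, i) ∉ x.asIdeal := fun k => by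
    by_contra hc
    push Not at hc
    exact x.2.ne_top ((Ideal.eq_top_iff_one _).2 ((he k).1 ▸ add_mem (hc 0) (hc 1)))
  choose σ hσ using h1
  exact Ja.p3 _ σ (Ja.jp_map _ he) fun k =>
    Ne.isUnit fun hc => hσ k (Ideal.algebraMap_residueField_eq_zero.1 hc)

lemma le_iff {e : EV κ → D} {s : MvPolynomial (XY κ) D} {I : Ideal D} (h : Zer e s I)
    (x : Spec (.of D)) {a} (ha : emat a = algebraMap D x.asIdeal.ResidueField ∘ e) :
    I ≤ x.asIdeal ↔ eval₂ (algebraMap D x.asIdeal.ResidueField) a s = 0 := by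
  rw [← Ideal.span_singleton_eq_bot, ← h _ _ a ha, Ideal.map_eq_bot_iff_le_ker,
    Ideal.ker_algebraMap_residueField]

variable [Fintype κ] [DecidableEq κ] {Ω : Type} [Field Ω] (Ch : Chern l Ω)

lemma le_sup (ω : Ω →+* D) (e : EV κ → D) (n : β → κ → ℤ) (s : β → MvPolynomial (XY κ) D)
    (I : β → Ideal D) (A : List β) (hA : ∀ a, a ∈ A) :
    opI (∑ a, I a) ≤ sup (A.map fun b => thJ Ch ω e (n b) (s b) (I b)) := fun x hx =>
  (mem_supm A hA _ x).2 ((mem_sum I x).1 hx)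

/-- Pull-back of the product of the Thom classes of a family. -/
lemma tf_pb (G : SG l) {D' : Type} [CommRing D'] (ψ : D →+* D') {ω : Ω →+* D} {e : EV κ → D}
    {n : β → κ → ℤ} {s : β → MvPolynomial (XY κ) D} {I : β → Ideal D} (he : JP e)
    (hs : ∀ b, Hg (n b) (s b) ∧ Zer e (s b) (I b)) {U : (Spec (.of D)).Opens}
    (hU : U ≤ opI (∑ a, I a)) {k : ℕ} (h) (h') :
    spb l (spc ψ) (spc ψ ⁻¹ᵁ U) U k (G.thk ((Finset.univ : Finset β).toList.map fun b =>
      thJ Ch ω e (n b) (s b) (I b)) U k h) = G.thk ((Finset.univ : Finset β).toList.map fun b =>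
      thJ Ch (ψ.comp ω) (ψ ∘ e) (n b) (map ψ (s b)) ((I b).map ψ)) (spc ψ ⁻¹ᵁ U) k h' ∧
    spc ψ ⁻¹ᵁ U ≤ sup ((Finset.univ : Finset β).toList.map fun b =>
      thJ Ch (ψ.comp ω) (ψ ∘ e) (n b) (map ψ (s b)) ((I b).map ψ)) := by
  have p := fun b => pb_J Ch (ω := ω) thj he (hs b).1 (hs b).2 ψ (Twt.hg_map ψ (hs b).1)
    (Twt.zer_map ψ (hs b).2) fun _ _ _ _ _ => eval₂_map _ _ _ _
  have hU' := hU.trans (le_sup Ch ω e n s I Finset.univ.toList (by simp))
  exact ⟨thk_pb (ths kl) G p _ (by simp) hU' le_rfl h h',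
    fun x hx => (sup_pb p _ (by simp) x).2 (hU' hx)⟩

end T1

open T1 in
theorem t1 (hD : DEL_s) : T1_s := by
  intro l _ K Ω ν ρ J κ β _ _ _ _ _ _ _ _ _ _ Γ Ch τ o d c g y u ℓ W D _ ω e s₁ f₁ If Is x M h hu he
    hx hf hs₁ hIs hf₁
  obtain ⟨I', z, δ, μ, t, hI', hZ, hz, hc, hL, hμ, hδ⟩ :=
    hD K Ω ν ρ J κ β τ o d c g y u ℓ W D ω e hu he
  have hs : ∀ b, Hg (W.ns b) (s₁ b) ∧ Zer e (s₁ b) (Is b) := fun b =>
    ⟨hs₁ b ▸ Twt.hg_map _ (W.hs b), hIs b⟩
  let n₀ : BI d β c ⊕ β → κ → ℤ := Sum.elim W.n' W.ns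
  let T₀ : BI d β c ⊕ β → MvPolynomial (XY κ) D := Sum.elim (fun b => map ω (W.t' b)) s₁
  let I₀ : BI d β c ⊕ β → Ideal D := Sum.elim I' Is
  have h₀ : ∀ b, Hg (n₀ b) (T₀ b) ∧ Zer e (T₀ b) (I₀ b) := by
    rintro (b | b)
    exacts [⟨Twt.hg_map _ (W.ht b), hI' b⟩, hs b]
  have hM : 2 * (Finset.univ : Finset (BI d β c ⊕ β)).toList.length = M := by
    simp only [Finset.length_toList, Finset.card_univ, Fintype.card_sum, Fintype.card_fin] at h ⊢
    omega
  have hU : opI (∑ b, I' b) ≤ opI (∑ b, I₀ b) := fun q hq => by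
    obtain ⟨b, hb⟩ := (mem_sum _ q).1 hq
    exact (mem_sum _ q).2 ⟨.inl b, hb⟩
  refine ⟨opI (∑ b, I' b), z, δ, t, Γ.thk (Finset.univ.toList.map fun b =>
    thJ Ch ω e (n₀ b) (T₀ b) (I₀ b)) _ M (by rwa [List.length_map]), Finset.univ.toList.map n₀,
    by rwa [List.length_map, List.length_map], hZ, hz, hc, hL, ?_, ?_, ?_⟩
  · rw [(ths kl l Γ _ _ _ M _ (hU.trans (le_sup Ch ω e n₀ T₀ I₀ _ (by simp)))).1]
    refine pk_congr ?_ _ _
    rw [List.map_map, List.map_map]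
    exact List.map_congr_left fun b _ =>
      (thj l Ω Ch p1l κ D ω e _ _ _ he (h₀ b).1 (h₀ b).2).1 x hx
  · rw [List.map_map, Finset.prod_map_toList, Fintype.prod_sum_type]
    exact W.num
  rintro _ _ _ rfl rfl rfl
  let a := algebraMap D (Localization.Away δ)
  have he' : JP (a ∘ e) := Ja.jp_map a he
  have hsf : ∀ b, Hg (Sum.elim W.ns W.nf b) (Sum.elim s₁ f₁ b) ∧
      Zer e (Sum.elim s₁ f₁ b) (Sum.elim Is If b) := by
    rintro (b | b)
    exacts [hs b, hf b]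
  have hO : opI (∑ a, If a + ∑ b, Is b) = opI (∑ b, Sum.elim Is If b) := by
    rw [Fintype.sum_sum_type, add_comm]; rfl
  have ht := fun k => (triv0 kl l Ω Ch κ _ (a.comp ω) (a ∘ e) (C (t k)) (t k) he').1
    (isWeightedHomogeneous_C _ _) fun _ _ _ _ _ => eval₂_C _ _ _
  let n₁ : BI d β c ⊕ β → κ → ℤ := Sum.elim (Sum.elim (fun _ => 0) (Sum.elim W.ns W.nf)) W.ns
  let T₁ : BI d β c ⊕ β → MvPolynomial (XY κ) (Localization.Away δ) :=
    Sum.elim (Sum.elim (fun k => C (t k)) fun b => map a (Sum.elim s₁ f₁ b)) fun b => map a (s₁ b)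
  let I₁ : BI d β c ⊕ β → Ideal (Localization.Away δ) := Sum.elim (Sum.elim
    (fun k => Ideal.span {t k}) fun b => (Sum.elim Is If b).map a) fun b => (Is b).map a
  have h₁ : ∀ b, Hg (n₁ b) (T₁ b) ∧ Zer (a ∘ e) (T₁ b) (I₁ b) := by
    rintro ((b | b) | b)
    exacts [⟨isWeightedHomogeneous_C _ _, (ht b).1⟩,
      ⟨Twt.hg_map _ (hsf b).1, Twt.zer_map _ (hsf b).2⟩,
      ⟨Twt.hg_map _ (hs b).1, Twt.zer_map _ (hs b).2⟩]
  let m : BI d β c → MvPolynomial (XY κ) (Localization.Away δ) := Sum.elim (fun _ => μ) fun _ => 1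
  let N₀ := Matrix.diagonal m * W.Mx.map (map (a.comp ω))
  have hN : ∀ b b', N₀ b b' = m b * map (a.comp ω) (W.Mx b b') := fun b b' =>
    Matrix.diagonal_mul _ _ _ _
  have key : ∀ (D' : Type) [CommRing D'] (ψ : Localization.Away δ →+* D') (v : XY κ → D'),
      emat v = ψ ∘ a ∘ e → IsUnit (eval₂ ψ v N₀.det) ∧ ∀ b, eval₂ ψ v (T₁ (.inl b)) =
        ∑ b', eval₂ ψ v (N₀ b b') * eval₂ ψ v (map a (T₀ (.inl b'))) := by
    intro D' _ ψ v hv
    obtain ⟨u₁, u₂, u₃⟩ := hδ D' ψ v hv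
    have u₄ := W.mat D' (ψ.comp (a.comp ω)) v (Ja.rel_of_jp (hv ▸ Ja.jp_map ψ he'))
    constructor
    · rw [Matrix.det_mul, Matrix.det_diagonal, ← RingHom.mapMatrix_apply, ← RingHom.map_det,
        eval₂_mul, eval₂_map, eval₂_prod]
      refine (IsUnit.prod_univ_iff.2 ?_).mul u₁
      rintro (b | b)
      exacts [u₂, (eval₂_one ψ v).symm ▸ isUnit_one]
    · intro b
      have : ∀ b', eval₂ ψ v (N₀ b b') * eval₂ ψ v (map a (T₀ (.inl b'))) = eval₂ ψ v (m b) *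
          (eval₂ (ψ.comp (a.comp ω)) v (W.Mx b b') * eval₂ (ψ.comp (a.comp ω)) v (W.t' b')) :=
        fun b' => by
          rw [hN, eval₂_mul, eval₂_map, mul_assoc, eval₂_map]
          exact congrArg (fun r => _ * (_ * r)) (eval₂_map ω v (ψ.comp a) (W.t' b'))
      rw [Finset.sum_congr rfl fun b' _ => this b', ← Finset.mul_sum, ← u₄]
      rcases b with b | b | b
      · exact (eval₂_C _ _ _).trans (u₃ b)
      · refine ((eval₂_map _ _ _ _).trans ?_).trans (by rw [show m _ = 1 from rfl, eval₂_one, one_mul])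
        change eval₂ _ _ (s₁ b) = _
        rw [hs₁, eval₂_map]
        rfl
      · exact ((eval₂_map _ _ _ _).trans (hf₁ D' (ψ.comp a) v hv b)).trans
          (by rw [show m _ = 1 from rfl, eval₂_one, one_mul]; rfl)
  obtain ⟨p₀, -⟩ := tf_pb Ch Γ a (ω := ω) he h₀ hU (k := M) (by rwa [List.length_map])
    (by rwa [List.length_map])
  obtain ⟨p₁, q₁⟩ := tf_pb Ch Γ a (ω := ω) he hs le_rfl (k := 2 * Fintype.card β) (by simp) (by simp)
  obtain ⟨p₂, q₂⟩ := tf_pb Ch Γ a (ω := ω) he hsf hO.le (k := 2 * Fintype.card (β ⊕ Fin c))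
    (by simp) (by simp)
  have hm : ∀ (I : Ideal D) (q : Spec (.of (Localization.Away δ))),
      q ∈ spc a ⁻¹ᵁ opI I ↔ ¬ I.map a ≤ q.asIdeal := fun I q => not_congr Ideal.map_le_iff_le_comap.symm
  have hc₁ : ∀ q ∈ spc a ⁻¹ᵁ opI (∑ b, I' b), ∃ b, ¬ I₁ (.inl b) ≤ q.asIdeal := fun q hq => by
    obtain ⟨v, hv⟩ := ex_triv he' q
    obtain ⟨b, hb⟩ := (mem_sum I' (spc a q)).1 hq
    obtain ⟨u₁, u₂⟩ := key _ _ v hv
    have := (ex_iff (M := N₀.map (eval₂Hom (algebraMap _ q.asIdeal.ResidueField) v)) (funext u₂)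
      (by rwa [← RingHom.mapMatrix_apply, ← RingHom.map_det]) ⊥).2 ⟨b, fun h0 => (hm _ q).1 hb
        ((le_iff (Twt.zer_map a (hI' b)) q hv).2 h0)⟩
    exact this.imp fun b hb h0 => hb ((le_iff (h₁ (.inl b)).2 q hv).1 h0)
  have hc₂ : spc a ⁻¹ᵁ opI (∑ b, I' b) ≤ opI (Ideal.span (Set.range t)) ⊔
      spc a ⁻¹ᵁ opI (∑ a, If a + ∑ b, Is b) := fun q hq => by
    obtain ⟨b | b, hb⟩ := hc₁ q hq
    · exact .inl ((mem_span t q).2 ⟨b, fun h0 => hb ((Ideal.span_singleton_le_iff_mem _).2 h0)⟩)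
    · rw [hO]
      exact .inr ((mem_sum _ (spc a q)).2 ⟨b, (hm _ q).2 hb⟩)
  refine ⟨hc₂, p₀.trans ?_⟩
  let A : List (BI d β c ⊕ β) := (List.finRange d).map (.inl ∘ .inl) ++
    (Finset.univ : Finset β).toList.map .inr ++
    (Finset.univ : Finset (β ⊕ Fin c)).toList.map (.inl ∘ .inr)
  have hA : ∀ b, b ∈ A := by rintro ((b | b) | b) <;> simp [A]
  have hA' : A.Nodup := by
    refine List.Nodup.append (List.Nodup.append ?_ ?_ ?_) ?_ ?_
    · exact (List.nodup_finRange d).map (Sum.inl_injective.comp Sum.inl_injective)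
    · exact (Finset.nodup_toList _).map Sum.inr_injective
    · simp [List.disjoint_left]
    · exact (Finset.nodup_toList _).map (Sum.inl_injective.comp Sum.inr_injective)
    · simp [List.disjoint_left]
  have hA'' : 2 * A.length = M := by
    simp only [A, List.length_append, List.length_map, List.length_finRange, Finset.length_toList,
      Finset.card_univ]
    omega
  refine (matw thj l Ω Ch Γ κ _ (a.comp ω) (a ∘ e) _ n₁ n₀ T₁ _ I₁ _ (Matrix.fromBlocks N₀ 0 0 1) A _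
    _ M (by rwa [List.length_map]) _ he' h₁
    (fun b => ⟨Twt.hg_map _ (h₀ b).1, Twt.zer_map _ (h₀ b).2⟩) ?_ (fun D' _ ψ v hv => ?_) hA' hA
    (Finset.nodup_toList _) (by simp) fun q hq => ?_).symm.trans ?_
  · rintro (b | b) (b' | b')
    · change Hg _ (N₀ b b')
      have := Twt.hg_map (a.comp ω) (W.hM b b')
      rw [hN]
      rcases b with b | b
      · have h2 := hμ.mul this
        rwa [show -W.m + _ = n₁ (.inl (.inl b)) - n₀ (.inl b') from by
          change -W.m + (W.m - W.n' b') = 0 - W.n' b'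
          abel] at h2
      · rwa [show m _ = 1 from rfl, one_mul]
    · exact isWeightedHomogeneous_zero _ _ _
    · exact isWeightedHomogeneous_zero _ _ _
    · change Hg (W.ns b - W.ns b') ((1 : Matrix β β _) b b')
      rw [Matrix.one_apply]
      split_ifs with h0
      · rw [h0, sub_self]
        exact isWeightedHomogeneous_one _ _
      · exact isWeightedHomogeneous_zero _ _ _
  · obtain ⟨u₁, u₂⟩ := key D' ψ v hv
    refine ⟨by rwa [Matrix.det_fromBlocks_zero₂₁, Matrix.det_one, mul_one], ?_⟩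
    rintro (b | b)
    · rw [u₂, Fintype.sum_sum_type]
      simp
    · rw [Fintype.sum_sum_type]
      simp [Matrix.one_apply, apply_ite (eval₂ ψ v), T₁, T₀]
  · obtain ⟨b, hb⟩ := hc₁ q hq
    exact (mem_sum _ q).2 ⟨.inl b, hb⟩
  · rw [SG.tf, SG.tf, p₂, ← ((kl l).2.1 _ _ (spc a) _ ⊤ _ ⊤ _ le_rfl).2.2.1, p₁,
      split Γ _ _ _ _ _ _ h (by simpa [A] using hA'') (fun q hq => (mem_F Ch _ List.mem_finRange t q).2
        ((mem_span t q).1 hq)) q₁ q₂ hc₂]
    refine thk_congr Γ ?_ _ _ _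
    rw [List.map_append, List.map_append, List.map_map, List.map_map, List.map_map]
    congr 2
    exact List.map_congr_left fun k _ => (ht k).2

end Pool.Agent.MP_855f4c_ag.A

end

section

/-! h14a row ZETA: the action on top cohomology. -/

set_option autoImplicit false
set_option backward.isDefEq.respectTransparency false

open CategoryTheory Limits Abelian AlgebraicGeometry Function MvPolynomial

namespace Pool.Agent.MP_855f4c_ag.A

open E T

namespace Zeta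

variable {l : ℕ} [Fact l.Prime] {Ω : Type} [Field Ω] (Ch : Chern l Ω) {D D' : Type} [CommRing D]
  [CommRing D'] {β : Type}

lemma le_sup (ω : Ω →+* D) (t : β → D) (A : List β) (hA : ∀ a, a ∈ A) :
    opI (Ideal.span (Set.range t)) ≤ sup (A.map fun a => thF Ch ω (t a)) := by
  have key : ∀ (A : List β) (a : β), a ∈ A →
      opI (Ideal.span {t a}) ≤ sup (A.map fun a => thF Ch ω (t a)) := by
    intro A a ha
    induction A with
    | nil => cases ha
    | cons b A ih =>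
      rcases List.mem_cons.1 ha with rfl | h
      · exact le_sup_left
      · exact (ih h).trans le_sup_right
  intro p hp
  by_contra h
  refine hp ((PrimeSpectrum.mem_zeroLocus _ _).2 (Ideal.span_le.2 ?_))
  rintro _ ⟨a, rfl⟩
  by_contra h'
  exact h (key A a (hA a) fun e => h' ((PrimeSpectrum.mem_zeroLocus _ _).1 e
    (Ideal.subset_span rfl)))

lemma op_map (ψ : D →+* D') (t : β → D) :
    opI (Ideal.span (Set.range fun a => ψ (t a))) = spc ψ ⁻¹ᵁ opI (Ideal.span (Set.range t)) := by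
  rw [← Exce.opI_map, Ideal.map_span, ← Set.range_comp]
  rfl

lemma thF_pb (hJ : THJ_s) (ψ : D →+* D') (ω : Ω →+* D) (ω' : Ω →+* D') (e : ψ.comp ω = ω')
    (t : D) : (thF Ch ω' (ψ t)).1 ≤ spc ψ ⁻¹ᵁ (thF Ch ω t).1 ∧
      spb l (spc ψ) (thF Ch ω' (ψ t)).1 (thF Ch ω t).1 2 (thF Ch ω t).2 =
        1 • (thF Ch ω' (ψ t)).2 := by
  have z {D : Type} [CommRing D] (t : D) (e : EV (Fin 0) → D) :
      Zer e (C t) (Ideal.span {t}) := fun D' _ ψ a _ => by
    rw [eval₂_C, Ideal.map_span, Set.image_singleton]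
  have := (hJ l Ω Ch p1l (Fin 0) D ω (fun v => v.1.elim0) 0 (C t) (Ideal.span {t})
    (fun k => k.elim0) (isWeightedHomogeneous_C _ _) (z t _)).2 D' ψ ω' (RingHom.id Ω) 1 (C (ψ t))
    (Ideal.span {ψ t}) (fun ζ _ _ => pow_one ζ) e (isWeightedHomogeneous_C _ _) (z _ _)
    fun D'' _ χ a _ => by rw [eval₂_C, eval₂_C]; rfl
  rw [show (ψ ∘ fun v : EV (Fin 0) => (v.1.elim0 : D)) = fun v => v.1.elim0 from
    funext fun v => v.1.elim0] at this
  exact ⟨this.1.le, this.2⟩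

lemma thk_pb (hS : THS_s) (hJ : THJ_s) (G : SG l) (ψ : D →+* D') (ω : Ω →+* D) (ω' : Ω →+* D')
    (e : ψ.comp ω = ω') (t : β → D) (A : List β) (hA : ∀ a, a ∈ A) {U : (Spec (.of D)).Opens}
    {U' : (Spec (.of D')).Opens} (hU : U = opI (Ideal.span (Set.range t))) (hU' : U' ≤ spc ψ ⁻¹ᵁ U)
    (k : ℕ) (h) (h') : spb l (spc ψ) U' U k (G.thk (A.map fun a => thF Ch ω (t a)) U k h) =
      G.thk (A.map fun a => thF Ch ω' (ψ (t a))) U' k h' := by
  subst hU
  refine ((hS l G _ _ _ k h (le_sup Ch ω t A hA)).2.2 _ (spc ψ) _ U' 1 h' hU'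
    ((hU'.trans (op_map ψ t).ge).trans (le_sup Ch ω' _ A hA)) ?_).trans (by rw [one_pow, one_smul])
  rw [List.forall₂_map_left_iff, List.forall₂_map_right_iff, List.forall₂_same]
  exact fun a _ => thF_pb Ch hJ ψ ω ω' e (t a)

lemma exc (hK : KL_s) (hE : EXC_s) [Algebra D D'] {I : Ideal D} (h : Exs D D' I) (hI : I.FG)
    {U' : (Spec (.of D')).Opens} (hU : U' = spc (algebraMap D D') ⁻¹ᵁ opI I) (n : ℕ) :
    Injective (spb l (spc (algebraMap D D')) U' (opI I) n) := by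
  have e : opI (⊤ : Ideal D) = ⊤ := top_le_iff.1 fun p _ hp =>
    p.isPrime.ne_top (top_le_iff.1 ((PrimeSpectrum.mem_zeroLocus _ _).1 hp))
  have h1 := hE l D D' I ⊤ U' ⊤ n h hI Module.Finite.fg_top hU (by rw [e]; rfl)
  rw [e] at h1
  refine (injective_iff_map_eq_zero _).2 fun x hx => ?_
  obtain ⟨y, rfl⟩ := ((hK l).1 _ (opI I) ⊤ n).2.2.1.2 x
  rw [← ((hK l).2.1 _ _ _ U' ⊤ _ ⊤ n hU.le).2.1 le_top] at hx
  rw [h1.1 ((((hK l).1 _ U' ⊤ n).2.2.1.1 (hx.trans (map_zero _).symm)).trans (map_zero _).symm),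
    map_zero]

/-- Classes of top degree supported at a point inject. -/
lemma se_inj {Y : Scheme.{0}} (f : Y ⟶ Spec (.of Ω)) (x : Spec (.of Ω) ⟶ Y) [IsClosedImmersion x]
    (hx : x ≫ f = 𝟙 _) (U : Y.Opens) (hU : ∀ z, z ∈ U ↔ z ∉ Set.range x) (hl : Linv l Y) {N : ℕ}
    {t : HH l Y N →+ QZ l} (ht : PDh t) : Injective (se l U N) := by
  obtain ⟨hA, hΨ⟩ := clz l _ _ x U inferInstance hU hl
  obtain ⟨Ψ, hΨ⟩ := hΨ 0
  refine (injective_iff_map_eq_zero _).2 fun z hz => (ht _ hA N 0 (zero_add N)).1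
    (AddMonoidHom.ext fun y => ?_)
  obtain ⟨y, rfl⟩ : ∃ y', post _ (πU l U) 0 y' = y := ⟨hpb l f 0 (Ψ y), Ψ.injective (by
    rw [hΨ, ← Pbc.hpb_comp, hx, Pbc.hpb_id])⟩
  exact congrArg t (((Pbc.comp_pre _ y z (zero_add N)).symm.trans
    (congrArg (fun w => y.comp w (zero_add N)) hz)).trans
      ((Ext.comp_zero _ _ _ _ _).trans (Ext.comp_zero _ _ _ _ (zero_add N)).symm))

end Zeta

open Zeta in
theorem zeta (hK : KL_s) (hG : SG_s) (hO : OEX_s) (hE : EXC_s) (hS : THS_s) (hJ : THJ_s)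
    (hM : MAT0_s) (hN : NT0_s) (hZ : ZALG_s) : ZETA_s := by
  intro l _ Ω _ _ _ Y f d _ _ _ σ _ x hσ hx hxσ y
  have hl0 : (l : Ω) ≠ 0 := Nat.cast_ne_zero.2 (Fact.out : l.Prime).ne_zero
  have hl : Linv l Y := (Linv.spec hl0.isUnit).of_hom f
  have : Smooth f := SmoothOfRelativeDimension.smooth d f
  have : IsClosedImmersion (x ≫ f) := hx ▸ inferInstance
  have : IsClosedImmersion x := .of_comp x f
  let U : Y.Opens := ⟨(Set.range x)ᶜ, x.isClosedEmbedding.isClosed_range.isOpen_compl⟩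
  obtain ⟨B, B₁, _, _, _, a, s, w, w₁, _, _, M, z1, z2, z3, z4, z5, z6, z7, z8⟩ :=
    hZ Ω Y f d σ x U hσ hx hxσ fun _ => Iff.rfl
  obtain ⟨Ch⟩ := All.hCHERN l Ω hl0
  obtain ⟨G⟩ := hG l
  obtain ⟨t, ht⟩ := Kpd.pdh zb (All.hPDX l Ω Y f d (chart_of D.twf Ω Y f d))
  have hq := Kpd.qcs f
  let ι := algebraMap (MvPolynomial (Fin d) Ω) B
  let A := List.finRange d
  have hA : ∀ i, i ∈ A := List.mem_finRange
  have len {α : Type 1} (g : Fin d → α) : 2 * (A.map g).length = 2 * d := by simp [A]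
  have hU : U ≤ σ ⁻¹ᵁ U := by
    rintro z hz ⟨p, hp⟩
    exact hz ⟨p, σ.homeomorph.injective
      (((Scheme.Hom.comp_apply x σ p).symm.trans (congrArg (· p) hxσ)).trans hp)⟩
  have hw : U ⊔ w.opensRange = ⊤ := top_le_iff.1 (z4.ge.trans (sup_le_sup_left (by
    rintro _ ⟨p, rfl⟩
    exact ⟨spc a p, by rw [← z2]; rfl⟩) _))
  have uB : w ⁻¹ᵁ U = opI (Ideal.span (Set.range fun i => ι (X i))) := z5.trans (op_map ι X).symm
  obtain ⟨z, hz⟩ := (hO l _ _ w _ ⊥ U ⊥ (2 * d) hw rfl).1.2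
    (G.thk (A.map fun i => thF Ch (ι.comp C) (ι (X i))) (w ⁻¹ᵁ U) _ (len _))
  have ua : w₁ ⁻¹ᵁ U ≤ spc a ⁻¹ᵁ w ⁻¹ᵁ U := by rw [← z2]; exact le_rfl
  have us : w₁ ⁻¹ᵁ U ≤ spc s ⁻¹ᵁ w ⁻¹ᵁ U := by
    rw [← Scheme.Hom.comp_preimage, z3]
    exact fun p hp => hU hp
  have inv : spb l σ U U _ z = z := by
    refine (hO l _ _ w₁ _ ⊥ U ⊥ (2 * d) z4 rfl).1.1 ?_
    rw [((hK l).2.2 _ _ _ w₁ σ _ _ ⊥ U ⊥ U ⊥ _ rfl le_rfl hU).1,
      ← ((hK l).2.2 _ _ _ (spc s) w _ _ ⊥ _ ⊥ U ⊥ _ z3 us le_rfl).1,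
      ← ((hK l).2.2 _ _ _ (spc a) w _ _ ⊥ _ ⊥ U ⊥ _ z2 ua le_rfl).1, hz,
      thk_pb Ch hS hJ G s _ (a.comp (ι.comp C)) (RingHom.ext z6) _ A hA uB us _ _ (len _),
      thk_pb Ch hS hJ G a _ _ rfl _ A hA uB ua _ _ (len _)]
    exact hM l Ω Ch G B₁ _ (Fin d) _ _ M A A _ _ _ _ z7 z8 (List.nodup_finRange d) hA
      (List.nodup_finRange d) hA (us.trans (by rw [uB, op_map s]))
  have nz : ∃ c, tau (se l U _ z) c ≠ 0 := by
    by_contra! h
    obtain ⟨n, hn⟩ := kert l Y (2 * d) fun k hk => All.hKCOF l Y _ t hq ht k (by omega)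
    have h1 : l ^ n • z = 0 := se_inj f x hx U (fun _ => Iff.rfl) hl ht
      (by rw [map_nsmul, hn _ h, map_zero])
    refine hN l Ω Ch G (Fin d) A _ (len _) (l ^ n) (List.nodup_finRange d) hA
      (pow_ne_zero _ (Fact.out : l.Prime).ne_zero)
      (exc hK hE z1 (Submodule.fg_span (Set.finite_range _)) z5 _ ?_)
    rw [map_nsmul, thk_pb Ch hS hJ G ι _ _ rfl _ A hA rfl z5.le _ _ (len _), ← hz, ← map_nsmul, h1,
      map_zero, map_zero]
  obtain ⟨c, rfl⟩ := (All.hKTOP l Y _ t hq inferInstance ht).2.1 _ nz y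
  rw [Pbc.tau_pb, ← ((hK l).2.1 _ _ σ U ⊥ U ⊥ _ hU).2.2.1, inv]

end Pool.Agent.MP_855f4c_ag.A

end

section

/-! h14a row ZETK: the action on the top cohomology of the geometric fibre. -/

set_option autoImplicit false
set_option backward.isDefEq.respectTransparency false

open CategoryTheory Limits AlgebraicGeometry

namespace Pool.Agent.MP_855f4c_ag.A

open E T

namespace Zetk

lemma iso_of_pow {X : Scheme.{0}} (σ : End X) {n : ℕ} (hn : 0 < n) (h : σ ^ n = 1) :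
    IsIso (σ : X ⟶ X) := (isUnit_iff_isIso σ).1 (IsUnit.of_pow_eq_one h hn.ne')

/-- A nonempty scheme of finite type has a point in every algebraically closed extension. -/
lemma pt {K Ω : Type} [Field K] [Field Ω] [IsAlgClosed Ω] (τ : K →+* Ω) {D : Scheme.{0}}
    (g : D ⟶ Spec (.of K)) [LocallyOfFiniteType g] [Nonempty D] :
    ∃ x : Spec (.of Ω) ⟶ D, x ≫ g = spc τ := by
  obtain ⟨p, -⟩ := Scheme.exists_preimage_of_isPullback (IsPullback.of_hasPullback (spc τ) g)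
    (IsLocalRing.closedPoint Ω) (Classical.arbitrary D) (Subsingleton.elim _ _)
  have := LocallyOfFiniteType.jacobsonSpace (pullback.fst (spc τ) g)
  obtain ⟨q, -, hq⟩ := nonempty_inter_closedPoints (Z := Set.univ) ⟨p, trivial⟩
    isOpen_univ.isLocallyClosed
  exact ⟨pointOfClosedPoint (pullback.fst (spc τ) g) q hq ≫ pullback.snd _ _, by
    rw [Category.assoc, ← pullback.condition, pointOfClosedPoint_comp_assoc]⟩

end Zetk

/-- An automorphism that fixes a nonempty closed subscheme acts trivially on top cohomology. -/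
theorem zetk (hZ : ZETA_s) (l : ℕ) [Fact l.Prime] {K Ω : Type} [Field K] [Field Ω] [IsAlgClosed Ω]
    [CharZero Ω] (τ : K →+* Ω) {X D : Scheme.{0}} (f : X ⟶ Spec (.of K)) (d : ℕ)
    [SmoothOfRelativeDimension d f] [IsProper f] (hI : IrreducibleSpace (fbr f (spc τ)).left)
    (j : D ⟶ X) [LocallyOfFiniteType j] [Nonempty D] (σ : X ⟶ X) [IsIso σ] (hσ : σ ≫ f = f)
    (hj : j ≫ σ = j) (y : HH l (fbr f (spc τ)).left (2 * d)) :
    hpb l (sb f (spc τ) σ hσ) _ y = y := by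
  obtain ⟨x, hx⟩ := Zetk.pt τ (j ≫ f)
  have : IrreducibleSpace (pullback (spc τ) f : Scheme.{0}) := hI
  have : SmoothOfRelativeDimension d (pullback.fst (spc τ) f) :=
    have := smoothOfRelativeDimension_isStableUnderBaseChange.{0} d
    MorphismProperty.pullback_fst _ _ ‹_›
  have : IsIso (sb f (spc τ) σ hσ) := by
    unfold sb
    infer_instance
  refine hZ l Ω (pullback (spc τ) f) (pullback.fst _ _) d (sb f (spc τ) σ hσ)
    (pullback.lift (𝟙 _) (x ≫ j) (by simp [hx])) (Endr.sb_fst f _ σ hσ) (pullback.lift_fst _ _ _)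
    (pullback.hom_ext ?_ ?_) y
  · exact (Category.assoc _ _ _).trans (congrArg _ (Endr.sb_fst f _ σ hσ))
  · refine (Category.assoc _ _ _).trans ((congrArg _ (Endr.sb_snd f _ σ hσ)).trans ?_)
    erw [pullback.lift_snd_assoc, pullback.lift_snd, Category.assoc, hj]

end Pool.Agent.MP_855f4c_ag.A

end

section

/-! h14a row ZF. -/

set_option autoImplicit false

namespace Pool.Agent.MP_855f4c_ag.A

theorem zf (hK : KL_s) (hG : SG_s) (hO : OEX_s) (hE : EXC_s) (hS : THS_s) (hJ : THJ_s)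
    (hM : MAT0_s) (hN : NT0_s) : ZF_s := fun l _ _ _ _ _ _ _ τ _ f _ d _ _ j _ _ σ hσ _ hI hj hn h =>
  have := Zetk.iso_of_pow σ hn h
  zetk (zeta hK hG hO hE hS hJ hM hN zalg) l τ f d hI j σ hσ hj

end Pool.Agent.MP_855f4c_ag.A

end
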