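import Pool.Agent.MP_855f4c_ag.AC.Ao
import Pool.Agent.MP_855f4c_ag.AC.Av
import Pool.Agent.MP_855f4c_ag.AC.Aw
import Pool.Agent.MP_855f4c_ag.AC.As
import Pool.Agent.MP_855f4c_ag.AC.Au
import Pool.Agent.MP_855f4c_ag.AC.Ap
import Pool.Agent.MP_855f4c_ag.AC.An
import Pool.Agent.MP_855f4c_ag.AC.At
import Pool.Agent.MP_855f4c_ag.AC.Ae

set_option linter.all false

section

/-! h14a: all rows, without hypotheses. -/

namespace Pool.Agent.MP_855f4c_ag.A.All

theorem hTHS : THS_s := ths kl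
theorem hMAT0 : MAT0_s := mat0 hTHS thj
theorem hNT0 : NT0_s := nt0 hTHS oex
theorem hZF : ZF_s := zf kl sg oex exc hTHS thj hMAT0 hNT0
theorem hTBX : TBX_s := tbx les2 kl ret mod ba
theorem hEPS2 : EPS2_s := eps2 oex hTHS thj (t1 del)
theorem hMIDR : MIDR_s := midr kl oex exc gabk (rho kl) mod locj (locc kl oex hTHS) yc
theorem hCORE : T.CORE_s := core ba sg xae hTBX hZF xl jfs wpx cs opr2 hMIDR supA hEPS2
theorem hFINR : T.FINR_s := T.finr hCORE

end Pool.Agent.MP_855f4c_ag.A.All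

end
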