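import Pool.Agent.MP_855f4c_ag.AC.Ah
import Pool.Agent.MP_855f4c_ag.AC.Am
import Pool.Agent.MP_855f4c_ag.AC.Ad
import Pool.Agent.MP_855f4c_ag.TC.Tk

set_option linter.all false

section

/-! h14a rows BA and OEX. -/

set_option autoImplicit false
set_option backward.isDefEq.respectTransparency false

open CategoryTheory Limits Abelian Opposite AlgebraicGeometry Function

namespace Pool.Agent.MP_855f4c_ag.A

open E E3 E4 T T.Eza T.Pbc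

namespace Ba
variable {l : ℕ} [Fact l.Prime] {S S' T T' : Scheme.{0}}

lemma rp_s (g : T' ⟶ T) {U' : T'.Opens} {U : T.Opens} (h : U' ≤ g ⁻¹ᵁ U) :
    Rp l g U' U (rp l g U' U) := by
  rw [rp, dif_pos (exRp g h)]
  exact (exRp g h).choose_spec

lemma rf_s (g : T' ⟶ T) {O' : T'.Opens} {O : T.Opens} (h : g ⁻¹ᵁ O ≤ O') :
    Rf l g O' O (rf l g O' O) := by
  have h1 : ∃ b, Rf l g O' O b := Act.exRf g h
  rw [rf, dif_pos h1]
  exact h1.choose_spec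

lemma rp_iso (g : T' ⟶ T) {U' : T'.Opens} {U : T.Opens} (h : U' = g ⁻¹ᵁ U) :
    IsIso (rp l g U' U) := by
  subst h
  exact Rp_isIso (rp_s g le_rfl)

lemma rf_iso (g : T' ⟶ T) {O' : T'.Opens} {O : T.Opens} (h : O' = g ⁻¹ᵁ O) :
    IsIso (rf l g O' O) := by
  subst h
  exact Act.Rf_isIso (rf_s g le_rfl)

section comp
variable {g' : S ⟶ T'} {g : T' ⟶ T} {k : S ⟶ T} (e : g' ≫ g = k) {U'' O'' : S.Opens}
  {U' O' : T'.Opens} {U O : T.Opens}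

lemma rp_comp (h' : U'' ≤ g' ⁻¹ᵁ U') (h : U' ≤ g ⁻¹ᵁ U) :
    rp l g' U'' U' ≫ (pbe g').map (rp l g U' U) ≫ (pce e _).hom = rp l k U'' U := by
  subst e
  rw [pce_rfl]
  exact Rp_uniq (Rp_comp (rp_s g' h') (rp_s g h)) (rp_s _ fun _ hx => h (h' hx))

lemma rf_comp (h' : g' ⁻¹ᵁ O' ≤ O'') (h : g ⁻¹ᵁ O ≤ O') :
    (pce e _).inv ≫ (pbe g').map (rf l g O' O) ≫ rf l g' O'' O' = rf l k O'' O := by
  subst e
  rw [pce_rfl]
  exact Act.Rf_uniq (Act.Rf_comp (rf_s g h) (rf_s g' h')) (rf_s _ fun _ hx => h' (h hx))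

include e in
lemma kpb_kpb (h' : U'' ≤ g' ⁻¹ᵁ U') (h : U' ≤ g ⁻¹ᵁ U) (i' : g' ⁻¹ᵁ O' ≤ O'') (i : g ⁻¹ᵁ O ≤ O')
    {n : ℕ} (x : KK l T U O n) :
    kpb l g' U'' O'' U' O' n (kpb l g U' O' U O n x) = kpb l k U'' O'' U O n x := by
  refine (gp_gp e _ _ _ _ x).trans ?_
  rw [rp_comp e h' h, rf_comp e i' i]
  rfl

end comp

lemma kpb_l (g : T' ⟶ T) {U'' O'' U' O' : T'.Opens} {U O : T.Opens} (h' : U'' ≤ U')
    (h : U' ≤ g ⁻¹ᵁ U) (i' : O' ≤ O'') (i : g ⁻¹ᵁ O ≤ O') {n : ℕ} (x : KK l T U O n) :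
    kpb l (𝟙 T') U'' O'' U' O' n (kpb l g U' O' U O n x) = kpb l g U'' O'' U O n x :=
  kpb_kpb (U' := U') (O' := O') (Category.id_comp g) h' h i' i x

lemma kpb_r (g : T' ⟶ T) {U'' O'' : T'.Opens} {U' O' U O : T.Opens} (h' : U'' ≤ g ⁻¹ᵁ U')
    (h : U' ≤ U) (i' : g ⁻¹ᵁ O' ≤ O'') (i : O ≤ O') {n : ℕ} (x : KK l T U O n) :
    kpb l g U'' O'' U' O' n (kpb l (𝟙 T) U' O' U O n x) = kpb l g U'' O'' U O n x :=
  kpb_kpb (U := U) (O := O) (Category.comp_id g) h' h i' i x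

lemma kpb_le {U V : T.Opens} (h : U ≤ V) (O : T.Opens) (n : ℕ) :
    kpb l (𝟙 T) U O V O n = pre (qle h (Linf l T)) _ n := by
  ext x
  refine (gp_id _ _ x).trans ?_
  have h1 : (pi _).inv ≫ rf l (𝟙 T) O O = 𝟙 _ := by
    rw [Act.Rf_uniq (rf_s (l := l) (𝟙 T) (O' := O) le_rfl) (Act.Rf_id (Category.id_comp _))]
    exact Iso.inv_hom_id_assoc _ _
  have h2 : rp l (𝟙 T) U V ≫ (pi _).hom = qle h (Linf l T) := by
    rw [← cancel_epi (πU l U), reassoc_of% (rp_s (l := l) (𝟙 T) h : _ = _), pi_nat,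
      reassoc_of% lpb_pi]
    exact (π_qle h _).symm
  rw [h1, h2, post_id]
  rfl

lemma kpb_id {U O : T.Opens} {n : ℕ} (x : KK l T U O n) : kpb l (𝟙 T) U O U O n x = x := by
  rw [kpb_le le_rfl, show qle (le_refl U) (Linf l T) = 𝟙 _ from
    (cancel_epi (πU l U)).1 ((π_qle _ _).trans (Category.comp_id _).symm)]
  exact pre_id x

variable (j : T' ⟶ T) [IsOpenImmersion j]

/-- The connecting map for inverse images. -/
noncomputable def bd0 (W O : T.Opens) {U' : T'.Opens} (h : U' = j ⁻¹ᵁ W) (n : ℕ) :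
    KK l T' U' (j ⁻¹ᵁ O) n →+ KK l T (W ⊔ j.opensRange) O (n + 1) :=
  haveI := rp_iso (l := l) j h
  haveI := rf_iso (l := l) j (O := O) rfl
  Eza.bd j (rp l j U' W) (rf l j _ O) (ses (π_qle le_sup_left (Linf l T)) rfl) n

lemma bd0_nat (k : S' ⟶ S) [IsOpenImmersion k] {g : S ⟶ T} {g' : S' ⟶ T'} (e : g' ≫ j = k ≫ g)
    {W O : T.Opens} {U' : T'.Opens} (h : U' = j ⁻¹ᵁ W) {X P : S.Opens} {V' : S'.Opens}
    (h' : V' = k ⁻¹ᵁ X) (hX : X ≤ g ⁻¹ᵁ W) (hP : g ⁻¹ᵁ O ≤ P) {n : ℕ}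
    (x : KK l T' U' (j ⁻¹ᵁ O) n) :
    kpb l g (X ⊔ k.opensRange) P (W ⊔ j.opensRange) O (n + 1) (bd0 j W O h n x) =
      bd0 k X P h' n (kpb l g' V' (k ⁻¹ᵁ P) U' (j ⁻¹ᵁ O) n x) := by
  have := rp_iso (l := l) j h
  have := rf_iso (l := l) j (O := O) rfl
  have := rp_iso (l := l) k h'
  have := rf_iso (l := l) k (O := P) rfl
  have pt (z : S') : j (g' z) = g (k z) := congr($e z)
  have h1 : V' ≤ g' ⁻¹ᵁ U' := fun z hz => by
    subst h h'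
    exact (show j (g' z) ∈ W from pt z ▸ hX hz)
  have h2 : g' ⁻¹ᵁ j ⁻¹ᵁ O ≤ k ⁻¹ᵁ P := fun z hz => hP (show g (k z) ∈ O from pt z ▸ hz)
  have h3 : X ⊔ k.opensRange ≤ g ⁻¹ᵁ (W ⊔ j.opensRange) :=
    sup_le (fun z hz => .inl (hX hz)) (by
      rintro _ ⟨z, rfl⟩
      exact .inr ⟨g' z, pt z⟩)
  refine bd_nat j e rfl _ _ _ _ _ _ (rp l g X W) _ _ _ _ ?_ ?_ ?_ x
  · rw [← cancel_epi (πU l X), reassoc_of% (rp_s (l := l) g hX : _ = _), ← Functor.map_comp]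
    refine ((Category.assoc _ _ _).symm.trans (congrArg (· ≫ _) (π_qle _ _))).trans ?_
    exact (rp_s (l := l) g h3 : _ = _).trans (congrArg (_ ≫ (pbe g).map ·) (π_qle _ _).symm)
  · exact (rp_comp rfl h'.le hX).trans (rp_comp e h1 h.le).symm
  · exact (rf_comp rfl le_rfl hP).trans (rf_comp e h2 le_rfl).symm

/-- The largest open with inverse image `U'`. -/
noncomputable def Wm (U' : T'.Opens) : T.Opens := sSup {W | j ⁻¹ᵁ W ≤ U'}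

lemma Wm_eq (U' : T'.Opens) : U' = j ⁻¹ᵁ Wm j U' := by
  refine le_antisymm (fun z hz => ?_) fun z hz => ?_
  · exact le_sSup (s := {W | j ⁻¹ᵁ W ≤ U'}) (j.preimage_image_eq U').le ⟨z, hz, rfl⟩
  · obtain ⟨W, h1, h2⟩ := TopologicalSpace.Opens.mem_sSup.1 hz
    exact h1 h2

/-- The connecting map. -/
noncomputable def bd (U' O' : T'.Opens) (U O : T.Opens) (n : ℕ) :
    KK l T' U' O' n →+ KK l T U O (n + 1) :=
  (kpb l (𝟙 T) U O _ O (n + 1)).comp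
    ((bd0 j (Wm j U') O (Wm_eq j U') n).comp (kpb l (𝟙 T') U' _ U' O' n))

lemma bd_apply (U' O' : T'.Opens) (U O : T.Opens) {n : ℕ} (x : KK l T' U' O' n) :
    bd j U' O' U O n x = kpb l (𝟙 T) U O (Wm j U' ⊔ j.opensRange) O (n + 1)
      (bd0 j (Wm j U') O (Wm_eq j U') n (kpb l (𝟙 T') U' (j ⁻¹ᵁ O) U' O' n x)) := rfl

lemma bd_eq {U' O' : T'.Opens} {U O : T.Opens} (W : T.Opens) (h : U' = j ⁻¹ᵁ W)
    (hU : U ≤ W ⊔ j.opensRange) {n : ℕ} (x : KK l T' U' O' n) : bd j U' O' U O n x =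
      kpb l (𝟙 T) U O (W ⊔ j.opensRange) O (n + 1)
        (bd0 j W O h n (kpb l (𝟙 T') U' (j ⁻¹ᵁ O) U' O' n x)) := by
  have hW : W ≤ Wm j U' := le_sSup h.ge
  have := bd0_nat j j (g := 𝟙 T) (g' := 𝟙 T') (by simp) (Wm_eq j U') h hW (le_refl O)
    (kpb l (𝟙 T') U' (j ⁻¹ᵁ O) U' O' n x)
  rw [kpb_id] at this
  rw [← this, bd_apply, kpb_l (𝟙 T) hU (sup_le_sup_right hW _) le_rfl (le_refl O)]

omit [IsOpenImmersion j] in
lemma le_Wm {U' : T'.Opens} {U η : T.Opens} (h : ∃ W : T.Opens, j ⁻¹ᵁ W ≤ U' ∧ U ≤ W ⊔ η) :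
    U ≤ Wm j U' ⊔ η :=
  h.choose_spec.2.trans (sup_le_sup_right (le_sSup h.choose_spec.1) _)

theorem bd_nat' (k : S' ⟶ S)
    [IsOpenImmersion k] (g : S ⟶ T) (g' : S' ⟶ T') (U' O' : T'.Opens) (U O : T.Opens)
    (V' P' : S'.Opens) (V P : S.Opens) (n : ℕ) (x : KK l T' U' O' n) (e : g' ≫ j = k ≫ g)
    (h₀ : g ⁻¹ᵁ j.opensRange ≤ k.opensRange) (b : Bd j U' O' U O) (b' : Bd k V' P' V P)
    (h₁ : V ≤ g ⁻¹ᵁ U) (h₂ : g ⁻¹ᵁ O ≤ P) (h₃ : V' ≤ g' ⁻¹ᵁ U') (h₄ : g' ⁻¹ᵁ O' ≤ P') :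
    kpb l g V P U O (n + 1) (bd j U' O' U O n x) =
      bd k V' P' V P n (kpb l g' V' P' U' O' n x) := by
  have pt (z : S') : j (g' z) = g (k z) := congr($e z)
  have hU := le_Wm j b.2
  have e1 : V' = k ⁻¹ᵁ (Wm k V' ⊓ g ⁻¹ᵁ Wm j U') :=
    le_antisymm (fun z hz => ⟨(Wm_eq k V').le hz,
      show g (k z) ∈ Wm j U' from pt z ▸ (Wm_eq j U').le (h₃ hz)⟩) fun z hz => (Wm_eq k V').ge hz.1
  have e2 : V ≤ Wm k V' ⊓ g ⁻¹ᵁ Wm j U' ⊔ k.opensRange := fun z hz =>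
    (le_Wm k b'.2 hz).elim (fun a => (hU (h₁ hz)).elim (fun c => .inl ⟨a, c⟩)
      fun c => .inr (h₀ c)) .inr
  have h5 : g' ⁻¹ᵁ j ⁻¹ᵁ O ≤ k ⁻¹ᵁ P := fun z hz => h₂ (show g (k z) ∈ O from pt z ▸ hz)
  have h6 : Wm k V' ⊓ g ⁻¹ᵁ Wm j U' ⊔ k.opensRange ≤ g ⁻¹ᵁ (Wm j U' ⊔ j.opensRange) :=
    sup_le (fun z hz => .inl hz.2) (by
      rintro _ ⟨z, rfl⟩
      exact .inr ⟨g' z, pt z⟩)
  rw [bd_eq k _ e1 e2, kpb_l g' le_rfl h₃ b'.1 h₄, ← kpb_r g' h₃ le_rfl h5 b.1,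
    ← bd0_nat j k e (Wm_eq j U') e1 inf_le_right h₂, kpb_l g e2 h6 le_rfl h₂]
  rw [bd_apply, kpb_r g h₁ hU h₂ le_rfl]

theorem les (U' O' : T'.Opens) (W U O : T.Opens) (h : U' = j ⁻¹ᵁ W) (h' : O' = j ⁻¹ᵁ O)
    (hU : U = W ⊔ j.opensRange) :
    Injective (kpb l (𝟙 T) W O U O 0) ∧ ∀ n,
      Exact (kpb l (𝟙 T) W O U O n) (kpb l j U' O' W O n) ∧
      Exact (kpb l j U' O' W O n) (bd j U' O' U O n) ∧
      Exact (bd j U' O' U O n) (kpb l (𝟙 T) W O U O (n + 1)) := by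
  subst h' hU
  have := rp_iso (l := l) j h
  have := rf_iso (l := l) j (O := O) rfl
  have H := les1 j (rp l j U' W) (rf l j (j ⁻¹ᵁ O) O) (ses (π_qle le_sup_left (Linf l T)) rfl)
  have e (n : ℕ) : bd (l := l) j U' (j ⁻¹ᵁ O) (W ⊔ j.opensRange) O n = bd0 j W O h n :=
    AddMonoidHom.ext fun x => by rw [bd_eq j W h le_rfl, kpb_id, kpb_id]
  simp only [e, kpb_le (le_sup_left : W ≤ W ⊔ j.opensRange)]
  exact ⟨H.inj, fun n => ⟨H.e₂ n, H.e₃ n, H.e₁ n⟩⟩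

open Classical in
/-- The action. -/
noncomputable def act (U O : T.Opens) (n m k : ℕ) (e : n + m = k) :
    KK l T U O n →+ EE l T' m →+ KK l T U O k :=
  if h : O ≤ j.opensRange then
    ((Ext.bilinearComp _ _ _ n m k e).flip.comp (Act.hat j h m)).flip else 0

lemma act_eq {U O : T.Opens} (h : O ≤ j.opensRange) {n m k : ℕ} (e : n + m = k)
    (x : KK l T U O n) (y : EE l T' m) :
    act j U O n m k e x y = x.comp (Act.hat j h m y) e := by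
  rw [act, dif_pos h]
  rfl

lemma le_id (O : T.Opens) : O ≤ (𝟙 T : T ⟶ T).opensRange := fun x _ => ⟨x, rfl⟩

theorem act_nat (k : S' ⟶ S)
    [IsOpenImmersion k] (g : S ⟶ T) (g' : S' ⟶ T') (U O : T.Opens) (V P : S.Opens) (n m r : ℕ)
    (h : n + m = r) (x : KK l T U O n) (y : EE l T' m) (e : g' ≫ j = k ≫ g)
    (h₁ : O ≤ j.opensRange) (h₂ : P ≤ k.opensRange) (h₄ : g ⁻¹ᵁ O ≤ P) :
    kpb l g V P U O r (act j U O n m r h x y) =
      act k V P n m r h (kpb l g V P U O n x) (epb l g' m y) := by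
  rw [act_eq j h₁, act_eq k h₂]
  exact Act.kpb_act j h₁ k h₂ e h₄ (rf_s g h₄) _ x y h

lemma act_id {U O : T.Opens} {n m k : ℕ} (e : n + m = k) (x : KK l T U O n) (y : EE l T m) :
    act (𝟙 T) U O n m k e x y = x.comp (y.mapExactFunctor (ez O)) e := by
  rw [act_eq _ (le_id O), ← Act.hat_epb (𝟙 T) (le_id O), epb_id]

theorem act_bd (U' O' : T'.Opens)
    (U O : T.Opens) (n m r : ℕ) (h : n + m = r) (h' : n + 1 + m = r + 1) (x : KK l T' U' O' n)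
    (y : EE l T' m) (b : Bd j U' O' U O) (hO : O ≤ j.opensRange) :
    bd j U' O' U O r (act (𝟙 T') U' O' n m r h x y) =
      act j U O (n + 1) m (r + 1) h' (bd j U' O' U O n x) y := by
  have := rp_iso (l := l) j (Wm_eq j U')
  have := rf_iso (l := l) j (O := O) rfl
  have h1 := act_nat (𝟙 T') (𝟙 T') (𝟙 T') (𝟙 T') U' O' U' (j ⁻¹ᵁ O) n m r h x y rfl (le_id _)
    (le_id _) b.1
  have h2 := fun z => act_nat j j (𝟙 T) (𝟙 T') (Wm j U' ⊔ j.opensRange) O U O (n + 1) m (r + 1) h'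
    z y (by simp) hO hO le_rfl
  rw [epb_id] at h1 h2
  refine Eq.trans (congrArg (kpb l (𝟙 T) U O _ O (r + 1)) ?_) (h2 _)
  refine (congrArg (bd0 j (Wm j U') O (Wm_eq j U') r) h1).trans ?_
  rw [act_id, act_eq j hO]
  exact Act.bd_act j hO _ _ le_rfl (rf_s j le_rfl) h _ y

end Ba

open Ba in
theorem ba : BA_s := fun l _ => ⟨{
  bd := fun j => bd j
  bd_nat := fun j => bd_nat' j
  les := fun j => les j
  act := fun j => act j
  act_nat := fun j _ k _ g g' U O V P n m r h x y e h₁ h₂ _ h₄ =>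
    act_nat j k g g' U O V P n m r h x y e h₁ h₂ h₄
  act_bd := fun j => act_bd j
  act_ks := fun _ O _ _ _ h x y => by
    rw [act_id]
    exact Act.ι_act x y h }⟩

open Ba in
theorem oex : OEX_s := fun l _ T' T j _ U' O' U O n h h' => by
  have := rp_iso (l := l) j h'
  refine ⟨(post_bij _ _ n).comp (Eza.oex j h _ _ n), fun e => ?_⟩
  have := rf_iso (l := l) j e
  exact (post_bij _ _ n).comp (Eza.oex j h _ _ n)

end Pool.Agent.MP_855f4c_ag.A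

end

section

/-! h14a row OPR2: the fixed ring is a valuation ring and the two automorphisms are isometries. -/

set_option autoImplicit false

namespace Pool.Agent.MP_855f4c_ag.A

open T LP

theorem Opr2.dv {p : ℕ} [Fact p.Prime] (g h : PadicAlgCl p ≃+* PadicAlgCl p)
    (a b : Opr.fix g h) (hab : ‖(b : PadicAlgCl p)‖ ≤ ‖(a : PadicAlgCl p)‖) :
    ∃ c : Opr.fix g h, a * c = b := by
  by_cases ha : (a : PadicAlgCl p) = 0
  · rw [ha, norm_zero, norm_le_zero_iff] at hab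
    exact ⟨0, Subtype.ext (by simp [hab])⟩
  · refine ⟨⟨(b : PadicAlgCl p) / a, ?_, ?_, ?_⟩, Subtype.ext (mul_div_cancel₀ _ ha)⟩
    · rw [norm_div]; exact div_le_one_of_le₀ hab (norm_nonneg _)
    · rw [map_div₀, a.2.2.1, b.2.2.1]
    · rw [map_div₀, a.2.2.2, b.2.2.2]

theorem Opr2.val {p : ℕ} [Fact p.Prime] (g h : PadicAlgCl p ≃+* PadicAlgCl p) :
    ValuationRing (Opr.fix g h) :=
  { cond' := fun a b => (le_total ‖(b : PadicAlgCl p)‖ ‖(a : PadicAlgCl p)‖).elim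
      (fun e => (Opr2.dv g h a b e).imp fun _ => .inl)
      (fun e => (Opr2.dv g h b a e).imp fun _ => .inr) }

theorem opr2 : OPR2_s := by
  intro p l _ _ hlp K _ _ φ u Q E hQ hφ hu hr hE
  obtain ⟨h1, h2, h3⟩ := T.Pow.pow p l hlp
  obtain ⟨-, -, a3, a4⟩ := h1 Q φ.toRingEquiv (by omega) hφ
  obtain ⟨-, -, b3, b4⟩ := h1 1 u.toRingEquiv one_pos hu
  obtain ⟨a, a0, ha⟩ := a4 E
  obtain ⟨b, b0, hb⟩ := b4 E
  have m0 : 0 < a * b := Nat.mul_pos a0 b0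
  have c1 := a3 (a * b)
  have c2 := b3 (a * b)
  rw [one_pow] at c2
  let O := Opr.fix (φ.toRingEquiv ^ (a * b)) (u.toRingEquiv ^ (a * b))
  refine ⟨a * b, O, { φ.toRingEquiv ^ (a * b) with commutes' := fun o => o.2.2.1 },
    { u.toRingEquiv ^ (a * b) with commutes' := fun o => o.2.2.2 }, m0, fun z hz => hz.1,
    fun z hz => ⟨hE z hz, Opr.mul (ha z hz) b, mul_comm b a ▸ Opr.mul (hb z hz) a⟩,
    fun o => ⟨(h3 _).2 isIntegral_algebraMap, c1.1 o, c2.1 o⟩,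
    fun x hx => ⟨hx, (Opr.pw φ _ _).trans (AlgEquiv.commutes _ x),
      (Opr.pw u _ _).trans (AlgEquiv.commutes _ x)⟩,
    Opr.pw φ _, Opr.pw u _, c1, c2, h2 u.toRingEquiv _ m0 hu hr,
    (h1 _ _ (by positivity) c1).1, (h1 _ _ one_pos c2).1, Opr2.val _ _,
    (h1 _ _ (by positivity) c1).2.1, (h1 _ _ one_pos c2).2.1⟩

end Pool.Agent.MP_855f4c_ag.A

end
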