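import Pool.Agent.MP_855f4c_ag.AC.Aj
import Pool.Agent.MP_855f4c_ag.A.Def
import Pool.Agent.MP_855f4c_ag.AC.Ad

set_option linter.all false

section

/-! h14a row GENR: from `ℤ_p` to an arbitrary discrete valuation ring, for one reflection. -/

set_option autoImplicit false
set_option backward.isDefEq.respectTransparency false

open CategoryTheory Limits Abelian Opposite AlgebraicGeometry Function

namespace Pool.Agent.MP_855f4c_ag.T

open E E3 E4 LP M2 M3 Endr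

namespace Genr

variable {X : Scheme.{0}}

lemma hl_bij {T' T : Over X} (g : T' ⟶ T) (l i : ℕ)
    (h : ∀ n, Bijective (res g (Zl X l n) i)) : Bijective (hl l i g.left) := by
  have key : ∀ T : Over X, ∃ e : (limit (Et.tower l ⋙ (Et.coh i).obj (op T.left)) : Ab.{1}) →+
      tlim (A := fun n => H T (Zl X l n) i) fun n => Hmap (Zr X l n) T i, Bijective e ∧
      ∀ x n, (e x).1 n = Et.absZ T l n i (limit.π (Et.tower l ⋙ (Et.coh i).obj (op T.left)) (op n) x) :=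
    fun T => Et.lim_bij (Et.tower l ⋙ (Et.coh i).obj (op T.left)) _ (fun n => Et.absZ T l n i)
      (fun n => Et.absZ_bij T l n i) fun n => Et.absZ_map T l n i
  obtain ⟨e, e1, e2⟩ := key T
  obtain ⟨e', e1', e2'⟩ := key T'
  let a := (limMap (Functor.whiskerLeft (Et.tower l) ((Et.coh i).map g.left.op))).hom
  have sq : e' ∘ a = tmap (fun n => res g (Zl X l n) i) (fun _ => Hmap_res g _ i) ∘ e :=
    funext fun x => Subtype.ext (funext fun n => (e2' _ n).trans (Eq.trans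
      (congrArg _ congr($(limMap_π (Functor.whiskerLeft (Et.tower l) ((Et.coh i).map g.left.op))
        (op n)) x)) ((Et.absZ_res g l n i _).trans (congrArg _ (e2 x n).symm))))
  have ha : Bijective a := (Bijective.of_comp_iff' e1' _).1 (sq ▸ (tmap_bij _ _ h).comp e1)
  exact ((LinearEquiv.ofBijective a.toIntLinearMap ha).baseChange ℤ ℚ _ _).bijective

lemma tr {W W' : Type 1} [AddCommGroup W] [Module ℚ W] [AddCommGroup W'] [Module ℚ W']
    (e : W →ₗ[ℚ] W') (he : Bijective e) {φ u σ : Module.End ℚ W} {φ' u' σ' : Module.End ℚ W'}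
    (h1 : ∀ v, e (φ v) = φ' (e v)) (h2 : ∀ v, e (u v) = u' (e v)) (h3 : ∀ v, e (σ v) = σ' (e v))
    {q : ℕ} {i : ℤ} (h : Sum.MwOn q i φ' u' (LinearMap.range (σ' - 1))) :
    Sum.MwOn q i φ u (LinearMap.range (σ - 1)) := by
  obtain ⟨a1, a2, h⟩ := h
  have e3 : ∀ v, e ((σ - 1) v) = (σ' - 1) (e v) := fun v => by
    rw [LinearMap.sub_apply, LinearMap.sub_apply, map_sub, h3]; rfl
  have m : ∀ x, x ∈ LinearMap.range (σ - 1) ↔ e x ∈ LinearMap.range (σ' - 1) := fun x =>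
    ⟨fun ⟨y, hy⟩ => ⟨e y, by rw [← e3, hy]⟩, fun ⟨y, hy⟩ =>
      (he.2 y).elim fun z hz => ⟨z, he.1 (by rw [e3, hz, hy])⟩⟩
  refine ⟨fun v hv => (m _).2 (h1 v ▸ a1 _ ((m _).1 hv)),
    fun v hv => (m _).2 (h2 v ▸ a2 _ ((m _).1 hv)),
    mw_equiv (e.restrict fun x => (m x).1) ⟨fun x y h => Subtype.ext (he.1 (congrArg Subtype.val h)),
      fun y => ?_⟩ (fun v => ?_) (fun v => ?_) h⟩
  · obtain ⟨x, hx⟩ := he.2 y
    exact ⟨⟨x, (m x).2 (hx ▸ y.2)⟩, Subtype.ext hx⟩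
  · exact Subtype.ext (h1 v)
  · exact Subtype.ext (h2 v)

end Genr

/-- The conclusion for one endomorphism. -/
def MR {R Ω : Type} [CommRing R] [Field Ω] [Algebra R Ω] {X : Scheme.{0}} (f : X ⟶ Spec (.of R))
    (σ : X ⟶ X) (hσ : σ ≫ f = f) (l i Q : ℕ) (φ u : Ω ≃ₐ[R] Ω) : Prop :=
  Sum.MwOn Q i (Et.gal f l i φ) (Et.gal f l i u)
    (LinearMap.range (hl l i (sb f (spc (algebraMap R Ω)) σ hσ) - 1))

lemma Genr.ext {R : Type} [CommRing R] [IsNoetherianRing R] {X : Scheme.{0}}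
    (f : X ⟶ Spec (.of R)) [IsProper f] (σ : X ⟶ X) (hσ : σ ≫ f = f) (l : ℕ) [Fact l.Prime]
    {k K : Type} [Field k] [IsAlgClosed k] [Field K] [IsAlgClosed K] [Algebra R k] [Algebra R K]
    (ι : k →+* K) (e : spc ι ≫ spc (algebraMap R k) = spc (algebraMap R K)) (hl' : (l : k) ≠ 0)
    {i Q : ℕ} {φ u : k ≃ₐ[R] k} {φ' u' : K ≃ₐ[R] K} (h1 : ∀ z, φ' (ι z) = ι (φ z))
    (h2 : ∀ z, u' (ι z) = ι (u z)) (H : MR f σ hσ l i Q φ' u') : MR f σ hσ l i Q φ u := by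
  let j := (Over.pullback f).map (sph ι e)
  have key {g : k ≃ₐ[R] k} {g' : K ≃ₐ[R] K} (h : ∀ z, g' (ι z) = ι (g z)) (v) :
      hl l i j.left (Et.gal f l i g v) = Et.gal f l i g' (hl l i j.left v) := by
    have : sph ι e ≫ gm g = gm g' ≫ sph ι e := by
      ext1
      change spc ι ≫ spc (g : k →+* k) = spc (g' : K →+* K) ≫ spc ι
      rw [← Spec.map_comp, ← Spec.map_comp, ← CommRingCat.ofHom_comp, ← CommRingCat.ofHom_comp]
      exact congrArg spc (RingHom.ext fun z => (h z).symm)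
    rw [gal_eq f l i g (Over.w (gm g)), gal_eq f l i g' (Over.w (gm g'))]
    refine hl_sq l i ?_ v
    have := congrArg (fun a => ((Over.pullback f).map a).left) this
    simp only [Functor.map_comp, Over.comp_left] at this
    exact this
  refine Genr.tr (hl l i j.left) (Genr.hl_bij j l i fun n =>
    res_bij E.All.pbcx f l ι e hl' (zl_tc l n) i) (key h1) (key h2) (fun v => hl_sq l i ?_ v) H
  have a1 : j.left ≫ pullback.fst (Over.mk (spc (algebraMap R k))).hom f =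
      pullback.fst (Over.mk (spc (algebraMap R K))).hom f ≫ spc ι := pullback.lift_fst _ _ _
  have a2 : j.left ≫ pullback.snd (Over.mk (spc (algebraMap R k))).hom f =
      pullback.snd (Over.mk (spc (algebraMap R K))).hom f := pullback.lift_snd _ _ _
  refine pullback.hom_ext ?_ ?_
  · rw [Category.assoc, Category.assoc, a1, sb_fst, a1, ← Category.assoc, sb_fst]
  · rw [Category.assoc, Category.assoc, a2, sb_snd, sb_snd, ← Category.assoc, a2]

theorem genr {R : Type} [CommRing R] [IsNoetherianRing R] {X : Scheme.{0}} (f : X ⟶ Spec (.of R))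
    [IsProper f] (σ : X ⟶ X) (hσ : σ ≫ f = f)
    (O Ω : Type) [CommRing O] [IsDomain O] [IsDiscreteValuationRing O]
    [Finite (IsLocalRing.ResidueField O)] [Field Ω] [CharZero Ω] [IsAlgClosed Ω] [Algebra O Ω]
    [FaithfulSMul O Ω] [Algebra.IsAlgebraic O Ω] [Algebra R Ω] (l : ℕ) [Fact l.Prime]
    (ul : IsUnit (l : O)) (i : ℕ)
    (hM : ∀ (p : ℕ) [Fact p.Prime] [Algebra R (PadicAlgCl p)] (_ : Ω →ₐ[R] PadicAlgCl p), l ≠ p →
      ∀ (φ u : PadicAlgCl p ≃ₐ[R] PadicAlgCl p) (Q : ℕ), 1 < Q → Frob ℤ_[p] Q φ →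
        Frob ℤ_[p] 1 u →
        (∃ (n : ℕ) (r : PadicAlgCl p) (o : ℤ_[p]), r ^ l ^ n = algebraMap _ _ o ∧ u r ≠ r) →
        MR f σ hσ l i Q φ u)
    (φ u : Ω ≃ₐ[R] Ω) (Q : ℕ) (hQ : 1 < Q) (hφ : Frob O Q φ) (hu : Frob O 1 u)
    (h : ∃ (n : ℕ) (r : Ω) (o : O), r ^ l ^ n = algebraMap O Ω o ∧ u r ≠ r) :
    MR f σ hσ l i Q φ u := by
  obtain ⟨n, r, o, hr, hur⟩ := h
  obtain ⟨p, hp⟩ := CharP.exists (IsLocalRing.ResidueField O)
  have : Fact p.Prime := ⟨CharP.char_is_prime (IsLocalRing.ResidueField O) p⟩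
  have up : ¬ IsUnit (p : O) := fun h =>
    (h.map (IsLocalRing.residue O)).ne_zero (by rw [map_natCast, CharP.cast_eq_zero])
  have : CharZero O := (algebraMap O Ω).charZero
  obtain ⟨χ, c1, c2⟩ := M3.emb p O up
  obtain ⟨ι, hι⟩ := exists_iota (Ω := Ω) χ c1
  let : Algebra R (PadicAlgCl p) := (ι.comp (algebraMap R Ω)).toAlgebra
  have ext (g : Ω ≃ₐ[R] Ω) (q : ℕ) (hq : 0 < q) (hg : Frob O q g) :
      ∃ (g' : PadicAlgCl p ≃ₐ[ℚ_[p]] PadicAlgCl p) (g'' : PadicAlgCl p ≃ₐ[R] PadicAlgCl p),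
        ⇑g' = g'' ∧ (∀ z, g'' (ι z) = ι (g z)) ∧ Frob ℤ_[p] q g' := by
    obtain ⟨a1, a2⟩ := M3.iso p O Ω ι up (fun o => (hι o).symm ▸ c2 o) q g hq hg
    obtain ⟨g', hg'⟩ := (M3.ext p Ω ι).2 g a1
    refine ⟨g', { g'.toRingEquiv with
      commutes' := fun r => (hg' _).trans (congrArg ι (g.commutes r)) }, rfl, hg',
      (M3.frb p g').1 q _ (M3.ext p Ω ι).1 ?_⟩
    rintro _ ⟨z, rfl⟩ hz
    rw [hg']
    exact a2 z hz
  obtain ⟨φ', φ'', a1, a2, a3⟩ := ext φ Q (by omega) hφ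
  obtain ⟨u', u'', b1, b2, b3⟩ := ext u 1 one_pos hu
  have hl : l ≠ p := fun e => up (e ▸ ul)
  have b4 := (M3.frb p u').2 l hl b3 n (ι r) (by rw [← map_pow, hr, b1, b2, hu.1]) fun e =>
    hur (ι.injective (by rwa [b1, b2] at e))
  rw [a1] at a3
  rw [b1] at b3 b4
  have e : spc ι ≫ spc (algebraMap R Ω) = spc (algebraMap R (PadicAlgCl p)) := by
    rw [← Spec.map_comp, ← CommRingCat.ofHom_comp]; rfl
  exact Genr.ext f σ hσ l ι e (Nat.cast_ne_zero.2 (Fact.out : l.Prime).ne_zero) a2 b2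
    (hM p { ι with commutes' := fun _ => rfl } hl φ'' u'' Q hQ a3 b3 b4)

end Pool.Agent.MP_855f4c_ag.T

end

section

/-! h14a row FINR: from one reflection over `ℚ_p`-bar to the final statement. -/

set_option autoImplicit false
set_option backward.isDefEq.respectTransparency false

open CategoryTheory Limits AlgebraicGeometry MvPolynomial

namespace Pool.Agent.MP_855f4c_ag.T

attribute [local instance] MvPolynomial.gradedAlgebra

open Et in
/-- One reflection, over the algebraic closure of `ℚ_p`. -/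
def CORE_s : Prop := ∀ (p l : ℕ) [Fact p.Prime] [Fact l.Prime], l ≠ p →
    ∀ (K : Type) [Field K] [Algebra K (PadicAlgCl p)] (X : Scheme.{0}) (f : X ⟶ Spec (.of K))
    (d N : ℕ) [SmoothOfRelativeDimension d f] [GeometricallyIrreducible f]
    (ι : X ⟶ Proj (homogeneousSubmodule (Fin (N + 1)) K)) [IsClosedImmersion ι]
    (_ : ι ≫ Proj.toSpecZero _ ≫ Spec.map (CommRingCat.ofHom (algebraMap K _)) = f)
    (D : Scheme.{0}) (j : D ⟶ X) [IsClosedImmersion j] [Smooth (j ≫ f)] [Nonempty D]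
    (_ : ∀ x : X, x ∈ Set.range j ↔ MvPolynomial.X 0 ∈ (ι x).asHomogeneousIdeal)
    (_ : ∃ x : X, x ∉ Set.range j)
    (σ : End X) (hσ : σ ≫ f = f) (_ : j ≫ σ = j) (n : ℕ), 0 < n → σ ^ n = 1 →
    ∀ (i : ℕ) (φ u : PadicAlgCl p ≃ₐ[K] PadicAlgCl p) (Q : ℕ), 1 < Q → Frob ℤ_[p] Q φ →
      Frob ℤ_[p] 1 u →
      (∃ (n : ℕ) (r : PadicAlgCl p) (o : ℤ_[p]), r ^ l ^ n = algebraMap _ _ o ∧ u r ≠ r) →
      MR f σ hσ l i Q φ u

open Et in
/-- The final statement. -/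
def FINR_s : Prop := ∀ (K : Type) [Field K] (X : Scheme.{0}) (f : X ⟶ Spec (.of K)) (d : ℕ)
    [SmoothOfRelativeDimension d f] [GeometricallyIrreducible f]
    (G : Type) [Group G] [Finite G] (ρ : G →* End X) (hρ : ∀ g, ρ g ≫ f = f)
    (S : Set G) (_ : Subgroup.closure S = ⊤)
    (_ : ∀ s ∈ S, ∃ (N : ℕ) (ι : X ⟶ Proj (homogeneousSubmodule (Fin (N + 1)) K))
      (D : Scheme.{0}) (j : D ⟶ X), IsClosedImmersion ι ∧
      ι ≫ Proj.toSpecZero _ ≫ Spec.map (CommRingCat.ofHom (algebraMap K _)) = f ∧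
      IsClosedImmersion j ∧ Smooth (j ≫ f) ∧ Nonempty D ∧ j ≫ ρ s = j ∧
      ∀ x : X, x ∈ Set.range j ↔ MvPolynomial.X 0 ∈ (ι x).asHomogeneousIdeal)
    (O Ω : Type) [CommRing O] [IsDomain O] [IsDiscreteValuationRing O]
    [Finite (IsLocalRing.ResidueField O)] [Field Ω] [CharZero Ω] [IsAlgClosed Ω] [Algebra O Ω]
    [FaithfulSMul O Ω] [Algebra.IsAlgebraic O Ω] [Algebra K Ω]
    (l : ℕ) [Fact l.Prime] (_ : IsUnit (l : O)) (i : ℕ) (φ u : Ω ≃ₐ[K] Ω) (Q : ℕ) (_ : 1 < Q)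
    (_ : Frob O Q φ) (_ : Frob O 1 u)
    (_ : ∃ (n : ℕ) (r : Ω) (o : O), r ^ l ^ n = algebraMap O Ω o ∧ u r ≠ r)
    (W : Submodule ℚ _) (_ : W = ⨆ g, LinearMap.range (act Ω f l i (ρ g) (hρ g) - 1)),
    ∃ (h1 : ∀ v ∈ W, gal f l i φ v ∈ W) (h2 : ∀ v ∈ W, gal f l i u v ∈ W),
      Mw (W := ModuleCat.of ℚ W) Q i ((gal f l i φ).restrict h1) ((gal f l i u).restrict h2)

namespace Finr

open E Endr

variable {R Ω : Type} [CommRing R] [Field Ω] [Algebra R Ω] {X : Scheme.{0}}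
  (f : X ⟶ Spec (.of R)) (l i : ℕ)

lemma act_eq (σ : X ⟶ X) (h : σ ≫ f = f) :
    Et.act Ω f l i σ h = hl l i (sb f (spc (algebraMap R Ω)) σ h) := rfl

lemma act_id (σ : X ⟶ X) (h : σ ≫ f = f) (e : σ = 𝟙 X) : Et.act Ω f l i σ h = 1 := by
  subst e
  rw [act_eq, sb_id, hl_id]

lemma act_comp (σ τ υ : X ⟶ X) (h h' h'') (e : υ = σ ≫ τ) :
    Et.act Ω f l i υ h'' = Et.act Ω f l i σ h * Et.act Ω f l i τ h' := by
  subst e
  rw [act_eq, sb_comp f _ σ τ h h']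
  exact LinearMap.ext (hl_comp l i _ _)

lemma act_gal (σ : X ⟶ X) (h : σ ≫ f = f) (g : Ω ≃ₐ[R] Ω) (v) :
    Et.act Ω f l i σ h (Et.gal f l i g v) = Et.gal f l i g (Et.act Ω f l i σ h v) := by
  have fx : spc (g : Ω →+* Ω) ≫ spc (algebraMap R Ω) = spc (algebraMap R Ω) := by
    rw [← Spec.map_comp, ← CommRingCat.ofHom_comp]
    congr 2
    exact RingHom.ext g.commutes
  rw [gal_eq f l i g fx]
  exact hl_sq l i (sb_fa f _ fx σ h) v

/-- The sum over the generators. -/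
theorem sum {G : Type} [Group G] [Finite G] (ρ : G →* End X) (hρ : ∀ g, ρ g ≫ f = f)
    {S : Set G} (hS : Subgroup.closure S = ⊤) {φ u : Ω ≃ₐ[R] Ω} {Q : ℕ} (hQ : 1 < Q)
    (h : ∀ s ∈ S, MR f (ρ s) (hρ s) l i Q φ u) :
    Sum.MwOn Q i (Et.gal f l i φ) (Et.gal f l i u)
      (⨆ g, LinearMap.range (Et.act Ω f l i (ρ g) (hρ g) - 1)) :=
  Sum.sumA (fun g => Et.act Ω f l i (ρ g) (hρ g)) (act_id f l i _ _ ρ.map_one)
    (fun g h => act_comp f l i _ _ _ _ _ _ (ρ.map_mul g h)) hQ S hS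
    (fun _ => act_gal f l i _ _ φ) (fun _ => act_gal f l i _ _ u) h

/-- The identity has no non-invariant part. -/
lemma mr_id (σ : X ⟶ X) (h : σ ≫ f = f) (e : σ = 𝟙 X) {φ u : Ω ≃ₐ[R] Ω} {Q : ℕ} (hQ : 1 < Q) :
    MR f σ h l i Q φ u := by
  have := sum f l i (1 : Unit →* End X) (fun _ => Category.id_comp f) (S := ∅)
    (Subsingleton.elim _ _) (φ := φ) (u := u) hQ fun _ h => h.elim
  subst e
  rw [iSup_unique] at this
  exact this

end Finr

theorem finr (hC : CORE_s) : FINR_s := by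
  intro K _ X f d _ _ G _ _ ρ hρ S hS hD O Ω _ _ _ _ _ _ _ _ _ _ _ l _ ul i φ u Q h1 h2 h3 h4 W hW
  subst hW
  refine Finr.sum f l i ρ hρ hS h1 fun s hs => ?_
  obtain ⟨N, ι, D, j, a1, a2, a3, a4, a5, a6, a7⟩ := hD s hs
  by_cases hj : ∃ x : X, x ∉ Set.range j
  · have : IsProper f := a2 ▸ Lr.prp K _ ι
    exact genr f (ρ s) (hρ s) O Ω l ul i (fun p _ _ _ hl φ u Q => hC p l hl K X f d N ι a2 D j a7 hj
      (ρ s) (hρ s) a6 (orderOf s) (orderOf_pos s) (by rw [← map_pow, pow_orderOf_eq_one, map_one])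
      i φ u Q) φ u Q h1 h2 h3 h4
  · have : Surjective j := ⟨fun x => not_not.1 fun h => hj ⟨x, h⟩⟩
    have : Smooth f := SmoothOfRelativeDimension.smooth d f
    have : IsReduced X := by
      choose U h1 _ h3 using E.D.intb K X f
      exact (IsReduced.iff_of_openCover _ (X.openCoverOfIsOpenCover U
        (eq_top_iff.2 fun x _ => TopologicalSpace.Opens.mem_iSup.2 ⟨x, h1 x⟩))).2 fun i =>
          have := h3 i
          inferInstanceAs (IsReduced (U i).toScheme)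
    have := isIso_of_isClosedImmersion_of_surjective j
    exact Finr.mr_id f l i _ _ ((cancel_epi j).1 (a6.trans (Category.comp_id j).symm)) h1

end Pool.Agent.MP_855f4c_ag.T

end

section

/-! h14a row FINC: a variety and its quotient by a group generated by ample reflections. -/

set_option autoImplicit false
set_option backward.isDefEq.respectTransparency false

open CategoryTheory Limits AlgebraicGeometry MvPolynomial

namespace Pool.Agent.MP_855f4c_ag.T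

attribute [local instance] MvPolynomial.gradedAlgebra

open Et in
/-- The cohomology of `X` is the sum of the cohomology of `Y` and a pure part. -/
def FINE_s : Prop := ∀ (K : Type) [Field K] (X Y : Scheme.{0}) (π : X ⟶ Y) (f : Y ⟶ Spec (.of K))
    [IsFinite π] [Surjective π] (d : ℕ) [SmoothOfRelativeDimension d (π ≫ f)]
    [GeometricallyIrreducible (π ≫ f)]
    (G : Type) [Group G] [Finite G] (ρ : G →* End X) (_ : ∀ g, ρ g ≫ π = π)
    (_ : ∀ (k : Type) [Field k] [IsAlgClosed k] (x y : Spec (.of k) ⟶ X),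
      x ≫ π = y ≫ π → ∃ g, y = x ≫ ρ g)
    (S : Set G) (_ : Subgroup.closure S = ⊤)
    (_ : ∀ s ∈ S, ∃ (N : ℕ) (ι : X ⟶ Proj (homogeneousSubmodule (Fin (N + 1)) K))
      (D : Scheme.{0}) (j : D ⟶ X), IsClosedImmersion ι ∧
      ι ≫ Proj.toSpecZero _ ≫ Spec.map (CommRingCat.ofHom (algebraMap K _)) = π ≫ f ∧
      IsClosedImmersion j ∧ Smooth (j ≫ π ≫ f) ∧ Nonempty D ∧ j ≫ ρ s = j ∧
      ∀ x : X, x ∈ Set.range j ↔ MvPolynomial.X 0 ∈ (ι x).asHomogeneousIdeal)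
    (O Ω : Type) [CommRing O] [IsDomain O] [IsDiscreteValuationRing O]
    [Finite (IsLocalRing.ResidueField O)] [Field Ω] [CharZero Ω] [IsAlgClosed Ω] [Algebra O Ω]
    [FaithfulSMul O Ω] [Algebra.IsAlgebraic O Ω] [Algebra K Ω]
    (l : ℕ) [Fact l.Prime] (_ : IsUnit (l : O)) (i : ℕ) (φ u : Ω ≃ₐ[K] Ω) (Q : ℕ) (_ : 1 < Q)
    (_ : Frob O Q φ) (_ : Frob O 1 u)
    (_ : ∃ (n : ℕ) (r : Ω) (o : O), r ^ l ^ n = algebraMap O Ω o ∧ u r ≠ r),
    ∃ (W : ModuleCat.{1} ℚ) (φ' u' : Module.End ℚ W)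
      (e : (Hl l i).obj (.op (pullback (Spec.map (CommRingCat.ofHom (algebraMap K Ω))) (π ≫ f))) ≃ₗ[ℚ]
        (Hl l i).obj (.op (pullback (Spec.map (CommRingCat.ofHom (algebraMap K Ω))) f)) × W),
      e.conj (gal (π ≫ f) l i φ) = (gal f l i φ).prodMap φ' ∧
      e.conj (gal (π ≫ f) l i u) = (gal f l i u).prodMap u' ∧ Mw Q i φ' u'

open Et in
/-- Purity of `X` and of `Y` are equivalent. -/
def FINC_s : Prop := ∀ (K : Type) [Field K] (X Y : Scheme.{0}) (π : X ⟶ Y) (f : Y ⟶ Spec (.of K))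
    [IsFinite π] [Surjective π] (d : ℕ) [SmoothOfRelativeDimension d (π ≫ f)]
    [GeometricallyIrreducible (π ≫ f)]
    (G : Type) [Group G] [Finite G] (ρ : G →* End X) (_ : ∀ g, ρ g ≫ π = π)
    (_ : ∀ (k : Type) [Field k] [IsAlgClosed k] (x y : Spec (.of k) ⟶ X),
      x ≫ π = y ≫ π → ∃ g, y = x ≫ ρ g)
    (S : Set G) (_ : Subgroup.closure S = ⊤)
    (_ : ∀ s ∈ S, ∃ (N : ℕ) (ι : X ⟶ Proj (homogeneousSubmodule (Fin (N + 1)) K))
      (D : Scheme.{0}) (j : D ⟶ X), IsClosedImmersion ι ∧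
      ι ≫ Proj.toSpecZero _ ≫ Spec.map (CommRingCat.ofHom (algebraMap K _)) = π ≫ f ∧
      IsClosedImmersion j ∧ Smooth (j ≫ π ≫ f) ∧ Nonempty D ∧ j ≫ ρ s = j ∧
      ∀ x : X, x ∈ Set.range j ↔ MvPolynomial.X 0 ∈ (ι x).asHomogeneousIdeal)
    (O Ω : Type) [CommRing O] [IsDomain O] [IsDiscreteValuationRing O]
    [Finite (IsLocalRing.ResidueField O)] [Field Ω] [CharZero Ω] [IsAlgClosed Ω] [Algebra O Ω]
    [FaithfulSMul O Ω] [Algebra.IsAlgebraic O Ω] [Algebra K Ω]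
    (l : ℕ) [Fact l.Prime] (_ : IsUnit (l : O)) (i : ℕ) (φ u : Ω ≃ₐ[K] Ω) (Q : ℕ) (_ : 1 < Q)
    (_ : Frob O Q φ) (_ : Frob O 1 u)
    (_ : ∃ (n : ℕ) (r : Ω) (o : O), r ^ l ^ n = algebraMap O Ω o ∧ u r ≠ r),
    Mw Q i (gal (π ≫ f) l i φ) (gal (π ≫ f) l i u) ↔ Mw Q i (gal f l i φ) (gal f l i u)

namespace Finc

open E Endr Opposite Function

variable {R Ω : Type} [CommRing R] [Field Ω] [CharZero Ω] [Algebra R Ω] {X Y : Scheme.{0}}
  (π : X ⟶ Y) [IsIntegralHom π] [AlgebraicGeometry.Surjective π] (f : Y ⟶ Spec (.of R))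
  {G : Type} [Group G] [Finite G] (ρ : G →* End X) (hπ : ∀ g, ρ g ≫ π = π)
  (hρ : ∀ g, ρ g ≫ π ≫ f = π ≫ f)
  (ho : ∀ (k : Type) [Field k] [IsAlgClosed k] (x y : Spec (.of k) ⟶ X),
    x ≫ π = y ≫ π → ∃ g, y = x ≫ ρ g) {l : ℕ} (hl0 : l ≠ 0) (i : ℕ)
include hπ ho hl0

lemma pull : ∃ p : _ →ₗ[ℚ] _, Injective p ∧ (∀ w, (∃ v, p v = w) ↔
      w ∈ ⨅ g, LinearMap.ker (Et.act Ω (π ≫ f) l i (ρ g) (hρ g) - 1)) ∧
    ∀ (σ : Ω ≃ₐ[R] Ω) v, p (Et.gal f l i σ v) = Et.gal (π ≫ f) l i σ (p v) := by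
  let t := spc (algebraMap R Ω)
  let π' : (fbr (π ≫ f) t).left ⟶ (fbr f t).left :=
    pullback.map t _ t f (𝟙 _) π (𝟙 _) (by simp) (by simp)
  have p1 : π' ≫ pullback.fst (Over.mk t).hom f = pullback.fst (Over.mk t).hom (π ≫ f) :=
    (pullback.lift_fst _ _ _).trans (Category.comp_id _)
  have p2 : π' ≫ pullback.snd (Over.mk t).hom f = pullback.snd (Over.mk t).hom (π ≫ f) ≫ π :=
    pullback.lift_snd _ _ _
  have hP : IsPullback π' (pullback.snd (Over.mk t).hom _) (pullback.snd (Over.mk t).hom f) π :=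
    .of_right (by rw [p1]; exact .of_hasPullback _ _) p2 (.of_hasPullback _ f)
  obtain ⟨q1, q2⟩ := Quo.quo_bc π (fun g => ρ g) ρ.map_mul ho hP
    (fun g => sb (π ≫ f) t (ρ g) (hρ g))
    (fun g => pullback.hom_ext (by rw [Category.assoc, p1, sb_fst])
      (by rw [Category.assoc, p2, ← Category.assoc, sb_snd, Category.assoc, hπ]))
    (fun g => sb_snd ..) ((Linv.spec (Nat.cast_ne_zero.2 hl0).isUnit).of_hom
      (pullback.fst (Over.mk t).hom f)) i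
  refine ⟨hl l i π', q1, fun y => (q2 y).trans ?_, fun σ v => ?_⟩
  · simp only [Submodule.mem_iInf, LinearMap.mem_ker, LinearMap.sub_apply, Module.End.one_apply,
      sub_eq_zero]
    rfl
  · rw [gal_eq f l i σ (Over.w (M2.gm σ)), gal_eq (π ≫ f) l i σ (Over.w (M2.gm σ))]
    have a1 {Z} (h : Z ⟶ Spec (.of R)) : fa h (t := t) (σ : Ω →+* Ω) (Over.w (M2.gm σ)) ≫
        pullback.fst (Over.mk t).hom h = pullback.fst (Over.mk t).hom h ≫ spc (σ : Ω →+* Ω) :=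
      pullback.lift_fst _ _ _
    have a2 {Z} (h : Z ⟶ Spec (.of R)) : fa h (t := t) (σ : Ω →+* Ω) (Over.w (M2.gm σ)) ≫
        pullback.snd (Over.mk t).hom h = pullback.snd (Over.mk t).hom h := pullback.lift_snd _ _ _
    refine hl_sq l i (pullback.hom_ext (f := (Over.mk t).hom) ?_ ?_) v
    · rw [Category.assoc, Category.assoc, p1, a1, a1, ← Category.assoc, p1]
    · rw [Category.assoc, Category.assoc, p2, a2, p2, ← Category.assoc, a2]

omit hπ ho hl0 in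
lemma split {A B : Type 1} [AddCommGroup A] [Module ℚ A] [AddCommGroup B] [Module ℚ B]
    (r : G → Module.End ℚ B) (r1 : r 1 = 1) (r2 : ∀ g h, r (g * h) = r h * r g) (p : A →ₗ[ℚ] B)
    (h1 : Injective p) (h2 : ∀ w, (∃ v, p v = w) ↔ w ∈ ⨅ g, LinearMap.ker (r g - 1)) :
    Bijective (p.coprod (⨆ g, LinearMap.range (r g - 1)).subtype) := by
  obtain ⟨e, e1, e2, e3, e4, -⟩ := Sum.avg (Sum.ofAnti r r1 r2)
  have a : Sum.inv (Sum.ofAnti r r1 r2) = ⨅ g, LinearMap.ker (r g - 1) :=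
    (Equiv.inv G).iInf_comp (g := fun g => LinearMap.ker (r g - 1))
  have b : (⨆ g, LinearMap.range (Sum.ofAnti r r1 r2 g - 1)) = ⨆ g, LinearMap.range (r g - 1) :=
    (Equiv.inv G).iSup_comp (g := fun g => LinearMap.range (r g - 1))
  rw [a] at e1 e2
  rw [b] at e3 e4
  refine ⟨(injective_iff_map_eq_zero _).2 fun ⟨x, y⟩ h => ?_, fun v => ?_⟩
  · have h' : p x + y = 0 := h
    have hx : p x = 0 := by
      have := congrArg e h'
      rwa [map_add, e3 y y.2, e2 _ ((h2 _).1 ⟨x, rfl⟩), map_zero, add_zero] at this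
    rw [hx, zero_add] at h'
    exact Prod.ext (h1 (hx.trans (map_zero p).symm)) (Subtype.ext h')
  · obtain ⟨x, hx⟩ := (h2 _).2 (e1 v)
    exact ⟨(x, ⟨_, e4 v⟩), (congrArg (· + (v - e v)) hx).trans (add_sub_cancel _ _)⟩

end Finc

theorem fine (h : FINR_s) : FINE_s := by
  intro K _ X Y π f _ _ d _ _ G _ _ ρ hπ ho S hS hD O Ω _ _ _ _ _ _ _ _ _ _ _ l _ ul i φ u Q h1 h2
    h3 h4
  have hρ g : ρ g ≫ π ≫ f = π ≫ f := by rw [← Category.assoc, hπ]
  obtain ⟨a1, a2, a3⟩ := h K X (π ≫ f) d G ρ hρ S hS hD O Ω l ul i φ u Q h1 h2 h3 h4 _ rfl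
  obtain ⟨p, b1, b2, b3⟩ := Finc.pull (Ω := Ω) π f ρ hπ hρ ho (Fact.out : l.Prime).ne_zero i
  let e := LinearEquiv.ofBijective _ (Finc.split _ (Finr.act_id _ l i _ _ ρ.map_one)
    (fun g h => Finr.act_comp _ l i _ _ _ _ _ _ (ρ.map_mul g h)) p b1 b2)
  refine ⟨_, _, _, e.symm, LinearMap.ext fun x => e.symm_apply_eq.2 ?_,
    LinearMap.ext fun x => e.symm_apply_eq.2 ?_, a3⟩ <;>
    exact (map_add _ _ _).trans (congrArg (· + _) (b3 _ _).symm)

theorem finc (h : FINR_s) : FINC_s := by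
  intro K _ X Y π f _ _ d _ _ G _ _ ρ hπ ho S hS hD O Ω _ _ _ _ _ _ _ _ _ _ _ l _ ul i φ u Q h1 h2
    h3 h4
  have hρ g : ρ g ≫ π ≫ f = π ≫ f := by rw [← Category.assoc, hπ]
  obtain ⟨p, b1, b2, b3⟩ := Finc.pull (Ω := Ω) π f ρ hπ hρ ho (Fact.out : l.Prime).ne_zero i
  exact (Sum.extA _ (Finr.act_id _ l i _ _ ρ.map_one)
    (fun g h => Finr.act_comp _ l i _ _ _ _ _ _ (ρ.map_mul g h)) h1
    (fun _ => Finr.act_gal _ l i _ _ φ) (fun _ => Finr.act_gal _ l i _ _ u)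
    (h K X (π ≫ f) d G ρ hρ S hS hD O Ω l ul i φ u Q h1 h2 h3 h4 _ rfl)).trans
      (Quo.mwOn_iff p b1 (b3 φ) (b3 u) b2)

end Pool.Agent.MP_855f4c_ag.T

end
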